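import Pool.Agent.Lib.MP_0f5a55_nt.NR.C2

open Complex MeasureTheory Set Filter Topology
open scoped Real ComplexConjugate NumberField

namespace NR

/-- Row C3. Lattice points of a residue class. Apply C2 to {z | (ρ + M z) ∈ S}, convex, measurable, contained in the square of
radius (r + |ρ|)/M ≤ r + |ρ|, volume |S|/M². -/
theorem lattice_res {S : Set (ℝ × ℝ)} (hS : Convex ℝ S) (hm : MeasurableSet S) {r : ℝ} (h1 : 1 ≤ r)
    (hr : ∀ z ∈ S, |z.1| ≤ r ∧ |z.2| ≤ r) {M : ℕ} (hM : 0 < M) (ρ : ZMod M × ZMod M) :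
    {v : ℤ × ℤ | ((v.1 : ℝ), (v.2 : ℝ)) ∈ S ∧ (v.1 : ZMod M) = ρ.1 ∧ (v.2 : ZMod M) = ρ.2}.Finite ∧
    |(({v : ℤ × ℤ | ((v.1 : ℝ), (v.2 : ℝ)) ∈ S ∧ (v.1 : ZMod M) = ρ.1 ∧ (v.2 : ZMod M) = ρ.2}.ncard : ℕ) : ℝ) -
      (volume S).toReal / (M : ℝ) ^ 2| ≤ 5 * (r + M) := by
  have : NeZero M := ⟨hM.ne'⟩
  have hM' : (0 : ℝ) < M := by exact_mod_cast hM
  have hM1 : (1 : ℝ) ≤ M := by exact_mod_cast hM
  obtain ⟨a, ha0, ha1, ha⟩ : ∃ a : ℤ, (0 : ℝ) ≤ a ∧ (a : ℝ) ≤ M ∧ ((a : ℤ) : ZMod M) = ρ.1 := by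
    refine ⟨(ρ.1.val : ℤ), by positivity, ?_, by simp⟩
    have := (ZMod.val_lt ρ.1).le
    exact_mod_cast this
  obtain ⟨b, hb0, hb1, hb⟩ : ∃ a : ℤ, (0 : ℝ) ≤ a ∧ (a : ℝ) ≤ M ∧ ((a : ℤ) : ZMod M) = ρ.2 := by
    refine ⟨(ρ.2.val : ℤ), by positivity, ?_, by simp⟩
    have := (ZMod.val_lt ρ.2).le
    exact_mod_cast this
  set φ : ℝ × ℝ → ℝ × ℝ := fun z => ((a : ℝ) + M * z.1, (b : ℝ) + M * z.2) with hφ
  have hφc : Continuous φ := by
    rw [hφ]
    fun_prop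
  have hconv : Convex ℝ (φ ⁻¹' S) := by
    intro x hx y hy s t hs ht hst
    have h2 := hS hx hy hs ht hst
    have h3 : s • φ x + t • φ y = φ (s • x + t • y) := by
      simp only [hφ, Prod.smul_mk, Prod.mk_add_mk, Prod.fst_add, Prod.snd_add, Prod.smul_fst, Prod.smul_snd, smul_eq_mul]
      refine Prod.ext ?_ ?_
      · simp only
        linear_combination (a : ℝ) * hst
      · simp only
        linear_combination (b : ℝ) * hst
    rw [h3] at h2
    exact h2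
  have hbd : ∀ z ∈ φ ⁻¹' S, |z.1| ≤ r + M ∧ |z.2| ≤ r + M := by
    have key : ∀ c x : ℝ, 0 ≤ c → c ≤ M → |c + M * x| ≤ r → |x| ≤ r + M := by
      intro c x h2 h3 h4
      have h5 := abs_le.1 h4
      have h6 : |(M : ℝ) * x| ≤ r + M := by
        rw [abs_le]
        constructor <;> linarith [h5.1, h5.2]
      rw [abs_mul, abs_of_pos hM'] at h6
      have h7 : |x| ≤ (M : ℝ) * |x| := le_mul_of_one_le_left (abs_nonneg _) hM1
      linarith
    intro z hz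
    have h2 := hr _ hz
    exact ⟨key _ _ ha0 ha1 h2.1, key _ _ hb0 hb1 h2.2⟩
  have hvol : (volume (φ ⁻¹' S)).toReal = (volume S).toReal / (M : ℝ) ^ 2 := by
    have h2 : φ ⁻¹' S = (fun z : ℝ × ℝ => (M : ℝ) • z) ⁻¹' ((fun z : ℝ × ℝ => ((a : ℝ), (b : ℝ)) + z) ⁻¹' S) := by
      ext z
      simp only [hφ, mem_preimage, Prod.smul_def, smul_eq_mul, Prod.mk_add_mk]
    rw [h2, Measure.addHaar_preimage_smul volume hM'.ne', measure_preimage_add]
    have h3 : Module.finrank ℝ (ℝ × ℝ) = 2 := by simp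
    rw [h3, ENNReal.toReal_mul, ENNReal.toReal_ofReal (abs_nonneg _), abs_of_pos (by positivity)]
    rw [div_eq_inv_mul]
  have h := lattice_convex hconv (hφc.measurable hm) (r := r + M) (by linarith) hbd
  set f : ℤ × ℤ → ℤ × ℤ := fun u => (a + M * u.1, b + M * u.2) with hf
  have hMz : (M : ℤ) ≠ 0 := by exact_mod_cast hM.ne'
  have hfi : Function.Injective f := by
    intro u v huv
    have h2 := (Prod.ext_iff.1 huv).1
    have h3 := (Prod.ext_iff.1 huv).2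
    simp only [hf] at h2 h3
    exact Prod.ext (mul_left_cancel₀ hMz (by linarith)) (mul_left_cancel₀ hMz (by linarith))
  have hset : {v : ℤ × ℤ | ((v.1 : ℝ), (v.2 : ℝ)) ∈ S ∧ (v.1 : ZMod M) = ρ.1 ∧ (v.2 : ZMod M) = ρ.2} =
      f '' {v : ℤ × ℤ | ((v.1 : ℝ), (v.2 : ℝ)) ∈ φ ⁻¹' S} := by
    ext v
    constructor
    · rintro ⟨h2, h3, h4⟩
      rw [← ha] at h3
      rw [← hb] at h4
      obtain ⟨u1, hu1⟩ := (ZMod.intCast_eq_intCast_iff_dvd_sub _ _ _).1 h3.symm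
      obtain ⟨u2, hu2⟩ := (ZMod.intCast_eq_intCast_iff_dvd_sub _ _ _).1 h4.symm
      have e1 : v.1 = a + M * u1 := by linarith
      have e2 : v.2 = b + M * u2 := by linarith
      refine ⟨(u1, u2), ?_, ?_⟩
      · change ((a : ℝ) + M * (u1 : ℝ), (b : ℝ) + M * (u2 : ℝ)) ∈ S
        rw [e1, e2] at h2
        push_cast at h2
        exact h2
      · simp only [hf]
        exact Prod.ext e1.symm e2.symm
    · rintro ⟨u, hu, rfl⟩
      refine ⟨?_, ?_, ?_⟩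
      · have h2 : ((a : ℝ) + M * (u.1 : ℝ), (b : ℝ) + M * (u.2 : ℝ)) ∈ S := hu
        simp only [hf]
        push_cast
        exact h2
      · simp only [hf]
        push_cast
        rw [ha]
        simp
      · simp only [hf]
        push_cast
        rw [hb]
        simp
  rw [hset]
  refine ⟨h.1.image f, ?_⟩
  rw [Set.ncard_image_of_injective _ hfi, ← hvol]
  exact h.2

end NR
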