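import Pool.Agent.Lib.MP_0f5a55_nt.NR.C5

open Complex MeasureTheory Set Filter Topology
open scoped Real ComplexConjugate NumberField

namespace NR

open HC

/-- sums over the residue classes grouped by the value of the form -/
theorem C6_fib (F : Fm) (M : ℕ) [NeZero M] (g : ZMod M → ℂ) :
    ∑ ρ : ZMod M × ZMod M, g (zv F M ρ) = ∑ k : ZMod M, g k * (ct F M k : ℂ) := by
  classical
  rw [← Finset.sum_fiberwise Finset.univ (zv F M) (fun ρ => g (zv F M ρ))]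
  refine Finset.sum_congr rfl fun k _ => ?_
  have h1 : ∑ i ∈ Finset.univ with zv F M i = k, g (zv F M i) =
      ∑ i ∈ Finset.univ with zv F M i = k, g k := by
    refine Finset.sum_congr rfl fun i hi => ?_
    rw [(Finset.mem_filter.1 hi).2]
  have h2 : ct F M k = (Finset.univ.filter fun i => zv F M i = k).card := by
    unfold ct
    rw [← Set.ncard_coe_finset]
    congr 1
    ext v
    simp
  rw [h1, Finset.sum_const, h2, nsmul_eq_mul]
  ring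

theorem C6_main (F : Fm) (M : ℕ) [NeZero M] (w : ℕ → ℂ) :
    ∑ ρ : ZMod M × ZMod M, w (zv F M ρ).val + ∑ ρ : ZMod M × ZMod M, w (-(zv F M ρ)).val =
      ∑ k : ZMod M, w k.val * (SS F M k : ℂ) := by
  rw [C6_fib F M (fun k => w k.val), C6_fib F M (fun k => w (-k).val)]
  have h1 : ∑ k : ZMod M, w (-k).val * (ct F M k : ℂ) = ∑ k : ZMod M, w k.val * (ct F M (-k) : ℂ) := by
    rw [← Equiv.sum_comp (Equiv.neg (ZMod M))]
    refine Finset.sum_congr rfl fun k _ => ?_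
    simp
  rw [h1, ← Finset.sum_add_distrib]
  refine Finset.sum_congr rfl fun k _ => ?_
  unfold SS
  push_cast
  ring

theorem C6_per {M : ℕ} [NeZero M] {w : ℕ → ℂ} (hw : ∀ n, w (n + M) = w n) (n : ℕ) :
    w n = w ((n : ZMod M)).val := by
  rw [ZMod.val_natCast]
  have h : ∀ k n : ℕ, w (n + k * M) = w n := by
    intro k
    induction k with
    | zero => intro n; simp
    | succ k ih =>
      intro n
      rw [Nat.succ_mul, ← add_assoc, hw, ih]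
  conv_lhs => rw [← Nat.mod_add_div n M, mul_comm M]
  exact h _ _

/-- the value of the form in a residue class -/
theorem C6_cast (F : Fm) (M : ℕ) (v : ℤ × ℤ) :
    ((F.val v : ℤ) : ZMod M) = zv F M ((v.1 : ZMod M), (v.2 : ZMod M)) := by
  unfold Fm.val zv
  push_cast
  ring

/-- the points of a given sign, grouped by residue classes -/
theorem C6_sgn {P : Pr} {l : ℝ} {F : Fm} {M : ℕ} [NeZero M] {w : ℕ → ℂ} (hw : ∀ n, w (n + M) = w n) {s : ℤ} (hs : s = 1 ∨ s = -1) (x : ℕ)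
    (D : Finset (ℤ × ℤ)) (hD : ∀ v, v ∈ D ↔ v ∈ P.Dom l ∧ 0 < s * F.val v ∧ (F.val v).natAbs ≤ x) :
    ∑ v ∈ D, w (F.val v).natAbs = ∑ ρ : ZMod M × ZMod M, w ((s : ZMod M) * zv F M ρ).val *
      (({v : ℤ × ℤ | v ∈ P.Dom l ∧ 0 < s * F.val v ∧ ((s * F.val v : ℤ) : ℝ) ≤ (x : ℝ) ∧ (v.1 : ZMod M) = ρ.1 ∧
        (v.2 : ZMod M) = ρ.2}.ncard : ℕ) : ℂ) := by
  classical
  rw [← Finset.sum_fiberwise D (fun v : ℤ × ℤ => (((v.1 : ZMod M), (v.2 : ZMod M)) : ZMod M × ZMod M))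
    (fun v => w (F.val v).natAbs)]
  refine Finset.sum_congr rfl fun ρ _ => ?_
  have habs : ∀ v : ℤ × ℤ, 0 < s * F.val v → (((F.val v).natAbs : ℕ) : ℤ) = s * F.val v := by
    intro v hv
    rw [Int.natCast_natAbs]
    rcases hs with rfl | rfl
    · rw [one_mul] at hv ⊢
      exact abs_of_pos hv
    · rw [neg_one_mul] at hv ⊢
      exact abs_of_neg (by linarith)
  have h1 : ∑ v ∈ D with (((v.1 : ZMod M), (v.2 : ZMod M)) : ZMod M × ZMod M) = ρ, w (F.val v).natAbs =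
      ∑ v ∈ D with (((v.1 : ZMod M), (v.2 : ZMod M)) : ZMod M × ZMod M) = ρ,
        w ((s : ZMod M) * zv F M ρ).val := by
    refine Finset.sum_congr rfl fun v hv => ?_
    obtain ⟨hv1, hv2⟩ := Finset.mem_filter.1 hv
    obtain ⟨h2, h3, h4⟩ := (hD v).1 hv1
    rw [C6_per hw]
    congr 2
    have h5 := congrArg (fun z : ℤ => (z : ZMod M)) (habs v h3)
    rw [Int.cast_natCast, Int.cast_mul, C6_cast, hv2] at h5
    exact h5
  rw [h1, Finset.sum_const, nsmul_eq_mul, mul_comm]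
  congr 2
  rw [← Set.ncard_coe_finset]
  congr 1
  ext v
  simp only [Finset.coe_filter, Set.mem_ofPred_eq, hD]
  constructor
  · rintro ⟨⟨h2, h3, h4⟩, h5⟩
    refine ⟨h2, h3, ?_, congrArg Prod.fst h5, congrArg Prod.snd h5⟩
    rw [← habs v h3]
    rw [Int.cast_natCast]
    exact_mod_cast h4
  · rintro ⟨h2, h3, h4, h5, h6⟩
    refine ⟨⟨h2, h3, ?_⟩, Prod.ext h5 h6⟩
    rw [← habs v h3, Int.cast_natCast] at h4
    exact_mod_cast h4

/-- the sum over n grouped by the points of the domain -/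
theorem C6_sum {P : Pr} {N : ℕ} {l : ℝ} {F : Fm} {τ : (ℤ × ℤ) ≃ (ℤ × ℤ)} (h : P.Ok N l F τ)
    (w : ℕ → ℂ) (x : ℕ) (D : Finset (ℤ × ℤ)) (hD : ∀ v, v ∈ D ↔ v ∈ P.Dom l ∧ (F.val v).natAbs ≤ x) :
    ∑ n ∈ Finset.Icc 1 x, w n * (P.R l F n : ℂ) = ∑ v ∈ D, w (F.val v).natAbs := by
  classical
  have hmap : ∀ v ∈ D, (F.val v).natAbs ∈ Finset.Icc 1 x := by
    intro v hv
    obtain ⟨h1, h2⟩ := (hD v).1 hv
    refine Finset.mem_Icc.2 ⟨?_, h2⟩
    have h3 := (l_ne h (v := v) h1.1).2.2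
    exact Nat.one_le_iff_ne_zero.2 (Int.natAbs_ne_zero.2 h3)
  rw [← Finset.sum_fiberwise_of_maps_to hmap]
  refine Finset.sum_congr rfl fun n hn => ?_
  have h1 : ∑ v ∈ D with (F.val v).natAbs = n, w (F.val v).natAbs =
      ∑ v ∈ D with (F.val v).natAbs = n, w n := by
    refine Finset.sum_congr rfl fun v hv => ?_
    rw [(Finset.mem_filter.1 hv).2]
  rw [h1, Finset.sum_const, nsmul_eq_mul, mul_comm]
  congr 2
  unfold Pr.R
  rw [← Set.ncard_coe_finset]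
  congr 1
  ext v
  simp only [Finset.coe_filter, Set.mem_ofPred_eq, hD]
  constructor
  · rintro ⟨h2, h3⟩
    refine ⟨⟨h2, ?_⟩, h3⟩
    rw [h3]
    exact (Finset.mem_Icc.1 hn).2
  · rintro ⟨⟨h2, _⟩, h3⟩
    exact ⟨h2, h3⟩

/-- Row C6. Weighted count. Proof. Σ_{n ≤ x} w(n) R(n) = Σ_{v ∈ Dom, |F v| ≤ x} w(|F v|) (finite: B5.dom_fin; F v ≠ 0 on Dom). Split by the
class ρ of v mod M and the sign s of F(v): |F v| = s F(v) ≡ s zv(ρ), w(|F v|) = w((s zv ρ).val) by periodicity. By C5 each class gives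
c0 x/(√N M²) + O(√x); Σ_ρ [w((zv ρ).val) + w((-zv ρ).val)] = Σ_k w(k.val) (ct k + ct(-k)) = Σ_k w(k.val) SS k. -/
theorem count_wt {l : ℝ} (hl : 0 < l) : ∃ c0 : ℝ, ∀ (P : Pr) (N : ℕ) (F : Fm) (τ : (ℤ × ℤ) ≃ (ℤ × ℤ)), P.Ok N l F τ →
    ∀ (M : ℕ) [NeZero M] (w : ℕ → ℂ), (∀ n, w (n + M) = w n) → ∃ C : ℝ, 0 ≤ C ∧ ∀ x : ℕ, 1 ≤ x →
      ‖∑ n ∈ Finset.Icc 1 x, w n * (P.R l F n : ℂ) -
        (c0 * x / (√N * (M : ℝ) ^ 2) : ℝ) * ∑ k : ZMod M, w k.val * (SS F M k : ℂ)‖ ≤ C * √x := by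
  classical
  obtain ⟨c0, hc0⟩ := count_res hl
  refine ⟨c0, ?_⟩
  intro P N F τ h M _ w hw
  have hM : 0 < M := Nat.pos_of_ne_zero (NeZero.ne M)
  have hA := fun ρ : ZMod M × ZMod M => hc0 P N F τ h M hM ρ 1 (Or.inl rfl)
  have hB := fun ρ : ZMod M × ZMod M => hc0 P N F τ h M hM ρ (-1) (Or.inr rfl)
  choose CA hCA hA using hA
  choose CB hCB hB using hB
  refine ⟨∑ ρ : ZMod M × ZMod M, (‖w (((1 : ℤ) : ZMod M) * zv F M ρ).val‖ * CA ρ +
    ‖w (((-1 : ℤ) : ZMod M) * zv F M ρ).val‖ * CB ρ), ?_, ?_⟩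
  · exact Finset.sum_nonneg fun ρ _ => add_nonneg (mul_nonneg (norm_nonneg _) (hCA ρ))
      (mul_nonneg (norm_nonneg _) (hCB ρ))
  intro x hx
  have hx1 : (1 : ℝ) ≤ (x : ℝ) := by exact_mod_cast hx
  set D : Finset (ℤ × ℤ) := (dom_fin h x).toFinset with hDdef
  have hD : ∀ v, v ∈ D ↔ v ∈ P.Dom l ∧ (F.val v).natAbs ≤ x := by
    intro v
    rw [hDdef, Set.Finite.mem_toFinset, Set.mem_ofPred_eq]
  rw [C6_sum h w x D hD]
  have hsplit : ∑ v ∈ D, w (F.val v).natAbs =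
      ∑ v ∈ D.filter (fun v => 0 < (1 : ℤ) * F.val v), w (F.val v).natAbs +
      ∑ v ∈ D.filter (fun v => 0 < (-1 : ℤ) * F.val v), w (F.val v).natAbs := by
    rw [← Finset.sum_filter_add_sum_filter_not D (fun v => 0 < (1 : ℤ) * F.val v)]
    congr 1
    refine Finset.sum_congr ?_ fun _ _ => rfl
    ext v
    simp only [Finset.mem_filter, hD]
    constructor
    · rintro ⟨h1, h2⟩
      refine ⟨h1, ?_⟩
      have h3 := (l_ne h (v := v) h1.1.1).2.2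
      omega
    · rintro ⟨h1, h2⟩
      refine ⟨h1, ?_⟩
      omega
  have e1 := C6_sgn hw (s := 1) (Or.inl rfl) x (D.filter (fun v => 0 < (1 : ℤ) * F.val v)) (by
    intro v
    rw [Finset.mem_filter, hD]
    tauto)
  have e2 := C6_sgn hw (s := -1) (Or.inr rfl) x (D.filter (fun v => 0 < (-1 : ℤ) * F.val v)) (by
    intro v
    rw [Finset.mem_filter, hD]
    tauto)
  rw [hsplit, e1, e2, ← Finset.sum_add_distrib, ← C6_main F M w, ← Finset.sum_add_distrib, Finset.mul_sum,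
    ← Finset.sum_sub_distrib, Finset.sum_mul]
  refine (norm_sum_le _ _).trans (Finset.sum_le_sum fun ρ _ => ?_)
  have k1 : (((1 : ℤ) : ZMod M) * zv F M ρ) = zv F M ρ := by simp
  have k2 : (((-1 : ℤ) : ZMod M) * zv F M ρ) = -zv F M ρ := by simp
  rw [k1, k2]
  have hA1 := hA ρ x hx1
  have hB1 := hB ρ x hx1
  set nA : ℕ := {v : ℤ × ℤ | v ∈ P.Dom l ∧ 0 < 1 * F.val v ∧ ((1 * F.val v : ℤ) : ℝ) ≤ (x : ℝ) ∧
    (v.1 : ZMod M) = ρ.1 ∧ (v.2 : ZMod M) = ρ.2}.ncard with hnA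
  set nB : ℕ := {v : ℤ × ℤ | v ∈ P.Dom l ∧ 0 < -1 * F.val v ∧ ((-1 * F.val v : ℤ) : ℝ) ≤ (x : ℝ) ∧
    (v.1 : ZMod M) = ρ.1 ∧ (v.2 : ZMod M) = ρ.2}.ncard with hnB
  have hid : w (zv F M ρ).val * (nA : ℂ) + w (-zv F M ρ).val * (nB : ℂ) -
      ((c0 * x / (√N * (M : ℝ) ^ 2) : ℝ) : ℂ) * (w (zv F M ρ).val + w (-zv F M ρ).val) =
      w (zv F M ρ).val * (((nA : ℝ) - c0 * x / (√N * (M : ℝ) ^ 2) : ℝ) : ℂ) +
      w (-zv F M ρ).val * (((nB : ℝ) - c0 * x / (√N * (M : ℝ) ^ 2) : ℝ) : ℂ) := by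
    rw [ofReal_sub, ofReal_sub, ofReal_natCast, ofReal_natCast]
    ring
  rw [hid]
  refine (norm_add_le _ _).trans ?_
  rw [norm_mul, norm_mul, Complex.norm_real, Complex.norm_real, Real.norm_eq_abs, Real.norm_eq_abs, add_mul,
    mul_assoc, mul_assoc]
  exact add_le_add (mul_le_mul_of_nonneg_left hA1 (norm_nonneg _))
    (mul_le_mul_of_nonneg_left hB1 (norm_nonneg _))

end NR
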