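import Mathlib
import Pool.Agent.Lib.MP_0f5a55_nt.NH.D
import Pool.Agent.Lib.MP_0f5a55_nt.NH.MD

/-!
Weaker data of an L-function of degree two, enough for the theorems on the odd multiplicities.
-/

open Complex MeasureTheory Set Filter Topology
open scoped Real ComplexConjugate

namespace NR

/-- arithmetic part -/
structure Pre (a : ℕ → ℂ) : Prop where
  one : a 1 = 1
  mul : ∀ m n : ℕ, 0 < m → 0 < n → Nat.Coprime m n → a (m * n) = a m * a n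
  loc : ∀ p : ℕ, p.Prime → ∃ α β : ℂ, ‖α‖ ≤ 1 ∧ ‖β‖ ≤ 1 ∧
    ∀ k : ℕ, a (p ^ k) = ∑ j ∈ Finset.range (k + 1), α ^ j * β ^ (k - j)
  bd : ∀ n : ℕ, 0 < n → ‖a n‖ ≤ (n.divisors.card : ℝ)

/-- the phase of the Gamma factor: v is the unit making L real on the critical line, W is exponentially close to 1 -/
structure Ph (N : ℕ) (L : ℂ → ℂ) (u : ℂ) (v W : ℝ → ℂ) (C : ℝ) : Prop where
  nu : ‖u‖ = 1
  nv : ∀ t, ‖v t‖ = 1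
  cv : Continuous v
  re : ∀ t : ℝ, (v t * L (1 / 2 + t * I)).im = 0
  nW : ∀ t, ‖W t‖ = 1
  W1 : ∀ t, ‖W t - 1‖ ≤ C * Real.exp (-(π * t))
  eq : ∀ t : ℝ, u * (((√N / (2 * π) : ℝ) : ℂ) ^ (1 / 2 + t * I : ℂ) * Gamma (1 / 2 + t * I)) =
    ((√(√N / (2 * π)) * √(π / Real.cosh (π * t)) : ℝ) : ℂ) * v t * W t

/-- what is used of an L-function of degree two -/
structure Dat (N : ℕ) (a : ℕ → ℂ) (L : ℂ → ℂ) : Prop extends Pre a where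
  pos : 0 < N
  ms : ∃ C : ℝ, 0 ≤ C ∧ ∀ x : ℝ, 0 < x → ∑' n : ℕ, ‖a (n + 1)‖ ^ 2 * Real.exp (-(x * ((n : ℝ) + 1))) ≤ C / x
  tw : ∀ M : ℕ, 0 < M → ∀ w : ℕ → ℂ, (∀ n : ℕ, w (n + M) = w n) → ∃ C : ℝ, 0 ≤ C ∧ ∀ x : ℕ, 1 ≤ x →
    ‖∑ n ∈ Finset.Icc 1 x, a n * w n‖ ≤ C * (√x * (1 + Real.log x))
  ze : ∃ m r : ℕ, 0 < m ∧ Nat.Coprime r m ∧ ∀ p : ℕ, p.Prime → p ≡ r [MOD m] → a p = 0
  ent : Differentiable ℂ L
  ser : ∀ s : ℂ, 2 ≤ s.re → HasSum (fun n : ℕ => a (n + 1) * ((n : ℂ) + 1) ^ (-s)) (L s)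
  gr : ∃ C : ℝ, 0 < C ∧ ∀ s : ℂ, 1 / 2 ≤ s.re → ‖L s‖ ≤ C * (1 + |s.im|) ^ 2
  ph : ∃ (u : ℂ) (v W : ℝ → ℂ) (C : ℝ), Ph N L u v W C

/-- Hardy function -/
noncomputable def Zf (L : ℂ → ℂ) (v : ℝ → ℂ) (t : ℝ) : ℝ := (v t * L (1 / 2 + t * I)).re

/-- exp((pi/2 - ε) t) times the absolute value of the Gamma factor times the Hardy function -/
noncomputable def r2 (N : ℕ) (L : ℂ → ℂ) (v : ℝ → ℂ) (ε t : ℝ) : ℝ :=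
  Real.exp ((π / 2 - ε) * t) * (√(√N / (2 * π)) * √(π / Real.cosh (π * t)) * Zf L v t)

theorem Pre.loc_ex {a : ℕ → ℂ} (D : Pre a) : ∃ α β : ℕ → ℂ, NH.Loc a α β := by
  have h : ∀ p : ℕ, ∃ α β : ℂ, p.Prime → ‖α‖ ≤ 1 ∧ ‖β‖ ≤ 1 ∧
      ∀ k : ℕ, a (p ^ k) = ∑ j ∈ Finset.range (k + 1), α ^ j * β ^ (k - j) := by
    intro p
    by_cases hp : p.Prime
    · obtain ⟨x, y, h⟩ := D.loc p hp
      exact ⟨x, y, fun _ => h⟩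
    · exact ⟨0, 0, fun h => absurd h hp⟩
  choose α β h using h
  exact ⟨α, β, fun p hp => h p hp⟩

end NR
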