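import Pool.Agent.Lib.MP_0f5a55_nt.NR.A0
import Pool.Agent.Lib.MP_0f5a55_nt.NR.D

open Complex MeasureTheory Set Filter Topology
open scoped Real ComplexConjugate NumberField

namespace NR

open HC

variable {K : Type*} [Field K] [NumberField K]

/-- the arithmetic part of the data -/
theorem RC.pre (h2 : Module.finrank ℚ K = 2) {f : ℕ} {ψ : Ideal (𝓞 K) →*₀ ℂ} (h : RC f ψ) : Pre (ac ψ) := by
  have hone := RC.ac_one h
  have hmul : ∀ m n : ℕ, 0 < m → 0 < n → Nat.Coprime m n → ac ψ (m * n) = ac ψ m * ac ψ n :=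
    fun m n hm hn hmn => RC.ac_mul h hm hn hmn
  have hloc := RC.ac_loc h2 h
  exact ⟨hone, hmul, hloc, fun n hn => bd_of hone hmul hloc hn⟩

/-- the square and the trivial character -/
theorem RC.aux {f : ℕ} {ψ : Ideal (𝓞 K) →*₀ ℂ} (h : RC f ψ) : ∃ ψ₀ ψ₂ : Ideal (𝓞 K) →*₀ ℂ, RC f ψ₀ ∧ RC f ψ₂ ∧
    (∀ I, Cop f I → ψ₀ I = 1) ∧ ∀ I, ψ₂ I = ψ I ^ 2 := by
  classical
  have hcop : ∀ I, Cop f I → ψ I ≠ 0 := by
    intro I hI h0
    have := h.cop I hI
    rw [h0, norm_zero] at this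
    exact zero_ne_one this
  let ψ₀ : Ideal (𝓞 K) →*₀ ℂ :=
    { toFun := fun I => if ψ I = 0 then 0 else 1
      map_zero' := by
        show (if ψ 0 = 0 then (0 : ℂ) else 1) = 0
        rw [map_zero, if_pos rfl]
      map_one' := by
        show (if ψ 1 = 0 then (0 : ℂ) else 1) = 1
        rw [map_one, if_neg one_ne_zero]
      map_mul' := fun I J => by
        show (if ψ (I * J) = 0 then (0 : ℂ) else 1) =
          (if ψ I = 0 then (0 : ℂ) else 1) * (if ψ J = 0 then (0 : ℂ) else 1)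
        rw [map_mul]
        by_cases h1 : ψ I = 0
        · rw [if_pos h1, h1, zero_mul, if_pos rfl, zero_mul]
        · by_cases h2 : ψ J = 0
          · rw [if_pos h2, h2, mul_zero, if_pos rfl, mul_zero]
          · rw [if_neg h1, if_neg h2, if_neg (mul_ne_zero h1 h2), one_mul] }
  let ψ₂ : Ideal (𝓞 K) →*₀ ℂ :=
    { toFun := fun I => ψ I ^ 2
      map_zero' := by
        show ψ 0 ^ 2 = 0
        rw [map_zero]
        exact zero_pow two_ne_zero
      map_one' := by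
        show ψ 1 ^ 2 = 1
        rw [map_one, one_pow]
      map_mul' := fun I J => by
        show ψ (I * J) ^ 2 = ψ I ^ 2 * ψ J ^ 2
        rw [map_mul, mul_pow] }
  have e0 : ∀ I, ψ₀ I = if ψ I = 0 then 0 else 1 := fun _ => rfl
  have e2 : ∀ I, ψ₂ I = ψ I ^ 2 := fun _ => rfl
  refine ⟨ψ₀, ψ₂, ⟨h.pos, ?_, ?_, ?_⟩, ⟨h.pos, ?_, ?_, ?_⟩, ?_, e2⟩
  · intro I hI
    rw [e0, if_neg (hcop I hI), norm_one]
  · intro I hI
    rw [e0, if_pos (h.ncop I hI)]
  · intro α hα hc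
    rw [e0, if_neg (hcop _ hc)]
  · intro I hI
    rw [e2, norm_pow, h.cop I hI, one_pow]
  · intro I hI
    rw [e2, h.ncop I hI]
    exact zero_pow two_ne_zero
  · intro α hα hc
    rw [e2, h.triv α hα hc, one_pow]
  · intro I hI
    rw [e0, if_neg (hcop I hI)]

end NR
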