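import Pool.Agent.Lib.MP_0f5a55_nt.NR.QD
import Pool.Agent.Lib.MP_0f5a55_nt.HC.H11

open Complex MeasureTheory Set Filter Topology
open scoped Real ComplexConjugate NumberField

namespace NR

open HC

variable {K : Type*} [Field K] [NumberField K]

/-- Row A1. A quadratic field is totally real or totally complex (r1 + 2 r2 = 2). -/
theorem real_or_complex (h2 : Module.finrank ℚ K = 2) :
    NumberField.IsTotallyReal K ∨ NumberField.IsTotallyComplex K := by
  have h := NumberField.InfinitePlace.card_add_two_mul_card_eq_rank K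
  rw [h2] at h
  rcases Nat.eq_zero_or_pos (NumberField.InfinitePlace.nrComplexPlaces K) with h0 | h0
  · exact Or.inl (NumberField.nrComplexPlaces_eq_zero_iff.1 h0)
  · refine Or.inr (NumberField.nrRealPlaces_eq_zero_iff.1 ?_)
    omega

/-- the two real embeddings; the norm is the product over the two ring homomorphisms K → ℂ -/
theorem exists_RE [NumberField.IsTotallyReal K] (h2 : Module.finrank ℚ K = 2) :
    ∃ σ₁ σ₂ : K →+* ℝ, RE σ₁ σ₂ := by
  classical
  have hc : Fintype.card (K →+* ℂ) = 2 := by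
    rw [NumberField.Embeddings.card K ℂ, h2]
  have hc' : (Finset.univ : Finset (K →+* ℂ)).card = 2 := hc
  obtain ⟨φ₁, φ₂, hne, huniv⟩ := Finset.card_eq_two.1 hc'
  have hr₁ := NumberField.IsTotallyReal.complexEmbedding_isReal φ₁
  have hr₂ := NumberField.IsTotallyReal.complexEmbedding_isReal φ₂
  refine ⟨hr₁.embedding, hr₂.embedding, ?_, ?_⟩
  · intro h
    apply hne
    ext x
    rw [← hr₁.coe_embedding_apply x, ← hr₂.coe_embedding_apply x, h]
  · intro x
    have h1 := Algebra.norm_eq_prod_embeddings ℚ ℂ (x : K)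
    have h3 : ∏ σ : K →ₐ[ℚ] ℂ, σ (x : K) = ∏ φ : K →+* ℂ, φ (x : K) :=
      Fintype.prod_equiv (RingHom.equivRatAlgHom (R := K) (S := ℂ)).symm _ _ fun σ => rfl
    rw [h3, huniv, Finset.prod_pair hne, ← hr₁.coe_embedding_apply, ← hr₂.coe_embedding_apply,
      ← Algebra.coe_norm_int] at h1
    have h4 : (((Algebra.norm ℤ x : ℤ) : ℝ) : ℂ) =
        ((hr₁.embedding (x : K) * hr₂.embedding (x : K) : ℝ) : ℂ) := by
      push_cast
      rw [← h1]
      simp
    exact_mod_cast h4

/-- integral basis `1, w` with the equation of `w` -/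
private theorem A1_quad (h2 : Module.finrank ℚ K = 2) :
    ∃ (b : Module.Basis (Fin 2) ℤ (𝓞 K)) (c d : ℤ), b 0 = 1 ∧
      b 1 * b 1 = (c : 𝓞 K) + (d : 𝓞 K) * b 1 ∧ NumberField.discr K = d ^ 2 + 4 * c := by
  obtain ⟨b, hb⟩ := H11_basis h2
  obtain ⟨w, hw⟩ : ∃ w, w = b 1 := ⟨_, rfl⟩
  obtain ⟨c, hc⟩ : ∃ c, c = b.repr (w * w) 0 := ⟨_, rfl⟩
  obtain ⟨d, hd⟩ : ∃ d, d = b.repr (w * w) 1 := ⟨_, rfl⟩
  have h1 : w * w = (c : 𝓞 K) + (d : 𝓞 K) * w := by
    have h := b.sum_repr (w * w)
    rw [Fin.sum_univ_two, ← hc, ← hd, zsmul_eq_mul, zsmul_eq_mul, hb, ← hw, mul_one] at h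
    exact h.symm
  have htr : ∀ z : 𝓞 K, Algebra.trace ℤ (𝓞 K) z = b.repr z 0 + b.repr (z * w) 1 := by
    intro z
    rw [Algebra.trace_eq_matrix_trace b, Matrix.trace, Fin.sum_univ_two, Matrix.diag_apply,
      Matrix.diag_apply, Algebra.leftMulMatrix_eq_repr_mul, Algebra.leftMulMatrix_eq_repr_mul, hb,
      ← hw, mul_one]
  have hr1 : b.repr 1 = Finsupp.single 0 1 := by
    rw [← hb, Module.Basis.repr_self]
  have hrw : b.repr w = Finsupp.single 1 1 := by
    rw [hw, Module.Basis.repr_self]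
  have ht1 : Algebra.trace ℤ (𝓞 K) 1 = 2 := by
    rw [htr, one_mul, hr1, hrw]
    simp
  have htw : Algebra.trace ℤ (𝓞 K) w = d := by
    rw [htr, hrw, ← hd]
    simp
  have htww : Algebra.trace ℤ (𝓞 K) (w * w) = 2 * c + d ^ 2 := by
    have h3 : w * w = c • (1 : 𝓞 K) + d • w := by
      rw [h1, zsmul_eq_mul, zsmul_eq_mul, mul_one]
    rw [h3, map_add, map_zsmul, map_zsmul, ht1, htw]
    simp only [smul_eq_mul]
    ring
  refine ⟨b, c, d, hb, hw ▸ h1, ?_⟩
  rw [← NumberField.discr_eq_discr K b, Algebra.discr_def, Matrix.det_fin_two]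
  simp only [Algebra.traceMatrix_apply, Algebra.traceForm_apply, hb, ← hw, mul_one, one_mul]
  rw [ht1, htw, htww]
  ring

/-- Hint: HC/H11.lean, H11_quad: D = d² + 4c with w² = c + d w, w in the ring of integers, w ∉ ℚ; D = (2w - d)², and σ₁(2w-d) is a nonzero
real number (D ≠ 0). If D = e² then 2w - d = ±e, w rational, contradiction with finrank 2 (H11_basis or take w from a basis). -/
theorem discr_pos [NumberField.IsTotallyReal K] (h2 : Module.finrank ℚ K = 2) :
    0 < NumberField.discr K ∧ ¬ IsSquare (NumberField.discr K) := by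
  obtain ⟨b, c, d, hb, h1, hD⟩ := A1_quad h2
  obtain ⟨w, hw⟩ : ∃ w, w = b 1 := ⟨_, rfl⟩
  rw [← hw] at h1
  have h3 : (2 * w - (d : 𝓞 K)) * (2 * w - (d : 𝓞 K)) = ((NumberField.discr K : ℤ) : 𝓞 K) := by
    rw [hD]
    push_cast
    linear_combination 4 * h1
  constructor
  · obtain ⟨σ₁, σ₂, -⟩ := exists_RE (K := K) h2
    have h4 := congrArg (fun z : 𝓞 K => σ₁ (z : K)) h3
    simp only [map_mul, map_intCast] at h4
    have h5 : (0 : ℝ) ≤ ((NumberField.discr K : ℤ) : ℝ) := by
      rw [← h4]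
      exact mul_self_nonneg _
    have h6 : 0 ≤ NumberField.discr K := by exact_mod_cast h5
    exact lt_of_le_of_ne h6 (NumberField.discr_ne_zero K).symm
  · rintro ⟨e, he⟩
    rw [he] at h3
    have h4 : (2 * w - (d : 𝓞 K) - (e : 𝓞 K)) * (2 * w - (d : 𝓞 K) + (e : 𝓞 K)) = 0 := by
      push_cast at h3
      linear_combination h3
    have hrw : b.repr w = Finsupp.single 1 1 := by
      rw [hw, Module.Basis.repr_self]
    have hkey : ∀ m : ℤ, 2 * w = (m : 𝓞 K) → False := by
      intro m hm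
      have h5 : (2 : ℤ) • w = m • b 0 := by
        rw [zsmul_eq_mul, zsmul_eq_mul, hb, mul_one]
        exact_mod_cast hm
      have h6 := congrArg (fun z => b.repr z 1) h5
      simp only [map_zsmul, hrw, Module.Basis.repr_self] at h6
      simp at h6
    rcases mul_eq_zero.1 h4 with h | h
    · apply hkey (d + e)
      push_cast
      linear_combination h
    · apply hkey (d - e)
      push_cast
      linear_combination h

end NR
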