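import Pool.Agent.Lib.MP_0f5a55_nt.NR.QD
import Pool.Agent.Lib.MP_0f5a55_nt.HC.H15
import Pool.Agent.Lib.MP_0f5a55_nt.HC.H17
import Pool.Agent.Lib.MP_0f5a55_nt.HC.H20

open Complex MeasureTheory Set Filter Topology
open scoped Real ComplexConjugate NumberField

namespace NR

open HC

variable {K : Type*} [Field K] [NumberField K]

/-- an integer that is prime to `f` in the ring of integers is prime to `f` -/
private theorem A10_coprime {f : ℕ} {m : ℤ} {s t : 𝓞 K} (h : (m : 𝓞 K) * s + (f : 𝓞 K) * t = 1) :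
    IsCoprime m (f : ℤ) := by
  rw [Int.isCoprime_iff_gcd_eq_one]
  set d := Int.gcd m f with hd
  obtain ⟨m', hm'⟩ := Int.gcd_dvd_left (a := m) (b := (f : ℤ))
  obtain ⟨f', hf'⟩ := Int.gcd_dvd_right (a := m) (b := (f : ℤ))
  have h1 : (d : 𝓞 K) * ((m' : 𝓞 K) * s + (f' : 𝓞 K) * t) = 1 := by
    have e1 : (m : 𝓞 K) = (d : 𝓞 K) * (m' : 𝓞 K) := by exact_mod_cast congrArg (Int.cast : ℤ → 𝓞 K) hm'
    have e2 : (f : 𝓞 K) = (d : 𝓞 K) * (f' : 𝓞 K) := by exact_mod_cast congrArg (Int.cast : ℤ → 𝓞 K) hf'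
    rw [← h, e1, e2]
    ring
  have h2 : Algebra.norm ℤ ((d : 𝓞 K)) * Algebra.norm ℤ ((m' : 𝓞 K) * s + (f' : 𝓞 K) * t) = 1 := by
    rw [← map_mul, h1, map_one]
  have h3 : Algebra.norm ℤ ((d : 𝓞 K)) = (d : ℤ) ^ Module.finrank ℤ (𝓞 K) := by
    have := Algebra.norm_algebraMap (R := ℤ) (S := 𝓞 K) (d : ℤ)
    simpa using this
  rw [h3] at h2
  have h4 : IsUnit ((d : ℤ) ^ Module.finrank ℤ (𝓞 K)) := IsUnit.of_mul_eq_one _ h2
  have h5 : Module.finrank ℤ (𝓞 K) ≠ 0 := by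
    rw [NumberField.RingOfIntegers.rank]
    exact Module.finrank_pos.ne'
  have h6 : IsUnit (d : ℤ) := (isUnit_pow_iff h5).1 h4
  have h7 := Int.isUnit_iff_natAbs_eq.1 h6
  simpa using h7

private theorem A10_ord_div {f : ℕ} {β y z : 𝓞 K} (hβ : Ord f β) (hβc : Cop f (Ideal.span {β}))
    (hz : Ord f z) (h : β * y = z) : Ord f y := by
  obtain ⟨m, k, hk⟩ := hβ
  obtain ⟨n, l, hl⟩ := hz
  obtain ⟨i, hi, j, hj, hij⟩ := Ideal.isCoprime_iff_exists.1 hβc.2
  obtain ⟨s, hs⟩ := Ideal.mem_span_singleton.1 hi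
  obtain ⟨t, ht⟩ := Ideal.mem_span_singleton.1 hj
  have hβ' : β = m + f * k := by rw [← hk]; ring
  have h1 : (m : 𝓞 K) * s + (f : 𝓞 K) * (k * s + t) = 1 := by
    rw [← hij, hs, ht, hβ']; ring
  obtain ⟨m', f', hmf⟩ := A10_coprime h1
  have hmf' : (m' : 𝓞 K) * m + (f' : 𝓞 K) * f = 1 := by
    exact_mod_cast congrArg (Int.cast : ℤ → 𝓞 K) hmf
  refine ⟨m' * n, m' * (l - k * y) + f' * y, ?_⟩
  have h2 : z = n + f * l := by rw [← hl]; ring
  have h3 : (m : 𝓞 K) * y = n + f * l - f * k * y := by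
    rw [← h2, ← h, hβ']; ring
  push_cast
  linear_combination (-y) * hmf' + (m' : 𝓞 K) * h3

/-- a linear substitution which multiplies the form by a unit modulo M -/
private theorem A10_change {M : ℕ} [NeZero M] {F F' : Fm} {p r s t nb : ℤ}
    (hdet : IsUnit ((p * t - r * s : ℤ) : ZMod M)) (hnb : IsUnit ((nb : ℤ) : ZMod M))
    (hval : ∀ x y : ℤ, F.val (p * x + r * y, s * x + t * y) = nb * F'.val (x, y)) (k : ZMod M) :
    ct F' M k = ct F M ((nb : ZMod M) * k) := by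
  have hinj : Function.Injective (fun v : ZMod M × ZMod M =>
      (((p : ZMod M) * v.1 + r * v.2, (s : ZMod M) * v.1 + t * v.2) : ZMod M × ZMod M)) := by
    intro v w h
    simp only [Prod.mk.injEq] at h
    obtain ⟨h1, h2⟩ := h
    push_cast at hdet
    have e1 : ((p : ZMod M) * t - r * s) * v.1 = (p * t - r * s) * w.1 := by
      linear_combination (t : ZMod M) * h1 - (r : ZMod M) * h2
    have e2 : ((p : ZMod M) * t - r * s) * v.2 = (p * t - r * s) * w.2 := by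
      linear_combination (p : ZMod M) * h2 - (s : ZMod M) * h1
    exact Prod.ext (hdet.mul_left_cancel e1) (hdet.mul_left_cancel e2)
  have hbij := Finite.injective_iff_bijective.1 hinj
  have hv := hval 1 0
  have hw := hval 0 1
  have hvw := hval 1 1
  simp only [Fm.val] at hv hw hvw
  have c1 : F.A * p ^ 2 + F.B * p * s + F.C * s ^ 2 = nb * F'.A := by linear_combination hv
  have c2 : F.A * r ^ 2 + F.B * r * t + F.C * t ^ 2 = nb * F'.C := by linear_combination hw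
  have c3 : 2 * F.A * p * r + F.B * (p * t + r * s) + 2 * F.C * s * t = nb * F'.B := by
    linear_combination hvw - hv - hw
  have d1 := congrArg (Int.cast : ℤ → ZMod M) c1
  have d2 := congrArg (Int.cast : ℤ → ZMod M) c2
  have d3 := congrArg (Int.cast : ℤ → ZMod M) c3
  push_cast at d1 d2 d3
  have hzv : ∀ v : ZMod M × ZMod M,
      zv F M ((p : ZMod M) * v.1 + r * v.2, (s : ZMod M) * v.1 + t * v.2) = (nb : ZMod M) * zv F' M v := by
    intro v
    simp only [zv]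
    linear_combination v.1 ^ 2 * d1 + v.2 ^ 2 * d2 + v.1 * v.2 * d3
  unfold ct
  rw [← Set.ncard_image_of_injective _ hinj]
  congr 1
  ext w
  constructor
  · rintro ⟨v, hv1, rfl⟩
    have hv2 : zv F' M v = k := hv1
    have h3 := hzv v
    rw [hv2] at h3
    exact h3
  · intro hw1
    obtain ⟨v, rfl⟩ := hbij.2 w
    refine ⟨v, ?_, rfl⟩
    have h3 : (nb : ZMod M) * zv F' M v = (nb : ZMod M) * k := by
      rw [← hzv v]
      exact hw1
    exact hnb.mul_left_cancel h3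

/-- Row A10. Model HC/H21.lean (G_rel). Let J = (α) a' = (β) a b with α, β ∈ Ord f prime to f. lat f J = α lat f a' = β lat f (ab) (H20_fact).
Dividing norms by the norm of the ideal: the forms of a', J, ab agree up to the signs of the norms of α and β (and a change of basis of ℤ²), so
SS F' M = SS F_{ab} M (SS is symmetric in k -> -k; a bijection of ℤ² induces one of (ZMod M)²). lat f (ab) ⊆ lat f a has index N b
prime to M, so the inclusion induces a bijection modulo M, and N(a) F(v) = norm = N(ab) F_{ab}(v'): F(v) = N(b) F_{ab}(v').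
Hence ct F_{ab} M k = ct F M (k N b). -/
theorem SS_rel (h2 : Module.finrank ℚ K = 2) {f : ℕ} (hf : 0 < f)
    {a a' b : Ideal (𝓞 K)} (ha : Cop f a) (ha' : Cop f a') (hb : Cop f b) (hE : Eqv f a' (a * b))
    {F F' : Fm} (hF : FormOf f a F) (hz : ∀ v, F.val v = 0 → v = 0) (hF' : FormOf f a' F')
    (hz' : ∀ v, F'.val v = 0 → v = 0) {M : ℕ} [NeZero M] (hbM : (Ideal.absNorm b).Coprime M) (k : ZMod M) :
    SS F' M k = SS F M (k * (Ideal.absNorm b : ZMod M)) := by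
  obtain ⟨α, β, hα, hβ, hαc, hβc, hαβ⟩ := hE
  have hα0 : α ≠ 0 := by
    rintro rfl
    exact hαc.1 (by simp)
  have hβ0 : β ≠ 0 := by
    rintro rfl
    exact hβc.1 (by simp)
  have hNβ : Algebra.norm ℤ β ≠ 0 := Algebra.norm_ne_zero_iff.2 hβ0
  have ha0 : (Ideal.absNorm a : ℤ) ≠ 0 := by
    have : Ideal.absNorm a ≠ 0 := by
      rw [Ne, Ideal.absNorm_eq_zero_iff]
      exact ha.1
    exact_mod_cast this
  -- the norms
  have hnorm : ∃ e : ℤ, (e = 1 ∨ e = -1) ∧ Algebra.norm ℤ α * (Ideal.absNorm a' : ℤ) =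
      e * (Algebra.norm ℤ β * ((Ideal.absNorm a : ℤ) * (Ideal.absNorm b : ℤ))) := by
    have h1 := congrArg Ideal.absNorm hαβ
    rw [map_mul, map_mul, map_mul, Ideal.absNorm_span_singleton, Ideal.absNorm_span_singleton] at h1
    have h3 : (Algebra.norm ℤ α * (Ideal.absNorm a' : ℤ)).natAbs =
        (Algebra.norm ℤ β * ((Ideal.absNorm a : ℤ) * (Ideal.absNorm b : ℤ))).natAbs := by
      rw [Int.natAbs_mul, Int.natAbs_mul, Int.natAbs_mul, Int.natAbs_natCast, Int.natAbs_natCast,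
        Int.natAbs_natCast]
      exact h1
    rcases Int.natAbs_eq_natAbs_iff.1 h3 with h4 | h4
    · exact ⟨1, Or.inl rfl, by rw [h4]; ring⟩
    · exact ⟨-1, Or.inr rfl, by rw [h4]; ring⟩
  obtain ⟨e, he, hnorm⟩ := hnorm
  obtain ⟨v₁, v₂, hv, hn⟩ := hF
  obtain ⟨w₁, w₂, hw, hn'⟩ := hF'
  -- division
  have hdiv : ∀ x ∈ lat f a', ∃ y ∈ lat f a, β * y = α * x := by
    intro x hx
    have h1 : α * x ∈ Ideal.span {α} * a' := Ideal.mem_span_singleton_mul.2 ⟨x, hx.1, rfl⟩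
    rw [hαβ] at h1
    obtain ⟨y, hy, hyx⟩ := Ideal.mem_span_singleton_mul.1 h1
    have hzo : Ord f (α * x) := H17_ord_mul hα hx.2
    have hyo : Ord f y := A10_ord_div hβ hβc hzo hyx
    exact ⟨y, ⟨(Ideal.mul_le_inf hy).1, hyo⟩, hyx⟩
  obtain ⟨y₁, hy₁, e₁⟩ := hdiv w₁ ((hw w₁).2 ⟨1, 0, by simp⟩)
  obtain ⟨y₂, hy₂, e₂⟩ := hdiv w₂ ((hw w₂).2 ⟨0, 1, by simp⟩)
  obtain ⟨p, s, hps⟩ := (hv y₁).1 hy₁
  obtain ⟨r, t, hrt⟩ := (hv y₂).1 hy₂
  have hval : ∀ x y : ℤ, F.val (p * x + r * y, s * x + t * y) =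
      (e * (Ideal.absNorm b : ℤ)) * F'.val (x, y) := by
    intro x y
    have h1 : β * (((p * x + r * y : ℤ) : 𝓞 K) * v₁ + ((s * x + t * y : ℤ) : 𝓞 K) * v₂) =
        α * ((x : 𝓞 K) * w₁ + (y : 𝓞 K) * w₂) := by
      have : ((p * x + r * y : ℤ) : 𝓞 K) * v₁ + ((s * x + t * y : ℤ) : 𝓞 K) * v₂ =
          (x : 𝓞 K) * y₁ + (y : 𝓞 K) * y₂ := by
        rw [hps, hrt]; push_cast; ring
      rw [this]
      linear_combination (x : 𝓞 K) * e₁ + (y : 𝓞 K) * e₂
    have h3 := congrArg (Algebra.norm ℤ) h1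
    rw [map_mul, map_mul, hn, hn'] at h3
    have h4 : (Algebra.norm ℤ β * (Ideal.absNorm a : ℤ)) * F.val (p * x + r * y, s * x + t * y) =
        (Algebra.norm ℤ β * (Ideal.absNorm a : ℤ)) *
          ((e * (Ideal.absNorm b : ℤ)) * F'.val (x, y)) := by
      linear_combination h3 + F'.val (x, y) * hnorm
    exact mul_left_cancel₀ (mul_ne_zero hNβ ha0) h4
  -- the lattice contains the norm of b times the lattice of a
  have hback : ∀ v ∈ lat f a, ∃ c d : ℤ, ((Ideal.absNorm b : ℕ) : 𝓞 K) * v = (c : 𝓞 K) * y₁ + (d : 𝓞 K) * y₂ := by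
    intro v hva
    have h1 : v * ((Ideal.absNorm b : ℕ) : 𝓞 K) ∈ a * b :=
      Ideal.mul_mem_mul hva.1 (by exact_mod_cast Ideal.absNorm_mem b)
    have h3 : β * (v * ((Ideal.absNorm b : ℕ) : 𝓞 K)) ∈ Ideal.span {β} * (a * b) :=
      Ideal.mem_span_singleton_mul.2 ⟨_, h1, rfl⟩
    rw [← hαβ] at h3
    obtain ⟨x, hx, hxv⟩ := Ideal.mem_span_singleton_mul.1 h3
    have ho : Ord f (v * ((Ideal.absNorm b : ℕ) : 𝓞 K)) :=
      H17_ord_mul hva.2 ⟨(Ideal.absNorm b : ℤ), by simp⟩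
    have hxo : Ord f x := A10_ord_div hα hαc (H17_ord_mul hβ ho) hxv
    obtain ⟨c, d, hcd⟩ := (hw x).1 ⟨hx, hxo⟩
    refine ⟨c, d, ?_⟩
    refine mul_left_cancel₀ hβ0 ?_
    calc β * (((Ideal.absNorm b : ℕ) : 𝓞 K) * v) = α * x := by rw [hxv]; ring
      _ = β * ((c : 𝓞 K) * y₁ + (d : 𝓞 K) * y₂) := by
        rw [hcd]
        linear_combination -(c : 𝓞 K) * e₁ - (d : 𝓞 K) * e₂
  have hind : ∀ x y : ℤ, (x : 𝓞 K) * v₁ + (y : 𝓞 K) * v₂ = 0 → x = 0 ∧ y = 0 := by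
    intro x y hxy
    have h1 := hn x y
    rw [hxy, Algebra.norm_zero] at h1
    have h3 : F.val (x, y) = 0 := by
      rcases mul_eq_zero.1 h1.symm with h4 | h4
      · exact absurd h4 ha0
      · exact h4
    have h5 := hz _ h3
    exact ⟨congrArg Prod.fst h5, congrArg Prod.snd h5⟩
  obtain ⟨c₁, d₁, g₁⟩ := hback v₁ ((hv v₁).2 ⟨1, 0, by simp⟩)
  obtain ⟨c₂, d₂, g₂⟩ := hback v₂ ((hv v₂).2 ⟨0, 1, by simp⟩)
  have m1 := hind (c₁ * p + d₁ * r - (Ideal.absNorm b : ℤ)) (c₁ * s + d₁ * t) (by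
    rw [hps, hrt] at g₁
    push_cast
    linear_combination -g₁)
  have m2 := hind (c₂ * p + d₂ * r) (c₂ * s + d₂ * t - (Ideal.absNorm b : ℤ)) (by
    rw [hps, hrt] at g₂
    push_cast
    linear_combination -g₂)
  have hdd : (p * t - r * s) * (c₁ * d₂ - d₁ * c₂) = (Ideal.absNorm b : ℤ) ^ 2 := by
    have a1 : c₁ * p + d₁ * r = (Ideal.absNorm b : ℤ) := by linarith [m1.1]
    have a2 : c₂ * s + d₂ * t = (Ideal.absNorm b : ℤ) := by linarith [m2.2]
    have a3 := m1.2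
    have a4 := m2.1
    linear_combination (c₂ * s + d₂ * t) * a1 + (Ideal.absNorm b : ℤ) * a2 - (c₂ * p + d₂ * r) * a3
  have h5 : IsUnit (((Ideal.absNorm b : ℤ)) : ZMod M) := by
    have := (ZMod.isUnit_iff_coprime _ _).2 hbM
    exact_mod_cast this
  have hdet : IsUnit ((p * t - r * s : ℤ) : ZMod M) := by
    have h6 : ((p * t - r * s : ℤ) : ZMod M) * ((c₁ * d₂ - d₁ * c₂ : ℤ) : ZMod M) =
        (((Ideal.absNorm b : ℤ)) : ZMod M) ^ 2 := by
      exact_mod_cast congrArg (Int.cast : ℤ → ZMod M) hdd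
    have h7 : IsUnit (((p * t - r * s : ℤ) : ZMod M) * ((c₁ * d₂ - d₁ * c₂ : ℤ) : ZMod M)) := by
      rw [h6]
      exact h5.pow 2
    exact isUnit_of_mul_isUnit_left h7
  have hnb : IsUnit (((e * (Ideal.absNorm b : ℤ) : ℤ)) : ZMod M) := by
    rcases he with rfl | rfl
    · rw [one_mul]
      exact h5
    · push_cast
      rw [neg_one_mul]
      exact (by exact_mod_cast h5 : IsUnit ((Ideal.absNorm b : ℕ) : ZMod M)).neg
  unfold SS
  rw [A10_change hdet hnb hval k, A10_change hdet hnb hval (-k)]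
  rcases he with rfl | rfl
  · push_cast
    rw [one_mul, mul_comm k, mul_neg]
  · push_cast
    rw [neg_one_mul, mul_comm k, neg_mul, neg_mul, mul_neg, neg_neg, add_comm]

end NR
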