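import Pool.Agent.Lib.MP_0f5a55_nt.NR.A0
import Pool.Agent.Lib.MP_0f5a55_nt.NR.A10
import Pool.Agent.Lib.MP_0f5a55_nt.HC.H22

open Complex MeasureTheory Set Filter Topology
open scoped Real ComplexConjugate NumberField

namespace NR

open HC

variable {K : Type*} [Field K] [NumberField K]

/-- multiplication by an ideal prime to f permutes the representatives -/
theorem A11_perm {f : ℕ} (hf : 0 < f) {T : Finset (Ideal (𝓞 K))} (hT : Reps f T) {b : Ideal (𝓞 K)}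
    (hb : Cop f b) :
    ∃ σ : Ideal (𝓞 K) → Ideal (𝓞 K), (∀ a ∈ T, σ a ∈ T) ∧ Set.InjOn σ (T : Set (Ideal (𝓞 K))) ∧
      Set.SurjOn σ (T : Set (Ideal (𝓞 K))) (T : Set (Ideal (𝓞 K))) ∧ ∀ a ∈ T, Eqv f (σ a) (a * b) := by
  classical
  have hex : ∀ a ∈ T, ∃ a', a' ∈ T ∧ Eqv f (a * b) a' := fun a ha =>
    (hT.2 (a * b) (cop_mul.2 ⟨hT.1 a ha, hb⟩)).exists
  choose! σ hσ using hex
  have hmaps : ∀ a ∈ T, σ a ∈ T := fun a ha => (hσ a ha).1
  have hinj : Set.InjOn σ (T : Set (Ideal (𝓞 K))) := by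
    intro a ha a' ha' haa
    have ha1 : a ∈ T := ha
    have ha2 : a' ∈ T := ha'
    have e1 := (hσ a ha1).2
    have e2 := (hσ a' ha2).2
    have e3 : Eqv f (a * b) (a' * b) := by
      have haa' : σ a = σ a' := haa
      rw [haa'] at e1
      exact Eqv.trans hf e1 (Eqv.symm e2)
    have e4 : Eqv f a a' := Eqv.cancel hb e3
    exact (hT.2 a (hT.1 a ha1)).unique ⟨ha1, Eqv.refl hf a⟩ ⟨ha2, e4⟩
  have hsurj : Set.SurjOn σ (T : Set (Ideal (𝓞 K))) (T : Set (Ideal (𝓞 K))) :=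
    Finset.surjOn_of_injOn_of_card_le σ hmaps hinj le_rfl
  exact ⟨σ, hmaps, hinj, hsurj, fun a ha => Eqv.symm (hσ a ha).2⟩

/-- twisting by an ideal prime to M -/
theorem A11_twist (h2 : Module.finrank ℚ K = 2) {f : ℕ} {ψ : Ideal (𝓞 K) →*₀ ℂ} (h : RC f ψ)
    {T : Finset (Ideal (𝓞 K))} {F : Ideal (𝓞 K) → Fm} (hT : Reps f T)
    (hF : ∀ a ∈ T, FormOf f a (F a) ∧ ∀ v, (F a).val v = 0 → v = 0) (M : ℕ) [NeZero M] (k : ZMod M)
    {b : Ideal (𝓞 K)} (hb : Cop f b) (hbM : (Ideal.absNorm b).Coprime M) :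
    ∑ a ∈ T, conj (ψ a) * (SS (F a) M k : ℂ) =
      conj (ψ b) * ∑ a ∈ T, conj (ψ a) * (SS (F a) M (k * (Ideal.absNorm b : ZMod M)) : ℂ) := by
  classical
  have hf := h.pos
  obtain ⟨σ, hmaps, hinj, hsurj, hE⟩ := A11_perm hf hT hb
  rw [Finset.mul_sum]
  symm
  refine Finset.sum_nbij σ hmaps hinj hsurj ?_
  intro a ha
  rw [SS_rel h2 hf (hT.1 a ha) (hT.1 _ (hmaps a ha)) hb (hE a ha) (hF a ha).1 (hF a ha).2
    (hF _ (hmaps a ha)).1 (hF _ (hmaps a ha)).2 hbM k]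
  have hψ : ψ (σ a) = ψ a * ψ b := by rw [RC.char h (hE a ha), map_mul]
  rw [hψ, map_mul]
  ring

/-- Row A11. Cancellation. Model HC/H23.lean (H23_twist, cancel), with A10.SS_rel instead of G_rel. -/
theorem cancel_SS (h2 : Module.finrank ℚ K = 2) {f : ℕ} {ψ : Ideal (𝓞 K) →*₀ ℂ} (h : RC f ψ)
    (hψ : ∃ I, Cop f I ∧ ψ I ^ 2 ≠ 1) {T : Finset (Ideal (𝓞 K))} {F : Ideal (𝓞 K) → Fm} (hT : Reps f T)
    (hF : ∀ a ∈ T, FormOf f a (F a) ∧ ∀ v, (F a).val v = 0 → v = 0) (M : ℕ) [NeZero M] (k : ZMod M) :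
    ∑ a ∈ T, conj (ψ a) * (SS (F a) M k : ℂ) = 0 := by
  have hf := h.pos
  obtain ⟨I₀, hI, hne⟩ := hψ
  obtain ⟨J, hJ, hJq, hE⟩ := exists_cop hf hI (Nat.pos_of_ne_zero (NeZero.ne M))
  have hψJ : ψ J ^ 2 ≠ 1 := by rw [← RC.char h hE]; exact hne
  obtain ⟨c, hc⟩ := exists_conj (K := K) h2
  have hJ' := (cop_iff h2 hf).1 hJ
  have hN0 : Ideal.absNorm J ≠ 0 := by
    intro h0
    exact hJ'.1 (Ideal.absNorm_eq_zero_iff.1 h0)
  have hcJ : Cop f (c J) := by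
    rw [cop_iff h2 hf]
    refine ⟨?_, ?_⟩
    · intro h0
      apply hN0
      rw [← (hc J).1, h0, Ideal.absNorm_bot]
    · rw [(hc J).1]; exact hJ'.2
  have hcop : Cop f (Ideal.span {((Ideal.absNorm J : ℕ) : 𝓞 K)}) := by
    rw [← (hc J).2]; exact cop_mul.2 ⟨hJ, hcJ⟩
  have hOrd : Ord f ((Ideal.absNorm J : ℕ) : 𝓞 K) := ⟨(Ideal.absNorm J : ℕ), by simp⟩
  have h1 : ψ J * ψ (c J) = 1 := by
    rw [← map_mul, (hc J).2]
    exact h.triv _ hOrd hcop
  have s1 := A11_twist h2 h hT hF M k hJ hJq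
  have s2 := A11_twist h2 h hT hF M k hcJ (by rw [(hc J).1]; exact hJq)
  rw [(hc J).1] at s2
  set S := ∑ a ∈ T, conj (ψ a) * (SS (F a) M (k * (Ideal.absNorm J : ZMod M)) : ℂ) with hS
  have h1' : conj (ψ J) * conj (ψ (c J)) = 1 := by rw [← map_mul, h1, map_one]
  have h3 : (conj (ψ J) ^ 2 - 1) * S = 0 := by
    have e : conj (ψ J) * S = conj (ψ (c J)) * S := by rw [← s1, ← s2]
    calc (conj (ψ J) ^ 2 - 1) * S = conj (ψ J) * (conj (ψ J) * S) - S := by ring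
      _ = conj (ψ J) * (conj (ψ (c J)) * S) - S := by rw [e]
      _ = (conj (ψ J) * conj (ψ (c J))) * S - S := by ring
      _ = 0 := by rw [h1']; ring
  have hS0 : S = 0 := by
    rcases mul_eq_zero.1 h3 with h4 | h4
    · exfalso
      apply hψJ
      have h5 : conj (ψ J ^ 2) = 1 := by rw [map_pow]; exact sub_eq_zero.1 h4
      have h6 := congrArg conj h5
      rw [Complex.conj_conj, map_one] at h6
      exact h6
    · exact h4
  rw [s1, hS0, mul_zero]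

/-- the sum of a nontrivial character over the classes, by twisting with I, ψ I ≠ 1 (permutation of T as in H23_twist) -/
theorem cancel_one (h2 : Module.finrank ℚ K = 2) {f : ℕ} {ψ : Ideal (𝓞 K) →*₀ ℂ} (h : RC f ψ)
    (hψ : ∃ I, Cop f I ∧ ψ I ≠ 1) {T : Finset (Ideal (𝓞 K))} (hT : Reps f T) : ∑ a ∈ T, conj (ψ a) = 0 := by
  have _ := h2
  classical
  obtain ⟨I, hI, hne⟩ := hψ
  obtain ⟨σ, hmaps, hinj, hsurj, hE⟩ := A11_perm h.pos hT hI
  have e : conj (ψ I) * ∑ a ∈ T, conj (ψ a) = ∑ a ∈ T, conj (ψ a) := by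
    rw [Finset.mul_sum]
    refine Finset.sum_nbij σ hmaps hinj hsurj ?_
    intro a ha
    rw [RC.char h (hE a ha), map_mul, map_mul]
    ring
  have h3 : (conj (ψ I) - 1) * ∑ a ∈ T, conj (ψ a) = 0 := by
    rw [sub_mul, e, one_mul, sub_self]
  rcases mul_eq_zero.1 h3 with h4 | h4
  · exfalso
    apply hne
    have h6 := congrArg conj (sub_eq_zero.1 h4)
    rw [Complex.conj_conj, map_one] at h6
    exact h6
  · exact h4

theorem A11_unit {f : ℕ} [NeZero f] (k : ZMod f) : k.val.Coprime f ↔ IsUnit k := by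
  rw [← ZMod.isUnit_iff_coprime, ZMod.natCast_zmod_val]

/-- For a, a' ∈ T choose b prime to f with a' equivalent to a b (H17_exists_inv, exists_cop); SS_rel with M = f: the sum of SS (F a) f k over the units k does not
depend on a. Then cancel_one. -/
theorem cancel_UU (h2 : Module.finrank ℚ K = 2) {f : ℕ} [NeZero f] {ψ : Ideal (𝓞 K) →*₀ ℂ} (h : RC f ψ)
    (hψ : ∃ I, Cop f I ∧ ψ I ≠ 1) {T : Finset (Ideal (𝓞 K))} {F : Ideal (𝓞 K) → Fm} (hT : Reps f T)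
    (hF : ∀ a ∈ T, FormOf f a (F a) ∧ ∀ v, (F a).val v = 0 → v = 0) :
    ∑ k : ZMod f, (if k.val.Coprime f then (1 : ℂ) else 0) * ∑ a ∈ T, conj (ψ a) * (SS (F a) f k : ℂ) = 0 := by
  classical
  have hf := h.pos
  set U : Ideal (𝓞 K) → ℂ := fun a => ∑ k : ZMod f, (if k.val.Coprime f then (1 : ℂ) else 0) * (SS (F a) f k : ℂ)
    with hU
  have hind : ∀ a ∈ T, ∀ a' ∈ T, U a' = U a := by
    intro a ha a' ha'
    obtain ⟨σ, hmaps, hinj, hsurj, hE⟩ := A11_perm hf hT (hT.1 a ha)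
    obtain ⟨c, hc, hca⟩ := hsurj ha'
    have hcT : c ∈ T := hc
    have hE' : Eqv f a' (a * c) := by
      have := hE c hcT
      rw [hca, mul_comm] at this
      exact this
    have hcN : (Ideal.absNorm c).Coprime f := ((cop_iff h2 hf).1 (hT.1 c hcT)).2
    have key : ∀ k : ZMod f, SS (F a') f k = SS (F a) f (k * (Ideal.absNorm c : ZMod f)) := fun k =>
      SS_rel h2 hf (hT.1 a ha) (hT.1 _ ha') (hT.1 c hcT) hE' (hF a ha).1 (hF a ha).2
        (hF _ ha').1 (hF _ ha').2 hcN k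
    have hunit : IsUnit ((Ideal.absNorm c : ℕ) : ZMod f) := (ZMod.isUnit_iff_coprime _ _).2 hcN
    obtain ⟨u, hu⟩ := hunit
    simp only [hU]
    rw [← Equiv.sum_comp (Units.mulRight u)
      (fun k : ZMod f => (if k.val.Coprime f then (1 : ℂ) else 0) * (SS (F a) f k : ℂ))]
    refine Finset.sum_congr rfl fun k _ => ?_
    have e1 : (Units.mulRight u) k = k * (Ideal.absNorm c : ZMod f) := by
      rw [← hu]; rfl
    rw [e1, key k]
    congr 1
    have e2 : (k * (Ideal.absNorm c : ZMod f)).val.Coprime f ↔ k.val.Coprime f := by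
      rw [A11_unit, A11_unit, ← hu]
      exact Units.isUnit_mul_units k u
    simp only [e2]
  have e0 : ∑ k : ZMod f, (if k.val.Coprime f then (1 : ℂ) else 0) * ∑ a ∈ T, conj (ψ a) * (SS (F a) f k : ℂ) =
      ∑ a ∈ T, conj (ψ a) * U a := by
    simp only [hU]
    simp_rw [Finset.mul_sum]
    rw [Finset.sum_comm]
    refine Finset.sum_congr rfl fun a _ => Finset.sum_congr rfl fun k _ => ?_
    ring
  rw [e0]
  rcases T.eq_empty_or_nonempty with hT0 | ⟨a₀, ha₀⟩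
  · rw [hT0]; simp
  · have e1 : ∑ a ∈ T, conj (ψ a) * U a = (∑ a ∈ T, conj (ψ a)) * U a₀ := by
      rw [Finset.sum_mul]
      exact Finset.sum_congr rfl fun a ha => by rw [hind a₀ ha₀ a ha]
    rw [e1, cancel_one h2 h hψ hT, zero_mul]

end NR
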