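import Mathlib

open scoped NumberTheorySymbols

namespace NR

/-- If `r ≡ 1` modulo `8` and modulo `m`, then `J(m | r) = 1`. -/
theorem A12_one {m r : ℕ} (hm : m ≠ 0) (h8 : r ≡ 1 [MOD 8]) (hr : r ≡ 1 [MOD m]) :
    jacobiSym (m : ℤ) r = 1 := by
  obtain ⟨k, m', hm', rfl⟩ := Nat.exists_eq_two_pow_mul_odd hm
  have h8' : r % 8 = 1 := h8
  have hodd : Odd r := Nat.odd_iff.mpr (by omega)
  have h4 : r % 4 = 1 := by omega
  have h2 : jacobiSym 2 r = 1 := by
    rw [jacobiSym.at_two hodd]
    have e : ((r : ℕ) : ZMod 8) = 1 := by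
      have := (ZMod.natCast_eq_natCast_iff r 1 8).mpr h8
      simpa using this
    rw [e]
    exact map_one _
  have h3 : jacobiSym (m' : ℤ) r = 1 := by
    rw [← jacobiSym.quadratic_reciprocity_one_mod_four h4 hm']
    have h5 : r ≡ 1 [MOD m'] := hr.of_dvd (Dvd.intro_left _ rfl)
    have h6 : ((r : ℕ) : ℤ) % (m' : ℤ) = (1 : ℤ) % (m' : ℤ) := by
      have h7 : r % m' = 1 % m' := h5
      exact_mod_cast h7
    rw [jacobiSym.mod_left' h6, jacobiSym.one_left]
  push_cast
  rw [jacobiSym.mul_left, jacobiSym.pow_left, h2, h3]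
  simp

/-- Row A12. A residue class with Jacobi symbol -1. Proof. (i) If some odd prime q has odd valuation in D: D = q^(2k+1) E, q ∤ E; let E' be
the odd part of E; by the Chinese remainder theorem choose r ≡ 1 mod 8E', r ≡ c mod q, c a nonresidue mod q. r ≡ 1 mod 8:
J(2|r) = 1, J(E'|r) = J(r|E') = J(1|E') = 1, J(q|r) = J(r|q) = -1 (quadratic reciprocity, r ≡ 1 mod 4). (ii) Otherwise D = 2^(2k+1) m²
with m odd (D is not a square); choose r ≡ 3 mod 8, r ≡ 1 mod m: J(D|r) = J(2|r) = -1. -/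
theorem exists_jac {D : ℕ} (h0 : 0 < D) (hD : ¬ IsSquare D) : ∃ r : ℕ, r % 2 = 1 ∧ Nat.Coprime r D ∧
    jacobiSym (D : ℤ) r = -1 := by
  obtain ⟨a, b, hab, hsq⟩ := Nat.sq_mul_squarefree D
  have hb0 : b ≠ 0 := by rintro rfl; simp at hab; omega
  have ha0 : a ≠ 0 := by rintro rfl; simp at hab; omega
  have ha1 : a ≠ 1 := by
    rintro rfl
    exact hD ⟨b, by rw [← hab]; ring⟩
  by_cases hq : ∃ q : ℕ, q.Prime ∧ q ≠ 2 ∧ q ∣ a
  · obtain ⟨q, hqp, hq2, hqa⟩ := hq
    have : Fact q.Prime := ⟨hqp⟩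
    obtain ⟨a', rfl⟩ := hqa
    have ha' : a' ≠ 0 := by rintro rfl; simp at ha0
    have hqa' : Nat.Coprime q a' := by
      rw [Nat.squarefree_mul_iff] at hsq
      exact hsq.1
    obtain ⟨v, b', hb', hbv⟩ := Nat.exists_eq_pow_mul_and_not_dvd hb0 q hqp.ne_one
    have hb'0 : b' ≠ 0 := by rintro rfl; simp at hb'
    have hqb' : Nat.Coprime q b' := (Nat.Prime.coprime_iff_not_dvd hqp).mpr hb'
    have hq2' : Nat.Coprime q 2 := (Nat.coprime_primes hqp Nat.prime_two).mpr hq2
    have hq8 : Nat.Coprime q 8 := by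
      have : (8 : ℕ) = 2 ^ 3 := by norm_num
      rw [this]; exact hq2'.pow_right 3
    have hco : Nat.Coprime q (8 * (a' * b')) :=
      Nat.Coprime.mul_right hq8 (Nat.Coprime.mul_right hqa' hqb')
    obtain ⟨c, hc⟩ := FiniteField.exists_nonsquare (F := ZMod q) (by rw [ZMod.ringChar_zmod_n]; exact hq2)
    obtain ⟨r, hr1, hr2⟩ := Nat.chineseRemainder hco c.val 1
    have h8 : r ≡ 1 [MOD 8] := hr2.of_dvd (Dvd.intro _ rfl)
    have hra' : r ≡ 1 [MOD a'] := hr2.of_dvd ⟨8 * b', by ring⟩
    have hrb' : r ≡ 1 [MOD b'] := hr2.of_dvd ⟨8 * a', by ring⟩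
    have h8' : r % 8 = 1 := h8
    have hrc : ((r : ℕ) : ZMod q) = c := by
      have := (ZMod.natCast_eq_natCast_iff r c.val q).mpr hr1
      rw [this, ZMod.natCast_zmod_val]
    have hc0 : c ≠ 0 := by
      rintro rfl
      exact hc ⟨0, by simp⟩
    have hrq : Nat.Coprime r q := by
      rw [Nat.coprime_comm, Nat.Prime.coprime_iff_not_dvd hqp]
      intro hd
      apply hc0
      rw [← hrc]
      exact (ZMod.natCast_eq_zero_iff r q).mpr hd
    have cop1 : ∀ m : ℕ, r ≡ 1 [MOD m] → Nat.Coprime r m := by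
      intro m hm
      have h := Nat.ModEq.gcd_eq hm
      rw [Nat.Coprime, h]
      simp
    have hcD : Nat.Coprime r D := by
      rw [← hab, hbv]
      refine Nat.Coprime.mul_right ?_ (Nat.Coprime.mul_right hrq (cop1 _ hra'))
      exact (Nat.Coprime.mul_right (hrq.pow_right v) (cop1 _ hrb')).pow_right 2
    refine ⟨r, by omega, hcD, ?_⟩
    have hcb : Nat.Coprime r b := by
      rw [hbv]
      exact Nat.Coprime.mul_right (hrq.pow_right v) (cop1 _ hrb')
    have e1 : jacobiSym (b : ℤ) r ^ 2 = 1 := by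
      apply jacobiSym.sq_one
      rw [Int.gcd_natCast_natCast]
      exact hcb.symm
    have e2 : jacobiSym (a' : ℤ) r = 1 := A12_one ha' h8 hra'
    have e3 : jacobiSym (q : ℤ) r = -1 := by
      have h4 : r % 4 = 1 := by omega
      rw [← jacobiSym.quadratic_reciprocity_one_mod_four h4 (hqp.odd_of_ne_two hq2),
        ← jacobiSym.legendreSym.to_jacobiSym, legendreSym.eq_neg_one_iff]
      rw [Int.cast_natCast, hrc]
      exact hc
    rw [← hab]
    push_cast
    rw [jacobiSym.mul_left, jacobiSym.pow_left, jacobiSym.mul_left, e1, e2, e3]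
    norm_num
  · push Not at hq
    have ha2 : a = 2 := by
      obtain ⟨p, hp, hpa⟩ := Nat.exists_prime_and_dvd ha1
      have hp2 : p = 2 := by
        by_contra h
        exact hq p hp h hpa
      subst hp2
      obtain ⟨k, rfl⟩ := hpa
      have hk : Nat.Coprime 2 k := by
        rw [Nat.squarefree_mul_iff] at hsq
        exact hsq.1
      have hk1 : k = 1 := by
        by_contra h
        obtain ⟨p, hp, hpk⟩ := Nat.exists_prime_and_dvd h
        have hp2 : p = 2 := by
          by_contra h2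
          exact hq p hp h2 (hpk.mul_left 2)
        subst hp2
        exact (Nat.Prime.coprime_iff_not_dvd Nat.prime_two).mp hk hpk
      rw [hk1]
    subst ha2
    obtain ⟨v, b', hb', hbv⟩ := Nat.exists_eq_pow_mul_and_not_dvd hb0 2 (by norm_num)
    have h2b' : Nat.Coprime 2 b' := (Nat.Prime.coprime_iff_not_dvd Nat.prime_two).mpr hb'
    have hco : Nat.Coprime 8 b' := by
      have : (8 : ℕ) = 2 ^ 3 := by norm_num
      rw [this]; exact h2b'.pow_left 3
    obtain ⟨r, hr1, hr2⟩ := Nat.chineseRemainder hco 3 1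
    have h8' : r % 8 = 3 := hr1
    have hodd : Odd r := Nat.odd_iff.mpr (by omega)
    have hr_2 : Nat.Coprime r 2 := Nat.coprime_two_right.mpr hodd
    have hrb' : Nat.Coprime r b' := by
      have h := Nat.ModEq.gcd_eq hr2
      rw [Nat.Coprime, h]
      simp
    have hcb : Nat.Coprime r b := by
      rw [hbv]
      exact Nat.Coprime.mul_right (hr_2.pow_right v) hrb'
    refine ⟨r, by omega, ?_, ?_⟩
    · rw [← hab]
      exact Nat.Coprime.mul_right (hcb.pow_right 2) hr_2
    · have e1 : jacobiSym (b : ℤ) r ^ 2 = 1 := by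
        apply jacobiSym.sq_one
        rw [Int.gcd_natCast_natCast]
        exact hcb.symm
      have e2 : jacobiSym 2 r = -1 := by
        rw [jacobiSym.at_two hodd]
        have e : ((r : ℕ) : ZMod 8) = 3 := by
          have := (ZMod.natCast_eq_natCast_iff r 3 8).mpr hr1
          simpa using this
        rw [e]
        decide
      rw [← hab]
      push_cast
      rw [jacobiSym.mul_left, jacobiSym.pow_left, e1, e2]
      norm_num

end NR
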