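import Pool.Agent.Lib.MP_0f5a55_nt.NR.A1
import Pool.Agent.Lib.MP_0f5a55_nt.NR.A0
import Pool.Agent.Lib.MP_0f5a55_nt.NR.A12
import Pool.Agent.Lib.MP_0f5a55_nt.HC.H11

open Complex MeasureTheory Set Filter Topology
open scoped Real ComplexConjugate NumberField

namespace NR

open HC

variable {K : Type*} [Field K] [NumberField K]

/-- Row A13. Primes in one residue class are inert. Model HC/H11.lean (ac_inert). D = discr K > 0, not a square (A1.discr_pos), r from A12.exists_jac,
m = 4D; for a prime p ≡ r mod 4D: p odd, p ∤ D, J(D|p) = J(D|r) = -1 (jacobiSym.mod_right), so p is inert in K (as in the proof of ac_inert), no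
ideal has norm p, ac ψ p = 0. (Coprime r (4D): r odd and prime to D.) -/
theorem rc_ze [NumberField.IsTotallyReal K] (h2 : Module.finrank ℚ K = 2) {f : ℕ} {ψ : Ideal (𝓞 K) →*₀ ℂ} (h : RC f ψ) :
    ∃ m r : ℕ, 0 < m ∧ Nat.Coprime r m ∧ ∀ p : ℕ, p.Prime → p ≡ r [MOD m] → ac ψ p = 0 := by
  obtain ⟨hpos, hnsq⟩ := discr_pos (K := K) h2
  obtain ⟨w, c, d, hw, hD⟩ := H11_quad (K := K) h2
  obtain ⟨D, hDdef⟩ : ∃ D, D = NumberField.discr K := ⟨_, rfl⟩
  rw [← hDdef] at hpos hnsq hD
  have hDn : ((D.natAbs : ℕ) : ℤ) = D := Int.natAbs_of_nonneg hpos.le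
  have hD0 : 0 < D.natAbs := by omega
  obtain ⟨r, hr1, hrc, hrj⟩ := exists_jac (D := D.natAbs) hD0 (by
    rintro ⟨e, he⟩
    exact hnsq ⟨(e : ℤ), by rw [← hDn, he]; push_cast; ring⟩)
  rw [hDn] at hrj
  have hro : Odd r := Nat.odd_iff.2 hr1
  refine ⟨4 * D.natAbs, r, by omega, ?_, ?_⟩
  · have h4 : Nat.Coprime r 4 := by
      have h5 : Nat.Coprime r (2 ^ 2) := Nat.Coprime.pow_right 2 hro.coprime_two_right
      exact h5
    exact Nat.Coprime.mul_right h4 hrc
  · intro p hp hpr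
    have hfp : Fact p.Prime := ⟨hp⟩
    have hpo : Odd p := by
      rw [Nat.odd_iff]
      have h5 : p % (4 * D.natAbs) % 2 = r % (4 * D.natAbs) % 2 := by rw [hpr]
      rw [Nat.mod_mod_of_dvd _ (Dvd.intro (2 * D.natAbs) (by ring)), Nat.mod_mod_of_dvd _ (Dvd.intro (2 * D.natAbs) (by ring))] at h5
      omega
    have hJ : jacobiSym D p = -1 := by
      rw [jacobiSym.mod_right D hpo, ← hrj, jacobiSym.mod_right D hro]
      have h5 : p % (4 * D.natAbs) = r % (4 * D.natAbs) := hpr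
      rw [h5]
    have hno : ∀ I : Ideal (𝓞 K), Ideal.absNorm I ≠ p := by
      intro I hI
      have hcard : Nat.card (𝓞 K ⧸ I) = p := by
        rw [← hI, Ideal.absNorm_apply, Submodule.cardQuot_apply]
      have hfin : Finite (𝓞 K ⧸ I) := Nat.finite_of_card_ne_zero (by rw [hcard]; exact hp.ne_zero)
      have hft : Fintype (𝓞 K ⧸ I) := Fintype.ofFinite _
      have hcard' : Fintype.card (𝓞 K ⧸ I) = p := by rw [← Nat.card_eq_fintype_card, hcard]
      let φ : 𝓞 K →+* ZMod p :=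
        ((ZMod.ringEquivOfPrime (𝓞 K ⧸ I) hp hcard').symm : (𝓞 K ⧸ I) →+* ZMod p).comp
          (Ideal.Quotient.mk I)
      have hφ : φ w * φ w = (c : ZMod p) + (d : ZMod p) * φ w := by
        have := congrArg φ hw
        rwa [map_mul, map_add, map_mul, map_intCast, map_intCast] at this
      have hsq : ((D : ℤ) : ZMod p) = (2 * φ w - d) * (2 * φ w - d) := by
        rw [hD]
        push_cast
        linear_combination -4 * hφ
      have := ZMod.nonsquare_of_jacobiSym_eq_neg_one hJ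
      exact this ⟨_, hsq⟩
    unfold ac
    refine finsum_eq_zero_of_forall_eq_zero fun I => ?_
    have : IsEmpty (Ideal.absNorm I = p) := ⟨hno I⟩
    exact finsum_of_isEmpty _

end NR
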