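import Pool.Agent.Lib.MP_0f5a55_nt.NR.A0

open Complex MeasureTheory Set Filter Topology
open scoped Real ComplexConjugate NumberField

namespace NR

open HC

variable {K : Type*} [Field K] [NumberField K]

/-- at most two ideals have norm `p` -/
private theorem A14_card (h2 : Module.finrank ℚ K = 2) {p : ℕ} (hp : p.Prime) : (H09_S K p).card ≤ 2 := by
  classical
  rcases (H09_S K p).eq_empty_or_nonempty with h | ⟨I, hI⟩
  · rw [h]
    simp
  · rw [H09_mem] at hI
    obtain ⟨J, hJ, hIJ⟩ := H13_exists (K := K) h2 I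
    rw [hI] at hJ hIJ
    have hsub : H09_S K p ⊆ {I, J} := by
      intro L hL
      rw [H09_mem] at hL
      have hLp : L.IsPrime := by
        apply Ideal.isPrime_of_irreducible_absNorm
        rw [hL]
        exact hp
      have hL0 : L ≠ ⊥ := by
        rintro rfl
        rw [Ideal.absNorm_bot] at hL
        exact hp.ne_zero hL.symm
      have hLP : Prime L := Ideal.prime_of_isPrime hL0 hLp
      have hmem : (p : 𝓞 K) ∈ L := by
        have h1 := Ideal.absNorm_mem L
        rw [hL] at h1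
        exact h1
      have hd : L ∣ I * J := by
        rw [hIJ, Ideal.dvd_span_singleton]
        exact hmem
      have heq : ∀ M : Ideal (𝓞 K), Ideal.absNorm M = p → L ∣ M → L = M := by
        rintro M hM ⟨Q, rfl⟩
        rw [map_mul, hL] at hM
        have hQ : Ideal.absNorm Q = 1 := by
          have h3 : p * Ideal.absNorm Q = p * 1 := by rw [hM, mul_one]
          exact Nat.eq_of_mul_eq_mul_left hp.pos h3
        rw [Ideal.absNorm_eq_one_iff] at hQ
        rw [hQ, Ideal.mul_top]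
      rw [Finset.mem_insert, Finset.mem_singleton]
      rcases hLP.dvd_or_dvd hd with h3 | h3
      · exact Or.inl (heq I hI h3)
      · exact Or.inr (heq J hJ h3)
    exact (Finset.card_le_card hsub).trans Finset.card_le_two

/-- Row A14. Squares at the primes. Proof. p | f: all terms vanish (ac_ncop). p prime to f: the ideals of norm p are none (a = 0), one P with P² = (p)
(|ψ P|² = 1, ψ P² = ψ((p)) = 1), or two P, P' with P P' = (p), ψ(P') = conj ψ(P): (2 Re ψ P)² = 2 + 2 Re ψ(P)². (HC.H13_exists /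
exists_conj: the conjugation of ideals; if P' = P then P² = (p).) -/
theorem ac_sq (h2 : Module.finrank ℚ K = 2) {f : ℕ} {ψ ψ₀ ψ₂ : Ideal (𝓞 K) →*₀ ℂ} (h : RC f ψ) (h0 : RC f ψ₀) (h22 : RC f ψ₂)
    (e0 : ∀ I, Cop f I → ψ₀ I = 1) (e2 : ∀ I, ψ₂ I = ψ I ^ 2) {p : ℕ} (hp : p.Prime) :
    ‖ac ψ p‖ ^ 2 ≤ (ac ψ₀ p).re + (ac ψ₂ p).re := by
  classical
  by_cases hc : p.Coprime f
  swap
  · rw [RC.ac_ncop h2 h hp.pos hc, RC.ac_ncop h2 h0 hp.pos hc, RC.ac_ncop h2 h22 hp.pos hc]
    simp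
  have hreal := RC.ac_real h2 h hp.pos
  have him : (ac ψ p).im = 0 := Complex.conj_eq_iff_im.1 hreal
  have hcop : ∀ I ∈ H09_S K p, Cop f I := by
    intro I hI
    rw [H09_mem] at hI
    rw [cop_iff h2 h.pos]
    refine ⟨?_, ?_⟩
    · rintro rfl
      rw [Ideal.absNorm_bot] at hI
      exact hp.ne_zero hI.symm
    · rw [hI]
      exact hc
  have e1 : ‖ac ψ p‖ ^ 2 = (ac ψ p).re ^ 2 := by
    rw [← Complex.normSq_eq_norm_sq, Complex.normSq_apply, him]
    ring
  rw [e1, H09_ac ψ, H09_ac ψ₀, H09_ac ψ₂, Complex.re_sum, Complex.re_sum, Complex.re_sum,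
    ← Finset.sum_add_distrib]
  have e3 : ∑ I ∈ H09_S K p, ((ψ₀ I).re + (ψ₂ I).re) = 2 * ∑ I ∈ H09_S K p, (ψ I).re ^ 2 := by
    rw [Finset.mul_sum]
    apply Finset.sum_congr rfl
    intro I hI
    have h3 := hcop I hI
    have h4 : (ψ I).re * (ψ I).re + (ψ I).im * (ψ I).im = 1 := by
      rw [← Complex.normSq_apply, Complex.normSq_eq_norm_sq, h.cop I h3, one_pow]
    rw [e0 I h3, e2 I, Complex.one_re, pow_two (ψ I), Complex.mul_re]
    nlinarith
  rw [e3]
  have e4 : (∑ I ∈ H09_S K p, (ψ I).re) ^ 2 ≤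
      ((H09_S K p).card : ℝ) * ∑ I ∈ H09_S K p, (ψ I).re ^ 2 := sq_sum_le_card_mul_sum_sq
  refine e4.trans (mul_le_mul_of_nonneg_right ?_ (Finset.sum_nonneg fun I _ => sq_nonneg _))
  exact_mod_cast A14_card h2 hp

end NR
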