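import Pool.Agent.Lib.MP_0f5a55_nt.NR.A5

open Complex MeasureTheory Set Filter Topology
open scoped Real ComplexConjugate NumberField

namespace NR

open HC

variable {K : Type*} [Field K] [NumberField K]

/-- Row A9. Lattice points and elements: (x,y) -> x v₁ + y v₂ is a bijection from ℤ² to lat f a (injective: Ok.ne and norm), the linear forms are the
conjugates divided by √(N a). -/
theorem R_eq {σ₁ σ₂ : K →+* ℝ} (hσ : RE σ₁ σ₂) {f : ℕ} {l : ℝ} {a : Ideal (𝓞 K)} (ha : Cop f a) {F : Fm} {P : Pr}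
    {τ : (ℤ × ℤ) ≃ (ℤ × ℤ)} {v₁ v₂ : 𝓞 K} (h : RForm σ₁ σ₂ f l a F P τ v₁ v₂) (n : ℕ) :
    P.R l F n = (XX σ₁ σ₂ f l a n).ncard := by
  have hN0 : Ideal.absNorm a ≠ 0 := by
    intro h0
    rw [Ideal.absNorm_eq_zero_iff] at h0
    exact ha.1 h0
  have hN : (0 : ℝ) < (Ideal.absNorm a : ℝ) := by exact_mod_cast Nat.pos_of_ne_zero hN0
  have hs : 0 < √(Ideal.absNorm a : ℝ) := Real.sqrt_pos.2 hN
  obtain ⟨m, hm⟩ : ∃ m : ℤ × ℤ → 𝓞 K, ∀ v, m v = (v.1 : 𝓞 K) * v₁ + v.2 * v₂ := ⟨_, fun _ => rfl⟩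
  have hnorm : ∀ v, Algebra.norm ℤ (m v) = (Ideal.absNorm a : ℤ) * F.val v := by
    intro v
    rw [hm]
    exact h.norm v.1 v.2
  have hzero : ∀ v, m v = 0 → v = 0 := by
    intro v hv
    apply h.ok.ne
    have h1 := hnorm v
    rw [hv, Algebra.norm_zero] at h1
    rcases mul_eq_zero.1 h1.symm with h2 | h2
    · exact absurd (by exact_mod_cast h2) hN0
    · exact h2
  have hinj : Function.Injective m := by
    intro v w hvw
    have h1 : m (v - w) = 0 := by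
      have h2 : m (v - w) = m v - m w := by
        rw [hm, hm, hm, Prod.fst_sub, Prod.snd_sub]
        push_cast
        ring
      rw [h2, hvw, sub_self]
    exact sub_eq_zero.1 (hzero _ h1)
  have hcast : ∀ (σ : K →+* ℝ) (v : ℤ × ℤ), σ ((m v : 𝓞 K) : K) = v.1 * σ (v₁ : K) + v.2 * σ (v₂ : K) := by
    intro σ v
    have h1 : algebraMap (𝓞 K) K (m v) = (v.1 : K) * algebraMap (𝓞 K) K v₁ + v.2 * algebraMap (𝓞 K) K v₂ := by
      rw [hm, map_add, map_mul, map_mul, map_intCast, map_intCast]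
    have h2 := congrArg σ h1
    rw [map_add, map_mul, map_mul, map_intCast, map_intCast] at h2
    exact h2
  have hl1 : ∀ v, P.l1 v = σ₁ ((m v : 𝓞 K) : K) / √(Ideal.absNorm a : ℝ) := by
    intro v
    unfold Pr.l1
    rw [h.p1, h.q1, hcast]
    ring
  have hl2 : ∀ v, P.l2 v = σ₂ ((m v : 𝓞 K) : K) / √(Ideal.absNorm a : ℝ) := by
    intro v
    unfold Pr.l2
    rw [h.p2, h.q2, hcast]
    ring
  have hdom : ∀ v, v ∈ P.Dom l ↔ m v ∈ Fd σ₁ σ₂ l 1 := by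
    intro v
    have e0 : v ≠ 0 ↔ m v ≠ 0 := by
      refine ⟨fun h1 h2 => h1 (hzero v h2), fun h1 h2 => h1 ?_⟩
      rw [h2, hm, Prod.fst_zero, Prod.snd_zero, Int.cast_zero, zero_mul, zero_mul, add_zero]
    have e1 : |P.l2 v| ≤ |P.l1 v| ↔ 1 * |σ₂ ((m v : 𝓞 K) : K)| ≤ |σ₁ ((m v : 𝓞 K) : K)| := by
      rw [hl1, hl2, abs_div, abs_div, abs_of_pos hs, div_le_div_iff_of_pos_right hs, one_mul]
    have e2 : |P.l1 v| < Real.exp (2 * l) * |P.l2 v| ↔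
        |σ₁ ((m v : 𝓞 K) : K)| < 1 * Real.exp (2 * l) * |σ₂ ((m v : 𝓞 K) : K)| := by
      rw [hl1, hl2, abs_div, abs_div, abs_of_pos hs, ← mul_div_assoc, div_lt_div_iff_of_pos_right hs, one_mul]
    show (v ≠ 0 ∧ |P.l2 v| ≤ |P.l1 v| ∧ |P.l1 v| < Real.exp (2 * l) * |P.l2 v|) ↔
      (m v ≠ 0 ∧ 1 * |σ₂ ((m v : 𝓞 K) : K)| ≤ |σ₁ ((m v : 𝓞 K) : K)| ∧
        |σ₁ ((m v : 𝓞 K) : K)| < 1 * Real.exp (2 * l) * |σ₂ ((m v : 𝓞 K) : K)|)
    rw [e0, e1, e2]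
  have hval : ∀ v, (Algebra.norm ℤ (m v)).natAbs = Ideal.absNorm a * (F.val v).natAbs := by
    intro v
    rw [hnorm, Int.natAbs_mul, Int.natAbs_natCast]
  have himg : XX σ₁ σ₂ f l a n = m '' {v : ℤ × ℤ | v ∈ P.Dom l ∧ (F.val v).natAbs = n} := by
    apply Set.Subset.antisymm
    · rintro x ⟨h1, h2, h3, h4⟩
      obtain ⟨i, j, hij⟩ := (h.lat x).1 ⟨h1, h2⟩
      have hx : x = m (i, j) := by rw [hm]; exact hij
      refine ⟨(i, j), ⟨?_, ?_⟩, hx.symm⟩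
      · rw [hdom, ← hx]
        exact h4
      · rw [hx, hval] at h3
        exact Nat.eq_of_mul_eq_mul_left (Nat.pos_of_ne_zero hN0) h3
    · rintro x ⟨v, ⟨h1, h2⟩, rfl⟩
      have h3 : m v ∈ lat f a := (h.lat _).2 ⟨v.1, v.2, hm v⟩
      exact ⟨h3.1, h3.2, by rw [hval, h2], (hdom v).1 h1⟩
  rw [himg, Set.ncard_image_of_injective _ hinj]
  rfl

theorem RForm.formOf {σ₁ σ₂ : K →+* ℝ} {f : ℕ} {l : ℝ} {a : Ideal (𝓞 K)} {F : Fm} {P : Pr}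
    {τ : (ℤ × ℤ) ≃ (ℤ × ℤ)} {v₁ v₂ : 𝓞 K} (h : RForm σ₁ σ₂ f l a F P τ v₁ v₂) : FormOf f a F :=
  ⟨v₁, v₂, h.lat, h.norm⟩

end NR
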