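import Pool.Agent.Lib.MP_0f5a55_nt.NR.C6

open Complex MeasureTheory Set Filter Topology
open scoped Real ComplexConjugate NumberField

namespace NR

open HC

/-- Row C7. Several forms; the main terms cancel. From C6. -/
theorem tw_gen {ι : Type*} {T : Finset ι} {P : ι → Pr} {N : ℕ} {l : ℝ} {F : ι → Fm} {τ : ι → ((ℤ × ℤ) ≃ (ℤ × ℤ))}
    (hl : 0 < l) (h : ∀ i ∈ T, (P i).Ok N l (F i) (τ i)) {c : ι → ℂ} {M : ℕ} [NeZero M] {w : ℕ → ℂ}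
    (hw : ∀ n, w (n + M) = w n) (h0 : ∑ k : ZMod M, w k.val * ∑ i ∈ T, c i * (SS (F i) M k : ℂ) = 0) :
    ∃ C : ℝ, 0 ≤ C ∧ ∀ x : ℕ, 1 ≤ x →
      ‖∑ n ∈ Finset.Icc 1 x, w n * ∑ i ∈ T, c i * ((P i).R l (F i) n : ℂ)‖ ≤ C * √x := by
  classical
  obtain ⟨c0, hc0⟩ := count_wt hl
  have H : ∀ i : ι, ∃ C : ℝ, 0 ≤ C ∧ (i ∈ T → ∀ x : ℕ, 1 ≤ x →
      ‖∑ n ∈ Finset.Icc 1 x, w n * ((P i).R l (F i) n : ℂ) -
        (c0 * x / (√N * (M : ℝ) ^ 2) : ℝ) * ∑ k : ZMod M, w k.val * (SS (F i) M k : ℂ)‖ ≤ C * √x) := by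
    intro i
    by_cases hi : i ∈ T
    · obtain ⟨C, hC, hx⟩ := hc0 (P i) N (F i) (τ i) (h i hi) M w hw
      exact ⟨C, hC, fun _ => hx⟩
    · exact ⟨0, le_rfl, fun h => absurd h hi⟩
  choose C hC hx using H
  refine ⟨∑ i ∈ T, ‖c i‖ * C i, Finset.sum_nonneg fun i _ => mul_nonneg (norm_nonneg _) (hC i), fun x hx1 => ?_⟩
  have e1 : ∑ n ∈ Finset.Icc 1 x, w n * ∑ i ∈ T, c i * ((P i).R l (F i) n : ℂ) =
      ∑ i ∈ T, c i * ∑ n ∈ Finset.Icc 1 x, w n * ((P i).R l (F i) n : ℂ) := by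
    simp_rw [Finset.mul_sum]
    rw [Finset.sum_comm]
    refine Finset.sum_congr rfl fun i _ => Finset.sum_congr rfl fun n _ => ?_
    ring
  have e2 : ∑ i ∈ T, c i * ∑ k : ZMod M, w k.val * (SS (F i) M k : ℂ) = 0 := by
    rw [← h0]
    simp_rw [Finset.mul_sum]
    rw [Finset.sum_comm]
    refine Finset.sum_congr rfl fun i _ => Finset.sum_congr rfl fun n _ => ?_
    ring
  have e3 : ∑ n ∈ Finset.Icc 1 x, w n * ∑ i ∈ T, c i * ((P i).R l (F i) n : ℂ) =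
      ∑ i ∈ T, c i * (∑ n ∈ Finset.Icc 1 x, w n * ((P i).R l (F i) n : ℂ) -
        (c0 * x / (√N * (M : ℝ) ^ 2) : ℝ) * ∑ k : ZMod M, w k.val * (SS (F i) M k : ℂ)) := by
    rw [e1]
    have e4 : ∑ i ∈ T, c i * (((c0 * x / (√N * (M : ℝ) ^ 2) : ℝ) : ℂ) * ∑ k : ZMod M, w k.val * (SS (F i) M k : ℂ)) = 0 := by
      have : ∑ i ∈ T, c i * (((c0 * x / (√N * (M : ℝ) ^ 2) : ℝ) : ℂ) * ∑ k : ZMod M, w k.val * (SS (F i) M k : ℂ)) =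
          ((c0 * x / (√N * (M : ℝ) ^ 2) : ℝ) : ℂ) * ∑ i ∈ T, c i * ∑ k : ZMod M, w k.val * (SS (F i) M k : ℂ) := by
        rw [Finset.mul_sum]
        refine Finset.sum_congr rfl fun i _ => ?_
        ring
      rw [this, e2, mul_zero]
    simp_rw [mul_sub]
    rw [Finset.sum_sub_distrib, e4, sub_zero]
  rw [e3, Finset.sum_mul]
  refine (norm_sum_le _ _).trans (Finset.sum_le_sum fun i hi => ?_)
  rw [norm_mul, mul_assoc]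
  exact mul_le_mul_of_nonneg_left (hx i hi x hx1) (norm_nonneg _)

/-- the trivial bound, C6 with M = 1, w = 1 -/
theorem R_sum {P : Pr} {N : ℕ} {l : ℝ} {F : Fm} {τ : (ℤ × ℤ) ≃ (ℤ × ℤ)} (h : P.Ok N l F τ) :
    ∃ C : ℝ, 0 ≤ C ∧ ∀ x : ℕ, ∑ n ∈ Finset.Icc 1 x, (P.R l F n : ℝ) ≤ C * x := by
  obtain ⟨c0, hc0⟩ := count_wt h.l0
  obtain ⟨C, hC, hx⟩ := hc0 P N F τ h 1 (fun _ => 1) (fun _ => rfl)
  set S : ℂ := ∑ k : ZMod 1, (1 : ℂ) * (SS F 1 k : ℂ) with hS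
  refine ⟨|c0 / √N| * ‖S‖ + C, by positivity, fun x => ?_⟩
  rcases Nat.eq_zero_or_pos x with h0 | h1
  · subst h0
    simp
  have h2 := hx x h1
  have hx1 : (1 : ℝ) ≤ x := by exact_mod_cast h1
  have h3 : √(x : ℝ) ≤ x := by
    rw [Real.sqrt_le_left (by positivity)]
    nlinarith
  have h4 : ‖∑ n ∈ Finset.Icc 1 x, (1 : ℂ) * (P.R l F n : ℂ)‖ ≤
      ‖((c0 * x / (√N * ((1 : ℕ) : ℝ) ^ 2) : ℝ) : ℂ) * S‖ + C * √x := by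
    calc ‖∑ n ∈ Finset.Icc 1 x, (1 : ℂ) * (P.R l F n : ℂ)‖
        = ‖((c0 * x / (√N * ((1 : ℕ) : ℝ) ^ 2) : ℝ) : ℂ) * S + (∑ n ∈ Finset.Icc 1 x, (1 : ℂ) * (P.R l F n : ℂ) -
          ((c0 * x / (√N * ((1 : ℕ) : ℝ) ^ 2) : ℝ) : ℂ) * S)‖ := by congr 1; ring
      _ ≤ _ := (norm_add_le _ _).trans (by gcongr)
  have h5 : ∑ n ∈ Finset.Icc 1 x, (1 : ℂ) * (P.R l F n : ℂ) = ((∑ n ∈ Finset.Icc 1 x, (P.R l F n : ℝ) : ℝ) : ℂ) := by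
    push_cast
    simp
  rw [h5, Complex.norm_real, Real.norm_of_nonneg (Finset.sum_nonneg fun _ _ => Nat.cast_nonneg _), norm_mul,
    Complex.norm_real] at h4
  refine h4.trans ?_
  have h6 : ‖(c0 * x / (√N * ((1 : ℕ) : ℝ) ^ 2) : ℝ)‖ = |c0 / √N| * x := by
    rw [Real.norm_eq_abs]
    have : (c0 * x / (√N * ((1 : ℕ) : ℝ) ^ 2) : ℝ) = c0 / √N * x := by
      push_cast
      ring
    rw [this, abs_mul, abs_of_nonneg (by positivity : (0 : ℝ) ≤ x)]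
  rw [h6]
  have h7 : C * √x ≤ C * x := mul_le_mul_of_nonneg_left h3 hC
  nlinarith [norm_nonneg S, abs_nonneg (c0 / √N)]

end NR
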