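import Pool.Agent.Lib.MP_0f5a55_nt.NR.A6
import Pool.Agent.Lib.MP_0f5a55_nt.NR.A9
import Pool.Agent.Lib.MP_0f5a55_nt.NR.A11
import Pool.Agent.Lib.MP_0f5a55_nt.NR.C7

open Complex MeasureTheory Set Filter Topology
open scoped Real ComplexConjugate NumberField

namespace NR

open HC

variable {K : Type*} [Field K] [NumberField K]

theorem A15_key (h2 : Module.finrank ℚ K = 2) {σ₁ σ₂ : K →+* ℝ} (hσ : RE σ₁ σ₂) {f : ℕ} {η : (𝓞 K)ˣ} {l : ℝ}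
    (hη : UE σ₁ σ₂ f η l) {ψ : Ideal (𝓞 K) →*₀ ℂ} (h : RC f ψ)
    {T : Finset (Ideal (𝓞 K))} {F : Ideal (𝓞 K) → Fm} {P : Ideal (𝓞 K) → Pr}
    {τ : Ideal (𝓞 K) → ((ℤ × ℤ) ≃ (ℤ × ℤ))} (hT : RForms σ₁ σ₂ f l T F P τ) {n : ℕ} (hn : 0 < n) (hc : n.Coprime f) :
    (wu K σ₁ σ₂ f l : ℂ) * ac ψ n = ∑ a ∈ T, conj (ψ a) * ((P a).R l (F a) n : ℂ) := by
  rw [rcount_cop h2 hσ hη h hT.1 hn hc]
  refine Finset.sum_congr rfl fun a ha => ?_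
  obtain ⟨v₁, v₂, hv⟩ := hT.2 a ha
  rw [R_eq hσ (hT.1.1 a ha) hv n]

theorem A15_aux (h2 : Module.finrank ℚ K = 2) {σ₁ σ₂ : K →+* ℝ} (hσ : RE σ₁ σ₂) {f : ℕ} {η : (𝓞 K)ˣ} {l : ℝ}
    (hη : UE σ₁ σ₂ f η l) {ψ : Ideal (𝓞 K) →*₀ ℂ} (h : RC f ψ)
    {T : Finset (Ideal (𝓞 K))} {F : Ideal (𝓞 K) → Fm} {P : Ideal (𝓞 K) → Pr}
    {τ : Ideal (𝓞 K) → ((ℤ × ℤ) ≃ (ℤ × ℤ))} (hT : RForms σ₁ σ₂ f l T F P τ) {M : ℕ} [NeZero M] (hfM : f ∣ M)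
    {w : ℕ → ℂ} (hw : ∀ n, w (n + M) = w n)
    (h0 : ∑ k : ZMod M, (if k.val.Coprime f then w k.val else 0) * ∑ a ∈ T, conj (ψ a) * (SS (F a) M k : ℂ) = 0) :
    ∃ C : ℝ, 0 ≤ C ∧ ∀ x : ℕ, 1 ≤ x → ‖∑ n ∈ Finset.Icc 1 x, ac ψ n * w n‖ ≤ C * √x := by
  have hok : ∀ a ∈ T, (P a).Ok (lev K f) l (F a) (τ a) := fun a ha => by
    obtain ⟨v₁, v₂, hv⟩ := hT.2 a ha
    exact hv.ok
  have hw' : ∀ n, (fun n : ℕ => if n.Coprime f then w n else 0) (n + M) =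
      (fun n : ℕ => if n.Coprime f then w n else 0) n := by
    intro n
    obtain ⟨c, rfl⟩ := hfM
    have e : (n + f * c).Coprime f ↔ n.Coprime f := Nat.coprime_add_mul_left_left n f c
    by_cases hn : n.Coprime f
    · simp only [if_pos hn, if_pos (e.2 hn), hw]
    · simp only [if_neg hn, if_neg (fun q => hn (e.1 q))]
  obtain ⟨C, hC, hb⟩ := tw_gen (c := fun a => conj (ψ a)) (w := fun n : ℕ => if n.Coprime f then w n else 0)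
    hη.l0 hok hw' h0
  refine ⟨C, hC, fun x hx => ?_⟩
  have hwu : (1 : ℝ) ≤ (wu K σ₁ σ₂ f l : ℝ) := by
    exact_mod_cast (wu_pos h2 hσ hη).2
  have hsum : ∑ n ∈ Finset.Icc 1 x, (if n.Coprime f then w n else 0) *
      ∑ a ∈ T, conj (ψ a) * ((P a).R l (F a) n : ℂ) =
      (wu K σ₁ σ₂ f l : ℂ) * ∑ n ∈ Finset.Icc 1 x, ac ψ n * w n := by
    rw [Finset.mul_sum]
    refine Finset.sum_congr rfl fun n hn => ?_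
    have hn0 : 0 < n := (Finset.mem_Icc.1 hn).1
    by_cases hc : n.Coprime f
    · rw [if_pos hc, ← A15_key h2 hσ hη h hT hn0 hc]; ring
    · rw [if_neg hc, RC.ac_ncop h2 h hn0 hc]; ring
  have h1 := hb x hx
  rw [hsum, norm_mul, Complex.norm_natCast] at h1
  have h3 : 0 ≤ ‖∑ n ∈ Finset.Icc 1 x, ac ψ n * w n‖ := norm_nonneg _
  nlinarith

theorem A15_form {σ₁ σ₂ : K →+* ℝ} {f : ℕ} {l : ℝ}
    {T : Finset (Ideal (𝓞 K))} {F : Ideal (𝓞 K) → Fm} {P : Ideal (𝓞 K) → Pr}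
    {τ : Ideal (𝓞 K) → ((ℤ × ℤ) ≃ (ℤ × ℤ))} (hT : RForms σ₁ σ₂ f l T F P τ) :
    ∀ a ∈ T, FormOf f a (F a) ∧ ∀ v, (F a).val v = 0 → v = 0 := fun a ha => by
  obtain ⟨v₁, v₂, hv⟩ := hT.2 a ha
  exact ⟨hv.formOf, hv.ok.ne⟩

/-- Row A15. Sums of coefficients. Proof. wu · ac ψ n = Σ_a conj ψ(a) R_a(n) for n prime to f (A5, A9.R_eq), ac ψ n = 0 otherwise (RC.ac_ncop). So with
w'(n) = w(n) if n is prime to f, else 0 (periodic mod M f): wu Σ ac ψ(n) w(n) = Σ w'(n) Σ_a conj ψ(a) R_a(n), and C7.tw_gen applies with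
period M f, h0 from A11.cancel_SS. -/
theorem tw_ac (h2 : Module.finrank ℚ K = 2) {σ₁ σ₂ : K →+* ℝ} (hσ : RE σ₁ σ₂) {f : ℕ} {η : (𝓞 K)ˣ} {l : ℝ}
    (hη : UE σ₁ σ₂ f η l) {ψ : Ideal (𝓞 K) →*₀ ℂ} (h : RC f ψ) (hψ : ∃ I, Cop f I ∧ ψ I ^ 2 ≠ 1)
    {T : Finset (Ideal (𝓞 K))} {F : Ideal (𝓞 K) → Fm} {P : Ideal (𝓞 K) → Pr}
    {τ : Ideal (𝓞 K) → ((ℤ × ℤ) ≃ (ℤ × ℤ))} (hT : RForms σ₁ σ₂ f l T F P τ) :
    ∀ M : ℕ, 0 < M → ∀ w : ℕ → ℂ, (∀ n : ℕ, w (n + M) = w n) → ∃ C : ℝ, 0 ≤ C ∧ ∀ x : ℕ, 1 ≤ x →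
      ‖∑ n ∈ Finset.Icc 1 x, ac ψ n * w n‖ ≤ C * √x := by
  intro M hM w hw
  have : NeZero (M * f) := ⟨(Nat.mul_pos hM h.pos).ne'⟩
  have hw' : ∀ n, w (n + M * f) = w n := by
    intro n
    have : ∀ c : ℕ, w (n + M * c) = w n := by
      intro c
      induction c with
      | zero => simp
      | succ c ih => rw [Nat.mul_succ, ← add_assoc, hw, ih]
    exact this f
  refine A15_aux h2 hσ hη h hT (Dvd.intro_left M rfl) hw' ?_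
  refine Finset.sum_eq_zero fun k _ => ?_
  rw [cancel_SS h2 h hψ hT.1 (A15_form hT) (M * f) k, mul_zero]

/-- the same with M = f, w = 1 and cancel_UU -/
theorem sum_ac (h2 : Module.finrank ℚ K = 2) {σ₁ σ₂ : K →+* ℝ} (hσ : RE σ₁ σ₂) {f : ℕ} {η : (𝓞 K)ˣ} {l : ℝ}
    (hη : UE σ₁ σ₂ f η l) {ψ : Ideal (𝓞 K) →*₀ ℂ} (h : RC f ψ) (hψ : ∃ I, Cop f I ∧ ψ I ≠ 1)
    {T : Finset (Ideal (𝓞 K))} {F : Ideal (𝓞 K) → Fm} {P : Ideal (𝓞 K) → Pr}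
    {τ : Ideal (𝓞 K) → ((ℤ × ℤ) ≃ (ℤ × ℤ))} (hT : RForms σ₁ σ₂ f l T F P τ) : ∃ C : ℝ, ∀ x : ℕ, 1 ≤ x →
      ‖∑ n ∈ Finset.Icc 1 x, ac ψ n‖ ≤ C * √x := by
  have : NeZero f := ⟨h.pos.ne'⟩
  obtain ⟨C, _, hb⟩ := A15_aux (w := fun _ => (1 : ℂ)) h2 hσ hη h hT (dvd_refl f) (fun _ => rfl)
    (cancel_UU h2 h hψ hT.1 (A15_form hT))
  refine ⟨C, fun x hx => ?_⟩
  have := hb x hx
  simpa using this

/-- trivial bound, C7.R_sum -/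
theorem sum_ac0 (h2 : Module.finrank ℚ K = 2) {σ₁ σ₂ : K →+* ℝ} (hσ : RE σ₁ σ₂) {f : ℕ} {η : (𝓞 K)ˣ} {l : ℝ}
    (hη : UE σ₁ σ₂ f η l) {ψ : Ideal (𝓞 K) →*₀ ℂ} (h : RC f ψ)
    {T : Finset (Ideal (𝓞 K))} {F : Ideal (𝓞 K) → Fm} {P : Ideal (𝓞 K) → Pr}
    {τ : Ideal (𝓞 K) → ((ℤ × ℤ) ≃ (ℤ × ℤ))} (hT : RForms σ₁ σ₂ f l T F P τ) : ∃ C : ℝ, ∀ x : ℕ, 1 ≤ x →
      ‖∑ n ∈ Finset.Icc 1 x, ac ψ n‖ ≤ C * x := by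
  have hok : ∀ a ∈ T, (P a).Ok (lev K f) l (F a) (τ a) := fun a ha => by
    obtain ⟨v₁, v₂, hv⟩ := hT.2 a ha
    exact hv.ok
  have hex : ∀ a : Ideal (𝓞 K), ∃ C : ℝ, a ∈ T → ∀ x : ℕ, ∑ n ∈ Finset.Icc 1 x, ((P a).R l (F a) n : ℝ) ≤ C * x := by
    intro a
    by_cases ha : a ∈ T
    · obtain ⟨C, _, hb⟩ := R_sum (hok a ha)
      exact ⟨C, fun _ => hb⟩
    · exact ⟨0, fun q => absurd q ha⟩
  choose C hC using hex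
  have hwu : (1 : ℝ) ≤ (wu K σ₁ σ₂ f l : ℝ) := by
    exact_mod_cast (wu_pos h2 hσ hη).2
  have hn1 : ∀ n : ℕ, 0 < n → ‖ac ψ n‖ ≤ ∑ a ∈ T, ((P a).R l (F a) n : ℝ) := by
    intro n hn0
    have hpos : (0 : ℝ) ≤ ∑ a ∈ T, ((P a).R l (F a) n : ℝ) := Finset.sum_nonneg fun a _ => Nat.cast_nonneg _
    by_cases hc : n.Coprime f
    · have e := congrArg norm (A15_key h2 hσ hη h hT hn0 hc)
      rw [norm_mul, Complex.norm_natCast] at e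
      have e2 : ‖∑ a ∈ T, conj (ψ a) * ((P a).R l (F a) n : ℂ)‖ ≤ ∑ a ∈ T, ((P a).R l (F a) n : ℝ) := by
        refine (norm_sum_le _ _).trans (Finset.sum_le_sum fun a ha => ?_)
        rw [norm_mul, Complex.norm_natCast, Complex.norm_conj, h.cop a (hT.1.1 a ha), one_mul]
      have h3 : 0 ≤ ‖ac ψ n‖ := norm_nonneg _
      nlinarith
    · rw [RC.ac_ncop h2 h hn0 hc, norm_zero]; exact hpos
  refine ⟨∑ a ∈ T, C a, fun x _ => ?_⟩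
  calc ‖∑ n ∈ Finset.Icc 1 x, ac ψ n‖ ≤ ∑ n ∈ Finset.Icc 1 x, ‖ac ψ n‖ := norm_sum_le _ _
    _ ≤ ∑ n ∈ Finset.Icc 1 x, ∑ a ∈ T, ((P a).R l (F a) n : ℝ) :=
        Finset.sum_le_sum fun n hn => hn1 n (Finset.mem_Icc.1 hn).1
    _ = ∑ a ∈ T, ∑ n ∈ Finset.Icc 1 x, ((P a).R l (F a) n : ℝ) := Finset.sum_comm
    _ ≤ ∑ a ∈ T, C a * x := Finset.sum_le_sum fun a ha => hC a ha x
    _ = (∑ a ∈ T, C a) * x := by rw [Finset.sum_mul]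

end NR
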