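import Pool.Agent.Lib.MP_0f5a55_nt.NR.P05

open Complex MeasureTheory Set Filter Topology
open scoped Real ComplexConjugate NumberField

namespace NR

open NH

noncomputable def C8_F (a : ℕ → ℂ) (δ : ℝ) (n : ℕ) : ℂ :=
  af a n * (((n : ℝ) ^ (-(1 + δ)) : ℝ) : ℂ)

theorem C8_af (a : ℕ → ℂ) {n : ℕ} (hn : n ≠ 0) : af a n = a n := by
  change (if n = 0 then (0 : ℂ) else a n) = a n
  rw [if_neg hn]

theorem C8_norm (a : ℕ → ℂ) (δ : ℝ) (n : ℕ) :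
    ‖C8_F a δ n‖ = ‖af a n‖ * (n : ℝ) ^ (-(1 + δ)) := by
  rw [C8_F, norm_mul, Complex.norm_real, Real.norm_of_nonneg (Real.rpow_nonneg (Nat.cast_nonneg _) _)]

theorem C8_sm {a : ℕ → ℂ} (D : Pre a) {δ : ℝ} (hδ : 0 < δ) :
    Summable (fun n : ℕ => ‖C8_F a δ n‖) := by
  have h1 : Summable (fun n : ℕ => ‖af a n‖ ^ 2 * (n : ℝ) ^ (-(1 + δ))) :=
    P.M05_af_sm D (by linarith)
  have h2 : Summable (fun n : ℕ => (n : ℝ) ^ (-(1 + δ))) :=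
    Real.summable_nat_rpow.mpr (by linarith)
  refine Summable.of_nonneg_of_le (fun n => norm_nonneg _) (fun n => ?_) (h1.add h2)
  rw [C8_norm]
  have h3 : 0 ≤ (n : ℝ) ^ (-(1 + δ)) := Real.rpow_nonneg (Nat.cast_nonneg _) _
  have h4 : ‖af a n‖ ≤ ‖af a n‖ ^ 2 + 1 := by nlinarith [sq_nonneg (‖af a n‖ - 1), norm_nonneg (af a n)]
  calc ‖af a n‖ * (n : ℝ) ^ (-(1 + δ)) ≤ (‖af a n‖ ^ 2 + 1) * (n : ℝ) ^ (-(1 + δ)) := by gcongr
    _ = _ := by ring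

theorem C8_hasProd {a : ℕ → ℂ} (D : Pre a) {δ : ℝ} (hδ : 0 < δ) :
    HasProd (fun p : Nat.Primes => ∑' e : ℕ, C8_F a δ ((p : ℕ) ^ e)) (∑' n, C8_F a δ n) := by
  have hm := P.af_mult D
  refine EulerProduct.eulerProduct_hasProd ?_ ?_ (C8_sm D hδ) ?_
  · unfold C8_F
    rw [hm.map_one]
    simp
  · intro m n hmn
    unfold C8_F
    rw [hm.map_mul_of_coprime hmn, Nat.cast_mul,
      Real.mul_rpow (Nat.cast_nonneg _) (Nat.cast_nonneg _)]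
    push_cast
    ring
  · unfold C8_F
    simp

theorem C8_one {z : ℂ} {x : ℝ} (hz : ‖z‖ ≤ x) (hx : x < 1) :
    Real.exp (z.re - x ^ 2 / 2) ≤ ‖(1 - z)⁻¹‖ := by
  have h1 : 1 - z ≠ 0 := by
    intro h
    have : z = 1 := (sub_eq_zero.mp h).symm
    rw [this, norm_one] at hz
    linarith
  have hp : 0 < ‖1 - z‖ := norm_pos_iff.mpr h1
  have h2 : ‖1 - z‖ ^ 2 = 1 - 2 * z.re + ‖z‖ ^ 2 := by
    rw [Complex.sq_norm, Complex.sq_norm, Complex.normSq_apply, Complex.normSq_apply]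
    simp only [Complex.sub_re, Complex.sub_im, Complex.one_re, Complex.one_im]
    ring
  have h3 : ‖z‖ ^ 2 ≤ x ^ 2 := pow_le_pow_left₀ (norm_nonneg _) hz 2
  have h4 : ‖1 - z‖ ^ 2 ≤ Real.exp (-(z.re - x ^ 2 / 2)) ^ 2 := by
    rw [← Real.exp_nat_mul, h2]
    have := Real.add_one_le_exp (((2 : ℕ) : ℝ) * -(z.re - x ^ 2 / 2))
    push_cast at this ⊢
    linarith
  have h5 : ‖1 - z‖ ≤ Real.exp (-(z.re - x ^ 2 / 2)) :=
    le_of_sq_le_sq h4 (Real.exp_pos _).le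
  have h6 : Real.exp (z.re - x ^ 2 / 2) = (Real.exp (-(z.re - x ^ 2 / 2)))⁻¹ := by
    rw [← Real.exp_neg, neg_neg]
  rw [norm_inv, h6]
  exact inv_anti₀ hp h5

theorem C8_local {a : ℕ → ℂ} (D : Pre a) {δ : ℝ} (hδ : 0 < δ) (p : Nat.Primes) :
    Real.exp ((a (p : ℕ)).re * ((p : ℕ) : ℝ) ^ (-(1 + δ)) - ((p : ℕ) : ℝ) ^ (-2 : ℝ)) ≤
      ‖∑' e : ℕ, C8_F a δ ((p : ℕ) ^ e)‖ := by
  obtain ⟨α, β, hα, hβ, hk⟩ := D.loc p p.2
  have hp2 : (2 : ℝ) ≤ ((p : ℕ) : ℝ) := by exact_mod_cast p.2.two_le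
  have hp0 : (0 : ℝ) < ((p : ℕ) : ℝ) := by linarith
  set x : ℝ := ((p : ℕ) : ℝ) ^ (-(1 + δ)) with hx
  have hx0 : 0 < x := Real.rpow_pos_of_pos hp0 _
  have hx1 : x ≤ ((p : ℕ) : ℝ)⁻¹ := by
    rw [← Real.rpow_neg_one]
    exact Real.rpow_le_rpow_of_exponent_le (by linarith) (by linarith)
  have hx2 : x < 1 := by
    have : ((p : ℕ) : ℝ)⁻¹ ≤ 2⁻¹ := inv_anti₀ (by norm_num) hp2
    linarith [hx1.trans this, (by norm_num : (2 : ℝ)⁻¹ < 1)]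
  have hxsq : x ^ 2 ≤ ((p : ℕ) : ℝ) ^ (-2 : ℝ) := by
    have e2 : ((p : ℕ) : ℝ) ^ (-2 : ℝ) = (((p : ℕ) : ℝ)⁻¹) ^ 2 := by
      rw [Real.rpow_neg hp0.le, inv_pow]
      norm_cast
    rw [e2]
    exact pow_le_pow_left₀ hx0.le hx1 2
  have hzn : ∀ γ : ℂ, ‖γ‖ ≤ 1 → ‖γ * (x : ℂ)‖ ≤ x := by
    intro γ hγ
    rw [norm_mul, Complex.norm_real, Real.norm_of_nonneg hx0.le]
    calc ‖γ‖ * x ≤ 1 * x := by gcongr
      _ = x := one_mul x
  have hz1 : ‖α * (x : ℂ)‖ < 1 := (hzn α hα).trans_lt hx2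
  have hw1 : ‖β * (x : ℂ)‖ < 1 := (hzn β hβ).trans_lt hx2
  have hterm : ∀ e : ℕ, C8_F a δ ((p : ℕ) ^ e) =
      ∑ j ∈ Finset.range (e + 1), (α * (x : ℂ)) ^ j * (β * (x : ℂ)) ^ (e - j) := by
    intro e
    unfold C8_F
    rw [C8_af a (pow_ne_zero e p.2.ne_zero), hk e, Finset.sum_mul]
    apply Finset.sum_congr rfl
    intro j hj
    rw [Finset.mem_range] at hj
    have e1 : ((((p : ℕ) ^ e : ℕ) : ℝ)) ^ (-(1 + δ)) = x ^ e := by
      rw [Nat.cast_pow, hx, ← Real.rpow_natCast, ← Real.rpow_natCast, ← Real.rpow_mul hp0.le,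
        ← Real.rpow_mul hp0.le, mul_comm]
    have e2 : x ^ e = x ^ j * x ^ (e - j) := by
      rw [← pow_add]
      congr 1
      omega
    rw [e1, e2, mul_pow, mul_pow]
    push_cast
    ring
  have hsum : ∑' e : ℕ, C8_F a δ ((p : ℕ) ^ e) = (1 - α * (x : ℂ))⁻¹ * (1 - β * (x : ℂ))⁻¹ := by
    rw [tsum_congr hterm, ← tsum_geometric_of_norm_lt_one hz1, ← tsum_geometric_of_norm_lt_one hw1]
    rw [tsum_mul_tsum_eq_tsum_sum_range_of_summable_norm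
      (summable_norm_geometric_of_norm_lt_one hz1) (summable_norm_geometric_of_norm_lt_one hw1)]
  rw [hsum, norm_mul]
  have h1 := C8_one (hzn α hα) hx2
  have h2 := C8_one (hzn β hβ) hx2
  have ha : (a (p : ℕ)).re * x = (α * (x : ℂ)).re + (β * (x : ℂ)).re := by
    have := hk 1
    rw [pow_one, Finset.sum_range_succ, Finset.sum_range_one] at this
    rw [this]
    simp only [Nat.sub_zero, pow_zero, pow_one, one_mul, Nat.sub_self, mul_one,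
      Complex.add_re, Complex.mul_re, Complex.ofReal_re, Complex.ofReal_im, mul_zero, sub_zero]
    ring
  calc Real.exp ((a (p : ℕ)).re * x - ((p : ℕ) : ℝ) ^ (-2 : ℝ))
      ≤ Real.exp (((α * (x : ℂ)).re - x ^ 2 / 2) + ((β * (x : ℂ)).re - x ^ 2 / 2)) := by
        apply Real.exp_le_exp.mpr
        linarith
    _ = Real.exp ((α * (x : ℂ)).re - x ^ 2 / 2) * Real.exp ((β * (x : ℂ)).re - x ^ 2 / 2) :=
        Real.exp_add _ _
    _ ≤ _ := mul_le_mul h1 h2 (Real.exp_pos _).le (norm_nonneg _)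

/-- Row C8. Euler product upper bound. Model NH/M08.lean (the Euler product part) and NR/P05.lean (ms_euler). Proof. For real σ = 1+δ > 1:
Σ a(n) n^{-σ} = Π_p Σ_k a(p^k) p^{-kσ} = Π_p ((1 - α p^{-σ})(1 - β p^{-σ}))^{-1}, and
|Π_p ...| = exp(Σ_p Re(a(p)) p^{-σ} + O(Σ_p p^{-2σ})) since -log|1 - z| = Re z + O(|z|²) for |z| ≤ 1/2 (p ≥ 2: |z| ≤ 1/2). -/
theorem eul_up {a : ℕ → ℂ} (D : Pre a) : ∃ C : ℝ, 0 < C ∧ ∀ δ : ℝ, 0 < δ → δ ≤ 1 →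
    Summable (fun p : Nat.Primes => (a (p : ℕ)).re * ((p : ℕ) : ℝ) ^ (-(1 + δ))) ∧
    Real.exp (∑' p : Nat.Primes, (a (p : ℕ)).re * ((p : ℕ) : ℝ) ^ (-(1 + δ))) ≤
      C * ‖∑' n : ℕ, a (n + 1) * ((((n : ℝ) + 1) ^ (-(1 + δ)) : ℝ) : ℂ)‖ := by
  have hZ : Summable (fun p : Nat.Primes => ((p : ℕ) : ℝ) ^ (-2 : ℝ)) :=
    Nat.Primes.summable_rpow.mpr (by norm_num)
  set Z : ℝ := ∑' p : Nat.Primes, ((p : ℕ) : ℝ) ^ (-2 : ℝ) with hZdef
  refine ⟨Real.exp Z, Real.exp_pos _, fun δ hδ _ => ?_⟩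
  have hs : Summable (fun p : Nat.Primes => (a (p : ℕ)).re * ((p : ℕ) : ℝ) ^ (-(1 + δ))) := by
    have h1 : Summable (fun p : Nat.Primes => 2 * ((p : ℕ) : ℝ) ^ (-(1 + δ))) :=
      (Nat.Primes.summable_rpow.mpr (by linarith)).mul_left 2
    refine Summable.of_norm_bounded h1 (fun p => ?_)
    have h2 := D.bd p p.2.pos
    rw [Nat.Prime.divisors p.2, Finset.card_pair p.2.one_lt.ne] at h2
    rw [norm_mul, Real.norm_of_nonneg (Real.rpow_nonneg (Nat.cast_nonneg _) (-(1 + δ)))]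
    have h3 : ‖(a (p : ℕ)).re‖ ≤ 2 := by
      refine (Complex.abs_re_le_norm _).trans ?_
      exact_mod_cast h2
    gcongr
  refine ⟨hs, ?_⟩
  have hE := C8_hasProd D hδ
  have hEq : ∑' n : ℕ, a (n + 1) * ((((n : ℝ) + 1) ^ (-(1 + δ)) : ℝ) : ℂ) = ∑' n, C8_F a δ n := by
    rw [(C8_sm D hδ).of_norm.tsum_eq_zero_add]
    have h0 : C8_F a δ 0 = 0 := by
      unfold C8_F
      simp
    rw [h0, zero_add]
    apply tsum_congr
    intro n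
    unfold C8_F
    rw [C8_af a (Nat.succ_ne_zero n)]
    push_cast
    rfl
  rw [hEq]
  have hT : Tendsto (fun S : Finset Nat.Primes => ‖∏ p ∈ S, ∑' e : ℕ, C8_F a δ ((p : ℕ) ^ e)‖)
      atTop (𝓝 ‖∑' n, C8_F a δ n‖) := by
    have h1 : Tendsto (fun S : Finset Nat.Primes => ∏ p ∈ S, ∑' e : ℕ, C8_F a δ ((p : ℕ) ^ e))
        atTop (𝓝 (∑' n, C8_F a δ n)) := by
      have := hE
      rw [HasProd, SummationFilter.unconditional_filter] at this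
      exact this
    exact h1.norm
  have hT2 : Tendsto (fun S : Finset Nat.Primes =>
      Real.exp (∑ p ∈ S, (a (p : ℕ)).re * ((p : ℕ) : ℝ) ^ (-(1 + δ)) - Z)) atTop
      (𝓝 (Real.exp (∑' p : Nat.Primes, (a (p : ℕ)).re * ((p : ℕ) : ℝ) ^ (-(1 + δ)) - Z))) := by
    have h1 : Tendsto (fun S : Finset Nat.Primes =>
        ∑ p ∈ S, (a (p : ℕ)).re * ((p : ℕ) : ℝ) ^ (-(1 + δ))) atTop
        (𝓝 (∑' p : Nat.Primes, (a (p : ℕ)).re * ((p : ℕ) : ℝ) ^ (-(1 + δ)))) := by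
      have := hs.hasSum
      rw [HasSum, SummationFilter.unconditional_filter] at this
      exact this
    exact (Real.continuous_exp.tendsto _).comp (h1.sub_const Z)
  have hle : Real.exp (∑' p : Nat.Primes, (a (p : ℕ)).re * ((p : ℕ) : ℝ) ^ (-(1 + δ)) - Z) ≤
      ‖∑' n, C8_F a δ n‖ := by
    refine le_of_tendsto_of_tendsto' hT2 hT (fun S => ?_)
    rw [norm_prod]
    calc Real.exp (∑ p ∈ S, (a (p : ℕ)).re * ((p : ℕ) : ℝ) ^ (-(1 + δ)) - Z)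
        ≤ Real.exp (∑ p ∈ S, ((a (p : ℕ)).re * ((p : ℕ) : ℝ) ^ (-(1 + δ)) -
            ((p : ℕ) : ℝ) ^ (-2 : ℝ))) := by
          apply Real.exp_le_exp.mpr
          rw [Finset.sum_sub_distrib]
          have := hZ.sum_le_tsum S (fun p _ => Real.rpow_nonneg (Nat.cast_nonneg _) _)
          linarith
      _ = ∏ p ∈ S, Real.exp ((a (p : ℕ)).re * ((p : ℕ) : ℝ) ^ (-(1 + δ)) -
            ((p : ℕ) : ℝ) ^ (-2 : ℝ)) := Real.exp_sum _ _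
      _ ≤ _ := Finset.prod_le_prod (fun p _ => (Real.exp_pos _).le) (fun p _ => C8_local D hδ p)
  have h9 : Real.exp (∑' p : Nat.Primes, (a (p : ℕ)).re * ((p : ℕ) : ℝ) ^ (-(1 + δ))) =
      Real.exp Z * Real.exp (∑' p : Nat.Primes, (a (p : ℕ)).re * ((p : ℕ) : ℝ) ^ (-(1 + δ)) - Z) := by
    rw [← Real.exp_add]
    congr 1
    ring
  rw [h9]
  exact mul_le_mul_of_nonneg_left hle (Real.exp_pos _).le

end NR
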