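import Pool.Agent.Lib.MP_0f5a55_nt.NR.D

open Complex MeasureTheory Set Filter Topology
open scoped Real ComplexConjugate NumberField

namespace NR

open NH

/-- partial summation against a majorant -/
theorem C9_parts (a : ℕ → ℂ) (f B : ℕ → ℝ) (hf0 : ∀ n, 0 ≤ f n) (hf : ∀ n, f (n + 1) ≤ f n) (hB0 : B 0 = 0)
    (hA : ∀ k : ℕ, 1 ≤ k → ‖∑ i ∈ Finset.range k, a (i + 1)‖ ≤ B k) (N : ℕ) :
    ‖∑ i ∈ Finset.range N, a (i + 1) * ((f i : ℝ) : ℂ)‖ ≤ ∑ i ∈ Finset.range N, f i * (B (i + 1) - B i) := by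
  rcases Nat.eq_zero_or_pos N with hN | hN
  · subst hN
    simp
  have h1 : ∑ i ∈ Finset.range N, a (i + 1) * ((f i : ℝ) : ℂ) =
      ∑ i ∈ Finset.range N, f i • a (i + 1) := by
    apply Finset.sum_congr rfl
    intro i _
    rw [Complex.real_smul, mul_comm]
  have h2 : ∑ i ∈ Finset.range N, f i * (B (i + 1) - B i) =
      ∑ i ∈ Finset.range N, f i • (B (i + 1) - B i) := by
    apply Finset.sum_congr rfl
    intro i _
    rw [smul_eq_mul]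
  have hG : ∀ k : ℕ, ∑ i ∈ Finset.range k, (B (i + 1) - B i) = B k := by
    intro k
    rw [Finset.sum_range_sub, hB0, sub_zero]
  rw [h1, h2, Finset.sum_range_by_parts f (fun i => a (i + 1)) N,
    Finset.sum_range_by_parts f (fun i => B (i + 1) - B i) N, hG]
  simp only [hG]
  have h3 : ‖f (N - 1) • ∑ i ∈ Finset.range N, a (i + 1)‖ ≤ f (N - 1) • B N := by
    rw [norm_smul, Real.norm_of_nonneg (hf0 _), smul_eq_mul]
    exact mul_le_mul_of_nonneg_left (hA N hN) (hf0 _)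
  have h4 : ‖∑ i ∈ Finset.range (N - 1), (f (i + 1) - f i) • ∑ j ∈ Finset.range (i + 1), a (j + 1)‖ ≤
      ∑ i ∈ Finset.range (N - 1), (f i - f (i + 1)) * B (i + 1) := by
    refine (norm_sum_le _ _).trans (Finset.sum_le_sum ?_)
    intro i _
    have h5 : ‖f (i + 1) - f i‖ = f i - f (i + 1) := by
      rw [Real.norm_eq_abs, abs_of_nonpos (by linarith [hf i])]
      ring
    rw [norm_smul, h5]
    exact mul_le_mul_of_nonneg_left (hA (i + 1) (by omega)) (by linarith [hf i])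
  have h6 : ∑ i ∈ Finset.range (N - 1), (f (i + 1) - f i) • B (i + 1) =
      -∑ i ∈ Finset.range (N - 1), (f i - f (i + 1)) * B (i + 1) := by
    rw [← Finset.sum_neg_distrib]
    apply Finset.sum_congr rfl
    intro i _
    rw [smul_eq_mul]
    ring
  rw [h6, sub_neg_eq_add]
  exact (norm_sub_le _ _).trans (add_le_add h3 h4)

/-- a bound of all finite sums bounds the series -/
theorem C9_tsum (g : ℕ → ℂ) (K : ℝ) (hK : 0 ≤ K) (h : ∀ N : ℕ, ‖∑ i ∈ Finset.range N, g i‖ ≤ K) :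
    ‖∑' n : ℕ, g n‖ ≤ K := by
  by_cases hs : Summable g
  · have h1 := hs.hasSum.tendsto_sum_nat
    exact le_of_tendsto' h1.norm h
  · rw [tsum_eq_zero_of_not_summable hs, norm_zero]
    exact hK

theorem C9_Icc (a : ℕ → ℂ) (k : ℕ) : ∑ i ∈ Finset.range k, a (i + 1) = ∑ n ∈ Finset.Icc 1 k, a n := by
  rw [Finset.range_eq_Ico, Finset.sum_Ico_add' a 0 k 1]
  apply Finset.sum_congr _ (fun _ _ => rfl)
  ext n
  simp only [Finset.mem_Ico, Finset.mem_Icc]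
  omega

theorem C9_anti (δ : ℝ) (h0 : 0 < δ) (n : ℕ) :
    (((n + 1 : ℕ) : ℝ) + 1) ^ (-(1 + δ)) ≤ ((n : ℝ) + 1) ^ (-(1 + δ)) := by
  apply Real.rpow_le_rpow_of_nonpos (by positivity)
  · push_cast
    linarith
  · linarith

theorem C9_tele (δ : ℝ) (h0 : 0 < δ) (x : ℝ) (hx : 0 < x) :
    δ * (x + 1) ^ (-(1 + δ)) ≤ x ^ (-δ) - (x + 1) ^ (-δ) := by
  have hx1 : 0 < x + 1 := by linarith
  obtain ⟨y, hy⟩ : ∃ y : ℝ, y = x / (x + 1) := ⟨_, rfl⟩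
  have hy0 : 0 < y := by rw [hy]; positivity
  have hxy : x = (x + 1) * y := by rw [hy]; field_simp
  have h1 : x ^ (-δ) = (x + 1) ^ (-δ) * y ^ (-δ) := by
    rw [← Real.mul_rpow hx1.le hy0.le, ← hxy]
  have h2 : 1 + δ / (x + 1) ≤ y ^ (-δ) := by
    rw [Real.rpow_def_of_pos hy0]
    have h3 := Real.add_one_le_exp (Real.log y * -δ)
    have h4 := Real.log_le_sub_one_of_pos hy0
    have h5 : y - 1 = -(1 / (x + 1)) := by rw [hy]; field_simp; ring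
    have h6 : δ / (x + 1) ≤ Real.log y * -δ := by
      have h7 : δ * (1 / (x + 1)) ≤ δ * (-Real.log y) :=
        mul_le_mul_of_nonneg_left (by linarith) h0.le
      calc δ / (x + 1) = δ * (1 / (x + 1)) := by ring
        _ ≤ δ * (-Real.log y) := h7
        _ = Real.log y * -δ := by ring
    linarith
  have h8 : (x + 1) ^ (-(1 + δ)) = (x + 1) ^ (-δ) * (1 / (x + 1)) := by
    rw [show -(1 + δ) = -δ + -1 by ring, Real.rpow_add hx1, Real.rpow_neg_one, one_div]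
  have h9 : 0 < (x + 1) ^ (-δ) := Real.rpow_pos_of_pos hx1 _
  rw [h1, h8]
  have h10 := mul_le_mul_of_nonneg_left h2 h9.le
  have h11 : (x + 1) ^ (-δ) * (1 + δ / (x + 1)) = (x + 1) ^ (-δ) +
      δ * ((x + 1) ^ (-δ) * (1 / (x + 1))) := by ring
  linarith

theorem C9_sum (δ : ℝ) (h0 : 0 < δ) (h1 : δ ≤ 1) (N : ℕ) :
    ∑ i ∈ Finset.range N, ((i : ℝ) + 1) ^ (-(1 + δ)) ≤ 2 / δ := by
  have key : ∀ N : ℕ, δ * ∑ i ∈ Finset.range (N + 1), ((i : ℝ) + 1) ^ (-(1 + δ)) ≤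
      δ + 1 - ((N : ℝ) + 1) ^ (-δ) := by
    intro N
    induction N with
    | zero => simp
    | succ N ih =>
      rw [Finset.sum_range_succ, mul_add]
      have h := C9_tele δ h0 ((N : ℝ) + 1) (by positivity)
      push_cast
      linarith
  rw [le_div_iff₀ h0]
  rcases N with _ | N
  · simp
  · have h := key N
    have h2 : 0 < ((N : ℝ) + 1) ^ (-δ) := by positivity
    linarith

/-- Row C9. Dirichlet series near 1 from the summatory function, by partial summation: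
Σ a(n) n^{-1-δ} = Σ_n A(n)(n^{-1-δ} - (n+1)^{-1-δ}), and n^{-1-δ} - (n+1)^{-1-δ} ≤ (1+δ) n^{-2-δ} ≤ 2 n^{-2-δ}; |A(n)| ≤ C √n gives a bounded sum,
|A(n)| ≤ C n gives ≤ C Σ 2 n^{-1-δ} ≤ C'/δ. Absolute convergence from |a n| ≤ d(n) ≤ C n^{δ/2} or from D.bd. -/
theorem dser_bdd {a : ℕ → ℂ} (D : Pre a) {C : ℝ} (h : ∀ x : ℕ, 1 ≤ x → ‖∑ n ∈ Finset.Icc 1 x, a n‖ ≤ C * √x) :
    ∃ C' : ℝ, 0 < C' ∧ ∀ δ : ℝ, 0 < δ → δ ≤ 1 → ‖∑' n : ℕ, a (n + 1) * ((((n : ℝ) + 1) ^ (-(1 + δ)) : ℝ) : ℂ)‖ ≤ C' := by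
  have hC0 : 0 ≤ C := by
    have h1 := (norm_nonneg _).trans (h 1 le_rfl)
    simpa using h1
  have hsum : Summable (fun n : ℕ => (((n : ℝ) + 1) ^ (-(3 / 2) : ℝ))) := by
    have h1 : Summable (fun n : ℕ => ((n : ℝ) ^ (-(3 / 2) : ℝ))) :=
      Real.summable_nat_rpow.2 (by norm_num)
    have h2 := (summable_nat_add_iff 1).2 h1
    simpa using h2
  obtain ⟨K, hK⟩ : ∃ K : ℝ, K = ∑' n : ℕ, (((n : ℝ) + 1) ^ (-(3 / 2) : ℝ)) := ⟨_, rfl⟩
  have hK0 : 0 ≤ K := by rw [hK]; exact tsum_nonneg fun n => by positivity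
  refine ⟨C * K + 1, by positivity, fun δ h0 h1 => ?_⟩
  apply C9_tsum _ _ (by positivity)
  intro N
  have h2 := C9_parts a (fun n => ((n : ℝ) + 1) ^ (-(1 + δ))) (fun k => C * √(k : ℝ))
    (fun n => by positivity) (C9_anti δ h0) (by simp) (fun k hk => by rw [C9_Icc]; exact h k hk) N
  refine h2.trans ?_
  have h3 : ∀ i ∈ Finset.range N, ((i : ℝ) + 1) ^ (-(1 + δ)) *
      (C * √((i + 1 : ℕ) : ℝ) - C * √(i : ℝ)) ≤ C * ((i : ℝ) + 1) ^ (-(3 / 2) : ℝ) := by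
    intro i _
    have hi : (0 : ℝ) < (i : ℝ) + 1 := by positivity
    have e1 : √((i + 1 : ℕ) : ℝ) - √(i : ℝ) ≤ ((i : ℝ) + 1) ^ (-(1 / 2) : ℝ) := by
      have e2 : √((i + 1 : ℕ) : ℝ) = ((i : ℝ) + 1) ^ (1 / 2 : ℝ) := by
        rw [Real.sqrt_eq_rpow]; push_cast; rfl
      have e3 : √((i : ℝ) + 1) * √((i : ℝ) + 1) = (i : ℝ) + 1 := Real.mul_self_sqrt hi.le
      have e4 : √(i : ℝ) * √(i : ℝ) = (i : ℝ) := Real.mul_self_sqrt (by positivity)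
      have e5 : ((i : ℝ) + 1) ^ (-(1 / 2) : ℝ) = (√((i : ℝ) + 1))⁻¹ := by
        rw [Real.rpow_neg hi.le, Real.sqrt_eq_rpow]
      have e6 : 0 < √((i : ℝ) + 1) := Real.sqrt_pos.2 hi
      have e7 : 0 ≤ √(i : ℝ) := Real.sqrt_nonneg _
      have e8 : √(i : ℝ) ≤ √((i : ℝ) + 1) := Real.sqrt_le_sqrt (by linarith)
      rw [e5]
      push_cast
      rw [← one_div, le_div_iff₀ e6]
      nlinarith
    have e9 : ((i : ℝ) + 1) ^ (-(1 + δ)) ≤ ((i : ℝ) + 1) ^ (-1 : ℝ) :=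
      Real.rpow_le_rpow_of_exponent_le (by linarith [Nat.cast_nonneg (α := ℝ) i]) (by linarith)
    have e10 : 0 ≤ √((i + 1 : ℕ) : ℝ) - √(i : ℝ) := by
      have : √(i : ℝ) ≤ √((i + 1 : ℕ) : ℝ) := Real.sqrt_le_sqrt (by push_cast; linarith)
      linarith
    have e11 : ((i : ℝ) + 1) ^ (-1 : ℝ) * ((i : ℝ) + 1) ^ (-(1 / 2) : ℝ) =
        ((i : ℝ) + 1) ^ (-(3 / 2) : ℝ) := by
      rw [← Real.rpow_add hi]
      norm_num
    have e12 : 0 ≤ ((i : ℝ) + 1) ^ (-1 : ℝ) := by positivity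
    have e13 : 0 ≤ ((i : ℝ) + 1) ^ (-(1 + δ)) := by positivity
    calc ((i : ℝ) + 1) ^ (-(1 + δ)) * (C * √((i + 1 : ℕ) : ℝ) - C * √(i : ℝ)) =
        C * (((i : ℝ) + 1) ^ (-(1 + δ)) * (√((i + 1 : ℕ) : ℝ) - √(i : ℝ))) := by ring
      _ ≤ C * (((i : ℝ) + 1) ^ (-1 : ℝ) * ((i : ℝ) + 1) ^ (-(1 / 2) : ℝ)) := by gcongr
      _ = C * ((i : ℝ) + 1) ^ (-(3 / 2) : ℝ) := by rw [e11]
  refine (Finset.sum_le_sum h3).trans ?_
  rw [← Finset.mul_sum]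
  have h4 : ∑ i ∈ Finset.range N, ((i : ℝ) + 1) ^ (-(3 / 2) : ℝ) ≤ K := by
    rw [hK]
    exact hsum.sum_le_tsum _ fun n _ => by positivity
  have h5 := mul_le_mul_of_nonneg_left h4 hC0
  linarith

theorem dser_lin {a : ℕ → ℂ} (D : Pre a) {C : ℝ} (h : ∀ x : ℕ, 1 ≤ x → ‖∑ n ∈ Finset.Icc 1 x, a n‖ ≤ C * x) :
    ∃ C' : ℝ, 0 < C' ∧ ∀ δ : ℝ, 0 < δ → δ ≤ 1 →
      ‖∑' n : ℕ, a (n + 1) * ((((n : ℝ) + 1) ^ (-(1 + δ)) : ℝ) : ℂ)‖ ≤ C' / δ := by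
  have hC0 : 0 ≤ C := by
    have h1 := (norm_nonneg _).trans (h 1 le_rfl)
    simpa using h1
  refine ⟨2 * C + 1, by positivity, fun δ h0 h1 => ?_⟩
  apply C9_tsum _ _ (by positivity)
  intro N
  have h2 := C9_parts a (fun n => ((n : ℝ) + 1) ^ (-(1 + δ))) (fun k => C * (k : ℝ))
    (fun n => by positivity) (C9_anti δ h0) (by simp) (fun k hk => by rw [C9_Icc]; exact h k hk) N
  refine h2.trans ?_
  have h3 : ∑ i ∈ Finset.range N, ((i : ℝ) + 1) ^ (-(1 + δ)) *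
      (C * ((i + 1 : ℕ) : ℝ) - C * (i : ℝ)) = C * ∑ i ∈ Finset.range N, ((i : ℝ) + 1) ^ (-(1 + δ)) := by
    rw [Finset.mul_sum]
    apply Finset.sum_congr rfl
    intro i _
    push_cast
    ring
  refine h3.le.trans ?_
  have h4 := mul_le_mul_of_nonneg_left (C9_sum δ h0 h1 N) hC0
  refine h4.trans ?_
  rw [← mul_div_assoc]
  apply div_le_div_of_nonneg_right _ h0.le
  linarith

end NR
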