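import Pool.Agent.Lib.MP_0f5a55_nt.NR.A15
import Pool.Agent.Lib.MP_0f5a55_nt.NR.A14
import Pool.Agent.Lib.MP_0f5a55_nt.NR.A0b
import Pool.Agent.Lib.MP_0f5a55_nt.NR.C8
import Pool.Agent.Lib.MP_0f5a55_nt.NR.C9

open Complex MeasureTheory Set Filter Topology
open scoped Real ComplexConjugate NumberField

namespace NR

open HC

variable {K : Type*} [Field K] [NumberField K]

/-- Row A16. The sum over the primes. Proof. ψ₀, ψ₂ from A0b.RC.aux. By A14.ac_sq, NH.Sp (ac ψ) δ ≤ Σ Re ac ψ₀(p) p^{-1-δ} + Σ Re ac ψ₂(p) p^{-1-δ}; by C8.eul_up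
exp of the two sums is ≤ C ‖Σ ac ψ₀(n) n^{-1-δ}‖ ≤ C'/δ (A15.sum_ac0, C9.dser_lin) and ≤ C'' (A15.sum_ac for ψ₂, nontrivial by hψ, C9.dser_bdd). -/
theorem sp_ac (h2 : Module.finrank ℚ K = 2) {σ₁ σ₂ : K →+* ℝ} (hσ : RE σ₁ σ₂) {f : ℕ} {η : (𝓞 K)ˣ} {l : ℝ}
    (hη : UE σ₁ σ₂ f η l) {ψ : Ideal (𝓞 K) →*₀ ℂ} (h : RC f ψ) (hψ : ∃ I, Cop f I ∧ ψ I ^ 2 ≠ 1)
    {T : Finset (Ideal (𝓞 K))} {F : Ideal (𝓞 K) → Fm} {P : Ideal (𝓞 K) → Pr}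
    {τ : Ideal (𝓞 K) → ((ℤ × ℤ) ≃ (ℤ × ℤ))} (hT : RForms σ₁ σ₂ f l T F P τ) :
    ∃ C : ℝ, ∀ δ : ℝ, 0 < δ → δ ≤ 1 → NH.Sp (ac ψ) δ ≤ Real.log (1 / δ) + C := by
  obtain ⟨ψ₀, ψ₂, h0, h22, e0, e2⟩ := RC.aux h
  obtain ⟨C0, hC0, H0⟩ := eul_up (RC.pre h2 h0)
  obtain ⟨C2, hC2, H2⟩ := eul_up (RC.pre h2 h22)
  obtain ⟨D0, hD0⟩ := sum_ac0 h2 hσ hη h0 hT
  have hψ2 : ∃ I, Cop f I ∧ ψ₂ I ≠ 1 := by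
    obtain ⟨I, hI, hI2⟩ := hψ
    exact ⟨I, hI, by rw [e2]; exact hI2⟩
  obtain ⟨D2, hD2⟩ := sum_ac h2 hσ hη h22 hψ2 hT
  obtain ⟨E0, hE0, G0⟩ := dser_lin (RC.pre h2 h0) hD0
  obtain ⟨E2, hE2, G2⟩ := dser_bdd (RC.pre h2 h22) hD2
  refine ⟨Real.log (C0 * E0) + Real.log (C2 * E2), fun δ hδ hδ1 => ?_⟩
  obtain ⟨s0, x0⟩ := H0 δ hδ hδ1
  obtain ⟨s2, x2⟩ := H2 δ hδ hδ1
  have y0 : ∑' p : Nat.Primes, (ac ψ₀ (p : ℕ)).re * ((p : ℕ) : ℝ) ^ (-(1 + δ)) ≤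
      Real.log (1 / δ) + Real.log (C0 * E0) := by
    have h1 := x0.trans (mul_le_mul_of_nonneg_left (G0 δ hδ hδ1) hC0.le)
    rw [← Real.log_mul (by positivity) (by positivity)]
    rw [Real.le_log_iff_exp_le (by positivity)]
    refine h1.trans (le_of_eq ?_)
    field_simp
  have y2 : ∑' p : Nat.Primes, (ac ψ₂ (p : ℕ)).re * ((p : ℕ) : ℝ) ^ (-(1 + δ)) ≤
      Real.log (C2 * E2) := by
    have h1 := x2.trans (mul_le_mul_of_nonneg_left (G2 δ hδ hδ1) hC2.le)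
    rw [Real.le_log_iff_exp_le (by positivity)]
    exact h1
  have hle : ∀ p : Nat.Primes, ‖ac ψ (p : ℕ)‖ ^ 2 * ((p : ℕ) : ℝ) ^ (-(1 + δ)) ≤
      (ac ψ₀ (p : ℕ)).re * ((p : ℕ) : ℝ) ^ (-(1 + δ)) + (ac ψ₂ (p : ℕ)).re * ((p : ℕ) : ℝ) ^ (-(1 + δ)) := by
    intro p
    rw [← add_mul]
    exact mul_le_mul_of_nonneg_right (ac_sq h2 h h0 h22 e0 e2 p.2) (Real.rpow_nonneg (Nat.cast_nonneg _) _)
  have hsum : Summable (fun p : Nat.Primes => ‖ac ψ (p : ℕ)‖ ^ 2 * ((p : ℕ) : ℝ) ^ (-(1 + δ))) :=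
    Summable.of_nonneg_of_le (fun p => mul_nonneg (sq_nonneg _) (Real.rpow_nonneg (Nat.cast_nonneg _) _)) hle
      (s0.add s2)
  have h3 : NH.Sp (ac ψ) δ ≤ ∑' p : Nat.Primes, ((ac ψ₀ (p : ℕ)).re * ((p : ℕ) : ℝ) ^ (-(1 + δ)) +
      (ac ψ₂ (p : ℕ)).re * ((p : ℕ) : ℝ) ^ (-(1 + δ))) :=
    Summable.tsum_le_tsum hle hsum (s0.add s2)
  rw [s0.tsum_add s2] at h3
  linarith

end NR
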