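import Pool.Agent.Lib.MP_0f5a55_nt.NR.D

open Complex MeasureTheory Set Filter Topology
open scoped Real ComplexConjugate NumberField

namespace NR

/-- the sine in the reflection formula -/
theorem B10_sin (t : ℝ) : Complex.sin (π * (3 / 4 + t / 2 * I)) =
    (√2 / 2 : ℝ) * ((Real.cosh (π * t / 2) : ℝ) - (Real.sinh (π * t / 2) : ℝ) * I) := by
  have e1 : (π : ℂ) * (3 / 4 + t / 2 * I) = ((π - π / 4 : ℝ) : ℂ) + (((π * t / 2 : ℝ) : ℂ)) * I := by
    push_cast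
    ring
  rw [e1, Complex.sin_add, Complex.cos_mul_I, Complex.sin_mul_I, ← ofReal_sin, ← ofReal_cos,
    Real.sin_pi_sub, Real.cos_pi_sub, Real.sin_pi_div_four, Real.cos_pi_div_four, ← ofReal_cosh,
    ← ofReal_sinh]
  push_cast
  ring

theorem B10_cs (x : ℝ) : Real.cosh (x / 2) ^ 2 + Real.sinh (x / 2) ^ 2 = Real.cosh x := by
  have h := Real.cosh_two_mul (x / 2)
  rw [← h]
  congr 1
  ring

/-- conjugate of the point -/
theorem B10_conj (t : ℝ) : (starRingEnd ℂ) (1 / 2 + t * I) = 1 / 2 - t * I := by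
  rw [map_add, map_mul, conj_I, conj_ofReal, map_div₀, map_one]
  have : (starRingEnd ℂ) 2 = 2 := conj_ofNat 2
  rw [this]
  ring

/-- the Gamma function on the critical line by the reflection formula -/
theorem B10_gam (t : ℝ) : Gamma (1 / 2 + t * I) * (conj (Gamma (1 / 4 + t / 2 * I)) *
    Complex.sin (π * (3 / 4 + t / 2 * I))) =
    Gamma (1 / 4 + t / 2 * I) * ((2 : ℂ) ^ ((-(1 / 2) : ℂ) + t * I) * (√π : ℝ)) := by
  have h1 := Complex.Gamma_mul_Gamma_add_half (1 / 4 + t / 2 * I)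
  have e1 : (1 / 4 + t / 2 * I : ℂ) + 1 / 2 = 3 / 4 + t / 2 * I := by ring
  have e2 : (2 : ℂ) * (1 / 4 + t / 2 * I) = 1 / 2 + t * I := by ring
  have e3 : (1 : ℂ) - (1 / 2 + t * I) = 1 / 2 - t * I := by ring
  rw [e1, e2, e3] at h1
  have h2 := Gamma_mul_Gamma_one_sub (3 / 4 + t / 2 * I)
  have e4 : (1 : ℂ) - (3 / 4 + t / 2 * I) = conj (1 / 4 + t / 2 * I) := by
    rw [map_add, map_mul, conj_I, map_div₀, map_div₀, map_one, conj_ofReal]
    have a1 : (starRingEnd ℂ) 2 = 2 := conj_ofNat 2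
    have a2 : (starRingEnd ℂ) 4 = 4 := conj_ofNat 4
    rw [a1, a2]
    ring
  rw [e4, Gamma_conj] at h2
  have h3 : Complex.sin (π * (3 / 4 + t / 2 * I)) ≠ 0 := by
    rw [B10_sin]
    refine mul_ne_zero ?_ ?_
    · norm_num
    · intro h
      have := congrArg Complex.re h
      simp only [sub_re, ofReal_re, mul_re, I_re, mul_zero, ofReal_im, I_im, mul_one, sub_self,
        zero_re, sub_zero] at this
      exact (Real.cosh_pos _).ne' this
  have h4 : Gamma (3 / 4 + t / 2 * I) * (conj (Gamma (1 / 4 + t / 2 * I)) *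
      Complex.sin (π * (3 / 4 + t / 2 * I))) = π := by
    rw [← mul_assoc, h2, div_mul_cancel₀ _ h3]
  have h5 : (2 : ℂ) ^ ((-(1 / 2) : ℂ) + t * I) * (2 : ℂ) ^ (1 / 2 - t * I) = 1 := by
    rw [← Complex.cpow_add _ _ (by norm_num : (2 : ℂ) ≠ 0)]
    have : (-(1 / 2) : ℂ) + t * I + (1 / 2 - t * I) = 0 := by ring
    rw [this, Complex.cpow_zero]
  have h6 : ((√π : ℝ) : ℂ) * ((√π : ℝ) : ℂ) = π := by
    rw [← ofReal_mul, Real.mul_self_sqrt Real.pi_pos.le]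
  have h7 : ((√π : ℝ) : ℂ) ≠ 0 := by
    rw [ofReal_ne_zero]
    exact (Real.sqrt_pos.mpr Real.pi_pos).ne'
  apply mul_right_cancel₀ h7
  calc Gamma (1 / 2 + t * I) * (conj (Gamma (1 / 4 + t / 2 * I)) *
        Complex.sin (π * (3 / 4 + t / 2 * I))) * ((√π : ℝ) : ℂ)
      = (Gamma (1 / 2 + t * I) * (2 : ℂ) ^ (1 / 2 - t * I) * ((√π : ℝ) : ℂ)) *
        (2 : ℂ) ^ ((-(1 / 2) : ℂ) + t * I) * (conj (Gamma (1 / 4 + t / 2 * I)) *
        Complex.sin (π * (3 / 4 + t / 2 * I))) := by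
        linear_combination (-(Gamma (1 / 2 + t * I) * ((√π : ℝ) : ℂ) * (conj (Gamma (1 / 4 + t / 2 * I)) *
        Complex.sin (π * (3 / 4 + t / 2 * I))))) * h5
    _ = (Gamma (1 / 4 + t / 2 * I) * Gamma (3 / 4 + t / 2 * I)) *
        (2 : ℂ) ^ ((-(1 / 2) : ℂ) + t * I) * (conj (Gamma (1 / 4 + t / 2 * I)) *
        Complex.sin (π * (3 / 4 + t / 2 * I))) := by
        rw [h1]
    _ = Gamma (1 / 4 + t / 2 * I) * (2 : ℂ) ^ ((-(1 / 2) : ℂ) + t * I) * (Gamma (3 / 4 + t / 2 * I) *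
        (conj (Gamma (1 / 4 + t / 2 * I)) * Complex.sin (π * (3 / 4 + t / 2 * I)))) := by ring
    _ = Gamma (1 / 4 + t / 2 * I) * (2 : ℂ) ^ ((-(1 / 2) : ℂ) + t * I) * π := by rw [h4]
    _ = _ := by
        rw [← h6]
        ring

/-- the modulus of the Gamma function on the critical line -/
theorem B10_half (t : ℝ) : ‖Gamma (1 / 2 + t * I)‖ = √(π / Real.cosh (π * t)) := by
  have h1 : (1 : ℂ) - (1 / 2 + t * I) = conj (1 / 2 + t * I) := by
    rw [B10_conj]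
    ring
  have h2 := Gamma_mul_Gamma_one_sub (1 / 2 + t * I)
  rw [h1, Gamma_conj] at h2
  have h3 : Complex.sin (π * (1 / 2 + t * I)) = ((Real.cosh (π * t) : ℝ) : ℂ) := by
    have e1 : (π : ℂ) * (1 / 2 + t * I) = π / 2 + (((π * t : ℝ) : ℂ)) * I := by
      push_cast
      ring
    rw [e1, Complex.sin_add, Complex.sin_pi_div_two, Complex.cos_pi_div_two, Complex.cos_mul_I,
      ofReal_cosh]
    ring
  rw [h3] at h2
  have h4 := congrArg norm h2
  rw [norm_mul, RCLike.norm_conj, norm_div, norm_real, norm_real, Real.norm_eq_abs,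
    Real.norm_eq_abs, abs_of_pos Real.pi_pos, abs_of_pos (Real.cosh_pos _)] at h4
  rw [← h4, Real.sqrt_mul_self (norm_nonneg _)]

/-- the unit close to one -/
noncomputable def B10_W (t : ℝ) : ℂ :=
  ((Real.exp (π * t / 2) : ℝ) - (Real.exp (-(π * t / 2)) : ℝ) * I) / (√(2 * Real.cosh (π * t)) : ℝ)

theorem B10_c2 (t : ℝ) : 2 * Real.cosh (π * t) =
    Real.exp (π * t / 2) ^ 2 + Real.exp (-(π * t / 2)) ^ 2 := by
  rw [Real.cosh_eq, ← Real.exp_nat_mul, ← Real.exp_nat_mul]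
  push_cast
  have e1 : 2 * (π * t / 2) = π * t := by ring
  have e2 : 2 * (-(π * t / 2)) = -(π * t) := by ring
  rw [e1, e2]
  ring

theorem B10_nW (t : ℝ) : ‖B10_W t‖ = 1 := by
  have h0 : 0 < √(2 * Real.cosh (π * t)) := Real.sqrt_pos.mpr (by positivity)
  have h1 : ‖(((Real.exp (π * t / 2) : ℝ) : ℂ) - (Real.exp (-(π * t / 2)) : ℝ) * I)‖ =
      √(2 * Real.cosh (π * t)) := by
    rw [B10_c2, sub_eq_add_neg, ← neg_mul, ← ofReal_neg, Complex.norm_add_mul_I]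
    congr 1
    ring
  rw [B10_W, norm_div, h1, norm_real, Real.norm_eq_abs, abs_of_pos h0, div_self h0.ne']

theorem B10_W1 (t : ℝ) : ‖B10_W t - 1‖ ≤ 2 * Real.exp (-(π * t)) := by
  have h0 : 0 < √(2 * Real.cosh (π * t)) := Real.sqrt_pos.mpr (by positivity)
  set a := Real.exp (π * t / 2) with ha
  set b := Real.exp (-(π * t / 2)) with hb
  set r := √(2 * Real.cosh (π * t)) with hr
  have ha0 : 0 < a := Real.exp_pos _
  have hb0 : 0 < b := Real.exp_pos _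
  have hr2 : r ^ 2 = a ^ 2 + b ^ 2 := by
    rw [hr, Real.sq_sqrt (by positivity), B10_c2]
  have hab : Real.exp (-(π * t)) = b / a := by
    rw [ha, hb, ← Real.exp_sub]
    congr 1
    ring
  have har : a ≤ r := by nlinarith
  have hra : r - a ≤ b := by nlinarith
  have h1 : B10_W t - 1 = ((((a - r : ℝ) : ℂ)) + ((-b : ℝ) : ℂ) * I) / (r : ℝ) := by
    rw [B10_W, ← ha, ← hb, ← hr]
    have : ((r : ℝ) : ℂ) ≠ 0 := ofReal_ne_zero.mpr h0.ne'
    field_simp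
    push_cast
    ring
  have h2 : ‖((((a - r : ℝ) : ℂ)) + ((-b : ℝ) : ℂ) * I)‖ ≤ 2 * b := by
    refine le_trans (norm_add_le _ _) ?_
    rw [norm_mul, norm_I, mul_one, norm_real, norm_real, Real.norm_eq_abs, Real.norm_eq_abs,
      abs_neg, abs_of_pos hb0, abs_of_nonpos (by linarith)]
    linarith
  rw [h1, norm_div, norm_real, Real.norm_eq_abs, abs_of_pos h0, hab, ← mul_div_assoc]
  calc ‖((((a - r : ℝ) : ℂ)) + ((-b : ℝ) : ℂ) * I)‖ / r ≤ 2 * b / r :=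
        div_le_div_of_nonneg_right h2 h0.le
    _ ≤ 2 * b / a := div_le_div_of_nonneg_left (by positivity) ha0 har

/-- the constants of the two units -/
theorem B10_WS (t : ℝ) : (1 - I) / (√2 : ℝ) * ((√π : ℝ) : ℂ) / (√2 : ℝ) =
    ((√(π / Real.cosh (π * t)) : ℝ) : ℂ) * B10_W t * Complex.sin (π * (3 / 4 + t / 2 * I)) := by
  have hc := Real.cosh_pos (π * t)
  have h2 : √(2 * Real.cosh (π * t)) = √2 * √(Real.cosh (π * t)) := Real.sqrt_mul (by norm_num) _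
  have h3 : √(π / Real.cosh (π * t)) = √π / √(Real.cosh (π * t)) := Real.sqrt_div Real.pi_pos.le _
  have h4 : ((√(Real.cosh (π * t)) : ℝ) : ℂ) * ((√(Real.cosh (π * t)) : ℝ) : ℂ) =
      ((Real.cosh (π * t) : ℝ) : ℂ) := by
    rw [← ofReal_mul, Real.mul_self_sqrt hc.le]
  have h5 : ((√2 : ℝ) : ℂ) * ((√2 : ℝ) : ℂ) = 2 := by
    rw [← ofReal_mul, Real.mul_self_sqrt (by norm_num)]
    norm_num
  have h6 := B10_cs (π * t)
  have h7 : (((Real.cosh (π * t / 2)) : ℝ) : ℂ) ^ 2 + (((Real.sinh (π * t / 2)) : ℝ) : ℂ) ^ 2 =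
      ((Real.cosh (π * t) : ℝ) : ℂ) := by
    rw [← h6]
    push_cast
    ring
  have hq : ((√(Real.cosh (π * t)) : ℝ) : ℂ) ≠ 0 := ofReal_ne_zero.mpr (Real.sqrt_pos.mpr hc).ne'
  have hs2 : ((√2 : ℝ) : ℂ) ≠ 0 := ofReal_ne_zero.mpr (Real.sqrt_pos.mpr (by norm_num)).ne'
  have h8 : Real.exp (π * t / 2) = Real.cosh (π * t / 2) + Real.sinh (π * t / 2) :=
    (Real.cosh_add_sinh _).symm
  have h9 : Real.exp (-(π * t / 2)) = Real.cosh (π * t / 2) - Real.sinh (π * t / 2) :=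
    (Real.cosh_sub_sinh _).symm
  rw [B10_W, B10_sin, h2, h3, h8, h9]
  generalize Real.cosh (π * t / 2) = c at *
  generalize Real.sinh (π * t / 2) = s at *
  generalize √(Real.cosh (π * t)) = q at *
  push_cast
  have hI : I ^ 2 = -1 := I_sq
  rw [← h4] at h7
  field_simp
  generalize ((√2 : ℝ) : ℂ) = w at *
  linear_combination (-((c + s - I * (c - s)) * (c - I * s))) * h5 + (-(2 * (1 - I))) * h7 +
    (-(2 * (c * s - s ^ 2))) * hI

/-- the quotient of the Gamma factor and its conjugate -/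
theorem B10_Q (t : ℝ) : Gammaℝ (1 / 2 + t * I) * conj (Gamma (1 / 4 + t / 2 * I)) =
    (π : ℂ) ^ (-(t * I)) * Gamma (1 / 4 + t / 2 * I) * conj (Gammaℝ (1 / 2 + t * I)) := by
  have e1 : (1 / 2 + t * I : ℂ) / 2 = 1 / 4 + t / 2 * I := by ring
  have e2 : -(1 / 2 + t * I : ℂ) / 2 = -(1 / 4) - t / 2 * I := by ring
  have hpi : (π : ℂ) ≠ 0 := ofReal_ne_zero.mpr Real.pi_pos.ne'
  have h1 : conj ((π : ℂ) ^ (-(1 / 4) - t / 2 * I : ℂ)) = (π : ℂ) ^ (-(1 / 4) + t / 2 * I : ℂ) := by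
    have h := Complex.cpow_conj (π : ℂ) (-(1 / 4) - t / 2 * I) (by
      rw [Complex.arg_ofReal_of_nonneg Real.pi_pos.le]
      exact Real.pi_pos.ne)
    rw [conj_ofReal] at h
    rw [← h]
    congr 1
    rw [map_sub, map_mul, conj_I, map_neg, map_div₀, map_div₀, map_one, conj_ofReal]
    have a1 : (starRingEnd ℂ) 2 = 2 := conj_ofNat 2
    have a2 : (starRingEnd ℂ) 4 = 4 := conj_ofNat 4
    rw [a1, a2]
    ring
  have h2 : (π : ℂ) ^ (-(t * I)) * (π : ℂ) ^ (-(1 / 4) + t / 2 * I : ℂ) =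
      (π : ℂ) ^ (-(1 / 4) - t / 2 * I : ℂ) := by
    rw [← Complex.cpow_add _ _ hpi]
    congr 1
    ring
  rw [Gammaℝ_def, e1, e2, map_mul, h1, ← h2]
  ring

theorem ph_of {N : ℕ} (hN : 0 < N) {Λ L : ℂ → ℂ} (hfe : ∀ s, Λ (1 - s) = Λ s)
    (hc : ∀ s, conj (Λ s) = Λ (conj s))
    (hΛL : ∀ s, L s = Λ s * (N : ℂ) ^ (-(s / 2)) * ((Gammaℝ s)⁻¹) ^ 2) :
    ∃ (u : ℂ) (v W : ℝ → ℂ) (C : ℝ), Ph N L u v W C := by
  have hNr : (0 : ℝ) < N := Nat.cast_pos.mpr hN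
  have hNc : (N : ℂ) ≠ 0 := Nat.cast_ne_zero.mpr hN.ne'
  have hpi : (π : ℂ) ≠ 0 := ofReal_ne_zero.mpr Real.pi_pos.ne'
  have hg : ∀ t : ℝ, Gammaℝ (1 / 2 + t * I) ≠ 0 := fun t =>
    Gammaℝ_ne_zero_of_re_pos (by simp)
  have hG : ∀ t : ℝ, Gamma (1 / 4 + t / 2 * I) ≠ 0 := fun t =>
    Complex.Gamma_ne_zero_of_re_pos (by
      have : (1 / 4 + t / 2 * I : ℂ) = ((1 / 4 : ℝ) : ℂ) + ((t / 2 : ℝ) : ℂ) * I := by
        push_cast
        ring
      rw [this]
      simp)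
  have hcg : ∀ t : ℝ, conj (Gammaℝ (1 / 2 + t * I)) ≠ 0 := fun t => by
    rw [Ne, map_eq_zero]
    exact hg t
  have hcG : ∀ t : ℝ, conj (Gamma (1 / 4 + t / 2 * I)) ≠ 0 := fun t => by
    rw [Ne, map_eq_zero]
    exact hG t
  have hS : ∀ t : ℝ, Complex.sin (π * (3 / 4 + t / 2 * I)) ≠ 0 := fun t => by
    rw [B10_sin]
    refine mul_ne_zero ?_ ?_
    · norm_num
    · intro h
      have := congrArg Complex.re h
      simp only [sub_re, ofReal_re, mul_re, I_re, mul_zero, ofReal_im, I_im, mul_one, sub_self,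
        zero_re, sub_zero] at this
      exact (Real.cosh_pos _).ne' this
  -- the unit making L real
  set v : ℝ → ℂ := fun t => (N : ℂ) ^ (t / 2 * I : ℂ) *
    (Gammaℝ (1 / 2 + t * I) / conj (Gammaℝ (1 / 2 + t * I))) with hv
  have hvG : ∀ t : ℝ, v t * conj (Gamma (1 / 4 + t / 2 * I)) =
      (N : ℂ) ^ (t / 2 * I : ℂ) * (π : ℂ) ^ (-(t * I)) * Gamma (1 / 4 + t / 2 * I) := by
    intro t
    have h := B10_Q t
    have h2 := hcg t
    calc v t * conj (Gamma (1 / 4 + t / 2 * I)) = (N : ℂ) ^ (t / 2 * I : ℂ) *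
          ((Gammaℝ (1 / 2 + t * I) * conj (Gamma (1 / 4 + t / 2 * I))) *
            (conj (Gammaℝ (1 / 2 + t * I)))⁻¹) := by
          simp only [hv]
          rw [div_eq_mul_inv (Gammaℝ (1 / 2 + t * I))]
          ring
      _ = (N : ℂ) ^ (t / 2 * I : ℂ) * (π : ℂ) ^ (-(t * I)) * Gamma (1 / 4 + t / 2 * I) *
          (conj (Gammaℝ (1 / 2 + t * I)) * (conj (Gammaℝ (1 / 2 + t * I)))⁻¹) := by
          rw [h]
          ring
      _ = _ := by
          rw [mul_inv_cancel₀ h2, mul_one]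
  refine ⟨(1 - I) / (√2 : ℝ), v, B10_W, 2, ?_, ?_, ?_, ?_, B10_nW, B10_W1, ?_⟩
  · rw [norm_div, norm_real, Real.norm_eq_abs, abs_of_pos (Real.sqrt_pos.mpr (by norm_num))]
    have : (1 - I : ℂ) = ((1 : ℝ) : ℂ) + ((-1 : ℝ) : ℂ) * I := by
      push_cast
      ring
    rw [this, Complex.norm_add_mul_I]
    have e : (1 : ℝ) ^ 2 + (-1) ^ 2 = 2 := by norm_num
    rw [e]
    exact div_self (Real.sqrt_pos.mpr (by norm_num)).ne'
  · intro t
    simp only [hv]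
    rw [norm_mul, norm_div, RCLike.norm_conj, div_self (norm_ne_zero_iff.mpr (hg t)), mul_one,
      Complex.norm_natCast_cpow_of_pos hN]
    have : (t / 2 * I : ℂ).re = 0 := by simp
    rw [this, Real.rpow_zero]
  · have h1 : Continuous (fun t : ℝ => (N : ℂ) ^ (t / 2 * I : ℂ)) := by
      refine Continuous.const_cpow (by fun_prop) (Or.inl hNc)
    have h2 : Continuous (fun t : ℝ => (Gammaℝ (1 / 2 + t * I))⁻¹) :=
      differentiable_Gammaℝ_inv.continuous.comp (by fun_prop)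
    have h3 : v = fun t : ℝ => (N : ℂ) ^ (t / 2 * I : ℂ) *
        (conj ((Gammaℝ (1 / 2 + t * I))⁻¹) / (Gammaℝ (1 / 2 + t * I))⁻¹) := by
      funext t
      simp only [hv]
      rw [map_inv₀, inv_div_inv]
    rw [h3]
    refine h1.mul (Continuous.div (Complex.continuous_conj.comp h2) h2 ?_)
    intro t
    exact inv_ne_zero (hg t)
  · intro t
    have hs : conj (1 / 2 + t * I : ℂ) = 1 - (1 / 2 + t * I) := by
      rw [B10_conj]
      ring
    have hreal : conj (Λ (1 / 2 + t * I)) = Λ (1 / 2 + t * I) := by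
      rw [hc, hs, hfe]
    have h1 : (N : ℂ) ^ (t / 2 * I : ℂ) * (N : ℂ) ^ (-((1 / 2 + t * I : ℂ) / 2)) =
        ((N : ℝ) ^ (-(1 / 4) : ℝ) : ℝ) := by
      rw [← Complex.cpow_add _ _ hNc, ofReal_cpow hNr.le]
      push_cast
      congr 1
      ring
    have h2 := hg t
    have h3 := hcg t
    have key : v t * L (1 / 2 + t * I) = Λ (1 / 2 + t * I) * ((N : ℝ) ^ (-(1 / 4) : ℝ) : ℝ) *
        ((1 / Complex.normSq (Gammaℝ (1 / 2 + t * I)) : ℝ) : ℂ) := by
      rw [hΛL, ← h1]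
      have h4 : (((1 / Complex.normSq (Gammaℝ (1 / 2 + t * I))) : ℝ) : ℂ) =
          (conj (Gammaℝ (1 / 2 + t * I)))⁻¹ * (Gammaℝ (1 / 2 + t * I))⁻¹ := by
        rw [ofReal_div, ofReal_one, Complex.normSq_eq_conj_mul_self, one_div, mul_inv]
      rw [h4]
      simp only [hv]
      field_simp
    have h5 : conj (v t * L (1 / 2 + t * I)) = v t * L (1 / 2 + t * I) := by
      rw [key, map_mul, map_mul, hreal, conj_ofReal, conj_ofReal]
    exact Complex.conj_eq_iff_im.mp h5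
  · intro t
    have hx : (0 : ℝ) < √N / (2 * π) := by
      have : 0 < √(N : ℝ) := Real.sqrt_pos.mpr hNr
      have := Real.pi_pos
      positivity
    have hxc : (((√N / (2 * π) : ℝ)) : ℂ) ≠ 0 := ofReal_ne_zero.mpr hx.ne'
    have h1 : ((√N / (2 * π) : ℝ) : ℂ) ^ (1 / 2 + t * I : ℂ) =
        ((√(√N / (2 * π)) : ℝ) : ℂ) * ((√N / (2 * π) : ℝ) : ℂ) ^ (t * I : ℂ) := by
      rw [Complex.cpow_add _ _ hxc]
      congr 1
      rw [Real.sqrt_eq_rpow (√N / (2 * π)), ofReal_cpow hx.le]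
      congr 1
      push_cast
      rfl
    have h2 : (2 : ℂ) ^ ((-(1 / 2) : ℂ) + t * I) = (((√2 : ℝ) : ℂ))⁻¹ * (2 : ℂ) ^ (t * I : ℂ) := by
      rw [Complex.cpow_add _ _ (by norm_num)]
      congr 1
      rw [Complex.cpow_neg, Real.sqrt_eq_rpow, ofReal_cpow (by norm_num)]
      push_cast
      rfl
    have h3 : ((√N / (2 * π) : ℝ) : ℂ) ^ (t * I : ℂ) * (2 : ℂ) ^ (t * I : ℂ) =
        (N : ℂ) ^ (t / 2 * I : ℂ) * (π : ℂ) ^ (-(t * I)) := by
      rw [Complex.cpow_def_of_ne_zero hxc, Complex.cpow_def_of_ne_zero hNc,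
        Complex.cpow_def_of_ne_zero hpi, Complex.cpow_def_of_ne_zero (by norm_num : (2 : ℂ) ≠ 0),
        ← Complex.exp_add, ← Complex.exp_add]
      have l1 : Complex.log ((√N / (2 * π) : ℝ) : ℂ) =
          (((1 / 2) * Real.log N - (Real.log 2 + Real.log π) : ℝ) : ℂ) := by
        rw [← Complex.ofReal_log hx.le, Real.log_div (Real.sqrt_pos.mpr hNr).ne' (by positivity),
          Real.log_mul (by norm_num) Real.pi_pos.ne', Real.log_sqrt hNr.le]
        congr 2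
        ring
      have l2 : Complex.log (N : ℂ) = ((Real.log N : ℝ) : ℂ) := by
        rw [Complex.ofReal_log hNr.le, ofReal_natCast]
      have l3 : Complex.log (π : ℂ) = ((Real.log π : ℝ) : ℂ) := by
        rw [Complex.ofReal_log Real.pi_pos.le]
      have l4 : Complex.log (2 : ℂ) = ((Real.log 2 : ℝ) : ℂ) := by
        rw [Complex.ofReal_log (by norm_num)]
        norm_num
      rw [l1, l2, l3, l4]
      congr 1
      push_cast
      ring
    have hWS := B10_WS t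
    have hgam := B10_gam t
    apply mul_right_cancel₀ (mul_ne_zero (hcG t) (hS t))
    have hvt := hvG t
    rw [h1]
    rw [h2] at hgam
    calc (1 - I) / (√2 : ℝ) * (((√(√N / (2 * π)) : ℝ) : ℂ) * ((√N / (2 * π) : ℝ) : ℂ) ^ (t * I : ℂ) *
          Gamma (1 / 2 + t * I)) * (conj (Gamma (1 / 4 + t / 2 * I)) *
          Complex.sin (π * (3 / 4 + t / 2 * I)))
        = (1 - I) / (√2 : ℝ) * ((√(√N / (2 * π)) : ℝ) : ℂ) *
          ((√N / (2 * π) : ℝ) : ℂ) ^ (t * I : ℂ) * (Gamma (1 / 2 + t * I) *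
          (conj (Gamma (1 / 4 + t / 2 * I)) * Complex.sin (π * (3 / 4 + t / 2 * I)))) := by ring
      _ = ((1 - I) / (√2 : ℝ) * ((√π : ℝ) : ℂ) / (√2 : ℝ)) * ((√(√N / (2 * π)) : ℝ) : ℂ) *
          (((√N / (2 * π) : ℝ) : ℂ) ^ (t * I : ℂ) * (2 : ℂ) ^ (t * I : ℂ)) *
          Gamma (1 / 4 + t / 2 * I) := by
          rw [hgam, div_eq_mul_inv ((1 - I) / (√2 : ℝ) * ((√π : ℝ) : ℂ))]
          ring
      _ = (((√(π / Real.cosh (π * t)) : ℝ) : ℂ) * B10_W t *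
          Complex.sin (π * (3 / 4 + t / 2 * I))) * ((√(√N / (2 * π)) : ℝ) : ℂ) *
          ((N : ℂ) ^ (t / 2 * I : ℂ) * (π : ℂ) ^ (-(t * I)) * Gamma (1 / 4 + t / 2 * I)) := by
          rw [hWS, h3]
          ring
      _ = _ := by
          rw [← hvt]
          push_cast
          ring

end NR
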