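import Pool.Agent.Lib.MP_0f5a55_nt.NR.B6

open Complex MeasureTheory Set Filter Topology
open scoped Real ComplexConjugate NumberField

namespace NR

open HC

theorem gb_eq {ι : Type*} {T : Finset ι} {P : ι → Pr} {N : ℕ} {l : ℝ} {F : ι → Fm} {τ : ι → ((ℤ × ℤ) ≃ (ℤ × ℤ))}
    (h : ∀ i ∈ T, (P i).Ok N l (F i) (τ i)) {c : ι → ℂ} (hc : ∑ i ∈ T, c i = 0) {a : ℕ → ℂ} {w : ℂ}
    (ha : ∀ n : ℕ, 0 < n → w * a n = ∑ i ∈ T, c i * (((P i).R l (F i) n : ℕ) : ℂ)) {t : ℝ} (ht : 0 < t) :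
    w * GB N a t = ∑ i ∈ T, c i * ((∫ w in (0 : ℝ)..(2 * l), (P i).th N w t : ℝ) : ℂ) := by
  have h1 : w * GB N a t = ∑' n : ℕ, ∑ i ∈ T, c i * ((((P i).R l (F i) (n + 1) : ℝ) *
      KK (2 * π * t * ((n : ℝ) + 1) / √N) : ℝ) : ℂ) := by
    unfold GB
    rw [← tsum_mul_left]
    refine tsum_congr fun n => ?_
    rw [← mul_assoc, ha (n + 1) (Nat.succ_pos n), Finset.sum_mul]
    refine Finset.sum_congr rfl fun i _ => ?_
    push_cast
    ring
  have hs : ∀ i ∈ T, Summable (fun n : ℕ => c i * ((((P i).R l (F i) (n + 1) : ℝ) *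
      KK (2 * π * t * ((n : ℝ) + 1) / √N) : ℝ) : ℂ)) := by
    intro i hi
    have := (unfold_th (h i hi) ht).1
    exact ((Complex.ofRealCLM.summable this)).mul_left (c i)
  rw [h1, Summable.tsum_finsetSum hs]
  have h2 : ∀ i ∈ T, ∑' n : ℕ, c i * ((((P i).R l (F i) (n + 1) : ℝ) *
      KK (2 * π * t * ((n : ℝ) + 1) / √N) : ℝ) : ℂ) =
      c i * ((∫ w in (0 : ℝ)..(2 * l), (P i).th N w t : ℝ) : ℂ) - c i * (2 * l : ℂ) := by
    intro i hi
    rw [tsum_mul_left, (unfold_th (h i hi) ht).2, ← Complex.ofReal_tsum]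
    push_cast
    ring
  rw [Finset.sum_congr rfl h2, Finset.sum_sub_distrib, ← Finset.sum_mul, hc]
  ring

/-- Row B7. Functional equation of the Bessel series. Proof. For each i let U_i(t) = ∫_0^{2l} th_i(w,t) dw; B2.th_inv gives
U_i(1/t) = t U_i(t); by B6 U_i(t) = 2l + Σ R_i(n+1) KK(...). Multiply by c_i and sum: the constants cancel, Σ c_i = 0, and the sum is
w0 · GB N a t. -/
theorem fe_GB {ι : Type*} {T : Finset ι} {P : ι → Pr} {N : ℕ} {l : ℝ} {F : ι → Fm} {τ : ι → ((ℤ × ℤ) ≃ (ℤ × ℤ))}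
    (h : ∀ i ∈ T, (P i).Ok N l (F i) (τ i)) {c : ι → ℂ} (hc : ∑ i ∈ T, c i = 0) {a : ℕ → ℂ} {w : ℂ} (hw : w ≠ 0)
    (ha : ∀ n : ℕ, 0 < n → w * a n = ∑ i ∈ T, c i * (((P i).R l (F i) n : ℕ) : ℂ)) {t : ℝ} (ht : 0 < t) :
    GB N a (1 / t) = t * GB N a t := by
  have ht' : 0 < 1 / t := by positivity
  have e1 := gb_eq h hc ha ht
  have e2 := gb_eq h hc ha ht'
  have h3 : ∀ i ∈ T, ∫ w in (0 : ℝ)..(2 * l), (P i).th N w (1 / t) =
      t * ∫ w in (0 : ℝ)..(2 * l), (P i).th N w t := by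
    intro i hi
    rw [← intervalIntegral.integral_const_mul]
    refine intervalIntegral.integral_congr fun w _ => ?_
    exact (th_inv (h i hi) w ht).2
  have h4 : w * GB N a (1 / t) = w * (t * GB N a t) := by
    rw [e2]
    have : w * (t * GB N a t) = t * (w * GB N a t) := by ring
    rw [this, e1, Finset.mul_sum]
    refine Finset.sum_congr rfl fun i hi => ?_
    rw [h3 i hi]
    push_cast
    ring
  exact mul_left_cancel₀ hw h4

end NR
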