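import Pool.Agent.Lib.MP_0f5a55_nt.NR.B3b
import Pool.Agent.Lib.MP_0f5a55_nt.HC.H08

open Complex MeasureTheory Set Filter Topology
open scoped Real ComplexConjugate NumberField

namespace NR

open HC

theorem B8_KK {x y : ℝ} (hx : 0 < x) (hxy : x ≤ y) : KK y ≤ √(2 * π / x) * Real.exp (-y) := by
  have hy : 0 < y := lt_of_lt_of_le hx hxy
  refine (KK_le hy).trans ?_
  refine mul_le_mul_of_nonneg_right (Real.sqrt_le_sqrt ?_) (Real.exp_pos _).le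
  exact div_le_div_of_nonneg_left (by positivity) hx hxy

theorem B8_arg {N : ℕ} {k : ℝ} (hk : k = 2 * π / √N) (t : ℝ) (n : ℕ) :
    2 * π * t * ((n : ℝ) + 1) / √N = k * ((n : ℝ) + 1) * t := by
  rw [hk]
  ring

theorem B8_term {k : ℝ} (hk : 0 < k) {b : ℂ} {x t : ℝ} (hx : 0 < x) (hxt : x ≤ t) (n : ℕ) :
    ‖b * ((KK (k * ((n : ℝ) + 1) * t) : ℝ) : ℂ)‖ ≤
      ‖b‖ * (√(2 * π / (k * x)) * Real.exp (-(k * ((n : ℝ) + 1) * t))) := by
  rw [norm_mul, Complex.norm_real, Real.norm_of_nonneg (KK_nonneg _)]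
  refine mul_le_mul_of_nonneg_left (B8_KK (by positivity) ?_) (norm_nonneg _)
  have h1 : k * x ≤ k * t := mul_le_mul_of_nonneg_left hxt hk.le
  have h2 : (0 : ℝ) ≤ n := Nat.cast_nonneg n
  have h3 : 0 < k * t := mul_pos hk (lt_of_lt_of_le hx hxt)
  nlinarith [mul_nonneg h3.le h2]

theorem B8_cont {N : ℕ} (hN : 0 < N) {a : ℕ → ℂ} (hbd : ∀ n : ℕ, 0 < n → ‖a n‖ ≤ (n.divisors.card : ℝ)) :
    ContinuousOn (fun t : ℝ => GB N a t) (Ioi 0) := by
  have hN' : 0 < √(N : ℝ) := Real.sqrt_pos.2 (by exact_mod_cast hN)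
  have hpi := Real.pi_pos
  obtain ⟨k, hk⟩ : ∃ k : ℝ, k = 2 * π / √N := ⟨_, rfl⟩
  have hk0 : 0 < k := by
    rw [hk]
    positivity
  intro t0 ht0
  have ht0' : (0 : ℝ) < t0 := ht0
  have hx : 0 < t0 / 2 := by linarith
  have hs : Summable (fun n : ℕ => ‖a (n + 1)‖ *
      (√(2 * π / (k * (t0 / 2))) * Real.exp (-(k * (t0 / 2) * ((n : ℝ) + 1))))) := by
    have h1 := (H08_summ hbd (x := k * (t0 / 2)) (by positivity)).mul_left (√(2 * π / (k * (t0 / 2))))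
    refine h1.congr fun n => ?_
    ring
  have key : ContinuousOn (fun t : ℝ => ∑' n : ℕ, a (n + 1) * ((KK (k * ((n : ℝ) + 1) * t) : ℝ) : ℂ))
      (Ioi (t0 / 2)) := by
    refine continuousOn_tsum (fun n => ?_) hs (fun n t ht => ?_)
    · refine continuousOn_const.mul (continuous_ofReal.comp_continuousOn ?_)
      refine KK_cont.comp (by fun_prop) ?_
      intro t ht
      have ht' : t0 / 2 < t := ht
      have : 0 < t := by linarith
      change 0 < k * ((n : ℝ) + 1) * t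
      positivity
    · have ht' : t0 / 2 < t := ht
      refine (B8_term hk0 hx ht'.le n).trans ?_
      refine mul_le_mul_of_nonneg_left (mul_le_mul_of_nonneg_left (Real.exp_le_exp.2 ?_) (Real.sqrt_nonneg _))
        (norm_nonneg _)
      have h2 : 0 < k * ((n : ℝ) + 1) := by positivity
      nlinarith [mul_lt_mul_of_pos_left ht' h2]
  have h3 : (fun t : ℝ => GB N a t) =
      fun t : ℝ => ∑' n : ℕ, a (n + 1) * ((KK (k * ((n : ℝ) + 1) * t) : ℝ) : ℂ) := by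
    funext t
    unfold GB
    simp only [B8_arg hk]
  rw [h3]
  exact (key.continuousAt (Ioi_mem_nhds (by linarith))).continuousWithinAt

theorem B8_top {N : ℕ} (hN : 0 < N) {a : ℕ → ℂ} (hbd : ∀ n : ℕ, 0 < n → ‖a n‖ ≤ (n.divisors.card : ℝ)) (r : ℝ) :
    (fun t : ℝ => GB N a t) =O[atTop] (fun t : ℝ => t ^ r) := by
  have hN' : 0 < √(N : ℝ) := Real.sqrt_pos.2 (by exact_mod_cast hN)
  have hpi := Real.pi_pos
  obtain ⟨k, hk⟩ : ∃ k : ℝ, k = 2 * π / √N := ⟨_, rfl⟩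
  have hk0 : 0 < k := by
    rw [hk]
    positivity
  have hs0 : Summable (fun n : ℕ => ‖a (n + 1)‖ *
      (√(2 * π / (k * 1)) * Real.exp (-(k / 2 * ((n : ℝ) + 1))))) := by
    have h1 := (H08_summ hbd (x := k / 2) (by positivity)).mul_left (√(2 * π / (k * 1)))
    refine h1.congr fun n => ?_
    ring
  obtain ⟨C, hC⟩ : ∃ C : ℝ, C = ∑' n : ℕ, ‖a (n + 1)‖ *
      (√(2 * π / (k * 1)) * Real.exp (-(k / 2 * ((n : ℝ) + 1)))) := ⟨_, rfl⟩
  have h2 : (fun t : ℝ => GB N a t) =O[atTop] (fun y : ℝ => Real.exp (-(k / 2) * y)) := by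
    refine Asymptotics.IsBigO.of_bound C ?_
    filter_upwards [eventually_ge_atTop (1 : ℝ)] with y hy
    have hy0 : 0 < y := by linarith
    rw [Real.norm_of_nonneg (Real.exp_pos _).le, hC, ← tsum_mul_right]
    unfold GB
    simp only [B8_arg hk]
    refine tsum_of_norm_bounded ((hs0.mul_right _).hasSum) (fun n => ?_)
    refine (B8_term hk0 one_pos hy n).trans ?_
    rw [mul_assoc (‖a (n + 1)‖), mul_assoc (√(2 * π / (k * 1))), ← Real.exp_add]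
    refine mul_le_mul_of_nonneg_left (mul_le_mul_of_nonneg_left (Real.exp_le_exp.2 ?_) (Real.sqrt_nonneg _))
      (norm_nonneg _)
    have h4 : (0 : ℝ) ≤ n := Nat.cast_nonneg n
    have h5 : 0 ≤ (y - 1) * n := mul_nonneg (by linarith) h4
    have h7 : ((n : ℝ) + 1) + y ≤ 2 * y * ((n : ℝ) + 1) := by nlinarith
    have h8 := mul_le_mul_of_nonneg_left h7 (half_pos hk0).le
    nlinarith
  exact h2.trans (isLittleO_exp_neg_mul_rpow_atTop (half_pos hk0) _).isBigO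

theorem B8_J {σ c : ℝ} (hc : 0 < c) : ∫ t in Ioi (0 : ℝ), t ^ (σ - 1) * KK (c * t) =
    c ^ (-σ) * ∫ t in Ioi (0 : ℝ), t ^ (σ - 1) * KK t := by
  have h1 := integral_comp_mul_left_Ioi (fun t : ℝ => t ^ (σ - 1) * KK t) 0 hc
  rw [mul_zero] at h1
  have h2 : ∫ t in Ioi (0 : ℝ), (c * t) ^ (σ - 1) * KK (c * t) =
      c ^ (σ - 1) * ∫ t in Ioi (0 : ℝ), t ^ (σ - 1) * KK (c * t) := by
    rw [← integral_const_mul]
    refine setIntegral_congr_fun measurableSet_Ioi fun t ht => ?_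
    have ht' : (0 : ℝ) < t := ht
    change (c * t) ^ (σ - 1) * KK (c * t) = c ^ (σ - 1) * (t ^ (σ - 1) * KK (c * t))
    rw [Real.mul_rpow hc.le ht'.le, mul_assoc]
  rw [h2, smul_eq_mul] at h1
  have h3 : c ^ (σ - 1) ≠ 0 := (Real.rpow_pos_of_pos hc _).ne'
  have h4 : c ^ (-σ) = c⁻¹ * (c ^ (σ - 1))⁻¹ := by
    rw [← Real.rpow_neg hc.le, ← Real.rpow_neg_one, ← Real.rpow_add hc]
    congr 1
    ring
  rw [h4, mul_comm c⁻¹, mul_assoc, ← h1, ← mul_assoc, inv_mul_cancel₀ h3, one_mul]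

theorem B8_norm {s : ℂ} {c t : ℝ} (b : ℂ) (ht : 0 < t) :
    ‖(t : ℂ) ^ (s - 1) • (b * ((KK (c * t) : ℝ) : ℂ))‖ = ‖b‖ * (t ^ (s.re - 1) * KK (c * t)) := by
  rw [norm_smul, norm_mul, Complex.norm_real, Real.norm_of_nonneg (KK_nonneg _),
    Complex.norm_cpow_eq_rpow_re_of_pos ht, sub_re, one_re]
  ring

theorem B8_ser {N : ℕ} (hN : 0 < N) {a : ℕ → ℂ} (hbd : ∀ n : ℕ, 0 < n → ‖a n‖ ≤ (n.divisors.card : ℝ))
    {s : ℂ} (hs : 1 < s.re) : HasSum (fun n : ℕ => ((2 * π / √N * ((n : ℝ) + 1) : ℝ) : ℂ) ^ (-s) *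
      (a (n + 1) * (2 ^ (s - 1) * Gamma (s / 2) ^ 2))) (mellin (fun t : ℝ => GB N a t) s) := by
  have hN' : 0 < √(N : ℝ) := Real.sqrt_pos.2 (by exact_mod_cast hN)
  have hpi := Real.pi_pos
  obtain ⟨k, hk⟩ : ∃ k : ℝ, k = 2 * π / √N := ⟨_, rfl⟩
  have hk0 : 0 < k := by
    rw [hk]
    positivity
  rw [← hk]
  have hs2 : 1 / 2 < s.re := by linarith
  obtain ⟨hK1, hK2⟩ := KK_mellin hs2
  have hc : ∀ n : ℕ, 0 < k * ((n : ℝ) + 1) := fun n => by positivity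
  have hF1 : ∀ n : ℕ, Integrable (fun t : ℝ => (t : ℂ) ^ (s - 1) • (a (n + 1) * ((KK (k * ((n : ℝ) + 1) * t) : ℝ) : ℂ)))
      (volume.restrict (Ioi 0)) := by
    intro n
    have h1 : MellinConvergent (fun t : ℝ => ((KK (k * ((n : ℝ) + 1) * t) : ℝ) : ℂ)) s :=
      (MellinConvergent.comp_mul_left (f := fun t : ℝ => ((KK t : ℝ) : ℂ)) (hc n)).2 hK1
    have h2 : Integrable (fun t : ℝ => (t : ℂ) ^ (s - 1) • ((KK (k * ((n : ℝ) + 1) * t) : ℝ) : ℂ))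
      (volume.restrict (Ioi 0)) := h1
    refine (h2.const_mul (a (n + 1))).congr (Filter.Eventually.of_forall fun t => ?_)
    simp only [smul_eq_mul]
    ring
  have hF2 : ∀ n : ℕ, ∫ t in Ioi (0 : ℝ), (t : ℂ) ^ (s - 1) • (a (n + 1) * ((KK (k * ((n : ℝ) + 1) * t) : ℝ) : ℂ)) =
      ((k * ((n : ℝ) + 1) : ℝ) : ℂ) ^ (-s) * (a (n + 1) * (2 ^ (s - 1) * Gamma (s / 2) ^ 2)) := by
    intro n
    have h1 := mellin_comp_mul_left (fun t : ℝ => ((KK t : ℝ) : ℂ)) s (hc n)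
    rw [hK2, smul_eq_mul] at h1
    have h2 : ∫ t in Ioi (0 : ℝ), (t : ℂ) ^ (s - 1) • (a (n + 1) * ((KK (k * ((n : ℝ) + 1) * t) : ℝ) : ℂ)) =
        a (n + 1) * mellin (fun t : ℝ => ((KK (k * ((n : ℝ) + 1) * t) : ℝ) : ℂ)) s := by
      unfold mellin
      rw [← integral_const_mul]
      refine integral_congr_ae (Filter.Eventually.of_forall fun t => ?_)
      simp only [smul_eq_mul]
      ring
    rw [h2, h1]
    ring
  have hF3 : Summable fun n : ℕ => ∫ t in Ioi (0 : ℝ),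
      ‖(t : ℂ) ^ (s - 1) • (a (n + 1) * ((KK (k * ((n : ℝ) + 1) * t) : ℝ) : ℂ))‖ := by
    have h1 : ∀ n : ℕ, ∫ t in Ioi (0 : ℝ), ‖(t : ℂ) ^ (s - 1) • (a (n + 1) * ((KK (k * ((n : ℝ) + 1) * t) : ℝ) : ℂ))‖ =
        ‖a (n + 1)‖ * ((k * ((n : ℝ) + 1)) ^ (-s.re) * ∫ t in Ioi (0 : ℝ), t ^ (s.re - 1) * KK t) := by
      intro n
      rw [← B8_J (hc n), ← integral_const_mul]
      refine setIntegral_congr_fun measurableSet_Ioi fun t ht => ?_
      exact B8_norm (a (n + 1)) ht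
    simp only [h1]
    have hJ : 0 ≤ ∫ t in Ioi (0 : ℝ), t ^ (s.re - 1) * KK t := by
      refine setIntegral_nonneg measurableSet_Ioi fun t ht => ?_
      have ht' : (0 : ℝ) < t := ht
      exact mul_nonneg (Real.rpow_nonneg ht'.le _) (KK_nonneg _)
    have h2 := (H08_div hs).mul_left (k ^ (-s.re) * ∫ t in Ioi (0 : ℝ), t ^ (s.re - 1) * KK t)
    refine Summable.of_nonneg_of_le (fun n => ?_) (fun n => ?_) h2
    · exact mul_nonneg (norm_nonneg _) (mul_nonneg (Real.rpow_nonneg (hc n).le _) hJ)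
    · have h3 : (0 : ℝ) < (n : ℝ) + 1 := by positivity
      have h4 := hbd (n + 1) (Nat.succ_pos n)
      rw [Real.mul_rpow hk0.le h3.le, Real.rpow_neg h3.le, div_eq_mul_inv]
      have h5 : 0 ≤ k ^ (-s.re) * (((n : ℝ) + 1) ^ s.re)⁻¹ * ∫ t in Ioi (0 : ℝ), t ^ (s.re - 1) * KK t := by
        refine mul_nonneg (mul_nonneg (Real.rpow_nonneg hk0.le _) (inv_nonneg.2 (Real.rpow_nonneg h3.le _))) hJ
      have h6 := mul_le_mul_of_nonneg_right h4 h5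
      nlinarith [h6]
  have h9 := hasSum_integral_of_summable_integral_norm hF1 hF3
  simp only [hF2] at h9
  have h10 : ∫ t in Ioi (0 : ℝ), ∑' n : ℕ, (t : ℂ) ^ (s - 1) • (a (n + 1) * ((KK (k * ((n : ℝ) + 1) * t) : ℝ) : ℂ)) =
      mellin (fun t : ℝ => GB N a t) s := by
    unfold mellin GB
    refine integral_congr_ae (Filter.Eventually.of_forall fun t => ?_)
    simp only [B8_arg hk, smul_eq_mul]
    exact tsum_mul_left
  rw [← h10]
  exact h9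

theorem B8_conj {N : ℕ} {a : ℕ → ℂ} (hr : ∀ n : ℕ, 0 < n → conj (a n) = a n) (s : ℂ) :
    conj (mellin (fun t : ℝ => GB N a t) s) = mellin (fun t : ℝ => GB N a t) (conj s) := by
  unfold mellin
  rw [← integral_conj]
  refine setIntegral_congr_fun measurableSet_Ioi fun t ht => ?_
  have ht' : (0 : ℝ) < t := ht
  have h1 : conj (GB N a t) = GB N a t := by
    unfold GB
    rw [Complex.conj_tsum]
    refine tsum_congr fun n => ?_
    rw [map_mul, conj_ofReal, hr (n + 1) (Nat.succ_pos n)]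
  have h2 : conj ((t : ℂ) ^ (s - 1)) = (t : ℂ) ^ (conj s - 1) := by
    have h3 : (t : ℂ).arg ≠ π := by
      rw [Complex.arg_ofReal_of_nonneg ht'.le]
      exact Real.pi_pos.ne
    have h4 := Complex.cpow_conj (t : ℂ) (s - 1) h3
    rw [conj_ofReal, map_sub, map_one] at h4
    exact h4.symm
  change conj ((t : ℂ) ^ (s - 1) • GB N a t) = (t : ℂ) ^ (conj s - 1) • GB N a t
  rw [smul_eq_mul, smul_eq_mul, map_mul, h1, h2]

theorem B8_strip {N : ℕ} {a : ℕ → ℂ} (hm : ∀ s : ℂ, MellinConvergent (fun t : ℝ => GB N a t) s) :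
    ∃ C : ℝ, ∀ s : ℂ, -(1 / 2) ≤ s.re → s.re ≤ 3 / 2 → ‖mellin (fun t : ℝ => GB N a t) s‖ ≤ C := by
  have h1 : ∀ σ : ℝ, IntegrableOn (fun t : ℝ => t ^ (σ - 1) * ‖GB N a t‖) (Ioi 0) := by
    intro σ
    have h2 : Integrable (fun t : ℝ => ‖(t : ℂ) ^ ((σ : ℂ) - 1) • GB N a t‖) (volume.restrict (Ioi 0)) :=
      Integrable.norm (hm (σ : ℂ))
    refine IntegrableOn.congr_fun h2 (fun t ht => ?_) measurableSet_Ioi
    have ht' : (0 : ℝ) < t := ht
    change ‖(t : ℂ) ^ ((σ : ℂ) - 1) • GB N a t‖ = t ^ (σ - 1) * ‖GB N a t‖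
    rw [norm_smul, Complex.norm_cpow_eq_rpow_re_of_pos ht', sub_re, one_re, ofReal_re]
  refine ⟨∫ t in Ioi (0 : ℝ), (t ^ ((-(1 / 2) : ℝ) - 1) * ‖GB N a t‖ + t ^ ((3 / 2 : ℝ) - 1) * ‖GB N a t‖),
    fun s hs1 hs2 => ?_⟩
  unfold mellin
  refine (norm_integral_le_integral_norm _).trans ?_
  have h3 : Integrable (fun t : ℝ => ‖(t : ℂ) ^ (s - 1) • GB N a t‖) (volume.restrict (Ioi 0)) :=
      Integrable.norm (hm s)
  refine setIntegral_mono_on h3 ((h1 (-(1 / 2))).add (h1 (3 / 2))) measurableSet_Ioi fun t ht => ?_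
  have ht' : (0 : ℝ) < t := ht
  rw [norm_smul, Complex.norm_cpow_eq_rpow_re_of_pos ht', sub_re, one_re, ← add_mul]
  refine mul_le_mul_of_nonneg_right ?_ (norm_nonneg _)
  rcases le_total t 1 with h4 | h4
  · have h5 := Real.rpow_le_rpow_of_exponent_ge ht' h4 (by linarith : (-(1 / 2) : ℝ) - 1 ≤ s.re - 1)
    have h6 := Real.rpow_nonneg ht'.le ((3 / 2 : ℝ) - 1)
    linarith
  · have h5 := Real.rpow_le_rpow_of_exponent_le h4 (by linarith : s.re - 1 ≤ (3 / 2 : ℝ) - 1)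
    have h6 := Real.rpow_nonneg ht'.le ((-(1 / 2) : ℝ) - 1)
    linarith

theorem B8_alg {N : ℕ} (hN : 0 < N) {s : ℂ} (hs : 1 < s.re) (n : ℕ) (b : ℂ) :
    b * ((n : ℂ) + 1) ^ (-s) = (2 * (((2 * π / √N * ((n : ℝ) + 1) : ℝ) : ℂ) ^ (-s) *
      (b * (2 ^ (s - 1) * Gamma (s / 2) ^ 2)))) * (N : ℂ) ^ (-(s / 2)) * ((Gammaℝ s)⁻¹) ^ 2 := by
  have hN0 : (0 : ℝ) < N := by exact_mod_cast hN
  have hN' : 0 < √(N : ℝ) := Real.sqrt_pos.2 hN0
  have hpi := Real.pi_pos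
  have hG : Gamma (s / 2) ≠ 0 := by
    refine Gamma_ne_zero_of_re_pos ?_
    have : (s / 2).re = s.re / 2 := by simp
    rw [this]
    linarith
  have e1 : ((2 * π / √N * ((n : ℝ) + 1) : ℝ) : ℂ) ^ (-s) = (2 : ℂ) ^ (-s) * (π : ℂ) ^ (-s) *
      (N : ℂ) ^ (s / 2) * ((n : ℂ) + 1) ^ (-s) := by
    have h1 : (2 * π / √N * ((n : ℝ) + 1) : ℝ) = 2 * (π * ((√N)⁻¹ * ((n : ℝ) + 1))) := by
      field_simp
    rw [h1, ofReal_mul, mul_cpow_ofReal_nonneg (by norm_num) (by positivity), ofReal_mul,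
      mul_cpow_ofReal_nonneg hpi.le (by positivity), ofReal_mul,
      mul_cpow_ofReal_nonneg (by positivity) (by positivity)]
    have h2 : (((√(N : ℝ))⁻¹ : ℝ) : ℂ) ^ (-s) = (N : ℂ) ^ (s / 2) := by
      have h3 : (((√(N : ℝ))⁻¹ : ℝ) : ℂ) ≠ 0 := ofReal_ne_zero.2 (inv_ne_zero hN'.ne')
      have h4 : (N : ℂ) ≠ 0 := by exact_mod_cast hN.ne'
      have h5 : Real.log (√(N : ℝ))⁻¹ = -(Real.log N / 2) := by
        rw [Real.log_inv, Real.log_sqrt hN0.le]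
      rw [cpow_def_of_ne_zero h3, cpow_def_of_ne_zero h4, ← ofReal_log (inv_nonneg.2 hN'.le), h5, ← natCast_log]
      congr 1
      push_cast
      ring
    rw [h2]
    push_cast
    ring
  have e2 : Gammaℝ s ^ 2 = (π : ℂ) ^ (-s) * Gamma (s / 2) ^ 2 := by
    rw [Gammaℝ_def, mul_pow, ← cpow_nat_mul]
    congr 2
    push_cast
    ring
  have e3 : (2 : ℂ) ^ (s - 1) = (2 : ℂ) ^ s / 2 := by
    rw [cpow_sub _ _ two_ne_zero, cpow_one]
  have hp : (π : ℂ) ^ (-s) ≠ 0 := by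
    rw [Ne, cpow_eq_zero_iff]
    intro h
    exact ofReal_ne_zero.2 hpi.ne' h.1
  have hn : (N : ℂ) ^ (s / 2) ≠ 0 := by
    rw [Ne, cpow_eq_zero_iff]
    intro h
    exact (by exact_mod_cast hN.ne' : (N : ℂ) ≠ 0) h.1
  have h2s : (2 : ℂ) ^ s ≠ 0 := by
    rw [Ne, cpow_eq_zero_iff]
    intro h
    exact two_ne_zero h.1
  rw [inv_pow, e2, e1, e3, cpow_neg (2 : ℂ) s, cpow_neg (N : ℂ) (s / 2)]
  field_simp

/-- Row B8. The completed L-function. Model HC/H08.lean (exists_L). Proof. Apply Mathlib's StrongFEPair (k = 1, ε = 1, f = g = GB N a) :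
continuity on (0,∞), decay faster than any power at ∞ from B3.KK_le and ‖a n‖ ≤ d(n) ≤ n. mellin (GB N a) is entire,
mellin(1 - s) = mellin s. For Re s > 1: mellin (GB N a) s = Σ a(n) (√N/(2πn))^s 2^{s-1} Γ(s/2)² (B3b.KK_mellin, hasSum_mellin or
integral_tsum) = (1/2) N^{s/2} Gammaℝ(s)² Σ a(n) n^{-s}. Put Λ = 2 mellin (GB N a), L = Λ N^{-s/2} (Gammaℝ(s)⁻¹)²
(differentiable_Gammaℝ_inv). a is real so conj Λ(s) = Λ(conj s). On the strip |Λ(s)| ≤ 2 ∫ |GB| (t^{-3/2} + t^{1/2}) dt. -/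
theorem exists_Lam {N : ℕ} (hN : 0 < N) {a : ℕ → ℂ} (hbd : ∀ n : ℕ, 0 < n → ‖a n‖ ≤ (n.divisors.card : ℝ))
    (hr : ∀ n : ℕ, 0 < n → conj (a n) = a n) (hfe : ∀ t : ℝ, 0 < t → GB N a (1 / t) = t * GB N a t) :
    ∃ Λ L : ℂ → ℂ, Differentiable ℂ Λ ∧ Differentiable ℂ L ∧ (∀ s, Λ (1 - s) = Λ s) ∧
      (∀ s, conj (Λ s) = Λ (conj s)) ∧
      (∀ s, L s = Λ s * (N : ℂ) ^ (-(s / 2)) * ((Gammaℝ s)⁻¹) ^ 2) ∧
      (∃ C : ℝ, ∀ s : ℂ, -(1 / 2) ≤ s.re → s.re ≤ 3 / 2 → ‖Λ s‖ ≤ C) ∧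
      ∀ s : ℂ, 1 < s.re → HasSum (fun n : ℕ => a (n + 1) * ((n : ℂ) + 1) ^ (-s)) (L s) := by
  have hcont := B8_cont hN hbd
  have hf_int : LocallyIntegrableOn (fun y : ℝ => GB N a y) (Ioi 0) :=
    hcont.locallyIntegrableOn measurableSet_Ioi
  let P : WeakFEPair ℂ :=
    { f := fun y : ℝ => GB N a y
      g := fun y : ℝ => GB N a y
      k := 1
      ε := 1
      f₀ := 0
      g₀ := 0
      hf_int := hf_int
      hg_int := hf_int
      hk := one_pos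
      hε := one_ne_zero
      h_feq := by
        intro x hx
        have h1 := hfe x hx
        rw [Real.rpow_one, smul_eq_mul, one_mul, ← h1]
      hf_top := by
        intro r
        simpa using B8_top hN hbd r
      hg_top := by
        intro r
        simpa using B8_top hN hbd r }
  have hP : IsStrongFEPair P := ⟨rfl, rfl⟩
  obtain ⟨m, hm⟩ : ∃ m : ℂ → ℂ, m = mellin (fun y : ℝ => GB N a y) := ⟨_, rfl⟩
  have hm1 : m = P.Λ := by
    rw [hm]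
    exact hP.Λ_eq.symm
  have hm2 : m = P.symm.Λ := by
    rw [hm]
    exact hP.symm_Λ_eq.symm
  have hmd : Differentiable ℂ m := by
    rw [hm1]
    exact hP.differentiable_Λ
  have hmfe : ∀ s, m (1 - s) = m s := by
    intro s
    have h1 := P.functional_equation s
    have h2 : P.Λ (1 - s) = (1 : ℂ) • P.symm.Λ s := by
      have h3 : ((P.k : ℝ) : ℂ) = 1 := by
        change (((1 : ℝ)) : ℂ) = 1
        norm_num
      rw [← h3]
      exact h1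
    rw [← hm1, ← hm2, one_smul] at h2
    exact h2
  have hmc : ∀ s : ℂ, MellinConvergent (fun t : ℝ => GB N a t) s := fun s => (hP.hasMellin s).1
  have hNc : (N : ℂ) ≠ 0 := by exact_mod_cast hN.ne'
  refine ⟨fun s => 2 * m s, fun s => (2 * m s) * (N : ℂ) ^ (-(s / 2)) * ((Gammaℝ s)⁻¹) ^ 2, ?_, ?_, ?_, ?_, ?_, ?_, ?_⟩
  · exact hmd.const_mul 2
  · refine ((hmd.const_mul 2).mul ?_).mul (differentiable_Gammaℝ_inv.pow 2)
    intro s
    refine DifferentiableAt.const_cpow ?_ (Or.inl hNc)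
    fun_prop
  · intro s
    change 2 * m (1 - s) = 2 * m s
    rw [hmfe]
  · intro s
    change conj (2 * m s) = 2 * m (conj s)
    rw [map_mul, hm, B8_conj hr]
    congr 1
    exact Complex.conj_ofNat 2
  · intro s
    rfl
  · obtain ⟨C, hC⟩ := B8_strip hmc
    refine ⟨2 * C, fun s h1 h2 => ?_⟩
    change ‖2 * m s‖ ≤ 2 * C
    have h3 := hC s h1 h2
    rw [← hm] at h3
    rw [norm_mul, Complex.norm_ofNat]
    linarith
  · intro s hs
    have h1 := B8_ser hN hbd hs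
    rw [← hm] at h1
    have h2 := (((h1.mul_left 2).mul_right ((N : ℂ) ^ (-(s / 2)))).mul_right (((Gammaℝ s)⁻¹) ^ 2))
    have h3 : (fun n : ℕ => a (n + 1) * ((n : ℂ) + 1) ^ (-s)) = fun n : ℕ =>
        (2 * (((2 * π / √N * ((n : ℝ) + 1) : ℝ) : ℂ) ^ (-s) *
        (a (n + 1) * (2 ^ (s - 1) * Gamma (s / 2) ^ 2)))) * (N : ℂ) ^ (-(s / 2)) * ((Gammaℝ s)⁻¹) ^ 2 := by
      funext n
      exact B8_alg hN hs n (a (n + 1))
    rw [h3]
    exact h2

end NR
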