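import Mathlib

open Complex MeasureTheory Set Filter Topology
open scoped Real ComplexConjugate NumberField

namespace NR

private theorem B9_Gamma_le (w : ℂ) (h1 : 1 / 4 ≤ w.re) (h2 : w.re ≤ 5 / 4) :
    ‖Complex.Gamma w‖ ≤ Real.Gamma (1 / 4) + Real.Gamma (5 / 4) := by
  have hw : 0 < w.re := by linarith
  have e1 : IntegrableOn (fun x : ℝ => Real.exp (-x) * x ^ ((1 / 4 : ℝ) - 1)) (Ioi 0) :=
    Real.GammaIntegral_convergent (by norm_num)
  have e2 : IntegrableOn (fun x : ℝ => Real.exp (-x) * x ^ ((5 / 4 : ℝ) - 1)) (Ioi 0) :=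
    Real.GammaIntegral_convergent (by norm_num)
  rw [Complex.Gamma_eq_integral hw, Complex.GammaIntegral,
    Real.Gamma_eq_integral (by norm_num : (0:ℝ) < 1 / 4),
    Real.Gamma_eq_integral (by norm_num : (0:ℝ) < 5 / 4), ← integral_add e1 e2]
  refine norm_integral_le_of_norm_le (e1.add e2) ?_
  refine (ae_restrict_iff' measurableSet_Ioi).2 (Eventually.of_forall fun x hx => ?_)
  have hx0 : (0:ℝ) < x := hx
  rw [norm_mul, Complex.norm_real, Real.norm_eq_abs, abs_of_pos (Real.exp_pos _),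
    Complex.norm_cpow_eq_rpow_re_of_pos hx0]
  have h3 : x ^ ((w - 1).re) ≤ x ^ ((1 / 4 : ℝ) - 1) + x ^ ((5 / 4 : ℝ) - 1) := by
    have hr : (w - 1).re = w.re - 1 := by simp
    rw [hr]
    rcases le_total x 1 with h | h
    · have := Real.rpow_le_rpow_of_exponent_ge hx0 h (by linarith : (1 / 4 : ℝ) - 1 ≤ w.re - 1)
      have h4 : 0 ≤ x ^ ((5 / 4 : ℝ) - 1) := Real.rpow_nonneg hx0.le _
      linarith
    · have := Real.rpow_le_rpow_of_exponent_le h (by linarith : w.re - 1 ≤ (5 / 4 : ℝ) - 1)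
      have h4 : 0 ≤ x ^ ((1 / 4 : ℝ) - 1) := Real.rpow_nonneg hx0.le _
      linarith
  have h5 := mul_le_mul_of_nonneg_left h3 (Real.exp_pos (-x)).le
  rw [mul_add] at h5
  exact h5

private theorem B9_sin_le (z : ℂ) : ‖Complex.sin z‖ ≤ Real.exp |z.im| := by
  have h : Complex.sin z = (Complex.exp (-z * I) - Complex.exp (z * I)) * I / 2 := rfl
  rw [h, norm_div, norm_mul, Complex.norm_I, mul_one]
  have h1 : ‖Complex.exp (-z * I)‖ ≤ Real.exp |z.im| := by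
    rw [Complex.norm_exp]
    refine Real.exp_le_exp.2 ?_
    have : (-z * I).re = z.im := by simp
    rw [this]
    exact le_abs_self _
  have h2 : ‖Complex.exp (z * I)‖ ≤ Real.exp |z.im| := by
    rw [Complex.norm_exp]
    refine Real.exp_le_exp.2 ?_
    have : (z * I).re = -z.im := by simp
    rw [this]
    exact neg_le_abs _
  have h3 : ‖(2:ℂ)‖ = 2 := by simp
  rw [h3, div_le_iff₀ (by norm_num)]
  refine (norm_sub_le _ _).trans ?_
  linarith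

private theorem B9_GR_norm (s : ℂ) : ‖Gammaℝ s‖ = π ^ (-s.re / 2) * ‖Complex.Gamma (s / 2)‖ := by
  rw [Complex.Gammaℝ_def, norm_mul, Complex.norm_cpow_eq_rpow_re_of_pos Real.pi_pos]
  congr 2
  simp

private theorem B9_inv : ∃ C : ℝ, 0 ≤ C ∧ ∀ s : ℂ, -(1 / 2) ≤ s.re → s.re ≤ 3 / 2 →
    ‖(Gammaℝ s)⁻¹‖ ≤ C * Real.exp (2 * |s.im|) := by
  have hG : 0 ≤ Real.Gamma (1 / 4) + Real.Gamma (5 / 4) :=
    add_nonneg (Real.Gamma_pos_of_pos (by norm_num)).le (Real.Gamma_pos_of_pos (by norm_num)).le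
  refine ⟨π * (Real.Gamma (1 / 4) + Real.Gamma (5 / 4)), mul_nonneg Real.pi_pos.le hG,
    fun s h1 h2 => ?_⟩
  by_cases h0 : Complex.Gamma (s / 2) = 0
  · have : Gammaℝ s = 0 := by
      rw [Complex.Gammaℝ_def, h0, mul_zero]
    rw [this, inv_zero, norm_zero]
    positivity
  have hre : (1 - s / 2).re = 1 - s.re / 2 := by simp
  have hg := B9_Gamma_le (1 - s / 2) (by rw [hre]; linarith) (by rw [hre]; linarith)
  have hne : Complex.Gamma (1 - s / 2) ≠ 0 :=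
    Complex.Gamma_ne_zero_of_re_pos (by rw [hre]; linarith)
  have hrefl := Complex.Gamma_mul_Gamma_one_sub (s / 2)
  have hsin : Complex.sin (π * (s / 2)) ≠ 0 := by
    intro h
    rw [h, div_zero] at hrefl
    exact (mul_ne_zero h0 hne) hrefl
  have hpi : (π : ℂ) ≠ 0 := by exact_mod_cast Real.pi_ne_zero
  have hinv : (Complex.Gamma (s / 2))⁻¹ = Complex.Gamma (1 - s / 2) * Complex.sin (π * (s / 2)) / π := by
    rw [eq_div_iff hsin] at hrefl
    generalize Complex.sin (π * (s / 2)) = X at hrefl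
    rw [eq_div_iff hpi, ← hrefl]
    field_simp
  have him : (π * (s / 2)).im = π * (s.im / 2) := by
    rw [Complex.im_ofReal_mul]
    simp
  have hs1 : ‖Complex.sin (π * (s / 2))‖ ≤ Real.exp (2 * |s.im|) := by
    refine (B9_sin_le _).trans (Real.exp_le_exp.2 ?_)
    rw [him, abs_mul, abs_of_pos Real.pi_pos, abs_div, abs_of_pos (by norm_num : (0:ℝ) < 2)]
    have := Real.pi_le_four
    have h3 : 0 ≤ |s.im| := abs_nonneg _
    nlinarith
  have hn : ‖(Gammaℝ s)⁻¹‖ = π ^ (s.re / 2) * ‖(Complex.Gamma (s / 2))⁻¹‖ := by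
    rw [norm_inv, B9_GR_norm, mul_inv, ← Real.rpow_neg Real.pi_pos.le, norm_inv]
    congr 2
    ring
  have hp : π ^ (s.re / 2) ≤ π := by
    calc π ^ (s.re / 2) ≤ π ^ (1:ℝ) :=
          Real.rpow_le_rpow_of_exponent_le (by linarith [Real.pi_gt_three]) (by linarith)
      _ = π := Real.rpow_one _
  have hc : ‖(Complex.Gamma (s / 2))⁻¹‖ ≤
      (Real.Gamma (1 / 4) + Real.Gamma (5 / 4)) * Real.exp (2 * |s.im|) := by
    rw [hinv, norm_div, norm_mul, Complex.norm_real, Real.norm_eq_abs, abs_of_pos Real.pi_pos,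
      div_le_iff₀ Real.pi_pos]
    calc ‖Complex.Gamma (1 - s / 2)‖ * ‖Complex.sin (π * (s / 2))‖
        ≤ (Real.Gamma (1 / 4) + Real.Gamma (5 / 4)) * Real.exp (2 * |s.im|) :=
          mul_le_mul hg hs1 (norm_nonneg _) hG
      _ ≤ (Real.Gamma (1 / 4) + Real.Gamma (5 / 4)) * Real.exp (2 * |s.im|) * π := by
          refine le_mul_of_one_le_right (mul_nonneg hG (Real.exp_pos _).le) ?_
          linarith [Real.pi_gt_three]
  rw [hn]
  calc π ^ (s.re / 2) * ‖(Complex.Gamma (s / 2))⁻¹‖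
      ≤ π * ((Real.Gamma (1 / 4) + Real.Gamma (5 / 4)) * Real.exp (2 * |s.im|)) :=
        mul_le_mul hp hc (norm_nonneg _) Real.pi_pos.le
    _ = π * (Real.Gamma (1 / 4) + Real.Gamma (5 / 4)) * Real.exp (2 * |s.im|) := by ring

private theorem B9_edge (s : ℂ) (h : s.re = -(1 / 2)) :
    ‖Gammaℝ (1 - s)‖ = ‖Gammaℝ s‖ * ‖s‖ / 2 / π := by
  have hs0 : s ≠ 0 := by
    rintro rfl
    norm_num at h
  have h1 : ‖Gammaℝ (1 - s)‖ = ‖Gammaℝ (s + 2)‖ := by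
    have hc : s + 2 = conj (1 - s) := by
      apply Complex.ext
      · simp
        linarith
      · simp
    have hc2 : (s + 2) / 2 = conj ((1 - s) / 2) := by
      rw [hc, map_div₀, map_ofNat]
    rw [B9_GR_norm, B9_GR_norm, hc2, Complex.Gamma_conj, RCLike.norm_conj, hc]
    simp
  rw [h1, Complex.Gammaℝ_add_two hs0, norm_div, norm_div, norm_mul, Complex.norm_real,
    Real.norm_eq_abs, abs_of_pos Real.pi_pos]
  simp

/-- Row B9. Growth. Proof. For Re s ≥ 3/2, |L(s)| ≤ Σ d(n) n^{-3/2}. On Re s = -1/2: Λ(s) = Λ(1-s) gives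
|L(s)| = N |Gammaℝ(1-s)²/Gammaℝ(s)²| |L(1-s)| and |Γ(3/4 - it/2)/Γ(-1/4 + it/2)|² = 1/16 + t²/4 (Γ(z+1) = zΓ(z), conjugation), the
powers of π give π^{-2}: |L(-1/2+it)| ≤ C (1+|t|)². In the strip -1/2 ≤ Re s ≤ 3/2 the function h(s) = L(s)/(s+1)² is bounded on both
edges and |L(s)| ≤ C exp(4|t|), because |1/Γ(z)| = |Γ(1-z) sin(πz)|/π ≤ C e^{π|Im z|} for z = s/2, Re(1-z) ≥ 1/4. Phragmen-Lindelöf
(PhragmenLindelof.vertical_strip) gives |h| ≤ C in the strip. -/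
theorem growth {N : ℕ} (hN : 0 < N) {a : ℕ → ℂ} (hbd : ∀ n : ℕ, 0 < n → ‖a n‖ ≤ (n.divisors.card : ℝ))
    {Λ L : ℂ → ℂ} (hL : Differentiable ℂ L) (hfe : ∀ s, Λ (1 - s) = Λ s)
    (hΛL : ∀ s, L s = Λ s * (N : ℂ) ^ (-(s / 2)) * ((Gammaℝ s)⁻¹) ^ 2)
    (hb : ∃ C : ℝ, ∀ s : ℂ, -(1 / 2) ≤ s.re → s.re ≤ 3 / 2 → ‖Λ s‖ ≤ C)
    (hs : ∀ s : ℂ, 1 < s.re → HasSum (fun n : ℕ => a (n + 1) * ((n : ℂ) + 1) ^ (-s)) (L s)) :
    ∃ C : ℝ, 0 < C ∧ ∀ s : ℂ, 1 / 2 ≤ s.re → ‖L s‖ ≤ C * (1 + |s.im|) ^ 2 := by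
  have hN1 : (1:ℝ) ≤ (N:ℝ) := by exact_mod_cast hN
  have hN0 : (0:ℝ) < (N:ℝ) := by exact_mod_cast hN
  -- the series
  have hnorm : ∀ (s : ℂ) (n : ℕ), ‖a (n + 1) * ((n : ℂ) + 1) ^ (-s)‖ = ‖a (n + 1)‖ * ((n:ℝ) + 1) ^ (-s.re) := by
    intro s n
    rw [norm_mul]
    congr 1
    have h : ((n : ℂ) + 1) = (((n:ℝ) + 1 : ℝ) : ℂ) := by push_cast; ring
    rw [h, Complex.norm_cpow_eq_rpow_re_of_pos (by positivity)]
    simp
  have hsum : Summable (fun n : ℕ => ‖a (n + 1)‖ * ((n:ℝ) + 1) ^ (-(3 / 2 : ℝ))) := by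
    have h := (hs ((3 / 2 : ℝ) : ℂ) (by rw [Complex.ofReal_re]; norm_num)).summable.norm
    refine h.congr fun n => ?_
    rw [hnorm, Complex.ofReal_re]
  set A : ℝ := ∑' n : ℕ, ‖a (n + 1)‖ * ((n:ℝ) + 1) ^ (-(3 / 2 : ℝ)) with hA
  have hA0 : 0 ≤ A := tsum_nonneg fun n => by positivity
  have hser : ∀ s : ℂ, 3 / 2 ≤ s.re → ‖L s‖ ≤ A := by
    intro s h
    rw [← (hs s (by linarith)).tsum_eq]
    refine tsum_of_norm_bounded hsum.hasSum fun n => ?_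
    rw [hnorm]
    refine mul_le_mul_of_nonneg_left ?_ (norm_nonneg _)
    refine Real.rpow_le_rpow_of_exponent_le ?_ (by linarith)
    have : (0:ℝ) ≤ (n:ℝ) := Nat.cast_nonneg n
    linarith
  have hNn : ∀ z : ℂ, ‖(N : ℂ) ^ z‖ = (N:ℝ) ^ z.re := fun z => Complex.norm_natCast_cpow_of_pos hN z
  -- left edge
  have hleft : ∀ s : ℂ, s.re = -(1 / 2) → ‖L s‖ ≤ A * N * ‖s‖ ^ 2 := by
    intro s h
    have h1 : (1 - s).re = 3 / 2 := by
      simp [h]
      norm_num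
    have hg1 : Gammaℝ (1 - s) ≠ 0 := Complex.Gammaℝ_ne_zero_of_re_pos (by rw [h1]; norm_num)
    have hgn : 0 < ‖Gammaℝ (1 - s)‖ := norm_pos_iff.2 hg1
    have h2 := hser (1 - s) h1.ge
    rw [hΛL (1 - s), norm_mul, norm_mul, hNn, hfe, norm_pow, norm_inv] at h2
    have he1 : (-((1 - s) / 2)).re = -(3 / 4) := by
      have : (-((1 - s) / 2)).re = -((1 - s).re / 2) := by simp
      rw [this, h1]
      norm_num
    rw [he1] at h2
    have hp1 : 0 < (N:ℝ) ^ (3 / 4 : ℝ) := Real.rpow_pos_of_pos hN0 _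
    have h3 : ‖Λ s‖ ≤ A * (N:ℝ) ^ (3 / 4 : ℝ) * ‖Gammaℝ (1 - s)‖ ^ 2 := by
      rw [Real.rpow_neg hN0.le] at h2
      have h4 : ‖Λ s‖ = (‖Λ s‖ * ((N:ℝ) ^ (3 / 4 : ℝ))⁻¹ * (‖Gammaℝ (1 - s)‖⁻¹) ^ 2) *
          ((N:ℝ) ^ (3 / 4 : ℝ) * ‖Gammaℝ (1 - s)‖ ^ 2) := by
        field_simp
      rw [h4]
      calc _ ≤ A * ((N:ℝ) ^ (3 / 4 : ℝ) * ‖Gammaℝ (1 - s)‖ ^ 2) :=
            mul_le_mul_of_nonneg_right h2 (by positivity)
        _ = _ := by ring
    have he2 : (-(s / 2)).re = 1 / 4 := by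
      have : (-(s / 2)).re = -(s.re / 2) := by simp
      rw [this, h]
      norm_num
    rw [hΛL s, norm_mul, norm_mul, hNn, he2, norm_pow, norm_inv]
    have hp2 : 0 < (N:ℝ) ^ (1 / 4 : ℝ) := Real.rpow_pos_of_pos hN0 _
    have h5 : ‖Λ s‖ * (N:ℝ) ^ (1 / 4 : ℝ) * (‖Gammaℝ s‖⁻¹) ^ 2 ≤
        (A * (N:ℝ) ^ (3 / 4 : ℝ) * ‖Gammaℝ (1 - s)‖ ^ 2) * (N:ℝ) ^ (1 / 4 : ℝ) * (‖Gammaℝ s‖⁻¹) ^ 2 := by
      gcongr
    refine h5.trans ?_
    have h6 : (N:ℝ) ^ (3 / 4 : ℝ) * (N:ℝ) ^ (1 / 4 : ℝ) = N := by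
      rw [← Real.rpow_add hN0]
      norm_num
    have h7 : ‖Gammaℝ (1 - s)‖ * ‖Gammaℝ s‖⁻¹ ≤ ‖s‖ := by
      rw [B9_edge s h]
      by_cases h0 : ‖Gammaℝ s‖ = 0
      · rw [h0]
        simp
      · have h8 : ‖Gammaℝ s‖ * ‖s‖ / 2 / π * ‖Gammaℝ s‖⁻¹ = ‖s‖ / (2 * π) := by
          field_simp
        rw [h8]
        refine div_le_self (norm_nonneg _) ?_
        linarith [Real.pi_gt_three]
    have h9 : (‖Gammaℝ (1 - s)‖ * ‖Gammaℝ s‖⁻¹) ^ 2 ≤ ‖s‖ ^ 2 :=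
      pow_le_pow_left₀ (by positivity) h7 2
    calc (A * (N:ℝ) ^ (3 / 4 : ℝ) * ‖Gammaℝ (1 - s)‖ ^ 2) * (N:ℝ) ^ (1 / 4 : ℝ) * (‖Gammaℝ s‖⁻¹) ^ 2
        = A * ((N:ℝ) ^ (3 / 4 : ℝ) * (N:ℝ) ^ (1 / 4 : ℝ)) * (‖Gammaℝ (1 - s)‖ * ‖Gammaℝ s‖⁻¹) ^ 2 := by ring
      _ = A * N * (‖Gammaℝ (1 - s)‖ * ‖Gammaℝ s‖⁻¹) ^ 2 := by rw [h6]
      _ ≤ A * N * ‖s‖ ^ 2 := mul_le_mul_of_nonneg_left h9 (by positivity)
  -- the strip
  obtain ⟨C1, hC1⟩ := hb
  obtain ⟨C2, hC2, hC2'⟩ := B9_inv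
  have hstrip : ∀ s : ℂ, -(1 / 2) ≤ s.re → s.re ≤ 3 / 2 →
      ‖L s‖ ≤ (|C1| * N * C2 ^ 2) * Real.exp (4 * |s.im|) := by
    intro s h1 h2
    rw [hΛL s, norm_mul, norm_mul, hNn, norm_pow]
    have e1 : ‖Λ s‖ ≤ |C1| := (hC1 s h1 h2).trans (le_abs_self _)
    have e2 : (N:ℝ) ^ (-(s / 2)).re ≤ N := by
      have : (-(s / 2)).re = -(s.re / 2) := by simp
      rw [this]
      calc (N:ℝ) ^ (-(s.re / 2)) ≤ (N:ℝ) ^ (1:ℝ) :=
            Real.rpow_le_rpow_of_exponent_le hN1 (by linarith)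
        _ = N := Real.rpow_one _
    have e3 : ‖(Gammaℝ s)⁻¹‖ ^ 2 ≤ (C2 * Real.exp (2 * |s.im|)) ^ 2 :=
      pow_le_pow_left₀ (norm_nonneg _) (hC2' s h1 h2) 2
    have e4 : (C2 * Real.exp (2 * |s.im|)) ^ 2 = C2 ^ 2 * Real.exp (4 * |s.im|) := by
      rw [mul_pow, ← Real.exp_nat_mul]
      congr 2
      push_cast
      ring
    rw [e4] at e3
    calc ‖Λ s‖ * (N:ℝ) ^ (-(s / 2)).re * ‖(Gammaℝ s)⁻¹‖ ^ 2
        ≤ |C1| * N * (C2 ^ 2 * Real.exp (4 * |s.im|)) := by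
          refine mul_le_mul (mul_le_mul e1 e2 (Real.rpow_nonneg hN0.le _) (abs_nonneg _)) e3
            (by positivity) (by positivity)
      _ = _ := by ring
  -- Phragmen-Lindelof
  have hne : ∀ s : ℂ, -(1 / 2) ≤ s.re → s + 1 ≠ 0 := by
    intro s h h0
    have := congrArg Complex.re h0
    simp at this
    linarith
  have hlow : ∀ s : ℂ, -(1 / 2) ≤ s.re → 1 / 2 ≤ ‖s + 1‖ := by
    intro s h
    have h1 : (s + 1).re = s.re + 1 := by simp
    have h2 := Complex.re_le_norm (s + 1)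
    rw [h1] at h2
    linarith
  have hPL : ∀ s : ℂ, -(1 / 2) ≤ s.re → s.re ≤ 3 / 2 → ‖L s / (s + 1) ^ 2‖ ≤ A * N := by
    intro s h1 h2
    refine PhragmenLindelof.vertical_strip (a := -(1 / 2)) (b := 3 / 2)
      (f := fun s => L s / (s + 1) ^ 2) ?_ ?_ ?_ ?_ h1 h2
    · have hd : DifferentiableOn ℂ (fun s => L s / (s + 1) ^ 2) {s : ℂ | -1 < s.re} := by
        intro z hz
        refine (DifferentiableAt.div (hL z) (by fun_prop) ?_).differentiableWithinAt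
        have hz' : -1 < z.re := hz
        refine pow_ne_zero 2 ?_
        intro h0
        have := congrArg Complex.re h0
        simp at this
        linarith
      have hsub : closure (re ⁻¹' Ioo (-(1 / 2) : ℝ) (3 / 2)) ⊆ {s : ℂ | -1 < s.re} := by
        have hcl : IsClosed (re ⁻¹' Icc (-(1 / 2) : ℝ) (3 / 2)) :=
          isClosed_Icc.preimage Complex.continuous_re
        have h3 : closure (re ⁻¹' Ioo (-(1 / 2) : ℝ) (3 / 2)) ⊆ re ⁻¹' Icc (-(1 / 2) : ℝ) (3 / 2) :=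
          closure_minimal (preimage_mono Ioo_subset_Icc_self) hcl
        intro z hz
        have h4 := (h3 hz).1
        show -1 < z.re
        have : -(1 / 2) ≤ z.re := h4
        linarith
      exact (hd.mono hsub).diffContOnCl
    · refine ⟨1, ?_, 4, ?_⟩
      · rw [lt_div_iff₀ (by norm_num)]
        linarith [Real.pi_gt_three]
      · refine Asymptotics.IsBigO.of_bound (4 * (|C1| * N * C2 ^ 2)) ?_
        refine eventually_inf_principal.2 (Eventually.of_forall fun z hz => ?_)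
        have hz1 : -(1 / 2) < z.re := hz.1
        have hz2 : z.re < 3 / 2 := hz.2
        have k1 := hstrip z hz1.le hz2.le
        have k2 := hlow z hz1.le
        have k3 : (1 / 4 : ℝ) ≤ ‖z + 1‖ ^ 2 := by nlinarith
        rw [norm_div, norm_pow, Real.norm_eq_abs, abs_of_pos (Real.exp_pos _),
          div_le_iff₀ (by positivity)]
        have k4 : Real.exp (4 * |z.im|) ≤ Real.exp (4 * Real.exp (1 * |z.im|)) := by
          refine Real.exp_le_exp.2 ?_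
          have := Real.add_one_le_exp (1 * |z.im|)
          linarith
        have k5 : 0 ≤ |C1| * N * C2 ^ 2 := by positivity
        calc ‖L z‖ ≤ (|C1| * N * C2 ^ 2) * Real.exp (4 * |z.im|) := k1
          _ ≤ (|C1| * N * C2 ^ 2) * Real.exp (4 * Real.exp (1 * |z.im|)) :=
              mul_le_mul_of_nonneg_left k4 k5
          _ = (4 * (|C1| * N * C2 ^ 2) * Real.exp (4 * Real.exp (1 * |z.im|))) * (1 / 4) := by ring
          _ ≤ (4 * (|C1| * N * C2 ^ 2) * Real.exp (4 * Real.exp (1 * |z.im|))) * ‖z + 1‖ ^ 2 :=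
              mul_le_mul_of_nonneg_left k3 (by positivity)
    · intro z hz
      have hz0 := hne z hz.ge
      have k1 := hleft z hz
      have k2 : ‖z + 1‖ ^ 2 = ‖z‖ ^ 2 := by
        rw [Complex.sq_norm, Complex.sq_norm, Complex.normSq_apply, Complex.normSq_apply]
        simp [hz]
        ring
      show ‖L z / (z + 1) ^ 2‖ ≤ A * N
      rw [norm_div, norm_pow, div_le_iff₀ (pow_pos (norm_pos_iff.2 hz0) 2), k2]
      exact k1
    · intro z hz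
      have hz0 := hne z (by rw [hz]; norm_num)
      have k1 := hser z hz.ge
      have k2 : 1 ≤ ‖z + 1‖ := by
        have h1 : (z + 1).re = z.re + 1 := by simp
        have h2 := Complex.re_le_norm (z + 1)
        rw [h1, hz] at h2
        linarith
      have k3 : 1 ≤ ‖z + 1‖ ^ 2 := one_le_pow₀ k2
      show ‖L z / (z + 1) ^ 2‖ ≤ A * N
      rw [norm_div, norm_pow, div_le_iff₀ (pow_pos (norm_pos_iff.2 hz0) 2)]
      calc ‖L z‖ ≤ A * 1 * 1 := by linarith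
        _ ≤ A * N * ‖z + 1‖ ^ 2 := by gcongr
  refine ⟨A * N * 9 + 1, by positivity, fun s h => ?_⟩
  have ht : 0 ≤ |s.im| := abs_nonneg _
  have ht2 : 1 ≤ (1 + |s.im|) ^ 2 := one_le_pow₀ (by linarith)
  rcases le_total s.re (3 / 2) with h2 | h2
  · have k1 := hPL s (by linarith) h2
    have hz0 := hne s (by linarith)
    rw [norm_div, norm_pow, div_le_iff₀ (pow_pos (norm_pos_iff.2 hz0) 2)] at k1
    have k2 : ‖s + 1‖ ≤ 3 * (1 + |s.im|) := by
      have h3 := Complex.norm_le_abs_re_add_abs_im (s + 1)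
      have h4 : (s + 1).re = s.re + 1 := by simp
      have h5 : (s + 1).im = s.im := by simp
      rw [h4, h5, abs_of_pos (by linarith)] at h3
      linarith
    have k3 : ‖s + 1‖ ^ 2 ≤ (3 * (1 + |s.im|)) ^ 2 := pow_le_pow_left₀ (norm_nonneg _) k2 2
    calc ‖L s‖ ≤ A * N * ‖s + 1‖ ^ 2 := k1
      _ ≤ A * N * (3 * (1 + |s.im|)) ^ 2 := mul_le_mul_of_nonneg_left k3 (by positivity)
      _ ≤ (A * N * 9 + 1) * (1 + |s.im|) ^ 2 := by nlinarith [sq_nonneg (1 + |s.im|)]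
  · have k1 := hser s h2
    calc ‖L s‖ ≤ A * 1 * 1 := by linarith
      _ ≤ A * N * (1 + |s.im|) ^ 2 := by gcongr
      _ ≤ (A * N * 9 + 1) * (1 + |s.im|) ^ 2 := by
          refine mul_le_mul_of_nonneg_right ?_ (by positivity)
          have : 0 ≤ A * N := by positivity
          linarith

end NR
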