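import Pool.Agent.Lib.MP_0f5a55_nt.NR.A6
import Pool.Agent.Lib.MP_0f5a55_nt.NR.A9
import Pool.Agent.Lib.MP_0f5a55_nt.NR.A11
import Pool.Agent.Lib.MP_0f5a55_nt.NR.A0b
import Pool.Agent.Lib.MP_0f5a55_nt.NR.B7
import Pool.Agent.Lib.MP_0f5a55_nt.NR.B8
import Pool.Agent.Lib.MP_0f5a55_nt.NR.B9
import Pool.Agent.Lib.MP_0f5a55_nt.NR.B10

open Complex MeasureTheory Set Filter Topology
open scoped Real ComplexConjugate NumberField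

namespace NR

open HC

variable {K : Type*} [Field K] [NumberField K]

/-- Row A17. The L-function. Proof. B7.fe_GB with c = conj ψ, w = wu (≠ 0: A4.wu_pos), ha from A5.rcount_cop, A6.rcount_ncop and RC.ac_ncop, A9.R_eq;
Σ conj ψ(a) = 0 by A11.cancel_one (ψ I² ≠ 1 implies ψ I ≠ 1). Then B8.exists_Lam (real coefficients: RC.ac_real; bound: RC.pre), B9.growth, B10.ph_of. -/
theorem lfun_ac (h2 : Module.finrank ℚ K = 2) {σ₁ σ₂ : K →+* ℝ} (hσ : RE σ₁ σ₂) {f : ℕ} {η : (𝓞 K)ˣ} {l : ℝ}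
    (hη : UE σ₁ σ₂ f η l) {ψ : Ideal (𝓞 K) →*₀ ℂ} (h : RingClass f ψ) (hψ : ∃ I, Cop f I ∧ ψ I ^ 2 ≠ 1)
    {T : Finset (Ideal (𝓞 K))} {F : Ideal (𝓞 K) → Fm} {P : Ideal (𝓞 K) → Pr}
    {τ : Ideal (𝓞 K) → ((ℤ × ℤ) ≃ (ℤ × ℤ))} (hT : RForms σ₁ σ₂ f l T F P τ) :
    ∃ L : ℂ → ℂ, Differentiable ℂ L ∧
      (∀ s : ℂ, 1 < s.re → HasSum (fun n : ℕ => ac ψ (n + 1) * ((n : ℂ) + 1) ^ (-s)) (L s)) ∧
      (∃ C : ℝ, 0 < C ∧ ∀ s : ℂ, 1 / 2 ≤ s.re → ‖L s‖ ≤ C * (1 + |s.im|) ^ 2) ∧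
      ∃ (u : ℂ) (v W : ℝ → ℂ) (C : ℝ), Ph (lev K f) L u v W C := by
  have hRC : RC f ψ := RC.of h
  have hN : 0 < lev K f := by
    unfold lev
    exact Nat.mul_pos (Int.natAbs_pos.2 (NumberField.discr_ne_zero K)) (pow_pos h.pos 2)
  have hok : ∀ a ∈ T, (P a).Ok (lev K f) l (F a) (τ a) := by
    intro a ha
    obtain ⟨v₁, v₂, h'⟩ := hT.2 a ha
    exact h'.ok
  have hR : ∀ a ∈ T, ∀ n : ℕ, (P a).R l (F a) n = (XX σ₁ σ₂ f l a n).ncard := by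
    intro a ha n
    obtain ⟨v₁, v₂, h'⟩ := hT.2 a ha
    exact R_eq hσ (hT.1.1 a ha) h' n
  have hsum : ∑ a ∈ T, conj (ψ a) = 0 := by
    obtain ⟨I, hI, hI2⟩ := hψ
    refine cancel_one h2 hRC ⟨I, hI, fun h1 => hI2 ?_⟩ hT.1
    rw [h1, one_pow]
  have hw : ((wu K σ₁ σ₂ f l : ℕ) : ℂ) ≠ 0 := by
    exact_mod_cast (wu_pos h2 hσ hη).2.ne'
  have ha : ∀ n : ℕ, 0 < n → ((wu K σ₁ σ₂ f l : ℕ) : ℂ) * ac ψ n =
      ∑ a ∈ T, conj (ψ a) * (((P a).R l (F a) n : ℕ) : ℂ) := by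
    intro n hn
    have e : ∑ a ∈ T, conj (ψ a) * (((P a).R l (F a) n : ℕ) : ℂ) =
        ∑ a ∈ T, conj (ψ a) * ((XX σ₁ σ₂ f l a n).ncard : ℂ) :=
      Finset.sum_congr rfl fun a haT => by rw [hR a haT n]
    rw [e]
    by_cases hc : n.Coprime f
    · exact rcount_cop h2 hσ hη hRC hT.1 hn hc
    · rw [RC.ac_ncop h2 hRC hn hc, mul_zero, rcount_ncop h2 hσ hη h hT.1 hn hc]
  have hfe : ∀ t : ℝ, 0 < t → GB (lev K f) (ac ψ) (1 / t) = t * GB (lev K f) (ac ψ) t :=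
    fun t ht => fe_GB hok hsum hw ha ht
  have hbd := (RC.pre h2 hRC).bd
  obtain ⟨Λ, L, -, hLd, hfe', hc, hΛL, hb, hs⟩ :=
    exists_Lam hN hbd (fun n hn => RC.ac_real h2 hRC hn) hfe
  exact ⟨L, hLd, hs, growth hN hbd hLd hfe' hΛL hb hs, ph_of hN hfe' hc hΛL⟩

end NR
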