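import Pool.Agent.Lib.MP_0f5a55_nt.NR.QD
import Pool.Agent.Lib.MP_0f5a55_nt.HC.H14
import Pool.Agent.Lib.MP_0f5a55_nt.HC.H15
import Pool.Agent.Lib.MP_0f5a55_nt.HC.H16

open Complex MeasureTheory Set Filter Topology
open scoped Real ComplexConjugate NumberField

namespace NR

open HC

variable {K : Type*} [Field K] [NumberField K]

/-- Row A7. Models HC/H14.lean (disc_form) and HC/H16.lean (exists_form), without the positivity. -/
theorem disc_form' (h2 : Module.finrank ℚ K = 2) {m : ℕ} (hm : 0 < m)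
    {L : AddSubgroup (𝓞 K)} (hL : L.index = m) :
    ∃ (v₁ v₂ : 𝓞 K) (F : Fm), (∀ α : 𝓞 K, α ∈ L ↔ ∃ x y : ℤ, α = x * v₁ + y * v₂) ∧
      (∀ x y : ℤ, Algebra.norm ℤ ((x : 𝓞 K) * v₁ + y * v₂) = F.val (x, y)) ∧
      F.B ^ 2 - 4 * F.A * F.C = NumberField.discr K * m ^ 2 := by
  classical
  have hr : Module.finrank ℤ (𝓞 K) = 2 := by rw [NumberField.RingOfIntegers.rank, h2]
  let e : Module.Basis (Fin 2) ℤ (𝓞 K) := Module.finBasisOfFinrankEq ℤ (𝓞 K) hr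
  obtain ⟨n, snf⟩ := Submodule.smithNormalForm e (AddSubgroup.toIntSubmodule L)
  have hn : n = 2 := by
    have h3 := (snf.toAddSubgroup_index_ne_zero_iff).1 (by
      rw [AddSubgroup.toIntSubmodule_toAddSubgroup, hL]
      exact hm.ne')
    simpa using h3
  subst hn
  obtain ⟨bL, hbL⟩ : ∃ b : Module.Basis (Fin 2) ℤ (AddSubgroup.toIntSubmodule L), b = snf.bN :=
    ⟨_, rfl⟩
  obtain ⟨v₁, hv1⟩ : ∃ v : 𝓞 K, v = (bL 0 : 𝓞 K) := ⟨_, rfl⟩
  obtain ⟨v₂, hv2⟩ : ∃ v : 𝓞 K, v = (bL 1 : 𝓞 K) := ⟨_, rfl⟩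
  have hdet : (e.det (fun i => (bL i : 𝓞 K))).natAbs = m := by
    rw [← hL]
    exact Submodule.natAbs_det_basis_change e (AddSubgroup.toIntSubmodule L) bL
  -- membership
  have hmem : ∀ α : 𝓞 K, α ∈ L ↔ ∃ x y : ℤ, α = x * v₁ + y * v₂ := by
    intro α
    constructor
    · intro hα
      have h3 := bL.sum_repr ⟨α, hα⟩
      rw [Fin.sum_univ_two] at h3
      refine ⟨bL.repr ⟨α, hα⟩ 0, bL.repr ⟨α, hα⟩ 1, ?_⟩
      have h4 := congrArg (fun z : AddSubgroup.toIntSubmodule L => (z : 𝓞 K)) h3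
      simp only [Submodule.coe_add, Submodule.coe_smul] at h4
      rw [hv1, hv2, ← zsmul_eq_mul, ← zsmul_eq_mul]
      exact h4.symm
    · rintro ⟨x, y, rfl⟩
      have h5 : v₁ ∈ L := by
        rw [hv1]
        exact (bL 0).2
      have h6 : v₂ ∈ L := by
        rw [hv2]
        exact (bL 1).2
      rw [← zsmul_eq_mul, ← zsmul_eq_mul]
      exact L.add_mem (L.zsmul_mem h5 x) (L.zsmul_mem h6 y)
  -- norms
  obtain ⟨M, hM⟩ : ∃ M, M = Algebra.leftMulMatrix e v₁ := ⟨_, rfl⟩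
  obtain ⟨N, hN⟩ : ∃ N, N = Algebra.leftMulMatrix e v₂ := ⟨_, rfl⟩
  have hMN : M * N = N * M := by
    rw [hM, hN, ← map_mul, ← map_mul, mul_comm]
  obtain ⟨F, hF⟩ : ∃ F : Fm, F = ⟨M.det, (M + N).det - M.det - N.det, N.det⟩ := ⟨_, rfl⟩
  have hnorm : ∀ x y : ℤ, Algebra.norm ℤ ((x : 𝓞 K) * v₁ + y * v₂) = F.val (x, y) := by
    intro x y
    rw [Algebra.norm_eq_matrix_det e, ← zsmul_eq_mul, ← zsmul_eq_mul, map_add, map_zsmul,
      map_zsmul, ← hM, ← hN, hF]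
    simp only [Fm.val, Matrix.det_fin_two, Matrix.add_apply, Matrix.smul_apply, smul_eq_mul]
    ring
  -- discriminant
  have hdisc : Algebra.discr ℤ (fun i => (bL i : 𝓞 K)) =
      (e.det (fun i => (bL i : 𝓞 K))) ^ 2 * NumberField.discr K := by
    rw [← NumberField.discr_eq_discr K e, Module.Basis.det_apply, ← Algebra.discr_of_matrix_vecMul,
      Module.Basis.toMatrix_map_vecMul]
  have htr : ∀ a b : 𝓞 K, Algebra.trace ℤ (𝓞 K) (a * b) =
      (Algebra.leftMulMatrix e a * Algebra.leftMulMatrix e b).trace := by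
    intro a b
    rw [Algebra.trace_eq_matrix_trace e, map_mul]
  have hdisc2 : Algebra.discr ℤ (fun i => (bL i : 𝓞 K)) =
      (M * M).trace * (N * N).trace - (M * N).trace * (N * M).trace := by
    rw [Algebra.discr_def, Matrix.det_fin_two]
    simp only [Algebra.traceMatrix_apply, Algebra.traceForm_apply]
    rw [htr, htr, htr, htr, ← hv1, ← hv2, ← hM, ← hN]
  have hsq : (e.det (fun i => (bL i : 𝓞 K))) ^ 2 = (m : ℤ) ^ 2 := by
    rw [← hdet, Int.natAbs_sq]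
  refine ⟨v₁, v₂, F, hmem, hnorm, ?_⟩
  have h11 := H14_comm M N hMN
  rw [← hdisc2, hdisc, hsq] at h11
  rw [hF]
  simp only
  linear_combination h11

theorem exists_form' (h2 : Module.finrank ℚ K = 2) {f : ℕ} (hf : 0 < f) {a : Ideal (𝓞 K)} (ha : Cop f a) :
    ∃ (v₁ v₂ : 𝓞 K) (F : Fm), (∀ α : 𝓞 K, α ∈ lat f a ↔ ∃ x y : ℤ, α = x * v₁ + y * v₂) ∧
      (∀ x y : ℤ, Algebra.norm ℤ ((x : 𝓞 K) * v₁ + y * v₂) = (Ideal.absNorm a : ℤ) * F.val (x, y)) ∧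
      F.B ^ 2 - 4 * F.A * F.C = NumberField.discr K * f ^ 2 := by
  have hN0 : Ideal.absNorm a ≠ 0 := by
    intro h
    exact ha.1 (Ideal.absNorm_eq_zero_iff.1 h)
  have hN : 0 < Ideal.absNorm a := Nat.pos_of_ne_zero hN0
  have hm : 0 < Ideal.absNorm a * f := Nat.mul_pos hN hf
  obtain ⟨v₁, v₂, F', hL, hval, hdisc⟩ := disc_form' h2 hm (index_lat h2 hf ha)
  have hmem : ∀ x y : ℤ, ((x : 𝓞 K) * v₁ + y * v₂) ∈ a := by
    intro x y
    have h := (hL ((x : 𝓞 K) * v₁ + y * v₂)).2 ⟨x, y, rfl⟩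
    exact h.1
  have hd : ∀ x y : ℤ, (Ideal.absNorm a : ℤ) ∣ F'.val (x, y) := by
    intro x y
    rw [← hval x y]
    exact H16_dvd (hmem x y)
  have hA : (Ideal.absNorm a : ℤ) ∣ F'.A := by
    have h := hd 1 0
    simpa [Fm.val] using h
  have hC : (Ideal.absNorm a : ℤ) ∣ F'.C := by
    have h := hd 0 1
    simpa [Fm.val] using h
  have hB : (Ideal.absNorm a : ℤ) ∣ F'.B := by
    have h := hd 1 1
    have h' : (Ideal.absNorm a : ℤ) ∣ F'.A + F'.B + F'.C := by simpa [Fm.val] using h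
    have h3 := dvd_sub (dvd_sub h' hA) hC
    have h4 : F'.A + F'.B + F'.C - F'.A - F'.C = F'.B := by ring
    rwa [h4] at h3
  obtain ⟨A, hA⟩ := hA
  obtain ⟨B, hB⟩ := hB
  obtain ⟨C, hC⟩ := hC
  have hNz : (0 : ℤ) < (Ideal.absNorm a : ℤ) := by exact_mod_cast hN
  refine ⟨v₁, v₂, ⟨A, B, C⟩, hL, ?_, ?_⟩
  · intro x y
    rw [hval x y]
    simp only [Fm.val]
    rw [hA, hB, hC]
    ring
  · show B ^ 2 - 4 * A * C = NumberField.discr K * f ^ 2
    rw [hA, hB, hC] at hdisc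
    have hne : ((Ideal.absNorm a : ℤ)) ^ 2 ≠ 0 := pow_ne_zero 2 hNz.ne'
    apply mul_left_cancel₀ hne
    push_cast at hdisc ⊢
    linear_combination hdisc

end NR
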