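import Pool.Agent.Lib.MP_0f5a55_nt.NR.A1
import Pool.Agent.Lib.MP_0f5a55_nt.NR.A7

open Complex MeasureTheory Set Filter Topology
open scoped Real ComplexConjugate NumberField

namespace NR

open HC

variable {K : Type*} [Field K] [NumberField K]

omit [NumberField K] in
/-- multiplication by an element congruent to one modulo `f` -/
theorem A8_lat {f : ℕ} {a : Ideal (𝓞 K)} {u α : 𝓞 K} (hu : (f : 𝓞 K) ∣ u - 1) (h : α ∈ lat f a) :
    u * α ∈ lat f a := by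
  obtain ⟨h1, m, h2⟩ := h
  refine ⟨a.mul_mem_left u h1, m, ?_⟩
  have e : u * α - (m : 𝓞 K) = u * (α - m) + (u - 1) * m := by ring
  rw [e]
  exact dvd_add (h2.mul_left u) (hu.mul_right _)

/-- Row A8. The real data. P from the conjugates of v₁, v₂ divided by √(N a); l1 l2 = norm/N a = F.val. det² = (p1 q2 + p2 q1)² - 4 p1 p2 q1 q2 =
B² - 4AC (compare coefficients of l1 l2 = F at (1,0),(0,1),(1,1)) = discr f² = lev (discr > 0: A1.discr_pos). F.val v = 0 gives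
norm = 0, x v₁ + y v₂ = 0, and v = 0 since det ≠ 0. τ: multiplication by η maps lat f a onto itself (η ≡ 1 mod f so Ord f η and
Ord f η⁻¹; η a = a). -/
theorem exists_RForm [NumberField.IsTotallyReal K] (h2 : Module.finrank ℚ K = 2) {σ₁ σ₂ : K →+* ℝ} (hσ : RE σ₁ σ₂)
    {f : ℕ} (hf : 0 < f) {η : (𝓞 K)ˣ} {l : ℝ} (hη : UE σ₁ σ₂ f η l) {a : Ideal (𝓞 K)} (ha : Cop f a) :
    ∃ (F : Fm) (P : Pr) (τ : (ℤ × ℤ) ≃ (ℤ × ℤ)) (v₁ v₂ : 𝓞 K), RForm σ₁ σ₂ f l a F P τ v₁ v₂ := by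
  obtain ⟨v₁, v₂, F, hlat, hnorm, hdisc⟩ := exists_form' h2 hf ha
  obtain ⟨hD, -⟩ := discr_pos (K := K) h2
  have hn0 : Ideal.absNorm a ≠ 0 := by
    rw [Ne, Ideal.absNorm_eq_zero_iff]
    exact ha.1
  have hnR : (0 : ℝ) < (Ideal.absNorm a : ℝ) := by exact_mod_cast Nat.pos_of_ne_zero hn0
  set s : ℝ := √(Ideal.absNorm a : ℝ) with hs
  have hs0 : 0 < s := Real.sqrt_pos.2 hnR
  have hss : s * s = (Ideal.absNorm a : ℝ) := Real.mul_self_sqrt hnR.le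
  set P : Pr := ⟨σ₁ (v₁ : K) / s, σ₁ (v₂ : K) / s, σ₂ (v₁ : K) / s, σ₂ (v₂ : K) / s⟩ with hP
  set al : ℤ × ℤ → 𝓞 K := fun v => (v.1 : 𝓞 K) * v₁ + (v.2 : 𝓞 K) * v₂ with hal
  have hσ1 : ∀ v, σ₁ ((al v : 𝓞 K) : K) = v.1 * σ₁ (v₁ : K) + v.2 * σ₁ (v₂ : K) := by
    intro v
    rw [hal]
    simp
  have hσ2 : ∀ v, σ₂ ((al v : 𝓞 K) : K) = v.1 * σ₂ (v₁ : K) + v.2 * σ₂ (v₂ : K) := by
    intro v
    rw [hal]
    simp
  have hl1 : ∀ v, P.l1 v = σ₁ ((al v : 𝓞 K) : K) / s := by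
    intro v
    rw [hσ1, Pr.l1, hP]
    ring
  have hl2 : ∀ v, P.l2 v = σ₂ ((al v : 𝓞 K) : K) / s := by
    intro v
    rw [hσ2, Pr.l2, hP]
    ring
  have hval : ∀ v, P.l1 v * P.l2 v = (F.val v : ℝ) := by
    intro v
    have h1 := hσ.norm (al v)
    have h3 : Algebra.norm ℤ (al v) = (Ideal.absNorm a : ℤ) * F.val v := hnorm v.1 v.2
    rw [h3] at h1
    push_cast at h1
    rw [hl1, hl2, div_mul_div_comm, hss, ← h1]
    field_simp
  have hdet : (P.p1 * P.q2 - P.p2 * P.q1) ^ 2 = ((F.B ^ 2 - 4 * F.A * F.C : ℤ) : ℝ) := by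
    have e1 := hval (1, 0)
    have e2 := hval (0, 1)
    have e3 := hval (1, 1)
    simp only [Pr.l1, Pr.l2, Fm.val] at e1 e2 e3
    push_cast at e1 e2 e3 ⊢
    have f1 : P.p1 * P.p2 = F.A := by linarith [e1]
    have f2 : P.q1 * P.q2 = F.C := by linarith [e2]
    have f3 : P.p1 * P.q2 + P.p2 * P.q1 = F.B := by linarith [e3, f1, f2]
    rw [← f1, ← f2, ← f3]
    ring
  have hlev : ((F.B ^ 2 - 4 * F.A * F.C : ℤ) : ℝ) = (lev K f : ℕ) := by
    rw [hdisc, lev]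
    have h4 : (((NumberField.discr K).natAbs : ℕ) : ℝ) = ((NumberField.discr K : ℤ) : ℝ) := by
      rw [Nat.cast_natAbs, abs_of_pos hD]
    rw [Nat.cast_mul, h4]
    push_cast
    ring
  have hlev0 : 0 < lev K f := by
    rw [lev]
    have : 0 < (NumberField.discr K).natAbs := Int.natAbs_pos.2 hD.ne'
    positivity
  have hdet0 : P.p1 * P.q2 - P.p2 * P.q1 ≠ 0 := by
    intro h
    rw [h, hlev] at hdet
    have : ((lev K f : ℕ) : ℝ) ≠ 0 := by exact_mod_cast hlev0.ne'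
    apply this
    rw [← hdet]
    norm_num
  have hzero : ∀ v, P.l1 v = 0 → P.l2 v = 0 → v = 0 := by
    intro v h1 h3
    simp only [Pr.l1] at h1
    simp only [Pr.l2] at h3
    have e1 : (P.p1 * P.q2 - P.p2 * P.q1) * (v.1 : ℝ) = 0 := by
      linear_combination P.q2 * h1 - P.q1 * h3
    have e2 : (P.p1 * P.q2 - P.p2 * P.q1) * (v.2 : ℝ) = 0 := by
      linear_combination P.p1 * h3 - P.p2 * h1
    have f1 := (mul_eq_zero.1 e1).resolve_left hdet0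
    have f2 := (mul_eq_zero.1 e2).resolve_left hdet0
    refine Prod.ext ?_ ?_
    · exact_mod_cast f1
    · exact_mod_cast f2
  have hne : ∀ v, F.val v = 0 → v = 0 := by
    intro v hv
    have h3 : Algebra.norm ℤ (al v) = (Ideal.absNorm a : ℤ) * F.val v := hnorm v.1 v.2
    rw [hv, mul_zero, Algebra.norm_eq_zero_iff] at h3
    refine hzero v ?_ ?_
    · rw [hl1, h3]; simp
    · rw [hl2, h3]; simp
  have hinj : Function.Injective al := by
    intro v w h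
    have e : al (v - w) = 0 := by
      have : al (v - w) = al v - al w := by
        simp only [hal, Prod.fst_sub, Prod.snd_sub, Int.cast_sub]
        ring
      rw [this, h, sub_self]
    have h3 : v - w = 0 := by
      refine hzero _ ?_ ?_
      · rw [hl1, e]; simp
      · rw [hl2, e]; simp
    exact sub_eq_zero.1 h3
  have hmem : ∀ v, al v ∈ lat f a := fun v => (hlat _).2 ⟨v.1, v.2, rfl⟩
  have hinv1 : (f : 𝓞 K) ∣ ((η⁻¹ : (𝓞 K)ˣ) : 𝓞 K) - 1 := by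
    have e : ((η⁻¹ : (𝓞 K)ˣ) : 𝓞 K) - 1 = -((η⁻¹ : (𝓞 K)ˣ) : 𝓞 K) * ((η : 𝓞 K) - 1) := by
      have h3 : ((η⁻¹ : (𝓞 K)ˣ) : 𝓞 K) * (η : 𝓞 K) = 1 := Units.inv_mul η
      linear_combination h3
    rw [e]
    exact hη.one.mul_left _
  have ht : ∀ v, ∃ w, al w = (η : 𝓞 K) * al v := by
    intro v
    obtain ⟨x, y, h3⟩ := (hlat _).1 (A8_lat hη.one (hmem v))
    exact ⟨(x, y), h3.symm⟩
  have ht' : ∀ v, ∃ w, al w = ((η⁻¹ : (𝓞 K)ˣ) : 𝓞 K) * al v := by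
    intro v
    obtain ⟨x, y, h3⟩ := (hlat _).1 (A8_lat hinv1 (hmem v))
    exact ⟨(x, y), h3.symm⟩
  choose t ht using ht
  choose t' ht' using ht'
  set τ : (ℤ × ℤ) ≃ (ℤ × ℤ) :=
    { toFun := t
      invFun := t'
      left_inv := by
        intro v
        apply hinj
        rw [ht', ht, ← mul_assoc, Units.inv_mul, one_mul]
      right_inv := by
        intro v
        apply hinj
        rw [ht, ht', ← mul_assoc, Units.mul_inv, one_mul] } with hτ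
  have hτa : ∀ v, al (τ v) = (η : 𝓞 K) * al v := ht
  refine ⟨F, P, τ, v₁, v₂, ⟨hlat, hnorm, rfl, rfl, rfl, rfl, ?_⟩⟩
  refine ⟨hlev0, hη.l0, hval, hdet.trans hlev, hne, ?_, ?_⟩
  · intro v
    rw [hl1, hl1, hτa]
    have e : (((η : 𝓞 K) * al v : 𝓞 K) : K) = ((η : 𝓞 K) : K) * ((al v : 𝓞 K) : K) := rfl
    rw [e, map_mul, hη.e1, mul_div_assoc]
  · intro v
    rw [hl2, hl2, hτa]
    have e : (((η : 𝓞 K) * al v : 𝓞 K) : K) = ((η : 𝓞 K) : K) * ((al v : 𝓞 K) : K) := rfl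
    rw [e, map_mul, hη.e2, mul_div_assoc]

end NR
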