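import Pool.Agent.Lib.MP_0f5a55_nt.NR.P10

open Complex MeasureTheory Set Filter Topology
open scoped Real ComplexConjugate

namespace NR

open NH

theorem E12_abel (b : ℕ → ℝ) (r : ℝ) (N : ℕ) :
    ∑ i ∈ Finset.range N, b i * r ^ (i + 1) =
      (∑ i ∈ Finset.range N, b i) * r ^ N +
        (1 - r) * ∑ n ∈ Finset.range N, (∑ i ∈ Finset.range n, b i) * r ^ n := by
  induction N with
  | zero => simp
  | succ N ih =>
    rw [Finset.sum_range_succ, ih, Finset.sum_range_succ _ N, Finset.sum_range_succ (fun n =>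
      (∑ i ∈ Finset.range n, b i) * r ^ n) N]
    ring

theorem E12_comp {b : ℕ → ℝ} {K r : ℝ} (hr0 : 0 ≤ r) (hr1 : r < 1) (hK : 0 ≤ K)
    (h : ∀ n : ℕ, ∑ i ∈ Finset.range n, b i ≤ K * n) (N : ℕ) :
    ∑ i ∈ Finset.range N, b i * r ^ (i + 1) ≤ K * (r / (1 - r)) := by
  have h1 : ∑ i ∈ Finset.range N, b i * r ^ (i + 1) ≤ ∑ i ∈ Finset.range N, K * r ^ (i + 1) := by
    rw [E12_abel b r N, E12_abel (fun _ => K) r N]
    have h2 : ∀ n : ℕ, ∑ i ∈ Finset.range n, (fun _ : ℕ => K) i = K * n := by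
      intro n
      simp [mul_comm]
    apply add_le_add
    · rw [h2 N]
      exact mul_le_mul_of_nonneg_right (h N) (by positivity)
    · apply mul_le_mul_of_nonneg_left _ (by linarith)
      apply Finset.sum_le_sum
      intro n _
      rw [h2 n]
      exact mul_le_mul_of_nonneg_right (h n) (by positivity)
  refine h1.trans ?_
  rw [← Finset.mul_sum]
  apply mul_le_mul_of_nonneg_left _ hK
  have h3 : ∀ i ∈ Finset.range N, r ^ (i + 1) = r * r ^ i := fun i _ => pow_succ' r i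
  rw [Finset.sum_congr rfl h3, ← Finset.mul_sum, div_eq_mul_inv]
  apply mul_le_mul_of_nonneg_left _ hr0
  have h4 := (summable_geometric_of_lt_one hr0 hr1).sum_le_tsum (Finset.range N)
    (fun i _ => by positivity)
  rwa [tsum_geometric_of_lt_one hr0 hr1] at h4

theorem E12_lin {a : ℕ → ℂ} (D : Pre a)
    (h : ∃ C : ℝ, ∀ δ : ℝ, 0 < δ → δ ≤ 1 → Sp a δ ≤ Real.log (1 / δ) + C) :
    ∃ K : ℝ, 0 ≤ K ∧ ∀ n : ℕ, ∑ i ∈ Finset.range n, ‖a (i + 1)‖ ^ 2 ≤ K * n := by
  obtain ⟨C1, hC1⟩ := h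
  obtain ⟨C, hC, hHT⟩ := P.M10_HT D
  have hbig : ∀ n : ℕ, 3 ≤ n → ∑ i ∈ Finset.range n, ‖a (i + 1)‖ ^ 2 ≤ C * Real.exp C1 * n := by
    intro n hn
    have hn3 : (3 : ℝ) ≤ n := by exact_mod_cast hn
    have hX0 : (0 : ℝ) < n := by linarith
    have hl1 : 1 < Real.log n := by
      rw [Real.lt_log_iff_exp_lt hX0]
      have := Real.exp_one_lt_d9
      linarith
    have h1 := hHT n hn3
    rw [Nat.floor_natCast, P.M10_shift (fun n : ℕ => ‖a n‖ ^ 2) n] at h1
    refine h1.trans ?_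
    have h2 := hC1 (1 / Real.log n) (by positivity) (by rw [div_le_one (by linarith)]; linarith)
    rw [one_div_one_div] at h2
    have h3 : Real.exp (Sp a (1 / Real.log n)) ≤ Real.log n * Real.exp C1 := by
      refine (Real.exp_le_exp.mpr h2).trans ?_
      rw [Real.exp_add, Real.exp_log (by linarith)]
    calc C * ((n : ℝ) / Real.log n * Real.exp (Sp a (1 / Real.log n)))
        ≤ C * ((n : ℝ) / Real.log n * (Real.log n * Real.exp C1)) := by gcongr
      _ = C * Real.exp C1 * n := by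
        have : Real.log n ≠ 0 := by linarith
        field_simp
  refine ⟨3 * (C * Real.exp C1), by positivity, fun n => ?_⟩
  by_cases hn : 3 ≤ n
  · refine (hbig n hn).trans ?_
    have : 0 ≤ C * Real.exp C1 * n := by positivity
    linarith
  · push Not at hn
    rcases Nat.eq_zero_or_pos n with h0 | h0
    · subst h0
      simp
    · have h1 : ∑ i ∈ Finset.range n, ‖a (i + 1)‖ ^ 2 ≤ ∑ i ∈ Finset.range 3, ‖a (i + 1)‖ ^ 2 := by
        apply Finset.sum_le_sum_of_subset_of_nonneg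
        · intro i hi
          rw [Finset.mem_range] at hi ⊢
          omega
        · intro i _ _
          positivity
      have h2 := hbig 3 le_rfl
      have h3 : (1 : ℝ) ≤ n := by exact_mod_cast h0
      have h4 : 0 ≤ C * Real.exp C1 := by positivity
      push_cast at h2
      nlinarith

/-- Row E12. The mean square from the sum over the primes. -/
theorem ms_of_sp {a : ℕ → ℂ} (D : Pre a) (h : ∃ C : ℝ, ∀ δ : ℝ, 0 < δ → δ ≤ 1 → Sp a δ ≤ Real.log (1 / δ) + C) :
    ∃ C : ℝ, 0 ≤ C ∧ ∀ x : ℝ, 0 < x →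
      ∑' n : ℕ, ‖a (n + 1)‖ ^ 2 * Real.exp (-(x * ((n : ℝ) + 1))) ≤ C / x := by
  obtain ⟨K, hK, hlin⟩ := E12_lin D h
  refine ⟨K, hK, fun x hx => ?_⟩
  apply Real.tsum_le_of_sum_range_le (fun n => by positivity)
  intro N
  have h1 : ∀ n ∈ Finset.range N, ‖a (n + 1)‖ ^ 2 * Real.exp (-(x * ((n : ℝ) + 1))) =
      ‖a (n + 1)‖ ^ 2 * Real.exp (-x) ^ (n + 1) := by
    intro n _
    rw [← Real.exp_nat_mul]
    congr 2
    push_cast
    ring
  rw [Finset.sum_congr rfl h1]
  have hr1 : Real.exp (-x) < 1 := by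
    rw [Real.exp_lt_one_iff]
    linarith
  have h2 := E12_comp (b := fun n => ‖a (n + 1)‖ ^ 2) (Real.exp_pos (-x)).le hr1 hK hlin N
  refine h2.trans ?_
  rw [div_eq_mul_inv K x]
  apply mul_le_mul_of_nonneg_left _ hK
  rw [div_le_iff₀ (by linarith), inv_mul_eq_div, le_div_iff₀ hx]
  have h3 : x + 1 ≤ Real.exp x := Real.add_one_le_exp x
  have h4 : Real.exp (-x) * Real.exp x = 1 := by rw [← Real.exp_add]; simp
  have h5 := Real.exp_pos (-x)
  nlinarith

end NR
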