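import Pool.Agent.Lib.MP_0f5a55_nt.NR.A2
import Pool.Agent.Lib.MP_0f5a55_nt.NR.A8
import Pool.Agent.Lib.MP_0f5a55_nt.NR.A13
import Pool.Agent.Lib.MP_0f5a55_nt.NR.A16
import Pool.Agent.Lib.MP_0f5a55_nt.NR.A17
import Pool.Agent.Lib.MP_0f5a55_nt.NR.E12
import Pool.Agent.Lib.MP_0f5a55_nt.HC.H24

open Complex MeasureTheory Set Filter Topology
open scoped Real ComplexConjugate NumberField

namespace NR

open HC

variable {K : Type*} [Field K] [NumberField K]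

theorem A18_forms [NumberField.IsTotallyReal K] (h2 : Module.finrank ℚ K = 2) {σ₁ σ₂ : K →+* ℝ}
    (hσ : RE σ₁ σ₂) {f : ℕ} (hf : 0 < f) {η : (𝓞 K)ˣ} {l : ℝ} (hη : UE σ₁ σ₂ f η l) :
    ∃ (T : Finset (Ideal (𝓞 K))) (F : Ideal (𝓞 K) → Fm) (P : Ideal (𝓞 K) → Pr)
      (τ : Ideal (𝓞 K) → ((ℤ × ℤ) ≃ (ℤ × ℤ))), RForms σ₁ σ₂ f l T F P τ := by
  classical
  obtain ⟨T, hT⟩ := exists_reps (K := K) hf
  have hform : ∀ a : Ideal (𝓞 K), ∃ (F : Fm) (P : Pr) (τ : (ℤ × ℤ) ≃ (ℤ × ℤ)), a ∈ T →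
      ∃ v₁ v₂ : 𝓞 K, RForm σ₁ σ₂ f l a F P τ v₁ v₂ := by
    intro a
    by_cases ha : a ∈ T
    · obtain ⟨F, P, τ, v₁, v₂, h⟩ := exists_RForm h2 hσ hf hη (hT.1 a ha)
      exact ⟨F, P, τ, fun _ => ⟨v₁, v₂, h⟩⟩
    · exact ⟨⟨0, 0, 0⟩, ⟨0, 0, 0, 0⟩, Equiv.refl _, fun h => absurd h ha⟩
  choose F P τ h using hform
  exact ⟨T, F, P, τ, hT, fun a ha => h a ha⟩

/-- Row A18. The data of a ring class character of a real quadratic field. -/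
theorem dat_real [NumberField.IsTotallyReal K] (h2 : Module.finrank ℚ K = 2) {f : ℕ}
    {ψ : Ideal (𝓞 K) →*₀ ℂ} (h : RingClass f ψ) (hψ : ∃ I, Cop f I ∧ ψ I ^ 2 ≠ 1) :
    ∃ L : ℂ → ℂ, Dat (lev K f) (ac ψ) L ∧ ∀ s : ℂ, 1 < s.re → LSeriesHasSum (ac ψ) s (L s) := by
  obtain ⟨σ₁, σ₂, hσ⟩ := exists_RE (K := K) h2
  obtain ⟨η, l, hη⟩ := exists_UE h2 hσ h.pos
  obtain ⟨T, F, P, τ, hT⟩ := A18_forms h2 hσ h.pos hη
  obtain ⟨L, hL, hs, hgr, hph⟩ := lfun_ac h2 hσ hη h hψ hT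
  have hrc : RC f ψ := RC.of h
  have hpre : Pre (ac ψ) := RC.pre h2 hrc
  refine ⟨L, ⟨hpre, H24_lev h.pos, ms_of_sp hpre (sp_ac h2 hσ hη hrc hψ hT), ?_, rc_ze h2 hrc, hL,
    fun s h1 => hs s (by linarith), hgr, hph⟩, fun s h1 => H24_lser (hs s h1)⟩
  intro M hM w hw
  obtain ⟨C, hC, hb⟩ := tw_ac h2 hσ hη hrc hψ hT M hM w hw
  refine ⟨C, hC, fun x hx => (hb x hx).trans ?_⟩
  have h1 : (0 : ℝ) ≤ Real.log x := Real.log_nonneg (by exact_mod_cast hx)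
  have h3 : √(x : ℝ) ≤ √(x : ℝ) * (1 + Real.log x) :=
    le_mul_of_one_le_right (Real.sqrt_nonneg _) (by linarith)
  exact mul_le_mul_of_nonneg_left h3 hC

end NR
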