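import Pool.Agent.Lib.MP_0f5a55_nt.NR.QD

open Complex MeasureTheory Set Filter Topology
open scoped Real ComplexConjugate NumberField

namespace NR

open HC

variable {K : Type*} [Field K] [NumberField K]

/-- a unit that is not torsion -/
private theorem A2_unit [NumberField.IsTotallyReal K] (h2 : Module.finrank ℚ K = 2) :
    ∃ u : (𝓞 K)ˣ, u ∉ NumberField.Units.torsion K := by
  classical
  have hc : Fintype.card (NumberField.InfinitePlace K) = 2 := by
    rw [NumberField.InfinitePlace.card_eq_nrRealPlaces_add_nrComplexPlaces,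
      NumberField.IsTotallyReal.nrComplexPlaces_eq_zero, add_zero, ← NumberField.IsTotallyReal.finrank, h2]
  have hr : NumberField.Units.rank K = 1 := by
    rw [NumberField.Units.rank, hc]
  let i : Fin (NumberField.Units.rank K) := ⟨0, by rw [hr]; exact Nat.one_pos⟩
  refine ⟨NumberField.Units.fundSystem K i, fun hmem => ?_⟩
  have hu := NumberField.Units.exist_unique_eq_mul_prod K (NumberField.Units.fundSystem K i)
  have h := hu.unique (y₁ := (1, Pi.single i 1)) (y₂ := (⟨NumberField.Units.fundSystem K i, hmem⟩, 0))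
    (by
      rw [Finset.prod_eq_single i]
      · simp
      · intro j _ hj
        simp [Pi.single_eq_of_ne hj]
      · intro hi
        exact absurd (Finset.mem_univ i) hi)
    (by simp)
  have h3 := congrFun (congrArg Prod.snd h) i
  simp at h3

/-- a non-torsion unit has a real conjugate of absolute value different from 1 -/
private theorem A2_ne (σ : K →+* ℝ) {u : (𝓞 K)ˣ} (hu : u ∉ NumberField.Units.torsion K) :
    |σ ((u : 𝓞 K) : K)| ≠ 1 := by
  intro h
  have hinj : Function.Injective σ := σ.injective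
  rcases abs_eq (zero_le_one) |>.mp h with h | h
  · apply hu
    have : ((u : 𝓞 K) : K) = 1 := hinj (by rw [h, map_one])
    have hu1 : u = 1 := by
      apply Units.ext
      apply NumberField.RingOfIntegers.ext
      simpa using this
    rw [hu1]
    exact one_mem _
  · apply hu
    have : ((u : 𝓞 K) : K) = -1 := hinj (by rw [h, map_neg, map_one])
    have hu1 : u = -1 := by
      apply Units.ext
      apply NumberField.RingOfIntegers.ext
      simpa using this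
    rw [hu1]
    rw [NumberField.Units.torsion, CommGroup.mem_torsion]
    exact isOfFinOrder_iff_pow_eq_one.mpr ⟨2, by norm_num, by simp⟩

/-- some positive power of a unit is congruent to 1 modulo f -/
private theorem A2_pow {f : ℕ} (hf : 0 < f) (u : (𝓞 K)ˣ) :
    ∃ m : ℕ, 0 < m ∧ (f : 𝓞 K) ∣ ((u ^ m : (𝓞 K)ˣ) : 𝓞 K) - 1 := by
  have hf0 : (f : 𝓞 K) ≠ 0 := by exact_mod_cast hf.ne'
  have hI : Ideal.span {(f : 𝓞 K)} ≠ ⊥ := by
    rw [Ne, Ideal.span_singleton_eq_bot]; exact hf0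
  have : Finite (𝓞 K ⧸ Ideal.span {(f : 𝓞 K)}) := Ideal.finiteQuotientOfFreeOfNeBot _ hI
  have : Finite (𝓞 K ⧸ Ideal.span {(f : 𝓞 K)})ˣ := inferInstance
  refine ⟨Nat.card (𝓞 K ⧸ Ideal.span {(f : 𝓞 K)})ˣ, Nat.card_pos, ?_⟩
  have h := pow_card_eq_one' (x := Units.map (Ideal.Quotient.mk (Ideal.span {(f : 𝓞 K)})).toMonoidHom u)
  rw [← map_pow] at h
  have h1 := congrArg Units.val h
  have h2 : Ideal.Quotient.mk (Ideal.span {(f : 𝓞 K)})
      ((u ^ Nat.card (𝓞 K ⧸ Ideal.span {(f : 𝓞 K)})ˣ : (𝓞 K)ˣ) : 𝓞 K) = 1 := by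
    rw [Units.val_one] at h1
    exact h1
  rw [← Ideal.mem_span_singleton, ← Ideal.Quotient.eq_zero_iff_mem, map_sub, map_one, h2, sub_self]

private theorem A2_main {σ₁ σ₂ : K →+* ℝ} (hσ : RE σ₁ σ₂)
    {f : ℕ} (hf : 0 < f) (u : (𝓞 K)ˣ) (hu : 1 < |σ₁ ((u : 𝓞 K) : K)|) :
    ∃ (η : (𝓞 K)ˣ) (l : ℝ), UE σ₁ σ₂ f η l := by
  obtain ⟨m, hm, hd⟩ := A2_pow hf u
  set a : ℝ := σ₁ ((u : 𝓞 K) : K) with ha
  set b : ℝ := σ₂ ((u : 𝓞 K) : K) with hb
  have hab : (a * b) ^ 2 = 1 := by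
    rw [ha, hb, ← hσ.norm]
    have : IsUnit (Algebra.norm ℤ (u : 𝓞 K)) := u.isUnit.map (Algebra.norm ℤ)
    rcases Int.isUnit_iff.mp this with h | h <;> rw [h] <;> norm_num
  have h1 : 1 < a ^ (2 * m) := by
    rw [pow_mul, ← sq_abs, ← pow_mul]
    exact one_lt_pow₀ hu (by omega)
  have hpos : 0 < a ^ (2 * m) := by linarith
  have hprod : a ^ (2 * m) * b ^ (2 * m) = 1 := by
    rw [← mul_pow, pow_mul, hab, one_pow]
  refine ⟨u ^ (2 * m), Real.log (a ^ (2 * m)), ?_, ?_, ?_, ?_⟩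
  · exact Real.log_pos h1
  · have h3 : ((u ^ (2 * m) : (𝓞 K)ˣ) : 𝓞 K) - 1 = (((u ^ m : (𝓞 K)ˣ) : 𝓞 K) - 1) * (((u ^ m : (𝓞 K)ˣ) : 𝓞 K) + 1) := by
      push_cast
      ring
    rw [h3]
    exact Dvd.dvd.mul_right hd _
  · rw [Real.exp_log hpos, ha]
    simp
  · rw [Real.exp_neg, Real.exp_log hpos]
    rw [inv_eq_of_mul_eq_one_right hprod, hb]
    simp

/-- Row A2. The unit. Proof. Dirichlet: the unit rank is 1, let u be a fundamental unit (not torsion); |σ₁ u| ≠ 1, since otherwise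
|σ₂ u| = 1 and u is torsion. u^m ≡ 1 mod f for m = the order of the unit group of the finite ring 𝓞 K/(f) (or Fintype.card); take
η = u^{2m} or its inverse; then σ₁ η, σ₂ η > 0, product 1. l = log σ₁ η > 0. -/
theorem exists_UE [NumberField.IsTotallyReal K] (h2 : Module.finrank ℚ K = 2) {σ₁ σ₂ : K →+* ℝ} (hσ : RE σ₁ σ₂)
    {f : ℕ} (hf : 0 < f) : ∃ (η : (𝓞 K)ˣ) (l : ℝ), UE σ₁ σ₂ f η l := by
  obtain ⟨u, hu⟩ := A2_unit h2
  have hne := A2_ne σ₁ hu
  rcases lt_or_gt_of_ne hne with h | h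
  · apply A2_main hσ hf u⁻¹
    have hmul : σ₁ ((u : 𝓞 K) : K) * σ₁ (((u⁻¹ : (𝓞 K)ˣ) : 𝓞 K) : K) = 1 := by
      rw [← map_mul, ← map_mul, Units.mul_inv, map_one, map_one]
    have h3 : |σ₁ ((u : 𝓞 K) : K)| * |σ₁ (((u⁻¹ : (𝓞 K)ˣ) : 𝓞 K) : K)| = 1 := by
      rw [← abs_mul, hmul, abs_one]
    by_contra h4
    push Not at h4
    have := mul_le_mul_of_nonneg_left h4 (abs_nonneg (σ₁ ((u : 𝓞 K) : K)))
    rw [h3, mul_one] at this
    linarith
  · exact A2_main hσ hf u h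

end NR
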