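import Pool.Agent.Lib.MP_0f5a55_nt.NR.QD

open Complex MeasureTheory Set Filter Topology
open scoped Real ComplexConjugate NumberField

namespace NR

open HC

variable {K : Type*} [Field K] [NumberField K]

theorem A3_ne (σ : K →+* ℝ) {x : 𝓞 K} (hx : x ≠ 0) : 0 < |σ (x : K)| := by
  rw [abs_pos]
  intro h
  apply hx
  have h1 : (x : K) = 0 := (map_eq_zero σ).1 h
  exact_mod_cast h1

theorem A3_zpow (σ : K →+* ℝ) (η : (𝓞 K)ˣ) {l : ℝ} (h : σ ((η : 𝓞 K) : K) = Real.exp l) (k : ℤ) :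
    σ (((η ^ k : (𝓞 K)ˣ) : 𝓞 K) : K) = Real.exp (k * l) := by
  let φ : 𝓞 K →* ℝ := (σ.comp (algebraMap (𝓞 K) K) : 𝓞 K →+* ℝ)
  have h1 : ∀ u : (𝓞 K)ˣ, ((Units.map φ u : ℝˣ) : ℝ) = σ ((u : 𝓞 K) : K) := fun u => rfl
  rw [← h1, map_zpow, Units.val_zpow_eq_zpow_val, h1, h, mul_comm (k : ℝ) l, Real.exp_mul,
    Real.rpow_intCast]

/-- position of a nonzero element with respect to the unit -/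
noncomputable def A3_t (σ₁ σ₂ : K →+* ℝ) (l : ℝ) (x : 𝓞 K) : ℝ :=
  (Real.log |σ₁ (x : K)| - Real.log |σ₂ (x : K)|) / (2 * l)

theorem A3_shift {σ₁ σ₂ : K →+* ℝ} {f : ℕ} {η : (𝓞 K)ˣ} {l : ℝ} (hη : UE σ₁ σ₂ f η l) {x : 𝓞 K}
    (hx : x ≠ 0) (k : ℤ) :
    A3_t σ₁ σ₂ l (((η ^ k : (𝓞 K)ˣ) : 𝓞 K) * x) = A3_t σ₁ σ₂ l x + k := by
  have h1 := A3_zpow σ₁ η hη.e1 k
  have h2 := A3_zpow σ₂ η hη.e2 k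
  have p1 := A3_ne σ₁ hx
  have p2 := A3_ne σ₂ hx
  have e1 : σ₁ ((((η ^ k : (𝓞 K)ˣ) : 𝓞 K) * x : 𝓞 K) : K) = Real.exp (k * l) * σ₁ (x : K) := by
    rw [← h1, ← map_mul]
    rfl
  have e2 : σ₂ ((((η ^ k : (𝓞 K)ˣ) : 𝓞 K) * x : 𝓞 K) : K) = Real.exp (k * -l) * σ₂ (x : K) := by
    rw [← h2, ← map_mul]
    rfl
  have hl := hη.l0
  unfold A3_t
  rw [e1, e2, abs_mul, abs_mul, Real.abs_exp, Real.abs_exp,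
    Real.log_mul (Real.exp_pos _).ne' p1.ne', Real.log_mul (Real.exp_pos _).ne' p2.ne',
    Real.log_exp, Real.log_exp]
  field_simp
  ring

theorem A3_mem {σ₁ σ₂ : K →+* ℝ} {l : ℝ} (hl : 0 < l) {c : ℝ} (hc : 0 < c) (x : 𝓞 K) :
    x ∈ Fd σ₁ σ₂ l c ↔ x ≠ 0 ∧ Real.log c / (2 * l) ≤ A3_t σ₁ σ₂ l x ∧
      A3_t σ₁ σ₂ l x < Real.log c / (2 * l) + 1 := by
  unfold Fd
  rw [Set.mem_ofPred_eq]
  refine and_congr_right fun hx => ?_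
  have p1 := A3_ne σ₁ hx
  have p2 := A3_ne σ₂ hx
  have h2l : 0 < 2 * l := by linarith
  unfold A3_t
  refine and_congr ?_ ?_
  · rw [div_le_div_iff_of_pos_right h2l, ← Real.log_le_log_iff (by positivity) p1,
      Real.log_mul hc.ne' p2.ne']
    constructor <;> intro h <;> linarith
  · rw [← Real.log_lt_log_iff p1 (by positivity), Real.log_mul (by positivity) p2.ne',
      Real.log_mul hc.ne' (Real.exp_pos _).ne', Real.log_exp, div_add_one h2l.ne',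
      div_lt_div_iff_of_pos_right h2l]
    constructor <;> intro h <;> linarith

theorem A3_S {η : (𝓞 K)ˣ} {S : Set (𝓞 K)} (hS : ∀ x, x ∈ S ↔ (η : 𝓞 K) * x ∈ S) (k : ℤ) :
    ∀ x, x ∈ S ↔ ((η ^ k : (𝓞 K)ˣ) : 𝓞 K) * x ∈ S := by
  induction k with
  | zero => intro x; simp
  | succ k ih =>
    intro x
    rw [hS x, ih ((η : 𝓞 K) * x), ← mul_assoc, ← Units.val_mul, ← zpow_add_one]
  | pred k ih =>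
    intro x
    rw [hS (((η ^ (-(k : ℤ) - 1) : (𝓞 K)ˣ) : 𝓞 K) * x), ← mul_assoc, ← Units.val_mul, ← zpow_one_add,
      ih x]
    have : 1 + (-(k : ℤ) - 1) = -(k : ℤ) := by ring
    rw [this]

theorem A3_cancel (η : (𝓞 K)ˣ) (k : ℤ) (x : 𝓞 K) :
    ((η ^ (-k) : (𝓞 K)ˣ) : 𝓞 K) * (((η ^ k : (𝓞 K)ˣ) : 𝓞 K) * x) = x := by
  rw [← mul_assoc, ← Units.val_mul, ← zpow_add, neg_add_cancel, zpow_zero, Units.val_one, one_mul]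

/-- Row A3. Counting in the domain Fd c does not depend on c. Proof. For x ≠ 0 (σ₁ x, σ₂ x ≠ 0) there is a unique k ∈ ℤ with η^k x ∈ Fd 1: the
ratio |σ₁ x|/|σ₂ x| is multiplied by exp(2l). x -> η^{k(x)} x is a bijection S ∩ Fd c -> S ∩ Fd 1 (inverse of the same kind). -/
theorem dom_indep {σ₁ σ₂ : K →+* ℝ} (hσ : RE σ₁ σ₂) {f : ℕ} {η : (𝓞 K)ˣ} {l : ℝ} (hη : UE σ₁ σ₂ f η l)
    {S : Set (𝓞 K)} (hS : ∀ x, x ∈ S ↔ (η : 𝓞 K) * x ∈ S) {c : ℝ} (hc : 0 < c) :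
    (S ∩ Fd σ₁ σ₂ l c).ncard = (S ∩ Fd σ₁ σ₂ l 1).ncard := by
  have hl := hη.l0
  obtain ⟨a, ha⟩ : ∃ a : ℝ, a = Real.log c / (2 * l) := ⟨_, rfl⟩
  have mc : ∀ x : 𝓞 K, x ∈ Fd σ₁ σ₂ l c ↔ x ≠ 0 ∧ a ≤ A3_t σ₁ σ₂ l x ∧ A3_t σ₁ σ₂ l x < a + 1 := by
    intro x
    rw [A3_mem hl hc, ha]
  have m1 : ∀ x : 𝓞 K, x ∈ Fd σ₁ σ₂ l 1 ↔ x ≠ 0 ∧ 0 ≤ A3_t σ₁ σ₂ l x ∧ A3_t σ₁ σ₂ l x < 1 := by
    intro x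
    rw [A3_mem hl one_pos, Real.log_one, zero_div, zero_add]
  have hne : ∀ (k : ℤ) {x : 𝓞 K}, x ≠ 0 → ((η ^ k : (𝓞 K)ˣ) : 𝓞 K) * x ≠ 0 := fun k x hx =>
    mul_ne_zero (Units.ne_zero _) hx
  refine Set.ncard_congr (fun x _ => ((η ^ (-⌊A3_t σ₁ σ₂ l x⌋) : (𝓞 K)ˣ) : 𝓞 K) * x) ?_ ?_ ?_
  · rintro x ⟨hxS, hx⟩
    rw [mc] at hx
    refine ⟨(A3_S hS _ x).1 hxS, ?_⟩
    rw [m1, A3_shift hη hx.1]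
    have h1 := Int.floor_le (A3_t σ₁ σ₂ l x)
    have h2 := Int.lt_floor_add_one (A3_t σ₁ σ₂ l x)
    refine ⟨hne _ hx.1, ?_, ?_⟩
    · push_cast
      linarith
    · push_cast
      linarith
  · rintro x y ⟨_, hx⟩ ⟨_, hy⟩ hxy
    rw [mc] at hx hy
    have h1 : x = ((η ^ (⌊A3_t σ₁ σ₂ l x⌋ - ⌊A3_t σ₁ σ₂ l y⌋) : (𝓞 K)ˣ) : 𝓞 K) * y := by
      have hxy' : ((η ^ (-⌊A3_t σ₁ σ₂ l x⌋) : (𝓞 K)ˣ) : 𝓞 K) * x =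
          ((η ^ (-⌊A3_t σ₁ σ₂ l y⌋) : (𝓞 K)ˣ) : 𝓞 K) * y := hxy
      have h2 : ((η ^ ⌊A3_t σ₁ σ₂ l x⌋ : (𝓞 K)ˣ) : 𝓞 K) *
          (((η ^ (-⌊A3_t σ₁ σ₂ l x⌋) : (𝓞 K)ˣ) : 𝓞 K) * x) =
          ((η ^ ⌊A3_t σ₁ σ₂ l x⌋ : (𝓞 K)ˣ) : 𝓞 K) *
          (((η ^ (-⌊A3_t σ₁ σ₂ l y⌋) : (𝓞 K)ˣ) : 𝓞 K) * y) := by rw [hxy']
      rw [← mul_assoc, ← Units.val_mul, ← zpow_add, add_neg_cancel, zpow_zero, Units.val_one, one_mul,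
        ← mul_assoc, ← Units.val_mul, ← zpow_add, ← sub_eq_add_neg] at h2
      exact h2
    have h3 := A3_shift hη hy.1 (⌊A3_t σ₁ σ₂ l x⌋ - ⌊A3_t σ₁ σ₂ l y⌋)
    rw [← h1] at h3
    have h4 : ⌊A3_t σ₁ σ₂ l x⌋ - ⌊A3_t σ₁ σ₂ l y⌋ = 0 := by
      have h5 : ((⌊A3_t σ₁ σ₂ l x⌋ - ⌊A3_t σ₁ σ₂ l y⌋ : ℤ) : ℝ) < 1 := by linarith [hx.2.2, hy.2.1]
      have h6 : (-1 : ℝ) < ((⌊A3_t σ₁ σ₂ l x⌋ - ⌊A3_t σ₁ σ₂ l y⌋ : ℤ) : ℝ) := by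
        linarith [hx.2.1, hy.2.2]
      have h7 : ⌊A3_t σ₁ σ₂ l x⌋ - ⌊A3_t σ₁ σ₂ l y⌋ < 1 := by exact_mod_cast h5
      have h8 : -1 < ⌊A3_t σ₁ σ₂ l x⌋ - ⌊A3_t σ₁ σ₂ l y⌋ := by exact_mod_cast h6
      omega
    rw [h4, zpow_zero, Units.val_one, one_mul] at h1
    exact h1
  · rintro y ⟨hyS, hy⟩
    rw [m1] at hy
    obtain ⟨k, hk⟩ : ∃ k : ℤ, k = ⌈a - A3_t σ₁ σ₂ l y⌉ := ⟨_, rfl⟩
    have h1 := Int.le_ceil (a - A3_t σ₁ σ₂ l y)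
    have h2 := Int.ceil_lt_add_one (a - A3_t σ₁ σ₂ l y)
    rw [← hk] at h1 h2
    have hs := A3_shift hη hy.1 k
    refine ⟨((η ^ k : (𝓞 K)ˣ) : 𝓞 K) * y, ⟨(A3_S hS _ y).1 hyS, ?_⟩, ?_⟩
    · rw [mc, hs]
      exact ⟨hne _ hy.1, by linarith, by linarith⟩
    · have h3 : ⌊A3_t σ₁ σ₂ l (((η ^ k : (𝓞 K)ˣ) : 𝓞 K) * y)⌋ = k := by
        rw [hs, Int.floor_eq_iff]
        exact ⟨by linarith [hy.2.1], by linarith [hy.2.2]⟩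
      show ((η ^ (-⌊A3_t σ₁ σ₂ l (((η ^ k : (𝓞 K)ˣ) : 𝓞 K) * y)⌋) : (𝓞 K)ˣ) : 𝓞 K) *
        (((η ^ k : (𝓞 K)ˣ) : 𝓞 K) * y) = y
      rw [h3]
      exact A3_cancel η k y

/-- multiplication by κ ≠ 0 -/
theorem Fd_mul {σ₁ σ₂ : K →+* ℝ} (hσ : RE σ₁ σ₂) {l : ℝ} {κ : 𝓞 K} (hκ : κ ≠ 0) (x : 𝓞 K) :
    κ * x ∈ Fd σ₁ σ₂ l 1 ↔ x ∈ Fd σ₁ σ₂ l (|σ₂ (κ : K)| / |σ₁ (κ : K)|) := by
  have p1 := A3_ne σ₁ hκ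
  have p2 := A3_ne σ₂ hκ
  have e1 : σ₁ ((κ * x : 𝓞 K) : K) = σ₁ (κ : K) * σ₁ (x : K) := by
    rw [← map_mul]; rfl
  have e2 : σ₂ ((κ * x : 𝓞 K) : K) = σ₂ (κ : K) * σ₂ (x : K) := by
    rw [← map_mul]; rfl
  unfold Fd
  rw [Set.mem_ofPred_eq, Set.mem_ofPred_eq, e1, e2, abs_mul, abs_mul, one_mul, one_mul]
  refine and_congr ?_ (and_congr ?_ ?_)
  · constructor
    · intro h hx
      exact h (by rw [hx, mul_zero])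
    · intro h
      exact mul_ne_zero hκ h
  · rw [div_mul_eq_mul_div, div_le_iff₀ p1, mul_comm |σ₁ (x : K)|]
  · rw [div_mul_eq_mul_div, div_mul_eq_mul_div, lt_div_iff₀ p1, mul_comm |σ₁ (κ : K)|]
    have : |σ₂ (κ : K)| * Real.exp (2 * l) * |σ₂ (x : K)| =
        Real.exp (2 * l) * (|σ₂ (κ : K)| * |σ₂ (x : K)|) := by ring
    rw [this]

end NR
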