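import Pool.Agent.Lib.MP_0f5a55_nt.NR.A3

open Complex MeasureTheory Set Filter Topology
open scoped Real ComplexConjugate NumberField

namespace NR

open HC

variable {K : Type*} [Field K] [NumberField K]

private theorem A4_emb (h2 : Module.finrank ℚ K = 2) {σ₁ σ₂ : K →+* ℝ} (hσ : RE σ₁ σ₂) (φ : K →+* ℂ) :
    φ = Complex.ofRealHom.comp σ₁ ∨ φ = Complex.ofRealHom.comp σ₂ := by
  classical
  have hne : Complex.ofRealHom.comp σ₁ ≠ Complex.ofRealHom.comp σ₂ := by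
    intro h
    apply hσ.ne
    ext x
    have := RingHom.congr_fun h x
    simpa using this
  have hc : Fintype.card (K →+* ℂ) = 2 := by rw [NumberField.Embeddings.card K ℂ, h2]
  have hu : ({Complex.ofRealHom.comp σ₁, Complex.ofRealHom.comp σ₂} : Finset (K →+* ℂ)) = Finset.univ := by
    apply Finset.eq_univ_of_card
    rw [Finset.card_pair hne, hc]
  have := Finset.mem_univ φ
  rw [← hu] at this
  simpa using this

omit [NumberField K] in
private theorem A4_Ord_mul {f : ℕ} {η x : 𝓞 K} (h : (f : 𝓞 K) ∣ η - 1) : Ord f (η * x) ↔ Ord f x := by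
  constructor
  · rintro ⟨m, hm⟩
    refine ⟨m, ?_⟩
    have e : x - (m : 𝓞 K) = (η * x - m) - (η - 1) * x := by ring
    rw [e]
    exact dvd_sub hm (h.mul_right x)
  · rintro ⟨m, hm⟩
    refine ⟨m, ?_⟩
    have e : η * x - (m : 𝓞 K) = (x - m) + (η - 1) * x := by ring
    rw [e]
    exact dvd_add hm (h.mul_right x)

/-- Row A4. Units in the domain. Finite: |σ₁ u σ₂ u| = 1 and the ratio is bounded, so both conjugates are bounded
(NumberField.Embeddings.finite_of_norm_le, or a lattice argument); 1 is in the set. -/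
theorem wu_pos (h2 : Module.finrank ℚ K = 2) {σ₁ σ₂ : K →+* ℝ} (hσ : RE σ₁ σ₂) {f : ℕ} {η : (𝓞 K)ˣ} {l : ℝ}
    (hη : UE σ₁ σ₂ f η l) : {u : 𝓞 K | IsUnit u ∧ Ord f u ∧ u ∈ Fd σ₁ σ₂ l 1}.Finite ∧ 0 < wu K σ₁ σ₂ f l := by
  have hl := hη.l0
  have hfin : {u : 𝓞 K | IsUnit u ∧ Ord f u ∧ u ∈ Fd σ₁ σ₂ l 1}.Finite := by
    have h0 := NumberField.Embeddings.finite_of_norm_le K ℂ (Real.exp l)
    refine Set.Finite.of_finite_image (f := fun u : 𝓞 K => (u : K)) (h0.subset ?_) ?_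
    · rintro _ ⟨u, ⟨hu, -, -, h3, h4⟩, rfl⟩
      refine ⟨u.2, ?_⟩
      rw [one_mul] at h3 h4
      have hn : |σ₁ (u : K)| * |σ₂ (u : K)| = 1 := by
        rw [← abs_mul, ← hσ.norm u]
        have h5 : IsUnit (Algebra.norm ℤ u) := hu.map (Algebra.norm ℤ)
        rcases Int.isUnit_iff.1 h5 with h | h <;> simp [h]
      have hb1 : |σ₁ (u : K)| ≤ Real.exp l := by
        have h6 : |σ₁ (u : K)| ^ 2 ≤ Real.exp l ^ 2 := by
          have h7 : |σ₁ (u : K)| * |σ₁ (u : K)| ≤ |σ₁ (u : K)| * (Real.exp (2 * l) * |σ₂ (u : K)|) :=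
            mul_le_mul_of_nonneg_left h4.le (abs_nonneg _)
          have h8 : Real.exp l ^ 2 = Real.exp (2 * l) := by rw [← Real.exp_nat_mul]; norm_num
          rw [h8, sq]
          calc _ ≤ _ := h7
            _ = Real.exp (2 * l) * (|σ₁ (u : K)| * |σ₂ (u : K)|) := by ring
            _ = _ := by rw [hn, mul_one]
        exact le_of_sq_le_sq h6 (Real.exp_pos l).le
      have hb2 : |σ₂ (u : K)| ≤ Real.exp l := h3.trans hb1
      intro φ
      rcases A4_emb h2 hσ φ with rfl | rfl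
      · simpa using hb1
      · simpa using hb2
    · intro a _ b _ h
      exact NumberField.RingOfIntegers.ext h
  refine ⟨hfin, ?_⟩
  rw [wu, Set.ncard_pos hfin]
  refine ⟨1, isUnit_one, ⟨1, by simp⟩, one_ne_zero, by simp, ?_⟩
  simp only [map_one, abs_one, one_mul, mul_one]
  exact Real.one_lt_exp_iff.2 (by linarith)

/-- A3.dom_indep for S = units of the order (stable under η because η ≡ 1 mod f), A3.Fd_mul -/
theorem coset_count {σ₁ σ₂ : K →+* ℝ} (hσ : RE σ₁ σ₂) {f : ℕ} {η : (𝓞 K)ˣ} {l : ℝ} (hη : UE σ₁ σ₂ f η l)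
    {α : 𝓞 K} (hα : α ≠ 0) :
    {β : 𝓞 K | (∃ u : 𝓞 K, IsUnit u ∧ Ord f u ∧ β = α * u) ∧ β ∈ Fd σ₁ σ₂ l 1}.ncard = wu K σ₁ σ₂ f l := by
  have hα' : (α : K) ≠ 0 := by
    intro h
    exact hα (NumberField.RingOfIntegers.ext h)
  have hc : 0 < |σ₂ (α : K)| / |σ₁ (α : K)| :=
    div_pos (abs_pos.2 ((map_ne_zero σ₂).2 hα')) (abs_pos.2 ((map_ne_zero σ₁).2 hα'))
  have hS : ∀ x, x ∈ {u : 𝓞 K | IsUnit u ∧ Ord f u} ↔ (η : 𝓞 K) * x ∈ {u : 𝓞 K | IsUnit u ∧ Ord f u} := by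
    intro x
    simp only [Set.mem_ofPred_eq, A4_Ord_mul hη.one, Units.isUnit_units_mul]
  have h1 := dom_indep hσ hη hS hc
  have h3 : {β : 𝓞 K | (∃ u : 𝓞 K, IsUnit u ∧ Ord f u ∧ β = α * u) ∧ β ∈ Fd σ₁ σ₂ l 1} =
      (fun u => α * u) '' ({u : 𝓞 K | IsUnit u ∧ Ord f u} ∩ Fd σ₁ σ₂ l (|σ₂ (α : K)| / |σ₁ (α : K)|)) := by
    ext β
    constructor
    · rintro ⟨⟨u, hu, ho, rfl⟩, hb⟩
      exact ⟨u, ⟨⟨hu, ho⟩, (Fd_mul hσ hα u).1 hb⟩, rfl⟩
    · rintro ⟨u, ⟨⟨hu, ho⟩, hb⟩, rfl⟩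
      exact ⟨⟨u, hu, ho, rfl⟩, (Fd_mul hσ hα u).2 hb⟩
  rw [h3, Set.ncard_image_of_injective _ (mul_right_injective₀ hα), h1, wu]
  congr 1
  ext u
  simp only [Set.mem_inter_iff, Set.mem_ofPred_eq, and_assoc]

end NR
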