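import Pool.Agent.Lib.MP_0f5a55_nt.NR.A0
import Pool.Agent.Lib.MP_0f5a55_nt.NR.A4
import Pool.Agent.Lib.MP_0f5a55_nt.HC.H18

open Complex MeasureTheory Set Filter Topology
open scoped Real ComplexConjugate NumberField

namespace NR

open HC

variable {K : Type*} [Field K] [NumberField K]

/-- the points counted -/
def XX (σ₁ σ₂ : K →+* ℝ) (f : ℕ) (l : ℝ) (a : Ideal (𝓞 K)) (n : ℕ) : Set (𝓞 K) :=
  {x | x ∈ a ∧ Ord f x ∧ (Algebra.norm ℤ x).natAbs = Ideal.absNorm a * n ∧ x ∈ Fd σ₁ σ₂ l 1}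

/-- the points of the domain in the order generating J -/
def A5_S (σ₁ σ₂ : K →+* ℝ) (f : ℕ) (l : ℝ) (J : Ideal (𝓞 K)) : Set (𝓞 K) :=
  {x | Ord f x ∧ Ideal.span {x} = J ∧ x ∈ Fd σ₁ σ₂ l 1}

omit [NumberField K] in
theorem A5_ord_mul {f : ℕ} {α β : 𝓞 K} (hα : Ord f α) (hβ : Ord f β) : Ord f (α * β) := by
  obtain ⟨m, k, hk⟩ := hα
  obtain ⟨n, l, hl⟩ := hβ
  refine ⟨m * n, k * β + m * l, ?_⟩
  push_cast
  linear_combination β * hk + (m : 𝓞 K) * hl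

/-- the generators of a principal ideal with a generator in the order prime to f -/
theorem A5_gens (h2 : Module.finrank ℚ K = 2) {σ₁ σ₂ : K →+* ℝ} (hσ : RE σ₁ σ₂) {f : ℕ} {η : (𝓞 K)ˣ} {l : ℝ}
    (hη : UE σ₁ σ₂ f η l) {α : 𝓞 K} (hα : Ord f α) (hc : Cop f (Ideal.span {α})) :
    (A5_S σ₁ σ₂ f l (Ideal.span {α})).ncard = wu K σ₁ σ₂ f l ∧ (A5_S σ₁ σ₂ f l (Ideal.span {α})).Finite := by
  have hα0 : α ≠ 0 := by
    intro h
    apply hc.1
    rw [h, Ideal.span_singleton_eq_bot]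
  have he : A5_S σ₁ σ₂ f l (Ideal.span {α}) =
      {β : 𝓞 K | (∃ u : 𝓞 K, IsUnit u ∧ Ord f u ∧ β = α * u) ∧ β ∈ Fd σ₁ σ₂ l 1} := by
    ext β
    constructor
    · rintro ⟨hβ, hs, hF⟩
      refine ⟨?_, hF⟩
      rw [Ideal.span_singleton_eq_span_singleton] at hs
      obtain ⟨u, hu⟩ := hs.symm
      exact ⟨u, u.isUnit, H20_fact h2 dvd_rfl hα hc (by rw [hu]; exact hβ), hu.symm⟩
    · rintro ⟨⟨u, hu, hO, rfl⟩, hF⟩
      refine ⟨A5_ord_mul hα hO, ?_, hF⟩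
      rw [Ideal.span_singleton_eq_span_singleton]
      exact associated_mul_unit_left α u hu
  have h1 : (A5_S σ₁ σ₂ f l (Ideal.span {α})).ncard = wu K σ₁ σ₂ f l := by
    rw [he]
    exact coset_count hσ hη hα0
  refine ⟨h1, Set.finite_of_ncard_pos ?_⟩
  rw [h1]
  exact (wu_pos h2 hσ hη).2

theorem A5_XX {σ₁ σ₂ : K →+* ℝ} {f : ℕ} {l : ℝ} {a : Ideal (𝓞 K)} (ha : a ≠ ⊥) (n : ℕ) :
    XX σ₁ σ₂ f l a n = ⋃ I ∈ (Ideal.finite_setOfPred_absNorm_eq (S := 𝓞 K) n).toFinset, A5_S σ₁ σ₂ f l (I * a) := by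
  have haN : Ideal.absNorm a ≠ 0 := by
    rwa [Ne, Ideal.absNorm_eq_zero_iff]
  ext x
  simp only [Set.mem_iUnion, Set.Finite.mem_toFinset, exists_prop]
  constructor
  · rintro ⟨h1, h2, h3, h4⟩
    have h5 : a ∣ Ideal.span {x} := by
      rw [Ideal.dvd_span_singleton]; exact h1
    obtain ⟨I, hI⟩ := h5
    refine ⟨I, ?_, h2, by rw [hI, mul_comm], h4⟩
    have h6 := congrArg Ideal.absNorm hI
    rw [Ideal.absNorm_span_singleton, map_mul, h3] at h6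
    exact (Nat.eq_of_mul_eq_mul_left (Nat.pos_of_ne_zero haN) h6).symm
  · rintro ⟨I, hI, h2, h3, h4⟩
    have hI' : Ideal.absNorm I = n := hI
    refine ⟨?_, h2, ?_, h4⟩
    · have : x ∈ Ideal.span {x} := Ideal.mem_span_singleton_self x
      rw [h3] at this
      exact Ideal.mul_le_right this
    · have h6 := congrArg Ideal.absNorm h3
      rw [Ideal.absNorm_span_singleton, map_mul, hI'] at h6
      rw [h6, mul_comm]

/-- Row A5. Model HC/H19.lean (count_cop). For x in XX: (x) = I a with absNorm I = n, prime to f. By H18.exists_unique_mul each I prime to f has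
a unique a ∈ T with I a = (α), α ∈ Ord f, prime to f; the x with (x) = I a, x ∈ Ord f, are the α u, u unit in Ord f (H20_fact: α u ∈ Ord f,
α prime to f gives u ∈ Ord f), and A4.coset_count counts them in the domain. ψ(I) ψ(a) = ψ((α)) = 1, so ψ(I) = conj ψ(a). -/
theorem rcount_cop (h2 : Module.finrank ℚ K = 2) {σ₁ σ₂ : K →+* ℝ} (hσ : RE σ₁ σ₂) {f : ℕ} {η : (𝓞 K)ˣ} {l : ℝ}
    (hη : UE σ₁ σ₂ f η l) {ψ : Ideal (𝓞 K) →*₀ ℂ} (h : RC f ψ) {T : Finset (Ideal (𝓞 K))} (hT : Reps f T) {n : ℕ}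
    (hn : 0 < n) (hc : n.Coprime f) :
    (wu K σ₁ σ₂ f l : ℂ) * ac ψ n = ∑ a ∈ T, conj (ψ a) * ((XX σ₁ σ₂ f l a n).ncard : ℂ) := by
  set J := (Ideal.finite_setOfPred_absNorm_eq (S := 𝓞 K) n).toFinset with hJ
  have hmemJ : ∀ I, I ∈ J ↔ Ideal.absNorm I = n := by
    intro I
    rw [hJ, Set.Finite.mem_toFinset]
    rfl
  have hac : ac ψ n = ∑ I ∈ J, ψ I := by
    unfold ac
    rw [← finsum_mem_coe_finset]
    refine finsum_congr fun I => ?_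
    refine finsum_congr_Prop ?_ (fun _ => rfl)
    rw [Finset.mem_coe, hmemJ]
  have hcop : ∀ I ∈ J, Cop f I := by
    intro I hI
    rw [hmemJ] at hI
    refine (cop_iff h2 h.pos).2 ⟨?_, by rw [hI]; exact hc⟩
    intro hb
    rw [hb, Ideal.absNorm_bot] at hI
    omega
  have hmul : ∀ I a : Ideal (𝓞 K), Cop f I → Cop f a → Cop f (I * a) := by
    intro I a hI ha
    exact ⟨mul_ne_zero hI.1 ha.1, hI.2.mul_left ha.2⟩
  have hfin : ∀ I ∈ J, ∀ a ∈ T, (A5_S σ₁ σ₂ f l (I * a)).Finite := by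
    intro I hI a ha
    rcases (A5_S σ₁ σ₂ f l (I * a)).eq_empty_or_nonempty with he | ⟨α, hα, hs, -⟩
    · rw [he]; exact Set.finite_empty
    · rw [← hs]
      exact (A5_gens h2 hσ hη hα (by rw [hs]; exact hmul I a (hcop I hI) (hT.1 a ha))).2
  have hcount : ∀ a ∈ T, ((XX σ₁ σ₂ f l a n).ncard : ℂ) =
      ∑ I ∈ J, ((A5_S σ₁ σ₂ f l (I * a)).ncard : ℂ) := by
    intro a ha
    have ha0 : a ≠ ⊥ := (hT.1 a ha).1
    have e1 : (⋃ I ∈ J, A5_S σ₁ σ₂ f l (I * a)) = ⋃ I : J, A5_S σ₁ σ₂ f l ((I : Ideal (𝓞 K)) * a) := by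
      ext x
      simp
    rw [A5_XX ha0 n, ← hJ, e1, Set.ncard_iUnion_of_finite (fun I : J => hfin I.1 I.2 a ha), finsum_eq_sum_of_fintype,
      Finset.sum_coe_sort J (fun I => (A5_S σ₁ σ₂ f l (I * a)).ncard), Nat.cast_sum]
    intro I I' hne
    refine Set.disjoint_left.2 ?_
    rintro x ⟨-, h1, -⟩ ⟨-, h3, -⟩
    apply hne
    exact Subtype.ext (mul_right_cancel₀ ha0 (h1.symm.trans h3))
  rw [hac, Finset.mul_sum]
  have hstep : ∑ a ∈ T, conj (ψ a) * ((XX σ₁ σ₂ f l a n).ncard : ℂ) =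
      ∑ I ∈ J, ∑ a ∈ T, conj (ψ a) * ((A5_S σ₁ σ₂ f l (I * a)).ncard : ℂ) := by
    rw [Finset.sum_comm]
    refine Finset.sum_congr rfl fun a ha => ?_
    rw [hcount a ha, Finset.mul_sum]
  rw [hstep]
  refine Finset.sum_congr rfl fun I hI => ?_
  obtain ⟨a₀, ⟨ha₀, α₀, hα₀, hcα₀, hIa₀⟩, huniq⟩ := exists_unique_mul h2 h.pos hT (hcop I hI)
  rw [Finset.sum_eq_single_of_mem a₀ ha₀]
  · rw [hIa₀, (A5_gens h2 hσ hη hα₀ hcα₀).1]
    have h1 : ψ I * ψ a₀ = 1 := by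
      rw [← map_mul, hIa₀]
      exact h.triv α₀ hα₀ hcα₀
    have h3 : ‖ψ a₀‖ = 1 := h.cop a₀ (hT.1 a₀ ha₀)
    have h4 : ψ a₀ * conj (ψ a₀) = 1 := by
      rw [Complex.mul_conj, Complex.normSq_eq_norm_sq, h3]; simp
    have h5 : ψ I = conj (ψ a₀) := by
      have h6 : ψ a₀ ≠ 0 := fun h0 => by rw [h0, zero_mul] at h4; exact zero_ne_one h4
      apply mul_right_cancel₀ h6
      rw [h1, ← h4, mul_comm]
    rw [h5, mul_comm]
  · intro a ha hne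
    have : A5_S σ₁ σ₂ f l (I * a) = ∅ := by
      rw [Set.eq_empty_iff_forall_notMem]
      rintro α ⟨hα, hs, -⟩
      apply hne
      refine huniq a ⟨ha, α, hα, ?_, hs.symm⟩
      rw [hs]
      exact hmul I a (hcop I hI) (hT.1 a ha)
    rw [this]
    simp

end NR
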