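import Pool.Agent.Lib.MP_0f5a55_nt.NR.A5

open Complex MeasureTheory Set Filter Topology
open scoped Real ComplexConjugate NumberField

namespace NR

open HC

variable {K : Type*} [Field K] [NumberField K]

theorem A6_S_eq (h2 : Module.finrank ℚ K = 2) {f p g n : ℕ} (hgf : g ∣ f) {κ : 𝓞 K} (hκ : Ord g κ)
    (hc : Cop f (Ideal.span {κ})) (a : Ideal (𝓞 K)) :
    H20_S p g n (Ideal.span {κ} * a) = (fun x => κ * x) '' (H20_S p g n a) := by
  have hκ0 : κ ≠ 0 := by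
    rintro rfl
    exact hc.1 (by simp)
  have hN0 : 0 < (Algebra.norm ℤ κ).natAbs := by
    have : Algebra.norm ℤ κ ≠ 0 := Algebra.norm_ne_zero_iff.2 hκ0
    exact Int.natAbs_pos.2 this
  ext x
  constructor
  · rintro ⟨h1, h3, h4⟩
    rw [Ideal.mem_span_singleton_mul] at h1
    obtain ⟨z, hz, rfl⟩ := h1
    refine ⟨z, ⟨hz, H20_fact h2 hgf hκ hc h3, ?_⟩, rfl⟩
    rw [map_mul, map_mul, Ideal.absNorm_span_singleton, Int.natAbs_mul] at h4
    refine Nat.eq_of_mul_eq_mul_left hN0 ?_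
    linarith
  · rintro ⟨z, ⟨h1, h3, h4⟩, rfl⟩
    refine ⟨Ideal.mem_span_singleton_mul.2 ⟨z, h1, rfl⟩, H20_ord_mul hκ h3, ?_⟩
    rw [map_mul, map_mul, Ideal.absNorm_span_singleton, Int.natAbs_mul]
    calc p ^ 2 * ((Algebra.norm ℤ κ).natAbs * (Algebra.norm ℤ z).natAbs)
        = (Algebra.norm ℤ κ).natAbs * (p ^ 2 * (Algebra.norm ℤ z).natAbs) := by ring
      _ = _ := by rw [h4]; ring

theorem A6_div (h2 : Module.finrank ℚ K = 2) {p g n : ℕ} (hp : p.Prime) (hpn : p ∣ n)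
    {a : Ideal (𝓞 K)} (ha : Cop (p * g) a) :
    {x : 𝓞 K | x ∈ a ∧ Ord (p * g) x ∧ (Algebra.norm ℤ x).natAbs = Ideal.absNorm a * n} =
      (fun x => (p : 𝓞 K) * x) '' (H20_S p g n a) := by
  have hnp : ∀ y : 𝓞 K, (Algebra.norm ℤ ((p : 𝓞 K) * y)).natAbs = p ^ 2 * (Algebra.norm ℤ y).natAbs := by
    intro y
    have h7 : Algebra.norm ℤ (((p : ℤ) : 𝓞 K)) = (p : ℤ) ^ 2 := H20_norm_int h2 _
    rw [Int.cast_natCast] at h7
    rw [map_mul, h7, Int.natAbs_mul, Int.natAbs_pow, Int.natAbs_natCast]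
  ext x
  constructor
  · rintro ⟨h1, ⟨m, β, hm⟩, h4⟩
    have hx : x = m + ((p * g : ℕ) : 𝓞 K) * β := by rw [← hm]; ring
    -- p divides m
    have hpm : (p : ℤ) ∣ m := by
      by_contra hnd
      have hcm : IsCoprime (p : ℤ) m := (Nat.prime_iff_prime_int.1 hp).coprime_iff_not_dvd.2 hnd
      obtain ⟨u, v, huv⟩ := hcm
      have hcast : (u : 𝓞 K) * p + v * m = 1 := by
        have := congrArg (Int.cast : ℤ → 𝓞 K) huv
        push_cast at this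
        exact this
      have hx0 : x ≠ 0 := by
        rintro rfl
        have hd : (p : 𝓞 K) ∣ 1 := by
          rw [← hcast]
          refine dvd_add (dvd_mul_left _ _) (Dvd.dvd.mul_left ?_ _)
          have : (m : 𝓞 K) = -(((p * g : ℕ) : 𝓞 K) * β) := by linear_combination -hx
          rw [this]
          push_cast
          exact (dvd_neg).2 ⟨g * β, by ring⟩
        obtain ⟨z, hz⟩ := hd
        have h6 := congrArg (Algebra.norm ℤ) hz
        have h7 : Algebra.norm ℤ (((p : ℤ) : 𝓞 K)) = (p : ℤ) ^ 2 := H20_norm_int h2 _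
        rw [map_mul, map_one] at h6
        rw [Int.cast_natCast] at h7
        rw [h7] at h6
        have h8 : IsUnit ((p : ℤ)) := by
          refine isUnit_of_dvd_one ⟨p * Algebra.norm ℤ z, ?_⟩
          rw [h6]; ring
        rw [Int.isUnit_iff_natAbs_eq, Int.natAbs_natCast] at h8
        exact hp.one_lt.ne' h8
      have hC : Cop p (Ideal.span {x}) := by
        refine ⟨by simpa using hx0, ?_⟩
        rw [Ideal.isCoprime_span_singleton_iff]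
        refine ⟨v, u - v * g * β, ?_⟩
        rw [hx]
        push_cast
        linear_combination hcast
      have h9 := ((cop_iff h2 hp.pos).1 hC).2
      rw [Ideal.absNorm_span_singleton, h4] at h9
      have h10 : p ∣ Nat.gcd (Ideal.absNorm a * n) p := Nat.dvd_gcd (hpn.mul_left _) dvd_rfl
      rw [h9] at h10
      exact hp.one_lt.ne' (Nat.dvd_one.1 h10)
    obtain ⟨m', rfl⟩ := hpm
    refine ⟨(m' : 𝓞 K) + g * β, ⟨?_, ⟨m', β, by ring⟩, ?_⟩, ?_⟩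
    · -- membership
      obtain ⟨-, hco⟩ := ha
      rw [Ideal.isCoprime_iff_exists] at hco
      obtain ⟨i, hi, j, hj, hij⟩ := hco
      rw [Ideal.mem_span_singleton] at hj
      obtain ⟨z, hz⟩ := hj
      have e : (m' : 𝓞 K) + g * β = ((m' : 𝓞 K) + g * β) * i + (g * z) * x := by
        rw [hx]
        push_cast at hz ⊢
        have : i = 1 - p * g * z := by rw [← hz, ← hij]; ring
        rw [this]
        ring
      rw [e]
      exact a.add_mem (a.mul_mem_left _ hi) (a.mul_mem_left _ h1)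
    · rw [← hnp, ← h4, hx]
      congr 2
      push_cast
      ring
    · show (p : 𝓞 K) * (m' + g * β) = x
      rw [hx]
      push_cast
      ring
  · rintro ⟨y, ⟨h1, ⟨m, β, hm⟩, h4⟩, rfl⟩
    refine ⟨a.mul_mem_left _ h1, ⟨p * m, β, ?_⟩, ?_⟩
    · have hy : y = m + g * β := by rw [← hm]; ring
      simp only
      rw [hy]
      push_cast
      ring
    · rw [← h4]
      exact hnp y

omit [NumberField K] in
/-- a real embedding is injective -/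
theorem A6_ne (σ : K →+* ℝ) {κ : 𝓞 K} (hκ : κ ≠ 0) : 0 < |σ (κ : K)| := by
  rw [abs_pos]
  intro h
  apply hκ
  have h1 : (κ : K) = 0 := (map_eq_zero σ).1 h
  exact_mod_cast h1

/-- the elements counted are stable under the unit -/
theorem A6_stable {σ₁ σ₂ : K →+* ℝ} {f : ℕ} {η : (𝓞 K)ˣ} {l : ℝ} (hη : UE σ₁ σ₂ f η l) {p g n : ℕ} (hgf : g ∣ f)
    (a : Ideal (𝓞 K)) (x : 𝓞 K) : x ∈ H20_S p g n a ↔ (η : 𝓞 K) * x ∈ H20_S p g n a := by
  have hg : (g : 𝓞 K) ∣ (η : 𝓞 K) - 1 := by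
    refine dvd_trans ?_ hη.one
    obtain ⟨k, rfl⟩ := hgf
    exact ⟨(k : 𝓞 K), by push_cast; ring⟩
  have hN : (Algebra.norm ℤ ((η : 𝓞 K) * x)).natAbs = (Algebra.norm ℤ x).natAbs := by
    rw [map_mul, Int.natAbs_mul]
    have h1 : IsUnit (Algebra.norm ℤ (η : 𝓞 K)) := (Units.isUnit η).map (Algebra.norm ℤ)
    rw [Int.isUnit_iff_natAbs_eq.1 h1, one_mul]
  have hO : Ord g x ↔ Ord g ((η : 𝓞 K) * x) := by
    constructor
    · rintro ⟨m, hm⟩
      refine ⟨m, ?_⟩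
      have : (η : 𝓞 K) * x - m = (x - m) + ((η : 𝓞 K) - 1) * x := by ring
      rw [this]
      exact dvd_add hm (hg.mul_right _)
    · rintro ⟨m, hm⟩
      refine ⟨m, ?_⟩
      have : x - m = ((η : 𝓞 K) * x - m) - ((η : 𝓞 K) - 1) * x := by ring
      rw [this]
      exact dvd_sub hm (hg.mul_right _)
  have hm : x ∈ a ↔ (η : 𝓞 K) * x ∈ a := by
    constructor
    · exact fun h => a.mul_mem_left _ h
    · intro h
      have := a.mul_mem_left ((η⁻¹ : (𝓞 K)ˣ) : 𝓞 K) h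
      rwa [← mul_assoc, Units.inv_mul, one_mul] at this
  unfold H20_S
  simp only [Set.mem_ofPred_eq]
  rw [hN, ← hO, ← hm]

theorem A6_mul (h2 : Module.finrank ℚ K = 2) {σ₁ σ₂ : K →+* ℝ} (hσ : RE σ₁ σ₂) {f : ℕ} {η : (𝓞 K)ˣ} {l : ℝ}
    (hη : UE σ₁ σ₂ f η l) {p g n : ℕ} (hgf : g ∣ f) {κ : 𝓞 K} (hκ : Ord g κ)
    (hc : Cop f (Ideal.span {κ})) (a : Ideal (𝓞 K)) :
    (H20_S p g n (Ideal.span {κ} * a) ∩ Fd σ₁ σ₂ l 1).ncard = (H20_S p g n a ∩ Fd σ₁ σ₂ l 1).ncard := by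
  have hκ0 : κ ≠ 0 := by
    rintro rfl
    exact hc.1 (by simp)
  have hcc : 0 < |σ₂ (κ : K)| / |σ₁ (κ : K)| := div_pos (A6_ne σ₂ hκ0) (A6_ne σ₁ hκ0)
  have e : H20_S p g n (Ideal.span {κ} * a) ∩ Fd σ₁ σ₂ l 1 =
      (fun x => κ * x) '' (H20_S p g n a ∩ Fd σ₁ σ₂ l (|σ₂ (κ : K)| / |σ₁ (κ : K)|)) := by
    rw [A6_S_eq h2 hgf hκ hc]
    ext x
    constructor
    · rintro ⟨⟨y, hy, rfl⟩, hx⟩
      exact ⟨y, ⟨hy, (Fd_mul hσ hκ0 y).1 hx⟩, rfl⟩
    · rintro ⟨y, ⟨hy, hy2⟩, rfl⟩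
      exact ⟨⟨y, hy, rfl⟩, (Fd_mul hσ hκ0 y).2 hy2⟩
  rw [e, Set.ncard_image_of_injective _ (mul_right_injective₀ hκ0)]
  exact dom_indep hσ hη (fun x => A6_stable hη hgf a x) hcc

theorem A6_eqv (h2 : Module.finrank ℚ K = 2) {σ₁ σ₂ : K →+* ℝ} (hσ : RE σ₁ σ₂) {f : ℕ} {η : (𝓞 K)ˣ} {l : ℝ}
    (hη : UE σ₁ σ₂ f η l) {p g n : ℕ} (hgf : g ∣ f) {a b : Ideal (𝓞 K)} (h : Eqv f a b) :
    (H20_S p g n a ∩ Fd σ₁ σ₂ l 1).ncard = (H20_S p g n b ∩ Fd σ₁ σ₂ l 1).ncard := by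
  obtain ⟨α, β, hα, hβ, cα, cβ, e⟩ := h
  rw [← A6_mul h2 hσ hη hgf (H20_ord_mono hgf hα) cα a, e,
    A6_mul h2 hσ hη hgf (H20_ord_mono hgf hβ) cβ b]

theorem A6_XX (h2 : Module.finrank ℚ K = 2) {σ₁ σ₂ : K →+* ℝ} (hσ : RE σ₁ σ₂) {l : ℝ} {p g n : ℕ} (hp : p.Prime)
    (hpn : p ∣ n) {a : Ideal (𝓞 K)} (ha : Cop (p * g) a) :
    (XX σ₁ σ₂ (p * g) l a n).ncard = (H20_S p g n a ∩ Fd σ₁ σ₂ l 1).ncard := by
  have hp0 : (p : 𝓞 K) ≠ 0 := by exact_mod_cast hp.ne_zero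
  have hpR : (0 : ℝ) < |(p : ℝ)| := abs_pos.2 (by exact_mod_cast hp.ne_zero)
  have hone : |σ₂ ((p : 𝓞 K) : K)| / |σ₁ ((p : 𝓞 K) : K)| = 1 := by
    have e1 : (((p : 𝓞 K) : K)) = (p : K) := by simp
    rw [e1, map_natCast, map_natCast, div_self hpR.ne']
  have e : XX σ₁ σ₂ (p * g) l a n = (fun x => (p : 𝓞 K) * x) '' (H20_S p g n a ∩ Fd σ₁ σ₂ l 1) := by
    have h1 := A6_div h2 hp hpn ha
    ext x
    constructor
    · rintro ⟨hx1, hx2, hx3, hx4⟩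
      have hx : x ∈ {x : 𝓞 K | x ∈ a ∧ Ord (p * g) x ∧ (Algebra.norm ℤ x).natAbs = Ideal.absNorm a * n} :=
        ⟨hx1, hx2, hx3⟩
      rw [h1] at hx
      obtain ⟨y, hy, rfl⟩ := hx
      refine ⟨y, ⟨hy, ?_⟩, rfl⟩
      have := (Fd_mul hσ hp0 y).1 hx4
      rwa [hone] at this
    · rintro ⟨y, ⟨hy, hy2⟩, rfl⟩
      have hx : (fun x => (p : 𝓞 K) * x) y ∈ (fun x => (p : 𝓞 K) * x) '' (H20_S p g n a) := ⟨y, hy, rfl⟩
      rw [← h1] at hx
      obtain ⟨hx1, hx2, hx3⟩ := hx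
      refine ⟨hx1, hx2, hx3, ?_⟩
      refine (Fd_mul hσ hp0 y).2 ?_
      rwa [hone]
  rw [e, Set.ncard_image_of_injective _ (mul_right_injective₀ hp0)]

/-- Row A6. Model HC/H20.lean (count_ncop). There the sets {x ∈ a | Ord g x ..} (H20_S) are compared by multiplication by κ; here intersect them with
the domain: they are stable under multiplication by η (η ≡ 1 mod f, g | f), so A3.dom_indep and A3.Fd_mul give
(S ∩ Fd 1) <-> (κ S ∩ Fd 1) of the same cardinality. The rest (primitivity) is the same. Finiteness: not needed (ncard of bijective sets), or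
from the norm equation. -/
theorem rcount_ncop (h2 : Module.finrank ℚ K = 2) {σ₁ σ₂ : K →+* ℝ} (hσ : RE σ₁ σ₂) {f : ℕ} {η : (𝓞 K)ˣ} {l : ℝ}
    (hη : UE σ₁ σ₂ f η l) {ψ : Ideal (𝓞 K) →*₀ ℂ} (h : RingClass f ψ) {T : Finset (Ideal (𝓞 K))} (hT : Reps f T) {n : ℕ}
    (hn : 0 < n) (hc : ¬ n.Coprime f) :
    ∑ a ∈ T, conj (ψ a) * ((XX σ₁ σ₂ f l a n).ncard : ℂ) = 0 := by
  classical
  obtain ⟨p, hp, hpn, hpf⟩ := Nat.Prime.not_coprime_iff_dvd.1 hc
  obtain ⟨κ, hκ, hκc, hκψ⟩ := h.prim p hp hpf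
  obtain ⟨g, rfl⟩ := hpf
  rw [Nat.mul_div_cancel_left _ hp.pos] at hκ
  have hgf : g ∣ p * g := dvd_mul_left _ _
  obtain ⟨hTc, hTu⟩ := hT
  have hR : ∀ a ∈ T, (XX σ₁ σ₂ (p * g) l a n).ncard = (H20_S p g n a ∩ Fd σ₁ σ₂ l 1).ncard :=
    fun a ha => A6_XX h2 hσ hp hpn (hTc a ha)
  have key : ∀ a ∈ T, ∃ a' ∈ T, Eqv (p * g) (Ideal.span {κ} * a) a' := by
    intro a ha
    obtain ⟨a', ⟨h1, h3⟩, -⟩ := hTu (Ideal.span {κ} * a) (cop_mul.2 ⟨hκc, hTc a ha⟩)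
    exact ⟨a', h1, h3⟩
  choose! σ hσT hσE using key
  have hinj : Set.InjOn σ (T : Set (Ideal (𝓞 K))) := by
    intro a ha b hb hab
    have ha' : a ∈ T := ha
    have hb' : b ∈ T := hb
    have e1 := hσE a ha'
    have e2 := hσE b hb'
    rw [← hab] at e2
    have e3 := e1.trans h.pos e2.symm
    rw [mul_comm _ a, mul_comm _ b] at e3
    have e4 := Eqv.cancel hκc e3
    obtain ⟨c, -, hcu⟩ := hTu a (hTc a ha')
    rw [hcu a ⟨ha', Eqv.refl h.pos a⟩, hcu b ⟨hb', e4⟩]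
  have him : T.image σ = T := by
    refine Finset.eq_of_subset_of_card_le ?_ ?_
    · intro x hx
      obtain ⟨a, ha, rfl⟩ := Finset.mem_image.1 hx
      exact hσT a ha
    · rw [Finset.card_image_of_injOn hinj]
  set X := ∑ a ∈ T, conj (ψ a) * ((XX σ₁ σ₂ (p * g) l a n).ncard : ℂ) with hX
  have hXX : X = conj (ψ (Ideal.span {κ})) * X := by
    calc X = ∑ a ∈ T.image σ, conj (ψ a) * ((XX σ₁ σ₂ (p * g) l a n).ncard : ℂ) := by rw [him]
      _ = ∑ a ∈ T, conj (ψ (σ a)) * ((XX σ₁ σ₂ (p * g) l (σ a) n).ncard : ℂ) :=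
          Finset.sum_image hinj
      _ = ∑ a ∈ T, conj (ψ (Ideal.span {κ})) *
            (conj (ψ a) * ((XX σ₁ σ₂ (p * g) l a n).ncard : ℂ)) := by
          refine Finset.sum_congr rfl (fun a ha => ?_)
          have e1 : ψ (σ a) = ψ (Ideal.span {κ}) * ψ a := by
            rw [← Eqv.char h (hσE a ha), map_mul]
          have e2 : (XX σ₁ σ₂ (p * g) l (σ a) n).ncard = (XX σ₁ σ₂ (p * g) l a n).ncard := by
            rw [hR _ (hσT a ha), hR _ ha, ← A6_eqv h2 hσ hη hgf (hσE a ha), A6_mul h2 hσ hη hgf hκ hκc]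
          rw [e1, e2, map_mul, mul_assoc]
      _ = conj (ψ (Ideal.span {κ})) * X := by rw [hX, Finset.mul_sum]
  have h1 : (1 - conj (ψ (Ideal.span {κ}))) * X = 0 := by
    rw [sub_mul, one_mul]
    exact sub_eq_zero.2 hXX
  rcases mul_eq_zero.1 h1 with h3 | h3
  · exfalso
    apply hκψ
    have h4 : conj (ψ (Ideal.span {κ})) = 1 := (sub_eq_zero.1 h3).symm
    have h5 := congrArg conj h4
    simpa using h5
  · exact h3

end NR
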