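import Mathlib
import Pool.Agent.Lib.MP_0f5a55_nt.HC.H02

open Complex MeasureTheory Set Filter Topology
open scoped Real ComplexConjugate NumberField

namespace NR

/-- the quadratic form -/
private noncomputable def B1_Q (a b c : ℝ) (v : ℤ × ℤ) : ℝ :=
  a * (v.1 : ℝ) ^ 2 + 2 * b * v.1 * v.2 + c * (v.2 : ℝ) ^ 2

private theorem B1_c {a b c : ℝ} (ha : 0 < a) (hd : a * c - b ^ 2 = 1) : 0 < c := by
  have h1 : 0 < a * c := by nlinarith [sq_nonneg b]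
  exact (mul_pos_iff_of_pos_left ha).mp h1

private theorem B1_low {a b c : ℝ} (ha : 0 < a) (hd : a * c - b ^ 2 = 1) (v : ℤ × ℤ) :
    1 / (a + c) * ((v.1 : ℝ) ^ 2 + (v.2 : ℝ) ^ 2) ≤ B1_Q a b c v := by
  have hc := B1_c ha hd
  unfold B1_Q
  rw [div_mul_eq_mul_div, one_mul, div_le_iff₀ (by positivity)]
  have h1 : (a * (v.1 : ℝ) ^ 2 + 2 * b * v.1 * v.2 + c * (v.2 : ℝ) ^ 2) * (a + c) -
      ((v.1 : ℝ) ^ 2 + (v.2 : ℝ) ^ 2) = (a * v.1 + b * v.2) ^ 2 + (b * v.1 + c * v.2) ^ 2 := by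
    linear_combination ((v.1 : ℝ) ^ 2 + (v.2 : ℝ) ^ 2) * hd
  nlinarith [sq_nonneg (a * (v.1 : ℝ) + b * v.2), sq_nonneg (b * (v.1 : ℝ) + c * v.2)]

private theorem B1_two {s : ℝ} (hs : 0 < s) :
    Summable (fun v : ℤ × ℤ => Real.exp (-(s * ((v.1 : ℝ) ^ 2 + (v.2 : ℝ) ^ 2)))) := by
  have hpos : (HC.Fm.mk 1 0 1).Pos 4 := ⟨by norm_num, by norm_num, by norm_num⟩
  refine (HC.gauss_summable hpos hs).congr fun v => ?_
  congr 2
  simp only [HC.Fm.val]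
  push_cast
  ring

private theorem B1_sum {a b c : ℝ} (ha : 0 < a) (hd : a * c - b ^ 2 = 1) {s : ℝ} (hs : 0 < s) :
    Summable (fun v : ℤ × ℤ => Real.exp (-(s * B1_Q a b c v))) := by
  have hc := B1_c ha hd
  refine Summable.of_nonneg_of_le (fun v => (Real.exp_pos _).le) (fun v => ?_)
    (B1_two (s := s * (1 / (a + c))) (by positivity))
  apply Real.exp_le_exp.2
  have h1 := mul_le_mul_of_nonneg_left (B1_low ha hd v) hs.le
  linarith

private theorem B1_ofReal (x : ℝ) : ((Real.exp x : ℝ) : ℂ) = cexp (x : ℂ) := Complex.ofReal_exp x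

private theorem B1_const {a t : ℝ} (ha : 0 < a) (ht : 0 < t) :
    1 / ((t : ℂ) * a) ^ (1 / 2 : ℂ) * (1 / ((t : ℂ) / a) ^ (1 / 2 : ℂ)) = 1 / (t : ℂ) := by
  have h1 := HC.H02_const (a := t * a) (b := t / a) (by positivity) (by positivity)
    (z := 1) one_ne_zero
  have h2 : √(t * a * (t / a)) = t := by
    have h3 : t * a * (t / a) = t ^ 2 := by
      field_simp
    rw [h3, Real.sqrt_sq ht.le]
  rw [h2] at h1
  push_cast at h1
  simp only [mul_one] at h1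
  rw [div_mul_div_comm, one_mul, h1]

private theorem B1_step1 {a b c : ℝ} (ha : 0 < a) (hd : a * c - b ^ 2 = 1) {t : ℝ} (ht : 0 < t)
    (m : ℤ) :
    ∑' n : ℤ, ((Real.exp (-(π * t * B1_Q a b c (n, m))) : ℝ) : ℂ) =
      1 / ((t : ℂ) * a) ^ (1 / 2 : ℂ) * ∑' n : ℤ, cexp (-(π * n ^ 2 / (t * a)) +
        2 * π * I * n * b * m / a - π * t * m ^ 2 / a) := by
  have hac : (a : ℂ) ≠ 0 := by exact_mod_cast ha.ne'
  have htc : (t : ℂ) ≠ 0 := by exact_mod_cast ht.ne'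
  have hre : 0 < ((t : ℂ) * a).re := by
    rw [← Complex.ofReal_mul, Complex.ofReal_re]
    positivity
  have h := Complex.tsum_exp_neg_quadratic hre (-(t * b * m))
  have e1 : ∀ n : ℤ, ((Real.exp (-(π * t * B1_Q a b c (n, m))) : ℝ) : ℂ) =
      cexp (-(π * t * c * m ^ 2)) *
        cexp (-π * ((t : ℂ) * a) * n ^ 2 + 2 * π * (-(t * b * m)) * n) := by
    intro n
    rw [B1_ofReal, ← Complex.exp_add]
    congr 1
    unfold B1_Q
    push_cast
    ring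
  rw [tsum_congr e1, tsum_mul_left, h, ← mul_assoc,
    mul_comm (cexp _) (1 / ((t : ℂ) * a) ^ (1 / 2 : ℂ)), mul_assoc, ← tsum_mul_left]
  congr 1
  refine tsum_congr fun n => ?_
  rw [← Complex.exp_add]
  congr 1
  have hdc : (a : ℂ) * c - b ^ 2 = 1 := by exact_mod_cast hd
  have hI : I ^ 2 = -1 := Complex.I_sq
  field_simp
  ring_nf
  simp only [hI]
  linear_combination (-(t : ℂ) ^ 2 * (m : ℂ) ^ 2) * hdc

private theorem B1_step2 {a b c : ℝ} (ha : 0 < a) (hd : a * c - b ^ 2 = 1) {t : ℝ} (ht : 0 < t)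
    (n : ℤ) :
    ∑' m : ℤ, cexp (-(π * n ^ 2 / (t * a)) + 2 * π * I * n * b * m / a - π * t * m ^ 2 / a) =
      1 / ((t : ℂ) / a) ^ (1 / 2 : ℂ) *
        ∑' k : ℤ, ((Real.exp (-(π * (1 / t) * B1_Q a b c (k, -n))) : ℝ) : ℂ) := by
  have hac : (a : ℂ) ≠ 0 := by exact_mod_cast ha.ne'
  have htc : (t : ℂ) ≠ 0 := by exact_mod_cast ht.ne'
  have hre : 0 < ((t : ℂ) / a).re := by
    rw [← Complex.ofReal_div, Complex.ofReal_re]
    positivity
  have h := Complex.tsum_exp_neg_quadratic hre (I * n * b / a)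
  have e1 : ∀ m : ℤ, cexp (-(π * n ^ 2 / (t * a)) + 2 * π * I * n * b * m / a -
        π * t * m ^ 2 / a) = cexp (-(π * n ^ 2 / (t * a))) *
        cexp (-π * ((t : ℂ) / a) * m ^ 2 + 2 * π * (I * n * b / a) * m) := by
    intro m
    rw [← Complex.exp_add]
    congr 1
    ring
  rw [tsum_congr e1, tsum_mul_left, h, ← mul_assoc,
    mul_comm (cexp _) (1 / ((t : ℂ) / a) ^ (1 / 2 : ℂ)), mul_assoc, ← tsum_mul_left]
  congr 1
  refine tsum_congr fun k => ?_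
  rw [B1_ofReal, ← Complex.exp_add]
  congr 1
  unfold B1_Q
  push_cast
  have hdc : (a : ℂ) * c - b ^ 2 = 1 := by exact_mod_cast hd
  have hI : I ^ 2 = -1 := Complex.I_sq
  have hII : I * (I * n * b / a) = -(n * b / a : ℂ) := by
    linear_combination ((n : ℂ) * b / a) * hI
  rw [hII]
  field_simp
  linear_combination ((n : ℂ) ^ 2) * hdc

/-- Row B1. Theta inversion for a real positive definite binary form of determinant 1.
Proof. Poisson summation in each variable, see HC/H02.lean (H02_step1, H02_step2, H02_class: the same computation for integral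
forms); Mathlib: Complex.tsum_exp_neg_quadratic / Real.tsum_exp_neg_mul_int_sq, jacobiTheta2 functional equation. Write
a x^2 + 2 b x y + c y^2 = a (x + b y/a)^2 + y^2/a. Sum over x by Poisson (factor 1/√(a t), dual variable n, phase
exp(2 pi i n b y/a)), then over y: -π t y²/a + 2 pi i n b y/a, Poisson again, factor √(a/t): get
(1/t) Σ_{n,k} exp(-π n²/(a t)) exp(-π a (k - n b/a)²/t) = (1/t) Σ exp(-(π/t)(n²/a + a k² - 2 n k b + n² b²/a)), and
(1 + b²)/a = c, so the exponent is c n² - 2 b n k + a k², substitute (n,k) -> (-y,x)... -/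
theorem theta_gen {a b c : ℝ} (ha : 0 < a) (hd : a * c - b ^ 2 = 1) {t : ℝ} (ht : 0 < t) :
    Summable (fun v : ℤ × ℤ => Real.exp (-(π * t * (a * (v.1 : ℝ) ^ 2 + 2 * b * v.1 * v.2 + c * (v.2 : ℝ) ^ 2)))) ∧
    ∑' v : ℤ × ℤ, Real.exp (-(π * (1 / t) * (a * (v.1 : ℝ) ^ 2 + 2 * b * v.1 * v.2 + c * (v.2 : ℝ) ^ 2))) =
      t * ∑' v : ℤ × ℤ, Real.exp (-(π * t * (a * (v.1 : ℝ) ^ 2 + 2 * b * v.1 * v.2 + c * (v.2 : ℝ) ^ 2))) := by
  have hac : (a : ℂ) ≠ 0 := by exact_mod_cast ha.ne'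
  have htc : (t : ℂ) ≠ 0 := by exact_mod_cast ht.ne'
  have hS := B1_sum ha hd (s := π * t) (by positivity)
  have hS' := B1_sum ha hd (s := π * (1 / t)) (by positivity)
  refine ⟨hS, ?_⟩
  show ∑' v : ℤ × ℤ, Real.exp (-(π * (1 / t) * B1_Q a b c v)) =
    t * ∑' v : ℤ × ℤ, Real.exp (-(π * t * B1_Q a b c v))
  let hh : ℤ → ℤ → ℂ := fun m n => cexp (-(π * n ^ 2 / (t * a)) + 2 * π * I * n * b * m / a -
    π * t * m ^ 2 / a)
  have hS2 : Summable (Function.uncurry hh) := by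
    refine Summable.of_norm ?_
    have hs0 : 0 < min (π * t / a) (π / (t * a)) := lt_min (by positivity) (by positivity)
    refine Summable.of_nonneg_of_le (fun _ => norm_nonneg _) (fun v => ?_) (B1_two hs0)
    obtain ⟨m, n⟩ := v
    simp only [Function.uncurry_apply_pair, hh]
    rw [Complex.norm_exp]
    apply Real.exp_le_exp.2
    have e1 : (-(π * n ^ 2 / (t * a)) + 2 * π * I * n * b * m / a - π * t * m ^ 2 / a : ℂ) =
        ((-(π * n ^ 2 / (t * a)) - π * t * m ^ 2 / a : ℝ) : ℂ) +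
          ((2 * π * n * b * m / a : ℝ) : ℂ) * I := by
      push_cast
      ring
    rw [e1, Complex.add_re, Complex.ofReal_re, Complex.re_ofReal_mul, Complex.I_re, mul_zero,
      add_zero]
    have h5 : min (π * t / a) (π / (t * a)) * (m : ℝ) ^ 2 ≤ π * t / a * (m : ℝ) ^ 2 :=
      mul_le_mul_of_nonneg_right (min_le_left _ _) (sq_nonneg _)
    have h6 : min (π * t / a) (π / (t * a)) * (n : ℝ) ^ 2 ≤ π / (t * a) * (n : ℝ) ^ 2 :=
      mul_le_mul_of_nonneg_right (min_le_right _ _) (sq_nonneg _)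
    have h7 : π * t * (m : ℝ) ^ 2 / a = π * t / a * (m : ℝ) ^ 2 := by ring
    have h8 : π * (n : ℝ) ^ 2 / (t * a) = π / (t * a) * (n : ℝ) ^ 2 := by ring
    rw [h7, h8]
    linarith
  -- the complex versions of the two sums
  have hG : Summable (fun v : ℤ × ℤ => ((Real.exp (-(π * t * B1_Q a b c v)) : ℝ) : ℂ)) :=
    Complex.summable_ofReal.mpr hS
  have hG' : Summable (fun v : ℤ × ℤ => ((Real.exp (-(π * (1 / t) * B1_Q a b c v)) : ℝ) : ℂ)) :=
    Complex.summable_ofReal.mpr hS'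
  have hGs : Summable (fun v : ℤ × ℤ =>
      ((Real.exp (-(π * t * B1_Q a b c (v.2, v.1))) : ℝ) : ℂ)) :=
    (Equiv.prodComm ℤ ℤ).summable_iff.mpr hG
  let e : ℤ × ℤ ≃ ℤ × ℤ := (Equiv.prodComm ℤ ℤ).trans ((Equiv.refl ℤ).prodCongr (Equiv.neg ℤ))
  have he : ∀ v : ℤ × ℤ, e v = (v.2, -v.1) := fun v => rfl
  have hGe : Summable (fun v : ℤ × ℤ =>
      ((Real.exp (-(π * (1 / t) * B1_Q a b c (v.2, -v.1))) : ℝ) : ℂ)) :=
    e.summable_iff.mpr hG'
  have h1 : ∑' v : ℤ × ℤ, ((Real.exp (-(π * t * B1_Q a b c v)) : ℝ) : ℂ) =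
      1 / (t : ℂ) * ∑' v : ℤ × ℤ, ((Real.exp (-(π * (1 / t) * B1_Q a b c v)) : ℝ) : ℂ) := by
    have hswap : ∑' v : ℤ × ℤ, ((Real.exp (-(π * t * B1_Q a b c v)) : ℝ) : ℂ) =
        ∑' v : ℤ × ℤ, ((Real.exp (-(π * t * B1_Q a b c (v.2, v.1))) : ℝ) : ℂ) := by
      rw [← (Equiv.prodComm ℤ ℤ).tsum_eq]
      rfl
    have hswap' : ∑' v : ℤ × ℤ, ((Real.exp (-(π * (1 / t) * B1_Q a b c v)) : ℝ) : ℂ) =
        ∑' v : ℤ × ℤ, ((Real.exp (-(π * (1 / t) * B1_Q a b c (v.2, -v.1))) : ℝ) : ℂ) := by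
      rw [← e.tsum_eq]
      rfl
    rw [hswap, hGs.tsum_prod, hswap', hGe.tsum_prod]
    have e2 : ∀ m : ℤ, ∑' n : ℤ, ((Real.exp (-(π * t * B1_Q a b c ((m, n).2, (m, n).1))) : ℝ) : ℂ) =
        1 / ((t : ℂ) * a) ^ (1 / 2 : ℂ) * ∑' n : ℤ, hh m n := fun m => B1_step1 ha hd ht m
    have e3 : ∀ n : ℤ, ∑' m : ℤ, hh m n = 1 / ((t : ℂ) / a) ^ (1 / 2 : ℂ) *
        ∑' k : ℤ, ((Real.exp (-(π * (1 / t) * B1_Q a b c ((n, k).2, -(n, k).1))) : ℝ) : ℂ) :=
      fun n => B1_step2 ha hd ht n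
    rw [tsum_congr e2, tsum_mul_left, ← hS2.tsum_comm, tsum_congr e3, tsum_mul_left, ← mul_assoc,
      B1_const ha ht]
  rw [← Complex.ofReal_tsum, ← Complex.ofReal_tsum] at h1
  have h2 : ∑' v : ℤ × ℤ, Real.exp (-(π * t * B1_Q a b c v)) =
      1 / t * ∑' v : ℤ × ℤ, Real.exp (-(π * (1 / t) * B1_Q a b c v)) := by
    exact_mod_cast h1
  rw [h2, ← mul_assoc, mul_one_div_cancel ht.ne', one_mul]

end NR
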