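import Pool.Agent.Lib.MP_0f5a55_nt.NR.QD
import Pool.Agent.Lib.MP_0f5a55_nt.NR.B1

open Complex MeasureTheory Set Filter Topology
open scoped Real ComplexConjugate NumberField

namespace NR

open HC

theorem B2_Q (P : Pr) (N : ℕ) (w : ℝ) (v : ℤ × ℤ) : P.Q N w v =
    ((Real.exp w * P.p1 ^ 2 + Real.exp (-w) * P.p2 ^ 2) / √N) * (v.1 : ℝ) ^ 2 +
      2 * ((Real.exp w * (P.p1 * P.q1) + Real.exp (-w) * (P.p2 * P.q2)) / √N) * v.1 * v.2 +
      ((Real.exp w * P.q1 ^ 2 + Real.exp (-w) * P.q2 ^ 2) / √N) * (v.2 : ℝ) ^ 2 := by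
  unfold Pr.Q Pr.l1 Pr.l2
  ring

theorem B2_det {P : Pr} {N : ℕ} {l : ℝ} {F : Fm} {τ : (ℤ × ℤ) ≃ (ℤ × ℤ)} (h : P.Ok N l F τ) (w : ℝ) :
    ((Real.exp w * P.p1 ^ 2 + Real.exp (-w) * P.p2 ^ 2) / √N) *
      ((Real.exp w * P.q1 ^ 2 + Real.exp (-w) * P.q2 ^ 2) / √N) -
      ((Real.exp w * (P.p1 * P.q1) + Real.exp (-w) * (P.p2 * P.q2)) / √N) ^ 2 = 1 := by
  have hN : (0 : ℝ) < N := by exact_mod_cast h.N0
  have hs : √(N : ℝ) ^ 2 = N := Real.sq_sqrt hN.le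
  have hs0 : √(N : ℝ) ≠ 0 := (Real.sqrt_pos.2 hN).ne'
  have he : Real.exp w * Real.exp (-w) = 1 := by
    rw [← Real.exp_add, add_neg_cancel, Real.exp_zero]
  have h1 : ((Real.exp w * P.p1 ^ 2 + Real.exp (-w) * P.p2 ^ 2) / √N) *
      ((Real.exp w * P.q1 ^ 2 + Real.exp (-w) * P.q2 ^ 2) / √N) -
      ((Real.exp w * (P.p1 * P.q1) + Real.exp (-w) * (P.p2 * P.q2)) / √N) ^ 2 =
      (Real.exp w * Real.exp (-w)) * (P.p1 * P.q2 - P.p2 * P.q1) ^ 2 / √(N : ℝ) ^ 2 := by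
    field_simp
    ring
  rw [h1, he, hs, h.det, one_mul, div_self hN.ne']

theorem B2_pos {P : Pr} {N : ℕ} {l : ℝ} {F : Fm} {τ : (ℤ × ℤ) ≃ (ℤ × ℤ)} (h : P.Ok N l F τ) (w : ℝ) :
    0 < (Real.exp w * P.p1 ^ 2 + Real.exp (-w) * P.p2 ^ 2) / √(N : ℝ) := by
  have hN : (0 : ℝ) < N := by exact_mod_cast h.N0
  apply div_pos _ (Real.sqrt_pos.2 hN)
  have e1 := Real.exp_pos w
  have e2 := Real.exp_pos (-w)
  by_cases hp : P.p1 = 0
  · have hq : P.p2 ≠ 0 := by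
      intro hq
      have := h.det
      rw [hp, hq] at this
      simp at this
      linarith
    have : 0 < P.p2 ^ 2 := by positivity
    rw [hp]
    have h3 := mul_pos e2 this
    linarith
  · have : 0 < P.p1 ^ 2 := by positivity
    have h3 := mul_pos e1 this
    have h4 : 0 ≤ Real.exp (-w) * P.p2 ^ 2 := by positivity
    linarith

/-- Row B2. The theta functions of the forms Q_w. Q_w has the matrix (a b; b c) with
a = (e^w p1² + e^{-w} p2²)/√N, b = (e^w p1 q1 + e^{-w} p2 q2)/√N, c = (e^w q1² + e^{-w} q2²)/√N and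
a c - b² = (p1 q2 - p2 q1)²/N = 1 (Ok.det); a > 0 because p1 = p2 = 0 contradicts Ok.det. -/
theorem th_inv {P : Pr} {N : ℕ} {l : ℝ} {F : Fm} {τ : (ℤ × ℤ) ≃ (ℤ × ℤ)} (h : P.Ok N l F τ) (w : ℝ) {t : ℝ}
    (ht : 0 < t) : Summable (fun v : ℤ × ℤ => Real.exp (-(π * t * P.Q N w v))) ∧
      P.th N w (1 / t) = t * P.th N w t := by
  obtain ⟨h1, h2⟩ := theta_gen (B2_pos h w) (B2_det h w) ht
  simp only [← B2_Q] at h1 h2
  exact ⟨h1, h2⟩

/-- uniform lower bound on compact sets of parameters (a continuous positive function: c = 1/(a + c) works since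
Q(v) ≥ |v|² det/trace) -/
theorem Q_low {P : Pr} {N : ℕ} {l : ℝ} {F : Fm} {τ : (ℤ × ℤ) ≃ (ℤ × ℤ)} (h : P.Ok N l F τ) (A : ℝ) :
    ∃ c : ℝ, 0 < c ∧ ∀ w : ℝ, |w| ≤ A → ∀ v : ℤ × ℤ, c * ((v.1 : ℝ) ^ 2 + (v.2 : ℝ) ^ 2) ≤ P.Q N w v := by
  have hN : (0 : ℝ) < N := by exact_mod_cast h.N0
  have hs0 : 0 < √(N : ℝ) := Real.sqrt_pos.2 hN
  set T : ℝ := Real.exp A * (P.p1 ^ 2 + P.p2 ^ 2 + P.q1 ^ 2 + P.q2 ^ 2) / √(N : ℝ) with hT
  have htr : ∀ w : ℝ, |w| ≤ A → (Real.exp w * P.p1 ^ 2 + Real.exp (-w) * P.p2 ^ 2) / √(N : ℝ) +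
      (Real.exp w * P.q1 ^ 2 + Real.exp (-w) * P.q2 ^ 2) / √(N : ℝ) ≤ T := by
    intro w hw
    have e1 : Real.exp w ≤ Real.exp A := Real.exp_le_exp.2 ((le_abs_self w).trans hw)
    have e2 : Real.exp (-w) ≤ Real.exp A := Real.exp_le_exp.2 ((neg_le_abs w).trans hw)
    rw [← add_div, hT]
    apply div_le_div_of_nonneg_right _ hs0.le
    have f1 := mul_le_mul_of_nonneg_right e1 (sq_nonneg P.p1)
    have f2 := mul_le_mul_of_nonneg_right e2 (sq_nonneg P.p2)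
    have f3 := mul_le_mul_of_nonneg_right e1 (sq_nonneg P.q1)
    have f4 := mul_le_mul_of_nonneg_right e2 (sq_nonneg P.q2)
    linarith
  have hA0 : ∀ w : ℝ, |w| ≤ A → 0 < (Real.exp w * P.p1 ^ 2 + Real.exp (-w) * P.p2 ^ 2) / √(N : ℝ) +
      (Real.exp w * P.q1 ^ 2 + Real.exp (-w) * P.q2 ^ 2) / √(N : ℝ) := by
    intro w _
    have h1 := B2_pos h w
    have h2 : 0 ≤ (Real.exp w * P.q1 ^ 2 + Real.exp (-w) * P.q2 ^ 2) / √(N : ℝ) := by positivity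
    linarith
  by_cases hA : 0 ≤ A
  · have hTp : 0 < T := (hA0 0 (by simpa using hA)).trans_le (htr 0 (by simpa using hA))
    refine ⟨1 / T, by positivity, fun w hw v => ?_⟩
    have h1 := htr w hw
    have h2 := hA0 w hw
    rw [B2_Q]
    have hd := B2_det h w
    set a : ℝ := (Real.exp w * P.p1 ^ 2 + Real.exp (-w) * P.p2 ^ 2) / √(N : ℝ) with ha
    set b : ℝ := (Real.exp w * (P.p1 * P.q1) + Real.exp (-w) * (P.p2 * P.q2)) / √(N : ℝ) with hb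
    set c : ℝ := (Real.exp w * P.q1 ^ 2 + Real.exp (-w) * P.q2 ^ 2) / √(N : ℝ) with hc
    set x : ℝ := (v.1 : ℝ) with hx
    set y : ℝ := (v.2 : ℝ) with hy
    have hS : 0 ≤ x ^ 2 + y ^ 2 := by positivity
    calc 1 / T * (x ^ 2 + y ^ 2) ≤ 1 / (a + c) * (x ^ 2 + y ^ 2) := by
          apply mul_le_mul_of_nonneg_right _ hS
          exact one_div_le_one_div_of_le h2 h1
      _ ≤ a * x ^ 2 + 2 * b * x * y + c * y ^ 2 := by
          rw [one_div_mul_eq_div, div_le_iff₀ h2]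
          have e : (a * x ^ 2 + 2 * b * x * y + c * y ^ 2) * (a + c) - (a * c - b ^ 2) * (x ^ 2 + y ^ 2) =
              (a * x + b * y) ^ 2 + (b * x + c * y) ^ 2 := by ring
          rw [hd, one_mul] at e
          have := sq_nonneg (a * x + b * y)
          have := sq_nonneg (b * x + c * y)
          linarith
  · refine ⟨1, one_pos, fun w hw => ?_⟩
    exact absurd ((abs_nonneg w).trans hw) hA

end NR
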