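import Pool.Agent.Lib.MP_0f5a55_nt.NR.QD

open Complex MeasureTheory Set Filter Topology
open scoped Real ComplexConjugate NumberField

namespace NR

open HC

private theorem B3_cosh (w : ℝ) : 1 + w ^ 2 / 2 ≤ Real.cosh w := by
  have h1 : Real.cosh w = 1 + 2 * Real.sinh (w / 2) ^ 2 := by
    have h2 := Real.cosh_two_mul (w / 2)
    have h3 := Real.cosh_sq (w / 2)
    rw [show 2 * (w / 2) = w by ring] at h2
    linarith
  have h4 : (w / 2) ^ 2 ≤ Real.sinh (w / 2) ^ 2 := by
    rw [← sq_abs (w / 2), ← sq_abs (Real.sinh (w / 2)), Real.abs_sinh]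
    have h5 : |w / 2| ≤ Real.sinh |w / 2| := Real.self_le_sinh_iff.2 (abs_nonneg _)
    have h6 : 0 ≤ |w / 2| := abs_nonneg _
    gcongr
  rw [h1]
  nlinarith

private theorem B3_bound {x : ℝ} (hx : 0 < x) (w : ℝ) :
    Real.exp (-(x * Real.cosh w)) ≤ Real.exp (-x) * Real.exp (-(x / 2) * w ^ 2) := by
  rw [← Real.exp_add]
  apply Real.exp_le_exp.2
  have h := mul_le_mul_of_nonneg_left (B3_cosh w) hx.le
  linarith

private theorem B3_int2 {x : ℝ} (hx : 0 < x) :
    Integrable (fun w : ℝ => Real.exp (-x) * Real.exp (-(x / 2) * w ^ 2)) :=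
  (integrable_exp_neg_mul_sq (by positivity)).const_mul _

private theorem B3_meas (x : ℝ) : Continuous (fun w : ℝ => Real.exp (-(x * Real.cosh w))) := by
  have := Real.continuous_cosh
  fun_prop

/-- Row B3. The Bessel function KK x = ∫ exp(-x cosh w) dw. -/
theorem KK_int {x : ℝ} (hx : 0 < x) : Integrable (fun w : ℝ => Real.exp (-(x * Real.cosh w))) := by
  refine (B3_int2 hx).mono' (B3_meas x).aestronglyMeasurable (Eventually.of_forall fun w => ?_)
  rw [Real.norm_eq_abs, abs_of_pos (Real.exp_pos _)]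
  exact B3_bound hx w

theorem KK_nonneg (x : ℝ) : 0 ≤ KK x :=
  integral_nonneg fun _ => (Real.exp_pos _).le

/-- from cosh w ≥ 1 + w²/2 and the Gauss integral -/
theorem KK_le {x : ℝ} (hx : 0 < x) : KK x ≤ √(2 * π / x) * Real.exp (-x) := by
  have h1 : KK x ≤ ∫ w : ℝ, Real.exp (-x) * Real.exp (-(x / 2) * w ^ 2) :=
    integral_mono (KK_int hx) (B3_int2 hx) fun w => B3_bound hx w
  rw [integral_const_mul, integral_gaussian] at h1
  have h2 : π / (x / 2) = 2 * π / x := by field_simp
  rw [h2, mul_comm] at h1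
  exact h1

theorem KK_cont : ContinuousOn KK (Ioi 0) := by
  intro x0 hx0
  have hx0' : 0 < x0 := hx0
  refine ContinuousAt.continuousWithinAt ?_
  unfold KK
  refine continuousAt_of_dominated (bound := fun w => Real.exp (-((x0 / 2) * Real.cosh w)))
    (Eventually.of_forall fun x => (B3_meas x).aestronglyMeasurable) ?_ (KK_int (by positivity)) ?_
  · have h1 : ∀ᶠ x in 𝓝 x0, x0 / 2 < x := lt_mem_nhds (by linarith)
    filter_upwards [h1] with x hx
    refine Eventually.of_forall fun w => ?_
    rw [Real.norm_eq_abs, abs_of_pos (Real.exp_pos _)]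
    apply Real.exp_le_exp.2
    have h2 := Real.cosh_pos w
    nlinarith
  · refine Eventually.of_forall fun w => ?_
    have h1 : Continuous fun x : ℝ => Real.exp (-(x * Real.cosh w)) := by fun_prop
    exact h1.continuousAt

end NR
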