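import Pool.Agent.Lib.MP_0f5a55_nt.NR.B3

open Complex MeasureTheory Set Filter Topology
open scoped Real ComplexConjugate NumberField

namespace NR

open HC

/-- the logistic function of `2 w` -/
noncomputable def B3b_sg (w : ℝ) : ℝ := Real.exp w / (2 * Real.cosh w)

theorem B3b_sg_pos (w : ℝ) : 0 < B3b_sg w := by
  unfold B3b_sg
  have := Real.cosh_pos w
  positivity

theorem B3b_one_sub (w : ℝ) : 1 - B3b_sg w = Real.exp (-w) / (2 * Real.cosh w) := by
  unfold B3b_sg
  have h := Real.cosh_pos w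
  rw [eq_div_iff (by positivity), sub_mul, div_mul_cancel₀ _ (by positivity), Real.cosh_eq]
  ring

theorem B3b_one_sub_pos (w : ℝ) : 0 < 1 - B3b_sg w := by
  rw [B3b_one_sub]
  have := Real.cosh_pos w
  positivity

theorem B3b_deriv (w : ℝ) : HasDerivAt B3b_sg (1 / (2 * Real.cosh w ^ 2)) w := by
  have hc := Real.cosh_pos w
  have h1 : HasDerivAt (fun w => Real.exp w / (2 * Real.cosh w))
      ((Real.exp w * (2 * Real.cosh w) - Real.exp w * (2 * Real.sinh w)) /
        (2 * Real.cosh w) ^ 2) w :=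
    (Real.hasDerivAt_exp w).div ((Real.hasDerivAt_cosh w).const_mul 2) (by positivity)
  have h3 : Real.exp w * (2 * Real.cosh w) - Real.exp w * (2 * Real.sinh w) = 2 := by
    calc _ = 2 * (Real.exp w * (Real.cosh w - Real.sinh w)) := by ring
      _ = 2 := by rw [Real.cosh_sub_sinh, ← Real.exp_add, add_neg_cancel, Real.exp_zero, mul_one]
  have h2 : (2 : ℝ) / (2 * Real.cosh w) ^ 2 = 1 / (2 * Real.cosh w ^ 2) := by
    field_simp
    try ring
  rw [h3, h2] at h1
  exact h1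

theorem B3b_image : B3b_sg '' univ = Ioo 0 1 := by
  ext x
  constructor
  · rintro ⟨w, -, rfl⟩
    exact ⟨B3b_sg_pos w, by linarith [B3b_one_sub_pos w]⟩
  · rintro ⟨h0, h1⟩
    refine ⟨Real.log (x / (1 - x)) / 2, mem_univ _, ?_⟩
    obtain ⟨w, hw⟩ : ∃ w, w = Real.log (x / (1 - x)) / 2 := ⟨_, rfl⟩
    rw [← hw]
    have h1x : 0 < 1 - x := by linarith
    have hy : 0 < x / (1 - x) := div_pos h0 h1x
    have h3 : Real.exp w * Real.exp w = x / (1 - x) := by
      rw [← Real.exp_add, hw, add_halves, Real.exp_log hy]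
    have h4 : (1 - x) * (Real.exp w * Real.exp w) = x := by
      rw [h3, mul_div_cancel₀ _ h1x.ne']
    have h6 : Real.exp w * Real.exp (-w) = 1 := by
      rw [← Real.exp_add, add_neg_cancel, Real.exp_zero]
    have h5 : (1 - x) * Real.exp w = x * Real.exp (-w) := by
      linear_combination Real.exp (-w) * h4 - (1 - x) * Real.exp w * h6
    unfold B3b_sg
    have hc := Real.cosh_pos w
    rw [div_eq_iff (by positivity), Real.cosh_eq]
    linear_combination h5

theorem B3b_inj : InjOn B3b_sg univ := by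
  have h : StrictMono B3b_sg := by
    apply strictMono_of_deriv_pos
    intro w
    rw [(B3b_deriv w).deriv]
    have := Real.cosh_pos w
    positivity
  exact h.injective.injOn

theorem B3b_cpow {x : ℝ} (hx : 0 < x) (z : ℂ) :
    (x : ℂ) ^ z = cexp (((Real.log x : ℝ) : ℂ) * z) := by
  rw [Complex.cpow_def_of_ne_zero (ofReal_ne_zero.2 hx.ne'), Complex.ofReal_log hx.le]

theorem B3b_integrand (s : ℂ) (w : ℝ) : |1 / (2 * Real.cosh w ^ 2)| •
    (((B3b_sg w : ℝ) : ℂ) ^ (s / 2 - 1) * (1 - ((B3b_sg w : ℝ) : ℂ)) ^ (s / 2 - 1)) =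
      2 * cexp (-((Real.log (2 * Real.cosh w) : ℝ) : ℂ) * s) := by
  have hc := Real.cosh_pos w
  have hy : 0 < 2 * Real.cosh w := by positivity
  have h1 : (1 : ℂ) - ((B3b_sg w : ℝ) : ℂ) = ((1 - B3b_sg w : ℝ) : ℂ) := by push_cast; rfl
  rw [h1, B3b_cpow (B3b_sg_pos w), B3b_cpow (B3b_one_sub_pos w), ← Complex.exp_add]
  have l1 : Real.log (B3b_sg w) = w - Real.log (2 * Real.cosh w) := by
    unfold B3b_sg
    rw [Real.log_div (Real.exp_pos w).ne' hy.ne', Real.log_exp]
  have l2 : Real.log (1 - B3b_sg w) = -w - Real.log (2 * Real.cosh w) := by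
    rw [B3b_one_sub, Real.log_div (Real.exp_pos _).ne' hy.ne', Real.log_exp]
  have l3 : |1 / (2 * Real.cosh w ^ 2)| = 2 * Real.exp (-(2 * Real.log (2 * Real.cosh w))) := by
    rw [abs_of_pos (by positivity)]
    have e : -(2 * Real.log (2 * Real.cosh w)) =
        -(Real.log (2 * Real.cosh w) + Real.log (2 * Real.cosh w)) := by ring
    rw [e, Real.exp_neg, Real.exp_add, Real.exp_log hy]
    field_simp
    try ring
  rw [l1, l2, l3, Complex.real_smul, Complex.ofReal_mul, Complex.ofReal_exp, mul_assoc,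
    ← Complex.exp_add]
  congr 2
  push_cast
  ring

theorem B3b_beta (s : ℂ) : betaIntegral (s / 2) (s / 2) =
    2 * ∫ w : ℝ, cexp (-((Real.log (2 * Real.cosh w) : ℝ) : ℂ) * s) := by
  rw [betaIntegral, intervalIntegral.integral_of_le zero_le_one, integral_Ioc_eq_integral_Ioo,
    ← B3b_image, integral_image_eq_integral_abs_deriv_smul MeasurableSet.univ
      (fun w _ => (B3b_deriv w).hasDerivWithinAt) B3b_inj, Measure.restrict_univ,
    ← integral_const_mul]
  congr 1
  funext w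
  exact B3b_integrand s w

theorem B3b_integrable {s : ℂ} (hs : 0 < s.re) :
    Integrable (fun w : ℝ => cexp (-((Real.log (2 * Real.cosh w) : ℝ) : ℂ) * s)) := by
  have hs2 : 0 < (s / 2).re := by
    have : (s / 2).re = s.re / 2 := by
      rw [show (2 : ℂ) = ((2 : ℝ) : ℂ) by norm_num, Complex.div_ofReal_re]
    rw [this]; linarith
  have h := betaIntegral_convergent hs2 hs2
  rw [intervalIntegrable_iff_integrableOn_Ioo_of_le zero_le_one, ← B3b_image,
    integrableOn_image_iff_integrableOn_abs_deriv_smul MeasurableSet.univ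
      (fun w _ => (B3b_deriv w).hasDerivWithinAt) B3b_inj, integrableOn_univ] at h
  have h2 : Integrable (fun w : ℝ => 2 * cexp (-((Real.log (2 * Real.cosh w) : ℝ) : ℂ) * s)) :=
    h.congr (Filter.Eventually.of_forall fun w => B3b_integrand s w)
  have h3 := h2.const_mul (1 / 2 : ℂ)
  refine h3.congr (Filter.Eventually.of_forall fun w => ?_)
  simp only
  ring

theorem B3b_pow (s : ℂ) (w : ℝ) : (1 / ((Real.cosh w : ℝ) : ℂ)) ^ s =
    2 ^ s * cexp (-((Real.log (2 * Real.cosh w) : ℝ) : ℂ) * s) := by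
  have hc := Real.cosh_pos w
  have h1 : (1 : ℂ) / ((Real.cosh w : ℝ) : ℂ) = ((1 / Real.cosh w : ℝ) : ℂ) := by push_cast; rfl
  have h2 : (2 : ℂ) ^ s = ((2 : ℝ) : ℂ) ^ s := by norm_num
  rw [h1, h2, B3b_cpow (by positivity), B3b_cpow (by norm_num), ← Complex.exp_add,
    Real.log_mul (by norm_num) hc.ne', one_div, Real.log_inv]
  congr 1
  push_cast
  ring

theorem B3b_rpow (σ : ℝ) (w : ℝ) : (1 / Real.cosh w) ^ σ =
    2 ^ σ * Real.exp (-(Real.log (2 * Real.cosh w)) * σ) := by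
  have hc := Real.cosh_pos w
  rw [Real.rpow_def_of_pos (by positivity), Real.rpow_def_of_pos (by norm_num), ← Real.exp_add,
    Real.log_mul (by norm_num) hc.ne', one_div, Real.log_inv]
  congr 1
  ring

theorem B3b_norm (s : ℂ) (w : ℝ) {x : ℝ} (hx : x ∈ Ioi (0 : ℝ)) :
    ‖(x : ℂ) ^ (s - 1) * cexp (-(((Real.cosh w : ℝ) : ℂ) * x))‖ =
      x ^ (s.re - 1) * Real.exp (-(Real.cosh w * x)) := by
  rw [norm_mul, Complex.norm_cpow_eq_rpow_re_of_pos hx, Complex.norm_exp, ← Complex.ofReal_mul,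
    ← Complex.ofReal_neg, Complex.ofReal_re, Complex.sub_re, Complex.one_re]

theorem B3b_real {σ : ℝ} (hσ : 0 < σ) (w : ℝ) :
    IntegrableOn (fun x : ℝ => x ^ (σ - 1) * Real.exp (-(Real.cosh w * x))) (Ioi 0) := by
  have hc := Real.cosh_pos w
  have hI := Real.integral_rpow_mul_exp_neg_mul_Ioi hσ hc
  by_contra h
  rw [integral_undef h] at hI
  have h1 : 0 < Real.Gamma σ := Real.Gamma_pos_of_pos hσ
  have h2 : 0 < (1 / Real.cosh w) ^ σ * Real.Gamma σ := by positivity
  linarith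

theorem B3b_F_meas (s : ℂ) : Measurable (fun p : ℝ × ℝ =>
    (p.1 : ℂ) ^ (s - 1) * cexp (-(((Real.cosh p.2 : ℝ) : ℂ) * p.1))) := by
  have h1 : Measurable (fun p : ℝ × ℝ => (p.1 : ℂ)) :=
    Complex.measurable_ofReal.comp measurable_fst
  have h2 : Measurable (fun p : ℝ × ℝ => ((Real.cosh p.2 : ℝ) : ℂ)) :=
    Complex.measurable_ofReal.comp (Real.continuous_cosh.measurable.comp measurable_snd)
  exact (h1.pow_const _).mul (Complex.measurable_exp.comp (h2.mul h1).neg)

theorem B3b_F_int {s : ℂ} (hs : 0 < s.re) : Integrable (fun p : ℝ × ℝ =>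
    (p.1 : ℂ) ^ (s - 1) * cexp (-(((Real.cosh p.2 : ℝ) : ℂ) * p.1)))
      ((volume.restrict (Ioi (0 : ℝ))).prod volume) := by
  rw [integrable_prod_iff' (B3b_F_meas s).aestronglyMeasurable]
  refine ⟨Filter.Eventually.of_forall fun w => ?_, ?_⟩
  · refine Integrable.mono' (B3b_real hs w)
      ((B3b_F_meas s).comp (measurable_id.prodMk measurable_const)).aestronglyMeasurable ?_
    exact ae_restrict_of_forall_mem measurableSet_Ioi fun x hx => (B3b_norm s w hx).le
  · have h1 : ∀ w : ℝ, ∫ x in Ioi (0 : ℝ), ‖(x : ℂ) ^ (s - 1) *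
        cexp (-(((Real.cosh w : ℝ) : ℂ) * x))‖ =
        (2 ^ s.re * Real.Gamma s.re) * ‖cexp (-((Real.log (2 * Real.cosh w) : ℝ) : ℂ) * s)‖ := by
      intro w
      rw [setIntegral_congr_fun measurableSet_Ioi fun x hx => B3b_norm s w hx,
        Real.integral_rpow_mul_exp_neg_mul_Ioi hs (Real.cosh_pos w), B3b_rpow, Complex.norm_exp,
        ← Complex.ofReal_neg, Complex.re_ofReal_mul]
      ring
    refine ((B3b_integrable hs).norm.const_mul (2 ^ s.re * Real.Gamma s.re)).congr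
      (Filter.Eventually.of_forall fun w => (h1 w).symm)

/-- Row B3b. Mellin transform of KK. Proof. Tonelli: ∫_0^∞ x^{s-1} KK(x) dx = ∫_ℝ ∫_0^∞ x^{s-1} e^{-x cosh w} dx dw =
Γ(s) ∫_ℝ (cosh w)^{-s} dw, and ∫_ℝ (cosh w)^{-s} dw = 2^s ∫_0^∞ y^{s-1} (1+y²)^{-s} dy (y = e^w) = 2^{s-1} B(s/2, s/2)
= 2^{s-1} Γ(s/2)²/Γ(s) (Complex.betaIntegral, Gamma_mul_Gamma_eq_betaIntegral). Or: Γ(s/2)² = ∬ e^{-(a+b)} (ab)^{s/2-1} da db with
a = (x/2) e^w, b = (x/2) e^{-w}, da db = (x/2) dx dw. Convergence for Re s > 1/2 from KK_le. -/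
theorem KK_mellin {s : ℂ} (hs : 1 / 2 < s.re) : MellinConvergent (fun x : ℝ => ((KK x : ℝ) : ℂ)) s ∧
    mellin (fun x : ℝ => ((KK x : ℝ) : ℂ)) s = 2 ^ (s - 1) * Gamma (s / 2) ^ 2 := by
  have hs0 : 0 < s.re := by linarith
  have hF := B3b_F_int hs0
  have hin : ∀ x : ℝ, ∫ w : ℝ, (x : ℂ) ^ (s - 1) * cexp (-(((Real.cosh w : ℝ) : ℂ) * x)) =
      (x : ℂ) ^ (s - 1) • ((KK x : ℝ) : ℂ) := by
    intro x
    unfold KK
    rw [smul_eq_mul, ← integral_complex_ofReal, ← integral_const_mul]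
    congr 1
    funext w
    rw [Complex.ofReal_exp]
    congr 2
    push_cast
    ring
  constructor
  · have h := hF.integral_prod_left
    simp only [hin] at h
    exact h
  · have hs2 : 0 < (s / 2).re := by
      have : (s / 2).re = s.re / 2 := by
        rw [show (2 : ℂ) = ((2 : ℝ) : ℂ) by norm_num, Complex.div_ofReal_re]
      rw [this]; linarith
    unfold mellin
    rw [← setIntegral_congr_fun measurableSet_Ioi fun x _ => hin x,
      integral_integral_swap hF]
    have h2 : ∀ w : ℝ, ∫ x in Ioi (0 : ℝ), (x : ℂ) ^ (s - 1) *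
        cexp (-(((Real.cosh w : ℝ) : ℂ) * x)) =
        (2 ^ s * Gamma s) * cexp (-((Real.log (2 * Real.cosh w) : ℝ) : ℂ) * s) := by
      intro w
      rw [Complex.integral_cpow_mul_exp_neg_mul_Ioi hs0 (Real.cosh_pos w), B3b_pow]
      ring
    simp only [h2]
    rw [integral_const_mul]
    have h3 := Gamma_mul_Gamma_eq_betaIntegral hs2 hs2
    rw [add_halves, B3b_beta] at h3
    have h4 : (2 : ℂ) ^ s = 2 ^ (s - 1) * 2 := by
      rw [Complex.cpow_sub _ _ two_ne_zero, Complex.cpow_one, div_mul_cancel₀ _ two_ne_zero]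
    rw [h4, pow_two, h3]
    ring

end NR
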