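import Pool.Agent.Lib.MP_0f5a55_nt.NR.QD
import Pool.Agent.Lib.MP_0f5a55_nt.NR.B3

open Complex MeasureTheory Set Filter Topology
open scoped Real ComplexConjugate NumberField

namespace NR

open HC

theorem B4_quad {A B : ℝ} (hA : A ≠ 0) (hB : B ≠ 0) (w : ℝ) :
    Real.exp w * A ^ 2 + Real.exp (-w) * B ^ 2 = 2 * |A * B| * Real.cosh (w + Real.log (|A| / |B|)) := by
  have ha : 0 < |A| := abs_pos.mpr hA
  have hb : 0 < |B| := abs_pos.mpr hB
  rw [Real.cosh_eq, neg_add, Real.exp_add, Real.exp_add, Real.exp_neg (Real.log _), Real.exp_log (div_pos ha hb),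
    abs_mul, ← sq_abs A, ← sq_abs B]
  field_simp

/-- Row B4. e^w A² + e^{-w} B² = 2 |A B| cosh(w + log|A/B|), translation invariance. -/
theorem KK_quad {A B t : ℝ} (hA : A ≠ 0) (hB : B ≠ 0) (ht : 0 < t) {N : ℕ} (hN : 0 < N) :
    Integrable (fun w : ℝ => Real.exp (-(π * t * ((Real.exp w * A ^ 2 + Real.exp (-w) * B ^ 2) / √N)))) ∧
    ∫ w : ℝ, Real.exp (-(π * t * ((Real.exp w * A ^ 2 + Real.exp (-w) * B ^ 2) / √N))) =
      KK (2 * π * t * |A * B| / √N) := by
  have hAB : 0 < |A * B| := abs_pos.mpr (mul_ne_zero hA hB)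
  have hs : 0 < √(N : ℝ) := Real.sqrt_pos.mpr (by exact_mod_cast hN)
  have hx : 0 < 2 * π * t * |A * B| / √(N : ℝ) := by positivity
  have e : (fun w : ℝ => Real.exp (-(π * t * ((Real.exp w * A ^ 2 + Real.exp (-w) * B ^ 2) / √(N : ℝ))))) =
      fun w : ℝ => (fun y : ℝ => Real.exp (-(2 * π * t * |A * B| / √(N : ℝ) * Real.cosh y)))
        (w + Real.log (|A| / |B|)) := by
    funext w
    simp only
    rw [B4_quad hA hB w]
    congr 2
    ring
  constructor
  · rw [e]
    exact (KK_int hx).comp_add_right _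
  · rw [e, KK]
    exact integral_add_right_eq_self (μ := volume) (fun y : ℝ => Real.exp (-(2 * π * t * |A * B| / √(N : ℝ) * Real.cosh y))) _

end NR
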