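import Pool.Agent.Lib.MP_0f5a55_nt.NR.QD

open Complex MeasureTheory Set Filter Topology
open scoped Real ComplexConjugate NumberField

namespace NR

open HC

theorem B5_zpow (τ : Equiv.Perm (ℤ × ℤ)) (g : ℤ × ℤ → ℝ) (c : ℝ) (hc : c ≠ 0)
    (h : ∀ v, g (τ v) = c * g v) (k : ℤ) (v : ℤ × ℤ) : g ((τ ^ k) v) = c ^ k * g v := by
  induction k using Int.induction_on with
  | zero => simp
  | succ n ih =>
    rw [add_comm, zpow_one_add, Equiv.Perm.mul_apply, h, ih, zpow_one_add₀ hc]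
    ring
  | pred n ih =>
    have h1 : (τ ^ (-(n : ℤ))) v = τ ((τ ^ (-(n : ℤ) - 1)) v) := by
      rw [← Equiv.Perm.mul_apply, ← zpow_one_add]
      congr 2
      ring
    rw [h1, h] at ih
    rw [zpow_sub_one₀ hc]
    field_simp
    linarith

theorem B5_exp (l : ℝ) (k : ℤ) : Real.exp l ^ k = Real.exp (k * l) := by
  rw [mul_comm, Real.exp_mul, Real.rpow_intCast]

/-- Row B5. Orbits of the automorph. -/
theorem zpow_forms {P : Pr} {N : ℕ} {l : ℝ} {F : Fm} {τ : (ℤ × ℤ) ≃ (ℤ × ℤ)} (h : P.Ok N l F τ) (k : ℤ) (v : ℤ × ℤ) :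
    P.l1 (((τ : Equiv.Perm (ℤ × ℤ)) ^ k) v) = Real.exp (k * l) * P.l1 v ∧
    P.l2 (((τ : Equiv.Perm (ℤ × ℤ)) ^ k) v) = Real.exp (-(k * l)) * P.l2 v ∧
    F.val (((τ : Equiv.Perm (ℤ × ℤ)) ^ k) v) = F.val v := by
  have h1 : P.l1 (((τ : Equiv.Perm (ℤ × ℤ)) ^ k) v) = Real.exp (k * l) * P.l1 v := by
    rw [B5_zpow τ P.l1 (Real.exp l) (Real.exp_ne_zero _) h.t1 k v, B5_exp]
  have h2 : P.l2 (((τ : Equiv.Perm (ℤ × ℤ)) ^ k) v) = Real.exp (-(k * l)) * P.l2 v := by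
    rw [B5_zpow τ P.l2 (Real.exp (-l)) (Real.exp_ne_zero _) h.t2 k v, B5_exp, mul_neg]
  refine ⟨h1, h2, ?_⟩
  have h3 := h.val (((τ : Equiv.Perm (ℤ × ℤ)) ^ k) v)
  rw [h1, h2] at h3
  have h4 : Real.exp (k * l) * Real.exp (-(k * l)) = 1 := by
    rw [← Real.exp_add, add_neg_cancel, Real.exp_zero]
  have h5 : Real.exp (k * l) * P.l1 v * (Real.exp (-(k * l)) * P.l2 v) = P.l1 v * P.l2 v := by
    calc _ = (Real.exp (k * l) * Real.exp (-(k * l))) * (P.l1 v * P.l2 v) := by ring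
      _ = _ := by rw [h4, one_mul]
  rw [h5, h.val v] at h3
  exact_mod_cast h3.symm

theorem l_ne {P : Pr} {N : ℕ} {l : ℝ} {F : Fm} {τ : (ℤ × ℤ) ≃ (ℤ × ℤ)} (h : P.Ok N l F τ) {v : ℤ × ℤ} (hv : v ≠ 0) :
    P.l1 v ≠ 0 ∧ P.l2 v ≠ 0 ∧ F.val v ≠ 0 := by
  have h1 : F.val v ≠ 0 := fun h0 => hv (h.ne v h0)
  have h2 : P.l1 v * P.l2 v ≠ 0 := by
    rw [h.val v]
    exact_mod_cast h1
  exact ⟨left_ne_zero_of_mul h2, right_ne_zero_of_mul h2, h1⟩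

/-- the ratio |l1/l2| is multiplied by exp(2l) -/
theorem orbit {P : Pr} {N : ℕ} {l : ℝ} {F : Fm} {τ : (ℤ × ℤ) ≃ (ℤ × ℤ)} (h : P.Ok N l F τ) {v : ℤ × ℤ} (hv : v ≠ 0) :
    ∃! k : ℤ, ((τ : Equiv.Perm (ℤ × ℤ)) ^ k) v ∈ P.Dom l := by
  obtain ⟨n1, n2, _⟩ := l_ne h hv
  have p1 : 0 < |P.l1 v| := abs_pos.2 n1
  have p2 : 0 < |P.l2 v| := abs_pos.2 n2
  have key : ∀ k : ℤ, ((τ : Equiv.Perm (ℤ × ℤ)) ^ k) v ∈ P.Dom l ↔
      (Real.log |P.l1 v| - Real.log |P.l2 v|) + k • (2 * l) ∈ Set.Ico (0 : ℝ) (0 + 2 * l) := by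
    intro k
    obtain ⟨e1, e2, _⟩ := zpow_forms h k v
    have a1 : |P.l1 (((τ : Equiv.Perm (ℤ × ℤ)) ^ k) v)| = Real.exp (k * l + Real.log |P.l1 v|) := by
      rw [e1, abs_mul, Real.abs_exp, Real.exp_add, Real.exp_log p1]
    have a2 : |P.l2 (((τ : Equiv.Perm (ℤ × ℤ)) ^ k) v)| = Real.exp (-(k * l) + Real.log |P.l2 v|) := by
      rw [e2, abs_mul, Real.abs_exp, Real.exp_add, Real.exp_log p2]
    have nz : ((τ : Equiv.Perm (ℤ × ℤ)) ^ k) v ≠ 0 := by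
      intro h0
      have : P.l1 (((τ : Equiv.Perm (ℤ × ℤ)) ^ k) v) = 0 := by rw [h0]; simp [Pr.l1]
      rw [this, abs_zero] at a1
      exact absurd a1.symm (Real.exp_pos _).ne'
    rw [Pr.Dom, Set.mem_ofPred_eq, a1, a2, Real.exp_le_exp, ← Real.exp_add, Real.exp_lt_exp, Set.mem_Ico,
      zsmul_eq_mul]
    constructor
    · rintro ⟨_, h1, h2⟩
      constructor <;> linarith
    · rintro ⟨h1, h2⟩
      exact ⟨nz, by linarith, by linarith⟩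
  have hl : (0 : ℝ) < 2 * l := by have := h.l0; linarith
  have h3 := existsUnique_add_zsmul_mem_Ico hl (Real.log |P.l1 v| - Real.log |P.l2 v|) 0
  obtain ⟨k, hk, hu⟩ := h3
  exact ⟨k, (key k).2 hk, fun j hj => hu j ((key j).1 hj)⟩

/-- in the domain |l1|² ≤ exp(2l) |F|, |l2|² ≤ |F|; a bounded set of the plane contains finitely many lattice points (the two
linear forms are independent by Ok.det) -/
theorem dom_fin {P : Pr} {N : ℕ} {l : ℝ} {F : Fm} {τ : (ℤ × ℤ) ≃ (ℤ × ℤ)} (h : P.Ok N l F τ) (n : ℕ) :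
    {v : ℤ × ℤ | v ∈ P.Dom l ∧ (F.val v).natAbs ≤ n}.Finite := by
  have hN : (0 : ℝ) < N := by exact_mod_cast h.N0
  have hD : P.p1 * P.q2 - P.p2 * P.q1 ≠ 0 := by
    intro h0
    have := h.det
    rw [h0] at this
    norm_num at this
    rw [← this] at hN
    exact lt_irrefl _ hN
  set D := P.p1 * P.q2 - P.p2 * P.q1 with hDdef
  set B : ℝ := Real.exp (2 * l) * n + 1 with hB
  have hB1 : 1 ≤ B := by
    have : 0 ≤ Real.exp (2 * l) * n := by positivity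
    linarith
  have hE : 1 ≤ Real.exp (2 * l) := by
    rw [← Real.exp_zero, Real.exp_le_exp]
    have := h.l0
    linarith
  set C : ℝ := (|P.p1| + |P.p2| + |P.q1| + |P.q2|) * B / |D| with hC
  have hbd : ∀ v : ℤ × ℤ, v ∈ P.Dom l → (F.val v).natAbs ≤ n → |(v.1 : ℝ)| ≤ C ∧ |(v.2 : ℝ)| ≤ C := by
    intro v hv hn
    obtain ⟨_, h1, h2⟩ := hv
    have hF : |P.l1 v| * |P.l2 v| ≤ n := by
      rw [← abs_mul, h.val v, ← Int.cast_abs, ← Nat.cast_natAbs]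
      exact_mod_cast hn
    have a1 : 0 ≤ |P.l1 v| := abs_nonneg _
    have a2 : 0 ≤ |P.l2 v| := abs_nonneg _
    have s1 : |P.l1 v| ^ 2 ≤ Real.exp (2 * l) * n := by
      calc |P.l1 v| ^ 2 = |P.l1 v| * |P.l1 v| := by ring
        _ ≤ |P.l1 v| * (Real.exp (2 * l) * |P.l2 v|) := mul_le_mul_of_nonneg_left h2.le a1
        _ = Real.exp (2 * l) * (|P.l1 v| * |P.l2 v|) := by ring
        _ ≤ _ := mul_le_mul_of_nonneg_left hF (Real.exp_pos _).le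
    have b1 : |P.l1 v| ≤ B := by
      by_contra hcon
      rw [not_le] at hcon
      nlinarith
    have b2 : |P.l2 v| ≤ B := h1.trans b1
    have x1 : D * (v.1 : ℝ) = P.q2 * P.l1 v - P.q1 * P.l2 v := by
      rw [hDdef, Pr.l1, Pr.l2]; ring
    have x2 : D * (v.2 : ℝ) = P.p1 * P.l2 v - P.p2 * P.l1 v := by
      rw [hDdef, Pr.l1, Pr.l2]; ring
    have hDp : 0 < |D| := abs_pos.2 hD
    have y1 : |D| * |(v.1 : ℝ)| ≤ (|P.p1| + |P.p2| + |P.q1| + |P.q2|) * B := by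
      rw [← abs_mul, x1]
      have t1 : |P.q2 * P.l1 v - P.q1 * P.l2 v| ≤ |P.q2| * |P.l1 v| + |P.q1| * |P.l2 v| := by
        rw [← abs_mul, ← abs_mul]; exact abs_sub _ _
      have t2 := mul_le_mul_of_nonneg_left b1 (abs_nonneg P.q2)
      have t3 := mul_le_mul_of_nonneg_left b2 (abs_nonneg P.q1)
      have t4 : 0 ≤ (|P.p1| + |P.p2|) * B := by positivity
      nlinarith
    have y2 : |D| * |(v.2 : ℝ)| ≤ (|P.p1| + |P.p2| + |P.q1| + |P.q2|) * B := by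
      rw [← abs_mul, x2]
      have t1 : |P.p1 * P.l2 v - P.p2 * P.l1 v| ≤ |P.p1| * |P.l2 v| + |P.p2| * |P.l1 v| := by
        rw [← abs_mul, ← abs_mul]; exact abs_sub _ _
      have t2 := mul_le_mul_of_nonneg_left b2 (abs_nonneg P.p1)
      have t3 := mul_le_mul_of_nonneg_left b1 (abs_nonneg P.p2)
      have t4 : 0 ≤ (|P.q1| + |P.q2|) * B := by positivity
      nlinarith
    rw [hC, le_div_iff₀ hDp, le_div_iff₀ hDp]
    constructor <;> linarith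
  refine ((Set.finite_Icc (-⌈C⌉) ⌈C⌉).prod (Set.finite_Icc (-⌈C⌉) ⌈C⌉)).subset ?_
  rintro v ⟨hv, hn⟩
  obtain ⟨c1, c2⟩ := hbd v hv hn
  have hc : C ≤ (⌈C⌉ : ℝ) := Int.le_ceil C
  rw [abs_le] at c1 c2
  rw [Set.mem_prod, Set.mem_Icc, Set.mem_Icc]
  refine ⟨⟨?_, ?_⟩, ⟨?_, ?_⟩⟩
  · have : (-(⌈C⌉ : ℝ)) ≤ (v.1 : ℝ) := by linarith [c1.1]
    exact_mod_cast this
  · have : (v.1 : ℝ) ≤ (⌈C⌉ : ℝ) := by linarith [c1.2]
    exact_mod_cast this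
  · have : (-(⌈C⌉ : ℝ)) ≤ (v.2 : ℝ) := by linarith [c2.1]
    exact_mod_cast this
  · have : (v.2 : ℝ) ≤ (⌈C⌉ : ℝ) := by linarith [c2.2]
    exact_mod_cast this

end NR
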