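import Pool.Agent.Lib.MP_0f5a55_nt.NR.B2
import Pool.Agent.Lib.MP_0f5a55_nt.NR.B4
import Pool.Agent.Lib.MP_0f5a55_nt.NR.B5

open Complex MeasureTheory Set Filter Topology
open scoped Real ComplexConjugate NumberField

namespace NR

open HC

/-- the term of the theta function -/
noncomputable def B6_g (P : Pr) (N : ℕ) (t w : ℝ) (v : ℤ × ℤ) : ℝ := Real.exp (-(π * t * P.Q N w v))

theorem B6_cont (P : Pr) (N : ℕ) (t : ℝ) (v : ℤ × ℤ) : Continuous (fun w : ℝ => B6_g P N t w v) := by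
  unfold B6_g Pr.Q
  fun_prop

theorem B6_pos (P : Pr) (N : ℕ) (t w : ℝ) (v : ℤ × ℤ) : 0 < B6_g P N t w v := Real.exp_pos _

theorem B6_zero (P : Pr) (N : ℕ) (t w : ℝ) : B6_g P N t w 0 = 1 := by
  unfold B6_g Pr.Q Pr.l1 Pr.l2
  simp

theorem B6_shift {P : Pr} {N : ℕ} {l : ℝ} {F : Fm} {τ : (ℤ × ℤ) ≃ (ℤ × ℤ)} (h : P.Ok N l F τ) (t w : ℝ) (k : ℤ)
    (u : ℤ × ℤ) : B6_g P N t w (((τ : Equiv.Perm (ℤ × ℤ)) ^ k) u) = B6_g P N t (w + k * (2 * l)) u := by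
  obtain ⟨h1, h2, _⟩ := zpow_forms h k u
  unfold B6_g Pr.Q
  rw [h1, h2]
  congr 4
  have e1 : Real.exp (w + k * (2 * l)) = Real.exp w * Real.exp (k * l) ^ 2 := by
    rw [← Real.exp_nat_mul, ← Real.exp_add]
    congr 1
    push_cast
    ring
  have e2 : Real.exp (-(w + k * (2 * l))) = Real.exp (-w) * Real.exp (-(k * l)) ^ 2 := by
    rw [← Real.exp_nat_mul, ← Real.exp_add]
    congr 1
    push_cast
    ring
  rw [e1, e2]
  ring

theorem B6_congr {ι : Type} {f g : ι → ℝ} {a : ℝ} (hg : HasSum g a) (h : ∀ i, f i = g i) : HasSum f a := by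
  have : f = g := funext h
  rw [this]
  exact hg

/-- the sum over all the vectors -/
theorem B6_total {P : Pr} {N : ℕ} {l : ℝ} {F : Fm} {τ : (ℤ × ℤ) ≃ (ℤ × ℤ)} (h : P.Ok N l F τ) {t : ℝ} (ht : 0 < t) :
    HasSum (fun v : ℤ × ℤ => ∫ w in Ioc (0 : ℝ) (2 * l), B6_g P N t w v) (∫ w in Ioc (0 : ℝ) (2 * l), P.th N w t) := by
  have hl := h.l0
  obtain ⟨c, hc, hQ⟩ := Q_low h (2 * l)
  have hbd : ∀ v : ℤ × ℤ, ∀ w ∈ Ioc (0 : ℝ) (2 * l), B6_g P N t w v ≤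
      Real.exp (-(π * (t * c) * (1 * (v.1 : ℝ) ^ 2 + 2 * 0 * v.1 * v.2 + 1 * (v.2 : ℝ) ^ 2))) := by
    intro v w hw
    unfold B6_g
    rw [Real.exp_le_exp, neg_le_neg_iff]
    have h1 : |w| ≤ 2 * l := abs_le.mpr ⟨by linarith [hw.1], hw.2⟩
    have h2 := hQ w h1 v
    have h3 : π * (t * c) * (1 * (v.1 : ℝ) ^ 2 + 2 * 0 * v.1 * v.2 + 1 * (v.2 : ℝ) ^ 2) =
        π * t * (c * ((v.1 : ℝ) ^ 2 + (v.2 : ℝ) ^ 2)) := by ring
    rw [h3]
    exact mul_le_mul_of_nonneg_left h2 (mul_pos Real.pi_pos ht).le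
  have hint : ∀ v : ℤ × ℤ, IntegrableOn (fun w => B6_g P N t w v) (Ioc (0 : ℝ) (2 * l)) := fun v =>
    ((B6_cont P N t v).integrableOn_Icc).mono_set Ioc_subset_Icc_self
  have hsum := (theta_gen (a := 1) (b := 0) (c := 1) one_pos (by norm_num) (t := t * c) (mul_pos ht hc)).1
  have hsum2 := hsum.mul_left (2 * l)
  refine hasSum_integral_of_summable_integral_norm (F := fun (v : ℤ × ℤ) (w : ℝ) => B6_g P N t w v) hint ?_
  refine Summable.of_nonneg_of_le (fun v => integral_nonneg fun w => norm_nonneg _) (fun v => ?_) hsum2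
  have h4 : ∫ w in Ioc (0 : ℝ) (2 * l), ‖B6_g P N t w v‖ ≤ ∫ w in Ioc (0 : ℝ) (2 * l),
      Real.exp (-(π * (t * c) * (1 * (v.1 : ℝ) ^ 2 + 2 * 0 * v.1 * v.2 + 1 * (v.2 : ℝ) ^ 2))) := by
    refine setIntegral_mono_on (hint v).norm ?_ measurableSet_Ioc ?_
    · exact integrableOn_const (by rw [Real.volume_Ioc]; exact ENNReal.ofReal_ne_top)
    · intro w hw
      rw [Real.norm_of_nonneg (B6_pos P N t w v).le]
      exact hbd v w hw
  refine h4.trans (le_of_eq ?_)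
  rw [setIntegral_const, smul_eq_mul, Measure.real, Real.volume_Ioc, ENNReal.toReal_ofReal (by linarith), sub_zero]

/-- the sum over one orbit -/
theorem B6_orb {P : Pr} {N : ℕ} {l : ℝ} {F : Fm} {τ : (ℤ × ℤ) ≃ (ℤ × ℤ)} (h : P.Ok N l F τ) {t : ℝ} (ht : 0 < t)
    {u : ℤ × ℤ} (hu : u ≠ 0) :
    HasSum (fun k : ℤ => ∫ w in Ioc (0 : ℝ) (2 * l), B6_g P N t w (((τ : Equiv.Perm (ℤ × ℤ)) ^ k) u))
      (KK (2 * π * t * ((F.val u).natAbs : ℝ) / √N)) := by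
  obtain ⟨hA, hB, _⟩ := l_ne h hu
  obtain ⟨hi, hK⟩ := KK_quad hA hB ht h.N0
  have hp : (0 : ℝ) < 2 * l := by linarith [h.l0]
  have h1 : ∀ w : ℝ, Real.exp (-(π * t * ((Real.exp w * P.l1 u ^ 2 + Real.exp (-w) * P.l2 u ^ 2) / √N))) =
      B6_g P N t w u := fun w => rfl
  simp only [h1] at hi hK
  have h2 := hasSum_integral_iUnion (μ := volume) (f := fun w => B6_g P N t w u)
    (s := fun k : ℤ => Ioc (k • (2 * l)) ((k + 1) • (2 * l))) (fun k => measurableSet_Ioc)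
    (by simpa only [zero_add] using pairwise_disjoint_Ioc_add_zsmul (0 : ℝ) (2 * l)) hi.integrableOn
  rw [iUnion_Ioc_zsmul hp, setIntegral_univ, hK] at h2
  have h3 : |P.l1 u * P.l2 u| = ((F.val u).natAbs : ℝ) := by
    rw [h.val u, ← Int.cast_abs, Int.abs_eq_natAbs, Int.cast_natCast]
  rw [h3] at h2
  refine B6_congr h2 fun k => ?_
  have h4 : ∀ w : ℝ, B6_g P N t w (((τ : Equiv.Perm (ℤ × ℤ)) ^ k) u) = B6_g P N t (w + k * (2 * l)) u := fun w =>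
    B6_shift h t w k u
  simp only [h4]
  rw [← intervalIntegral.integral_of_le hp.le]
  rw [intervalIntegral.integral_comp_add_right (fun w => B6_g P N t w u) ((k : ℝ) * (2 * l))]
  have h5 : (0 : ℝ) + k * (2 * l) = k • (2 * l) := by rw [zsmul_eq_mul, zero_add]
  have h6 : 2 * l + k * (2 * l) = (k + 1) • (2 * l) := by rw [zsmul_eq_mul]; push_cast; ring
  rw [h5, h6, intervalIntegral.integral_of_le]
  rw [← h5, ← h6]
  linarith

open scoped Classical in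
/-- nonzero vectors and orbits -/
theorem B6_equiv {P : Pr} {N : ℕ} {l : ℝ} {F : Fm} {τ : (ℤ × ℤ) ≃ (ℤ × ℤ)} (h : P.Ok N l F τ) :
    ∃ e : (P.Dom l) × ℤ ≃ {v : ℤ × ℤ | v ≠ 0}, ∀ x, ((e x : {v : ℤ × ℤ | v ≠ 0}) : ℤ × ℤ) =
      ((τ : Equiv.Perm (ℤ × ℤ)) ^ x.2) (x.1 : ℤ × ℤ) := by
  have hz : ∀ k : ℤ, ∀ v : ℤ × ℤ, v ≠ 0 → ((τ : Equiv.Perm (ℤ × ℤ)) ^ k) v ≠ 0 := by
    intro k v hv h0
    have h1 := (zpow_forms h k v).1
    have h2 := (l_ne h hv).1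
    have h3 : P.l1 (((τ : Equiv.Perm (ℤ × ℤ)) ^ k) v) = 0 := by
      rw [h0]
      simp [Pr.l1]
    rw [h3] at h1
    exact mul_ne_zero (Real.exp_ne_zero _) h2 h1.symm
  refine ⟨Equiv.ofBijective (fun x => ⟨((τ : Equiv.Perm (ℤ × ℤ)) ^ x.2) (x.1 : ℤ × ℤ), hz _ _ x.1.2.1⟩) ⟨?_, ?_⟩,
    fun x => rfl⟩
  · rintro ⟨u, k⟩ ⟨u', k'⟩ hx
    have h1 : ((τ : Equiv.Perm (ℤ × ℤ)) ^ k) (u : ℤ × ℤ) = ((τ : Equiv.Perm (ℤ × ℤ)) ^ k') (u' : ℤ × ℤ) :=
      congrArg Subtype.val hx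
    have hv : ((τ : Equiv.Perm (ℤ × ℤ)) ^ k) (u : ℤ × ℤ) ≠ 0 := hz _ _ u.2.1
    obtain ⟨j, _, hj⟩ := orbit h hv
    have e1 : ((τ : Equiv.Perm (ℤ × ℤ)) ^ (-k)) (((τ : Equiv.Perm (ℤ × ℤ)) ^ k) (u : ℤ × ℤ)) = u := by
      rw [← Equiv.Perm.mul_apply, ← zpow_add, neg_add_cancel, zpow_zero]
      rfl
    have e2 : ((τ : Equiv.Perm (ℤ × ℤ)) ^ (-k')) (((τ : Equiv.Perm (ℤ × ℤ)) ^ k) (u : ℤ × ℤ)) = u' := by
      rw [h1, ← Equiv.Perm.mul_apply, ← zpow_add, neg_add_cancel, zpow_zero]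
      rfl
    have h2 : -k = j := hj (-k) (by change _ ∈ P.Dom l; rw [e1]; exact u.2)
    have h3 : -k' = j := hj (-k') (by change _ ∈ P.Dom l; rw [e2]; exact u'.2)
    have h4 : k = k' := by omega
    subst h4
    have h5 : u = u' := Subtype.ext (by rw [← e1, e2])
    rw [h5]
  · rintro ⟨v, hv⟩
    obtain ⟨k, hk, _⟩ := orbit h hv
    refine ⟨(⟨_, hk⟩, -k), Subtype.ext ?_⟩
    change ((τ : Equiv.Perm (ℤ × ℤ)) ^ (-k)) (((τ : Equiv.Perm (ℤ × ℤ)) ^ k) v) = v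
    rw [← Equiv.Perm.mul_apply, ← zpow_add, neg_add_cancel, zpow_zero]
    rfl

open scoped Classical in
/-- the sum over the nonzero vectors, grouped -/
theorem B6_sum {P : Pr} {N : ℕ} {l : ℝ} {F : Fm} {τ : (ℤ × ℤ) ≃ (ℤ × ℤ)} (h : P.Ok N l F τ) {t : ℝ} (ht : 0 < t) :
    HasSum (fun n : ℕ => (P.R l F (n + 1) : ℝ) * KK (2 * π * t * ((n : ℝ) + 1) / √N))
      ((∫ w in Ioc (0 : ℝ) (2 * l), P.th N w t) - 2 * l) := by
  have hl := h.l0
  -- remove the vector zero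
  have h1 := hasSum_ite_sub_hasSum (B6_total h ht) (0 : ℤ × ℤ)
  have h0 : ∫ w in Ioc (0 : ℝ) (2 * l), B6_g P N t w 0 = 2 * l := by
    simp only [B6_zero]
    rw [setIntegral_const, smul_eq_mul, mul_one, Measure.real, Real.volume_Ioc, ENNReal.toReal_ofReal (by linarith),
      sub_zero]
  rw [h0] at h1
  have h2 : HasSum ((fun v : ℤ × ℤ => ∫ w in Ioc (0 : ℝ) (2 * l), B6_g P N t w v) ∘
      ((↑) : {v : ℤ × ℤ | v ≠ 0} → ℤ × ℤ)) ((∫ w in Ioc (0 : ℝ) (2 * l), P.th N w t) - 2 * l) := by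
    rw [hasSum_subtype_iff_indicator]
    refine B6_congr h1 fun v => ?_
    by_cases hv : v = 0
    · rw [if_pos hv, indicator_of_notMem]
      intro h'
      exact h' hv
    · rw [if_neg hv, indicator_of_mem]
      exact hv
  -- orbits
  obtain ⟨e, he⟩ := B6_equiv h
  have h3 := (Equiv.hasSum_iff e).mpr h2
  have h4 : HasSum (fun u : P.Dom l => KK (2 * π * t * ((F.val (u : ℤ × ℤ)).natAbs : ℝ) / √N))
      ((∫ w in Ioc (0 : ℝ) (2 * l), P.th N w t) - 2 * l) := by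
    refine HasSum.prod_fiberwise h3 fun u => ?_
    refine B6_congr (B6_orb h ht u.2.1) fun k => ?_
    rw [Function.comp_apply, Function.comp_apply, he]
  -- values
  have h5 := (Equiv.hasSum_iff (Equiv.sigmaFiberEquiv (fun u : P.Dom l => (F.val (u : ℤ × ℤ)).natAbs - 1))).mpr h4
  refine HasSum.sigma h5 fun n => ?_
  have hval : ∀ u : P.Dom l, 1 ≤ (F.val (u : ℤ × ℤ)).natAbs := by
    intro u
    have := (l_ne h u.2.1).2.2
    omega
  have hfin : Finite {u : P.Dom l // (F.val (u : ℤ × ℤ)).natAbs - 1 = n} := by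
    have hf := dom_fin h (n + 1)
    have hf' : Finite {v : ℤ × ℤ | v ∈ P.Dom l ∧ (F.val v).natAbs ≤ n + 1} := hf
    refine Finite.of_injective (β := {v : ℤ × ℤ | v ∈ P.Dom l ∧ (F.val v).natAbs ≤ n + 1})
      (fun u => ⟨(u.1 : ℤ × ℤ), u.1.2, ?_⟩) ?_
    · have := u.2
      have := hval u.1
      omega
    · intro u u' huu
      exact Subtype.ext (Subtype.ext (congrArg (fun z : {v : ℤ × ℤ | v ∈ P.Dom l ∧ (F.val v).natAbs ≤ n + 1} => (z : ℤ × ℤ)) huu))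
  have : Fintype {u : P.Dom l // (F.val (u : ℤ × ℤ)).natAbs - 1 = n} := Fintype.ofFinite _
  have hcard : Fintype.card {u : P.Dom l // (F.val (u : ℤ × ℤ)).natAbs - 1 = n} = P.R l F (n + 1) := by
    unfold Pr.R
    rw [← Nat.card_eq_fintype_card, ← Nat.card_coe_set_eq]
    refine Nat.card_congr
      { toFun := fun u => ⟨(u.1 : ℤ × ℤ), u.1.2, ?_⟩
        invFun := fun v => ⟨⟨(v : ℤ × ℤ), v.2.1⟩, ?_⟩
        left_inv := fun u => rfl
        right_inv := fun v => rfl }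
    · have := u.2
      have := hval u.1
      omega
    · have h6 := v.2.2
      simp only [h6]
      omega
  have h7 := hasSum_fintype (fun c : {u : P.Dom l // (F.val (u : ℤ × ℤ)).natAbs - 1 = n} =>
    KK (2 * π * t * ((n : ℝ) + 1) / √N))
  rw [Finset.sum_const, Finset.card_univ, hcard, nsmul_eq_mul] at h7
  refine B6_congr h7 fun c => ?_
  have h8 : ((F.val ((c.1 : P.Dom l) : ℤ × ℤ)).natAbs : ℝ) = (n : ℝ) + 1 := by
    have h9 := c.2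
    have h10 := hval c.1
    have h11 : (F.val ((c.1 : P.Dom l) : ℤ × ℤ)).natAbs = n + 1 := by omega
    rw [h11]
    push_cast
    ring
  change KK (2 * π * t * ((F.val ((c.1 : P.Dom l) : ℤ × ℤ)).natAbs : ℝ) / √N) = _
  rw [h8]

/-- Row B6. Unfolding. Proof. All terms are nonnegative. ∫_0^{2l} Σ_v = Σ_v ∫_0^{2l} (Tonelli, B2.Q_low gives a summable majorant). The
term v = 0 gives 2l. The others: by B5.orbit (v) <-> (k, u) with u in the domain, v = τ^k u, and Q_w(τ^k u) = Q_{w+2kl}(u), so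
Σ_k ∫_0^{2l} exp(-πt Q_{w+2kl}(u)) dw = ∫_ℝ exp(-πt Q_w(u)) dw = KK(2πt|F(u)|/√N) (B4.KK_quad). Group the u by n = |F(u)| ≥ 1
(finite fibres: B5.dom_fin). -/
theorem unfold_th {P : Pr} {N : ℕ} {l : ℝ} {F : Fm} {τ : (ℤ × ℤ) ≃ (ℤ × ℤ)} (h : P.Ok N l F τ) {t : ℝ} (ht : 0 < t) :
    Summable (fun n : ℕ => (P.R l F (n + 1) : ℝ) * KK (2 * π * t * ((n : ℝ) + 1) / √N)) ∧
    ∫ w in (0 : ℝ)..(2 * l), P.th N w t =
      2 * l + ∑' n : ℕ, (P.R l F (n + 1) : ℝ) * KK (2 * π * t * ((n : ℝ) + 1) / √N) := by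
  have hl := h.l0
  have h1 := B6_sum h ht
  refine ⟨h1.summable, ?_⟩
  rw [h1.tsum_eq, intervalIntegral.integral_of_le (by linarith)]
  ring

end NR
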