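import Mathlib

open Complex MeasureTheory Set Filter Topology
open scoped Real ComplexConjugate NumberField

namespace NR

/-- Row C1. Integers in a bounded interval (any kind: OrdConnected set). Proof. Let A = {n : ℤ | (n : ℝ) ∈ S}, S bounded and
OrdConnected (an interval). The union of [n, n+1), n ∈ A, is contained in S + [0,1) and conversely; so |A| ≤ |S| + 1, |S| ≤ |A| + 1.
(If A has min m and max M then |A| = M - m + 1 and [m, M] ⊆ S ⊆ (m-1, M+1).) -/
theorem int_count {S : Set ℝ} (hS : S.OrdConnected) {r : ℝ} (hr : ∀ x ∈ S, |x| ≤ r) :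
    {n : ℤ | (n : ℝ) ∈ S}.Finite ∧ |(({n : ℤ | (n : ℝ) ∈ S}.ncard : ℕ) : ℝ) - (volume S).toReal| ≤ 1 := by
  classical
  have hfin : {n : ℤ | (n : ℝ) ∈ S}.Finite := by
    apply (Set.finite_Icc (⌈-r⌉) ⌊r⌋).subset
    intro n hn
    have h := abs_le.1 (hr n hn)
    exact ⟨Int.ceil_le.2 h.1, Int.le_floor.2 h.2⟩
  refine ⟨hfin, ?_⟩
  have hle : ∀ a b : ℝ, a ≤ b → S ⊆ Icc a b → (volume S).toReal ≤ b - a := by
    intro a b hab h
    have h2 : volume S ≤ volume (Icc a b) := measure_mono h
    rw [Real.volume_Icc] at h2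
    exact ENNReal.toReal_le_of_le_ofReal (by linarith) h2
  by_cases hA : ({n : ℤ | (n : ℝ) ∈ S}).Nonempty
  · obtain ⟨m, hm, hmin⟩ := Set.exists_min_image _ (fun n : ℤ => n) hfin hA
    obtain ⟨M, hM, hmax⟩ := Set.exists_max_image _ (fun n : ℤ => n) hfin hA
    have hmM : m ≤ M := hmin M hM
    have hmM' : (m : ℝ) ≤ M := by exact_mod_cast hmM
    have hm' : (m : ℝ) ∈ S := hm
    have hM' : (M : ℝ) ∈ S := hM
    have hAI : {n : ℤ | (n : ℝ) ∈ S} = Set.Icc m M := by
      ext n
      constructor
      · intro hn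
        exact ⟨hmin n hn, hmax n hn⟩
      · intro hn
        exact hS.out hm' hM' ⟨by exact_mod_cast hn.1, by exact_mod_cast hn.2⟩
    have hcard : (({n : ℤ | (n : ℝ) ∈ S}.ncard : ℕ) : ℝ) = M - m + 1 := by
      rw [hAI, Set.ncard_eq_toFinset_card', Set.toFinset_Icc, Int.card_Icc]
      have h1 : (((M + 1 - m).toNat : ℕ) : ℤ) = M + 1 - m := Int.toNat_of_nonneg (by omega)
      have h2 : (((M + 1 - m).toNat : ℕ) : ℝ) = ((M + 1 - m : ℤ) : ℝ) := by
        rw [← h1]
        norm_cast
      rw [h2]
      push_cast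
      ring
    have hup : (volume S).toReal ≤ ((M : ℝ) + 1) - ((m : ℝ) - 1) := by
      apply hle _ _ (by linarith)
      intro y hy
      constructor
      · by_contra hc
        rw [not_le] at hc
        have h1 : (((m - 1 : ℤ)) : ℝ) ∈ S := hS.out hy hm' ⟨by push_cast; linarith, by push_cast; linarith⟩
        have h2 := hmin (m - 1) h1
        omega
      · by_contra hc
        rw [not_le] at hc
        have h1 : (((M + 1 : ℤ)) : ℝ) ∈ S := hS.out hM' hy ⟨by push_cast; linarith, by push_cast; linarith⟩
        have h2 := hmax (M + 1) h1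
        omega
    have hlow : (M : ℝ) - m ≤ (volume S).toReal := by
      have h1 : volume (Icc (m : ℝ) M) ≤ volume S := measure_mono (fun y hy => hS.out hm' hM' hy)
      have h2 : volume S ≠ ⊤ := by
        have h3 : volume S ≤ volume (Icc (-r) r) := measure_mono (fun y hy => abs_le.1 (hr y hy))
        rw [Real.volume_Icc] at h3
        exact ne_top_of_le_ne_top ENNReal.ofReal_ne_top h3
      have h3 := ENNReal.toReal_mono h2 h1
      rw [Real.volume_Icc, ENNReal.toReal_ofReal (by linarith)] at h3
      exact h3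
    rw [hcard, abs_le]
    constructor <;> linarith
  · rw [Set.not_nonempty_iff_eq_empty] at hA
    rw [hA, Set.ncard_empty]
    have h0 : 0 ≤ (volume S).toReal := ENNReal.toReal_nonneg
    have hup : (volume S).toReal ≤ 1 := by
      rcases Set.eq_empty_or_nonempty S with he | ⟨x, hx⟩
      · rw [he]
        simp
      · have hno : ∀ n : ℤ, (n : ℝ) ∉ S := by
          intro n hn
          have : n ∈ {n : ℤ | (n : ℝ) ∈ S} := hn
          rw [hA] at this
          exact this
        have h1 : S ⊆ Icc ((⌊x⌋ : ℤ) : ℝ) ((⌊x⌋ : ℤ) + 1) := by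
          intro y hy
          constructor
          · by_contra hc
            rw [not_le] at hc
            exact hno ⌊x⌋ (hS.out hy hx ⟨hc.le, Int.floor_le x⟩)
          · by_contra hc
            rw [not_le] at hc
            have h2 := (Int.lt_floor_add_one x).le
            refine hno (⌊x⌋ + 1) (hS.out hx hy ⟨?_, ?_⟩)
            · push_cast
              exact h2
            · push_cast
              exact hc.le
        have := hle _ _ (by linarith) h1
        linarith
    rw [Nat.cast_zero, abs_le]
    constructor <;> linarith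

end NR
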