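import Pool.Agent.Lib.MP_0f5a55_nt.NR.C1

open Complex MeasureTheory Set Filter Topology
open scoped Real ComplexConjugate NumberField

namespace NR

private theorem C2_mem_Y {r : ℝ} (y : ℤ) : y ∈ Finset.Icc (-⌊r⌋) ⌊r⌋ ↔ |(y : ℝ)| ≤ r := by
  rw [Finset.mem_Icc, abs_le, Int.le_floor, neg_le, Int.le_floor]
  push_cast
  constructor
  · rintro ⟨h1, h2⟩
    exact ⟨by linarith, h2⟩
  · rintro ⟨h1, h2⟩
    exact ⟨by linarith, h2⟩

private theorem C2_card_Y {r : ℝ} (h1 : 1 ≤ r) : ((Finset.Icc (-⌊r⌋) ⌊r⌋).card : ℝ) ≤ 2 * r + 1 := by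
  rw [Int.card_Icc]
  have h0 : (0 : ℤ) ≤ ⌊r⌋ := Int.floor_nonneg.2 (by linarith)
  have h2 : ((⌊r⌋ + 1 - -⌊r⌋).toNat : ℤ) = 2 * ⌊r⌋ + 1 := by
    rw [Int.toNat_of_nonneg (by omega)]
    ring
  have h3 : (((⌊r⌋ + 1 - -⌊r⌋).toNat : ℕ) : ℝ) = 2 * (⌊r⌋ : ℝ) + 1 := by exact_mod_cast h2
  rw [h3]
  have := Int.floor_le r
  linarith

/-- counting the lattice points row by row -/
private theorem C2_count {S : Set (ℝ × ℝ)} {r : ℝ} (hr : ∀ z ∈ S, |z.1| ≤ r ∧ |z.2| ≤ r) :
    {v : ℤ × ℤ | ((v.1 : ℝ), (v.2 : ℝ)) ∈ S}.Finite ∧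
    {v : ℤ × ℤ | ((v.1 : ℝ), (v.2 : ℝ)) ∈ S}.ncard =
      ∑ y ∈ Finset.Icc (-⌊r⌋) ⌊r⌋, {n : ℤ | ((n : ℝ), (y : ℝ)) ∈ S}.ncard := by
  classical
  set Y := Finset.Icc (-⌊r⌋) ⌊r⌋ with hY
  have hsub : {v : ℤ × ℤ | ((v.1 : ℝ), (v.2 : ℝ)) ∈ S} ⊆ ((Y ×ˢ Y : Finset (ℤ × ℤ)) : Set (ℤ × ℤ)) := by
    intro v hv
    obtain ⟨h1, h2⟩ := hr _ hv
    rw [Finset.mem_coe, Finset.mem_product]
    exact ⟨(C2_mem_Y v.1).2 h1, (C2_mem_Y v.2).2 h2⟩
  have hfin : {v : ℤ × ℤ | ((v.1 : ℝ), (v.2 : ℝ)) ∈ S}.Finite := (Finset.finite_toSet _).subset hsub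
  refine ⟨hfin, ?_⟩
  rw [Set.ncard_eq_toFinset_card _ hfin,
    Finset.card_eq_sum_card_fiberwise (f := fun v : ℤ × ℤ => v.2) (t := Y) ?_]
  · refine Finset.sum_congr rfl fun y _ => ?_
    rw [← Set.ncard_coe_finset]
    refine Set.ncard_congr (fun v _ => v.1) ?_ ?_ ?_
    · intro v hv
      rw [Finset.mem_coe, Finset.mem_filter, Set.Finite.mem_toFinset] at hv
      obtain ⟨h1, h2⟩ := hv
      have h3 : ((v.1 : ℝ), (v.2 : ℝ)) ∈ S := h1
      rw [h2] at h3
      exact h3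
    · intro v w hv hw h
      rw [Finset.mem_coe, Finset.mem_filter] at hv hw
      exact Prod.ext h (hv.2.trans hw.2.symm)
    · intro n hn
      refine ⟨(n, y), ?_, rfl⟩
      rw [Finset.mem_coe, Finset.mem_filter, Set.Finite.mem_toFinset]
      exact ⟨hn, rfl⟩
  · intro v hv
    rw [Finset.mem_coe, Set.Finite.mem_toFinset] at hv
    have := hsub hv
    rw [Finset.mem_coe, Finset.mem_product] at this
    exact this.2

/-- Row C2. Lattice points in a bounded convex set of the plane. Proof. For each integer y, |y| ≤ r, the slice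
S_y = {x | (x,y) ∈ S} is OrdConnected (convex) so by C1 its number of integers is |S_y| + O(1): total Σ_{|y| ≤ r} |S_y| + O(2r+1).
Next Σ_{y ∈ ℤ} |S_y| = ∫_{-r}^{r} #{y ∈ ℤ | (x,y) ∈ S} dx (finite sum and integral, measurable slices) =
∫ (|S^x| + O(1)) dx = |S| + O(2r) (C1 for the other slices, Fubini Measure.prod_apply). Total error ≤ (2r+1) + 2r ≤ 5r. -/
theorem lattice_convex {S : Set (ℝ × ℝ)} (hS : Convex ℝ S) (hm : MeasurableSet S) {r : ℝ} (h1 : 1 ≤ r)
    (hr : ∀ z ∈ S, |z.1| ≤ r ∧ |z.2| ≤ r) :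
    {v : ℤ × ℤ | ((v.1 : ℝ), (v.2 : ℝ)) ∈ S}.Finite ∧
    |(({v : ℤ × ℤ | ((v.1 : ℝ), (v.2 : ℝ)) ∈ S}.ncard : ℕ) : ℝ) - (volume S).toReal| ≤ 5 * r := by
  classical
  have hr0 : 0 ≤ r := by linarith
  obtain ⟨hfin, hcount⟩ := C2_count hr
  refine ⟨hfin, ?_⟩
  set Y := Finset.Icc (-⌊r⌋) ⌊r⌋ with hY
  set Sy : ℤ → Set ℝ := fun y => {x | (x, (y : ℝ)) ∈ S} with hSy
  set Sx : ℝ → Set ℝ := fun x => {t | (x, t) ∈ S} with hSx
  have hSyc : ∀ y, (Sy y).OrdConnected := by
    intro y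
    refine Convex.ordConnected (𝕜 := ℝ) ?_
    intro a ha b hb s t hs ht hst
    have h := hS ha hb hs ht hst
    have e : s • ((a, (y : ℝ)) : ℝ × ℝ) + t • ((b, (y : ℝ)) : ℝ × ℝ) = (s • a + t • b, (y : ℝ)) := by
      refine Prod.ext rfl ?_
      show s • (y : ℝ) + t • (y : ℝ) = y
      rw [← add_smul, hst, one_smul]
    rw [e] at h
    exact h
  have hSxc : ∀ x, (Sx x).OrdConnected := by
    intro x
    refine Convex.ordConnected (𝕜 := ℝ) ?_
    intro a ha b hb s t hs ht hst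
    have h := hS ha hb hs ht hst
    have e : s • ((x, a) : ℝ × ℝ) + t • ((x, b) : ℝ × ℝ) = (x, s • a + t • b) := by
      refine Prod.ext ?_ rfl
      show s • x + t • x = x
      rw [← add_smul, hst, one_smul]
    rw [e] at h
    exact h
  have hSyb : ∀ y, ∀ x ∈ Sy y, |x| ≤ r := fun y x hx => (hr _ hx).1
  have hSxb : ∀ x, ∀ t ∈ Sx x, |t| ≤ r := fun x t ht => (hr _ ht).2
  have hSym : ∀ y, MeasurableSet (Sy y) := fun y =>
    (measurable_id.prodMk measurable_const : Measurable fun x : ℝ => (x, (y : ℝ))) hm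
  have hSyI : ∀ y, Sy y ⊆ Icc (-r) r := fun y x hx => abs_le.1 (hSyb y x hx)
  have hSyv : ∀ y, volume (Sy y) ≠ ⊤ := fun y =>
    ((measure_mono (hSyI y)).trans_lt (by rw [Real.volume_Icc]; exact ENNReal.ofReal_lt_top)).ne
  have hSv : volume S ≠ ⊤ := by
    have hsub : S ⊆ Icc (-r) r ×ˢ Icc (-r) r := fun z hz =>
      ⟨abs_le.1 (hr z hz).1, abs_le.1 (hr z hz).2⟩
    refine ((measure_mono hsub).trans_lt ?_).ne
    rw [Measure.volume_eq_prod, Measure.prod_prod, Real.volume_Icc]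
    exact ENNReal.mul_lt_top ENNReal.ofReal_lt_top ENNReal.ofReal_lt_top
  -- first step
  have hA : |((∑ y ∈ Y, {n : ℤ | ((n : ℝ), (y : ℝ)) ∈ S}.ncard : ℕ) : ℝ) -
      ∑ y ∈ Y, (volume (Sy y)).toReal| ≤ 2 * r + 1 := by
    push_cast
    rw [← Finset.sum_sub_distrib]
    refine (Finset.abs_sum_le_sum_abs _ _).trans ?_
    calc ∑ y ∈ Y, |(({n : ℤ | ((n : ℝ), (y : ℝ)) ∈ S}.ncard : ℕ) : ℝ) - (volume (Sy y)).toReal|
        ≤ ∑ _y ∈ Y, (1 : ℝ) := Finset.sum_le_sum fun y _ => (int_count (hSyc y) (hSyb y)).2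
      _ = (Y.card : ℝ) := by rw [Finset.sum_const, nsmul_eq_mul, mul_one]
      _ ≤ 2 * r + 1 := C2_card_Y h1
  -- second step
  set N : ℝ → ℝ := fun x => ∑ y ∈ Y, (Sy y).indicator (fun _ => (1 : ℝ)) x with hN
  set g : ℝ → ℝ := fun x => (volume (Sx x)).toReal with hg
  have hNi : ∀ y ∈ Y, Integrable ((Sy y).indicator (fun _ => (1 : ℝ))) volume := fun y _ =>
    (integrable_indicator_iff (hSym y)).2 (integrableOn_const (hSyv y))
  have hNint : Integrable N volume := integrable_finsetSum _ hNi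
  have hB : ∑ y ∈ Y, (volume (Sy y)).toReal = ∫ x, N x := by
    rw [hN, integral_finsetSum _ hNi]
    refine Finset.sum_congr rfl fun y _ => ?_
    rw [integral_indicator (hSym y), setIntegral_const, smul_eq_mul, mul_one]
    rfl
  have hgint : Integrable g volume := by
    have := Measure.integrable_measure_prodMk_left (μ := (volume : Measure ℝ))
      (ν := (volume : Measure ℝ)) hm (by rw [← Measure.volume_eq_prod]; exact hSv)
    exact this
  have hC : (volume S).toReal = ∫ x, g x := by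
    have h2 : volume S = ∫⁻ x, volume (Sx x) := by
      rw [Measure.volume_eq_prod, Measure.prod_apply hm]
      rfl
    rw [h2, hg, integral_toReal]
    · exact (measurable_measure_prodMk_left hm).aemeasurable
    · refine Filter.Eventually.of_forall fun x => ?_
      have hI : Sx x ⊆ Icc (-r) r := fun t ht => abs_le.1 (hSxb x t ht)
      exact (measure_mono hI).trans_lt (by rw [Real.volume_Icc]; exact ENNReal.ofReal_lt_top)
  have hpt : ∀ x, ‖N x - g x‖ ≤ (Icc (-r) r).indicator (fun _ => (1 : ℝ)) x := by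
    intro x
    by_cases hx : x ∈ Icc (-r) r
    · rw [indicator_of_mem hx]
      have e : N x = (({n : ℤ | (n : ℝ) ∈ Sx x}.ncard : ℕ) : ℝ) := by
        have e1 : N x = ∑ y ∈ Y, if (x, (y : ℝ)) ∈ S then (1 : ℝ) else 0 := by
          rw [hN]
          refine Finset.sum_congr rfl fun y _ => ?_
          rw [indicator_apply]
          rfl
        have e2 : {n : ℤ | (n : ℝ) ∈ Sx x} =
            ((Y.filter (fun y : ℤ => (x, (y : ℝ)) ∈ S) : Finset ℤ) : Set ℤ) := by
          ext n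
          rw [Finset.mem_coe, Finset.mem_filter]
          constructor
          · intro h
            exact ⟨(C2_mem_Y n).2 (hSxb x n h), h⟩
          · intro h
            exact h.2
        rw [e1, e2, Set.ncard_coe_finset, ← Finset.sum_filter, Finset.sum_const, nsmul_eq_mul,
          mul_one]
      rw [Real.norm_eq_abs, e]
      exact (int_count (hSxc x) (hSxb x)).2
    · rw [indicator_of_notMem hx]
      have e1 : N x = 0 := by
        rw [hN]
        refine Finset.sum_eq_zero fun y _ => ?_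
        exact indicator_of_notMem (fun h => hx (hSyI y h)) _
      have e2 : g x = 0 := by
        have : Sx x = ∅ := by
          rw [Set.eq_empty_iff_forall_notMem]
          intro t ht
          exact hx (abs_le.1 (hr _ ht).1)
        show (volume (Sx x)).toReal = 0
        rw [this, measure_empty, ENNReal.toReal_zero]
      rw [e1, e2]
      simp
  have hD : |(∫ x, N x) - ∫ x, g x| ≤ 2 * r := by
    rw [← integral_sub hNint hgint, ← Real.norm_eq_abs]
    have hind : Integrable ((Icc (-r) r).indicator (fun _ => (1 : ℝ))) volume :=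
      (integrable_indicator_iff measurableSet_Icc).2
        (integrableOn_const (by rw [Real.volume_Icc]; exact ENNReal.ofReal_ne_top))
    refine (norm_integral_le_of_norm_le hind (Filter.Eventually.of_forall hpt)).trans ?_
    rw [integral_indicator measurableSet_Icc, setIntegral_const, smul_eq_mul, mul_one,
      Real.volume_real_Icc_of_le (by linarith)]
    linarith
  rw [hcount, hC]
  rw [hB] at hA
  have h3 := abs_sub_le ((∑ y ∈ Y, {n : ℤ | ((n : ℝ), (y : ℝ)) ∈ S}.ncard : ℕ) : ℝ) (∫ x, N x)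
    (∫ x, g x)
  linarith

end NR
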