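import Pool.Agent.Lib.MP_0f5a55_nt.NR.QD

open Complex MeasureTheory Set Filter Topology
open scoped Real ComplexConjugate NumberField

namespace NR

/-- the region of the plane, quadrant given by the signs e1, e2 -/
def Rg (l X e1 e2 : ℝ) : Set (ℝ × ℝ) :=
  {z | 0 < e1 * z.1 ∧ 0 < e2 * z.2 ∧ e2 * z.2 ≤ e1 * z.1 ∧ e1 * z.1 < Real.exp (2 * l) * (e2 * z.2) ∧
    (e1 * z.1) * (e2 * z.2) ≤ X}

/-- the triangle containing it -/
def Tr (l X e1 e2 : ℝ) : Set (ℝ × ℝ) :=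
  {z | 0 < e1 * z.1 ∧ 0 < e2 * z.2 ∧ e2 * z.2 ≤ e1 * z.1 ∧ e1 * z.1 < Real.exp (2 * l) * (e2 * z.2) ∧
    e1 * z.1 ≤ Real.exp l * √X}

private lemma C4_sub {l X e1 e2 : ℝ} (hX : 0 < X) {z : ℝ × ℝ} (hz : z ∈ Rg l X e1 e2) : z ∈ Tr l X e1 e2 := by
  obtain ⟨h1, h2, h3, h4, h5⟩ := hz
  refine ⟨h1, h2, h3, h4, ?_⟩
  have h6 : (e1 * z.1) ^ 2 ≤ (Real.exp l * √X) ^ 2 := by
    have h8 : (Real.exp l * √X) ^ 2 = Real.exp (2 * l) * X := by
      rw [mul_pow, Real.sq_sqrt hX.le, ← Real.exp_nat_mul]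
      push_cast
      rfl
    rw [h8]
    calc (e1 * z.1) ^ 2 = (e1 * z.1) * (e1 * z.1) := by ring
      _ ≤ (e1 * z.1) * (Real.exp (2 * l) * (e2 * z.2)) := mul_le_mul_of_nonneg_left h4.le h1.le
      _ = Real.exp (2 * l) * ((e1 * z.1) * (e2 * z.2)) := by ring
      _ ≤ Real.exp (2 * l) * X := mul_le_mul_of_nonneg_left h5 (Real.exp_pos _).le
  have h7 : 0 ≤ Real.exp l * √X := by positivity
  exact (abs_le_of_sq_le_sq' h6 h7).2

/-- Row C4. Geometry of the region. -/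
theorem Rg_eq {l X e1 e2 : ℝ} (hl : 0 < l) (hX : 0 < X) : Rg l X e1 e2 =
    Tr l X e1 e2 \ {z | z ∈ Tr l X e1 e2 ∧ X < (e1 * z.1) * (e2 * z.2)} := by
  ext z
  constructor
  · intro hz
    exact ⟨C4_sub hX hz, fun h => absurd hz.2.2.2.2 (not_le.mpr h.2)⟩
  · rintro ⟨hz, h⟩
    refine ⟨hz.1, hz.2.1, hz.2.2.1, hz.2.2.2.1, ?_⟩
    by_contra hc
    exact h ⟨hz, not_le.mp hc⟩

private lemma C4_eq (l X e1 e2 : ℝ) : Tr l X e1 e2 = {z | 0 < e1 * z.1} ∩ ({z | 0 < e2 * z.2} ∩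
    ({z | e2 * z.2 ≤ e1 * z.1} ∩ ({z | e1 * z.1 < Real.exp (2 * l) * (e2 * z.2)} ∩
      {z | e1 * z.1 ≤ Real.exp l * √X}))) := rfl

theorem Tr_convex (l X e1 e2 : ℝ) : Convex ℝ (Tr l X e1 e2) ∧ MeasurableSet (Tr l X e1 e2) := by
  constructor
  · rintro ⟨x1, x2⟩ ⟨a1, a2, a3, a4, a5⟩ ⟨y1, y2⟩ ⟨b1, b2, b3, b4, b5⟩ s t hs ht hst
    simp only at a1 a2 a3 a4 a5 b1 b2 b3 b4 b5
    have key : ∀ {p q p' q' : ℝ}, p < q → p' < q' → s * p + t * p' < s * q + t * q' := by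
      intro p q p' q' h1 h2
      rcases hs.eq_or_lt with h0 | h0
      · have : t = 1 := by linarith
        rw [← h0, this]; linarith
      · have h3 := mul_lt_mul_of_pos_left h1 h0
        have h4 := mul_le_mul_of_nonneg_left h2.le ht
        linarith
    have key2 : ∀ {p q p' q' : ℝ}, p ≤ q → p' ≤ q' → s * p + t * p' ≤ s * q + t * q' := by
      intro p q p' q' h1 h2
      have h3 := mul_le_mul_of_nonneg_left h1 hs
      have h4 := mul_le_mul_of_nonneg_left h2 ht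
      linarith
    refine ⟨?_, ?_, ?_, ?_, ?_⟩ <;>
      simp only [Prod.fst_add, Prod.snd_add, Prod.smul_fst, Prod.smul_snd, smul_eq_mul]
    · have := key a1 b1
      linarith
    · have := key a2 b2
      linarith
    · have := key2 a3 b3
      linarith
    · have := key a4 b4
      nlinarith [this]
    · have := key2 a5 b5
      nlinarith [this]
  · rw [C4_eq]
    have c1 : Continuous (fun z : ℝ × ℝ => e1 * z.1) := by fun_prop
    have c2 : Continuous (fun z : ℝ × ℝ => e2 * z.2) := by fun_prop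
    have c3 : Continuous (fun z : ℝ × ℝ => Real.exp (2 * l) * (e2 * z.2)) := by fun_prop
    exact (isOpen_lt continuous_const c1).measurableSet.inter
      ((isOpen_lt continuous_const c2).measurableSet.inter
        ((isClosed_le c2 c1).measurableSet.inter
          ((isOpen_lt c1 c3).measurableSet.inter (isClosed_le c1 continuous_const).measurableSet)))

private lemma C4_conv {X u1 v1 u2 v2 s t : ℝ} (hX : 0 < X) (hu1 : 0 < u1) (hv1 : 0 < v1) (hu2 : 0 < u2)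
    (hv2 : 0 < v2) (h1 : X < u1 * v1) (h2 : X < u2 * v2) (hs : 0 ≤ s) (ht : 0 ≤ t) (hst : s + t = 1) :
    X < (s * u1 + t * u2) * (s * v1 + t * v2) := by
  have h3 : 2 * X < u1 * v2 + u2 * v1 := by
    have h4 : X * X < (u1 * v1) * (u2 * v2) := mul_lt_mul'' h1 h2 hX.le hX.le
    have h5 : (2 * X) ^ 2 < (u1 * v2 + u2 * v1) ^ 2 := by nlinarith [sq_nonneg (u1 * v2 - u2 * v1)]
    exact lt_of_pow_lt_pow_left₀ 2 (by positivity) h5
  have h6 : (s * u1 + t * u2) * (s * v1 + t * v2) =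
      s ^ 2 * (u1 * v1) + t ^ 2 * (u2 * v2) + s * t * (u1 * v2 + u2 * v1) := by ring
  have h7 : X = s ^ 2 * X + t ^ 2 * X + s * t * (2 * X) := by
    have : X = (s + t) ^ 2 * X := by rw [hst]; ring
    rw [this]; rw [hst]; linear_combination (-(X * (s + t + 1))) * hst
  rw [h6]
  have h8 : s * t * (2 * X) ≤ s * t * (u1 * v2 + u2 * v1) := mul_le_mul_of_nonneg_left h3.le (mul_nonneg hs ht)
  rcases hs.eq_or_lt with h0 | h0
  · have h9 : t = 1 := by linarith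
    rw [← h0, h9]
    linarith
  · have h9 : s ^ 2 * X < s ^ 2 * (u1 * v1) := mul_lt_mul_of_pos_left h1 (by positivity)
    have h10 : t ^ 2 * X ≤ t ^ 2 * (u2 * v2) := mul_le_mul_of_nonneg_left h2.le (by positivity)
    linarith

/-- {x y > X, x, y > 0} is convex -/
theorem Tr2_convex {l X e1 e2 : ℝ} (hX : 0 < X) : Convex ℝ {z | z ∈ Tr l X e1 e2 ∧ X < (e1 * z.1) * (e2 * z.2)} ∧
    MeasurableSet {z | z ∈ Tr l X e1 e2 ∧ X < (e1 * z.1) * (e2 * z.2)} := by
  constructor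
  · rintro x ⟨hx, hx2⟩ y ⟨hy, hy2⟩ s t hs ht hst
    refine ⟨(Tr_convex l X e1 e2).1 hx hy hs ht hst, ?_⟩
    have h := C4_conv hX hx.1 hx.2.1 hy.1 hy.2.1 hx2 hy2 hs ht hst
    simp only [Prod.fst_add, Prod.snd_add, Prod.smul_fst, Prod.smul_snd, smul_eq_mul]
    calc X < (s * (e1 * x.1) + t * (e1 * y.1)) * (s * (e2 * x.2) + t * (e2 * y.2)) := h
      _ = _ := by ring
  · have c1 : Continuous (fun z : ℝ × ℝ => (e1 * z.1) * (e2 * z.2)) := by fun_prop
    exact (Tr_convex l X e1 e2).2.inter (isOpen_lt continuous_const c1).measurableSet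

theorem Tr_bd {l X e1 e2 : ℝ} (h1 : |e1| = 1) (h2 : |e2| = 1) {z : ℝ × ℝ} (hz : z ∈ Tr l X e1 e2) :
    |z.1| ≤ Real.exp l * √X ∧ |z.2| ≤ Real.exp l * √X := by
  obtain ⟨a1, a2, a3, a4, a5⟩ := hz
  have b1 : |z.1| = e1 * z.1 := by
    rw [← abs_of_pos a1, abs_mul, h1, one_mul]
  have b2 : |z.2| = e2 * z.2 := by
    rw [← abs_of_pos a2, abs_mul, h2, one_mul]
  rw [b1, b2]
  exact ⟨a5, a3.trans a5⟩

private lemma C4_fin (l : ℝ) : volume (Rg l 1 1 1) < ⊤ := by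
  refine lt_of_le_of_lt (measure_mono (t := Metric.closedBall (0 : ℝ × ℝ) (Real.exp l * √1)) ?_)
    measure_closedBall_lt_top
  intro z hz
  have h := Tr_bd (by simp) (by simp) (C4_sub one_pos hz)
  rw [mem_closedBall_zero_iff, Prod.norm_def, Real.norm_eq_abs, Real.norm_eq_abs]
  exact max_le h.1 h.2

private lemma C4_refl {e1 e2 : ℝ} (h1 : |e1| = 1) (h2 : |e2| = 1) :
    MeasurePreserving (fun z : ℝ × ℝ => (e1 * z.1, e2 * z.2)) volume volume := by
  have key : ∀ e : ℝ, |e| = 1 → MeasurePreserving (fun x : ℝ => e * x) volume volume := by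
    intro e he
    rcases (abs_eq (by norm_num : (0 : ℝ) ≤ 1)).mp he with h | h
    · rw [h]
      simp only [one_mul]
      exact MeasurePreserving.id _
    · rw [h]
      simp only [neg_mul, one_mul]
      exact Measure.measurePreserving_neg volume
  exact (key e1 h1).prod (key e2 h2)

open scoped Pointwise in
/-- the volume: scaling by √X and reflections -/
theorem Rg_vol {l X e1 e2 : ℝ} (hX : 0 < X) (h1 : |e1| = 1) (h2 : |e2| = 1) :
    volume (Rg l X e1 e2) = ENNReal.ofReal X * volume (Rg l 1 1 1) ∧ volume (Rg l 1 1 1) < ⊤ := by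
  refine ⟨?_, C4_fin l⟩
  have hm : ∀ X : ℝ, 0 < X → MeasurableSet (Rg l X 1 1) := by
    intro X hX
    have c1 : Continuous (fun z : ℝ × ℝ => (1 : ℝ) * z.1) := by fun_prop
    have c2 : Continuous (fun z : ℝ × ℝ => (1 : ℝ) * z.2) := by fun_prop
    have c3 : Continuous (fun z : ℝ × ℝ => Real.exp (2 * l) * (1 * z.2)) := by fun_prop
    have c4 : Continuous (fun z : ℝ × ℝ => (1 * z.1) * (1 * z.2)) := by fun_prop
    exact (isOpen_lt continuous_const c1).measurableSet.inter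
      ((isOpen_lt continuous_const c2).measurableSet.inter
        ((isClosed_le c2 c1).measurableSet.inter
          ((isOpen_lt c1 c3).measurableSet.inter (isClosed_le c4 continuous_const).measurableSet)))
  have e : Rg l X e1 e2 = (fun z : ℝ × ℝ => (e1 * z.1, e2 * z.2)) ⁻¹' (Rg l X 1 1) := by
    ext z
    simp only [Rg, Set.mem_ofPred_eq, Set.mem_preimage, one_mul]
  rw [e, (C4_refl h1 h2).measure_preimage (hm X hX).nullMeasurableSet]
  have hs : 0 < √X := Real.sqrt_pos.mpr hX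
  have e2' : Rg l X 1 1 = √X • Rg l 1 1 1 := by
    ext z
    rw [Set.mem_smul_set_iff_inv_smul_mem₀ hs.ne']
    simp only [Rg, Set.mem_ofPred_eq, one_mul, Prod.smul_fst, Prod.smul_snd, smul_eq_mul]
    have hi : 0 < (√X)⁻¹ := inv_pos.mpr hs
    have q1 : (√X)⁻¹ * z.1 * ((√X)⁻¹ * z.2) = z.1 * z.2 / X := by
      have : (√X)⁻¹ * (√X)⁻¹ = X⁻¹ := by rw [← mul_inv, Real.mul_self_sqrt hX.le]
      rw [div_eq_mul_inv, ← this]; ring
    rw [q1, div_le_one hX, mul_pos_iff_of_pos_left hi, mul_pos_iff_of_pos_left hi,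
      mul_le_mul_iff_right₀ hi]
    have q2 : Real.exp (2 * l) * ((√X)⁻¹ * z.2) = (√X)⁻¹ * (Real.exp (2 * l) * z.2) := by ring
    rw [q2, mul_lt_mul_iff_right₀ hi]
  rw [e2', Measure.addHaar_smul]
  congr 2
  rw [Module.finrank_prod, Module.finrank_self, show (1 + 1 : ℕ) = 2 from rfl, Real.sq_sqrt hX.le, abs_of_pos hX]

end NR
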