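import Pool.Agent.Lib.MP_0f5a55_nt.NR.C3
import Pool.Agent.Lib.MP_0f5a55_nt.NR.C4
import Pool.Agent.Lib.MP_0f5a55_nt.NR.B5

open Complex MeasureTheory Set Filter Topology
open scoped Real ComplexConjugate NumberField

namespace NR

open HC

/-- the linear map of the two forms -/
noncomputable def C5_map (P : Pr) : (ℝ × ℝ) →ₗ[ℝ] (ℝ × ℝ) :=
  Matrix.toLin (Module.Basis.finTwoProd ℝ) (Module.Basis.finTwoProd ℝ) !![P.p1, P.q1; P.p2, P.q2]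

theorem C5_map_apply (P : Pr) (z : ℝ × ℝ) : C5_map P z = (P.p1 * z.1 + P.q1 * z.2, P.p2 * z.1 + P.q2 * z.2) := by
  simp [C5_map, Matrix.toLin_finTwoProd_apply]

theorem C5_map_det (P : Pr) : LinearMap.det (C5_map P) = P.p1 * P.q2 - P.q1 * P.p2 := by
  rw [C5_map, LinearMap.det_toLin, Matrix.det_fin_two_of]

theorem C5_map_v (P : Pr) (v : ℤ × ℤ) : C5_map P ((v.1 : ℝ), (v.2 : ℝ)) = (P.l1 v, P.l2 v) := by
  rw [C5_map_apply]; rfl

theorem C5_det_abs {P : Pr} {N : ℕ} {l : ℝ} {F : Fm} {τ : (ℤ × ℤ) ≃ (ℤ × ℤ)} (h : P.Ok N l F τ) :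
    |LinearMap.det (C5_map P)| = √N := by
  rw [C5_map_det, ← h.det, Real.sqrt_sq_eq_abs]
  ring_nf

theorem C5_vol {P : Pr} {N : ℕ} {l : ℝ} {F : Fm} {τ : (ℤ × ℤ) ≃ (ℤ × ℤ)} (h : P.Ok N l F τ) (S : Set (ℝ × ℝ)) :
    volume ((C5_map P) ⁻¹' S) = ENNReal.ofReal ((√N)⁻¹) * volume S := by
  have hN : (0 : ℝ) < √N := Real.sqrt_pos.2 (by exact_mod_cast h.N0)
  have h0 : LinearMap.det (C5_map P) ≠ 0 := by
    intro h0
    have := C5_det_abs h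
    rw [h0, abs_zero] at this
    linarith
  rw [Measure.addHaar_preimage_linearMap volume h0, abs_inv, C5_det_abs h]

theorem C5_bd {P : Pr} {N : ℕ} {l : ℝ} {F : Fm} {τ : (ℤ × ℤ) ≃ (ℤ × ℤ)} (h : P.Ok N l F τ) {z : ℝ × ℝ} {R : ℝ}
    (h1 : |(C5_map P z).1| ≤ R) (h2 : |(C5_map P z).2| ≤ R) :
    |z.1| ≤ (|P.p1| + |P.q1| + |P.p2| + |P.q2|) / √N * R ∧ |z.2| ≤ (|P.p1| + |P.q1| + |P.p2| + |P.q2|) / √N * R := by
  have hN : (0 : ℝ) < √N := Real.sqrt_pos.2 (by exact_mod_cast h.N0)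
  have hR : 0 ≤ R := (abs_nonneg _).trans h1
  have hd := C5_det_abs h
  rw [C5_map_det] at hd
  rw [C5_map_apply] at h1 h2
  simp only at h1 h2
  constructor
  · rw [div_mul_eq_mul_div, le_div_iff₀ hN, mul_comm, ← hd, ← abs_mul]
    have e : (P.p1 * P.q2 - P.q1 * P.p2) * z.1 = P.q2 * (P.p1 * z.1 + P.q1 * z.2) - P.q1 * (P.p2 * z.1 + P.q2 * z.2) := by
      ring
    rw [e]
    refine (abs_sub _ _).trans ?_
    rw [abs_mul, abs_mul]
    have a1 := mul_le_mul_of_nonneg_left h1 (abs_nonneg P.q2)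
    have a2 := mul_le_mul_of_nonneg_left h2 (abs_nonneg P.q1)
    have a3 := mul_nonneg (abs_nonneg P.p1) hR
    have a4 := mul_nonneg (abs_nonneg P.p2) hR
    nlinarith
  · rw [div_mul_eq_mul_div, le_div_iff₀ hN, mul_comm, ← hd, ← abs_mul]
    have e : (P.p1 * P.q2 - P.q1 * P.p2) * z.2 = P.p1 * (P.p2 * z.1 + P.q2 * z.2) - P.p2 * (P.p1 * z.1 + P.q1 * z.2) := by
      ring
    rw [e]
    refine (abs_sub _ _).trans ?_
    rw [abs_mul, abs_mul]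
    have a1 := mul_le_mul_of_nonneg_left h1 (abs_nonneg P.p2)
    have a2 := mul_le_mul_of_nonneg_left h2 (abs_nonneg P.p1)
    have a3 := mul_nonneg (abs_nonneg P.q1) hR
    have a4 := mul_nonneg (abs_nonneg P.q2) hR
    nlinarith

theorem C5_one {P : Pr} {N : ℕ} {l : ℝ} {F : Fm} {τ : (ℤ × ℤ) ≃ (ℤ × ℤ)} (h : P.Ok N l F τ) {M : ℕ} (hM : 0 < M)
    (ρ : ZMod M × ZMod M) {e1 e2 : ℝ} (he1 : |e1| = 1) (he2 : |e2| = 1) : ∃ C : ℝ, 0 ≤ C ∧ ∀ X : ℝ, 1 ≤ X →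
      {v : ℤ × ℤ | (P.l1 v, P.l2 v) ∈ Rg l X e1 e2 ∧ (v.1 : ZMod M) = ρ.1 ∧ (v.2 : ZMod M) = ρ.2}.Finite ∧
      |(({v : ℤ × ℤ | (P.l1 v, P.l2 v) ∈ Rg l X e1 e2 ∧ (v.1 : ZMod M) = ρ.1 ∧
        (v.2 : ZMod M) = ρ.2}.ncard : ℕ) : ℝ) - (volume (Rg l 1 1 1)).toReal * X / (√N * (M : ℝ) ^ 2)| ≤ C * √X := by
  have hN : (0 : ℝ) < √N := Real.sqrt_pos.2 (by exact_mod_cast h.N0)
  set D : ℝ := (|P.p1| + |P.q1| + |P.p2| + |P.q2|) / √N with hD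
  have hD0 : 0 ≤ D := by positivity
  refine ⟨10 * (D * Real.exp l + 1 + M), by positivity, fun X hX => ?_⟩
  have hX0 : 0 < X := by linarith
  have hsX : 1 ≤ √X := Real.one_le_sqrt.2 hX
  set A : Set (ℝ × ℝ) := (C5_map P) ⁻¹' (Tr l X e1 e2) with hA
  set B : Set (ℝ × ℝ) := (C5_map P) ⁻¹' {z | z ∈ Tr l X e1 e2 ∧ X < (e1 * z.1) * (e2 * z.2)} with hB
  have hBA : B ⊆ A := fun z hz => hz.1
  have hcont : Measurable (C5_map P) := (LinearMap.continuous_of_finiteDimensional (C5_map P)).measurable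
  have hAc : Convex ℝ A := (Tr_convex l X e1 e2).1.linear_preimage _
  have hAm : MeasurableSet A := hcont (Tr_convex l X e1 e2).2
  have hBc : Convex ℝ B := (Tr2_convex (l := l) (e1 := e1) (e2 := e2) hX0).1.linear_preimage _
  have hBm : MeasurableSet B := hcont (Tr2_convex (l := l) (e1 := e1) (e2 := e2) hX0).2
  set r : ℝ := (D * Real.exp l + 1) * √X with hr
  have hr1 : 1 ≤ r := by
    have : 1 * 1 ≤ (D * Real.exp l + 1) * √X :=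
      mul_le_mul (by have := mul_nonneg hD0 (Real.exp_pos l).le; linarith) hsX zero_le_one (by positivity)
    linarith
  have hAr : ∀ z ∈ A, |z.1| ≤ r ∧ |z.2| ≤ r := by
    intro z hz
    obtain ⟨b1, b2⟩ := Tr_bd he1 he2 hz
    obtain ⟨c1, c2⟩ := C5_bd h b1 b2
    have : D * (Real.exp l * √X) ≤ r := by
      rw [hr]
      nlinarith [Real.sqrt_nonneg X]
    exact ⟨c1.trans this, c2.trans this⟩
  obtain ⟨fA, cA⟩ := lattice_res hAc hAm hr1 hAr hM ρ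
  obtain ⟨fB, cB⟩ := lattice_res hBc hBm hr1 (fun z hz => hAr z (hBA hz)) hM ρ
  -- finite volumes
  have hsub : A ⊆ Icc ((-r, -r) : ℝ × ℝ) (r, r) := by
    intro z hz
    obtain ⟨b1, b2⟩ := hAr z hz
    rw [abs_le] at b1 b2
    exact ⟨⟨b1.1, b2.1⟩, ⟨b1.2, b2.2⟩⟩
  have hAf : volume A ≠ ⊤ := ((Metric.isBounded_Icc _ _).subset hsub).measure_lt_top.ne
  have hBf : volume B ≠ ⊤ := ne_top_of_le_ne_top hAf (measure_mono hBA)
  have hRg : (C5_map P) ⁻¹' (Rg l X e1 e2) = A \ B := by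
    rw [Rg_eq h.l0 hX0]; rfl
  have hvol : (volume A).toReal - (volume B).toReal = (volume (Rg l 1 1 1)).toReal * X / √N := by
    have e1 : volume (A \ B) = volume A - volume B := measure_diff hBA hBm.nullMeasurableSet hBf
    rw [← ENNReal.toReal_sub_of_le (measure_mono hBA) hAf, ← e1, ← hRg, C5_vol h, (Rg_vol hX0 he1 he2).1,
      ENNReal.toReal_mul, ENNReal.toReal_mul, ENNReal.toReal_ofReal (by positivity), ENNReal.toReal_ofReal hX0.le]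
    field_simp
  -- counting
  have key : {v : ℤ × ℤ | (P.l1 v, P.l2 v) ∈ Rg l X e1 e2 ∧ (v.1 : ZMod M) = ρ.1 ∧ (v.2 : ZMod M) = ρ.2} =
      {v : ℤ × ℤ | ((v.1 : ℝ), (v.2 : ℝ)) ∈ A ∧ (v.1 : ZMod M) = ρ.1 ∧ (v.2 : ZMod M) = ρ.2} \
      {v : ℤ × ℤ | ((v.1 : ℝ), (v.2 : ℝ)) ∈ B ∧ (v.1 : ZMod M) = ρ.1 ∧ (v.2 : ZMod M) = ρ.2} := by
    ext v
    have hv : (P.l1 v, P.l2 v) ∈ Rg l X e1 e2 ↔ ((v.1 : ℝ), (v.2 : ℝ)) ∈ A \ B := by
      rw [← hRg, mem_preimage, C5_map_v]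
    simp only [mem_setOf_eq, mem_diff] at hv ⊢
    rw [hv]
    tauto
  have hsubv : {v : ℤ × ℤ | ((v.1 : ℝ), (v.2 : ℝ)) ∈ B ∧ (v.1 : ZMod M) = ρ.1 ∧ (v.2 : ZMod M) = ρ.2} ⊆
      {v : ℤ × ℤ | ((v.1 : ℝ), (v.2 : ℝ)) ∈ A ∧ (v.1 : ZMod M) = ρ.1 ∧ (v.2 : ZMod M) = ρ.2} :=
    fun v hv => ⟨hBA hv.1, hv.2⟩
  rw [key]
  refine ⟨fA.subset diff_subset, ?_⟩
  have hc := Set.ncard_diff_add_ncard_of_subset hsubv fA
  have hc' : (({v : ℤ × ℤ | ((v.1 : ℝ), (v.2 : ℝ)) ∈ A ∧ (v.1 : ZMod M) = ρ.1 ∧ (v.2 : ZMod M) = ρ.2} \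
      {v : ℤ × ℤ | ((v.1 : ℝ), (v.2 : ℝ)) ∈ B ∧ (v.1 : ZMod M) = ρ.1 ∧ (v.2 : ZMod M) = ρ.2}).ncard : ℝ) =
      ({v : ℤ × ℤ | ((v.1 : ℝ), (v.2 : ℝ)) ∈ A ∧ (v.1 : ZMod M) = ρ.1 ∧ (v.2 : ZMod M) = ρ.2}.ncard : ℝ) -
      ({v : ℤ × ℤ | ((v.1 : ℝ), (v.2 : ℝ)) ∈ B ∧ (v.1 : ZMod M) = ρ.1 ∧ (v.2 : ZMod M) = ρ.2}.ncard : ℝ) := by
    rw [← hc]; push_cast; ring
  rw [hc']
  have hM' : (0 : ℝ) < M := by exact_mod_cast hM
  have e2 : (volume (Rg l 1 1 1)).toReal * X / (√N * (M : ℝ) ^ 2) =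
      (volume A).toReal / (M : ℝ) ^ 2 - (volume B).toReal / (M : ℝ) ^ 2 := by
    rw [← sub_div, hvol]
    field_simp
  rw [e2]
  have hfin : 5 * (r + M) + 5 * (r + M) ≤ 10 * (D * Real.exp l + 1 + M) * √X := by
    rw [hr]
    nlinarith [mul_le_mul_of_nonneg_left hsX hM'.le]
  rw [abs_le] at cA cB ⊢
  constructor <;> linarith [cA.1, cA.2, cB.1, cB.2]

/-- Row C5. Points of the fundamental domain in a residue class, F of a given sign s. Proof. v is counted iff (l1 v, l2 v) ∈ Rg l X e1 e2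
for (e1,e2) = (1,s) or (-1,-s) (disjoint). The linear map z -> (l1 z, l2 z) of ℝ² has |det| = √N (Ok.det), so the preimages of Tr and of
{Tr, product > X} are convex, measurable, contained in a square of radius C √X (X ≥ 1, inverse linear map), and the volume of the
preimage of a set is its volume/√N (Real.map_linearMap_volume_pi_eq_smul_volume_pi / addHaar_preimage_linearMap). Apply C3 to both, subtract (C4.Rg_eq):
the count is 2 X vol(Rg l 1 1 1)/(√N M²) + O(√X). c0 = 2 vol(Rg l 1 1 1), depends only on l. -/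
theorem count_res {l : ℝ} (hl : 0 < l) : ∃ c0 : ℝ, ∀ (P : Pr) (N : ℕ) (F : Fm) (τ : (ℤ × ℤ) ≃ (ℤ × ℤ)), P.Ok N l F τ →
    ∀ M : ℕ, 0 < M → ∀ (ρ : ZMod M × ZMod M) (s : ℤ), (s = 1 ∨ s = -1) → ∃ C : ℝ, 0 ≤ C ∧ ∀ X : ℝ, 1 ≤ X →
      |(({v : ℤ × ℤ | v ∈ P.Dom l ∧ 0 < s * F.val v ∧ ((s * F.val v : ℤ) : ℝ) ≤ X ∧ (v.1 : ZMod M) = ρ.1 ∧
        (v.2 : ZMod M) = ρ.2}.ncard : ℕ) : ℝ) - c0 * X / (√N * (M : ℝ) ^ 2)| ≤ C * √X := by
  refine ⟨2 * (volume (Rg l 1 1 1)).toReal, ?_⟩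
  intro P N F τ h M hM ρ s hs
  have hs1 : |((s : ℤ) : ℝ)| = 1 := by
    rcases hs with rfl | rfl <;> simp
  have hs2 : |(-((s : ℤ) : ℝ))| = 1 := by rw [abs_neg, hs1]
  obtain ⟨C1, hC1, H1⟩ := C5_one h hM ρ (e1 := 1) (e2 := (s : ℝ)) (by simp) hs1
  obtain ⟨C2, hC2, H2⟩ := C5_one h hM ρ (e1 := -1) (e2 := -(s : ℝ)) (by simp) hs2
  refine ⟨C1 + C2, by positivity, fun X hX => ?_⟩
  obtain ⟨f1, c1⟩ := H1 X hX
  obtain ⟨f2, c2⟩ := H2 X hX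
  have hdis : Disjoint {v : ℤ × ℤ | (P.l1 v, P.l2 v) ∈ Rg l X 1 s ∧ (v.1 : ZMod M) = ρ.1 ∧ (v.2 : ZMod M) = ρ.2}
      {v : ℤ × ℤ | (P.l1 v, P.l2 v) ∈ Rg l X (-1) (-s) ∧ (v.1 : ZMod M) = ρ.1 ∧ (v.2 : ZMod M) = ρ.2} := by
    rw [Set.disjoint_left]
    intro v hv hv'
    have a1 : 0 < (1 : ℝ) * P.l1 v := hv.1.1
    have a2 : 0 < (-1 : ℝ) * P.l1 v := hv'.1.1
    linarith
  have key : {v : ℤ × ℤ | v ∈ P.Dom l ∧ 0 < s * F.val v ∧ ((s * F.val v : ℤ) : ℝ) ≤ X ∧ (v.1 : ZMod M) = ρ.1 ∧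
      (v.2 : ZMod M) = ρ.2} =
      {v : ℤ × ℤ | (P.l1 v, P.l2 v) ∈ Rg l X 1 s ∧ (v.1 : ZMod M) = ρ.1 ∧ (v.2 : ZMod M) = ρ.2} ∪
      {v : ℤ × ℤ | (P.l1 v, P.l2 v) ∈ Rg l X (-1) (-s) ∧ (v.1 : ZMod M) = ρ.1 ∧ (v.2 : ZMod M) = ρ.2} := by
    ext v
    have hval := h.val v
    have main : (v ∈ P.Dom l ∧ 0 < s * F.val v ∧ ((s * F.val v : ℤ) : ℝ) ≤ X) ↔
        ((P.l1 v, P.l2 v) ∈ Rg l X 1 s ∨ (P.l1 v, P.l2 v) ∈ Rg l X (-1) (-s)) := by
      have hpos : (0 < s * F.val v) ↔ (0 : ℝ) < s * (P.l1 v * P.l2 v) := by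
        rw [hval]; exact_mod_cast Iff.rfl
      have hle : (((s * F.val v : ℤ) : ℝ) ≤ X) ↔ (s : ℝ) * (P.l1 v * P.l2 v) ≤ X := by
        rw [hval]; push_cast; exact Iff.rfl
      rw [hpos, hle]
      have hv0 : (0 : ℝ) < s * (P.l1 v * P.l2 v) → v ≠ 0 := by
        rintro h0 rfl
        simp [Pr.l1, Pr.l2] at h0
      have habs2 : ∀ {y : ℝ}, 0 < (s : ℝ) * y → |y| = s * y := by
        intro y hy
        have : |(s : ℝ) * y| = |y| := by rw [abs_mul, hs1, one_mul]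
        rw [← this, abs_of_pos hy]
      have habs3 : ∀ {y : ℝ}, 0 < -(s : ℝ) * y → |y| = -(s : ℝ) * y := by
        intro y hy
        have : |-(s : ℝ) * y| = |y| := by rw [abs_mul, hs2, one_mul]
        rw [← this, abs_of_pos hy]
      constructor
      · rintro ⟨⟨_, d1, d2⟩, d3, d4⟩
        rcases lt_trichotomy (P.l1 v) 0 with h1 | h1 | h1
        · right
          have h2 : 0 < -(s : ℝ) * P.l2 v := by
            by_contra hcon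
            push Not at hcon
            nlinarith
          have e2 := habs3 h2
          have e1 : |P.l1 v| = (-1) * P.l1 v := by rw [abs_of_neg h1]; ring
          rw [e1, e2] at d1 d2
          refine ⟨?_, h2, d1, d2, ?_⟩
          · show 0 < (-1 : ℝ) * P.l1 v
            linarith
          · show (-1 : ℝ) * P.l1 v * (-(s : ℝ) * P.l2 v) ≤ X
            calc (-1 : ℝ) * P.l1 v * (-(s : ℝ) * P.l2 v) = s * (P.l1 v * P.l2 v) := by ring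
              _ ≤ X := d4
        · rw [h1] at d3; simp at d3
        · left
          have h2 : 0 < (s : ℝ) * P.l2 v := by
            by_contra hcon
            push Not at hcon
            nlinarith
          have e2 := habs2 h2
          have e1 : |P.l1 v| = 1 * P.l1 v := by rw [abs_of_pos h1]; ring
          rw [e1, e2] at d1 d2
          refine ⟨?_, h2, d1, d2, ?_⟩
          · show 0 < (1 : ℝ) * P.l1 v
            linarith
          · show (1 : ℝ) * P.l1 v * ((s : ℝ) * P.l2 v) ≤ X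
            calc (1 : ℝ) * P.l1 v * ((s : ℝ) * P.l2 v) = s * (P.l1 v * P.l2 v) := by ring
              _ ≤ X := d4
      · rintro (⟨g1, g2, g3, g4, g5⟩ | ⟨g1, g2, g3, g4, g5⟩)
        · simp only at g1 g2 g3 g4 g5
          have e2 := habs2 g2
          have e1 : |P.l1 v| = 1 * P.l1 v := by rw [abs_of_pos (by linarith)]; ring
          have e3 : 0 < (s : ℝ) * (P.l1 v * P.l2 v) := by
            calc 0 < 1 * P.l1 v * (s * P.l2 v) := mul_pos g1 g2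
              _ = s * (P.l1 v * P.l2 v) := by ring
          refine ⟨⟨hv0 e3, by rw [e1, e2]; exact g3, by rw [e1, e2]; exact g4⟩, e3, ?_⟩
          calc (s : ℝ) * (P.l1 v * P.l2 v) = 1 * P.l1 v * (s * P.l2 v) := by ring
            _ ≤ X := g5
        · simp only at g1 g2 g3 g4 g5
          have e2 := habs3 g2
          have e1 : |P.l1 v| = (-1) * P.l1 v := by rw [abs_of_neg (by linarith)]; ring
          have e3 : 0 < (s : ℝ) * (P.l1 v * P.l2 v) := by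
            calc 0 < (-1) * P.l1 v * (-(s : ℝ) * P.l2 v) := mul_pos g1 g2
              _ = s * (P.l1 v * P.l2 v) := by ring
          refine ⟨⟨hv0 e3, by rw [e1, e2]; exact g3, by rw [e1, e2]; exact g4⟩, e3, ?_⟩
          calc (s : ℝ) * (P.l1 v * P.l2 v) = (-1) * P.l1 v * (-(s : ℝ) * P.l2 v) := by ring
            _ ≤ X := g5
    simp only [mem_setOf_eq, mem_union]
    tauto
  rw [key, Set.ncard_union_eq hdis f1 f2]
  push_cast
  have e2 : 2 * (volume (Rg l 1 1 1)).toReal * X / (√N * (M : ℝ) ^ 2) =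
      (volume (Rg l 1 1 1)).toReal * X / (√N * (M : ℝ) ^ 2) + (volume (Rg l 1 1 1)).toReal * X / (√N * (M : ℝ) ^ 2) := by
    ring
  rw [e2]
  rw [abs_le] at c1 c2 ⊢
  constructor <;> linarith [c1.1, c1.2, c2.1, c2.2]

end NR
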