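import Pool.Agent.Lib.MP_0f5a55_nt.NR.D
import Pool.Agent.Lib.MP_0f5a55_nt.FF.F01

open Complex MeasureTheory Set Filter Topology
open scoped Real ComplexConjugate

namespace NR

open NH

theorem E1_hasSum {N : ℕ} {a : ℕ → ℂ} {L : ℂ → ℂ} (D : Dat N a L) {s : ℂ} (hs : 2 ≤ s.re) :
    HasSum (fun n : ℕ => a (n + 1) * ((n + 1 : ℕ) : ℂ) ^ (-s)) (L s) := by
  refine (D.ser s hs).congr_fun ?_
  intro n
  rw [Nat.cast_succ]

theorem E1_series {N : ℕ} {a : ℕ → ℂ} {L : ℂ → ℂ} (D : Dat N a L) {W : ℂ} (hW : 0 < W.re) :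
    ∫ y : ℝ, L (2 + y * I) * (Gamma (2 + y * I) * W ^ (-(2 + y * I : ℂ))) =
      2 * π * ∑' n : ℕ, a (n + 1) * exp (-(((n : ℂ) + 1) * W)) := by
  have hW0 : W ≠ 0 := by rintro rfl; simp at hW
  set M : ℂ → ℝ → ℂ := fun V y => Gamma (2 + y * I) * V ^ (-(2 + y * I : ℂ)) with hM
  have hMi : ∀ V : ℂ, 0 < V.re → Integrable (M V) ∧ ∫ y, M V y = 2 * π * exp (-V) := by
    intro V hV
    obtain ⟨h1, h2⟩ := LZX.exp_mellin (c := 2) two_pos hV
    have e2 : (((2 : ℝ)) : ℂ) = 2 := by push_cast; ring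
    rw [e2] at h1 h2
    refine ⟨h1, ?_⟩
    have hpi : (π : ℂ) ≠ 0 := by exact_mod_cast Real.pi_ne_zero
    rw [← h2]
    simp only [hM]
    generalize (∫ y : ℝ, Gamma (2 + y * I) * V ^ (-(2 + y * I : ℂ))) = J
    field_simp
  set F : ℕ → ℝ → ℂ := fun n y => a (n + 1) * ((n + 1 : ℕ) : ℂ) ^ (-(2 + y * I : ℂ)) * M W y
    with hF
  have hVre : ∀ n : ℕ, 0 < (((n : ℂ) + 1) * W).re := by
    intro n
    have h0 : ((n : ℂ) + 1) = (((n : ℝ) + 1 : ℝ) : ℂ) := by push_cast; rfl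
    rw [h0, re_ofReal_mul]
    positivity
  have hF2 : ∀ n : ℕ, F n = fun y => a (n + 1) * M (((n : ℂ) + 1) * W) y := by
    intro n
    funext y
    simp only [hF, hM]
    have h0 : ((n : ℂ) + 1) = (((n : ℝ) + 1 : ℝ) : ℂ) := by push_cast; rfl
    rw [FF.F01_natcpow n (-(2 + y * I : ℂ)), h0,
      TT.T19_mulcpow (by positivity : (0 : ℝ) < (n : ℝ) + 1) hW0]
    ring
  have hFi : ∀ n, Integrable (F n) := by
    intro n
    rw [hF2 n]
    exact (hMi _ (hVre n)).1.const_mul _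
  have hFv : ∀ n, ∫ y, F n y = 2 * π * (a (n + 1) * exp (-(((n : ℂ) + 1) * W))) := by
    intro n
    rw [hF2 n, integral_const_mul, (hMi _ (hVre n)).2]
    ring
  have hb : Summable (fun n : ℕ => ‖a (n + 1) * ((n + 1 : ℕ) : ℂ) ^ (-(2 : ℂ))‖) :=
    (E1_hasSum D (s := 2) (by norm_num)).summable.norm
  have hnt : ∀ (n : ℕ) (y : ℝ), ‖a (n + 1) * ((n + 1 : ℕ) : ℂ) ^ (-(2 + y * I : ℂ))‖ =
      ‖a (n + 1) * ((n + 1 : ℕ) : ℂ) ^ (-(2 : ℂ))‖ := by
    intro n y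
    rw [norm_mul, norm_mul, Complex.norm_natCast_cpow_of_pos (Nat.succ_pos n),
      Complex.norm_natCast_cpow_of_pos (Nat.succ_pos n)]
    congr 2
    simp
  have hFn : ∀ n, (∫ y, ‖F n y‖) ≤ ‖a (n + 1) * ((n + 1 : ℕ) : ℂ) ^ (-(2 : ℂ))‖ *
      ∫ y, ‖M W y‖ := by
    intro n
    rw [← integral_const_mul]
    refine le_of_eq (integral_congr_ae (Eventually.of_forall fun y => ?_))
    simp only [hF]
    rw [norm_mul, hnt]
  have hsF : Summable (fun n => ∫ y, ‖F n y‖) :=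
    Summable.of_nonneg_of_le (fun n => integral_nonneg fun y => norm_nonneg _) hFn (hb.mul_right _)
  have hmain := hasSum_integral_of_summable_integral_norm hFi hsF
  have hre : ∀ y : ℝ, ((2 : ℂ) + y * I).re = 2 := fun y => by simp
  have hpt : ∀ y : ℝ, ∑' n, F n y = L (2 + y * I) * M W y := by
    intro y
    exact ((E1_hasSum D (s := 2 + y * I) (by rw [hre])).mul_right (M W y)).tsum_eq
  have h1 : ∫ y : ℝ, L (2 + y * I) * M W y = ∫ y : ℝ, ∑' n, F n y := by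
    congr 1
    funext y
    exact (hpt y).symm
  rw [h1, ← hmain.tsum_eq]
  simp_rw [hFv]
  rw [tsum_mul_left]

/-- Row E1. Mellin inversion on Re s = 1/2. -/
theorem mellin_f {N : ℕ} {a : ℕ → ℂ} {L : ℂ → ℂ} (D : Dat N a L) {ε : ℝ} (h0 : 0 < ε) (h1 : ε ≤ 1 / 2) (u : ℝ) :
    (2 * (π : ℂ))⁻¹ * ∫ t : ℝ, Rf N L ε t * exp (-(t * u * I)) =
      ((Real.exp (u / 2) : ℝ) : ℂ) * II.FE a (FF.tht N 1) ε (Real.exp u) := by
  obtain ⟨C1, hC1, hEb⟩ := D.gr
  obtain ⟨-, hGd, C2, hC2, hGb⟩ := OO.T_gi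
  have hpi := Real.pi_gt_three
  have hpc : (π : ℂ) ≠ 0 := by exact_mod_cast Real.pi_ne_zero
  have hN1 : (0 : ℝ) < N := by exact_mod_cast D.pos
  set θ : ℝ := FF.tht N 1 with hθdef
  have hθ : 0 < θ := by
    rw [hθdef]
    unfold FF.tht
    push_cast
    positivity
  have hθc : (θ : ℂ) ≠ 0 := by exact_mod_cast hθ.ne'
  obtain ⟨ho, hore, hoz⟩ := FF.F01_om h0 h1
  set x : ℝ := θ * Real.exp u with hx'
  have hx : 0 < x := by positivity
  have hxc : (x : ℂ) ≠ 0 := by exact_mod_cast hx.ne'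
  set M : ℂ → ℂ := fun s => (s - 1) * (OO.T_Gi s * exp ((ε : ℂ) * I * s) * L s * (x : ℂ) ^ (-s)) with hM
  have hMd : ∀ s : ℂ, 1 / 2 ≤ s.re → s.re ≤ 2 → DifferentiableAt ℂ M s := by
    intro s hs1 _
    have d1 := (hGd s (by linarith only [hs1])).1
    have d2 : DifferentiableAt ℂ (fun s : ℂ => exp ((ε : ℂ) * I * s)) s := by fun_prop
    have d3 : DifferentiableAt ℂ L s := D.ent s
    have d6 : DifferentiableAt ℂ (fun s : ℂ => (x : ℂ) ^ (-s)) s :=
      (differentiableAt_id.neg).const_cpow (Or.inl hxc)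
    have d7 : DifferentiableAt ℂ (fun s : ℂ => s - 1) s := by fun_prop
    exact d7.mul (((d1.mul d2).mul d3).mul d6)
  have hMb : ∀ s : ℂ, 1 / 2 ≤ s.re → s.re ≤ 2 →
      ‖M s‖ ≤ (C2 * C1 * (x ^ (-(1 / 2) : ℝ) + x ^ (-2 : ℝ))) * (1 + |s.im|) ^ 8 *
        Real.exp (-(ε * |s.im|)) := by
    intro s hs1 hs2
    have b1 := hGb s hs1 hs2
    have b2 : ‖exp ((ε : ℂ) * I * s)‖ = Real.exp (-(ε * s.im)) := by
      rw [Complex.norm_exp]; congr 1; simp
    have b3 := hEb s hs1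
    have b4 : ‖s - 1‖ ≤ 1 + |s.im| := by
      have h2 := Complex.norm_le_abs_re_add_abs_im (s - 1)
      have h3 : |(s - 1).re| ≤ 1 := by
        rw [sub_re, one_re, abs_le]
        constructor
        · linarith only [hs1]
        · linarith only [hs2]
      have h4 : (s - 1).im = s.im := by simp
      rw [h4] at h2
      linarith only [h2, h3]
    have b6 : ‖(x : ℂ) ^ (-s)‖ ≤ x ^ (-(1 / 2) : ℝ) + x ^ (-2 : ℝ) := by
      rw [Complex.norm_cpow_eq_rpow_re_of_pos hx, Complex.neg_re]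
      rcases le_total x 1 with h | h
      · have := Real.rpow_le_rpow_of_exponent_ge hx h (show (-2 : ℝ) ≤ -s.re by linarith only [hs2])
        have h0 := Real.rpow_pos_of_pos hx (-(1 / 2) : ℝ)
        linarith only [this, h0]
      · have := Real.rpow_le_rpow_of_exponent_le h (show -s.re ≤ (-(1 / 2) : ℝ) by linarith only [hs1])
        have h0 := Real.rpow_pos_of_pos hx (-2 : ℝ)
        linarith only [this, h0]
    have b7 : Real.exp (Real.pi / 2 * s.im - Real.pi / 2 * |s.im|) * Real.exp (-(ε * s.im)) ≤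
        Real.exp (-(ε * |s.im|)) := by
      rw [← Real.exp_add]
      apply Real.exp_le_exp.mpr
      rcases abs_cases s.im with ⟨h, h'⟩ | ⟨h, h'⟩
      · rw [h]; linarith only []
      · rw [h]
        have hpe : 2 * ε ≤ Real.pi := by linarith only [hpi, h1]
        have hm := mul_nonneg_of_nonpos_of_nonpos (sub_nonpos.2 hpe) h'.le
        linarith only [hm]
    have hP : (1 : ℝ) ≤ 1 + |s.im| := by have := abs_nonneg s.im; linarith only [this]
    have b8 : (1 + |s.im|) ^ 6 ≤ (1 + |s.im|) ^ 8 := pow_le_pow_right₀ hP (by norm_num)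
    have hX0 : 0 ≤ x ^ (-(1 / 2) : ℝ) + x ^ (-2 : ℝ) := by positivity
    calc ‖M s‖ = ‖s - 1‖ * (‖OO.T_Gi s‖ * ‖exp ((ε : ℂ) * I * s)‖ * ‖L s‖ * ‖(x : ℂ) ^ (-s)‖) := by
          simp only [hM, norm_mul]
      _ ≤ (1 + |s.im|) * ((C2 * (1 + |s.im|) ^ 3 * Real.exp (Real.pi / 2 * s.im - Real.pi / 2 * |s.im|)) *
            Real.exp (-(ε * s.im)) * (C1 * (1 + |s.im|) ^ 2) *
            (x ^ (-(1 / 2) : ℝ) + x ^ (-2 : ℝ))) := by
          rw [b2]
          gcongr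
      _ = (C2 * C1 * (x ^ (-(1 / 2) : ℝ) + x ^ (-2 : ℝ))) * (1 + |s.im|) ^ 6 *
            (Real.exp (Real.pi / 2 * s.im - Real.pi / 2 * |s.im|) * Real.exp (-(ε * s.im))) := by ring
      _ ≤ _ := by gcongr
  have hNM : ∀ s : ℂ, s ≠ 1 → M s / (s - 1) = L s * (Gamma s * (2 * π * x * II.om ε : ℂ) ^ (-s)) := by
    intro s hs
    have hs' : s - 1 ≠ 0 := sub_ne_zero.mpr hs
    simp only [hM]
    rw [← FF.F01_ker h0 h1 hx s, div_eq_iff hs']
    ring
  obtain ⟨-, -, hsh⟩ := OO.T_shift (N := M) (a := 1 / 2) (b := 2) (by norm_num) (by norm_num) hMd h0 hMb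
  have c1 : (((1 / 2 : ℝ)) : ℂ) = 1 / 2 := by push_cast; ring
  have c2 : (((2 : ℝ)) : ℂ) = 2 := by push_cast; ring
  rw [c1, c2] at hsh
  have hM1 : M 1 = 0 := by simp [hM]
  rw [hM1, mul_zero, add_zero] at hsh
  have i1 : ∀ y : ℝ, M (2 + y * I) / (2 + y * I - 1) = L (2 + y * I) *
      (Gamma (2 + y * I) * (2 * π * x * II.om ε : ℂ) ^ (-(2 + y * I : ℂ))) := by
    intro y
    apply hNM
    intro h
    have := congrArg Complex.re h
    norm_num at this
  have i2 : ∀ t : ℝ, Rf N L ε t * exp (-(t * u * I)) = ((Real.exp (u / 2) : ℝ) : ℂ) *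
      (M (1 / 2 + t * I) / (1 / 2 + t * I - 1)) := by
    intro t
    rw [hNM]
    · have e1 : (2 * π * x * II.om ε : ℂ) = ((Real.exp u : ℝ) : ℂ) * (2 * π * θ * II.om ε) := by
        rw [hx']
        push_cast
        ring
      have e2 : (2 * π * θ * II.om ε : ℂ) ≠ 0 :=
        mul_ne_zero (mul_ne_zero (mul_ne_zero two_ne_zero hpc) hθc) ho
      have e3 : exp (-(t * u * I)) = ((Real.exp (u / 2) : ℝ) : ℂ) *
          exp (-(1 / 2 + t * I) * (u : ℂ)) := by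
        rw [ofReal_exp, ← exp_add]
        congr 1
        push_cast
        ring
      rw [e1, TT.T19_mulcpow (Real.exp_pos u) e2, Real.log_exp, e3]
      unfold Rf
      rw [← hθdef]
      ring
    · intro h
      have := congrArg Complex.re h
      norm_num at this
  have hL : ∫ t : ℝ, Rf N L ε t * exp (-(t * u * I)) = ((Real.exp (u / 2) : ℝ) : ℂ) *
      ∫ t : ℝ, M (1 / 2 + t * I) / (1 / 2 + t * I - 1) := by
    rw [← integral_const_mul]
    exact integral_congr_ae (Eventually.of_forall fun t => i2 t)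
  have hWre : 0 < (2 * π * x * II.om ε : ℂ).re := by
    have e : (2 * π * x * II.om ε : ℂ) = ((2 * π * x : ℝ) : ℂ) * II.om ε := by push_cast; ring
    rw [e, re_ofReal_mul]
    positivity
  simp only [i1] at hsh
  rw [E1_series D hWre] at hsh
  have hFE : ∑' n : ℕ, a (n + 1) * exp (-(((n : ℂ) + 1) * (2 * π * x * II.om ε))) =
      II.FE a θ ε (Real.exp u) := by
    unfold II.FE
    refine tsum_congr fun n => ?_
    congr 2
    rw [hx']
    push_cast
    ring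
  rw [hFE] at hsh
  rw [hL, ← hsh]
  field_simp

end NR
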