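import Pool.Agent.Lib.MP_0f5a55_nt.NR.D
import Pool.Agent.Lib.MP_0f5a55_nt.FF.F02
import Pool.Agent.Lib.MP_0f5a55_nt.FF.F03
import Pool.Agent.Lib.MP_0f5a55_nt.FF.F06

open Complex MeasureTheory Set Filter Topology
open scoped Real ComplexConjugate

namespace NR

open NH

/-- Row E2. Growth on the critical line and the size of Rf. -/
theorem L_pol {N : ℕ} {a : ℕ → ℂ} {L : ℂ → ℂ} (D : Dat N a L) : ∃ C : ℝ, 0 < C ∧
    ∀ s : ℂ, 1 / 2 ≤ s.re → 1 ≤ |s.im| → ‖L s‖ ≤ C * (1 + |s.im|) ^ 2 := by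
  obtain ⟨C, hC, h⟩ := D.gr
  exact ⟨C, hC, fun s hs _ => h s hs⟩

theorem L_line {N : ℕ} {a : ℕ → ℂ} {L : ℂ → ℂ} (D : Dat N a L) : ∃ C : ℝ, 0 ≤ C ∧ ∀ t : ℝ,
    ‖L (1 / 2 + t * I)‖ ≤ C * (1 + |t|) ^ 2 := by
  obtain ⟨C, hC, h⟩ := D.gr
  refine ⟨C, hC.le, fun t => ?_⟩
  have := h (1 / 2 + t * I) (by simp)
  simpa using this

theorem E2_tht {N : ℕ} (hN : 0 < N) : 0 < FF.tht N 1 := by
  unfold FF.tht
  have h1 : (0:ℝ) < N := by exact_mod_cast hN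
  positivity

theorem E2_base (N : ℕ) (ε : ℝ) :
    (2 * π * FF.tht N 1 * II.om ε : ℂ) = ((2 * π * FF.tht N 1 : ℝ) : ℂ) * II.om ε := by
  push_cast; ring

theorem E2_base_ne {N : ℕ} (hN : 0 < N) (ε : ℝ) : (2 * π * FF.tht N 1 * II.om ε : ℂ) ≠ 0 := by
  have h := E2_tht hN
  have h1 : (0:ℝ) < 2 * π * FF.tht N 1 := by positivity
  have h2 : II.om ε ≠ 0 := by unfold II.om; exact exp_ne_zero _
  rw [E2_base]
  exact mul_ne_zero (by exact_mod_cast h1.ne') h2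

theorem E2_gam_cont : Continuous fun t : ℝ => Gamma (1 / 2 + t * I) := by
  rw [continuous_iff_continuousAt]
  intro t
  have h1 : ContinuousAt Gamma (1 / 2 + t * I) := by
    refine (differentiableAt_Gamma _ ?_).continuousAt
    intro m hm
    have := congrArg Complex.re hm
    simp at this
    have h0 : (0:ℝ) ≤ m := Nat.cast_nonneg m
    linarith
  have h2 : ContinuousAt (fun t : ℝ => (1 / 2 + t * I : ℂ)) t := by fun_prop
  exact ContinuousAt.comp (f := fun t : ℝ => (1 / 2 + t * I : ℂ)) h1 h2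

theorem E2_pow_norm {N : ℕ} (hN : 0 < N) {ε : ℝ} (h0 : 0 < ε) (h1 : ε ≤ 1 / 2) (t : ℝ) :
    ‖(2 * π * FF.tht N 1 * II.om ε : ℂ) ^ (-(1 / 2 + t * I) : ℂ)‖ =
      (2 * π * FF.tht N 1) ^ (-(1 / 2) : ℝ) * Real.exp ((π / 2 - ε) * t) := by
  have hpi := Real.pi_gt_three
  have ht := E2_tht hN
  have hr : (0:ℝ) < 2 * π * FF.tht N 1 := by positivity
  rw [norm_cpow_of_ne_zero (E2_base_ne hN ε), E2_base]
  have e1 : ‖((2 * π * FF.tht N 1 : ℝ) : ℂ) * II.om ε‖ = 2 * π * FF.tht N 1 := by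
    unfold II.om
    rw [norm_mul, norm_exp_ofReal_mul_I, mul_one, Complex.norm_real, Real.norm_eq_abs,
      abs_of_pos hr]
  have e2 : arg (((2 * π * FF.tht N 1 : ℝ) : ℂ) * II.om ε) = π / 2 - ε := by
    unfold II.om
    rw [Complex.arg_real_mul _ hr, Complex.arg_exp_mul_I, toIocMod_eq_self]
    constructor <;> linarith
  have e3 : (-(1 / 2 + t * I) : ℂ).re = -(1 / 2) := by simp
  have e4 : (-(1 / 2 + t * I) : ℂ).im = -t := by simp
  rw [e1, e2, e3, e4, mul_neg, Real.exp_neg, div_inv_eq_mul]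

theorem Rf_cont {N : ℕ} {a : ℕ → ℂ} {L : ℂ → ℂ} (D : Dat N a L) (ε : ℝ) : Continuous (Rf N L ε) := by
  unfold Rf
  have hP : Continuous fun t : ℝ => (2 * π * FF.tht N 1 * II.om ε : ℂ) ^ (-(1 / 2 + t * I) : ℂ) := by
    have h1 : Continuous fun t : ℝ => (-(1 / 2 + t * I) : ℂ) := by fun_prop
    exact h1.const_cpow (Or.inl (E2_base_ne D.pos ε))
  have hL : Continuous fun t : ℝ => L (1 / 2 + t * I) :=
    D.ent.continuous.comp (by fun_prop : Continuous fun t : ℝ => (1 / 2 + t * I : ℂ))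
  exact (E2_gam_cont.mul hP).mul hL

theorem Rf_le {N : ℕ} {a : ℕ → ℂ} {L : ℂ → ℂ} (D : Dat N a L) : ∃ C : ℝ, 0 ≤ C ∧ ∀ ε : ℝ, 0 < ε → ε ≤ 1 / 2 →
    ∀ t : ℝ, ‖Rf N L ε t‖ ≤ C * (1 + |t|) ^ 6 * Real.exp (-(ε * |t|)) ∧
      (t ≤ 0 → ‖Rf N L ε t‖ ≤ C * (1 + |t|) ^ 6 * Real.exp (-|t|)) := by
  obtain ⟨C1, hC1, hL⟩ := L_line D
  set r : ℝ := (2 * π * FF.tht N 1) ^ (-(1 / 2) : ℝ) with hr
  have hr0 : 0 ≤ r := Real.rpow_nonneg (by have := E2_tht D.pos; positivity) _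
  refine ⟨3 * r * C1, by positivity, ?_⟩
  intro ε hε hε1 t
  have hpi := Real.pi_gt_three
  have ht0 := abs_nonneg t
  have hG := FF.F03_gam_le t
  have main : ‖Rf N L ε t‖ ≤ 3 * r * C1 * (1 + |t|) ^ 2 *
      Real.exp (-(π * |t| / 2) + (π / 2 - ε) * t) := by
    unfold Rf
    rw [norm_mul, norm_mul, E2_pow_norm D.pos hε hε1, ← hr]
    calc ‖Gamma (1 / 2 + t * I)‖ * (r * Real.exp ((π / 2 - ε) * t)) * ‖L (1 / 2 + t * I)‖
        ≤ (3 * Real.exp (-(π * |t| / 2))) * (r * Real.exp ((π / 2 - ε) * t)) *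
          (C1 * (1 + |t|) ^ 2) := by
          refine mul_le_mul (mul_le_mul_of_nonneg_right hG (by positivity)) (hL t) (by positivity)
            (by positivity)
      _ = _ := by
          rw [Real.exp_add]
          ring
  have h26 : (1 + |t|) ^ 2 ≤ (1 + |t|) ^ 6 := pow_le_pow_right₀ (by linarith) (by norm_num)
  have hK : 0 ≤ 3 * r * C1 := by positivity
  constructor
  · refine main.trans ?_
    refine mul_le_mul (mul_le_mul_of_nonneg_left h26 hK) (Real.exp_le_exp.2 ?_)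
      (Real.exp_pos _).le (by positivity)
    rcases abs_cases t with ⟨h, _⟩ | ⟨h, _⟩ <;> rw [h] <;> nlinarith
  · intro ht
    refine main.trans ?_
    refine mul_le_mul (mul_le_mul_of_nonneg_left h26 hK) (Real.exp_le_exp.2 ?_)
      (Real.exp_pos _).le (by positivity)
    rw [abs_of_nonpos ht]
    nlinarith

end NR
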