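import Pool.Agent.Lib.MP_0f5a55_nt.NR.E2

open Complex MeasureTheory Set Filter Topology
open scoped Real ComplexConjugate

namespace NR

open NH

private theorem E3_A {N : ℕ} (hN : 0 < N) : 0 < √(N : ℝ) / (2 * π) := by
  have : (0 : ℝ) < N := by exact_mod_cast hN
  have := Real.pi_pos
  positivity

private theorem E3_tht {N : ℕ} (hN : 0 < N) : 0 < FF.tht N 1 := by
  unfold FF.tht
  have h1 : (0:ℝ) < N := by exact_mod_cast hN
  positivity

/-- the structure of Rf -/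
private theorem E3_struct {N : ℕ} (hN : 0 < N) (L : ℂ → ℂ) {ε : ℝ} (h0 : 0 < ε) (h1 : ε ≤ 1 / 2) (t : ℝ) :
    Rf N L ε t = exp (-(((π / 2 - ε) / 2 : ℝ) : ℂ) * I) * ((Real.exp ((π / 2 - ε) * t) : ℝ) : ℂ) *
      Lam N L (1 / 2 + t * I) := by
  have hA := E3_A hN
  have hth := E3_tht hN
  have hpi := Real.pi_gt_three
  have hr : (0 : ℝ) < 2 * π * FF.tht N 1 := by positivity
  have hrA : 2 * π * FF.tht N 1 = (√(N : ℝ) / (2 * π))⁻¹ := by
    unfold FF.tht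
    rw [inv_div, Nat.cast_one, mul_one, div_eq_mul_inv]
  have e1 : (2 * π * FF.tht N 1 * II.om ε : ℂ) = ((2 * π * FF.tht N 1 : ℝ) : ℂ) * II.om ε := by
    push_cast; ring
  have e2 : II.om ε ≠ 0 := by unfold II.om; exact exp_ne_zero _
  have e3 : Complex.log (II.om ε) = ((π / 2 - ε : ℝ) : ℂ) * I := by
    unfold II.om
    apply Complex.log_exp
    · rw [im_ofReal_mul, I_im, mul_one]
      linarith
    · rw [im_ofReal_mul, I_im, mul_one]
      linarith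
  have e4 : Real.log (2 * π * FF.tht N 1) = -Real.log (√(N : ℝ) / (2 * π)) := by
    rw [hrA, Real.log_inv]
  have e5 : (2 * π * FF.tht N 1 * II.om ε : ℂ) ^ (-(1 / 2 + t * I) : ℂ) =
      exp (-(((π / 2 - ε) / 2 : ℝ) : ℂ) * I) * ((Real.exp ((π / 2 - ε) * t) : ℝ) : ℂ) *
        ((√(N : ℝ) / (2 * π) : ℝ) : ℂ) ^ (1 / 2 + t * I : ℂ) := by
    rw [e1, cpow_def_of_ne_zero (mul_ne_zero (by exact_mod_cast hr.ne') e2), Complex.log_ofReal_mul hr e2,
      e3, e4, cpow_def_of_ne_zero (by exact_mod_cast hA.ne'), ← Complex.ofReal_log hA.le, ofReal_exp,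
      ← exp_add, ← exp_add]
    congr 1
    push_cast
    have := I_mul_I
    linear_combination -((π / 2 - ε) * t : ℂ) * this
  unfold Rf Lam
  rw [e5]
  ring

private theorem E3_Zfc {N : ℕ} {a : ℕ → ℂ} {L : ℂ → ℂ} (D : Dat N a L) {v : ℝ → ℂ} (hv : Continuous v) :
    Continuous (Zf L v) := by
  unfold Zf
  have hL : Continuous fun t : ℝ => L (1 / 2 + t * I) :=
    D.ent.continuous.comp (by fun_prop : Continuous fun t : ℝ => (1 / 2 + t * I : ℂ))
  exact continuous_re.comp (hv.mul hL)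

private theorem E3_cosh (x : ℝ) : Real.exp |x| / 2 ≤ Real.cosh x := by
  rw [← Real.cosh_abs, Real.cosh_eq]
  have := Real.exp_pos (-|x|)
  linarith

private theorem E3_sqrt (t : ℝ) : √(π / Real.cosh (π * t)) ≤ √(2 * π) * Real.exp (-(π * |t| / 2)) := by
  have hpi := Real.pi_pos
  have h1 := E3_cosh (π * t)
  rw [abs_mul, abs_of_pos hpi] at h1
  have he : 0 < Real.exp (π * |t|) := Real.exp_pos _
  have h2 : π / Real.cosh (π * t) ≤ 2 * π * Real.exp (-(π * |t|)) := by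
    rw [div_le_iff₀ (Real.cosh_pos _)]
    have h3 : Real.exp (-(π * |t|)) * Real.exp (π * |t|) = 1 := by
      rw [← Real.exp_add]
      simp
    have h4 : 0 < Real.exp (-(π * |t|)) := Real.exp_pos _
    calc π = 2 * π * (Real.exp (-(π * |t|)) * (Real.exp (π * |t|) / 2)) := by
          rw [← mul_div_assoc, h3]
          ring
      _ ≤ 2 * π * (Real.exp (-(π * |t|)) * Real.cosh (π * t)) := by gcongr
      _ = 2 * π * Real.exp (-(π * |t|)) * Real.cosh (π * t) := by ring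
  calc √(π / Real.cosh (π * t)) ≤ √(2 * π * Real.exp (-(π * |t|))) := Real.sqrt_le_sqrt h2
    _ = √(2 * π) * √(Real.exp (-(π * |t|))) := Real.sqrt_mul (by positivity) _
    _ = √(2 * π) * Real.exp (-(π * |t| / 2)) := by
        congr 1
        rw [Real.sqrt_eq_iff_mul_self_eq (Real.exp_pos _).le (Real.exp_pos _).le, ← Real.exp_add]
        congr 1
        ring

/-- Row E3. The real function r2 and its relation with Rf. -/
theorem r2_cont {N : ℕ} {a : ℕ → ℂ} {L : ℂ → ℂ} (D : Dat N a L) {v : ℝ → ℂ} (hv : Continuous v) (ε : ℝ) :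
    Continuous (r2 N L v ε) := by
  unfold r2
  have h1 : Continuous fun t : ℝ => √(π / Real.cosh (π * t)) := by
    refine Real.continuous_sqrt.comp (continuous_const.div ?_ ?_)
    · exact Real.continuous_cosh.comp (continuous_const.mul continuous_id)
    · intro t
      exact (Real.cosh_pos _).ne'
  have h2 : Continuous fun t : ℝ => Real.exp ((π / 2 - ε) * t) :=
    Real.continuous_exp.comp (continuous_const.mul continuous_id)
  exact h2.mul ((continuous_const.mul h1).mul (E3_Zfc D hv))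

theorem r2_le {N : ℕ} {a : ℕ → ℂ} {L : ℂ → ℂ} (D : Dat N a L) : ∃ C : ℝ, 0 < C ∧ ∀ (v : ℝ → ℂ) (ε : ℝ),
    (∀ t, ‖v t‖ = 1) → 0 < ε → ε ≤ 1 / 2 → ∀ t : ℝ, |r2 N L v ε t| ≤ C * (1 + |t|) ^ 4 * Real.exp (-(ε * |t|)) ∧
      (t ≤ 0 → |r2 N L v ε t| ≤ C * (1 + |t|) ^ 4 * Real.exp (-|t|)) := by
  obtain ⟨C0, hC0, hL⟩ := L_line D
  have hpi := Real.pi_gt_three
  have hA := E3_A D.pos
  refine ⟨√(√N / (2 * π)) * √(2 * π) * (C0 + 1), by positivity, fun v ε hv h0 h1 t => ?_⟩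
  have hZ : |Zf L v t| ≤ (C0 + 1) * (1 + |t|) ^ 4 := by
    calc |Zf L v t| ≤ ‖v t * L (1 / 2 + t * I)‖ := abs_re_le_norm _
      _ = ‖L (1 / 2 + t * I)‖ := by rw [norm_mul, hv t, one_mul]
      _ ≤ C0 * (1 + |t|) ^ 2 := hL t
      _ ≤ (C0 + 1) * (1 + |t|) ^ 4 := by
          have ht : (1 : ℝ) ≤ 1 + |t| := by linarith [abs_nonneg t]
          have h3 : (1 + |t|) ^ 2 ≤ (1 + |t|) ^ 4 := pow_le_pow_right₀ ht (by norm_num)
          have h4 : (0 : ℝ) ≤ (1 + |t|) ^ 2 := by positivity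
          have h5 : (0 : ℝ) ≤ (1 + |t|) ^ 4 := by positivity
          nlinarith
  have hmain : |r2 N L v ε t| ≤ √(√N / (2 * π)) * √(2 * π) * (C0 + 1) * (1 + |t|) ^ 4 *
      (Real.exp ((π / 2 - ε) * t) * Real.exp (-(π * |t| / 2))) := by
    unfold r2
    rw [abs_mul, abs_mul, abs_mul, abs_of_pos (Real.exp_pos _), abs_of_nonneg (Real.sqrt_nonneg _),
      abs_of_nonneg (Real.sqrt_nonneg _)]
    calc Real.exp ((π / 2 - ε) * t) * (√(√N / (2 * π)) * √(π / Real.cosh (π * t)) * |Zf L v t|)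
        ≤ Real.exp ((π / 2 - ε) * t) * (√(√N / (2 * π)) * (√(2 * π) * Real.exp (-(π * |t| / 2))) *
          ((C0 + 1) * (1 + |t|) ^ 4)) := by
          have := E3_sqrt t
          gcongr
      _ = _ := by ring
  have hexp : Real.exp ((π / 2 - ε) * t) * Real.exp (-(π * |t| / 2)) ≤ Real.exp (-(ε * |t|)) ∧
      (t ≤ 0 → Real.exp ((π / 2 - ε) * t) * Real.exp (-(π * |t| / 2)) ≤ Real.exp (-|t|)) := by
    rw [← Real.exp_add]
    constructor
    · apply Real.exp_le_exp.2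
      rcases le_total 0 t with ht | ht
      · rw [abs_of_nonneg ht]
        linarith
      · rw [abs_of_nonpos ht]
        nlinarith
    · intro ht
      apply Real.exp_le_exp.2
      rw [abs_of_nonpos ht]
      nlinarith
  constructor
  · refine hmain.trans ?_
    exact mul_le_mul_of_nonneg_left hexp.1 (by positivity)
  · intro ht
    refine hmain.trans ?_
    exact mul_le_mul_of_nonneg_left (hexp.2 ht) (by positivity)

private theorem E3_Zf_abs {N : ℕ} {L : ℂ → ℂ} {u : ℂ} {v W : ℝ → ℂ} {C : ℝ} (hp : Ph N L u v W C) (t : ℝ) :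
    |Zf L v t| = ‖L (1 / 2 + t * I)‖ ∧ ((Zf L v t : ℝ) : ℂ) = v t * L (1 / 2 + t * I) := by
  have h1 : ((Zf L v t : ℝ) : ℂ) = v t * L (1 / 2 + t * I) := by
    apply Complex.ext
    · rw [ofReal_re]
      rfl
    · rw [ofReal_im, hp.re t]
  refine ⟨?_, h1⟩
  rw [← Real.norm_eq_abs, ← norm_real, h1, norm_mul, hp.nv t, one_mul]

theorem r2_abs {N : ℕ} {L : ℂ → ℂ} {u : ℂ} {v W : ℝ → ℂ} {C : ℝ} (hp : Ph N L u v W C) (ε t : ℝ) :
    |r2 N L v ε t| = Real.exp ((π / 2 - ε) * t) * (√(√N / (2 * π)) * √(π / Real.cosh (π * t)) *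
      ‖L (1 / 2 + t * I)‖) := by
  unfold r2
  rw [abs_mul, abs_mul, abs_mul, abs_of_pos (Real.exp_pos _), abs_of_nonneg (Real.sqrt_nonneg _),
      abs_of_nonneg (Real.sqrt_nonneg _), (E3_Zf_abs hp t).1]

theorem Zf_abs {N : ℕ} {L : ℂ → ℂ} {u : ℂ} {v W : ℝ → ℂ} {C : ℝ} (hp : Ph N L u v W C) (t : ℝ) :
    |Zf L v t| = ‖L (1 / 2 + t * I)‖ ∧ ((Zf L v t : ℝ) : ℂ) = v t * L (1 / 2 + t * I) :=
  E3_Zf_abs hp t

theorem Zf_cont {N : ℕ} {a : ℕ → ℂ} {L : ℂ → ℂ} (D : Dat N a L) {v : ℝ → ℂ} (hv : Continuous v) :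
    Continuous (Zf L v) := E3_Zfc D hv

/-- the rotated completed L-function in terms of r2 -/
theorem Rf_r2 {N : ℕ} (hN : 0 < N) {L : ℂ → ℂ} {u : ℂ} {v W : ℝ → ℂ} {C : ℝ} (hp : Ph N L u v W C) {ε : ℝ}
    (h0 : 0 < ε) (h1 : ε ≤ 1 / 2) (t : ℝ) :
    u * exp (((π / 2 - ε : ℝ) : ℂ) * I / 2) * Rf N L ε t = ((r2 N L v ε t : ℝ) : ℂ) * W t := by
  rw [E3_struct hN L h0 h1 t]
  have e1 : exp (((π / 2 - ε : ℝ) : ℂ) * I / 2) * exp (-(((π / 2 - ε) / 2 : ℝ) : ℂ) * I) = 1 := by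
    rw [← exp_add]
    have : ((π / 2 - ε : ℝ) : ℂ) * I / 2 + -(((π / 2 - ε) / 2 : ℝ) : ℂ) * I = 0 := by
      push_cast
      ring
    rw [this, exp_zero]
  have e2 := hp.eq t
  have e3 := (E3_Zf_abs hp t).2
  unfold r2 Lam
  rw [ofReal_mul (Real.exp _), ofReal_mul (_ * _) (Zf L v t), e3]
  calc u * exp (((π / 2 - ε : ℝ) : ℂ) * I / 2) * (exp (-(((π / 2 - ε) / 2 : ℝ) : ℂ) * I) *
        ((Real.exp ((π / 2 - ε) * t) : ℝ) : ℂ) * (((√N / (2 * π) : ℝ) : ℂ) ^ (1 / 2 + t * I : ℂ) *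
          Gamma (1 / 2 + t * I) * L (1 / 2 + t * I)))
      = (exp (((π / 2 - ε : ℝ) : ℂ) * I / 2) * exp (-(((π / 2 - ε) / 2 : ℝ) : ℂ) * I)) *
        ((Real.exp ((π / 2 - ε) * t) : ℝ) : ℂ) * (u * (((√N / (2 * π) : ℝ) : ℂ) ^ (1 / 2 + t * I : ℂ) *
          Gamma (1 / 2 + t * I))) * L (1 / 2 + t * I) := by ring
    _ = _ := by
        rw [e1, e2]
        ring

theorem r2_W {N : ℕ} {a : ℕ → ℂ} {L : ℂ → ℂ} (D : Dat N a L) {u : ℂ} {v W : ℝ → ℂ} {C : ℝ}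
    (hp : Ph N L u v W C) : ∃ K : ℝ, 0 ≤ K ∧ ∀ ε : ℝ, 0 < ε → ε ≤ 1 / 2 → ∀ t : ℝ,
      |r2 N L v ε t| * ‖W t - 1‖ ≤ K * ((1 + |t|) ^ 4 * Real.exp (-|t|)) := by
  obtain ⟨C0, hC0, h⟩ := r2_le D
  have hpi := Real.pi_gt_three
  refine ⟨C0 * (2 + |C|), by positivity, fun ε h0 h1 t => ?_⟩
  obtain ⟨a1, a2⟩ := h v ε hp.nv h0 h1 t
  have hE : 0 < Real.exp (-|t|) := Real.exp_pos _
  have hT : 0 < (1 + |t|) ^ 4 := by positivity
  rcases le_total t 0 with ht | ht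
  · have b1 := a2 ht
    have b2 : ‖W t - 1‖ ≤ 2 := by
      calc ‖W t - 1‖ ≤ ‖W t‖ + ‖(1 : ℂ)‖ := norm_sub_le _ _
        _ = 2 := by rw [hp.nW t, norm_one]; norm_num
    calc |r2 N L v ε t| * ‖W t - 1‖ ≤ (C0 * (1 + |t|) ^ 4 * Real.exp (-|t|)) * 2 := by gcongr
      _ ≤ (C0 * (1 + |t|) ^ 4 * Real.exp (-|t|)) * (2 + |C|) := by
          gcongr
          linarith [abs_nonneg C]
      _ = _ := by ring
  · have b1 : |r2 N L v ε t| ≤ C0 * (1 + |t|) ^ 4 := by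
      refine a1.trans ?_
      have : Real.exp (-(ε * |t|)) ≤ 1 := by
        apply Real.exp_le_one_iff.2
        have := mul_nonneg h0.le (abs_nonneg t)
        linarith
      calc C0 * (1 + |t|) ^ 4 * Real.exp (-(ε * |t|)) ≤ C0 * (1 + |t|) ^ 4 * 1 := by gcongr
        _ = _ := mul_one _
    have b2 : ‖W t - 1‖ ≤ |C| * Real.exp (-|t|) := by
      refine (hp.W1 t).trans ?_
      have h3 : Real.exp (-(π * t)) ≤ Real.exp (-|t|) := by
        apply Real.exp_le_exp.2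
        rw [abs_of_nonneg ht]
        nlinarith
      calc C * Real.exp (-(π * t)) ≤ |C| * Real.exp (-(π * t)) := by
            have := le_abs_self C
            gcongr
        _ ≤ |C| * Real.exp (-|t|) := by gcongr
    calc |r2 N L v ε t| * ‖W t - 1‖ ≤ (C0 * (1 + |t|) ^ 4) * (|C| * Real.exp (-|t|)) := by gcongr
      _ = C0 * (|C|) * ((1 + |t|) ^ 4 * Real.exp (-|t|)) := by ring
      _ ≤ C0 * (2 + |C|) * ((1 + |t|) ^ 4 * Real.exp (-|t|)) := by
          gcongr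
          linarith

end NR
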