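import Pool.Agent.Lib.MP_0f5a55_nt.NR.D
import Pool.Agent.Lib.MP_0f5a55_nt.TT.T20

open Complex MeasureTheory Set Filter Topology
open scoped Real ComplexConjugate

namespace NR

open NH

/-- Row E4. Size of the theta functions, uniformly in ε. -/
theorem rho_le {q : ℕ} (hq : 0 < q) (p : ℕ) : ∃ C : ℝ, 0 ≤ C ∧ ∀ f : ℕ → ℂ, (∀ n, ‖f n‖ ≤ 1) →
    ∀ ε : ℝ, 0 < ε → ε ≤ 1 / 2 → ∀ x : ℝ, 0 < x →
      ‖TT.rho q f p ε x‖ ≤ C * ε ^ (-(((p : ℝ) + 1) / 2)) * Real.exp (-(x / 2)) := by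
  obtain ⟨C, hC, h⟩ := TT.rho_triv hq p
  refine ⟨C, hC, fun f hf ε h0 h1 x _ => ?_⟩
  rw [add_comm (p : ℝ) 1]
  exact h f hf ε h0 h1 x

end NR
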