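import Mathlib

open Complex MeasureTheory Set Filter Topology
open scoped Real ComplexConjugate

namespace NR

open scoped FourierTransform in
/-- Fourier inversion in our normalisation -/
theorem E5a_inv {r : ℝ → ℝ} {f : ℝ → ℂ} (c : Continuous r) (i : Integrable r)
    (h : ∀ u : ℝ, f u = (2 * (π : ℂ))⁻¹ * ∫ t : ℝ, (r t : ℂ) * exp (-(t * u * I)))
    (j : Integrable f) (t : ℝ) : (r t : ℂ) = ∫ u : ℝ, f u * exp (((t * u : ℝ) : ℂ) * I) := by
  have hpi : (2 * (π : ℂ)) ≠ 0 := by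
    have := Real.pi_ne_zero
    exact mul_ne_zero two_ne_zero (by exact_mod_cast this)
  have hF : ∀ w : ℝ, 𝓕 (fun t : ℝ => (r t : ℂ)) w = 2 * (π : ℂ) * f (2 * π * w) := by
    intro w
    rw [Real.fourier_real_eq_integral_exp_smul, h, ← mul_assoc, mul_inv_cancel₀ hpi, one_mul]
    refine integral_congr_ae (Filter.Eventually.of_forall (fun v => ?_))
    simp only [smul_eq_mul]
    rw [mul_comm]
    congr 2
    push_cast
    ring
  have hFi : Integrable (𝓕 (fun t : ℝ => (r t : ℂ))) := by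
    have : 𝓕 (fun t : ℝ => (r t : ℂ)) = fun w => 2 * (π : ℂ) * f (2 * π * w) := funext hF
    rw [this]
    exact (j.comp_mul_left' (by positivity)).const_mul _
  have hinv := (i.ofReal (𝕜 := ℂ)).fourierInv_fourier_eq hFi
    (continuous_ofReal.comp c).continuousAt (v := t)
  have h2 : (r t : ℂ) = 𝓕⁻ (𝓕 (fun t : ℝ => (r t : ℂ))) t := hinv.symm
  rw [h2, Real.fourierInv_eq']
  have h3 : (fun v : ℝ => exp (((2 * π * inner ℝ v t : ℝ) : ℂ) * I) • 𝓕 (fun t : ℝ => (r t : ℂ)) v) =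
      fun v : ℝ => (fun u : ℝ => 2 * (π : ℂ) * (f u * exp (((t * u : ℝ) : ℂ) * I))) (2 * π * v) := by
    funext v
    rw [hF]
    simp only [smul_eq_mul]
    rw [show (inner ℝ v t : ℝ) = v * t by simp [mul_comm]]
    rw [show (2 * π * (v * t) : ℝ) = t * (2 * π * v) by ring]
    ring
  rw [h3, Measure.integral_comp_mul_left (fun u : ℝ => 2 * (π : ℂ) * (f u * exp (((t * u : ℝ) : ℂ) * I)))
    (2 * π), integral_const_mul]
  rw [abs_of_pos (by positivity : 0 < (2 * π)⁻¹), Complex.real_smul]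
  push_cast
  rw [← mul_assoc, inv_mul_cancel₀ hpi, one_mul]

theorem E5a_conj_c : conj ((2 * (π : ℂ))⁻¹) = (2 * (π : ℂ))⁻¹ := by
  rw [show (2 * (π : ℂ))⁻¹ = (((2 * π)⁻¹ : ℝ) : ℂ) by push_cast; ring, Complex.conj_ofReal]

theorem E5a_norm_c : ‖(2 * (π : ℂ))⁻¹‖ = (2 * π)⁻¹ := by
  rw [show (2 * (π : ℂ))⁻¹ = (((2 * π)⁻¹ : ℝ) : ℂ) by push_cast; ring, Complex.norm_real,
    Real.norm_of_nonneg (by positivity)]

theorem E5a_norm_exp (t x : ℝ) : ‖exp (-((t : ℂ) * x * I))‖ = 1 := by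
  rw [show (-((t : ℂ) * x * I)) = ((-(t * x) : ℝ) : ℂ) * I by push_cast; ring, Complex.norm_exp_ofReal_mul_I]

/-- the transform -/
noncomputable def E5a_T (R : ℝ → ℂ) (x : ℝ) : ℂ := (2 * (π : ℂ))⁻¹ * ∫ t : ℝ, R t * exp (-(t * x * I))

theorem E5a_intg {R : ℝ → ℂ} (hR : Integrable R) (x : ℝ) :
    Integrable (fun t : ℝ => R t * exp (-(t * x * I))) := by
  refine hR.mul_bdd (c := 1) ?_ (Eventually.of_forall fun t => (E5a_norm_exp t x).le)
  refine Continuous.aestronglyMeasurable ?_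
  fun_prop

theorem E5a_le (R : ℝ → ℂ) (x : ℝ) : ‖E5a_T R x‖ ≤ (2 * π)⁻¹ * ∫ t : ℝ, ‖R t‖ := by
  unfold E5a_T
  rw [norm_mul, E5a_norm_c]
  refine mul_le_mul_of_nonneg_left ?_ (by positivity)
  refine (norm_integral_le_integral_norm _).trans (le_of_eq ?_)
  refine integral_congr_ae (Eventually.of_forall fun t => ?_)
  simp only []
  rw [norm_mul, E5a_norm_exp, mul_one]

theorem E5a_cont {R : ℝ → ℂ} (hR : Integrable R) : Continuous (E5a_T R) := by
  unfold E5a_T
  refine continuous_const.mul ?_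
  refine continuous_of_dominated (bound := fun t => ‖R t‖) ?_ ?_ hR.norm ?_
  · intro u
    exact (E5a_intg hR u).aestronglyMeasurable
  · intro u
    refine Eventually.of_forall fun t => ?_
    rw [norm_mul, E5a_norm_exp, mul_one]
  · refine Eventually.of_forall fun t => ?_
    fun_prop

theorem E5a_neg (r : ℝ → ℝ) (x : ℝ) : E5a_T (fun t => (r t : ℂ)) (-x) = conj (E5a_T (fun t => (r t : ℂ)) x) := by
  unfold E5a_T
  rw [map_mul, ← integral_conj, E5a_conj_c]
  congr 1
  refine integral_congr_ae (Eventually.of_forall fun t => ?_)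
  simp only [map_mul, ← Complex.exp_conj, map_neg, Complex.conj_ofReal, Complex.conj_I]
  push_cast
  ring_nf

theorem E5a_conjT (r : ℝ → ℝ) (x : ℝ) : conj (E5a_T (fun t => (r t : ℂ)) x) =
    (2 * (π : ℂ))⁻¹ * ∫ t : ℝ, (r t : ℂ) * exp (((t * x : ℝ) : ℂ) * I) := by
  unfold E5a_T
  rw [map_mul, ← integral_conj, E5a_conj_c]
  congr 1
  refine integral_congr_ae (Eventually.of_forall fun t => ?_)
  simp only [map_mul, ← Complex.exp_conj, map_neg, Complex.conj_ofReal, Complex.conj_I]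
  push_cast
  ring_nf

theorem E5a_half {h : ℝ → ℂ} (hi : Integrable h) (hs : ∀ x, h (-x) = conj (h x)) :
    (∫ x : ℝ, h x) = ((2 * (∫ x in Ioi (0 : ℝ), h x).re : ℝ) : ℂ) := by
  rw [← intervalIntegral.integral_Iic_add_Ioi (b := (0 : ℝ)) hi.integrableOn hi.integrableOn]
  have h1 : ∫ x in Iic (0 : ℝ), h x = conj (∫ x in Ioi (0 : ℝ), h x) := by
    have h2 := integral_comp_neg_Ioi (0 : ℝ) h
    rw [neg_zero] at h2
    rw [← h2, ← integral_conj]
    refine integral_congr_ae (Eventually.of_forall fun x => ?_)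
    exact hs x
  rw [h1, add_comm, Complex.add_conj]

/-- Parseval -/
theorem E5a_pars {g r : ℝ → ℝ} (hg : Continuous g) (hgi : Integrable g) (hr : Integrable r)
    (hP : Integrable (E5a_T (fun t => (g t : ℂ)))) :
    ((∫ t : ℝ, g t * r t : ℝ) : ℂ) =
      2 * π * ∫ x : ℝ, E5a_T (fun t => (g t : ℂ)) x * conj (E5a_T (fun t => (r t : ℂ)) x) := by
  have hpi : (2 * (π : ℂ)) ≠ 0 := by
    have := Real.pi_ne_zero
    exact mul_ne_zero two_ne_zero (by exact_mod_cast this)
  have hint : Integrable (Function.uncurry (fun (t u : ℝ) =>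
      (r t : ℂ) * E5a_T (fun t => (g t : ℂ)) u * exp (((t * u : ℝ) : ℂ) * I)))
      ((volume : Measure ℝ).prod volume) := by
    have h1 := (hr.ofReal (𝕜 := ℂ)).mul_prod (ν := volume) hP
    refine h1.mul_bdd (c := 1) (g := fun q : ℝ × ℝ => exp (((q.1 * q.2 : ℝ) : ℂ) * I)) ?_ ?_
    · refine Continuous.aestronglyMeasurable ?_
      fun_prop
    · exact Eventually.of_forall fun q => (Complex.norm_exp_ofReal_mul_I _).le
  have hswap := integral_integral_swap hint
  have hL : (∫ t : ℝ, ∫ u : ℝ, (r t : ℂ) * E5a_T (fun t => (g t : ℂ)) u * exp (((t * u : ℝ) : ℂ) * I)) =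
      ((∫ t : ℝ, g t * r t : ℝ) : ℂ) := by
    rw [← integral_complex_ofReal]
    refine integral_congr_ae (Eventually.of_forall fun t => ?_)
    simp only []
    simp only [mul_assoc]
    rw [integral_const_mul, ← E5a_inv (f := E5a_T (fun t => (g t : ℂ))) hg hgi (fun u => rfl) hP t]
    push_cast
    ring
  rw [← hL, hswap, ← integral_const_mul]
  refine integral_congr_ae (Eventually.of_forall fun u => ?_)
  simp only []
  rw [E5a_conjT]
  have e4 : (∫ t : ℝ, (r t : ℂ) * E5a_T (fun t => (g t : ℂ)) u * exp (((t * u : ℝ) : ℂ) * I)) =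
      E5a_T (fun t => (g t : ℂ)) u * ∫ t : ℝ, (r t : ℂ) * exp (((t * u : ℝ) : ℂ) * I) := by
    rw [← integral_const_mul]
    refine integral_congr_ae (Eventually.of_forall fun t => ?_)
    simp only []
    ring
  rw [e4, show ∀ a b : ℂ, 2 * (π : ℂ) * (a * ((2 * (π : ℂ))⁻¹ * b)) =
    (2 * (π : ℂ)) * (2 * (π : ℂ))⁻¹ * (a * b) from fun a b => by ring, mul_inv_cancel₀ hpi, one_mul]

/-- Row E5a. Parseval for two real functions g, r, where the transform F of r W is known instead of that of r.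
Proof. Let P1 be the transform of g in the statement, P1 is integrable and g is continuous and integrable, so by Fourier
inversion (MeasureTheory.Integrable.fourierInv_fourier_eq or Continuous.fourierInv_fourier_eq, rescaled by 2 pi;
see TT/T20, GG, FF/F05 for a version in this normalization) g(t) = ∫ P1(x) exp(itx) dx. By Fubini
∫ g r = ∫ P1(x) (∫ r(t) exp(itx) dt) dx = 2 pi ∫ P1(x) conj(f1(x)) dx, f1(x) = (2 pi)^{-1} ∫ r(t) exp(-itx) dt
(r is real). P1(-x) = conj P1(x), f1(-x) = conj f1(x), so (NH.N13_half, copy its proof)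
∫ P1 conj f1 = 2 Re ∫_{x>0} P1 conj f1. Finally F(x) - f1(x) = (2 pi)^{-1} ∫ r (W - 1) exp(-itx) dt has absolute value
at most K/(2 pi). -/
theorem pars_near {g r : ℝ → ℝ} {W : ℝ → ℂ} {K : ℝ} (hg : Continuous g) (hgi : Integrable g) (hr : Integrable r)
    (hWc : Continuous W) (hW : ∀ t, ‖W t‖ = 1) (hK : ∫ t : ℝ, |r t| * ‖W t - 1‖ ≤ K)
    (hP : Integrable (fun x : ℝ => (2 * (π : ℂ))⁻¹ * ∫ t : ℝ, ((g t : ℝ) : ℂ) * exp (-(t * x * I)))) :
    |∫ t : ℝ, g t * r t| ≤
      4 * π * ‖∫ x in Ioi (0 : ℝ), ((2 * (π : ℂ))⁻¹ * ∫ t : ℝ, ((g t : ℝ) : ℂ) * exp (-(t * x * I))) *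
        conj ((2 * (π : ℂ))⁻¹ * ∫ t : ℝ, ((r t : ℝ) : ℂ) * W t * exp (-(t * x * I)))‖ +
      2 * K * ∫ x in Ioi (0 : ℝ), ‖(2 * (π : ℂ))⁻¹ * ∫ t : ℝ, ((g t : ℝ) : ℂ) * exp (-(t * x * I))‖ := by
  obtain ⟨P, hPd⟩ : ∃ P : ℝ → ℂ, P = E5a_T (fun t => (g t : ℂ)) := ⟨_, rfl⟩
  obtain ⟨f, hfd⟩ : ∃ f : ℝ → ℂ, f = E5a_T (fun t => (r t : ℂ)) := ⟨_, rfl⟩
  obtain ⟨F, hFd⟩ : ∃ F : ℝ → ℂ, F = E5a_T (fun t => (r t : ℂ) * W t) := ⟨_, rfl⟩
  have hpi := Real.pi_pos
  have hPi : Integrable P := by rw [hPd]; exact hP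
  have hrc : Integrable (fun t : ℝ => (r t : ℂ)) := hr.ofReal
  have hrW : Integrable (fun t : ℝ => (r t : ℂ) * W t) :=
    hrc.mul_bdd (c := 1) hWc.aestronglyMeasurable (Eventually.of_forall fun t => (hW t).le)
  have hpars := E5a_pars hg hgi hr hP
  rw [← hPd, ← hfd] at hpars
  -- conjugates of transforms are bounded and measurable
  have hmul : ∀ R : ℝ → ℂ, Integrable R → Integrable (fun x => P x * conj (E5a_T R x)) := by
    intro R hR
    refine hPi.mul_bdd (c := (2 * π)⁻¹ * ∫ t : ℝ, ‖R t‖) ?_ ?_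
    · exact (Complex.continuous_conj.comp (E5a_cont hR)).aestronglyMeasurable
    · refine Eventually.of_forall fun x => ?_
      rw [RCLike.norm_conj]
      exact E5a_le R x
  have hPf : Integrable (fun x => P x * conj (f x)) := by rw [hfd]; exact hmul _ hrc
  have hPF : Integrable (fun x => P x * conj (F x)) := by rw [hFd]; exact hmul _ hrW
  have hsym : ∀ x, P (-x) * conj (f (-x)) = conj (P x * conj (f x)) := by
    intro x
    rw [hPd, hfd, E5a_neg, E5a_neg]
    exact (map_mul conj _ _).symm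
  have hhalf := E5a_half hPf hsym
  rw [hhalf] at hpars
  have hre : (∫ t : ℝ, g t * r t) = 4 * π * (∫ x in Ioi (0 : ℝ), P x * conj (f x)).re := by
    have h2 : ((∫ t : ℝ, g t * r t : ℝ) : ℂ) =
        ((4 * π * (∫ x in Ioi (0 : ℝ), P x * conj (f x)).re : ℝ) : ℂ) := by
      rw [hpars]
      push_cast
      ring
    exact ofReal_injective h2
  -- the difference
  have hdiff : ∀ x, ‖F x - f x‖ ≤ (2 * π)⁻¹ * K := by
    intro x
    have e1 : F x - f x = E5a_T (fun t => (r t : ℂ) * (W t - 1)) x := by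
      rw [hFd, hfd]
      unfold E5a_T
      rw [← mul_sub, ← integral_sub (E5a_intg hrW x) (E5a_intg hrc x)]
      congr 1
      refine integral_congr_ae (Eventually.of_forall fun t => ?_)
      simp only []
      ring
    rw [e1]
    refine (E5a_le _ x).trans (mul_le_mul_of_nonneg_left (le_trans (le_of_eq ?_) hK) (by positivity))
    refine integral_congr_ae (Eventually.of_forall fun t => ?_)
    simp only []
    rw [norm_mul, Complex.norm_real, Real.norm_eq_abs]
  have hsplit : (∫ x in Ioi (0 : ℝ), P x * conj (f x)) = (∫ x in Ioi (0 : ℝ), P x * conj (F x)) -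
      ∫ x in Ioi (0 : ℝ), P x * conj (F x - f x) := by
    rw [← integral_sub hPF.integrableOn]
    · refine integral_congr_ae (Eventually.of_forall fun x => ?_)
      simp only [map_sub]
      ring
    · have h3 : (fun x => P x * conj (F x - f x)) = fun x => P x * conj (F x) - P x * conj (f x) := by
        funext x
        rw [map_sub]
        ring
      rw [h3]
      exact (hPF.sub hPf).integrableOn
  have hbd : ‖∫ x in Ioi (0 : ℝ), P x * conj (F x - f x)‖ ≤ (2 * π)⁻¹ * K * ∫ x in Ioi (0 : ℝ), ‖P x‖ := by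
    rw [← integral_const_mul]
    refine norm_integral_le_of_norm_le (hPi.norm.integrableOn.const_mul _) (Eventually.of_forall fun x => ?_)
    rw [norm_mul, RCLike.norm_conj, mul_comm]
    exact mul_le_mul_of_nonneg_right (hdiff x) (norm_nonneg _)
  have hfin : |∫ t : ℝ, g t * r t| ≤ 4 * π * ‖∫ x in Ioi (0 : ℝ), P x * conj (F x)‖ +
      2 * K * ∫ x in Ioi (0 : ℝ), ‖P x‖ := by
    rw [hre, abs_mul, abs_of_pos (by positivity : (0 : ℝ) < 4 * π)]
    calc 4 * π * |(∫ x in Ioi (0 : ℝ), P x * conj (f x)).re|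
        ≤ 4 * π * ‖∫ x in Ioi (0 : ℝ), P x * conj (f x)‖ := by
          gcongr
          exact Complex.abs_re_le_norm _
      _ ≤ 4 * π * (‖∫ x in Ioi (0 : ℝ), P x * conj (F x)‖ + (2 * π)⁻¹ * K * ∫ x in Ioi (0 : ℝ), ‖P x‖) := by
          gcongr
          rw [hsplit]
          exact (norm_sub_le _ _).trans (by linarith)
      _ = _ := by
          field_simp
          ring
  rw [hPd, hFd] at hfin
  exact hfin

end NR
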