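import Pool.Agent.Lib.MP_0f5a55_nt.NR.E1
import Pool.Agent.Lib.MP_0f5a55_nt.NR.E3
import Pool.Agent.Lib.MP_0f5a55_nt.NR.E4
import Pool.Agent.Lib.MP_0f5a55_nt.NR.E5a
import Pool.Agent.Lib.MP_0f5a55_nt.NR.N09
import Pool.Agent.Lib.MP_0f5a55_nt.TT.T20

open Complex MeasureTheory Set Filter Topology
open scoped Real ComplexConjugate

namespace NR

open NH

/-- the unit W is continuous -/
theorem E5_Wcont {N : ℕ} (hN : 0 < N) {L : ℂ → ℂ} {u : ℂ} {v W : ℝ → ℂ} {C : ℝ} (hp : Ph N L u v W C) :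
    Continuous W := by
  have hNr : (0 : ℝ) < N := by exact_mod_cast hN
  have hpi := Real.pi_pos
  have hc0 : (0 : ℝ) < √N / (2 * π) := by positivity
  have hΓ : Continuous (fun t : ℝ => Gamma (1 / 2 + t * I)) := by
    rw [continuous_iff_continuousAt]
    intro t
    have h1 : ContinuousAt Gamma (1 / 2 + t * I) := by
      refine (Complex.differentiableAt_Gamma _ fun m hm => ?_).continuousAt
      have h2 := congrArg Complex.re hm
      simp at h2
      have h3 : (0 : ℝ) ≤ m := Nat.cast_nonneg m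
      linarith
    exact ContinuousAt.comp (f := fun t : ℝ => (1 / 2 + t * I : ℂ)) h1 (by fun_prop)
  have hcp : Continuous (fun t : ℝ => ((√N / (2 * π) : ℝ) : ℂ) ^ (1 / 2 + t * I : ℂ)) := by
    refine Continuous.const_cpow (by fun_prop) (Or.inl ?_)
    exact_mod_cast hc0.ne'
  have hden : Continuous (fun t : ℝ => ((√(√N / (2 * π)) * √(π / Real.cosh (π * t)) : ℝ) : ℂ)) := by
    have h1 : Continuous (fun t : ℝ => π / Real.cosh (π * t)) := by
      refine Continuous.div (by fun_prop) (by fun_prop) fun t => (Real.cosh_pos _).ne'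
    fun_prop
  have hd0 : ∀ t : ℝ, ((√(√N / (2 * π)) * √(π / Real.cosh (π * t)) : ℝ) : ℂ) * v t ≠ 0 := by
    intro t
    refine mul_ne_zero ?_ ?_
    · have h1 : (0 : ℝ) < √(√N / (2 * π)) * √(π / Real.cosh (π * t)) := by
        have := Real.cosh_pos (π * t)
        positivity
      exact_mod_cast h1.ne'
    · intro h
      have := hp.nv t
      rw [h, norm_zero] at this
      exact zero_ne_one this
  have hWeq : W = fun t : ℝ => u * (((√N / (2 * π) : ℝ) : ℂ) ^ (1 / 2 + t * I : ℂ) * Gamma (1 / 2 + t * I)) /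
      (((√(√N / (2 * π)) * √(π / Real.cosh (π * t)) : ℝ) : ℂ) * v t) := by
    funext t
    rw [eq_div_iff (hd0 t), hp.eq t]
    ring
  rw [hWeq]
  exact Continuous.div (continuous_const.mul (hcp.mul hΓ)) (hden.mul hp.cv) hd0

theorem E5_FE (N : ℕ) (a : ℕ → ℂ) (ε y : ℝ) : II.FE a (FF.tht N 1) ε y = FF N a (TT.zp ε y) := by
  unfold II.FE NH.FF TT.zp II.om FF.tht
  refine tsum_congr fun n => ?_
  congr 3
  rw [Nat.cast_one, mul_one, ofReal_inv, div_eq_mul_inv]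
  ring

/-- the theta functions are integrable on the right half line -/
theorem E5_int {q : ℕ} (hq : 0 < q) {f : ℕ → ℂ} (hf : ∀ n, ‖f n‖ ≤ 1) (p : ℕ) {ε : ℝ}
    (h0 : 0 < ε) (h1 : ε ≤ 1 / 2) : IntegrableOn (fun x => TT.rho q f p ε x) (Ioi (0 : ℝ)) := by
  obtain ⟨hc, C, hC⟩ := TT.rho_dec hq hf p h0 h1
  have h2 : IntegrableOn (fun x : ℝ => C * Real.exp (-(x / 2))) (Ioi (0 : ℝ)) := by
    have h3 : IntegrableOn (fun x : ℝ => C * Real.exp (-(1 / 2) * x)) (Ioi (0 : ℝ)) :=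
      (integrableOn_exp_mul_Ioi (a := -(1 / 2)) (by norm_num) 0).const_mul C
    refine h3.congr_fun (fun x _ => ?_) measurableSet_Ioi
    change C * Real.exp (-(1 / 2) * x) = _
    congr 2
    ring
  refine Integrable.mono' h2 hc.aestronglyMeasurable ?_
  refine (ae_restrict_iff' measurableSet_Ioi).2 (Eventually.of_forall fun x hx => ?_)
  have hx0 : (0 : ℝ) < x := hx
  exact hC x (by linarith)

/-- the integral of exp (-x/2) over the positive half line -/
theorem E5_exp : IntegrableOn (fun x : ℝ => Real.exp (-(x / 2))) (Ioi (0 : ℝ)) ∧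
    ∫ x in Ioi (0 : ℝ), Real.exp (-(x / 2)) = 2 := by
  have h0 : ∀ x : ℝ, Real.exp (-(x / 2)) = Real.exp (-(1 / 2) * x) := fun x => by
    congr 1
    ring
  constructor
  · refine (integrableOn_exp_mul_Ioi (a := -(1 / 2)) (by norm_num) 0).congr_fun (fun x _ => ?_)
      measurableSet_Ioi
    exact (h0 x).symm
  · simp only [h0]
    rw [integral_exp_mul_Ioi (by norm_num) 0]
    simp

/-- the Fourier transform of an integrable function is bounded and continuous -/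
theorem E5_trans {g : ℝ → ℂ} (hg : Integrable g) :
    Continuous (fun x : ℝ => ∫ t : ℝ, g t * exp (-(t * x * I))) ∧
    ∀ x : ℝ, ‖∫ t : ℝ, g t * exp (-(t * x * I))‖ ≤ ∫ t : ℝ, ‖g t‖ := by
  have hn : ∀ (x t : ℝ), ‖g t * exp (-(t * x * I))‖ = ‖g t‖ := by
    intro x t
    have h3 : -((t : ℂ) * (x : ℂ) * I) = ((-(t * x) : ℝ) : ℂ) * I := by
      push_cast
      ring
    rw [norm_mul, h3, norm_exp_ofReal_mul_I, mul_one]
  constructor
  · refine continuous_of_dominated (F := fun (x t : ℝ) => g t * exp (-(t * x * I)))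
      (bound := fun t => ‖g t‖) (fun x => ?_) (fun x => ?_) hg.norm ?_
    · exact hg.1.mul (Continuous.aestronglyMeasurable (by fun_prop))
    · exact Eventually.of_forall fun t => (hn x t).le
    · exact Eventually.of_forall fun t => by fun_prop
  · intro x
    refine (norm_integral_le_integral_norm _).trans (le_of_eq ?_)
    exact integral_congr_ae (Eventually.of_forall fun t => hn x t)

/-- Row E5. Upper bound. -/
theorem UB {q : ℕ} [NeZero q] {χ : DirichletCharacter ℂ q} (hχ : χ.IsPrimitive) {κ : ℕ} (hκ : TT.Par χ κ)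
    {N : ℕ} {a : ℕ → ℂ} {L : ℂ → ℂ} (D : Dat N a L) {u : ℂ} {v W : ℝ → ℂ} {C0 : ℝ} (hp : Ph N L u v W C0) :
    ∃ C : ℝ, 0 ≤ C ∧ ∀ ε : ℝ, 0 < ε → ε ≤ 1 / 2 →
      |∫ t : ℝ, (t ^ 2 + 1 / 4) * (TT.rR χ ε t * r2 N L v ε t)| ≤ C * ε ^ (-(11 / 4 + (κ : ℝ) / 2)) := by
  obtain ⟨A, CA, hCA, hA, hf1⟩ := TT.rR_trans hχ hκ 1 (Or.inr rfl)
  have hq : 0 < q := Nat.pos_of_ne_zero (NeZero.ne q)
  have hb : ∀ n : ℕ, ‖χ (n : ZMod q)‖ ≤ 1 := fun n => χ.norm_le_one _
  have hJ := fun p : ℕ => Jbd (q := q) (f := fun n => χ n) hb D p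
  choose CJ hCJ hJ using hJ
  have hR := fun p : ℕ => rho_le hq p
  choose CR hCR hR using hR
  obtain ⟨K', hK'0, hK'⟩ := r2_W D hp
  obtain ⟨Cr, hCr, hr2⟩ := r2_le D
  have hpi := Real.pi_pos
  have hKi : Integrable (fun t : ℝ => K' * ((1 + |t|) ^ 4 * Real.exp (-|t|))) := by
    have h1 := ((OO.T_dec 4 1 one_pos).2.1).const_mul K'
    refine h1.congr (Eventually.of_forall fun t => ?_)
    change K' * ((1 + |t|) ^ 4 * Real.exp (-(1 * |t|))) = _
    rw [one_mul]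
  set K : ℝ := ∫ t : ℝ, K' * ((1 + |t|) ^ 4 * Real.exp (-|t|)) with hKdef
  have hK0 : 0 ≤ K := by
    refine integral_nonneg fun t => ?_
    change 0 ≤ K' * ((1 + |t|) ^ 4 * Real.exp (-|t|))
    positivity
  have hWc := E5_Wcont D.pos hp
  have hS1 : 0 ≤ ∑ j ∈ Finset.range (2 * 1 + 1), CA * CJ (κ + 2 * j) :=
    Finset.sum_nonneg fun j _ => mul_nonneg hCA (hCJ _).le
  have hS2 : 0 ≤ ∑ j ∈ Finset.range (2 * 1 + 1), CA * CR (κ + 2 * j) :=
    Finset.sum_nonneg fun j _ => mul_nonneg hCA (hCR _)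
  refine ⟨4 * π * (∑ j ∈ Finset.range (2 * 1 + 1), CA * CJ (κ + 2 * j)) +
    2 * K * (2 * ∑ j ∈ Finset.range (2 * 1 + 1), CA * CR (κ + 2 * j)), by positivity, ?_⟩
  intro ε h0 h1
  have hgi : Integrable (fun t : ℝ => (t ^ 2 + 1 / 4) ^ 1 * TT.rR χ ε t) := TT.rR_int hχ h0 h1 1
  have hgc : Continuous (fun t : ℝ => (t ^ 2 + 1 / 4) ^ 1 * TT.rR χ ε t) :=
    Continuous.mul (by fun_prop) (TT.rR_cont hχ ε)
  have hrc : Continuous (r2 N L v ε) := r2_cont D hp.cv ε
  have hri : Integrable (r2 N L v ε) := by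
    have h2 := (OO.T_dec 4 ε h0).2.1.const_mul Cr
    refine h2.mono' hrc.aestronglyMeasurable (Eventually.of_forall fun t => ?_)
    rw [Real.norm_eq_abs, ← mul_assoc]
    exact (hr2 v ε hp.nv h0 h1 t).1
  have hrWi : Integrable (fun t : ℝ => ((r2 N L v ε t : ℝ) : ℂ) * W t) := by
    have h2 : Integrable (fun t : ℝ => ((r2 N L v ε t : ℝ) : ℂ)) := hri.ofReal
    refine h2.mul_bdd (c := 1) hWc.aestronglyMeasurable ?_
    exact Eventually.of_forall fun t => (hp.nW t).le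
  have hK : ∫ t : ℝ, |r2 N L v ε t| * ‖W t - 1‖ ≤ K := by
    refine integral_mono_of_nonneg (Eventually.of_forall fun t => ?_) hKi
      (Eventually.of_forall fun t => hK' ε h0 h1 t)
    change 0 ≤ |r2 N L v ε t| * ‖W t - 1‖
    positivity
  set f1 : ℝ → ℂ := fun x : ℝ => (2 * (π : ℂ))⁻¹ *
      ∫ t : ℝ, (((t ^ 2 + 1 / 4) ^ 1 * TT.rR χ ε t : ℝ) : ℂ) * exp (-(t * x * I)) with hf1def
  have hf1i : Integrable f1 := TT.trans_int hχ hκ 1 (Or.inr rfl) h0 h1
  have hF : ∀ x : ℝ, (2 * (π : ℂ))⁻¹ * ∫ t : ℝ, ((r2 N L v ε t : ℝ) : ℂ) * W t * exp (-(t * x * I)) =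
      f2 N a u ε x := by
    intro x
    have h2 : (∫ t : ℝ, ((r2 N L v ε t : ℝ) : ℂ) * W t * exp (-(t * x * I))) =
        (u * exp (((π / 2 - ε : ℝ) : ℂ) * I / 2)) * ∫ t : ℝ, Rf N L ε t * exp (-(t * x * I)) := by
      rw [← integral_const_mul]
      refine integral_congr_ae (Eventually.of_forall fun t => ?_)
      change ((r2 N L v ε t : ℝ) : ℂ) * W t * exp (-(t * x * I)) = _
      rw [← Rf_r2 D.pos hp h0 h1 t]
      ring
    have h3 := mellin_f D h0 h1 x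
    rw [h2]
    calc (2 * (π : ℂ))⁻¹ * ((u * exp (((π / 2 - ε : ℝ) : ℂ) * I / 2)) *
          ∫ t : ℝ, Rf N L ε t * exp (-(t * x * I)))
        = (u * exp (((π / 2 - ε : ℝ) : ℂ) * I / 2)) *
          ((2 * (π : ℂ))⁻¹ * ∫ t : ℝ, Rf N L ε t * exp (-(t * x * I))) := by ring
      _ = f2 N a u ε x := by
          rw [h3, E5_FE]
          unfold f2
          ring
  have hFc : Continuous (f2 N a u ε) ∧ ∃ B : ℝ, ∀ x, ‖f2 N a u ε x‖ ≤ B := by
    obtain ⟨h2, h3⟩ := E5_trans hrWi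
    have h4 : f2 N a u ε = fun x : ℝ => (2 * (π : ℂ))⁻¹ *
        ∫ t : ℝ, ((r2 N L v ε t : ℝ) : ℂ) * W t * exp (-(t * x * I)) := by
      funext x
      exact (hF x).symm
    constructor
    · rw [h4]
      exact continuous_const.mul h2
    · refine ⟨‖(2 * (π : ℂ))⁻¹‖ * ∫ t : ℝ, ‖((r2 N L v ε t : ℝ) : ℂ) * W t‖, fun x => ?_⟩
      rw [h4]
      simp only
      rw [norm_mul]
      exact mul_le_mul_of_nonneg_left (h3 x) (norm_nonneg _)
  obtain ⟨hFc, B, hB⟩ := hFc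
  have hmain := pars_near (g := fun t : ℝ => (t ^ 2 + 1 / 4) ^ 1 * TT.rR χ ε t) (r := r2 N L v ε)
    (W := W) (K := K) hgc hgi hri hWc hp.nW hK hf1i
  simp only [hF] at hmain
  have e4 : (∫ t : ℝ, (t ^ 2 + 1 / 4) * (TT.rR χ ε t * r2 N L v ε t)) =
      ∫ t : ℝ, (t ^ 2 + 1 / 4) ^ 1 * TT.rR χ ε t * r2 N L v ε t := by
    refine integral_congr_ae (Eventually.of_forall fun t => ?_)
    simp only
    ring
  rw [e4]
  refine hmain.trans ?_
  have e5 : (∫ x in Ioi (0 : ℝ), f1 x * conj (f2 N a u ε x)) =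
      ∑ j ∈ Finset.range (2 * 1 + 1), A ε j *
        ∫ x in Ioi (0 : ℝ), TT.rho q (fun n => χ n) (κ + 2 * j) ε x * conj (f2 N a u ε x) := by
    have h2 : ∀ x : ℝ, f1 x * conj (f2 N a u ε x) = ∑ j ∈ Finset.range (2 * 1 + 1),
        A ε j * (TT.rho q (fun n => χ n) (κ + 2 * j) ε x * conj (f2 N a u ε x)) := by
      intro x
      have h3 := hf1 ε h0 h1 x
      rw [show f1 x = _ from h3, Finset.sum_mul]
      refine Finset.sum_congr rfl fun j _ => ?_
      ring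
    rw [integral_congr_ae (Eventually.of_forall h2), integral_finsetSum]
    · refine Finset.sum_congr rfl fun j _ => ?_
      rw [integral_const_mul]
    · intro j _
      refine Integrable.const_mul ?_ (A ε j)
      refine Integrable.mul_bdd (c := B) (E5_int hq hb (κ + 2 * j) h0 h1)
        (Complex.continuous_conj.comp hFc).aestronglyMeasurable (Eventually.of_forall fun x => ?_)
      change ‖conj (f2 N a u ε x)‖ ≤ B
      rw [Complex.norm_conj]
      exact hB x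
  have hexpo : ∀ j ∈ Finset.range (2 * 1 + 1), (j : ℝ) ≤ 2 := by
    intro j hj
    have : j ≤ 2 := by
      have := Finset.mem_range.1 hj
      omega
    exact_mod_cast this
  have t1 : ‖∫ x in Ioi (0 : ℝ), f1 x * conj (f2 N a u ε x)‖ ≤
      (∑ j ∈ Finset.range (2 * 1 + 1), CA * CJ (κ + 2 * j)) * ε ^ (-(11 / 4 + (κ : ℝ) / 2)) := by
    rw [e5, Finset.sum_mul]
    refine (norm_sum_le _ _).trans (Finset.sum_le_sum fun j hj => ?_)
    rw [norm_mul, mul_assoc]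
    refine mul_le_mul (hA ε j) ?_ (norm_nonneg _) hCA
    refine (hJ (κ + 2 * j) u ε hp.nu h0 h1).trans ?_
    refine mul_le_mul_of_nonneg_left ?_ (hCJ _).le
    have hj2 := hexpo j hj
    refine Real.rpow_le_rpow_of_exponent_ge h0 (by linarith) ?_
    push_cast
    linarith
  have t2 : (∫ x in Ioi (0 : ℝ), ‖f1 x‖) ≤
      (2 * ∑ j ∈ Finset.range (2 * 1 + 1), CA * CR (κ + 2 * j)) * ε ^ (-(11 / 4 + (κ : ℝ) / 2)) := by
    have h3 : ∀ x ∈ Ioi (0 : ℝ), ‖f1 x‖ ≤ ((∑ j ∈ Finset.range (2 * 1 + 1), CA * CR (κ + 2 * j)) *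
        ε ^ (-(11 / 4 + (κ : ℝ) / 2))) * Real.exp (-(x / 2)) := by
      intro x hx
      have hx0 : (0 : ℝ) < x := hx
      rw [show f1 x = _ from hf1 ε h0 h1 x, Finset.sum_mul, Finset.sum_mul]
      refine (norm_sum_le _ _).trans (Finset.sum_le_sum fun j hj => ?_)
      rw [norm_mul, mul_assoc, mul_assoc]
      refine mul_le_mul (hA ε j) ?_ (norm_nonneg _) hCA
      refine (hR (κ + 2 * j) (fun n => χ n) hb ε h0 h1 x hx0).trans ?_
      rw [← mul_assoc]
      refine mul_le_mul_of_nonneg_right ?_ (Real.exp_pos _).le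
      refine mul_le_mul_of_nonneg_left ?_ (hCR _)
      have hj2 := hexpo j hj
      refine Real.rpow_le_rpow_of_exponent_ge h0 (by linarith) ?_
      push_cast
      linarith
    obtain ⟨hei, hev⟩ := E5_exp
    calc (∫ x in Ioi (0 : ℝ), ‖f1 x‖)
        ≤ ∫ x in Ioi (0 : ℝ), ((∑ j ∈ Finset.range (2 * 1 + 1), CA * CR (κ + 2 * j)) *
          ε ^ (-(11 / 4 + (κ : ℝ) / 2))) * Real.exp (-(x / 2)) :=
          setIntegral_mono_on hf1i.norm.integrableOn (hei.const_mul _) measurableSet_Ioi h3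
      _ = (2 * ∑ j ∈ Finset.range (2 * 1 + 1), CA * CR (κ + 2 * j)) *
          ε ^ (-(11 / 4 + (κ : ℝ) / 2)) := by
          rw [integral_const_mul, hev]
          ring
  calc 4 * π * ‖∫ x in Ioi (0 : ℝ), f1 x * conj (f2 N a u ε x)‖ + 2 * K * ∫ x in Ioi (0 : ℝ), ‖f1 x‖
      ≤ 4 * π * ((∑ j ∈ Finset.range (2 * 1 + 1), CA * CJ (κ + 2 * j)) *
          ε ^ (-(11 / 4 + (κ : ℝ) / 2))) +
        2 * K * ((2 * ∑ j ∈ Finset.range (2 * 1 + 1), CA * CR (κ + 2 * j)) *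
          ε ^ (-(11 / 4 + (κ : ℝ) / 2))) :=
        add_le_add (mul_le_mul_of_nonneg_left t1 (by positivity))
          (mul_le_mul_of_nonneg_left t2 (by positivity))
    _ = _ := by ring

end NR
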