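import Pool.Agent.Lib.MP_0f5a55_nt.NR.E2
import Pool.Agent.Lib.MP_0f5a55_nt.NH.N14
import Pool.Agent.Lib.MP_0f5a55_nt.NH.N15
import Pool.Agent.Lib.MP_0f5a55_nt.TT.T25

open Complex MeasureTheory Set Filter Topology
open scoped Real ComplexConjugate

namespace NR

open NH

open ArithmeticFunction vonMangoldt in
/-- Row E6. Primes in a residue class. -/
theorem div_res {Q r : ℕ} (hQ : 0 < Q) (hr : Nat.Coprime r Q) :
    ¬ Summable (fun n : ℕ => if n.Prime ∧ n ≡ r [MOD Q] then ((n : ℝ))⁻¹ else 0) := by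
  intro hg
  have : NeZero Q := ⟨hQ.ne'⟩
  set g : ℕ → ℝ := fun n : ℕ => if n.Prime ∧ n ≡ r [MOD Q] then ((n : ℝ))⁻¹ else 0 with hgdef
  have g0 : ∀ n, 0 ≤ g n := fun n => by
    simp only [hgdef]
    split_ifs
    · positivity
    · exact le_refl _
  obtain ⟨C, hC⟩ := LSeries_residueClass_lower_bound (q := Q) (a := (r : ZMod Q)) (ZMod.unitOfCoprime r hr).isUnit
  have hφ : (0 : ℝ) < (Q.totient : ℝ)⁻¹ := by
    have := Nat.totient_pos.2 hQ
    positivity
  obtain ⟨N, hN⟩ : ∃ N : ℕ, ∑' k, g (k + N) ≤ (Q.totient : ℝ)⁻¹ / 2 := by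
    have := (tendsto_sum_nat_add g).eventually (ge_mem_nhds (half_pos hφ))
    exact this.exists
  have s1 := summable_residueClass_non_primes_div (r : ZMod Q)
  let F1 : ℕ → ℝ := fun n => (if n.Prime then 0 else residueClass (r : ZMod Q) n) / n
  let F2 : ℕ → ℝ := fun n => if n < N then Real.log n else 0
  let F3 : ℕ → ℝ := fun n => if n < N then 0 else g n
  have s2 : Summable F2 := summable_of_ne_finset_zero (s := Finset.range N) (fun n hn => by
    simp only [F2]
    rw [if_neg (by simpa using hn)])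
  have s3 : Summable F3 := Summable.of_nonneg_of_le (fun n => by
    simp only [F3]
    split_ifs
    · exact le_refl _
    · exact g0 n) (fun n => by
    simp only [F3]
    split_ifs
    · exact g0 n
    · exact le_refl _) hg
  have t3 : ∑' n, F3 n ≤ (Q.totient : ℝ)⁻¹ / 2 := by
    rw [← s3.sum_add_tsum_nat_add N]
    have z : ∑ i ∈ Finset.range N, F3 i = 0 := Finset.sum_eq_zero (fun i hi => by
      simp only [F3]
      rw [if_pos (Finset.mem_range.1 hi)])
    have z2 : ∀ k, F3 (k + N) = g (k + N) := fun k => by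
      simp only [F3]
      rw [if_neg (by omega)]
    rw [z, zero_add, tsum_congr z2]
    exact hN
  have main : ∀ x : ℝ, 1 < x → x ≤ 2 → (Q.totient : ℝ)⁻¹ / 2 ≤ (C + ∑' n, F1 n + ∑' n, F2 n) * (x - 1) := by
    intro x h1 h2
    have hx : 0 < x - 1 := by linarith
    have hle : ∑' n, residueClass (r : ZMod Q) n / (n : ℝ) ^ x ≤
        ∑' n, (F1 n + F2 n + (x - 1)⁻¹ * F3 n) := by
      have hpt : ∀ n : ℕ, residueClass (r : ZMod Q) n / (n : ℝ) ^ x ≤ F1 n + F2 n + (x - 1)⁻¹ * F3 n := by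
        intro n
        have hR := residueClass_nonneg (r : ZMod Q) n
        rcases n.eq_zero_or_pos with rfl | hn
        · have : 0 ≤ (x - 1)⁻¹ * F3 0 := by
            refine mul_nonneg (inv_nonneg.2 hx.le) ?_
            simp only [F3]
            split_ifs
            · exact le_refl _
            · exact g0 0
          simp only [F1, F2]
          simp
          exact this
        have hn1 : (1 : ℝ) ≤ n := by exact_mod_cast hn
        have hnx : (n : ℝ) ≤ (n : ℝ) ^ x := by
          conv_lhs => rw [← Real.rpow_one n]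
          exact Real.rpow_le_rpow_of_exponent_le hn1 h1.le
        have F20 : 0 ≤ F2 n := by
          simp only [F2]
          split_ifs
          · exact Real.log_nonneg hn1
          · exact le_refl _
        have F30 : 0 ≤ (x - 1)⁻¹ * F3 n := by
          refine mul_nonneg (inv_nonneg.2 hx.le) ?_
          simp only [F3]
          split_ifs
          · exact le_refl _
          · exact g0 n
        by_cases hpr : n.Prime
        · have F1z : F1 n = 0 := by simp only [F1]; rw [if_pos hpr, zero_div]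
          by_cases hm : (n : ZMod Q) = (r : ZMod Q)
          · have hrc : residueClass (r : ZMod Q) n = Real.log n := by
              simp only [residueClass]
              rw [Set.indicator_of_mem (by simpa using hm), vonMangoldt_apply_prime hpr]
            rw [F1z, zero_add, hrc]
            by_cases hnN : n < N
            · have : F2 n = Real.log n := by simp only [F2]; rw [if_pos hnN]
              rw [this]
              have : Real.log n / (n : ℝ) ^ x ≤ Real.log n := div_le_self (Real.log_nonneg hn1) (hn1.trans hnx)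
              linarith
            · have hF3 : F3 n = ((n : ℝ))⁻¹ := by
                simp only [F3]
                rw [if_neg hnN, hgdef]
                simp only
                have hd : n ≡ r [MOD Q] := (ZMod.natCast_eq_natCast_iff n r Q).1 hm
                rw [if_pos ⟨hpr, hd⟩]
              rw [hF3]
              have hlog : Real.log n ≤ (x - 1)⁻¹ * (n : ℝ) ^ (x - 1) := by
                have h5 := Real.add_one_le_exp ((x - 1) * Real.log n)
                have h6 : Real.exp ((x - 1) * Real.log n) = (n : ℝ) ^ (x - 1) := by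
                  rw [Real.rpow_def_of_pos (by linarith), mul_comm]
                rw [h6] at h5
                have h7 : (x - 1) * Real.log n ≤ (n : ℝ) ^ (x - 1) := by linarith
                calc Real.log n = (x - 1)⁻¹ * ((x - 1) * Real.log n) := by field_simp
                  _ ≤ _ := mul_le_mul_of_nonneg_left h7 (inv_nonneg.2 hx.le)
              have hsplit : (n : ℝ) ^ x = (n : ℝ) ^ (x - 1) * n := by
                rw [Real.rpow_sub_one (by linarith : (n : ℝ) ≠ 0), div_mul_cancel₀]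
                linarith
              have hpos : 0 < (n : ℝ) ^ (x - 1) := Real.rpow_pos_of_pos (by linarith) _
              have : Real.log n / (n : ℝ) ^ x ≤ (x - 1)⁻¹ * ((n : ℝ))⁻¹ := by
                rw [hsplit, div_le_iff₀ (mul_pos hpos (by linarith))]
                calc Real.log n ≤ (x - 1)⁻¹ * (n : ℝ) ^ (x - 1) := hlog
                  _ = (x - 1)⁻¹ * ((n : ℝ))⁻¹ * ((n : ℝ) ^ (x - 1) * n) := by
                    field_simp
              linarith
          · have : residueClass (r : ZMod Q) n = 0 := by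
              simp only [residueClass]
              rw [Set.indicator_of_notMem (by simpa using hm)]
            rw [this, zero_div, F1z]
            linarith
        · have : residueClass (r : ZMod Q) n / (n : ℝ) ^ x ≤ F1 n := by
            simp only [F1]
            rw [if_neg hpr]
            exact div_le_div_of_nonneg_left hR (by linarith) hnx
          linarith
      refine Summable.tsum_le_tsum hpt ?_ ((s1.add s2).add (s3.mul_left _))
      refine Summable.of_nonneg_of_le (fun n => div_nonneg (residueClass_nonneg _ n) (by positivity)) hpt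
        ((s1.add s2).add (s3.mul_left _))
    have hsum : ∑' n, (F1 n + F2 n + (x - 1)⁻¹ * F3 n) = ∑' n, F1 n + ∑' n, F2 n + (x - 1)⁻¹ * ∑' n, F3 n := by
      have s1' : Summable F1 := s1
      rw [(s1'.add s2).tsum_add (s3.mul_left _), s1'.tsum_add s2, tsum_mul_left]
    have hl := hC (x := x) ⟨h1, h2⟩
    rw [hsum] at hle
    have h8 : (x - 1)⁻¹ * ∑' n, F3 n ≤ (x - 1)⁻¹ * ((Q.totient : ℝ)⁻¹ / 2) :=
      mul_le_mul_of_nonneg_left t3 (inv_nonneg.2 hx.le)
    have h9 : (Q.totient : ℝ)⁻¹ / (x - 1) ≤ C + ∑' n, F1 n + ∑' n, F2 n + (x - 1)⁻¹ * ((Q.totient : ℝ)⁻¹ / 2) := by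
      linarith
    rw [div_le_iff₀ hx] at h9
    have h10 : (x - 1)⁻¹ * ((Q.totient : ℝ)⁻¹ / 2) * (x - 1) = (Q.totient : ℝ)⁻¹ / 2 := by field_simp
    nlinarith
  set D := C + ∑' n, F1 n + ∑' n, F2 n with hD
  have hD2 := main 2 (by norm_num) (le_refl 2)
  have hDpos : 0 < D := by nlinarith
  have hx : 0 < (Q.totient : ℝ)⁻¹ / (4 * D) := by positivity
  have h3 := main (min 2 (1 + (Q.totient : ℝ)⁻¹ / (4 * D))) (lt_min (by norm_num) (by linarith)) (min_le_left _ _)
  have h4 : min 2 (1 + (Q.totient : ℝ)⁻¹ / (4 * D)) - 1 ≤ (Q.totient : ℝ)⁻¹ / (4 * D) := by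
    have := min_le_right (2 : ℝ) (1 + (Q.totient : ℝ)⁻¹ / (4 * D))
    linarith
  have h5 : D * (min 2 (1 + (Q.totient : ℝ)⁻¹ / (4 * D)) - 1) ≤ D * ((Q.totient : ℝ)⁻¹ / (4 * D)) :=
    mul_le_mul_of_nonneg_left h4 hDpos.le
  have h6 : D * ((Q.totient : ℝ)⁻¹ / (4 * D)) = (Q.totient : ℝ)⁻¹ / 4 := by field_simp
  linarith

theorem ze_ex {N : ℕ} {a : ℕ → ℂ} {L : ℂ → ℂ} (D : Dat N a L) {q : ℕ} (hq : 0 < q) : ∃ Q r : ℕ, 0 < Q ∧
    Nat.Coprime r Q ∧ ∀ p : ℕ, p.Prime → p ≡ r [MOD Q] → a p = 0 ∧ Nat.Coprime p q := by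
  obtain ⟨m, r, hm, hr, h⟩ := D.ze
  have : NeZero m := ⟨hm.ne'⟩
  have hQ : 0 < m * q := Nat.mul_pos hm hq
  have : NeZero (m * q) := ⟨hQ.ne'⟩
  have hdvd : m ∣ m * q := Dvd.intro q rfl
  obtain ⟨u, hu⟩ := ZMod.unitsMap_surjective hdvd (ZMod.unitOfCoprime r hr)
  have hcop : Nat.Coprime (u : ZMod (m * q)).val (m * q) := ZMod.val_coe_unit_coprime u
  have hmod : (u : ZMod (m * q)).val ≡ r [MOD m] := by
    rw [← ZMod.natCast_eq_natCast_iff]
    have h1 := congrArg (fun x : (ZMod m)ˣ => (x : ZMod m)) hu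
    simp only [ZMod.unitsMap_val, ZMod.coe_unitOfCoprime] at h1
    rw [← h1, ZMod.natCast_val]
  refine ⟨m * q, (u : ZMod (m * q)).val, hQ, hcop, fun p hp hpr => ⟨h p hp ?_, ?_⟩⟩
  · exact (hpr.of_mul_right q).trans hmod
  · have h1 : Nat.Coprime p (m * q) := by
      unfold Nat.Coprime
      rw [hpr.gcd_eq]
      exact hcop
    exact Nat.Coprime.coprime_mul_left_right h1

theorem E6_mult {N : ℕ} {a : ℕ → ℂ} {L : ℂ → ℂ} (D : Dat N a L) : (N15_af a).IsMultiplicative := by
  refine ArithmeticFunction.IsMultiplicative.iff_ne_zero.2 ⟨?_, ?_⟩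
  · rw [N15_af_apply a one_ne_zero]
    exact D.one
  · intro m n hm hn hc
    rw [N15_af_apply a (mul_ne_zero hm hn), N15_af_apply a hm, N15_af_apply a hn]
    exact D.mul m n (Nat.pos_of_ne_zero hm) (Nat.pos_of_ne_zero hn) hc

theorem cc_one {q : ℕ} (χ : DirichletCharacter ℂ q) {N : ℕ} {a : ℕ → ℂ} {L : ℂ → ℂ} (D : Dat N a L) :
    cc χ a 1 = 1 := by
  unfold cc
  rw [Nat.divisorsAntidiagonal_one, Finset.sum_singleton, Nat.cast_one, map_one, one_mul]
  exact D.one

theorem cc_mul {q : ℕ} [NeZero q] (χ : DirichletCharacter ℂ q) {N : ℕ} {a : ℕ → ℂ} {L : ℂ → ℂ} (D : Dat N a L)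
    (m n : ℕ) (hm : 0 < m) (hn : 0 < n) (h : Nat.Coprime m n) : cc χ a (m * n) = cc χ a m * cc χ a n := by
  rw [← N15_cc, ← N15_cc, ← N15_cc]
  exact ((TT.T25_mult χ).mul (E6_mult D)).map_mul_of_coprime h

theorem cc_prime {q : ℕ} [NeZero q] (χ : DirichletCharacter ℂ q) {N : ℕ} {a : ℕ → ℂ} {L : ℂ → ℂ} (D : Dat N a L)
    {p : ℕ} (hp : p.Prime) (h : a p = 0) (hq : Nat.Coprime p q) : 1 ≤ ‖cc χ a p‖ := by
  have h1 : cc χ a p = a p + χ (p : ZMod q) := by
    unfold cc
    rw [Nat.sum_divisorsAntidiagonal (f := fun x y => χ (x : ZMod q) * a y), hp.sum_divisors, Nat.div_self hp.pos,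
      Nat.div_one, D.one, mul_one, Nat.cast_one, map_one, one_mul]
    ring
  have h2 := DirichletCharacter.unit_norm_eq_one χ (ZMod.unitOfCoprime p hq)
  rw [ZMod.coe_unitOfCoprime] at h2
  rw [h1, h, zero_add, h2]

theorem E6_ser {N : ℕ} {a : ℕ → ℂ} {L : ℂ → ℂ} (D : Dat N a L) {s : ℂ} (hs : 2 ≤ s.re) :
    LSeriesSummable (fun n => N15_af a n) s ∧ LSeries (fun n => N15_af a n) s = L s := by
  have h1 : HasSum (LSeries.term (fun n => N15_af a n) s) (L s) := by
    refine (hasSum_nat_add_iff' (f := LSeries.term (fun n => N15_af a n) s) 1).1 ?_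
    rw [Finset.sum_range_one, LSeries.term_zero, sub_zero]
    refine (D.ser s hs).congr_fun ?_
    intro n
    rw [LSeries.term_of_ne_zero (Nat.succ_ne_zero n), N15_af_apply a (Nat.succ_ne_zero n), Complex.cpow_neg,
      div_eq_mul_inv]
    push_cast
    rfl
  exact ⟨h1.summable, h1.tsum_eq⟩

theorem E6_prod {q : ℕ} [NeZero q] (χ : DirichletCharacter ℂ q) {N : ℕ} {a : ℕ → ℂ} {L : ℂ → ℂ} (D : Dat N a L)
    {s : ℂ} (hs : 2 ≤ s.re) :
    LSeriesSummable (fun n => cc χ a n) s ∧ LSeries (fun n => cc χ a n) s = LX.Lf χ s * L s := by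
  obtain ⟨a1, b1⟩ := TT.T25_ser χ (s := s) (by linarith)
  obtain ⟨a2, b2⟩ := E6_ser D hs
  have h0 : (fun n => cc χ a n) = fun n => (TT.T25_ch χ * N15_af a) n := by
    funext n
    rw [N15_cc]
  rw [h0]
  refine ⟨ArithmeticFunction.LSeriesSummable_mul a1 a2, ?_⟩
  rw [ArithmeticFunction.LSeries_mul' a1 a2, b1, b2]
  rfl

theorem cc_summ {q : ℕ} [NeZero q] (χ : DirichletCharacter ℂ q) {N : ℕ} {a : ℕ → ℂ} {L : ℂ → ℂ} (D : Dat N a L) :
    Summable (fun n : ℕ => ‖cc χ a (n + 1)‖ * (((n : ℝ) + 1) ^ 2)⁻¹) ∧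
    ∀ t : ℝ, LX.Lf χ (2 + t * I) * L (2 + t * I) =
      ∑' n : ℕ, cc χ a (n + 1) * ((n : ℂ) + 1) ^ (-(2 + t * I)) := by
  constructor
  · exact TT.T25_norm (E6_prod χ D (s := 2) (by norm_num)).1
  · intro t
    have hre : (2 : ℝ) ≤ ((2 : ℂ) + t * I).re := by simp
    obtain ⟨h1, h2⟩ := E6_prod χ D hre
    exact (TT.T25_hasSum h1 h2).tsum_eq.symm

theorem cc_F {q : ℕ} [NeZero q] (χ : DirichletCharacter ℂ q) {N : ℕ} {a : ℕ → ℂ} {L : ℂ → ℂ} (D : Dat N a L) :
    (∀ s : ℂ, 0 < s.im → DifferentiableAt ℂ (fun s => LX.Lf χ s * L s) s) ∧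
    ∃ C : ℝ, 0 < C ∧ ∀ s : ℂ, 1 / 2 ≤ s.re → 1 ≤ s.im → ‖LX.Lf χ s * L s‖ ≤ C * (1 + s.im) ^ 3 := by
  constructor
  · intro s hs
    have hne : s ≠ 1 := by
      rintro rfl
      simp at hs
    exact (DirichletCharacter.differentiableAt_LFunction χ s (Or.inl hne)).mul (D.ent s)
  · obtain ⟨C, hC, h⟩ := LP.per_pol (N := q) (fun x => χ x)
    obtain ⟨C2, hC2, h2⟩ := D.gr
    refine ⟨C * C2, by positivity, fun s hs hs1 => ?_⟩
    have h1 : (1 : ℝ) / 4 ≤ ‖s - 1‖ := by
      have := Complex.abs_im_le_norm (s - 1)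
      rw [Complex.sub_im, Complex.one_im, sub_zero, abs_of_nonneg (by linarith)] at this
      linarith
    have h3 := h s (by linarith) h1
    have habs : |s.im| = s.im := abs_of_nonneg (by linarith)
    have h4 := h2 s hs
    rw [habs] at h3 h4
    have h5 : ‖LX.Lf χ s‖ ≤ C * (1 + s.im) := h3
    have hp : 0 ≤ 1 + s.im := by linarith
    rw [norm_mul]
    calc ‖LX.Lf χ s‖ * ‖L s‖ ≤ (C * (1 + s.im)) * (C2 * (1 + s.im) ^ 2) := by gcongr
      _ = _ := by ring

end NR
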