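import Pool.Agent.Lib.MP_0f5a55_nt.NR.E5
import Pool.Agent.Lib.MP_0f5a55_nt.NR.E7
import Pool.Agent.Lib.MP_0f5a55_nt.TT.T18
import Pool.Agent.Lib.MP_0f5a55_nt.OM.K004

open Complex MeasureTheory Set Filter Topology
open scoped Real ComplexConjugate

namespace NR

open NH

private theorem E8_ne (t : ℝ) : (1 / 2 + t * I : ℂ) ≠ 1 := by
  intro h
  have := congrArg Complex.re h
  norm_num at this

private theorem E8_an {q : ℕ} [NeZero q] (χ : DirichletCharacter ℂ q) :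
    AnalyticOnNhd ℂ (LX.Lf χ) {1}ᶜ := by
  apply DifferentiableOn.analyticOnNhd _ isOpen_compl_singleton
  intro s hs
  exact (DirichletCharacter.differentiableAt_LFunction χ s (Or.inl hs)).differentiableWithinAt

private theorem E8_top {q : ℕ} [NeZero q] (χ : DirichletCharacter ℂ q) (t : ℝ) :
    analyticOrderAt (LX.Lf χ) (1 / 2 + t * I) ≠ ⊤ := by
  intro htop
  have hpre : IsPreconnected ({1}ᶜ : Set ℂ) :=
    (isConnected_compl_singleton_of_one_lt_rank (by simp) 1).isPreconnected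
  have h0 : LX.Lf χ =ᶠ[𝓝 (1 / 2 + t * I : ℂ)] 0 := by
    rw [analyticOrderAt_eq_top] at htop
    exact htop
  have h1 : EqOn (LX.Lf χ) 0 {1}ᶜ :=
    (E8_an χ).eqOn_zero_of_preconnected_of_eventuallyEq_zero hpre (E8_ne t) h0
  have h2 : LX.Lf χ 2 = 0 := h1 (by norm_num : (2 : ℂ) ∈ ({1}ᶜ : Set ℂ))
  have h3 : LX.Lf χ 2 ≠ 0 :=
    DirichletCharacter.LFunction_ne_zero_of_one_le_re χ (Or.inr (by norm_num)) (by norm_num)
  exact h3 h2

/-- the entire function L is not zero -/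
private theorem E8_top2 {N : ℕ} {a : ℕ → ℂ} {L : ℂ → ℂ} (D : Dat N a L) (z : ℂ) :
    analyticOrderAt L z ≠ ⊤ := by
  intro htop
  have han : AnalyticOnNhd ℂ L univ := fun z _ => D.ent.analyticAt z
  have h0 : L =ᶠ[𝓝 z] 0 := by
    rw [analyticOrderAt_eq_top] at htop
    exact htop
  have h1 : EqOn L 0 univ :=
    han.eqOn_zero_of_preconnected_of_eventuallyEq_zero isPreconnected_univ (mem_univ z) h0
  have hs2 : Summable (fun n : ℕ => ‖a (n + 1) * ((n : ℂ) + 1) ^ (-(2 : ℂ))‖) :=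
    (D.ser 2 (by norm_num)).summable.norm
  have hs3 : Summable (fun n : ℕ => ‖a (n + 1 + 1) * (((n + 1 : ℕ) : ℂ) + 1) ^ (-(2 : ℂ))‖) :=
    (summable_nat_add_iff 1).mpr hs2
  obtain ⟨M, hM⟩ : ∃ M : ℝ, M = ∑' n : ℕ, ‖a (n + 1 + 1) * (((n + 1 : ℕ) : ℂ) + 1) ^ (-(2 : ℂ))‖ := ⟨_, rfl⟩
  have hk : ∀ k : ℕ, 1 ≤ (1 / 2 : ℝ) ^ k * M := by
    intro k
    have e1 : HasSum (fun n : ℕ => a (n + 1) * ((n : ℂ) + 1) ^ (-(2 + k : ℂ))) 0 := by
      have h := D.ser (2 + k) (by simp)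
      rwa [show L (2 + k) = 0 from h1 (mem_univ _)] at h
    have e2 := (hasSum_nat_add_iff' 1).mpr e1
    have e3 : ∀ n : ℕ, ‖a (n + 1 + 1) * (((n + 1 : ℕ) : ℂ) + 1) ^ (-(2 + k : ℂ))‖ ≤
        (1 / 2 : ℝ) ^ k * ‖a (n + 1 + 1) * (((n + 1 : ℕ) : ℂ) + 1) ^ (-(2 : ℂ))‖ := by
      intro n
      have hn : ((((n + 1 : ℕ) : ℂ)) + 1) ≠ 0 := by
        exact_mod_cast Nat.succ_ne_zero (n + 1)
      have h2 : ((((n + 1 : ℕ) : ℂ)) + 1) ^ (-(2 + k : ℂ)) =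
          ((((n + 1 : ℕ) : ℂ)) + 1) ^ (-(2 : ℂ)) * (((((n + 1 : ℕ) : ℂ)) + 1) ^ k)⁻¹ := by
        rw [neg_add, Complex.cpow_add _ _ hn, Complex.cpow_neg _ (k : ℂ), Complex.cpow_natCast]
      rw [h2, ← mul_assoc, norm_mul, mul_comm]
      refine mul_le_mul_of_nonneg_right ?_ (norm_nonneg _)
      rw [norm_inv, norm_pow, one_div, inv_pow]
      refine inv_anti₀ (by positivity) (pow_le_pow_left₀ (by norm_num) ?_ k)
      have h3 : ((((n + 1 : ℕ) : ℂ)) + 1) = ((n + 2 : ℕ) : ℂ) := by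
        push_cast
        ring
      rw [h3, Complex.norm_natCast]
      push_cast
      linarith [(Nat.cast_nonneg n : (0 : ℝ) ≤ n)]
    have hs4 : Summable (fun n : ℕ => ‖a (n + 1 + 1) * (((n + 1 : ℕ) : ℂ) + 1) ^ (-(2 + k : ℂ))‖) :=
      Summable.of_nonneg_of_le (fun n => norm_nonneg _) e3 (hs3.mul_left _)
    have e4 : ‖∑' n : ℕ, a (n + 1 + 1) * (((n + 1 : ℕ) : ℂ) + 1) ^ (-(2 + k : ℂ))‖ ≤ (1 / 2 : ℝ) ^ k * M := by
      refine (norm_tsum_le_tsum_norm hs4).trans ?_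
      rw [hM, ← tsum_mul_left]
      exact hs4.tsum_le_tsum e3 (hs3.mul_left _)
    rw [e2.tsum_eq] at e4
    simpa [D.one] using e4
  have hM1 : 1 ≤ M := by simpa using hk 0
  obtain ⟨k, hk1⟩ := exists_pow_lt_of_lt_one (show (0 : ℝ) < M⁻¹ by positivity) (show (1 / 2 : ℝ) < 1 by norm_num)
  have h5 : (1 / 2 : ℝ) ^ k * M < M⁻¹ * M := mul_lt_mul_of_pos_right hk1 (by linarith)
  rw [inv_mul_cancel₀ (by linarith : M ≠ 0)] at h5
  exact absurd (hk k) (not_le.mpr h5)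

private theorem E8_orders {q : ℕ} [NeZero q] (χ : DirichletCharacter ℂ q) {N : ℕ} {a : ℕ → ℂ} {L : ℂ → ℂ}
    (D : Dat N a L) (t : ℝ) :
    AnalyticAt ℂ (LX.Lf χ * L) (1 / 2 + t * I) ∧
      analyticOrderAt (LX.Lf χ * L) (1 / 2 + t * I) ≠ ⊤ ∧
      analyticOrderNatAt (LX.Lf χ * L) (1 / 2 + t * I) =
        analyticOrderNatAt (LX.Lf χ) (1 / 2 + t * I) + analyticOrderNatAt L (1 / 2 + t * I) := by
  have a1 := E8_an χ _ (E8_ne t)
  have a2 : AnalyticAt ℂ L (1 / 2 + t * I) := D.ent.analyticAt _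
  have t1 := E8_top χ t
  have t2 := E8_top2 D (1 / 2 + t * I)
  refine ⟨a1.mul a2, ?_, ?_⟩
  · rw [analyticOrderAt_mul a1 a2]
    intro h
    rcases ENat.add_eq_top.mp h with h | h
    · exact t1 h
    · exact t2 h
  · rw [analyticOrderNatAt_mul a1 a2 t1 t2]

/-- constant sign beyond the last point of odd total multiplicity -/
private theorem E8_sign {q : ℕ} [NeZero q] {χ : DirichletCharacter ℂ q} (hχ : χ.IsPrimitive) {N : ℕ}
    {a : ℕ → ℂ} {L : ℂ → ℂ} (D : Dat N a L) {u : ℂ} {v W : ℝ → ℂ} {C0 : ℝ} (hp : Ph N L u v W C0) (T0 : ℝ)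
    (hev : ∀ t : ℝ, T0 < t → Even (analyticOrderNatAt (LX.Lf χ) (1 / 2 + t * I) +
      analyticOrderNatAt L (1 / 2 + t * I))) :
    (∀ t : ℝ, T0 < t → 0 ≤ (LX.uu χ t * LX.Lf χ (1 / 2 + t * I)).re * Zf L v t) ∨
    (∀ t : ℝ, T0 < t → (LX.uu χ t * LX.Lf χ (1 / 2 + t * I)).re * Zf L v t ≤ 0) := by
  obtain ⟨n1, c1, i1⟩ := TT.uu_all hχ
  have hre : ∀ z : ℂ, z.im = 0 → ((z.re : ℝ) : ℂ) = z := by
    intro z hz
    apply Complex.ext
    · simp
    · simp [hz]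
  have key : ∀ b : ℝ, (∀ t ∈ Ioo T0 b, 0 ≤ (LX.uu χ t * LX.Lf χ (1 / 2 + t * I)).re *
        Zf L v t) ∨
      (∀ t ∈ Ioo T0 b, (LX.uu χ t * LX.Lf χ (1 / 2 + t * I)).re *
        Zf L v t ≤ 0) := by
    intro b
    refine OO.F_sign (LX.Lf χ * L)
      (fun t => LX.uu χ t * v t)
      (fun t => (LX.uu χ t * LX.Lf χ (1 / 2 + t * I)).re * Zf L v t) (c1.mul hp.cv) ?_ ?_
      (fun t => (E8_orders χ D t).1) (fun t => (E8_orders χ D t).2.1) T0 b ?_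
    · intro t
      have e1 : LX.uu χ t ≠ 0 := by
        intro h; have := n1 t; rw [h] at this; simp at this
      have e2 : v t ≠ 0 := by
        intro h; have := hp.nv t; rw [h] at this; simp at this
      exact mul_ne_zero e1 e2
    · intro t
      rw [ofReal_mul, hre _ (i1 t), (Zf_abs hp t).2]
      show _ = LX.uu χ t * v t * (LX.Lf χ (1 / 2 + t * I) * L (1 / 2 + t * I))
      ring
    · intro t ht
      rw [(E8_orders χ D t).2.2]
      exact hev t ht.1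
  by_contra hcon
  push Not at hcon
  obtain ⟨⟨a, ha, ha'⟩, b, hb, hb'⟩ := hcon
  rcases key (max a b + 1) with h | h
  · exact absurd (h a ⟨ha, lt_of_le_of_lt (le_max_left a b) (lt_add_one _)⟩) (not_le.mpr ha')
  · exact absurd (h b ⟨hb, lt_of_le_of_lt (le_max_right a b) (lt_add_one _)⟩) (not_le.mpr hb')

private theorem E8_decay (n : ℕ) (a : ℝ) (ha : 0 < a) :
    ∃ K : ℝ, 0 ≤ K ∧ ∀ t : ℝ, (1 + |t|) ^ n * Real.exp (-(a * |t|)) ≤ K * (1 + t ^ 2)⁻¹ := by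
  refine ⟨((n + 2).factorial : ℝ) * Real.exp a / a ^ (n + 2), by positivity, ?_⟩
  intro t
  have ht := abs_nonneg t
  have h1 := Real.pow_div_factorial_le_exp (a * (1 + |t|)) (by positivity) (n + 2)
  have hf : (0 : ℝ) < ((n + 2).factorial : ℝ) := by positivity
  rw [div_le_iff₀ hf, mul_pow] at h1
  have h2 : Real.exp (a * (1 + |t|)) * Real.exp (-(a * |t|)) = Real.exp a := by
    rw [← Real.exp_add]; congr 1; ring
  have h3 : 1 + t ^ 2 ≤ (1 + |t|) ^ 2 := by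
    have := sq_abs t
    nlinarith
  have h4 : (0 : ℝ) < 1 + t ^ 2 := by positivity
  have h5 : (1 + |t|) ^ n * Real.exp (-(a * |t|)) * (1 + t ^ 2) ≤
      (1 + |t|) ^ (n + 2) * Real.exp (-(a * |t|)) := by
    have h6 : 0 ≤ (1 + |t|) ^ n * Real.exp (-(a * |t|)) := by positivity
    calc (1 + |t|) ^ n * Real.exp (-(a * |t|)) * (1 + t ^ 2)
        ≤ (1 + |t|) ^ n * Real.exp (-(a * |t|)) * (1 + |t|) ^ 2 := mul_le_mul_of_nonneg_left h3 h6
      _ = (1 + |t|) ^ (n + 2) * Real.exp (-(a * |t|)) := by ring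
  have h7 : (1 + |t|) ^ (n + 2) * Real.exp (-(a * |t|)) ≤
      ((n + 2).factorial : ℝ) * Real.exp a / a ^ (n + 2) := by
    rw [le_div_iff₀ (by positivity)]
    calc (1 + |t|) ^ (n + 2) * Real.exp (-(a * |t|)) * a ^ (n + 2)
        = (a ^ (n + 2) * (1 + |t|) ^ (n + 2)) * Real.exp (-(a * |t|)) := by ring
      _ ≤ (Real.exp (a * (1 + |t|)) * ((n + 2).factorial : ℝ)) * Real.exp (-(a * |t|)) :=
          mul_le_mul_of_nonneg_right h1 (Real.exp_pos _).le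
      _ = ((n + 2).factorial : ℝ) * (Real.exp (a * (1 + |t|)) * Real.exp (-(a * |t|))) := by ring
      _ = ((n + 2).factorial : ℝ) * Real.exp a := by rw [h2]
  rw [← div_eq_mul_inv, le_div_iff₀ h4]
  exact h5.trans h7

private theorem E8_decint (n : ℕ) (a : ℝ) (ha : 0 < a) :
    Integrable (fun t : ℝ => (1 + |t|) ^ n * Real.exp (-(a * |t|))) := by
  obtain ⟨K, hK, h⟩ := E8_decay n a ha
  refine (integrable_inv_one_add_sq.const_mul K).mono' ?_ ?_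
  · exact (by fun_prop : Continuous (fun t : ℝ => (1 + |t|) ^ n * Real.exp (-(a * |t|)))).aestronglyMeasurable
  · refine Eventually.of_forall (fun t => ?_)
    rw [Real.norm_of_nonneg (by positivity)]
    exact h t

private theorem E8_abs (P B : ℝ → ℝ) (T0 : ℝ) (hP : Integrable P) (hB : Integrable B) (hB0 : ∀ t, 0 ≤ B t)
    (hPB : ∀ t, t ≤ T0 → |P t| ≤ B t)
    (hs : (∀ t, T0 < t → 0 ≤ P t) ∨ (∀ t, T0 < t → P t ≤ 0)) :
    ∫ t in Ioi (1 : ℝ), |P t| ≤ 2 * (∫ t, B t) + |∫ t, P t| := by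
  have hPa : Integrable (fun t => |P t|) := hP.abs
  have h1 : ∫ t in Ioi (1 : ℝ), |P t| ≤ ∫ t, |P t| :=
    setIntegral_le_integral hPa (Eventually.of_forall (fun t => abs_nonneg _))
  have h2 : (∫ t in Iic T0, |P t|) + (∫ t in Ioi T0, |P t|) = ∫ t, |P t| :=
    intervalIntegral.integral_Iic_add_Ioi hPa.integrableOn hPa.integrableOn
  have h3 : (∫ t in Iic T0, P t) + (∫ t in Ioi T0, P t) = ∫ t, P t :=
    intervalIntegral.integral_Iic_add_Ioi hP.integrableOn hP.integrableOn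
  have h4 : ∫ t in Iic T0, |P t| ≤ ∫ t, B t := by
    calc ∫ t in Iic T0, |P t| ≤ ∫ t in Iic T0, B t :=
          setIntegral_mono_on hPa.integrableOn hB.integrableOn measurableSet_Iic (fun t ht => hPB t ht)
      _ ≤ ∫ t, B t := setIntegral_le_integral hB (Eventually.of_forall hB0)
  have h5 : |∫ t in Iic T0, P t| ≤ ∫ t in Iic T0, |P t| := abs_integral_le_integral_abs
  have h6 : ∫ t in Ioi T0, |P t| = |∫ t in Ioi T0, P t| := by
    rcases hs with hs | hs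
    · rw [abs_of_nonneg (setIntegral_nonneg measurableSet_Ioi (fun t ht => hs t ht))]
      exact setIntegral_congr_fun measurableSet_Ioi (fun t ht => abs_of_nonneg (hs t ht))
    · rw [abs_of_nonpos (setIntegral_nonpos measurableSet_Ioi (fun t ht => hs t ht)), ← integral_neg]
      exact setIntegral_congr_fun measurableSet_Ioi (fun t ht => abs_of_nonpos (hs t ht))
  have h7 : |∫ t in Ioi T0, P t| ≤ |∫ t, P t| + |∫ t in Iic T0, P t| := by
    have e : (∫ t in Ioi T0, P t) = (∫ t, P t) - (∫ t in Iic T0, P t) := by rw [← h3]; ring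
    rw [e]
    exact abs_sub _ _
  linarith

/-- Row E8. Main theorem for one character. -/
theorem odd_one {q : ℕ} [NeZero q] {χ : DirichletCharacter ℂ q} (hχ : χ.IsPrimitive) {N : ℕ} {a : ℕ → ℂ}
    {L : ℂ → ℂ} (D : Dat N a L) :
    {g : ℝ | 0 < g ∧ Odd (analyticOrderNatAt (LX.Lf χ) (1 / 2 + g * I) +
      analyticOrderNatAt L (1 / 2 + g * I))}.Infinite := by
  intro hfin
  obtain ⟨κ, hκ⟩ : ∃ κ : ℕ, TT.Par χ κ := by
    rcases χ.even_or_odd with h | h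
    · exact ⟨0, Or.inl ⟨h, rfl⟩⟩
    · exact ⟨1, Or.inr ⟨h, rfl⟩⟩
  obtain ⟨u, v, W, C0, hp⟩ := D.ph
  obtain ⟨T0, hT0, hT⟩ : ∃ T0 : ℝ, 0 ≤ T0 ∧ ∀ t : ℝ, T0 < t →
      Even (analyticOrderNatAt (LX.Lf χ) (1 / 2 + t * I) + analyticOrderNatAt L (1 / 2 + t * I)) := by
    obtain ⟨M, hM⟩ := hfin.bddAbove
    refine ⟨max M 0, le_max_right _ _, ?_⟩
    intro t ht
    by_contra hodd
    rw [Nat.not_even_iff_odd] at hodd
    have hmem := hM (show t ∈ {g : ℝ | 0 < g ∧ Odd (analyticOrderNatAt (LX.Lf χ) (1 / 2 + g * I) +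
      analyticOrderNatAt L (1 / 2 + g * I))} from ⟨lt_of_le_of_lt (le_max_right _ _) ht, hodd⟩)
    exact absurd (lt_of_le_of_lt (le_max_left M 0) ht) (not_lt.mpr hmem)
  have hsign := E8_sign hχ D hp T0 hT
  obtain ⟨C1, hC1, B1⟩ := TT.rR_le hχ
  obtain ⟨C2, hC2, B2⟩ := r2_le D
  obtain ⟨C, hC, hU⟩ := UB hχ hκ D hp
  obtain ⟨E, hE⟩ : ∃ E : ℝ, E = 11 / 4 + (κ : ℝ) / 2 := ⟨_, rfl⟩
  have hE0 : 0 ≤ E := by rw [hE]; positivity
  rw [← hE] at hU
  obtain ⟨K, hK⟩ : ∃ K : ℝ, K = C1 * C2 * Real.exp (2 * T0) := ⟨_, rfl⟩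
  have hK0 : 0 ≤ K := by rw [hK]; positivity
  obtain ⟨B, hB⟩ : ∃ B : ℝ → ℝ, B = fun t => K * ((1 + |t|) ^ 10 * Real.exp (-(2 * |t|))) := ⟨_, rfl⟩
  have hBi : Integrable B := by
    rw [hB]
    exact (E8_decint 10 2 (by norm_num)).const_mul K
  have hB0 : ∀ t, 0 ≤ B t := by
    intro t
    rw [hB]
    positivity
  have hM0 : 0 ≤ ∫ t, B t := integral_nonneg hB0
  obtain ⟨ε0, he0, he1, hL⟩ := LB hχ hκ D hp (C + 2 * (∫ t, B t) + 1)
  rw [← hE] at hL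
  have hw : ∀ t : ℝ, t ^ 2 + 1 / 4 ≤ (1 + |t|) ^ 2 := by
    intro t
    have ht := abs_nonneg t
    have := sq_abs t
    nlinarith
  -- the product
  obtain ⟨P, hPdef⟩ : ∃ P : ℝ → ℝ, P = fun t => (t ^ 2 + 1 / 4) * (TT.rR χ ε0 t * r2 N L v ε0 t) :=
    ⟨_, rfl⟩
  have hprod : ∀ (t y : ℝ), 0 ≤ y → |TT.rR χ ε0 t| ≤ C1 * (1 + |t|) ^ 4 * y →
      |r2 N L v ε0 t| ≤ C2 * (1 + |t|) ^ 4 * y → |P t| ≤ C1 * C2 * ((1 + |t|) ^ 10 * y ^ 2) := by
    intro t y hy b1 b2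
    have ht := abs_nonneg t
    rw [hPdef]
    show |(t ^ 2 + 1 / 4) * (TT.rR χ ε0 t * r2 N L v ε0 t)| ≤ _
    rw [abs_mul, abs_mul, abs_of_nonneg (by positivity : (0 : ℝ) ≤ t ^ 2 + 1 / 4)]
    have h12 : |TT.rR χ ε0 t| * |r2 N L v ε0 t| ≤ (C1 * (1 + |t|) ^ 4 * y) * (C2 * (1 + |t|) ^ 4 * y) :=
      mul_le_mul b1 b2 (abs_nonneg _) (by positivity)
    calc (t ^ 2 + 1 / 4) * (|TT.rR χ ε0 t| * |r2 N L v ε0 t|)
        ≤ (1 + |t|) ^ 2 * ((C1 * (1 + |t|) ^ 4 * y) * (C2 * (1 + |t|) ^ 4 * y)) :=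
          mul_le_mul (hw t) h12 (by positivity) (by positivity)
      _ = C1 * C2 * ((1 + |t|) ^ 10 * y ^ 2) := by ring
  have hPc : Continuous P := by
    rw [hPdef]
    have c1 := TT.rR_cont hχ ε0
    have c2 := r2_cont D hp.cv ε0
    fun_prop
  -- the bounds with the common exponential
  have b2a : ∀ t : ℝ, |r2 N L v ε0 t| ≤ C2 * (1 + |t|) ^ 4 * Real.exp (-(ε0 * |t| / 2)) := by
    intro t
    have ht := abs_nonneg t
    refine (B2 v ε0 hp.nv he0 he1 t).1.trans (mul_le_mul_of_nonneg_left (Real.exp_le_exp.mpr ?_) (by positivity))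
    have : 0 ≤ ε0 * |t| := by positivity
    linarith
  have hPi : Integrable P := by
    refine ((E8_decint 10 (2 * (ε0 / 2)) (by positivity)).const_mul (C1 * C2)).mono'
      hPc.aestronglyMeasurable (Eventually.of_forall (fun t => ?_))
    have h5 := hprod t (Real.exp (-(ε0 * |t| / 2))) (Real.exp_pos _).le (B1 ε0 he0 he1 t).1 (b2a t)
    have h6 : Real.exp (-(ε0 * |t| / 2)) ^ 2 = Real.exp (-(2 * (ε0 / 2) * |t|)) := by
      rw [← Real.exp_nat_mul]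
      congr 1
      push_cast
      ring
    rw [h6] at h5
    rw [Real.norm_eq_abs]
    exact h5
  have hPB : ∀ t, t ≤ T0 → |P t| ≤ B t := by
    intro t htT
    have ht := abs_nonneg t
    have hb : ∀ (Cj x : ℝ), 0 ≤ Cj → x ≤ Cj * (1 + |t|) ^ 4 * Real.exp (-(ε0 * |t| / 2)) →
        (t ≤ 0 → x ≤ Cj * (1 + |t|) ^ 4 * Real.exp (-|t|)) →
        x ≤ Cj * (1 + |t|) ^ 4 * Real.exp (T0 - |t|) := by
      intro Cj x hCj hx1 hx2
      have hn : 0 ≤ Cj * (1 + |t|) ^ 4 := by positivity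
      rcases le_or_gt t 0 with h | h
      · exact (hx2 h).trans (mul_le_mul_of_nonneg_left (Real.exp_le_exp.mpr (by linarith)) hn)
      · refine hx1.trans (mul_le_mul_of_nonneg_left (Real.exp_le_exp.mpr ?_) hn)
        have e1 : |t| = t := abs_of_pos h
        have e2 : 0 ≤ ε0 * |t| / 2 := by positivity
        linarith
    have h5 := hprod t (Real.exp (T0 - |t|)) (Real.exp_pos _).le
      (hb C1 _ hC1 (B1 ε0 he0 he1 t).1 (B1 ε0 he0 he1 t).2)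
      (hb C2 _ hC2.le (b2a t) (B2 v ε0 hp.nv he0 he1 t).2)
    refine h5.trans (le_of_eq ?_)
    rw [hB, hK]
    show C1 * C2 * ((1 + |t|) ^ 10 * Real.exp (T0 - |t|) ^ 2) =
      C1 * C2 * Real.exp (2 * T0) * ((1 + |t|) ^ 10 * Real.exp (-(2 * |t|)))
    have h6 : Real.exp (T0 - |t|) ^ 2 = Real.exp (2 * T0) * Real.exp (-(2 * |t|)) := by
      rw [← Real.exp_nat_mul, ← Real.exp_add]
      congr 1
      push_cast
      ring
    rw [h6]
    ring
  have hPs : (∀ t, T0 < t → 0 ≤ P t) ∨ (∀ t, T0 < t → P t ≤ 0) := by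
    have hfac : ∀ t : ℝ, ∃ w : ℝ, 0 ≤ w ∧ P t = w * ((LX.uu χ t * LX.Lf χ (1 / 2 + t * I)).re *
        Zf L v t) := by
      intro t
      refine ⟨(t ^ 2 + 1 / 4) * ((Real.exp ((π / 2 - ε0) * t / 2) * ‖χ.gammaFactor (1 / 2 + t * I)‖) *
        (Real.exp ((π / 2 - ε0) * t) * (√(√N / (2 * π)) * √(π / Real.cosh (π * t))))), by positivity, ?_⟩
      rw [hPdef]
      simp only [TT.rR, r2]
      ring
    rcases hsign with h | h
    · left
      intro t ht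
      obtain ⟨w, hw0, hw1⟩ := hfac t
      rw [hw1]
      exact mul_nonneg hw0 (h t ht)
    · right
      intro t ht
      obtain ⟨w, hw0, hw1⟩ := hfac t
      rw [hw1]
      exact mul_nonpos_of_nonneg_of_nonpos hw0 (h t ht)
  have hmain := E8_abs P B T0 hPi hBi hB0 hPB hPs
  have hU0 := hU ε0 he0 he1
  have hL0 := hL ε0 he0 le_rfl
  have hPabs : (fun t : ℝ => (t ^ 2 + 1 / 4) * |TT.rR χ ε0 t * r2 N L v ε0 t|) = fun t => |P t| := by
    funext t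
    rw [hPdef]
    show _ = |(t ^ 2 + 1 / 4) * (TT.rR χ ε0 t * r2 N L v ε0 t)|
    rw [abs_mul (t ^ 2 + 1 / 4), abs_of_nonneg (by positivity : (0 : ℝ) ≤ t ^ 2 + 1 / 4)]
  rw [hPabs] at hL0
  have hU1 : |∫ t, P t| ≤ C * ε0 ^ (-E) := by
    rw [hPdef]
    exact hU0
  have hpow : 1 ≤ ε0 ^ (-E) := by
    apply Real.one_le_rpow_of_pos_of_le_one_of_nonpos he0 (by linarith) (by linarith)
  have hMp : (∫ t, B t) ≤ (∫ t, B t) * ε0 ^ (-E) := le_mul_of_one_le_right hM0 hpow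
  nlinarith [hL0, hmain, hU1, hpow, hMp]

end NR
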