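import Pool.Agent.Lib.MP_0f5a55_nt.NR.D
import Pool.Agent.Lib.MP_0f5a55_nt.NR.M05
import Pool.Agent.Lib.MP_0f5a55_nt.GG.G07

open Complex MeasureTheory Set Filter Topology
open scoped Real ComplexConjugate

namespace NR

open NH

theorem M06_two {N : ℕ} {a : ℕ → ℂ} {L : ℂ → ℂ} (D : Dat N a L) (p : Nat.Primes) :
    ‖a (p : ℕ)‖ ^ 2 ≤ 4 := by
  have h1 := D.bd p p.2.pos
  have h2 : ((p : ℕ).divisors.card : ℝ) = 2 := by
    rw [p.2.divisors, Finset.card_pair p.2.one_lt.ne]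
    norm_num
  rw [h2] at h1
  nlinarith [norm_nonneg (a (p : ℕ))]

theorem M06_pos (p : Nat.Primes) (x : ℝ) : (0 : ℝ) ≤ ((p : ℕ) : ℝ) ^ x :=
  Real.rpow_nonneg (Nat.cast_nonneg _) _

/-- Row M06. Size of S(δ). -/
theorem Sp_summable {N : ℕ} {a : ℕ → ℂ} {L : ℂ → ℂ} (D : Dat N a L) {δ : ℝ} (h0 : 0 < δ) :
    Summable (fun p : Nat.Primes => ‖a (p : ℕ)‖ ^ 2 * ((p : ℕ) : ℝ) ^ (-(1 + δ))) := by
  have h1 : Summable (fun p : Nat.Primes => ((p : ℕ) : ℝ) ^ (-(1 + δ))) :=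
    Nat.Primes.summable_rpow.mpr (by linarith)
  refine Summable.of_nonneg_of_le (fun p => mul_nonneg (by positivity) (M06_pos p _)) (fun p => ?_)
    (h1.mul_left 4)
  exact mul_le_mul_of_nonneg_right (M06_two D p) (M06_pos p _)

theorem Sp_nonneg (a : ℕ → ℂ) (δ : ℝ) : 0 ≤ Sp a δ :=
  tsum_nonneg fun p => mul_nonneg (by positivity) (M06_pos p _)

theorem M06_mono (p : Nat.Primes) {δ δ' : ℝ} (h : δ ≤ δ') :
    ((p : ℕ) : ℝ) ^ (-(1 + δ')) ≤ ((p : ℕ) : ℝ) ^ (-(1 + δ)) :=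
  Real.rpow_le_rpow_of_exponent_le (by exact_mod_cast p.2.one_lt.le) (by linarith)

theorem Sp_anti {N : ℕ} {a : ℕ → ℂ} {L : ℂ → ℂ} (D : Dat N a L) {δ δ' : ℝ} (h0 : 0 < δ) (h : δ ≤ δ') :
    Sp a δ' ≤ Sp a δ := by
  unfold Sp
  refine Summable.tsum_le_tsum (fun p => ?_) (Sp_summable D (h0.trans_le h)) (Sp_summable D h0)
  exact mul_le_mul_of_nonneg_left (M06_mono p h) (by positivity)

theorem M06_block (m : ℕ) (hm : 0 < m) {δ : ℝ} (h0 : 0 < δ) :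
    ∃ j : ℕ, j < m ∧ (m : ℝ) ^ (-(1 + δ)) ≤
      Real.exp 2 * (((2 : ℝ) ^ j) ^ (-(1 + δ)) * Real.exp (-((m : ℝ) / 2 ^ j))) := by
  refine ⟨Nat.log 2 m, Nat.log_lt_self 2 hm.ne', ?_⟩
  have h1 : (2 : ℝ) ^ Nat.log 2 m ≤ m := by exact_mod_cast Nat.pow_log_le_self 2 hm.ne'
  have h2 : (m : ℝ) < 2 ^ (Nat.log 2 m + 1) := by
    exact_mod_cast Nat.lt_pow_succ_log_self (by norm_num) m
  have hp : (0 : ℝ) < 2 ^ Nat.log 2 m := by positivity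
  have h3 : (m : ℝ) ^ (-(1 + δ)) ≤ ((2 : ℝ) ^ Nat.log 2 m) ^ (-(1 + δ)) :=
    Real.rpow_le_rpow_of_nonpos hp h1 (by linarith)
  have h4 : (m : ℝ) / 2 ^ Nat.log 2 m ≤ 2 := by
    rw [div_le_iff₀ hp]
    rw [pow_succ] at h2
    linarith
  have h5 : 1 ≤ Real.exp 2 * Real.exp (-((m : ℝ) / 2 ^ Nat.log 2 m)) := by
    rw [← Real.exp_add]
    exact Real.one_le_exp (by linarith)
  have h6 : (0 : ℝ) ≤ ((2 : ℝ) ^ Nat.log 2 m) ^ (-(1 + δ)) := Real.rpow_nonneg hp.le _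
  calc (m : ℝ) ^ (-(1 + δ)) ≤ ((2 : ℝ) ^ Nat.log 2 m) ^ (-(1 + δ)) := h3
    _ ≤ ((2 : ℝ) ^ Nat.log 2 m) ^ (-(1 + δ)) *
        (Real.exp 2 * Real.exp (-((m : ℝ) / 2 ^ Nat.log 2 m))) := le_mul_of_one_le_right h6 h5
    _ = _ := by ring

theorem M06_geom {δ : ℝ} (h0 : 0 < δ) (h1 : δ ≤ 1) (J : ℕ) :
    ∑ j ∈ Finset.range J, ((2 : ℝ) ^ (-δ)) ^ j ≤ 2 / δ := by
  have hr0 : (0 : ℝ) ≤ (2 : ℝ) ^ (-δ) := by positivity
  have hr : (2 : ℝ) ^ (-δ) ≤ 1 - δ / 2 := by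
    have hb := rpow_one_add_le_one_add_mul_self (s := -(1 / 2)) (by norm_num) h0.le h1
    have e : (2 : ℝ) ^ (-δ) = (1 + -(1 / 2) : ℝ) ^ δ := by
      rw [Real.rpow_neg (by norm_num), ← Real.inv_rpow (by norm_num)]
      norm_num
    rw [e]
    linarith
  have hr1 : (2 : ℝ) ^ (-δ) < 1 := by linarith
  calc ∑ j ∈ Finset.range J, ((2 : ℝ) ^ (-δ)) ^ j ≤ ∑' j : ℕ, ((2 : ℝ) ^ (-δ)) ^ j :=
        (summable_geometric_of_lt_one hr0 hr1).sum_le_tsum _ fun j _ => by positivity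
    _ = (1 - (2 : ℝ) ^ (-δ))⁻¹ := tsum_geometric_of_lt_one hr0 hr1
    _ ≤ (δ / 2)⁻¹ := inv_anti₀ (by linarith) (by linarith)
    _ = 2 / δ := by rw [inv_div]

theorem M06_ms {N : ℕ} {a : ℕ → ℂ} {L : ℂ → ℂ} (D : Dat N a L) {x : ℝ} (hx : 0 < x) :
    Summable (fun n : ℕ => ‖a (n + 1)‖ ^ 2 * Real.exp (-(x * ((n : ℝ) + 1)))) := by
  have h1 : Summable (fun n : ℕ => (n : ℝ) ^ 2 * Real.exp (-x * n)) :=
    Real.summable_pow_mul_exp_neg_nat_mul 2 hx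
  have h2 := (summable_nat_add_iff 1).mpr h1
  refine Summable.of_nonneg_of_le (fun n => by positivity) (fun n => ?_) h2
  have h3 := D.bd (n + 1) (by omega)
  have h4 : ((n + 1).divisors.card : ℝ) ≤ ((n + 1 : ℕ) : ℝ) := by
    exact_mod_cast Nat.card_divisors_le_self (n + 1)
  have h5 : ‖a (n + 1)‖ ^ 2 ≤ ((n + 1 : ℕ) : ℝ) ^ 2 :=
    pow_le_pow_left₀ (norm_nonneg _) (h3.trans h4) 2
  have h6 : Real.exp (-(x * ((n : ℝ) + 1))) = Real.exp (-x * ((n + 1 : ℕ) : ℝ)) := by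
    congr 1
    push_cast
    ring
  rw [h6]
  exact mul_le_mul_of_nonneg_right h5 (Real.exp_pos _).le

theorem M06_series {N : ℕ} {a : ℕ → ℂ} {L : ℂ → ℂ} (D : Dat N a L) : ∃ C : ℝ, 0 < C ∧
    ∀ δ : ℝ, 0 < δ → δ ≤ 1 →
      ∑' n : ℕ, ‖a (n + 1)‖ ^ 2 * ((n : ℝ) + 1) ^ (-(1 + δ)) ≤ C / δ := by
  obtain ⟨C, hC0, hC⟩ := D.ms
  refine ⟨Real.exp 2 * (C + 1) * 2, by positivity, fun δ h0 h1 => ?_⟩
  refine Real.tsum_le_of_sum_range_le (fun n => by positivity) fun K => ?_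
  have s1 : ∀ n ∈ Finset.range K, ‖a (n + 1)‖ ^ 2 * ((n : ℝ) + 1) ^ (-(1 + δ)) ≤
      ∑ j ∈ Finset.range K, Real.exp 2 * (((2 : ℝ) ^ j) ^ (-(1 + δ)) *
        (‖a (n + 1)‖ ^ 2 * Real.exp (-((2 ^ j : ℝ)⁻¹ * ((n : ℝ) + 1))))) := by
    intro n hn
    obtain ⟨j, hj, hb⟩ := M06_block (n + 1) (by omega) h0
    have hjK : j ∈ Finset.range K := by
      rw [Finset.mem_range] at hn ⊢
      omega
    refine le_trans ?_ (Finset.single_le_sum (f := fun j => Real.exp 2 * (((2 : ℝ) ^ j) ^ (-(1 + δ)) *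
        (‖a (n + 1)‖ ^ 2 * Real.exp (-((2 ^ j : ℝ)⁻¹ * ((n : ℝ) + 1)))))) (fun j _ => by positivity) hjK)
    have e : -(((n + 1 : ℕ) : ℝ) / 2 ^ j) = -((2 ^ j : ℝ)⁻¹ * ((n : ℝ) + 1)) := by
      push_cast
      ring
    rw [e] at hb
    have hb' : ((n : ℝ) + 1) ^ (-(1 + δ)) ≤ Real.exp 2 * (((2 : ℝ) ^ j) ^ (-(1 + δ)) *
        Real.exp (-((2 ^ j : ℝ)⁻¹ * ((n : ℝ) + 1)))) := by
      have : (((n + 1 : ℕ) : ℝ)) = (n : ℝ) + 1 := by push_cast; ring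
      rwa [this] at hb
    calc ‖a (n + 1)‖ ^ 2 * ((n : ℝ) + 1) ^ (-(1 + δ)) ≤ ‖a (n + 1)‖ ^ 2 *
          (Real.exp 2 * (((2 : ℝ) ^ j) ^ (-(1 + δ)) *
            Real.exp (-((2 ^ j : ℝ)⁻¹ * ((n : ℝ) + 1))))) :=
          mul_le_mul_of_nonneg_left hb' (by positivity)
      _ = _ := by ring
  refine (Finset.sum_le_sum s1).trans ?_
  rw [Finset.sum_comm]
  have s2 : ∀ j ∈ Finset.range K, ∑ n ∈ Finset.range K, Real.exp 2 * (((2 : ℝ) ^ j) ^ (-(1 + δ)) *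
        (‖a (n + 1)‖ ^ 2 * Real.exp (-((2 ^ j : ℝ)⁻¹ * ((n : ℝ) + 1))))) ≤
      Real.exp 2 * (C + 1) * ((2 : ℝ) ^ (-δ)) ^ j := by
    intro j _
    rw [← Finset.mul_sum, ← Finset.mul_sum]
    have hx : (0 : ℝ) < (2 ^ j : ℝ)⁻¹ := by positivity
    have t1 : ∑ n ∈ Finset.range K, ‖a (n + 1)‖ ^ 2 * Real.exp (-((2 ^ j : ℝ)⁻¹ * ((n : ℝ) + 1))) ≤
        (C + 1) * 2 ^ j := by
      refine ((M06_ms D hx).sum_le_tsum _ fun n _ => by positivity).trans ((hC _ hx).trans ?_)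
      rw [div_inv_eq_mul]
      have : (0 : ℝ) < 2 ^ j := by positivity
      nlinarith
    have t2 : ((2 : ℝ) ^ j) ^ (-(1 + δ)) * 2 ^ j = ((2 : ℝ) ^ (-δ)) ^ j := by
      have hp : (0 : ℝ) < 2 ^ j := by positivity
      calc ((2 : ℝ) ^ j) ^ (-(1 + δ)) * 2 ^ j = ((2 : ℝ) ^ j) ^ (-(1 + δ)) * ((2 : ℝ) ^ j) ^ (1 : ℝ) := by
            rw [Real.rpow_one]
        _ = ((2 : ℝ) ^ j) ^ (-δ) := by
            rw [← Real.rpow_add hp]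
            congr 1
            ring
        _ = ((2 : ℝ) ^ (-δ)) ^ j := by
            rw [← Real.rpow_natCast (2 : ℝ) j, ← Real.rpow_mul (by norm_num),
              ← Real.rpow_natCast ((2 : ℝ) ^ (-δ)) j, ← Real.rpow_mul (by norm_num)]
            congr 1
            ring
    calc Real.exp 2 * (((2 : ℝ) ^ j) ^ (-(1 + δ)) *
          ∑ n ∈ Finset.range K, ‖a (n + 1)‖ ^ 2 * Real.exp (-((2 ^ j : ℝ)⁻¹ * ((n : ℝ) + 1)))) ≤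
          Real.exp 2 * (((2 : ℝ) ^ j) ^ (-(1 + δ)) * ((C + 1) * 2 ^ j)) := by
          refine mul_le_mul_of_nonneg_left (mul_le_mul_of_nonneg_left t1 (by positivity)) (by positivity)
      _ = Real.exp 2 * (C + 1) * (((2 : ℝ) ^ j) ^ (-(1 + δ)) * 2 ^ j) := by ring
      _ = _ := by rw [t2]
  refine (Finset.sum_le_sum s2).trans ?_
  rw [← Finset.mul_sum]
  calc Real.exp 2 * (C + 1) * ∑ j ∈ Finset.range K, ((2 : ℝ) ^ (-δ)) ^ j ≤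
        Real.exp 2 * (C + 1) * (2 / δ) :=
        mul_le_mul_of_nonneg_left (M06_geom h0 h1 K) (by positivity)
    _ = _ := by ring

theorem Sp_le {N : ℕ} {a : ℕ → ℂ} {L : ℂ → ℂ} (D : Dat N a L) : ∃ C : ℝ, ∀ δ : ℝ, 0 < δ → δ ≤ 1 →
    Sp a δ ≤ Real.log (1 / δ) + C := by
  obtain ⟨C1, hC1, h1⟩ := ms_euler D
  obtain ⟨C2, hC2, h2⟩ := M06_series D
  refine ⟨Real.log (C1 * C2), fun δ h0 hd => ?_⟩
  have h3 := (h1 δ h0 hd).2.2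
  have h4 := h2 δ h0 hd
  have h5 : Real.exp (Sp a δ) ≤ C1 * (C2 / δ) := h3.trans (mul_le_mul_of_nonneg_left h4 hC1.le)
  have h6 : C1 * (C2 / δ) = (1 / δ) * (C1 * C2) := by ring
  rw [h6] at h5
  have h7 := Real.log_le_log (Real.exp_pos _) h5
  rwa [Real.log_exp, Real.log_mul (by positivity) (by positivity)] at h7

theorem M06_triv : ∃ C : ℝ, ∀ δ : ℝ, 0 < δ → δ ≤ 1 →
    |∑' p : Nat.Primes, ((p : ℕ) : ℝ) ^ (-(1 + δ)) - Real.log (1 / δ)| ≤ C := by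
  obtain ⟨C, hC⟩ := GG.prime_sum_triv 1
  refine ⟨C, fun δ h0 h1 => ?_⟩
  have h := hC δ h0 h1
  have e : ∀ p : Nat.Primes, ((1 : DirichletCharacter ℂ 1) ((p : ℕ) : ZMod 1)).re *
      ((p : ℕ) : ℝ) ^ (-(1 + δ)) = ((p : ℕ) : ℝ) ^ (-(1 + δ)) := by
    intro p
    rw [MulChar.one_apply (isUnit_of_subsingleton _)]
    simp
  simpa only [e] using h

/-- slow variation -/
theorem Sp_slow {N : ℕ} {a : ℕ → ℂ} {L : ℂ → ℂ} (D : Dat N a L) : ∃ C : ℝ, ∀ δ δ' : ℝ, 0 < δ' → δ' ≤ δ → δ ≤ 1 →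
    Sp a δ' ≤ Sp a δ + 4 * Real.log (δ / δ') + C := by
  obtain ⟨C, hC⟩ := M06_triv
  refine ⟨4 * (2 * C), fun δ δ' h0 hd h1 => ?_⟩
  have hδ : 0 < δ := h0.trans_le hd
  have a1 := hC δ hδ h1
  have a2 := hC δ' h0 (hd.trans h1)
  have u1 : Summable (fun p : Nat.Primes => ((p : ℕ) : ℝ) ^ (-(1 + δ))) :=
    Nat.Primes.summable_rpow.mpr (by linarith)
  have u2 : Summable (fun p : Nat.Primes => ((p : ℕ) : ℝ) ^ (-(1 + δ'))) :=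
    Nat.Primes.summable_rpow.mpr (by linarith)
  have b1 : Sp a δ' - Sp a δ ≤ 4 * (∑' p : Nat.Primes, ((p : ℕ) : ℝ) ^ (-(1 + δ')) -
      ∑' p : Nat.Primes, ((p : ℕ) : ℝ) ^ (-(1 + δ))) := by
    unfold Sp
    rw [← (Sp_summable D h0).tsum_sub (Sp_summable D hδ), ← u2.tsum_sub u1, ← tsum_mul_left]
    refine Summable.tsum_le_tsum (fun p => ?_) ((Sp_summable D h0).sub (Sp_summable D hδ))
      ((u2.sub u1).mul_left 4)
    rw [← mul_sub]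
    exact mul_le_mul_of_nonneg_right (M06_two D p) (sub_nonneg.2 (M06_mono p hd))
  have c1 := (abs_le.1 a1).1
  have c2 := (abs_le.1 a2).2
  have e : Real.log (δ / δ') = Real.log (1 / δ') - Real.log (1 / δ) := by
    rw [Real.log_div hδ.ne' h0.ne', one_div, one_div, Real.log_inv, Real.log_inv]
    ring
  rw [e]
  linarith

end NR
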