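import Pool.Agent.Lib.MP_0f5a55_nt.NR.D

open Complex MeasureTheory Set Filter Topology
open scoped Real ComplexConjugate

namespace NR

/-- Row M07. Sums with periodic twists. -/
theorem twist_sum {N : ℕ} {a : ℕ → ℂ} {L : ℂ → ℂ} (D : Dat N a L) {M : ℕ} (hM : 0 < M) (w : ℕ → ℂ)
    (hw : ∀ n : ℕ, w (n + M) = w n) : ∃ C : ℝ, 0 ≤ C ∧ ∀ x : ℕ, 1 ≤ x →
    ‖∑ n ∈ Finset.Icc 1 x, a n * w n‖ ≤ C * (√x * (1 + Real.log x)) := D.tw M hM w hw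

end NR
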