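import Pool.Agent.Lib.MP_0f5a55_nt.NR.M06
import Pool.Agent.Lib.MP_0f5a55_nt.NR.M07
import Pool.Agent.Lib.MP_0f5a55_nt.NR.E6

open Complex MeasureTheory Set Filter Topology
open scoped Real ComplexConjugate

namespace NR

open NH


/-- the twisted coefficients times n^(-1-δ) -/
noncomputable def M08_g {q : ℕ} (a : ℕ → ℂ) (χ : DirichletCharacter ℂ q) (δ : ℝ) (n : ℕ) : ℂ :=
  a n * conj (χ (n : ZMod q)) * (((n : ℝ) ^ (-(1 + δ)) : ℝ) : ℂ)

theorem M08_norm_le {q : ℕ} [NeZero q] (a : ℕ → ℂ) (χ : DirichletCharacter ℂ q) (δ : ℝ) (n : ℕ) :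
    ‖M08_g a χ δ n‖ ≤ ‖a n‖ * (n : ℝ) ^ (-(1 + δ)) := by
  unfold M08_g
  rw [norm_mul, norm_mul, RCLike.norm_conj, Complex.norm_real,
    Real.norm_of_nonneg (Real.rpow_nonneg (Nat.cast_nonneg _) _)]
  refine mul_le_mul_of_nonneg_right ?_ (Real.rpow_nonneg (Nat.cast_nonneg _) _)
  exact mul_le_of_le_one_right (norm_nonneg _) (χ.norm_le_one _)

theorem M08_zero {q : ℕ} (a : ℕ → ℂ) (χ : DirichletCharacter ℂ q) {δ : ℝ} (hδ : 0 < δ) :
    M08_g a χ δ 0 = 0 := by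
  unfold M08_g
  have h : ((0 : ℕ) : ℝ) ^ (-(1 + δ)) = 0 := by
    rw [Nat.cast_zero, Real.zero_rpow (by linarith)]
  rw [h]
  simp

theorem M08_summable {N : ℕ} {a : ℕ → ℂ} {L : ℂ → ℂ} (D : Dat N a L) {q : ℕ} [NeZero q]
    (χ : DirichletCharacter ℂ q) {δ : ℝ} (hδ : 0 < δ) (hδ1 : δ ≤ 1) :
    Summable (fun n => ‖M08_g a χ δ n‖) := by
  obtain ⟨C1, _, hC⟩ := ms_euler D
  have h1 := (hC δ hδ hδ1).1
  have h2 : Summable (fun n : ℕ => ((n : ℝ) + 1) ^ (-(1 + δ))) := by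
    have h3 : Summable (fun n : ℕ => (n : ℝ) ^ (-(1 + δ))) := Real.summable_nat_rpow.mpr (by linarith)
    have h4 := (summable_nat_add_iff 1).mpr h3
    refine h4.congr fun n => ?_
    push_cast
    rfl
  rw [← summable_nat_add_iff 1]
  refine Summable.of_nonneg_of_le (fun n => norm_nonneg _) (fun n => ?_) (h1.add h2)
  refine (M08_norm_le a χ δ (n + 1)).trans ?_
  have e1 : (((n + 1 : ℕ) : ℝ)) = (n : ℝ) + 1 := by push_cast; rfl
  rw [e1, ← add_one_mul]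
  refine mul_le_mul_of_nonneg_right ?_ (Real.rpow_nonneg (by positivity) _)
  nlinarith [sq_nonneg (‖a (n + 1)‖ - 1), norm_nonneg (a (n + 1))]

theorem M08_mul {N : ℕ} {a : ℕ → ℂ} {L : ℂ → ℂ} (D : Dat N a L) {q : ℕ} [NeZero q]
    (χ : DirichletCharacter ℂ q) {δ : ℝ} (hδ : 0 < δ) {m n : ℕ} (h : Nat.Coprime m n) :
    M08_g a χ δ (m * n) = M08_g a χ δ m * M08_g a χ δ n := by
  rcases Nat.eq_zero_or_pos m with hm | hm
  · subst hm
    rw [zero_mul, M08_zero a χ hδ, zero_mul]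
  rcases Nat.eq_zero_or_pos n with hn | hn
  · subst hn
    rw [mul_zero, M08_zero a χ hδ, mul_zero]
  unfold M08_g
  rw [D.mul m n hm hn h, Nat.cast_mul, map_mul, map_mul, Nat.cast_mul,
    Real.mul_rpow (Nat.cast_nonneg _) (Nat.cast_nonneg _), Complex.ofReal_mul]
  ring

theorem M08_one {N : ℕ} {a : ℕ → ℂ} {L : ℂ → ℂ} (D : Dat N a L) {q : ℕ} [NeZero q]
    (χ : DirichletCharacter ℂ q) (δ : ℝ) : M08_g a χ δ 1 = 1 := by
  unfold M08_g
  rw [D.one]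
  simp

/-- the Euler product -/
theorem M08_euler {N : ℕ} {a : ℕ → ℂ} {L : ℂ → ℂ} (D : Dat N a L) {q : ℕ} [NeZero q]
    (χ : DirichletCharacter ℂ q) {δ : ℝ} (hδ : 0 < δ) (hδ1 : δ ≤ 1) :
    ∑' n, M08_g a χ δ n ≠ 0 ∧
      |∑' p : Nat.Primes, (a (p : ℕ) * conj (χ ((p : ℕ) : ZMod q))).re * ((p : ℕ) : ℝ) ^ (-(1 + δ)) -
        Real.log ‖∑' n, M08_g a χ δ n‖| ≤ ∑' p : Nat.Primes, 2 * ((p : ℕ) : ℝ) ^ (-2 : ℝ) := by
  obtain ⟨α, β, hloc⟩ := D.loc_ex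
  have hs2 : Summable (fun p : Nat.Primes => 2 * ((p : ℕ) : ℝ) ^ (-2 : ℝ)) :=
    (Nat.Primes.summable_rpow.mpr (by norm_num)).mul_left 2
  have hs1 : Summable (fun p : Nat.Primes => ((p : ℕ) : ℝ) ^ (-(1 + δ))) :=
    Nat.Primes.summable_rpow.mpr (by linarith)
  have hpos : ∀ p : Nat.Primes, (0 : ℝ) ≤ ((p : ℕ) : ℝ) ^ (-(1 + δ)) := fun p =>
    Real.rpow_nonneg (Nat.cast_nonneg _) _
  have hp2 : ∀ p : Nat.Primes, (2 : ℝ) ≤ ((p : ℕ) : ℝ) := fun p => by exact_mod_cast p.2.two_le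
  set z : Nat.Primes → ℂ := fun p =>
    conj (χ ((p : ℕ) : ZMod q)) * ((((p : ℕ) : ℝ) ^ (-(1 + δ)) : ℝ) : ℂ) with hz
  have hzle : ∀ p, ‖z p‖ ≤ ((p : ℕ) : ℝ) ^ (-(1 + δ)) := by
    intro p
    simp only [hz]
    rw [norm_mul, RCLike.norm_conj, Complex.norm_real, Real.norm_of_nonneg (hpos p)]
    exact mul_le_of_le_one_left (hpos p) (χ.norm_le_one _)
  have hz1 : ∀ p : Nat.Primes, ((p : ℕ) : ℝ) ^ (-(1 + δ)) ≤ ((p : ℕ) : ℝ) ^ (-1 : ℝ) := by
    intro p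
    exact Real.rpow_le_rpow_of_exponent_le (by linarith [hp2 p]) (by linarith)
  have hhalf : ∀ p : Nat.Primes, ((p : ℕ) : ℝ) ^ (-1 : ℝ) ≤ 1 / 2 := by
    intro p
    rw [Real.rpow_neg_one, one_div]
    exact inv_anti₀ (by norm_num) (hp2 p)
  have hsq : ∀ p : Nat.Primes, (((p : ℕ) : ℝ) ^ (-1 : ℝ)) ^ 2 = ((p : ℕ) : ℝ) ^ (-2 : ℝ) := by
    intro p
    rw [← Real.rpow_natCast, ← Real.rpow_mul (Nat.cast_nonneg _)]
    norm_num
  -- one factor
  have hone : ∀ (p : Nat.Primes) (γ : ℂ), ‖γ‖ ≤ 1 → ‖γ * z p‖ ≤ ((p : ℕ) : ℝ) ^ (-1 : ℝ) := by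
    intro p γ hγ
    rw [norm_mul]
    exact (mul_le_of_le_one_left (norm_nonneg _) hγ).trans ((hzle p).trans (hz1 p))
  have hlogr : ∀ (p : Nat.Primes) (γ : ℂ), ‖γ‖ ≤ 1 →
      ‖-Complex.log (1 - γ * z p) - γ * z p‖ ≤ ((p : ℕ) : ℝ) ^ (-2 : ℝ) := by
    intro p γ hγ
    have h0 := hone p γ hγ
    have hh := hhalf p
    have h1 : ‖-(γ * z p)‖ < 1 := by rw [norm_neg]; linarith
    have h2 := Complex.norm_log_one_add_sub_self_le h1
    have h3 : -Complex.log (1 - γ * z p) - γ * z p =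
        -(Complex.log (1 + -(γ * z p)) - -(γ * z p)) := by
      rw [← sub_eq_add_neg]; ring
    rw [h3, norm_neg]
    refine h2.trans ?_
    rw [norm_neg]
    have h4 : (1 - ‖γ * z p‖)⁻¹ ≤ 2 := by
      rw [inv_le_comm₀ (by linarith) two_pos]
      linarith
    have h5 : ‖γ * z p‖ ^ 2 * (1 - ‖γ * z p‖)⁻¹ / 2 ≤ ‖γ * z p‖ ^ 2 := by
      have := mul_le_mul_of_nonneg_left h4 (sq_nonneg ‖γ * z p‖)
      linarith
    refine h5.trans ?_
    rw [← hsq p]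
    exact pow_le_pow_left₀ (norm_nonneg _) h0 2
  set u : Nat.Primes → ℂ := fun p =>
    -Complex.log (1 - α p * z p) - Complex.log (1 - β p * z p) with hu
  set v : Nat.Primes → ℂ := fun p => a (p : ℕ) * z p with hv
  have hap : ∀ p : Nat.Primes, a (p : ℕ) = α p + β p := by
    intro p
    have h1 := (hloc p p.2).2.2 1
    rw [pow_one] at h1
    rw [h1]
    simp [Finset.sum_range_succ, add_comm]
  have hur : ∀ p, ‖u p - v p‖ ≤ 2 * ((p : ℕ) : ℝ) ^ (-2 : ℝ) := by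
    intro p
    have e1 : u p - v p = (-Complex.log (1 - α p * z p) - α p * z p) +
        (-Complex.log (1 - β p * z p) - β p * z p) := by
      simp only [hu, hv]
      rw [hap p]
      ring
    rw [e1]
    refine (norm_add_le _ _).trans ?_
    have h1 := hlogr p (α p) (hloc p p.2).1
    have h2 := hlogr p (β p) (hloc p p.2).2.1
    linarith
  have hv1 : Summable (fun p => ‖v p‖) := by
    refine Summable.of_nonneg_of_le (fun p => norm_nonneg _) (fun p => ?_) (hs1.mul_left 2)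
    simp only [hv]
    rw [norm_mul]
    refine mul_le_mul ?_ (hzle p) (norm_nonneg _) (by norm_num)
    rw [hap p]
    refine (norm_add_le _ _).trans ?_
    have h1 := (hloc p p.2).1
    have h2 := (hloc p p.2).2.1
    linarith
  have hvs : Summable v := Summable.of_norm hv1
  have hr1 : Summable (fun p => ‖u p - v p‖) :=
    Summable.of_nonneg_of_le (fun p => norm_nonneg _) hur hs2
  have hrs : Summable (fun p => u p - v p) := Summable.of_norm hr1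
  have hus : Summable u := by
    have := hvs.add hrs
    refine this.congr fun p => ?_
    ring
  -- the local factor
  have hlocal : ∀ p : Nat.Primes, ∑' e : ℕ, M08_g a χ δ ((p : ℕ) ^ e) = Complex.exp (u p) := by
    intro p
    have hA : ‖α p * z p‖ < 1 := lt_of_le_of_lt (hone p _ (hloc p p.2).1) (by linarith [hhalf p])
    have hB : ‖β p * z p‖ < 1 := lt_of_le_of_lt (hone p _ (hloc p p.2).2.1) (by linarith [hhalf p])
    have hA0 : 1 - α p * z p ≠ 0 := by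
      intro h
      have : α p * z p = 1 := (sub_eq_zero.mp h).symm
      rw [this, norm_one] at hA
      exact lt_irrefl _ hA
    have hB0 : 1 - β p * z p ≠ 0 := by
      intro h
      have : β p * z p = 1 := (sub_eq_zero.mp h).symm
      rw [this, norm_one] at hB
      exact lt_irrefl _ hB
    have e1 : Complex.exp (u p) = (1 - α p * z p)⁻¹ * (1 - β p * z p)⁻¹ := by
      simp only [hu]
      rw [sub_eq_add_neg, Complex.exp_add, Complex.exp_neg, Complex.exp_neg, Complex.exp_log hA0,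
        Complex.exp_log hB0]
    rw [e1, ← tsum_geometric_of_norm_lt_one hA, ← tsum_geometric_of_norm_lt_one hB,
      tsum_mul_tsum_eq_tsum_sum_range_of_summable_norm
        (by simpa only [norm_pow] using summable_geometric_of_lt_one (norm_nonneg _) hA)
        (by simpa only [norm_pow] using summable_geometric_of_lt_one (norm_nonneg _) hB)]
    refine tsum_congr fun e => ?_
    unfold M08_g
    rw [(hloc p p.2).2.2 e, Nat.cast_pow, map_pow, map_pow, Nat.cast_pow,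
      ← Real.rpow_natCast, ← Real.rpow_mul (Nat.cast_nonneg _), mul_comm ((e : ℕ) : ℝ),
      Real.rpow_mul (Nat.cast_nonneg _), Real.rpow_natCast, Complex.ofReal_pow, mul_assoc,
      ← mul_pow, Finset.sum_mul]
    refine Finset.sum_congr rfl fun j hj => ?_
    have hj' : j ≤ e := Nat.lt_succ_iff.mp (Finset.mem_range.mp hj)
    rw [mul_pow (α p), mul_pow (β p)]
    have e2 : z p ^ j * z p ^ (e - j) = z p ^ e := by
      rw [← pow_add]
      congr 1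
      omega
    have e3 : α p ^ j * z p ^ j * (β p ^ (e - j) * z p ^ (e - j)) =
        α p ^ j * β p ^ (e - j) * (z p ^ j * z p ^ (e - j)) := by ring
    rw [e3, e2]
  have hprod : HasProd (fun p : Nat.Primes => Complex.exp (u p)) (∑' n, M08_g a χ δ n) := by
    have h1 := EulerProduct.eulerProduct_hasProd (f := M08_g a χ δ) (M08_one D χ δ)
      (fun {m n} h => M08_mul D χ hδ h) (M08_summable D χ hδ hδ1) (M08_zero a χ hδ)
    refine h1.congr_fun ?_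
    intro p
    exact (hlocal p).symm
  have hprod2 : HasProd (fun p : Nat.Primes => Complex.exp (u p)) (Complex.exp (∑' p, u p)) :=
    hus.hasSum.cexp
  have hE : ∑' n, M08_g a χ δ n = Complex.exp (∑' p, u p) := hprod.unique hprod2
  refine ⟨by rw [hE]; exact Complex.exp_ne_zero _, ?_⟩
  have hre : ∑' p : Nat.Primes, (a (p : ℕ) * conj (χ ((p : ℕ) : ZMod q))).re *
      ((p : ℕ) : ℝ) ^ (-(1 + δ)) = (∑' p, v p).re := by
    rw [Complex.re_tsum hvs]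
    refine tsum_congr fun p => ?_
    simp only [hv, hz]
    rw [← mul_assoc, Complex.re_mul_ofReal]
  have hsplit : ∑' p, u p = ∑' p, v p + ∑' p, (u p - v p) := by
    rw [← hvs.tsum_add hrs]
    exact tsum_congr fun p => by ring
  rw [hre, hE, Complex.norm_exp, Real.log_exp, hsplit, Complex.add_re]
  have h6 : (∑' p, v p).re - ((∑' p, v p).re + (∑' p, (u p - v p)).re) =
      -(∑' p, (u p - v p)).re := by ring
  rw [h6, abs_neg]
  refine (Complex.abs_re_le_norm _).trans ?_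
  refine (norm_tsum_le_tsum_norm hr1).trans ?_
  exact hr1.tsum_le_tsum hur hs2

/-- the partial sums -/
noncomputable def M08_A {q : ℕ} (a : ℕ → ℂ) (χ : DirichletCharacter ℂ q) (t : ℝ) : ℂ :=
  ∑ k ∈ Finset.Icc 1 ⌊t⌋₊, a k * conj (χ (k : ZMod q))

/-- the continuation -/
noncomputable def M08_H {q : ℕ} (a : ℕ → ℂ) (χ : DirichletCharacter ℂ q) (s : ℂ) : ℂ :=
  s * mellin (M08_A a χ) (-s)

theorem M08_sum_bound {N : ℕ} {a : ℕ → ℂ} {L : ℂ → ℂ} (D : Dat N a L) {q : ℕ} [NeZero q]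
    (χ : DirichletCharacter ℂ q) : ∃ C : ℝ, 0 ≤ C ∧ ∀ n : ℕ,
      ‖∑ k ∈ Finset.Icc 1 n, a k * conj (χ (k : ZMod q))‖ ≤ C * (n : ℝ) ^ (3 / 4 : ℝ) := by
  obtain ⟨C, hC0, hC⟩ := twist_sum D (Nat.pos_of_ne_zero (NeZero.ne q))
    (fun n => conj (χ (n : ZMod q))) (fun n => by
      show conj (χ ((n + q : ℕ) : ZMod q)) = _
      rw [Nat.cast_add, ZMod.natCast_self, add_zero])
  refine ⟨C * 5, by positivity, fun n => ?_⟩
  rcases Nat.eq_zero_or_pos n with hn | hn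
  · subst hn
    simp
  refine (hC n hn).trans ?_
  have hn1 : (1 : ℝ) ≤ (n : ℝ) := by exact_mod_cast hn
  have hn0 : (0 : ℝ) < (n : ℝ) := by linarith
  rw [mul_assoc]
  refine mul_le_mul_of_nonneg_left ?_ hC0
  have h1 : Real.log n ≤ (n : ℝ) ^ (1 / 4 : ℝ) / (1 / 4) :=
    Real.log_le_rpow_div hn0.le (by norm_num)
  have h2 : (1 : ℝ) ≤ (n : ℝ) ^ (1 / 4 : ℝ) := Real.one_le_rpow hn1 (by norm_num)
  have h3 : (n : ℝ) ^ (3 / 4 : ℝ) = √n * (n : ℝ) ^ (1 / 4 : ℝ) := by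
    rw [Real.sqrt_eq_rpow, ← Real.rpow_add hn0]
    norm_num
  rw [h3]
  have h4 : 0 ≤ √(n : ℝ) := Real.sqrt_nonneg _
  have h5 : 1 + Real.log n ≤ 5 * (n : ℝ) ^ (1 / 4 : ℝ) := by linarith
  calc √(n : ℝ) * (1 + Real.log n) ≤ √(n : ℝ) * (5 * (n : ℝ) ^ (1 / 4 : ℝ)) :=
        mul_le_mul_of_nonneg_left h5 h4
    _ = 5 * (√(n : ℝ) * (n : ℝ) ^ (1 / 4 : ℝ)) := by ring

theorem M08_A_zero {q : ℕ} (a : ℕ → ℂ) (χ : DirichletCharacter ℂ q) {t : ℝ} (ht : t < 1) :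
    M08_A a χ t = 0 := by
  unfold M08_A
  rw [Nat.floor_eq_zero.mpr ht]
  simp

theorem M08_diff {N : ℕ} {a : ℕ → ℂ} {L : ℂ → ℂ} (D : Dat N a L) {q : ℕ} [NeZero q]
    (χ : DirichletCharacter ℂ q) {s : ℂ} (hs : 3 / 4 < s.re) :
    DifferentiableAt ℂ (M08_H a χ) s := by
  obtain ⟨C, hC0, hC⟩ := M08_sum_bound D χ
  have hint : LocallyIntegrableOn (M08_A a χ) (Ioi 0) := by
    have h1 := locallyIntegrableOn_mul_sum_Icc (𝕜 := ℂ) (fun k => a k * conj (χ (k : ZMod q)))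
      (m := 1) (a := 0) le_rfl (g := fun _ => 1) (locallyIntegrableOn_const 1)
    have h2 := h1.mono_set (Ioi_subset_Ici_self (a := (0 : ℝ)))
    have h3 : M08_A a χ = fun t : ℝ =>
        (1 : ℂ) * ∑ k ∈ Finset.Icc 1 ⌊t⌋₊, a k * conj (χ (k : ZMod q)) := by
      funext t
      simp [M08_A]
    rw [h3]
    exact h2
  have htop : (M08_A a χ) =O[atTop] (fun t : ℝ => t ^ (-(-(3 / 4) : ℝ))) := by
    refine Asymptotics.IsBigO.of_bound C ?_
    filter_upwards [eventually_ge_atTop 1] with t ht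
    refine (hC ⌊t⌋₊).trans ?_
    rw [neg_neg, Real.norm_of_nonneg (Real.rpow_nonneg (by linarith) _)]
    refine mul_le_mul_of_nonneg_left ?_ hC0
    exact Real.rpow_le_rpow (Nat.cast_nonneg _) (Nat.floor_le (by linarith)) (by norm_num)
  have hbot : (M08_A a χ) =O[𝓝[>] 0] (fun t : ℝ => t ^ (-(-s.re - 1 : ℝ))) := by
    refine Asymptotics.IsBigO.of_bound 1 ?_
    have h1 : ∀ᶠ t : ℝ in 𝓝[>] 0, t < 1 :=
      (eventually_lt_nhds (by norm_num : (0 : ℝ) < 1)).filter_mono nhdsWithin_le_nhds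
    filter_upwards [h1] with t ht
    rw [M08_A_zero a χ ht, norm_zero, one_mul]
    exact norm_nonneg _
  have h := mellin_differentiableAt_of_isBigO_rpow (s := -s) hint htop
    (by rw [Complex.neg_re]; linarith) hbot (by rw [Complex.neg_re]; linarith)
  have h2 : DifferentiableAt ℂ (mellin (M08_A a χ) ∘ fun s : ℂ => -s) s :=
    DifferentiableAt.comp s h differentiableAt_id.neg
  exact differentiableAt_id.mul h2

theorem M08_term {q : ℕ} (a : ℕ → ℂ) (χ : DirichletCharacter ℂ q) {δ : ℝ} (hδ : 0 < δ) (n : ℕ) :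
    LSeries.term (fun k => a k * conj (χ (k : ZMod q))) ((1 + δ : ℝ) : ℂ) n = M08_g a χ δ n := by
  rcases Nat.eq_zero_or_pos n with hn | hn
  · subst hn
    rw [LSeries.term_zero, M08_zero a χ hδ]
  rw [LSeries.term_of_ne_zero hn.ne']
  unfold M08_g
  rw [Real.rpow_neg (Nat.cast_nonneg _), Complex.ofReal_inv,
    Complex.ofReal_cpow (Nat.cast_nonneg _), Complex.ofReal_natCast, div_eq_mul_inv]

theorem M08_eq {N : ℕ} {a : ℕ → ℂ} {L : ℂ → ℂ} (D : Dat N a L) {q : ℕ} [NeZero q]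
    (χ : DirichletCharacter ℂ q) {δ : ℝ} (hδ : 0 < δ) (hδ1 : δ ≤ 1) :
    ∑' n, M08_g a χ δ n = M08_H a χ ((1 + δ : ℝ) : ℂ) := by
  obtain ⟨C, hC0, hC⟩ := M08_sum_bound D χ
  set f : ℕ → ℂ := fun k => a k * conj (χ (k : ZMod q)) with hf
  set s : ℂ := ((1 + δ : ℝ) : ℂ) with hs
  have hsre : s.re = 1 + δ := by rw [hs, Complex.ofReal_re]
  have hS : LSeriesSummable f s := by
    have h1 : Summable (M08_g a χ δ) := Summable.of_norm (M08_summable D χ hδ hδ1)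
    exact h1.congr fun n => (M08_term a χ hδ n).symm
  have hO : (fun n : ℕ => ∑ k ∈ Finset.Icc 1 n, f k) =O[atTop] fun n : ℕ => (n : ℝ) ^ (3 / 4 : ℝ) := by
    refine Asymptotics.IsBigO.of_bound C (Eventually.of_forall fun n => ?_)
    refine (hC n).trans ?_
    rw [Real.norm_of_nonneg (Real.rpow_nonneg (Nat.cast_nonneg _) _)]
  have h1 := LSeries_eq_mul_integral f (r := 3 / 4) (by norm_num) (s := s)
    (by rw [hsre]; linarith) hS hO
  have h2 : ∑' n, M08_g a χ δ n = LSeries f s := by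
    unfold LSeries
    exact tsum_congr fun n => (M08_term a χ hδ n).symm
  rw [h2, h1]
  unfold M08_H mellin
  congr 1
  have h3 : ∫ t : ℝ in Ioi 0, (t : ℂ) ^ (-s - 1) • M08_A a χ t =
      ∫ t : ℝ in Ici 1, (t : ℂ) ^ (-s - 1) • M08_A a χ t := by
    refine (setIntegral_eq_of_subset_of_forall_sdiff_eq_zero measurableSet_Ioi ?_ ?_)
    · intro t ht
      have h1 : (1 : ℝ) ≤ t := ht
      exact lt_of_lt_of_le zero_lt_one h1
    · intro t ht
      have h4 : t < 1 := by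
        by_contra h5
        exact ht.2 (not_lt.mp h5)
      rw [M08_A_zero a χ h4, smul_zero]
  rw [h3, integral_Ici_eq_integral_Ioi]
  refine setIntegral_congr_fun measurableSet_Ioi fun t _ => ?_
  show (∑ k ∈ Finset.Icc 1 ⌊t⌋₊, f k) * (t : ℂ) ^ (-(s + 1)) = (t : ℂ) ^ (-s - 1) • M08_A a χ t
  rw [smul_eq_mul, mul_comm, show -(s + 1) = -s - 1 by ring]
  rfl

/-- the primes with a(p) = 0 -/
theorem M08_far {a : ℕ → ℂ} {q : ℕ} [NeZero q]
    (χ : DirichletCharacter ℂ q) {p : ℕ} (h : a p = 0) (hq : Nat.Coprime p q) :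
    1 ≤ ‖a p + χ (p : ZMod q)‖ ^ 2 := by
  have h1 : ‖χ (p : ZMod q)‖ = 1 := by
    have h2 := DirichletCharacter.unit_norm_eq_one χ (ZMod.unitOfCoprime p hq)
    rwa [ZMod.coe_unitOfCoprime] at h2
  rw [h, zero_add, h1, one_pow]

theorem M08_K_summable {N : ℕ} {a : ℕ → ℂ} {L : ℂ → ℂ} (D : Dat N a L) {q : ℕ} [NeZero q]
    (χ : DirichletCharacter ℂ q) {δ : ℝ} (hδ : 0 < δ) :
    Summable (fun p : Nat.Primes => (a (p : ℕ) * conj (χ ((p : ℕ) : ZMod q))).re *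
        ((p : ℕ) : ℝ) ^ (-(1 + δ))) := by
  obtain ⟨α, β, hloc⟩ := D.loc_ex
  have hs1 : Summable (fun p : Nat.Primes => ((p : ℕ) : ℝ) ^ (-(1 + δ))) :=
    Nat.Primes.summable_rpow.mpr (by linarith)
  refine Summable.of_norm_bounded (hs1.mul_left 2) fun p => ?_
  have hpos : (0 : ℝ) ≤ ((p : ℕ) : ℝ) ^ (-(1 + δ)) := Real.rpow_nonneg (Nat.cast_nonneg _) _
  rw [norm_mul, Real.norm_of_nonneg hpos]
  refine mul_le_mul_of_nonneg_right ?_ hpos
  rw [Real.norm_eq_abs]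
  refine (Complex.abs_re_le_norm _).trans ?_
  rw [norm_mul, RCLike.norm_conj]
  have hap : a (p : ℕ) = α p + β p := by
    have h1 := (hloc p p.2).2.2 1
    rw [pow_one] at h1
    rw [h1]
    simp [Finset.sum_range_succ, add_comm]
  have h1 := (hloc p p.2).1
  have h2 := (hloc p p.2).2.1
  have h3 : ‖a (p : ℕ)‖ ≤ 2 := by
    rw [hap]
    refine (norm_add_le _ _).trans ?_
    linarith
  calc ‖a (p : ℕ)‖ * ‖χ ((p : ℕ) : ZMod q)‖ ≤ ‖a (p : ℕ)‖ * 1 :=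
        mul_le_mul_of_nonneg_left (χ.norm_le_one _) (norm_nonneg _)
    _ ≤ 2 := by rw [mul_one]; exact h3

/-- the value at s = 1 -/
theorem M08_ne {N : ℕ} {a : ℕ → ℂ} {L : ℂ → ℂ} (D : Dat N a L) {q : ℕ} [NeZero q]
    (χ : DirichletCharacter ℂ q) : M08_H a χ 1 ≠ 0 := by
  intro h0
  obtain ⟨C1, hC1⟩ := Sp_le D
  obtain ⟨C2, hC2⟩ := GG.prime_sum_triv 1
  have hdiff := (M08_diff D χ (s := 1) (by rw [Complex.one_re]; norm_num)).isBigO_sub
  rw [h0] at hdiff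
  obtain ⟨C, hCpos, hC⟩ := hdiff.exists_pos
  rw [Asymptotics.IsBigOWith] at hC
  have htend : Tendsto (fun δ : ℝ => ((1 + δ : ℝ) : ℂ)) (𝓝[>] 0) (𝓝 1) := by
    have h1 : Tendsto (fun δ : ℝ => ((1 + δ : ℝ) : ℂ)) (𝓝 0) (𝓝 ((1 + 0 : ℝ) : ℂ)) := by
      apply Continuous.tendsto
      fun_prop
    rw [add_zero, Complex.ofReal_one] at h1
    exact h1.mono_left nhdsWithin_le_nhds
  have hev := htend.eventually hC
  obtain ⟨CE, hCE⟩ : ∃ CE : ℝ, CE = ∑' p : Nat.Primes, 2 * ((p : ℕ) : ℝ) ^ (-2 : ℝ) := ⟨_, rfl⟩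
  obtain ⟨B, hB⟩ : ∃ B : ℝ, B = C1 + 2 * (Real.log C + CE) + C2 := ⟨_, rfl⟩
  have hpos : ∀ (δ : ℝ) (p : ℕ), (0 : ℝ) ≤ ((p : ℕ) : ℝ) ^ (-(1 + δ)) := fun δ p =>
    Real.rpow_nonneg (Nat.cast_nonneg _) _
  have hle1 : ∀ᶠ δ : ℝ in 𝓝[>] 0, δ < 1 :=
    (eventually_lt_nhds (by norm_num : (0 : ℝ) < 1)).filter_mono nhdsWithin_le_nhds
  have hmain : ∀ᶠ δ : ℝ in 𝓝[>] 0, Summable (fun p : Nat.Primes =>
      ‖a (p : ℕ) + χ ((p : ℕ) : ZMod q)‖ ^ 2 * ((p : ℕ) : ℝ) ^ (-(1 + δ))) ∧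
      ∑' p : Nat.Primes, ‖a (p : ℕ) + χ ((p : ℕ) : ZMod q)‖ ^ 2 *
        ((p : ℕ) : ℝ) ^ (-(1 + δ)) ≤ B := by
    filter_upwards [hev, hle1, self_mem_nhdsWithin] with δ h1 hδ1' hδ'
    have hδ : 0 < δ := hδ'
    have hδ1 : δ ≤ 1 := hδ1'.le
    have hE := M08_euler D χ hδ hδ1
    rw [← hCE, M08_eq D χ hδ hδ1] at hE
    have hH : ‖M08_H a χ ((1 + δ : ℝ) : ℂ)‖ ≤ C * δ := by
      have h2 : ((1 + δ : ℝ) : ℂ) - 1 = ((δ : ℝ) : ℂ) := by push_cast; ring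
      rw [sub_zero, h2, Complex.norm_real, Real.norm_of_nonneg hδ.le] at h1
      exact h1
    have hlog : Real.log ‖M08_H a χ ((1 + δ : ℝ) : ℂ)‖ ≤ Real.log C + Real.log δ := by
      rw [← Real.log_mul hCpos.ne' hδ.ne']
      exact Real.log_le_log (norm_pos_iff.mpr hE.1) hH
    have hK := (abs_le.mp hE.2).2
    have hSp := hC1 δ hδ hδ1
    have hT := (abs_le.mp (hC2 δ hδ hδ1)).2
    have hl : Real.log (1 / δ) = -Real.log δ := by rw [one_div, Real.log_inv]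
    rw [hl] at hSp hT
    have s1 := Sp_summable D hδ
    have s2 := M08_K_summable D χ hδ
    have s0 : Summable (fun p : Nat.Primes => ((p : ℕ) : ℝ) ^ (-(1 + δ))) :=
      Nat.Primes.summable_rpow.mpr (by linarith)
    have s3 : Summable (fun p : Nat.Primes => ‖χ ((p : ℕ) : ZMod q)‖ ^ 2 *
        ((p : ℕ) : ℝ) ^ (-(1 + δ))) := by
      refine Summable.of_nonneg_of_le (fun p => mul_nonneg (sq_nonneg _) (hpos δ p)) (fun p => ?_) s0
      refine mul_le_of_le_one_left (hpos δ p) ?_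
      exact pow_le_one₀ (norm_nonneg _) (χ.norm_le_one _)
    have e0 : ∀ p : Nat.Primes, ‖a (p : ℕ) + χ ((p : ℕ) : ZMod q)‖ ^ 2 *
        ((p : ℕ) : ℝ) ^ (-(1 + δ)) = ‖a (p : ℕ)‖ ^ 2 * ((p : ℕ) : ℝ) ^ (-(1 + δ)) +
        2 * ((a (p : ℕ) * conj (χ ((p : ℕ) : ZMod q))).re * ((p : ℕ) : ℝ) ^ (-(1 + δ))) +
        ‖χ ((p : ℕ) : ZMod q)‖ ^ 2 * ((p : ℕ) : ℝ) ^ (-(1 + δ)) := by
      intro p
      rw [Complex.sq_norm, Complex.normSq_add, Complex.sq_norm, Complex.sq_norm]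
      ring
    have s4 := (s1.add (s2.mul_left 2)).add s3
    have s5 := s4.congr fun p => (e0 p).symm
    refine ⟨s5, ?_⟩
    have e1 : ∑' p : Nat.Primes, ‖a (p : ℕ) + χ ((p : ℕ) : ZMod q)‖ ^ 2 *
        ((p : ℕ) : ℝ) ^ (-(1 + δ)) = Sp a δ +
        2 * (∑' p : Nat.Primes, (a (p : ℕ) * conj (χ ((p : ℕ) : ZMod q))).re *
          ((p : ℕ) : ℝ) ^ (-(1 + δ))) +
        ∑' p : Nat.Primes, ‖χ ((p : ℕ) : ZMod q)‖ ^ 2 * ((p : ℕ) : ℝ) ^ (-(1 + δ)) := by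
      unfold Sp
      rw [tsum_congr e0, (s1.add (s2.mul_left 2)).tsum_add s3, s1.tsum_add (s2.mul_left 2),
        tsum_mul_left]
    have e2 : ∑' p : Nat.Primes, ‖χ ((p : ℕ) : ZMod q)‖ ^ 2 * ((p : ℕ) : ℝ) ^ (-(1 + δ)) ≤
        ∑' p : Nat.Primes, ((1 : DirichletCharacter ℂ 1) ((p : ℕ) : ZMod 1)).re *
        ((p : ℕ) : ℝ) ^ (-(1 + δ)) := by
      have e3 : ∀ p : Nat.Primes, ((1 : DirichletCharacter ℂ 1) ((p : ℕ) : ZMod 1)).re = 1 := by
        intro p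
        rw [MulChar.one_apply (isUnit_of_subsingleton _), Complex.one_re]
      simp only [e3, one_mul]
      refine s3.tsum_le_tsum (fun p => ?_) s0
      refine mul_le_of_le_one_left (hpos δ p) ?_
      exact pow_le_one₀ (norm_nonneg _) (χ.norm_le_one _)
    rw [e1, hB]
    linarith
  obtain ⟨Q, r, hQ, hr, hze⟩ := ze_ex D (Nat.pos_of_ne_zero (NeZero.ne q))
  refine div_res (Q := Q) (r := r) hQ hr ?_
  refine summable_of_sum_le (c := B) (fun n => by split_ifs <;> positivity) fun u => ?_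
  have hfin : ∀ᶠ δ : ℝ in 𝓝[>] 0, ∑ n ∈ u, (if n.Prime ∧ n ≡ r [MOD Q] then
      (n : ℝ) ^ (-(1 + δ)) else 0) ≤ B := by
    filter_upwards [hmain] with δ hδ
    refine le_trans ?_ hδ.2
    have e1 : ∑ n ∈ u, (if n.Prime ∧ n ≡ r [MOD Q] then (n : ℝ) ^ (-(1 + δ)) else 0) =
        ∑ p ∈ u.subtype Nat.Prime, (if (p : ℕ) ≡ r [MOD Q] then ((p : ℕ) : ℝ) ^ (-(1 + δ)) else 0) := by
      rw [Finset.sum_subtype_eq_sum_filter (s := u) (p := Nat.Prime)
        (f := fun n : ℕ => if n ≡ r [MOD Q] then (n : ℝ) ^ (-(1 + δ)) else 0), Finset.sum_filter]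
      refine Finset.sum_congr rfl fun n _ => ?_
      by_cases hn : n.Prime
      · simp [hn]
      · simp [hn]
    rw [e1]
    refine le_trans (Finset.sum_le_sum (g := fun p : {x // Nat.Prime x} =>
      ‖a (p : ℕ) + χ ((p : ℕ) : ZMod q)‖ ^ 2 * ((p : ℕ) : ℝ) ^ (-(1 + δ))) fun p _ => ?_) ?_
    · split_ifs with h
      · exact le_mul_of_one_le_left (hpos δ p) (M08_far χ (hze p p.2 h).1 (hze p p.2 h).2)
      · exact mul_nonneg (sq_nonneg _) (hpos δ p)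
    · have key : ∀ v : Finset Nat.Primes, ∑ p ∈ v, ‖a (p : ℕ) + χ ((p : ℕ) : ZMod q)‖ ^ 2 *
          ((p : ℕ) : ℝ) ^ (-(1 + δ)) ≤ ∑' p : Nat.Primes, ‖a (p : ℕ) + χ ((p : ℕ) : ZMod q)‖ ^ 2 *
          ((p : ℕ) : ℝ) ^ (-(1 + δ)) := fun v =>
        hδ.1.sum_le_tsum v fun p _ => mul_nonneg (sq_nonneg _) (hpos δ p)
      exact key (u.subtype Nat.Prime)
  have hlim : Tendsto (fun δ : ℝ => ∑ n ∈ u, (if n.Prime ∧ n ≡ r [MOD Q] then
      (n : ℝ) ^ (-(1 + δ)) else 0)) (𝓝[>] 0)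
      (𝓝 (∑ n ∈ u, (if n.Prime ∧ n ≡ r [MOD Q] then ((n : ℝ))⁻¹ else 0))) := by
    refine tendsto_finsetSum _ fun n _ => ?_
    split_ifs with h
    · have h1 : Tendsto (fun δ : ℝ => (n : ℝ) ^ (-(1 + δ))) (𝓝 0) (𝓝 ((n : ℝ) ^ (-(1 + 0 : ℝ)))) := by
        apply Continuous.tendsto
        have hn : (n : ℝ) ≠ 0 := by exact_mod_cast h.1.ne_zero
        exact Continuous.rpow continuous_const (by fun_prop) fun _ => Or.inl hn
      rw [add_zero, Real.rpow_neg_one] at h1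
      exact h1.mono_left nhdsWithin_le_nhds
    · exact tendsto_const_nhds
  exact le_of_tendsto hlim hfin

/-- Row M08. Sum over the primes of a(p) conj χ(p). -/
theorem twist_prime {N : ℕ} {a : ℕ → ℂ} {L : ℂ → ℂ} (D : Dat N a L) {q : ℕ} [NeZero q]
    (χ : DirichletCharacter ℂ q) : ∃ C : ℝ, ∀ δ : ℝ, 0 < δ → δ ≤ 1 →
      Summable (fun p : Nat.Primes => (a (p : ℕ) * conj (χ ((p : ℕ) : ZMod q))).re *
        ((p : ℕ) : ℝ) ^ (-(1 + δ))) ∧
      |∑' p : Nat.Primes, (a (p : ℕ) * conj (χ ((p : ℕ) : ZMod q))).re * ((p : ℕ) : ℝ) ^ (-(1 + δ))| ≤ C := by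
  have hne : ∀ δ : ℝ, δ ∈ Set.Icc (0 : ℝ) 1 → M08_H a χ ((1 + δ : ℝ) : ℂ) ≠ 0 := by
    intro δ hδ
    rcases eq_or_lt_of_le hδ.1 with h | h
    · rw [← h, add_zero, Complex.ofReal_one]
      exact M08_ne D χ
    · rw [← M08_eq D χ h hδ.2]
      exact (M08_euler D χ h hδ.2).1
  have hcont : ContinuousOn (fun δ : ℝ => Real.log ‖M08_H a χ ((1 + δ : ℝ) : ℂ)‖) (Set.Icc 0 1) := by
    refine ContinuousOn.log ?_ fun δ hδ => norm_ne_zero_iff.mpr (hne δ hδ)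
    refine ContinuousOn.norm fun δ hδ => ContinuousAt.continuousWithinAt ?_
    have h1 : ContinuousAt (M08_H a χ) ((1 + δ : ℝ) : ℂ) :=
      (M08_diff D χ (by rw [Complex.ofReal_re]; linarith [hδ.1])).continuousAt
    have h2 : ContinuousAt (fun δ : ℝ => ((1 + δ : ℝ) : ℂ)) δ := by
      apply Continuous.continuousAt
      fun_prop
    exact ContinuousAt.comp (f := fun δ : ℝ => ((1 + δ : ℝ) : ℂ)) h1 h2
  obtain ⟨K, hK⟩ := isCompact_Icc.exists_bound_of_continuousOn hcont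
  refine ⟨(∑' p : Nat.Primes, 2 * ((p : ℕ) : ℝ) ^ (-2 : ℝ)) + K, fun δ hδ hδ1 =>
    ⟨M08_K_summable D χ hδ, ?_⟩⟩
  have h1 := (M08_euler D χ hδ hδ1).2
  rw [M08_eq D χ hδ hδ1] at h1
  have h2 := hK δ ⟨hδ.le, hδ1⟩
  rw [Real.norm_eq_abs] at h2
  have h3 := abs_le.mp h1
  have h4 := abs_le.mp h2
  rw [abs_le]
  constructor <;> linarith [h3.1, h3.2, h4.1, h4.2]

end NR
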