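import Pool.Agent.Lib.MP_0f5a55_nt.NR.D
import Pool.Agent.Lib.MP_0f5a55_nt.NH.M02
import Pool.Agent.Lib.MP_0f5a55_nt.NR.M04
import Pool.Agent.Lib.MP_0f5a55_nt.NR.M08
import Pool.Agent.Lib.MP_0f5a55_nt.NR.E2
import Pool.Agent.Lib.MP_0f5a55_nt.GG.G10

open Complex MeasureTheory Set Filter Topology
open scoped Real ComplexConjugate

namespace NR

open NH

/-- the square of the coefficient at a prime -/
theorem M09_sq {a : ℕ → ℂ} {α β : ℕ → ℂ} (h : Loc a α β) {k : ℕ} (x : Fin k → GG.Ch) {p : ℕ}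
    (hp : p.Prime) : ‖(GG.bb x * bf α β) p‖ ^ 2 =
      1 / 4 * (∑ i, ∑ j, ((x i).2 ((p : ℕ) : ZMod ((x i).1 + 1)) *
          conj ((x j).2 ((p : ℕ) : ZMod ((x j).1 + 1)))).re +
        2 * ∑ j, (a p * conj ((x j).2 ((p : ℕ) : ZMod ((x j).1 + 1)))).re + ‖a p‖ ^ 2) := by
  obtain ⟨X, hX⟩ : ∃ X : ℂ, X = ∑ j, (x j).2 ((p : ℕ) : ZMod ((x j).1 + 1)) := ⟨_, rfl⟩
  have e0 : (GG.bb x * bf α β) p = 1 / 2 * (X + a p) := by rw [bx_prime h x hp, hX]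
  have e1 : (‖X‖ ^ 2 : ℝ) = ∑ i, ∑ j, ((x i).2 ((p : ℕ) : ZMod ((x i).1 + 1)) *
          conj ((x j).2 ((p : ℕ) : ZMod ((x j).1 + 1)))).re := by
    have h1 : ((‖X‖ ^ 2 : ℝ) : ℂ) = X * conj X := by
      rw [Complex.mul_conj, Complex.normSq_eq_norm_sq]
    have h2 : X * conj X = ∑ i, ∑ j, ((x i).2 ((p : ℕ) : ZMod ((x i).1 + 1)) *
          conj ((x j).2 ((p : ℕ) : ZMod ((x j).1 + 1)))) := by
      rw [hX, map_sum, ← Finset.sum_mul_sum]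
    have h3 := congrArg Complex.re (h1.trans h2)
    rw [Complex.ofReal_re] at h3
    rw [h3, Complex.re_sum]
    simp only [Complex.re_sum]
  have e2 : (a p * conj X).re = ∑ j, (a p * conj ((x j).2 ((p : ℕ) : ZMod ((x j).1 + 1)))).re := by
    rw [hX, map_sum, Finset.mul_sum, Complex.re_sum]
  have e3 : ‖X + a p‖ ^ 2 = ‖X‖ ^ 2 + 2 * (a p * conj X).re + ‖a p‖ ^ 2 := by
    rw [← Complex.normSq_eq_norm_sq, ← Complex.normSq_eq_norm_sq, ← Complex.normSq_eq_norm_sq]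
    simp only [Complex.normSq_apply, Complex.add_re, Complex.add_im, Complex.mul_re, Complex.conj_re,
      Complex.conj_im]
    ring
  rw [e0, norm_mul, mul_pow, e3, e1, e2]
  have h4 : ‖(1 / 2 : ℂ)‖ ^ 2 = 1 / 4 := by
    rw [norm_div, norm_one]
    norm_num
  rw [h4]

theorem M09_pair_summable {k : ℕ} (x : Fin k → GG.Ch) {δ : ℝ} (hδ : 0 < δ) (i j : Fin k) :
    Summable (fun p : Nat.Primes => ((x i).2 ((p : ℕ) : ZMod ((x i).1 + 1)) *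
          conj ((x j).2 ((p : ℕ) : ZMod ((x j).1 + 1)))).re * ((p : ℕ) : ℝ) ^ (-(1 + δ))) := by
  have hs1 : Summable (fun p : Nat.Primes => ((p : ℕ) : ℝ) ^ (-(1 + δ))) :=
    Nat.Primes.summable_rpow.mpr (by linarith)
  refine Summable.of_norm_bounded hs1 fun p => ?_
  rw [norm_mul, Real.norm_of_nonneg (Real.rpow_nonneg (Nat.cast_nonneg _) _)]
  refine mul_le_of_le_one_left (Real.rpow_nonneg (Nat.cast_nonneg _) _) ?_
  rw [Real.norm_eq_abs]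
  refine (Complex.abs_re_le_norm _).trans ?_
  rw [norm_mul, RCLike.norm_conj]
  exact mul_le_one₀ ((x i).2.norm_le_one _) (norm_nonneg _) ((x j).2.norm_le_one _)

theorem M09_prime {N : ℕ} {a : ℕ → ℂ} {L : ℂ → ℂ} (D : Dat N a L) {α β : ℕ → ℂ} (h : Loc a α β) {k : ℕ}
    (x : Fin k → GG.Ch) (hx : ∀ i j, i ≠ j → OO.Ne12 (x i).2 (x j).2) :
    ∃ C : ℝ, ∀ δ : ℝ, 0 < δ → δ ≤ 1 →
      |∑' p : Nat.Primes, ‖(GG.bb x * bf α β) (p : ℕ)‖ ^ 2 * ((p : ℕ) : ℝ) ^ (-(1 + δ)) -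
        ((k : ℝ) / 4 * Real.log (1 / δ) + Sp a δ / 4)| ≤ C := by
  choose C hC using GG.G08_pair x hx
  have hT := fun j => twist_prime D (x j).2
  choose B hB using hT
  refine ⟨1 / 4 * (∑ i, ∑ j, C i j + 2 * ∑ j, B j), fun δ hδ hδ1 => ?_⟩
  obtain ⟨u, hu⟩ : ∃ u : Fin k → Fin k → Nat.Primes → ℝ, u = fun i j (p : Nat.Primes) =>
      ((x i).2 ((p : ℕ) : ZMod ((x i).1 + 1)) * conj ((x j).2 ((p : ℕ) : ZMod ((x j).1 + 1)))).re *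
        ((p : ℕ) : ℝ) ^ (-(1 + δ)) := ⟨_, rfl⟩
  obtain ⟨v, hv⟩ : ∃ v : Fin k → Nat.Primes → ℝ, v = fun j (p : Nat.Primes) =>
      (a (p : ℕ) * conj ((x j).2 ((p : ℕ) : ZMod ((x j).1 + 1)))).re *
        ((p : ℕ) : ℝ) ^ (-(1 + δ)) := ⟨_, rfl⟩
  obtain ⟨w, hw⟩ : ∃ w : Nat.Primes → ℝ, w = fun (p : Nat.Primes) =>
      ‖a (p : ℕ)‖ ^ 2 * ((p : ℕ) : ℝ) ^ (-(1 + δ)) := ⟨_, rfl⟩
  have su : ∀ i j, Summable (u i j) := by
    intro i j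
    rw [hu]
    exact M09_pair_summable x hδ i j
  have sv : ∀ j, Summable (v j) := by
    intro j
    rw [hv]
    exact (hB j δ hδ hδ1).1
  have sw : Summable w := by
    rw [hw]
    exact Sp_summable D hδ
  have hCu : ∀ i j, |∑' p, u i j p - (if i = j then Real.log (1 / δ) else 0)| ≤ C i j := by
    intro i j
    rw [hu]
    exact hC i j δ hδ hδ1
  have hBv : ∀ j, |∑' p, v j p| ≤ B j := by
    intro j
    rw [hv]
    exact (hB j δ hδ hδ1).2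
  have hSw : Sp a δ = ∑' p, w p := by
    rw [hw]
    rfl
  have h1 : ∀ p : Nat.Primes, ‖(GG.bb x * bf α β) (p : ℕ)‖ ^ 2 * ((p : ℕ) : ℝ) ^ (-(1 + δ)) =
      1 / 4 * ((∑ i, ∑ j, u i j p + 2 * ∑ j, v j p) + w p) := by
    intro p
    rw [M09_sq h x p.2, hu, hv, hw]
    simp only
    rw [mul_assoc, add_mul, add_mul, Finset.sum_mul, mul_assoc 2, Finset.sum_mul]
    simp only [Finset.sum_mul]
  have suu : Summable (fun p => ∑ i, ∑ j, u i j p) :=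
    summable_sum fun i _ => summable_sum fun j _ => su i j
  have svv : Summable (fun p => ∑ j, v j p) := summable_sum fun j _ => sv j
  have e : (∑' p : Nat.Primes, ‖(GG.bb x * bf α β) (p : ℕ)‖ ^ 2 * ((p : ℕ) : ℝ) ^ (-(1 + δ))) =
      1 / 4 * ((∑ i, ∑ j, ∑' p, u i j p + 2 * ∑ j, ∑' p, v j p) + ∑' p, w p) := by
    simp only [h1]
    rw [tsum_mul_left]
    congr 1
    rw [(suu.add (svv.mul_left 2)).tsum_add sw, suu.tsum_add (svv.mul_left 2), tsum_mul_left,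
      Summable.tsum_finsetSum (fun i _ => summable_sum fun j _ => su i j),
      Summable.tsum_finsetSum (fun j _ => sv j)]
    congr 2
    refine Finset.sum_congr rfl fun i _ => ?_
    rw [Summable.tsum_finsetSum (fun j _ => su i j)]
  have e2 : (k : ℝ) / 4 * Real.log (1 / δ) =
      1 / 4 * ∑ i : Fin k, ∑ j : Fin k, (if i = j then Real.log (1 / δ) else 0) := by
    simp only [Finset.sum_ite_eq, Finset.mem_univ, if_true, Finset.sum_const, Finset.card_univ,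
      Fintype.card_fin, nsmul_eq_mul]
    ring
  rw [e, e2, hSw]
  have e3 : 1 / 4 * ((∑ i, ∑ j, ∑' p, u i j p + 2 * ∑ j, ∑' p, v j p) + ∑' p, w p) -
      (1 / 4 * ∑ i : Fin k, ∑ j : Fin k, (if i = j then Real.log (1 / δ) else 0) + (∑' p, w p) / 4) =
      1 / 4 * ((∑ i, ∑ j, ∑' p, u i j p - ∑ i : Fin k, ∑ j : Fin k, (if i = j then Real.log (1 / δ) else 0)) +
        2 * ∑ j, ∑' p, v j p) := by ring
  rw [e3, abs_mul, abs_of_pos (by norm_num : (0 : ℝ) < 1 / 4)]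
  refine mul_le_mul_of_nonneg_left ?_ (by norm_num)
  refine (abs_add_le _ _).trans (add_le_add ?_ ?_)
  · rw [← Finset.sum_sub_distrib]
    refine (Finset.abs_sum_le_sum_abs _ _).trans (Finset.sum_le_sum fun i _ => ?_)
    rw [← Finset.sum_sub_distrib]
    exact (Finset.abs_sum_le_sum_abs _ _).trans (Finset.sum_le_sum fun j _ => hCu i j)
  · rw [abs_mul, abs_of_pos (by norm_num : (0 : ℝ) < 2)]
    refine mul_le_mul_of_nonneg_left ?_ (by norm_num)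
    exact (Finset.abs_sum_le_sum_abs _ _).trans (Finset.sum_le_sum fun j _ => hBv j)

/-- two-sided bounds -/
theorem M09_E {N : ℕ} {a : ℕ → ℂ} {L : ℂ → ℂ} (D : Dat N a L) {α β : ℕ → ℂ} (h : Loc a α β) {k : ℕ}
    (x : Fin k → GG.Ch) (hx : ∀ i j, i ≠ j → OO.Ne12 (x i).2 (x j).2) :
    ∃ c1 C1 : ℝ, 0 < c1 ∧ 0 < C1 ∧ ∀ δ : ℝ, 0 < δ → δ ≤ 1 →
      c1 * Real.exp ((k : ℝ) / 4 * Real.log (1 / δ) + Sp a δ / 4) ≤
        ∑' n : ℕ, ‖(GG.bb x * bf α β) n‖ ^ 2 * (n : ℝ) ^ (-(1 + δ)) ∧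
      ∑' n : ℕ, ‖(GG.bb x * bf α β) n‖ ^ 2 * (n : ℝ) ^ (-(1 + δ)) ≤
        C1 * Real.exp ((k : ℝ) / 4 * Real.log (1 / δ) + Sp a δ / 4) := by
  obtain ⟨C, hC⟩ := M09_prime D h x hx
  obtain ⟨c1, C1, hc1, hE⟩ := E_bounds_f D h x
  refine ⟨c1 * Real.exp (-C), max C1 1 * Real.exp C, by positivity, by positivity, fun δ hδ hδ1 => ?_⟩
  obtain ⟨hs, hlo, hhi⟩ := hE δ hδ hδ1
  have hP := abs_le.mp (hC δ hδ hδ1)
  constructor
  · refine le_trans ?_ hlo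
    rw [mul_assoc, ← Real.exp_add]
    refine mul_le_mul_of_nonneg_left (Real.exp_le_exp.mpr ?_) hc1.le
    linarith [hP.1]
  · refine hhi.trans ?_
    rw [mul_assoc, ← Real.exp_add]
    refine mul_le_mul (le_max_left _ _) (Real.exp_le_exp.mpr ?_) (Real.exp_pos _).le
      (zero_le_one.trans (le_max_right _ _))
    linarith [hP.2]

theorem M09_double {N : ℕ} {a : ℕ → ℂ} {L : ℂ → ℂ} (D : Dat N a L) {α β : ℕ → ℂ} (h : Loc a α β) {k : ℕ}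
    (x : Fin k → GG.Ch) (hx : ∀ i j, i ≠ j → OO.Ne12 (x i).2 (x j).2) :
    ∃ K : ℝ, ∀ δ : ℝ, 0 < δ → δ ≤ 1 →
      ∑' n : ℕ, ‖(GG.bb x * bf α β) n‖ ^ 2 * (n : ℝ) ^ (-(1 + δ / 2)) ≤
        K * ∑' n : ℕ, ‖(GG.bb x * bf α β) n‖ ^ 2 * (n : ℝ) ^ (-(1 + δ)) := by
  obtain ⟨c1, C1, hc1, hC1, hE⟩ := M09_E D h x hx
  obtain ⟨B, hB⟩ := Sp_slow D
  obtain ⟨M, hM⟩ : ∃ M : ℝ, M = (k : ℝ) / 4 * Real.log 2 + (4 * Real.log 2 + B) / 4 := ⟨_, rfl⟩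
  refine ⟨C1 * Real.exp M / c1, fun δ hδ hδ1 => ?_⟩
  have h1 := (hE (δ / 2) (by linarith) (by linarith)).2
  have h2 := (hE δ hδ hδ1).1
  have h3 := hB δ (δ / 2) (by linarith) (by linarith) hδ1
  have e1 : δ / (δ / 2) = 2 := by field_simp
  rw [e1] at h3
  have e2 : Real.log (1 / (δ / 2)) = Real.log 2 + Real.log (1 / δ) := by
    rw [← Real.log_mul (by norm_num) (by positivity)]
    congr 1
    field_simp
  have h4 : Real.exp ((k : ℝ) / 4 * Real.log (1 / (δ / 2)) + Sp a (δ / 2) / 4) ≤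
      Real.exp M * Real.exp ((k : ℝ) / 4 * Real.log (1 / δ) + Sp a δ / 4) := by
    rw [← Real.exp_add, e2]
    refine Real.exp_le_exp.mpr ?_
    rw [hM, mul_add]
    linarith
  calc ∑' n : ℕ, ‖(GG.bb x * bf α β) n‖ ^ 2 * (n : ℝ) ^ (-(1 + δ / 2))
      ≤ C1 * Real.exp ((k : ℝ) / 4 * Real.log (1 / (δ / 2)) + Sp a (δ / 2) / 4) := h1
    _ ≤ C1 * (Real.exp M * Real.exp ((k : ℝ) / 4 * Real.log (1 / δ) + Sp a δ / 4)) :=
        mul_le_mul_of_nonneg_left h4 hC1.le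
    _ = C1 * Real.exp M / c1 * (c1 * Real.exp ((k : ℝ) / 4 * Real.log (1 / δ) + Sp a δ / 4)) := by
        field_simp
    _ ≤ _ := mul_le_mul_of_nonneg_left h2 (by positivity)

theorem M09_lim {N : ℕ} {a : ℕ → ℂ} {L : ℂ → ℂ} (D : Dat N a L) {α β : ℕ → ℂ} (h : Loc a α β) {k : ℕ}
    (hk : 0 < k) (x : Fin k → GG.Ch) (hx : ∀ i j, i ≠ j → OO.Ne12 (x i).2 (x j).2) :
    Tendsto (fun δ : ℝ => ∑' n : ℕ, ‖(GG.bb x * bf α β) n‖ ^ 2 * (n : ℝ) ^ (-(1 + δ))) (𝓝[>] 0) atTop := by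
  obtain ⟨c1, C1, hc1, hC1, hE⟩ := M09_E D h x hx
  have hk0 : (0 : ℝ) < (k : ℝ) / 4 := by positivity
  have h1 : Tendsto (fun δ : ℝ => (k : ℝ) / 4 * Real.log (1 / δ)) (𝓝[>] 0) atTop := by
    refine Tendsto.const_mul_atTop hk0 ?_
    simp only [one_div]
    exact Real.tendsto_log_atTop.comp tendsto_inv_nhdsGT_zero
  have h2 : Tendsto (fun δ : ℝ => c1 * Real.exp ((k : ℝ) / 4 * Real.log (1 / δ))) (𝓝[>] 0) atTop :=
    Tendsto.const_mul_atTop hc1 (Real.tendsto_exp_atTop.comp h1)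
  refine tendsto_atTop_mono' _ ?_ h2
  have h3 : Ioc (0 : ℝ) 1 ∈ 𝓝[>] (0 : ℝ) := Ioc_mem_nhdsGT (by norm_num)
  filter_upwards [h3] with δ hδ
  refine le_trans ?_ (hE δ hδ.1 hδ.2).1
  refine mul_le_mul_of_nonneg_left (Real.exp_le_exp.mpr ?_) hc1.le
  have := Sp_nonneg a δ
  linarith

theorem M09_hG {N : ℕ} {a : ℕ → ℂ} {L : ℂ → ℂ} (D : Dat N a L) {k : ℕ} (x : Fin k → GG.Ch)
    (hx : ∀ i j, i ≠ j → OO.Ne12 (x i).2 (x j).2) {F : ℂ → ℂ} (hF : F = fun s => GG.FL x s * L s) :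
    ∃ G : ℂ → ℂ, (∀ s : ℂ, 0 < s.re → DifferentiableAt ℂ G s) ∧ ∀ s : ℂ, s ≠ 1 → G s = (s - 1) * F s := by
  obtain ⟨G, hG, hG'⟩ := GG.G10_entire x hx
  refine ⟨fun s => G s * L s, fun s hs => (hG s hs).mul (D.ent s), fun s hs => ?_⟩
  show G s * L s = (s - 1) * F s
  rw [hG' s hs, hF]
  ring

theorem M09_pol {N : ℕ} {a : ℕ → ℂ} {L : ℂ → ℂ} (D : Dat N a L) {k : ℕ} (x : Fin k → GG.Ch)
    {F : ℂ → ℂ} (hF : F = fun s => GG.FL x s * L s) :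
    ∃ C : ℝ, ∀ s : ℂ, 1 / 2 ≤ s.re → s.re ≤ 2 → 1 ≤ |s.im| → ‖F s‖ ≤ C * (1 + |s.im|) ^ (k + 2) := by
  obtain ⟨A, hA⟩ := GG.G10_pol x
  obtain ⟨A', hA'0, hA'⟩ := L_pol D
  refine ⟨max A 0 * A', fun s h1 h2 h3 => ?_⟩
  rw [hF]
  show ‖GG.FL x s * L s‖ ≤ _
  rw [norm_mul, pow_add]
  have h0 : 0 ≤ (1 + |s.im|) ^ k := by positivity
  have h4 : ‖GG.FL x s‖ ≤ max A 0 * (1 + |s.im|) ^ k :=
    (hA s h1 h2 h3).trans (mul_le_mul_of_nonneg_right (le_max_left _ _) h0)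
  have h5 := hA' s h1 h3
  calc ‖GG.FL x s‖ * ‖L s‖ ≤ (max A 0 * (1 + |s.im|) ^ k) * (A' * (1 + |s.im|) ^ 2) :=
        mul_le_mul h4 h5 (norm_nonneg _) (mul_nonneg (le_max_right _ _) h0)
    _ = max A 0 * A' * ((1 + |s.im|) ^ k * (1 + |s.im|) ^ 2) := by ring

theorem M09_core {N : ℕ} {a : ℕ → ℂ} {L : ℂ → ℂ} (D : Dat N a L) {k : ℕ} (hk : 0 < k) (x : Fin k → GG.Ch)
    (hx : ∀ i j, i ≠ j → OO.Ne12 (x i).2 (x j).2) {F : ℂ → ℂ} (hF : F = fun s => GG.FL x s * L s)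
    {α β : ℕ → ℂ} (h : Loc a α β) {b : ArithmeticFunction ℂ} (hb : b = GG.bb x * bf α β) :
    ∃ c T0 : ℝ, 0 < c ∧ 3 ≤ T0 ∧ ∀ T : ℝ, T0 ≤ T →
      c * T * ∑' n : ℕ, ‖b n‖ ^ 2 * (n : ℝ) ^ (-(1 + 1 / Real.log T)) ≤
        ∫ t in Icc T (2 * T), ‖F (1 / 2 + t * I)‖ := by
  obtain ⟨K, hK⟩ := M09_double D h x hx
  have hlim := M09_lim D h hk x hx
  rw [← hb] at hK hlim
  have hG := M09_hG D x hx hF
  obtain ⟨C, hC⟩ := M09_pol D x hF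
  have hmult : (GG.bb x * bf α β).IsMultiplicative := (GG.bb_mult x).mul (bf_mult α β)
  have h1 : b 1 = 1 := by
    rw [hb]
    exact hmult.map_one
  have hab : b * b = GG.aa x * af a := by
    rw [hb]
    exact bx_sq D h x
  have hFa : ∀ s : ℂ, 1 < s.re → LSeriesSummable (⇑(GG.aa x * af a)) s ∧
      F s = LSeries (⇑(GG.aa x * af a)) s := by
    intro s hs
    rw [hF]
    exact FLf_series D x hs
  have hbs : Summable (fun n : ℕ => ‖b n‖ * (n : ℝ) ^ (-(3 / 2 : ℝ))) := by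
    rw [hb]
    exact bx_summable h x (by norm_num)
  have hE : ∀ δ : ℝ, 0 < δ → δ ≤ 1 → Summable (fun n : ℕ => ‖b n‖ ^ 2 * (n : ℝ) ^ (-(1 + δ))) ∧
      ∑' n : ℕ, ‖b n‖ ^ 2 * (n : ℝ) ^ (-(1 + δ / 2)) ≤ K * ∑' n : ℕ, ‖b n‖ ^ 2 * (n : ℝ) ^ (-(1 + δ)) := by
    intro δ h0 h2
    refine ⟨?_, hK δ h0 h2⟩
    rw [hb]
    exact bx_sq_summable h x (by linarith)
  exact dyadic hG hC hFa hab h1 hbs hE hlim

/-- Row M09. Lower bound for the first absolute moment. -/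
theorem moment_f {N : ℕ} {a : ℕ → ℂ} {L : ℂ → ℂ} (D : Dat N a L) {k : ℕ} (hk : 0 < k) (x : Fin k → GG.Ch)
    (hx : ∀ i j, i ≠ j → OO.Ne12 (x i).2 (x j).2) : ∃ c T0 : ℝ, 0 < c ∧ 3 ≤ T0 ∧ ∀ T : ℝ, T0 ≤ T →
      c * T * (Real.log T ^ ((k : ℝ) / 4) * Real.exp (Sp a (1 / Real.log T) / 4)) ≤
        ∫ t in Icc T (2 * T), ‖GG.FL x (1 / 2 + t * I) * L (1 / 2 + t * I)‖ := by
  obtain ⟨α, β, h⟩ := D.loc_ex
  obtain ⟨c1, C1, hc1, hC1, hE⟩ := M09_E D h x hx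
  obtain ⟨c, T0, hc, hT0, hd⟩ := M09_core D hk x hx (F := fun s => GG.FL x s * L s) rfl h rfl
  refine ⟨c * c1, T0, mul_pos hc hc1, hT0, fun T hT => ?_⟩
  refine le_trans ?_ (hd T hT)
  have hT3 : 3 ≤ T := hT0.trans hT
  have hT1 : 0 < T := by linarith
  have hlog : 1 ≤ Real.log T := by
    rw [Real.le_log_iff_exp_le hT1]
    have := Real.exp_one_lt_d9
    linarith
  have hlog0 : 0 < Real.log T := by linarith
  have hd1 : 1 / Real.log T ≤ 1 := by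
    rw [div_le_one hlog0]
    exact hlog
  have h1 := (hE (1 / Real.log T) (one_div_pos.mpr hlog0) hd1).1
  have e1 : Real.exp ((k : ℝ) / 4 * Real.log (1 / (1 / Real.log T)) + Sp a (1 / Real.log T) / 4) =
      Real.log T ^ ((k : ℝ) / 4) * Real.exp (Sp a (1 / Real.log T) / 4) := by
    rw [Real.exp_add, one_div_one_div, Real.rpow_def_of_pos hlog0, mul_comm ((k : ℝ) / 4)]
  rw [e1] at h1
  have h2 := mul_le_mul_of_nonneg_left h1 (mul_pos hc hT1).le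
  refine le_trans (le_of_eq ?_) h2
  ring

end NR
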