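import Pool.Agent.Lib.MP_0f5a55_nt.NR.D
import Pool.Agent.Lib.MP_0f5a55_nt.NR.M11
import Pool.Agent.Lib.MP_0f5a55_nt.NR.M14

open Complex MeasureTheory Set Filter Topology
open scoped Real ComplexConjugate

namespace NR

open NH

private theorem M15_cv_le {q1 q2 : ℕ} (χ1 : DirichletCharacter ℂ q1) (χ2 : DirichletCharacter ℂ q2) (n : ℕ) :
    ‖II.cv χ1 χ2 n‖ ≤ n := by
  unfold II.cv
  refine (norm_sum_le _ _).trans ?_
  refine (Finset.sum_le_sum (g := fun _ => (1 : ℝ)) fun x _ => ?_).trans ?_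
  · rw [norm_mul]
    exact mul_le_one₀ (DirichletCharacter.norm_le_one χ1 _) (norm_nonneg _)
      (DirichletCharacter.norm_le_one χ2 _)
  · rw [Nat.sum_divisorsAntidiagonal (n := n) (fun _ _ => (1 : ℝ))]
    simp only [Finset.sum_const, nsmul_eq_mul, mul_one]
    exact_mod_cast Nat.card_divisors_le_self n

private noncomputable def M15_c (a : ℕ → ℂ) (n : ℕ) : ℂ := if n = 0 then 0 else a n

private theorem M15_FE (a : ℕ → ℂ) (θ ε x : ℝ) : II.FE (M15_c a) θ ε x = II.FE a θ ε x := by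
  unfold II.FE M15_c
  refine tsum_congr fun n => ?_
  rw [if_neg (Nat.succ_ne_zero n)]

private theorem M15_hasSum {N : ℕ} {a : ℕ → ℂ} {L : ℂ → ℂ} (D : Dat N a L) {q1 q2 : ℕ}
    (χ1 : DirichletCharacter ℂ q1) (χ2 : DirichletCharacter ℂ q2)
    {θ1 θ2 ε : ℝ} (h1 : 0 < θ1) (h2 : 0 < θ2) (h0 : 0 < ε) (he : ε ≤ 1 / 2) :
    HasSum (fun k : ℕ => II.BK (II.cv χ1 χ2) a θ1 θ2 ε k) (Jf χ1 χ2 a θ1 θ2 ε) := by
  have hb : ∀ n : ℕ, ‖M15_c a n‖ ≤ n := by
    intro n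
    unfold M15_c
    split_ifs with h
    · rw [norm_zero]
      exact Nat.cast_nonneg _
    · refine (D.bd n (Nat.pos_of_ne_zero h)).trans ?_
      exact_mod_cast Nat.card_divisors_le_self n
  have h := II.BK_sum h1 h2 h0 he (M15_cv_le χ1 χ2) hb
  have e1 : ∀ k : ℕ, II.BK (II.cv χ1 χ2) (M15_c a) θ1 θ2 ε k = II.BK (II.cv χ1 χ2) a θ1 θ2 ε k := by
    intro k
    unfold II.BK
    simp only [M15_FE]
  simp only [e1, M15_FE] at h
  exact h

private theorem M15_ifsum (n : ℕ) (f : ℕ → ℝ) :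
    HasSum (fun k : ℕ => if k ∈ Finset.range n then f k else 0) (∑ k ∈ Finset.range n, f k) := by
  have := hasSum_sum_of_ne_finset_zero (L := SummationFilter.unconditional ℕ)
    (f := fun k : ℕ => if k ∈ Finset.range n then f k else 0) (s := Finset.range n)
    (fun b hb => if_neg hb)
  rwa [Finset.sum_ite_mem, Finset.inter_self] at this

private theorem M15_geo (n : ℕ) {r : ℝ} (hr0 : 0 ≤ r) (hr1 : r < 1) :
    HasSum (fun k : ℕ => if k < n then 0 else r ^ (k - n)) (1 - r)⁻¹ := by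
  have h := hasSum_geometric_of_lt_one hr0 hr1
  have e : (1 - r)⁻¹ = (1 - r)⁻¹ + ∑ i ∈ Finset.range n, (if i < n then 0 else r ^ (i - n)) := by
    rw [Finset.sum_eq_zero fun i hi => if_pos (Finset.mem_range.1 hi), add_zero]
  rw [e, ← hasSum_nat_add_iff n]
  refine h.congr_fun ?_
  intro k
  simp

private theorem M15_L1 {ε : ℝ} (h0 : 0 < ε) (h3 : ε ≤ 1 / 3) : 1 ≤ Real.log (1 / ε) := by
  rw [Real.le_log_iff_exp_le (by positivity)]
  have h1 : 3 ≤ 1 / ε := by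
    rw [le_div_iff₀ h0]
    linarith
  have := Real.exp_one_lt_d9
  linarith

private theorem M15_gsum {ε : ℝ} (h0 : 0 < ε) (h3 : ε ≤ 1 / 3) :
    ∑ k ∈ Finset.range (⌊Real.log (1 / ε)⌋₊ + 1), ε ^ (-(9 / 10 : ℝ)) * Real.exp ((k : ℝ) / 10) ≤
      Real.exp (1 / 10) / (Real.exp (1 / 10) - 1) * ε⁻¹ := by
  set L := Real.log (1 / ε) with hL
  have hL1 : 1 ≤ L := M15_L1 h0 h3
  set x := Real.exp (1 / 10) with hx
  have hx1 : 1 < x := Real.one_lt_exp_iff.2 (by norm_num)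
  have hx0 : 0 < x - 1 := by linarith
  have e1 : ∀ k : ℕ, Real.exp ((k : ℝ) / 10) = x ^ k := by
    intro k
    rw [hx, ← Real.exp_nat_mul]
    ring_nf
  simp only [e1]
  rw [← Finset.mul_sum, geom_sum_eq hx1.ne']
  have h4 : x ^ (⌊L⌋₊ + 1) ≤ x * ε ^ (-(1 / 10 : ℝ)) := by
    rw [pow_succ', ← e1]
    refine mul_le_mul_of_nonneg_left ?_ (by linarith)
    have h5 : ε ^ (-(1 / 10 : ℝ)) = Real.exp (L / 10) := by
      have h8 : L = -Real.log ε := by rw [hL, one_div, Real.log_inv]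
      rw [Real.rpow_def_of_pos h0, h8]
      ring_nf
    rw [h5]
    refine Real.exp_le_exp.2 ?_
    have := Nat.floor_le (show 0 ≤ L by linarith)
    linarith
  have h6 : ε ^ (-(9 / 10 : ℝ)) * ε ^ (-(1 / 10 : ℝ)) = ε⁻¹ := by
    rw [← Real.rpow_add h0, ← Real.rpow_neg_one]
    norm_num
  have h7 : 0 < ε ^ (-(9 / 10 : ℝ)) := Real.rpow_pos_of_pos h0 _
  calc ε ^ (-(9 / 10 : ℝ)) * ((x ^ (⌊L⌋₊ + 1) - 1) / (x - 1))
      ≤ ε ^ (-(9 / 10 : ℝ)) * ((x * ε ^ (-(1 / 10 : ℝ))) / (x - 1)) := by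
        refine mul_le_mul_of_nonneg_left ?_ h7.le
        refine div_le_div_of_nonneg_right ?_ hx0.le
        linarith
    _ = x / (x - 1) * (ε ^ (-(9 / 10 : ℝ)) * ε ^ (-(1 / 10 : ℝ))) := by ring
    _ = x / (x - 1) * ε⁻¹ := by rw [h6]

private theorem M15_main {ε : ℝ} (h0 : 0 < ε) (h3 : ε ≤ 1 / 3) {b : ℕ → ℂ} {J : ℂ} (hJ : HasSum b J)
    {P C : ℝ} (hP : 0 ≤ P) (hC : 0 ≤ C)
    (hsm : ∀ k : ℕ, Real.exp k ≤ Real.log (1 / ε) ^ 5 → ‖b k‖ ≤ P)
    (hmid : ∀ k : ℕ, Real.exp k ≤ 1 / ε → ‖b k‖ ≤ C * ((1 + Real.log (1 / ε)) ^ 4 * (ε⁻¹ * Real.exp (-(k : ℝ))) +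
      ε ^ (-(9 / 10 : ℝ)) * Real.exp ((k : ℝ) / 10)))
    (hlg : ∀ k : ℕ, 1 / ε ≤ Real.exp k → ‖b k‖ ≤ C * (ε⁻¹ * ((Real.exp k * ε) ^ 2)⁻¹)) :
    ‖J‖ ≤ (5 * Real.log (Real.log (1 / ε)) + 1) * P +
      C * (32 + Real.exp (1 / 10) / (Real.exp (1 / 10) - 1) + (1 - Real.exp (-2))⁻¹) * ε⁻¹ := by
  have hL1 := M15_L1 h0 h3
  have hgs := M15_gsum h0 h3
  set L := Real.log (1 / ε) with hLd
  have hL0 : 0 < L := by linarith
  have hi0 : 0 < ε⁻¹ := inv_pos.2 h0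
  have hr1 : Real.exp (-2) < 1 := Real.exp_lt_one_iff.2 (by norm_num)
  have g1 := M15_ifsum (⌊5 * Real.log L⌋₊ + 1) (fun _ => P)
  have g2 := M15_ifsum (⌊L⌋₊ + 1) (fun _ => C * (16 * (ε⁻¹ * L⁻¹)))
  have g3 := M15_ifsum (⌊L⌋₊ + 1) (fun k => C * (ε ^ (-(9 / 10 : ℝ)) * Real.exp ((k : ℝ) / 10)))
  have g4 := (M15_geo ⌈L⌉₊ (Real.exp_nonneg (-2)) hr1).mul_left (C * ε⁻¹)
  have h7 : 0 < ε ^ (-(9 / 10 : ℝ)) := Real.rpow_pos_of_pos h0 _
  have hbk : ∀ k : ℕ, ‖b k‖ ≤ (if k ∈ Finset.range (⌊5 * Real.log L⌋₊ + 1) then P else 0) +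
      (if k ∈ Finset.range (⌊L⌋₊ + 1) then C * (16 * (ε⁻¹ * L⁻¹)) else 0) +
      (if k ∈ Finset.range (⌊L⌋₊ + 1) then C * (ε ^ (-(9 / 10 : ℝ)) * Real.exp ((k : ℝ) / 10)) else 0) +
      C * ε⁻¹ * (if k < ⌈L⌉₊ then 0 else Real.exp (-2) ^ (k - ⌈L⌉₊)) := by
    intro k
    have i1 : 0 ≤ (if k ∈ Finset.range (⌊5 * Real.log L⌋₊ + 1) then P else 0) := by
      split_ifs
      · exact hP
      · exact le_refl _
    have i2 : 0 ≤ (if k ∈ Finset.range (⌊L⌋₊ + 1) then C * (16 * (ε⁻¹ * L⁻¹)) else 0) := by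
      split_ifs
      · positivity
      · exact le_refl _
    have i3 : 0 ≤ (if k ∈ Finset.range (⌊L⌋₊ + 1) then C * (ε ^ (-(9 / 10 : ℝ)) * Real.exp ((k : ℝ) / 10)) else 0) := by
      split_ifs
      · positivity
      · exact le_refl _
    have i4 : 0 ≤ C * ε⁻¹ * (if k < ⌈L⌉₊ then 0 else Real.exp (-2) ^ (k - ⌈L⌉₊)) := by
      refine mul_nonneg (by positivity) ?_
      split_ifs
      · exact le_refl _
      · positivity
    rcases le_or_gt (Real.exp k) (L ^ 5) with hk | hk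
    · have m1 : k ∈ Finset.range (⌊5 * Real.log L⌋₊ + 1) := by
        rw [Finset.mem_range, Nat.lt_succ_iff]
        refine Nat.le_floor ?_
        have := (Real.le_log_iff_exp_le (by positivity)).2 hk
        rwa [Real.log_pow, Nat.cast_ofNat] at this
      have m2 := hsm k hk
      rw [if_pos m1]
      linarith
    · rcases le_or_gt (1 / ε) (Real.exp k) with hk2 | hk2
      · have m1 := hlg k hk2
        have m2 : L ≤ k := by
          rw [hLd, Real.log_le_iff_le_exp (by positivity)]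
          exact hk2
        have m3 : ¬ k < ⌈L⌉₊ := by
          rw [not_lt]
          exact Nat.ceil_le.2 m2
        have m4 : ((Real.exp k * ε) ^ 2)⁻¹ ≤ Real.exp (-2) ^ (k - ⌈L⌉₊) := by
          have e1 : ε = Real.exp (-L) := by
            rw [hLd, one_div, Real.log_inv, neg_neg, Real.exp_log h0]
          have e2 : ((Real.exp k * ε) ^ 2)⁻¹ = Real.exp (-2 * (k - L)) := by
            rw [e1, ← Real.exp_add, ← Real.exp_nat_mul, ← Real.exp_neg]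
            push_cast
            ring_nf
          rw [e2, ← Real.exp_nat_mul, Nat.cast_sub (not_lt.1 m3)]
          refine Real.exp_le_exp.2 ?_
          have := Nat.le_ceil L
          linarith
        have m5 : C * (ε⁻¹ * ((Real.exp k * ε) ^ 2)⁻¹) ≤ C * ε⁻¹ * Real.exp (-2) ^ (k - ⌈L⌉₊) := by
          rw [← mul_assoc]
          exact mul_le_mul_of_nonneg_left m4 (by positivity)
        rw [if_neg m3] at i4 ⊢
        linarith
      · have m1 : k ∈ Finset.range (⌊L⌋₊ + 1) := by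
          rw [Finset.mem_range, Nat.lt_succ_iff]
          refine Nat.le_floor ?_
          exact (Real.le_log_iff_exp_le (by positivity)).2 hk2.le
        have m2 := hmid k hk2.le
        have m3 : (1 + L) ^ 4 * (ε⁻¹ * Real.exp (-(k : ℝ))) ≤ 16 * (ε⁻¹ * L⁻¹) := by
          have f1 : (1 + L) ^ 4 ≤ (2 * L) ^ 4 := pow_le_pow_left₀ (by linarith) (by linarith) 4
          have f2 : Real.exp (-(k : ℝ)) ≤ (L ^ 5)⁻¹ := by
            rw [Real.exp_neg]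
            exact inv_anti₀ (by positivity) hk.le
          calc (1 + L) ^ 4 * (ε⁻¹ * Real.exp (-(k : ℝ))) ≤ (2 * L) ^ 4 * (ε⁻¹ * (L ^ 5)⁻¹) := by
                refine mul_le_mul f1 (mul_le_mul_of_nonneg_left f2 hi0.le) (by positivity) (by positivity)
            _ = 16 * (ε⁻¹ * L⁻¹) := by
                field_simp
                try ring
        have m4 := mul_le_mul_of_nonneg_left m3 hC
        rw [mul_add] at m2
        rw [if_pos m1, if_pos m1]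
        linarith
  have hfin := tsum_of_norm_bounded (((g1.add g2).add g3).add g4) hbk
  rw [hJ.tsum_eq] at hfin
  refine hfin.trans ?_
  have r1 : ∑ k ∈ Finset.range (⌊5 * Real.log L⌋₊ + 1), P ≤ (5 * Real.log L + 1) * P := by
    rw [Finset.sum_const, Finset.card_range, nsmul_eq_mul]
    refine mul_le_mul_of_nonneg_right ?_ hP
    push_cast
    have := Nat.floor_le (mul_nonneg (show (0 : ℝ) ≤ 5 by norm_num) (Real.log_nonneg hL1))
    linarith
  have r2 : ∑ k ∈ Finset.range (⌊L⌋₊ + 1), C * (16 * (ε⁻¹ * L⁻¹)) ≤ C * 32 * ε⁻¹ := by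
    rw [Finset.sum_const, Finset.card_range, nsmul_eq_mul]
    have f1 : ((⌊L⌋₊ + 1 : ℕ) : ℝ) ≤ 2 * L := by
      have := Nat.floor_le hL0.le
      push_cast
      linarith
    calc ((⌊L⌋₊ + 1 : ℕ) : ℝ) * (C * (16 * (ε⁻¹ * L⁻¹))) ≤ (2 * L) * (C * (16 * (ε⁻¹ * L⁻¹))) :=
          mul_le_mul_of_nonneg_right f1 (by positivity)
      _ = C * 32 * ε⁻¹ := by
          field_simp
          try ring
  have r3 : ∑ k ∈ Finset.range (⌊L⌋₊ + 1), C * (ε ^ (-(9 / 10 : ℝ)) * Real.exp ((k : ℝ) / 10)) ≤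
      C * (Real.exp (1 / 10) / (Real.exp (1 / 10) - 1) * ε⁻¹) := by
    rw [← Finset.mul_sum]
    exact mul_le_mul_of_nonneg_left hgs hC
  calc _ ≤ (5 * Real.log L + 1) * P + C * 32 * ε⁻¹ + C * (Real.exp (1 / 10) / (Real.exp (1 / 10) - 1) * ε⁻¹) +
        C * ε⁻¹ * (1 - Real.exp (-2))⁻¹ := add_le_add (add_le_add (add_le_add r1 r2) r3) le_rfl
    _ = _ := by ring

private theorem M15_Sp (a : ℕ → ℂ) (δ : ℝ) : 0 ≤ Sp a δ := by
  unfold Sp
  exact tsum_nonneg fun p => mul_nonneg (sq_nonneg _) (Real.rpow_nonneg (Nat.cast_nonneg _) _)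

/-- Row M15. Correlation integral, rational ratio. -/
theorem rat_f {N : ℕ} {a : ℕ → ℂ} {L : ℂ → ℂ} (D : Dat N a L) {q1 q2 : ℕ} [NeZero q1] [NeZero q2]
    {χ1 : DirichletCharacter ℂ q1} {χ2 : DirichletCharacter ℂ q2} (n12 : OO.Ne12 χ1 χ2)
    {θ1 θ2 : ℝ} (h1 : 0 < θ1) (h2 : 0 < θ2) {r s : ℕ} (hr : 0 < r) (hs : 0 < s)
    (hrs : (r : ℝ) * θ1 = s * θ2) : ∃ C ε0 : ℝ, 0 < ε0 ∧ ε0 ≤ 1 / 3 ∧ ∀ ε : ℝ, 0 < ε → ε ≤ ε0 →
      ‖Jf χ1 χ2 a θ1 θ2 ε‖ ≤
        C * (ε⁻¹ * Real.exp (Sp a (1 / Real.log (1 / ε)) / 2) * (1 + Real.log (Real.log (1 / ε)))) := by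
  obtain ⟨C1, ε0, hε0, hε03, hsm⟩ := small_k D n12 h1 h2 (5 : ℝ)
  obtain ⟨C2, hC2, hlg⟩ := large_k_rat D χ1 χ2 h1 h2 hr hs hrs
  set K : ℝ := 32 + Real.exp (1 / 10) / (Real.exp (1 / 10) - 1) + (1 - Real.exp (-2))⁻¹ with hK
  have hK0 : 0 ≤ K := by
    have e1 : 0 < Real.exp (1 / 10) - 1 := by
      have := Real.one_lt_exp_iff.2 (show (0 : ℝ) < 1 / 10 by norm_num)
      linarith
    have e2 : 0 < 1 - Real.exp (-2) := by
      have := Real.exp_lt_one_iff.2 (show (-2 : ℝ) < 0 by norm_num)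
      linarith
    positivity
  refine ⟨5 * |C1| + C2 * K, ε0, hε0, hε03, ?_⟩
  intro ε h0 hle
  have h3 : ε ≤ 1 / 3 := hle.trans hε03
  have he : ε ≤ 1 / 2 := by linarith
  have hL1 := M15_L1 h0 h3
  have hS := M15_Sp a (1 / Real.log (1 / ε))
  have hlg' := hlg ε h0 he
  have hsm' := hsm ε h0 hle
  have hi0 : 0 < ε⁻¹ := inv_pos.2 h0
  set E := Real.exp (Sp a (1 / Real.log (1 / ε)) / 2) with hE
  have hE1 : 1 ≤ E := Real.one_le_exp (by positivity)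
  have hmain := M15_main h0 h3 (M15_hasSum D χ1 χ2 h1 h2 h0 he) (P := |C1| * (ε⁻¹ * E)) (C := C2)
    (by positivity) hC2 (fun k hk => by
      have m2 := hsm' k (by rwa [show (5 : ℝ) = ((5 : ℕ) : ℝ) by norm_num, Real.rpow_natCast])
      refine m2.trans (mul_le_mul_of_nonneg_right (le_abs_self _) (by positivity)))
    (fun k => (hlg' k).1) (fun k => (hlg' k).2)
  rw [← hK] at hmain
  have hll : 0 ≤ Real.log (Real.log (1 / ε)) := Real.log_nonneg hL1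
  set l := Real.log (Real.log (1 / ε)) with hl
  refine hmain.trans ?_
  have r1 : (5 * l + 1) * (|C1| * (ε⁻¹ * E)) ≤ 5 * |C1| * (ε⁻¹ * E * (1 + l)) := by
    have : 0 ≤ |C1| * (ε⁻¹ * E) := by positivity
    nlinarith
  have r2 : C2 * K * ε⁻¹ ≤ C2 * K * (ε⁻¹ * E * (1 + l)) := by
    refine mul_le_mul_of_nonneg_left ?_ (by positivity)
    rw [mul_assoc]
    refine le_mul_of_one_le_right hi0.le ?_
    nlinarith
  linarith

end NR
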