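import Pool.Agent.Lib.MP_0f5a55_nt.NR.E3
import Pool.Agent.Lib.MP_0f5a55_nt.FF.F02
import Pool.Agent.Lib.MP_0f5a55_nt.FF.F03
import Pool.Agent.Lib.MP_0f5a55_nt.FF.F06

open Complex MeasureTheory Set Filter Topology
open scoped Real ComplexConjugate

namespace NR

open NH

private theorem M16_A {N : ℕ} (hN : 0 < N) : 0 < √(N : ℝ) / (2 * π) := by
  have : (0 : ℝ) < N := by exact_mod_cast hN
  have := Real.pi_pos
  positivity

private theorem M16_expn (x : ℝ) : ‖exp ((x : ℂ) * I / 2)‖ = 1 := by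
  have : (x : ℂ) * I / 2 = ((x / 2 : ℝ) : ℂ) * I := by push_cast; ring
  rw [this, norm_exp_ofReal_mul_I]

private theorem M16_cc {c : ℂ} (h : ‖c‖ = 1) : conj c * c = 1 := by
  rw [mul_comm, mul_conj, normSq_eq_norm_sq, h]; simp

private theorem M16_Rf {N : ℕ} (hN : 0 < N) {L : ℂ → ℂ} {u : ℂ} {v W : ℝ → ℂ} {C : ℝ} (hp : Ph N L u v W C)
    {ε : ℝ} (h0 : 0 < ε) (h1 : ε ≤ 1 / 2) (t : ℝ) :
    Rf N L ε t = conj (u * exp (((π / 2 - ε : ℝ) : ℂ) * I / 2)) * (((r2 N L v ε t : ℝ) : ℂ) * W t) := by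
  have h2 := Rf_r2 hN hp h0 h1 t
  have h3 : ‖u * exp (((π / 2 - ε : ℝ) : ℂ) * I / 2)‖ = 1 := by
    rw [norm_mul, hp.nu, M16_expn, one_mul]
  rw [← h2, ← mul_assoc, M16_cc h3, one_mul]

/-- Row M16. Product with a pair of characters; sign. -/
theorem Rf_real {N : ℕ} {a : ℕ → ℂ} {L : ℂ → ℂ} (D : Dat N a L) : ∃ (η : ℝ → ℂ) (C : ℝ), 0 ≤ C ∧
    (∀ ε, ‖η ε‖ = 1) ∧ ∀ ε : ℝ, 0 < ε → ε ≤ 1 / 2 → ∀ t : ℝ,
      ‖Rf N L ε t - η ε * conj (Rf N L ε t)‖ ≤ C * (1 + |t|) ^ 6 * Real.exp (-|t|) := by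
  obtain ⟨u, v, W, C0, hp⟩ := D.ph
  obtain ⟨K, hK, hW⟩ := r2_W D hp
  have hc : ∀ ε : ℝ, ‖u * exp (((π / 2 - ε : ℝ) : ℂ) * I / 2)‖ = 1 := fun ε => by
    rw [norm_mul, hp.nu, M16_expn, one_mul]
  refine ⟨fun ε => conj (u * exp (((π / 2 - ε : ℝ) : ℂ) * I / 2)) ^ 2, 2 * K, by positivity, fun ε => ?_,
    fun ε h0 h1 t => ?_⟩
  · rw [norm_pow, RCLike.norm_conj, hc ε, one_pow]
  · have h2 := M16_Rf D.pos hp h0 h1 t
    have h3 := M16_cc (hc ε)
    have h4 := hW ε h0 h1 t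
    have h5 := hc ε
    simp only
    generalize u * exp (((π / 2 - ε : ℝ) : ℂ) * I / 2) = c at h2 h3 h5 ⊢
    rw [h2]
    have e1 : conj c * (((r2 N L v ε t : ℝ) : ℂ) * W t) -
        conj c ^ 2 * conj (conj c * (((r2 N L v ε t : ℝ) : ℂ) * W t)) =
        conj c * (((r2 N L v ε t : ℝ) : ℂ)) * (W t - conj (W t)) := by
      rw [map_mul, map_mul, conj_conj, conj_ofReal]
      linear_combination (-(conj c * (((r2 N L v ε t : ℝ) : ℂ) * conj (W t)))) * h3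
    have e2 : ‖W t - conj (W t)‖ ≤ 2 * ‖W t - 1‖ := by
      have e3 : W t - conj (W t) = (W t - 1) - conj (W t - 1) := by
        rw [map_sub, map_one]; ring
      rw [e3]
      refine (norm_sub_le _ _).trans ?_
      rw [RCLike.norm_conj]
      linarith
    rw [e1, norm_mul, norm_mul, RCLike.norm_conj, h5, one_mul, norm_real, Real.norm_eq_abs]
    have h46 : (1 + |t|) ^ 4 ≤ (1 + |t|) ^ 6 :=
      pow_le_pow_right₀ (by linarith [abs_nonneg t]) (by norm_num)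
    calc |r2 N L v ε t| * ‖W t - conj (W t)‖ ≤ |r2 N L v ε t| * (2 * ‖W t - 1‖) := by gcongr
      _ = 2 * (|r2 N L v ε t| * ‖W t - 1‖) := by ring
      _ ≤ 2 * (K * ((1 + |t|) ^ 4 * Real.exp (-|t|))) := by gcongr
      _ ≤ 2 * (K * ((1 + |t|) ^ 6 * Real.exp (-|t|))) := by gcongr
      _ = _ := by ring

theorem Rf_prod {N : ℕ} {a : ℕ → ℂ} {L : ℂ → ℂ} (D : Dat N a L) {u : ℂ} {v W : ℝ → ℂ} {C0 : ℝ}
    (hp : Ph N L u v W C0) {q1 q2 : ℕ}
    [NeZero q1] [NeZero q2] {χ1 : DirichletCharacter ℂ q1} {χ2 : DirichletCharacter ℂ q2}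
    (h1 : χ1.IsPrimitive) (h2 : χ2.IsPrimitive) : ∃ (κ : ℂ) (C : ℝ), κ ≠ 0 ∧ 0 ≤ C ∧
    ∀ ε : ℝ, 0 < ε → ε ≤ 1 / 2 → ∀ t : ℝ,
      ‖FF.RR χ1 χ2 ε t * conj (Rf N L ε t) -
        κ * ((FF.wt ε t * (FF.ZZ χ1 t * FF.ZZ χ2 t * Zf L v t) : ℝ) : ℂ)‖ ≤
        C * (1 + |t|) ^ 12 * Real.exp (-|t|) := by
  obtain ⟨c, U, hc, hU, hU1, hst⟩ := FF.F03_struct h1 h2
  obtain ⟨C1, hC1, hZ1⟩ := FF.F03_ZZ_le h1
  obtain ⟨C2, hC2, hZ2⟩ := FF.F03_ZZ_le h2
  obtain ⟨C3, hC3, hL⟩ := L_line D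
  have hZ3 : ∀ t, |Zf L v t| ≤ C3 * (1 + |t|) ^ 2 := fun t => by rw [(Zf_abs hp t).1]; exact hL t
  have hpi := Real.pi_gt_three
  have hA := M16_A D.pos
  have hC0 : 0 ≤ C0 := by
    have := (norm_nonneg _).trans (hp.W1 0)
    simpa using this
  set sA : ℝ := √(√(N : ℝ) / (2 * π)) with hsA
  have hsA0 : 0 < sA := Real.sqrt_pos.mpr hA
  have hu0 : u ≠ 0 := by
    intro h
    have := hp.nu
    rw [h, norm_zero] at this
    norm_num at this
  refine ⟨(π : ℂ) * (c * u * sA), ‖(π : ℂ) * (c * u * sA)‖ * (C1 * C2 * C3) * (2 * (4 + C0)), ?_,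
    by positivity, fun ε hε hε1 t => ?_⟩
  · refine mul_ne_zero (by exact_mod_cast Real.pi_ne_zero) (mul_ne_zero (mul_ne_zero hc hu0) ?_)
    exact_mod_cast hsA0.ne'
  · set g : ℝ := ‖Gamma (1 / 2 + t * I)‖ with hg
    set e : ℝ := Real.exp ((π / 2 - ε) * t) with he
    have hg2 : √(π / Real.cosh (π * t)) = g := by
      rw [← FF.F03_gam, hg, Real.sqrt_sq (norm_nonneg _)]
    have hwt : e * e * g ^ 2 = π * FF.wt ε t := by
      unfold FF.wt
      rw [hg, FF.F03_gam, he, ← Real.exp_add]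
      have : (π / 2 - ε) * t + (π / 2 - ε) * t = (π - 2 * ε) * t := by ring
      rw [this]
      ring
    have hr2 : r2 N L v ε t = e * (sA * g * Zf L v t) := by
      unfold r2
      rw [hg2]
    have e0 : FF.RR χ1 χ2 ε t = c * exp (-(((π / 2 - ε) / 2 : ℝ) : ℂ) * I) *
        ((e * g * (FF.ZZ χ1 t * FF.ZZ χ2 t) : ℝ) : ℂ) * U t := hst ε hε hε1 t
    have e1 : conj (Rf N L ε t) = exp ((((π / 2 - ε) / 2 : ℝ) : ℂ) * I) * (e : ℂ) *
        (u * ((sA * g * Zf L v t : ℝ) : ℂ)) * conj (W t) := by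
      rw [M16_Rf D.pos hp hε hε1 t, hr2, map_mul, conj_conj, map_mul, conj_ofReal]
      have e9 : (((π / 2 - ε : ℝ)) : ℂ) * I / 2 = (((π / 2 - ε) / 2 : ℝ) : ℂ) * I := by
        push_cast; ring
      rw [e9, ofReal_mul e]
      ring
    have e2 : exp (-(((π / 2 - ε) / 2 : ℝ) : ℂ) * I) * exp ((((π / 2 - ε) / 2 : ℝ) : ℂ) * I) = 1 := by
      rw [← exp_add, neg_mul, neg_add_cancel, exp_zero]
    have hwt' : (e : ℂ) * e * (g : ℂ) ^ 2 = π * (FF.wt ε t : ℂ) := by exact_mod_cast hwt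
    have e3 : FF.RR χ1 χ2 ε t * conj (Rf N L ε t) -
        (π : ℂ) * (c * u * sA) * ((FF.wt ε t * (FF.ZZ χ1 t * FF.ZZ χ2 t * Zf L v t) : ℝ) : ℂ) =
        (π : ℂ) * (c * u * sA) * ((FF.wt ε t * (FF.ZZ χ1 t * FF.ZZ χ2 t * Zf L v t) : ℝ) : ℂ) *
          (U t * conj (W t) - 1) := by
      rw [e1, e0]
      generalize exp (-(((π / 2 - ε) / 2 : ℝ) : ℂ) * I) = Ea at e2
      generalize exp ((((π / 2 - ε) / 2 : ℝ) : ℂ) * I) = Eb at e2
      push_cast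
      linear_combination ((c * u * sA) * ((e : ℂ) * e * (g : ℂ) ^ 2) *
        ((FF.ZZ χ1 t : ℂ) * FF.ZZ χ2 t * Zf L v t) * U t * conj (W t)) * e2 +
        ((c * u * sA) * ((FF.ZZ χ1 t : ℂ) * FF.ZZ χ2 t * Zf L v t) * U t * conj (W t)) * hwt'
    rw [e3, norm_mul, norm_mul, norm_real, Real.norm_eq_abs]
    have hsplit : ‖U t * conj (W t) - 1‖ ≤ ‖U t - 1‖ + ‖W t - 1‖ := by
      have e4 : U t * conj (W t) - 1 = U t * conj (W t - 1) + (U t - 1) := by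
        rw [map_sub, map_one]; ring
      rw [e4]
      refine (norm_add_le _ _).trans ?_
      rw [norm_mul, hU, one_mul, RCLike.norm_conj]
      linarith
    have hd1 : ‖U t * conj (W t) - 1‖ ≤ 4 := by
      have k1 : ‖U t - 1‖ ≤ 2 := by
        refine (norm_sub_le _ _).trans ?_
        rw [hU, norm_one]
        norm_num
      have k2 : ‖W t - 1‖ ≤ 2 := by
        refine (norm_sub_le _ _).trans ?_
        rw [hp.nW, norm_one]
        norm_num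
      linarith
    have hd2 : ‖U t * conj (W t) - 1‖ ≤ (4 + C0) * Real.exp (-(π * t)) := by
      have k1 : ‖U t - 1‖ ≤ 4 * Real.exp (-(π * t)) := by
        have := hU1 t
        have h9 := Real.exp_pos (-(π * t))
        linarith
      have k2 := hp.W1 t
      linarith
    have hw0 : 0 ≤ FF.wt ε t := by unfold FF.wt; positivity
    have hwle : FF.wt ε t ≤ 2 * Real.exp ((π - 2 * ε) * t - π * |t|) := by
      unfold FF.wt
      have h5 : Real.exp (π * |t|) / 2 ≤ Real.cosh (π * t) := by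
        rw [← Real.cosh_abs, abs_mul, abs_of_pos Real.pi_pos, Real.cosh_eq]
        have := Real.exp_pos (-(π * |t|))
        linarith
      rw [div_le_iff₀ (Real.cosh_pos _)]
      have h6 : 2 * Real.exp ((π - 2 * ε) * t - π * |t|) * (Real.exp (π * |t|) / 2) ≤
          2 * Real.exp ((π - 2 * ε) * t - π * |t|) * Real.cosh (π * t) :=
        mul_le_mul_of_nonneg_left h5 (by positivity)
      have h7 : 2 * Real.exp ((π - 2 * ε) * t - π * |t|) * (Real.exp (π * |t|) / 2) =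
          Real.exp ((π - 2 * ε) * t) := by
        have : Real.exp ((π - 2 * ε) * t) = Real.exp ((π - 2 * ε) * t - π * |t|) * Real.exp (π * |t|) := by
          rw [← Real.exp_add]; congr 1; ring
        rw [this]
        ring
      linarith
    have key : FF.wt ε t * ‖U t * conj (W t) - 1‖ ≤ 2 * (4 + C0) * Real.exp (-|t|) := by
      rcases le_total 0 t with ht | ht
      · rw [abs_of_nonneg ht] at hwle ⊢
        calc FF.wt ε t * ‖U t * conj (W t) - 1‖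
            ≤ (2 * Real.exp ((π - 2 * ε) * t - π * t)) * ((4 + C0) * Real.exp (-(π * t))) := by gcongr
          _ = 2 * (4 + C0) * Real.exp ((π - 2 * ε) * t - π * t + -(π * t)) := by
            rw [Real.exp_add]; ring
          _ ≤ 2 * (4 + C0) * Real.exp (-t) := by
            gcongr
            nlinarith
      · rw [abs_of_nonpos ht] at hwle ⊢
        calc FF.wt ε t * ‖U t * conj (W t) - 1‖
            ≤ (2 * Real.exp ((π - 2 * ε) * t - π * -t)) * 4 := by gcongr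
          _ = 8 * Real.exp ((π - 2 * ε) * t - π * -t) := by ring
          _ ≤ 8 * Real.exp (-(-t)) := by
            gcongr
            nlinarith
          _ ≤ 2 * (4 + C0) * Real.exp (-(-t)) := by
            gcongr
            linarith
    have hZZ : |FF.ZZ χ1 t * FF.ZZ χ2 t * Zf L v t| ≤ (C1 * C2 * C3) * (1 + |t|) ^ 4 := by
      rw [abs_mul, abs_mul]
      have ha := abs_nonneg t
      calc |FF.ZZ χ1 t| * |FF.ZZ χ2 t| * |Zf L v t|
          ≤ (C1 * (1 + |t|)) * (C2 * (1 + |t|)) * (C3 * (1 + |t|) ^ 2) := by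
            have := hZ1 t; have := hZ2 t; have := hZ3 t
            gcongr
        _ = _ := by ring
    have h26 : (1 + |t|) ^ 4 ≤ (1 + |t|) ^ 12 :=
      pow_le_pow_right₀ (by linarith [abs_nonneg t]) (by norm_num)
    rw [abs_mul, abs_of_nonneg hw0]
    calc ‖(π : ℂ) * (c * u * sA)‖ * (FF.wt ε t * |FF.ZZ χ1 t * FF.ZZ χ2 t * Zf L v t|) *
          ‖U t * conj (W t) - 1‖
        = ‖(π : ℂ) * (c * u * sA)‖ * |FF.ZZ χ1 t * FF.ZZ χ2 t * Zf L v t| *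
          (FF.wt ε t * ‖U t * conj (W t) - 1‖) := by ring
      _ ≤ ‖(π : ℂ) * (c * u * sA)‖ * ((C1 * C2 * C3) * (1 + |t|) ^ 12) *
          (2 * (4 + C0) * Real.exp (-|t|)) := by
        have : |FF.ZZ χ1 t * FF.ZZ χ2 t * Zf L v t| ≤ (C1 * C2 * C3) * (1 + |t|) ^ 12 :=
          hZZ.trans (mul_le_mul_of_nonneg_left h26 (by positivity))
        gcongr
      _ = _ := by ring

private theorem M16_ne (t : ℝ) : (1 / 2 + t * I : ℂ) ≠ 1 := by
  intro h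
  have := congrArg Complex.re h
  norm_num at this

private theorem M16_an {q : ℕ} [NeZero q] (χ : DirichletCharacter ℂ q) :
    AnalyticOnNhd ℂ (LX.Lf χ) {1}ᶜ := by
  apply DifferentiableOn.analyticOnNhd _ isOpen_compl_singleton
  intro s hs
  exact (DirichletCharacter.differentiableAt_LFunction χ s (Or.inl hs)).differentiableWithinAt

private theorem M16_top {q : ℕ} [NeZero q] (χ : DirichletCharacter ℂ q) (t : ℝ) :
    analyticOrderAt (LX.Lf χ) (1 / 2 + t * I) ≠ ⊤ := by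
  intro htop
  have hpre : IsPreconnected ({1}ᶜ : Set ℂ) :=
    (isConnected_compl_singleton_of_one_lt_rank (by simp) 1).isPreconnected
  have h0 : LX.Lf χ =ᶠ[𝓝 (1 / 2 + t * I : ℂ)] 0 := by
    rw [analyticOrderAt_eq_top] at htop
    exact htop
  have h1 : EqOn (LX.Lf χ) 0 {1}ᶜ :=
    (M16_an χ).eqOn_zero_of_preconnected_of_eventuallyEq_zero hpre (M16_ne t) h0
  have h2 : LX.Lf χ 2 = 0 := h1 (by norm_num : (2 : ℂ) ∈ ({1}ᶜ : Set ℂ))
  have h3 : LX.Lf χ 2 ≠ 0 :=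
    DirichletCharacter.LFunction_ne_zero_of_one_le_re χ (Or.inr (by norm_num)) (by norm_num)
  exact h3 h2

/-- the function L is not identically zero -/
private theorem M16_nz {N : ℕ} {a : ℕ → ℂ} {L : ℂ → ℂ} (D : Dat N a L) : ∃ s : ℂ, L s ≠ 0 := by
  by_contra hcon
  push Not at hcon
  have hs2 := (D.ser 2 (by simp)).summable.norm
  set S0 : ℝ := ∑' n : ℕ, ‖a (n + 1) * ((n : ℂ) + 1) ^ (-(2 : ℂ))‖ with hS0
  have hS0n : 0 ≤ S0 := tsum_nonneg fun n => norm_nonneg _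
  obtain ⟨k, hk⟩ : ∃ k : ℕ, S0 < 2 ^ k := pow_unbounded_of_one_lt S0 (by norm_num)
  have hser := D.ser ((2 + k : ℝ) : ℂ) (by simp)
  rw [hcon] at hser
  -- every term but the first
  have hterm : ∀ n : ℕ, ‖a (n + 2) * (((n + 1 : ℕ) : ℂ) + 1) ^ (-((2 + k : ℝ) : ℂ))‖ ≤
      ‖a (n + 2) * (((n + 1 : ℕ) : ℂ) + 1) ^ (-(2 : ℂ))‖ * (1 / 2 ^ k) := by
    intro n
    have hn : (0 : ℝ) < ((n + 1 : ℕ) : ℝ) + 1 := by positivity
    have hcast : (((n + 1 : ℕ) : ℂ) + 1) = ((((n + 1 : ℕ) : ℝ) + 1 : ℝ) : ℂ) := by push_cast; rfl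
    rw [norm_mul, norm_mul, hcast, Complex.norm_cpow_eq_rpow_re_of_pos hn,
      Complex.norm_cpow_eq_rpow_re_of_pos hn, mul_assoc]
    apply mul_le_mul_of_nonneg_left _ (norm_nonneg _)
    have e1 : (-((2 + k : ℝ) : ℂ)).re = (-(2 : ℂ)).re + -(k : ℝ) := by
      simp
      ring
    rw [e1, Real.rpow_add hn]
    apply mul_le_mul_of_nonneg_left _ (by positivity)
    rw [Real.rpow_neg hn.le, Real.rpow_natCast, one_div]
    apply inv_anti₀ (by positivity)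
    apply pow_le_pow_left₀ (by norm_num)
    push_cast
    have : (0 : ℝ) ≤ n := by positivity
    linarith
  have hsplit := hser.summable.tsum_eq_zero_add
  rw [hser.tsum_eq] at hsplit
  have h0 : a (0 + 1) * (((0 : ℕ) : ℂ) + 1) ^ (-((2 + k : ℝ) : ℂ)) = 1 := by
    rw [zero_add, D.one]; simp
  rw [h0] at hsplit
  have hsum1 : Summable fun n : ℕ => ‖a (n + 1 + 1) * (((n + 1 : ℕ) : ℂ) + 1) ^ (-(2 : ℂ))‖ :=
    (summable_nat_add_iff 1).mpr hs2
  have hsum2 : Summable fun n : ℕ => ‖a (n + 1 + 1) * (((n + 1 : ℕ) : ℂ) + 1) ^ (-((2 + k : ℝ) : ℂ))‖ :=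
    Summable.of_nonneg_of_le (fun n => norm_nonneg _) hterm (hsum1.mul_right _)
  have h1 : ‖∑' n : ℕ, a (n + 1 + 1) * (((n + 1 : ℕ) : ℂ) + 1) ^ (-((2 + k : ℝ) : ℂ))‖ ≤ S0 * (1 / 2 ^ k) := by
    refine (norm_tsum_le_tsum_norm hsum2).trans ((hsum2.tsum_le_tsum hterm (hsum1.mul_right _)).trans ?_)
    rw [tsum_mul_right]
    apply mul_le_mul_of_nonneg_right _ (by positivity)
    rw [hS0, hs2.tsum_eq_zero_add]
    have := norm_nonneg (a (0 + 1) * (((0 : ℕ) : ℂ) + 1) ^ (-(2 : ℂ)))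
    linarith
  have h2 : (∑' n : ℕ, a (n + 1 + 1) * (((n + 1 : ℕ) : ℂ) + 1) ^ (-((2 + k : ℝ) : ℂ))) = -1 := by
    linear_combination -hsplit
  rw [h2, norm_neg, norm_one] at h1
  rw [mul_one_div, le_div_iff₀ (by positivity)] at h1
  linarith

private theorem M16_topL {N : ℕ} {a : ℕ → ℂ} {L : ℂ → ℂ} (D : Dat N a L) (z : ℂ) :
    analyticOrderAt L z ≠ ⊤ := by
  intro htop
  have h0 : L =ᶠ[𝓝 z] 0 := by
    rw [analyticOrderAt_eq_top] at htop
    exact htop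
  have hA : AnalyticOnNhd ℂ L univ := fun w _ => D.ent.analyticAt w
  have h1 : EqOn L 0 univ :=
    hA.eqOn_zero_of_preconnected_of_eventuallyEq_zero isPreconnected_univ (mem_univ z) h0
  obtain ⟨s, hs⟩ := M16_nz D
  exact hs (h1 (mem_univ s))

private theorem M16_mul {f g : ℂ → ℂ} {z : ℂ} (a1 : AnalyticAt ℂ f z) (a2 : AnalyticAt ℂ g z)
    (t1 : analyticOrderAt f z ≠ ⊤) (t2 : analyticOrderAt g z ≠ ⊤) :
    AnalyticAt ℂ (f * g) z ∧ analyticOrderAt (f * g) z ≠ ⊤ ∧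
      analyticOrderNatAt (f * g) z = analyticOrderNatAt f z + analyticOrderNatAt g z := by
  refine ⟨a1.mul a2, ?_, analyticOrderNatAt_mul a1 a2 t1 t2⟩
  rw [analyticOrderAt_mul a1 a2]
  intro h
  rcases ENat.add_eq_top.mp h with h | h
  · exact t1 h
  · exact t2 h

private theorem M16_orders {N : ℕ} {a : ℕ → ℂ} {L : ℂ → ℂ} (D : Dat N a L) {q1 q2 : ℕ}
    [NeZero q1] [NeZero q2] (χ1 : DirichletCharacter ℂ q1) (χ2 : DirichletCharacter ℂ q2) (t : ℝ) :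
    AnalyticAt ℂ (LX.Lf χ1 * LX.Lf χ2 * L) (1 / 2 + t * I) ∧
      analyticOrderAt (LX.Lf χ1 * LX.Lf χ2 * L) (1 / 2 + t * I) ≠ ⊤ ∧
      analyticOrderNatAt (LX.Lf χ1 * LX.Lf χ2 * L) (1 / 2 + t * I) =
        analyticOrderNatAt (LX.Lf χ1) (1 / 2 + t * I) + analyticOrderNatAt (LX.Lf χ2) (1 / 2 + t * I) +
          analyticOrderNatAt L (1 / 2 + t * I) := by
  obtain ⟨a12, t12, e12⟩ := M16_mul (M16_an χ1 _ (M16_ne t)) (M16_an χ2 _ (M16_ne t)) (M16_top χ1 t)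
    (M16_top χ2 t)
  obtain ⟨a123, t123, e123⟩ := M16_mul a12 (D.ent.analyticAt _) t12 (M16_topL D (1 / 2 + t * I))
  exact ⟨a123, t123, by rw [e123, e12]⟩

theorem sign_f {N : ℕ} {a : ℕ → ℂ} {L : ℂ → ℂ} (D : Dat N a L) {u : ℂ} {v W : ℝ → ℂ} {C0 : ℝ}
    (hp : Ph N L u v W C0) {q1 q2 : ℕ}
    [NeZero q1] [NeZero q2] {χ1 : DirichletCharacter ℂ q1} {χ2 : DirichletCharacter ℂ q2}
    (h1 : χ1.IsPrimitive) (h2 : χ2.IsPrimitive)
    (hfin : {g : ℝ | 0 < g ∧ Odd (analyticOrderNatAt (LX.Lf χ1) (1 / 2 + g * I) +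
      analyticOrderNatAt (LX.Lf χ2) (1 / 2 + g * I) + analyticOrderNatAt L (1 / 2 + g * I))}.Finite) :
    ∃ T0 : ℝ, 0 < T0 ∧ ((∀ t, T0 < t → 0 ≤ FF.ZZ χ1 t * FF.ZZ χ2 t * Zf L v t) ∨
        (∀ t, T0 < t → FF.ZZ χ1 t * FF.ZZ χ2 t * Zf L v t ≤ 0)) := by
  obtain ⟨T0, hT0, hev⟩ : ∃ T0 : ℝ, 0 < T0 ∧ ∀ t : ℝ, T0 < t → Even (analyticOrderNatAt (LX.Lf χ1) (1 / 2 + t * I) +
      analyticOrderNatAt (LX.Lf χ2) (1 / 2 + t * I) + analyticOrderNatAt L (1 / 2 + t * I)) := by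
    obtain ⟨M, hM⟩ := hfin.bddAbove
    refine ⟨max M 1, lt_of_lt_of_le one_pos (le_max_right _ _), ?_⟩
    intro t ht
    by_contra hodd
    rw [Nat.not_even_iff_odd] at hodd
    have hmem := hM (show t ∈ {g : ℝ | 0 < g ∧ Odd (analyticOrderNatAt (LX.Lf χ1) (1 / 2 + g * I) +
      analyticOrderNatAt (LX.Lf χ2) (1 / 2 + g * I) + analyticOrderNatAt L (1 / 2 + g * I))} from
        ⟨lt_of_lt_of_le one_pos ((le_max_right M 1).trans ht.le), hodd⟩)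
    exact absurd (lt_of_le_of_lt (le_max_left M 1) ht) (not_lt.mpr hmem)
  refine ⟨T0, hT0, ?_⟩
  obtain ⟨n1, c1, i1⟩ := TT.uu_all h1
  obtain ⟨n2, c2, i2⟩ := TT.uu_all h2
  have hre : ∀ z : ℂ, z.im = 0 → ((z.re : ℝ) : ℂ) = z := by
    intro z hz
    apply Complex.ext
    · simp
    · simp [hz]
  have hvc : Continuous v := hp.cv
  have hv0 : ∀ t, v t ≠ 0 := by
    intro t h
    have := hp.nv t
    rw [h, norm_zero] at this
    norm_num at this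
  have hZv : ∀ t : ℝ, ((Zf L v t : ℝ) : ℂ) = v t * L (1 / 2 + t * I) := fun t => (Zf_abs hp t).2
  have key : ∀ b : ℝ, (∀ t ∈ Ioo T0 b, 0 ≤ FF.ZZ χ1 t * FF.ZZ χ2 t * Zf L v t) ∨
      (∀ t ∈ Ioo T0 b, FF.ZZ χ1 t * FF.ZZ χ2 t * Zf L v t ≤ 0) := by
    intro b
    refine OO.F_sign (LX.Lf χ1 * LX.Lf χ2 * L)
      (fun t => LX.uu χ1 t * LX.uu χ2 t * v t)
      (fun t => FF.ZZ χ1 t * FF.ZZ χ2 t * Zf L v t) ((c1.mul c2).mul hvc) ?_ ?_
      (fun t => (M16_orders D χ1 χ2 t).1) (fun t => (M16_orders D χ1 χ2 t).2.1) T0 b ?_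
    · intro t
      have e1 : LX.uu χ1 t ≠ 0 := by
        intro h; have := n1 t; rw [h] at this; simp at this
      have e2 : LX.uu χ2 t ≠ 0 := by
        intro h; have := n2 t; rw [h] at this; simp at this
      exact mul_ne_zero (mul_ne_zero e1 e2) (hv0 t)
    · intro t
      simp only [FF.ZZ]
      rw [ofReal_mul, ofReal_mul, hre _ (i1 t), hre _ (i2 t), hZv t]
      show _ = LX.uu χ1 t * LX.uu χ2 t * v t *
        (LX.Lf χ1 (1 / 2 + t * I) * LX.Lf χ2 (1 / 2 + t * I) * L (1 / 2 + t * I))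
      ring
    · intro t ht
      rw [(M16_orders D χ1 χ2 t).2.2]
      exact hev t ht.1
  by_contra hcon
  push Not at hcon
  obtain ⟨⟨a', ha, ha'⟩, b, hb, hb'⟩ := hcon
  rcases key (max a' b + 1) with h | h
  · exact absurd (h a' ⟨ha, lt_of_le_of_lt (le_max_left a' b) (lt_add_one _)⟩) (not_le.mpr ha')
  · exact absurd (h b ⟨hb, lt_of_le_of_lt (le_max_right a' b) (lt_add_one _)⟩) (not_le.mpr hb')

end NR
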