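import Pool.Agent.Lib.MP_0f5a55_nt.NR.M10
import Pool.Agent.Lib.MP_0f5a55_nt.NR.M16
import Pool.Agent.Lib.MP_0f5a55_nt.NR.E1
import Pool.Agent.Lib.MP_0f5a55_nt.FF.F05

open Complex MeasureTheory Set Filter Topology
open scoped Real ComplexConjugate

namespace NR

open NH II

theorem M17_nre (θ ε x : ℝ) (n : ℕ) : (-(2 * π * θ * ((n : ℂ) + 1) * x * om ε)).re =
    -(2 * π * θ * ((n : ℝ) + 1) * x * Real.sin ε) := by
  have h : (-(2 * π * θ * ((n : ℂ) + 1) * x * om ε)) =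
      (((-(2 * π * θ * ((n : ℝ) + 1) * x)) : ℝ) : ℂ) * om ε := by
    push_cast; ring
  rw [h, re_ofReal_mul, om_eq, add_re, ofReal_re, re_ofReal_mul, I_re, mul_zero, add_zero]
  ring

theorem M17_cont {θ ε : ℝ} (hθ : 0 < θ) (h0 : 0 < ε) (he : ε ≤ 1 / 2) {a : ℕ → ℂ}
    (ha : ∀ n : ℕ, ‖a n‖ ≤ n) : Continuous (fun u : ℝ => FE a θ ε (Real.exp u)) := by
  rw [continuous_iff_continuousAt]
  intro u0
  have hs : 0 < Real.sin ε := TT.sin_pos' h0 he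
  obtain ⟨c, hc⟩ : ∃ c : ℝ, c = 2 * π * θ * Real.exp (u0 - 1) * Real.sin ε := ⟨_, rfl⟩
  have hc0 : 0 < c := by rw [hc]; positivity
  have hsum : Summable (fun n : ℕ => ((n + 1 : ℕ) : ℝ) * Real.exp (-c * ((n + 1 : ℕ) : ℝ))) := by
    have h1 := (Real.summable_pow_mul_exp_neg_nat_mul 1 hc0)
    have h2 := (summable_nat_add_iff 1).mpr h1
    refine h2.congr (fun n => ?_)
    rw [pow_one]
  have hco : ContinuousOn (fun u : ℝ => FE a θ ε (Real.exp u)) (Ioi (u0 - 1)) := by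
    unfold FE
    refine continuousOn_tsum (fun n => ?_) hsum (fun n u hu => ?_)
    · apply Continuous.continuousOn
      fun_prop
    · rw [norm_mul, Complex.norm_exp, M17_nre]
      refine mul_le_mul (ha (n + 1)) (Real.exp_le_exp.mpr ?_) (Real.exp_pos _).le (Nat.cast_nonneg _)
      have h3 : Real.exp (u0 - 1) ≤ Real.exp u := Real.exp_le_exp.mpr (le_of_lt hu)
      have h4 : 0 ≤ 2 * π * θ * ((n : ℝ) + 1) * Real.sin ε := by positivity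
      have h5 := mul_le_mul_of_nonneg_left h3 h4
      rw [hc]
      push_cast
      linarith
  exact hco.continuousAt (Ioi_mem_nhds (by linarith))

theorem M17_sq : Summable (fun n : ℕ => (((n : ℝ) + 1) ^ 2)⁻¹) := by
  have h := (summable_nat_add_iff 1).mpr (Real.summable_one_div_nat_pow.mpr (by norm_num : 1 < 2))
  refine h.congr (fun n => ?_)
  push_cast
  rw [one_div]

theorem M17_maj {θ ε : ℝ} (hθ : 0 < θ) (h0 : 0 < ε) (he : ε ≤ 1 / 2) {α : ℕ → ℝ}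
    (h1 : ∀ n, 0 ≤ α n) (h2 : ∀ n : ℕ, α n ≤ n) (k : ℕ) :
    Summable (fun x : ℕ × ℕ => α (x.1 + 1) * α (x.2 + 1) *
        ((1 + ‖((Real.exp k : ℝ) : ℂ) * zz θ θ ε (x.1 + 1) (x.2 + 1)‖) ^ 12)⁻¹) := by
  have hs : 0 < Real.sin ε := TT.sin_pos' h0 he
  have hprod : Summable (fun x : ℕ × ℕ => (((x.1 : ℝ) + 1) ^ 2)⁻¹ * (((x.2 : ℝ) + 1) ^ 2)⁻¹) :=
    M17_sq.mul_of_nonneg M17_sq (fun n => by positivity) (fun n => by positivity)
  refine Summable.of_nonneg_of_le (fun x => ?_) (fun x => ?_)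
    (hprod.mul_left (((Real.sin ε * θ) ^ 12)⁻¹))
  · have := h1 (x.1 + 1)
    have := h1 (x.2 + 1)
    positivity
  · obtain ⟨n, m⟩ := x
    show α (n + 1) * α (m + 1) * ((1 + ‖((Real.exp k : ℝ) : ℂ) * zz θ θ ε (n + 1) (m + 1)‖) ^ 12)⁻¹ ≤
      ((Real.sin ε * θ) ^ 12)⁻¹ * ((((n : ℝ) + 1) ^ 2)⁻¹ * (((m : ℝ) + 1) ^ 2)⁻¹)
    have an := h2 (n + 1)
    have am := h2 (m + 1)
    push_cast at an am
    have hn : (1 : ℝ) ≤ (n : ℝ) + 1 := by linarith [(Nat.cast_nonneg n : (0 : ℝ) ≤ n)]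
    have hm : (1 : ℝ) ≤ (m : ℝ) + 1 := by linarith [(Nat.cast_nonneg m : (0 : ℝ) ≤ m)]
    have hz : Real.sin ε * θ * (((n : ℝ) + 1) + ((m : ℝ) + 1)) ≤
        1 + ‖((Real.exp k : ℝ) : ℂ) * zz θ θ ε (n + 1) (m + 1)‖ := by
      have e1 : Real.sin ε * θ * (((n : ℝ) + 1) + ((m : ℝ) + 1)) = (zz θ θ ε (n + 1) (m + 1)).re := by
        rw [zz_re]
        push_cast
        ring
      have e2 : (zz θ θ ε (n + 1) (m + 1)).re ≤ ‖zz θ θ ε (n + 1) (m + 1)‖ := Complex.re_le_norm _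
      have e3 : ‖((Real.exp k : ℝ) : ℂ) * zz θ θ ε (n + 1) (m + 1)‖ =
          Real.exp k * ‖zz θ θ ε (n + 1) (m + 1)‖ := by
        rw [norm_mul, Complex.norm_real, Real.norm_of_nonneg (Real.exp_pos _).le]
      have e4 : (1 : ℝ) ≤ Real.exp k := Real.one_le_exp (Nat.cast_nonneg _)
      have e5 : ‖zz θ θ ε (n + 1) (m + 1)‖ ≤ Real.exp k * ‖zz θ θ ε (n + 1) (m + 1)‖ :=
        le_mul_of_one_le_left (norm_nonneg _) e4
      rw [e1, e3]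
      linarith
    have hc : 0 < Real.sin ε * θ := by positivity
    have hp : 0 ≤ α (n + 1) * α (m + 1) := mul_nonneg (h1 _) (h1 _)
    have hq : α (n + 1) * α (m + 1) ≤ ((n : ℝ) + 1) * ((m : ℝ) + 1) :=
      mul_le_mul an am (h1 _) (by positivity)
    revert hz hq hp hc
    generalize α (n + 1) * α (m + 1) = A
    generalize ‖((Real.exp k : ℝ) : ℂ) * zz θ θ ε (n + 1) (m + 1)‖ = Z
    revert hn hm
    generalize (n : ℝ) + 1 = N
    generalize (m : ℝ) + 1 = M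
    generalize Real.sin ε * θ = c
    intro hn hm hz hc hp hq
    have hNM : 1 ≤ N * M := one_le_mul_of_one_le_of_one_le hn hm
    have h5 : c ^ 12 * (N * M) ^ 6 ≤ (1 + Z) ^ 12 := by
      have h6 : N * M ≤ (N + M) ^ 2 := by nlinarith
      calc c ^ 12 * (N * M) ^ 6 ≤ c ^ 12 * ((N + M) ^ 2) ^ 6 :=
            mul_le_mul_of_nonneg_left (pow_le_pow_left₀ (by positivity) h6 6) (by positivity)
        _ = (c * (N + M)) ^ 12 := by ring
        _ ≤ (1 + Z) ^ 12 := pow_le_pow_left₀ (by positivity) hz 12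
    have h7 : ((1 + Z) ^ 12)⁻¹ ≤ (c ^ 12 * (N * M) ^ 6)⁻¹ := inv_anti₀ (by positivity) h5
    have h8 : (N * M) ^ 3 ≤ (N * M) ^ 6 := pow_le_pow_right₀ hNM (by norm_num)
    calc A * ((1 + Z) ^ 12)⁻¹ ≤ (N * M) * (c ^ 12 * (N * M) ^ 6)⁻¹ :=
          mul_le_mul hq h7 (inv_nonneg.mpr (by
            have : 0 ≤ 1 + Z := le_trans (by positivity) hz
            positivity)) (by positivity)
      _ ≤ (N * M) * (c ^ 12 * (N * M) ^ 3)⁻¹ := by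
          refine mul_le_mul_of_nonneg_left (inv_anti₀ (by positivity) ?_) (by positivity)
          exact mul_le_mul_of_nonneg_left h8 (by positivity)
      _ = (c ^ 12)⁻¹ * ((N ^ 2)⁻¹ * (M ^ 2)⁻¹) := by
          have hN : N ≠ 0 := by positivity
          have hM : M ≠ 0 := by positivity
          field_simp

theorem M17_large : ∃ C : ℝ, 0 ≤ C ∧ ∀ α : ℕ → ℝ, (∀ n, 0 ≤ α n) → (∀ n : ℕ, α n ≤ n) →
    ∀ w : ℝ, 0 < w →
    ∑' n : ℕ, α (n + 1) ^ 2 * ((1 + w * ((n : ℝ) + 1)) ^ 4)⁻¹ ≤ C * (w ^ 4)⁻¹ := by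
  refine ⟨∑' n : ℕ, (((n : ℝ) + 1) ^ 2)⁻¹, tsum_nonneg (fun i => by positivity), ?_⟩
  intro α h1 h2 w hw
  have hb : ∀ n : ℕ, α (n + 1) ^ 2 * ((1 + w * ((n : ℝ) + 1)) ^ 4)⁻¹ ≤
      (((n : ℝ) + 1) ^ 2)⁻¹ * (w ^ 4)⁻¹ := by
    intro n
    have h3 : α (n + 1) ≤ (n : ℝ) + 1 := by have := h2 (n + 1); push_cast at this; exact this
    have h4 : α (n + 1) ^ 2 ≤ ((n : ℝ) + 1) ^ 2 := pow_le_pow_left₀ (h1 _) h3 2
    have h5 : (w * ((n : ℝ) + 1)) ^ 4 ≤ (1 + w * ((n : ℝ) + 1)) ^ 4 :=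
      pow_le_pow_left₀ (by positivity) (by linarith) 4
    calc _ ≤ ((n : ℝ) + 1) ^ 2 * ((w * ((n : ℝ) + 1)) ^ 4)⁻¹ :=
          mul_le_mul h4 (inv_anti₀ (by positivity) h5) (by positivity) (by positivity)
      _ = (((n : ℝ) + 1) ^ 2)⁻¹ * (w ^ 4)⁻¹ := by
          have : (n : ℝ) + 1 ≠ 0 := by positivity
          field_simp
  rw [← tsum_mul_right]
  exact Summable.tsum_le_tsum hb (Summable.of_nonneg_of_le (fun n => by positivity) hb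
    (M17_sq.mul_right _)) (M17_sq.mul_right _)

theorem M17_BKeq (a : ℕ → ℂ) (θ ε : ℝ) (k : ℕ) : BK a a θ θ ε k =
    ((∫ u : ℝ, TT.phi (u - k) * Real.exp u * ‖FE a θ ε (Real.exp u)‖ ^ 2 : ℝ) : ℂ) := by
  unfold BK
  refine Eq.trans ?_ (integral_ofReal (𝕜 := ℂ) (μ := volume)
    (f := fun u : ℝ => TT.phi (u - k) * Real.exp u * ‖FE a θ ε (Real.exp u)‖ ^ 2))
  refine integral_congr_ae (Eventually.of_forall (fun u => ?_))
  show ((TT.phi (u - k) * Real.exp u : ℝ) : ℂ) * FE a θ ε (Real.exp u) * conj (FE a θ ε (Real.exp u)) =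
    ((TT.phi (u - k) * Real.exp u * ‖FE a θ ε (Real.exp u)‖ ^ 2 : ℝ) : ℂ)
  rw [mul_assoc, Complex.mul_conj']
  push_cast
  ring

theorem M17_piece {a : ℕ → ℂ} (ha : ∀ n : ℕ, ‖a n‖ ≤ n) {θ : ℝ} (hθ : 0 < θ) : ∃ C : ℝ, 0 ≤ C ∧ ∀ ε : ℝ, 0 < ε → ε ≤ 1 / 2 →
      ∀ k : ℕ, ∫ u : ℝ, TT.phi (u - k) * Real.exp u * ‖FE (a) θ ε (Real.exp u)‖ ^ 2 ≤
        C * (Real.exp k * ∑' n : ℕ, ‖a (n + 1)‖ ^ 2 * ((1 + Real.exp k * ε * ((n : ℝ) + 1)) ^ 4)⁻¹) := by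
  obtain ⟨C1, hC1, B1⟩ := Xi_bound 12
  obtain ⟨C2, hC2, B2⟩ := schur hθ hθ
  refine ⟨C1 * C2, mul_nonneg hC1 hC2, ?_⟩
  intro ε h0 he k
  have hs : 0 < Real.sin ε := TT.sin_pos' h0 he
  have h1 : ∫ u : ℝ, TT.phi (u - k) * Real.exp u * ‖FE (a) θ ε (Real.exp u)‖ ^ 2 ≤
      ‖BK (a) (a) θ θ ε k‖ := by
    rw [M17_BKeq, Complex.norm_real]
    exact Real.le_norm_self _
  obtain ⟨hsum, hle⟩ := BK_le hθ hθ h0 he ha ha k
  have hmaj := M17_maj hθ h0 he (α := fun n => ‖a n‖) (fun n => norm_nonneg _) ha k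
  have h2 : ∑' x : ℕ × ℕ, ‖a (x.1 + 1)‖ * ‖a (x.2 + 1)‖ *
      ‖Xi (((Real.exp k : ℝ) : ℂ) * zz θ θ ε (x.1 + 1) (x.2 + 1))‖ ≤
      C1 * ∑' x : ℕ × ℕ, ‖a (x.1 + 1)‖ * ‖a (x.2 + 1)‖ *
        ((1 + ‖((Real.exp k : ℝ) : ℂ) * zz θ θ ε (x.1 + 1) (x.2 + 1)‖) ^ 12)⁻¹ := by
    rw [← tsum_mul_left]
    refine Summable.tsum_le_tsum (fun x => ?_) hsum (hmaj.mul_left C1)
    have hre : 0 ≤ (((Real.exp k : ℝ) : ℂ) * zz θ θ ε (x.1 + 1) (x.2 + 1)).re := by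
      rw [re_ofReal_mul, zz_re]
      positivity
    have h3 := B1 _ hre
    have h4 : 0 ≤ ‖a (x.1 + 1)‖ * ‖a (x.2 + 1)‖ := by positivity
    have h5 := mul_le_mul_of_nonneg_left h3 h4
    refine h5.trans (le_of_eq ?_)
    ring
  have h6 := B2 (fun n => ‖a n‖) (fun n => ‖a n‖) (fun n => norm_nonneg _)
    (fun n => norm_nonneg _) ha ha ε h0 he k
  rw [Real.mul_self_sqrt (tsum_nonneg (fun n => by positivity))] at h6
  have h7 : (0 : ℝ) < Real.exp k := Real.exp_pos _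
  calc _ ≤ ‖BK (a) (a) θ θ ε k‖ := h1
    _ ≤ _ := hle
    _ ≤ Real.exp k * (C1 * (C2 * ∑' n : ℕ, ‖a (n + 1)‖ ^ 2 *
          ((1 + Real.exp k * ε * ((n : ℝ) + 1)) ^ 4)⁻¹)) :=
        mul_le_mul_of_nonneg_left (h2.trans (mul_le_mul_of_nonneg_left h6 hC1)) h7.le
    _ = _ := by ring

/-- nonnegative sequence with two-regime bound -/
theorem M17_total (b : ℕ → ℝ) (hb : ∀ k, 0 ≤ b k) (K : ℕ) (A1 A2 : ℝ) (hA2 : 0 ≤ A2)
    (h1 : ∀ k, k ≤ K → b k ≤ A1) (h2 : ∀ j : ℕ, b (j + (K + 1)) ≤ A2 * (Real.exp (-3)) ^ j) :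
    Summable b ∧ ∑' k, b k ≤ ((K : ℝ) + 1) * A1 + 2 * A2 := by
  have hr : Real.exp (-3) < 1 / 2 := by
    have h3 : Real.exp (-3) = (Real.exp 3)⁻¹ := Real.exp_neg 3
    have h4 : (3 : ℝ) + 1 ≤ Real.exp 3 := Real.add_one_le_exp 3
    rw [h3, inv_lt_comm₀ (Real.exp_pos 3) (by norm_num)]
    linarith
  have hr0 := Real.exp_pos (-3)
  have hg : Summable (fun j : ℕ => A2 * (Real.exp (-3)) ^ j) :=
    (summable_geometric_of_lt_one hr0.le (by linarith)).mul_left A2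
  have hs1 : Summable (fun j : ℕ => b (j + (K + 1))) :=
    Summable.of_nonneg_of_le (fun j => hb _) h2 hg
  have hs : Summable b := (summable_nat_add_iff (K + 1)).mp hs1
  refine ⟨hs, ?_⟩
  rw [← hs.sum_add_tsum_nat_add (K + 1)]
  have h5 : ∑ i ∈ Finset.range (K + 1), b i ≤ ((K : ℝ) + 1) * A1 := by
    have h6 := Finset.sum_le_card_nsmul (Finset.range (K + 1)) b A1
      (fun k hk => h1 k (by have := Finset.mem_range.mp hk; omega))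
    rw [Finset.card_range, nsmul_eq_mul] at h6
    push_cast at h6
    exact h6
  have h7 : ∑' j : ℕ, b (j + (K + 1)) ≤ 2 * A2 := by
    refine (Summable.tsum_le_tsum h2 hs1 hg).trans ?_
    rw [tsum_mul_left, tsum_geometric_of_lt_one hr0.le (by linarith), mul_comm]
    refine mul_le_mul_of_nonneg_right ?_ hA2
    rw [inv_le_comm₀ (by linarith) (by norm_num)]
    linarith
  linarith

theorem M17_FE_sq {a : ℕ → ℂ} (ha : ∀ n : ℕ, ‖a n‖ ≤ n)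
    (BA0 : ∃ C : ℝ, 0 ≤ C ∧ ∀ w : ℝ, 0 < w → w ≤ 1 →
      ∑' n : ℕ, ‖a (n + 1)‖ ^ 2 * ((1 + w * ((n : ℝ) + 1)) ^ 4)⁻¹ ≤ C * w⁻¹ * (1 + Real.log w⁻¹) ^ 3)
    {θ : ℝ} (hθ : 0 < θ) : ∃ C : ℝ, 0 ≤ C ∧ ∀ ε : ℝ, 0 < ε → ε ≤ 1 / 2 →
      Integrable (fun u : ℝ => TT.tau u * Real.exp u * ‖FE (a) θ ε (Real.exp u)‖ ^ 2) ∧
      ∫ u : ℝ, TT.tau u * Real.exp u * ‖FE (a) θ ε (Real.exp u)‖ ^ 2 ≤
        C * ε⁻¹ * (1 + Real.log (1 / ε)) ^ 5 := by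
  obtain ⟨C0, hC0, B0⟩ := M17_piece ha hθ
  obtain ⟨CA, hCA, BA⟩ := BA0
  obtain ⟨CB, hCB, BB⟩ := M17_large
  refine ⟨C0 * CA + 2 * (C0 * CB), by positivity, ?_⟩
  intro ε h0 he
  have hcont := M17_cont hθ h0 he ha
  obtain ⟨F, hF⟩ : ∃ F : ℕ → ℝ → ℝ, F = fun (k : ℕ) (u : ℝ) => TT.phi (u - (k : ℝ)) * Real.exp u *
    ‖FE (a) θ ε (Real.exp u)‖ ^ 2 := ⟨_, rfl⟩
  have hF0 : ∀ k u, 0 ≤ F k u := by
    intro k u
    rw [hF]
    have := TT.phi_nonneg (u - k)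
    positivity
  have hFc : ∀ k, Continuous (F k) := by
    intro k
    rw [hF]
    have := TT.phi_cont
    fun_prop
  have hFi : ∀ k, Integrable (F k) := by
    intro k
    refine (hFc k).integrable_of_hasCompactSupport ?_
    refine HasCompactSupport.intro (isCompact_Icc (a := (k : ℝ) - 1) (b := k + 2)) (fun u hu => ?_)
    rw [Set.mem_Icc, not_and_or, not_le, not_le] at hu
    rw [hF]
    rcases hu with h | h
    · show TT.phi (u - k) * _ * _ = 0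
      rw [TT.phi_zero_left (by linarith), zero_mul, zero_mul]
    · show TT.phi (u - k) * _ * _ = 0
      rw [TT.phi_zero_right (by linarith), zero_mul, zero_mul]
  obtain ⟨b, hbdef⟩ : ∃ b : ℕ → ℝ, b = fun k => ∫ u, F k u := ⟨_, rfl⟩
  have hb0 : ∀ k, 0 ≤ b k := by
    intro k
    rw [hbdef]
    exact integral_nonneg (hF0 k)
  have hbk : ∀ k, b k ≤ C0 * (Real.exp k * ∑' n : ℕ, ‖a (n + 1)‖ ^ 2 *
      ((1 + Real.exp k * ε * ((n : ℝ) + 1)) ^ 4)⁻¹) := by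
    intro k
    rw [hbdef, hF]
    exact B0 ε h0 he k
  have hT1 : 1 ≤ ε⁻¹ := (one_le_inv₀ h0).mpr (by linarith)
  have hlT : 0 ≤ Real.log ε⁻¹ := Real.log_nonneg hT1
  obtain ⟨K, hK⟩ : ∃ K : ℕ, K = ⌊Real.log ε⁻¹⌋₊ := ⟨_, rfl⟩
  have hK1 : (K : ℝ) ≤ Real.log ε⁻¹ := by rw [hK]; exact Nat.floor_le hlT
  have hK2 : Real.log ε⁻¹ < (K : ℝ) + 1 := by rw [hK]; exact Nat.lt_floor_add_one _
  have hTexp : Real.exp (Real.log ε⁻¹) = ε⁻¹ := Real.exp_log (by positivity)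
  have c1 : ∀ k, k ≤ K → b k ≤ C0 * CA * (ε⁻¹ * (1 + Real.log ε⁻¹) ^ 3) := by
    intro k hk
    have hkT : Real.exp k ≤ ε⁻¹ := by
      rw [← hTexp]
      refine Real.exp_le_exp.mpr (le_trans ?_ hK1)
      exact_mod_cast hk
    have hk1 : (1 : ℝ) ≤ Real.exp k := Real.one_le_exp (Nat.cast_nonneg _)
    have hw1 : Real.exp k * ε ≤ 1 := by
      have := mul_le_mul_of_nonneg_right hkT h0.le
      rwa [inv_mul_cancel₀ h0.ne'] at this
    have h3 := BA (Real.exp k * ε)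
      (by positivity) hw1
    have h4 : Real.log (Real.exp k * ε)⁻¹ ≤ Real.log ε⁻¹ := by
      apply Real.log_le_log (by positivity)
      exact inv_anti₀ h0 (le_mul_of_one_le_left h0.le hk1)
    have h5 : 0 ≤ Real.log (Real.exp k * ε)⁻¹ := Real.log_nonneg ((one_le_inv₀ (by positivity)).mpr hw1)
    have h6 : (1 + Real.log (Real.exp k * ε)⁻¹) ^ 3 ≤ (1 + Real.log ε⁻¹) ^ 3 :=
      pow_le_pow_left₀ (by positivity) (by linarith) 3
    have hek := Real.exp_pos (k : ℝ)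
    calc b k ≤ C0 * (Real.exp k * (CA * (Real.exp k * ε)⁻¹ * (1 + Real.log (Real.exp k * ε)⁻¹) ^ 3)) :=
          (hbk k).trans (mul_le_mul_of_nonneg_left (mul_le_mul_of_nonneg_left h3 hek.le) hC0)
      _ = C0 * CA * (ε⁻¹ * (1 + Real.log (Real.exp k * ε)⁻¹) ^ 3) := by
          rw [mul_inv]
          field_simp
      _ ≤ _ := by
          refine mul_le_mul_of_nonneg_left (mul_le_mul_of_nonneg_left h6 (by positivity)) (by positivity)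
  have c2 : ∀ j : ℕ, b (j + (K + 1)) ≤ (C0 * CB * ε⁻¹) * (Real.exp (-3)) ^ j := by
    intro j
    obtain ⟨k, hk⟩ : ∃ k : ℕ, k = j + (K + 1) := ⟨_, rfl⟩
    rw [← hk]
    have hek := Real.exp_pos (k : ℝ)
    have h3 := BB (fun n => ‖a n‖) (fun n => norm_nonneg _) ha (Real.exp k * ε) (by positivity)
    have h4 : ε⁻¹ ^ 3 * (Real.exp k ^ 3)⁻¹ ≤ (Real.exp (-3)) ^ j := by
      have h5 : ε⁻¹ ≤ Real.exp ((K : ℝ) + 1) := by
        rw [← hTexp]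
        exact Real.exp_le_exp.mpr hK2.le
      calc ε⁻¹ ^ 3 * (Real.exp k ^ 3)⁻¹ ≤ Real.exp ((K : ℝ) + 1) ^ 3 * (Real.exp k ^ 3)⁻¹ :=
            mul_le_mul_of_nonneg_right (pow_le_pow_left₀ (by positivity) h5 3) (by positivity)
        _ = (Real.exp (-3)) ^ j := by
            rw [← Real.exp_nat_mul, ← Real.exp_nat_mul, ← Real.exp_nat_mul, ← Real.exp_neg, ← Real.exp_add,
              hk]
            congr 1
            push_cast
            ring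
    calc b k ≤ C0 * (Real.exp k * (CB * ((Real.exp k * ε) ^ 4)⁻¹)) :=
          (hbk k).trans (mul_le_mul_of_nonneg_left (mul_le_mul_of_nonneg_left h3 hek.le) hC0)
      _ = (C0 * CB * ε⁻¹) * (ε⁻¹ ^ 3 * (Real.exp k ^ 3)⁻¹) := by
          have := hek.ne'
          field_simp
      _ ≤ _ := mul_le_mul_of_nonneg_left h4 (by positivity)
  obtain ⟨hbs, hbt⟩ := M17_total b hb0 K _ _ (by positivity) c1 c2
  have hGF : ∀ u : ℝ, HasSum (fun k => F k u) (TT.tau u * Real.exp u *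
      ‖FE (a) θ ε (Real.exp u)‖ ^ 2) := by
    intro u
    rw [hF]
    exact ((TT.phi_hasSum u).mul_right _).mul_right _
  have hGc : Continuous (fun u : ℝ => TT.tau u * Real.exp u * ‖FE (a) θ ε (Real.exp u)‖ ^ 2) := by
    have := TT.tau_cont
    fun_prop
  have hint : Integrable (fun u : ℝ => TT.tau u * Real.exp u * ‖FE (a) θ ε (Real.exp u)‖ ^ 2) := by
    refine ⟨hGc.aestronglyMeasurable, ?_⟩
    rw [hasFiniteIntegral_iff_ofReal (Eventually.of_forall (fun u => by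
      have := TT.tau_nonneg u
      positivity))]
    have h3 : ∀ u : ℝ, ENNReal.ofReal (TT.tau u * Real.exp u * ‖FE (a) θ ε (Real.exp u)‖ ^ 2) =
        ∑' k, ENNReal.ofReal (F k u) := by
      intro u
      rw [← (hGF u).tsum_eq, ENNReal.ofReal_tsum_of_nonneg (fun k => hF0 k u) (hGF u).summable]
    rw [lintegral_congr h3, lintegral_tsum (fun k => (hFc k).measurable.ennreal_ofReal.aemeasurable)]
    have h4 : ∀ k, ∫⁻ u, ENNReal.ofReal (F k u) = ENNReal.ofReal (b k) := by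
      intro k
      rw [hbdef, ofReal_integral_eq_lintegral_ofReal (hFi k) (Eventually.of_forall (hF0 k))]
    rw [tsum_congr h4, ← ENNReal.ofReal_tsum_of_nonneg hb0 hbs]
    exact ENNReal.ofReal_lt_top
  refine ⟨hint, ?_⟩
  have hsn : Summable (fun k => ∫ u, ‖F k u‖) := by
    refine hbs.congr (fun k => ?_)
    rw [hbdef]
    refine integral_congr_ae (Eventually.of_forall (fun u => ?_))
    exact (Real.norm_of_nonneg (hF0 k u)).symm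
  have hI := (hasSum_integral_of_summable_integral_norm hFi hsn).tsum_eq
  have hI2 : ∫ u : ℝ, TT.tau u * Real.exp u * ‖FE (a) θ ε (Real.exp u)‖ ^ 2 = ∑' k, b k := by
    rw [hbdef, hI]
    refine integral_congr_ae (Eventually.of_forall (fun u => ?_))
    exact (hGF u).tsum_eq.symm
  rw [hI2, one_div]
  refine hbt.trans ?_
  obtain ⟨L, hL⟩ : ∃ L : ℝ, L = 1 + Real.log ε⁻¹ := ⟨_, rfl⟩
  have hL1 : 1 ≤ L := by rw [hL]; linarith
  have hKL : (K : ℝ) + 1 ≤ L := by rw [hL]; linarith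
  rw [← hL]
  have h9 : (L : ℝ) ^ 4 ≤ L ^ 5 := pow_le_pow_right₀ hL1 (by norm_num)
  have h10 : (1 : ℝ) ≤ L ^ 5 := one_le_pow₀ hL1
  have e1 : ((K : ℝ) + 1) * (C0 * CA * (ε⁻¹ * L ^ 3)) ≤ C0 * CA * ε⁻¹ * L ^ 5 := by
    calc ((K : ℝ) + 1) * (C0 * CA * (ε⁻¹ * L ^ 3)) ≤ L * (C0 * CA * (ε⁻¹ * L ^ 3)) :=
          mul_le_mul_of_nonneg_right hKL (by positivity)
      _ = C0 * CA * ε⁻¹ * L ^ 4 := by ring
      _ ≤ _ := mul_le_mul_of_nonneg_left h9 (by positivity)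
  have e2 : 2 * (C0 * CB * ε⁻¹) ≤ 2 * (C0 * CB * ε⁻¹) * L ^ 5 :=
    le_mul_of_one_le_right (by positivity) h10
  calc _ ≤ C0 * CA * ε⁻¹ * L ^ 5 + 2 * (C0 * CB * ε⁻¹) * L ^ 5 := add_le_add e1 e2
    _ = _ := by ring

theorem M17_tht_pos {N : ℕ} (hN : 0 < N) : 0 < FF.tht N 1 := by
  unfold FF.tht
  have : (0 : ℝ) < N := by exact_mod_cast hN
  positivity

/-- the transform -/
noncomputable def M17_P (N : ℕ) (a : ℕ → ℂ) (ε x : ℝ) : ℂ :=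
  ((Real.exp (x / 2) : ℝ) : ℂ) * FE a (FF.tht N 1) ε (Real.exp x)

theorem M17_G {N : ℕ} {a : ℕ → ℂ} {L : ℂ → ℂ} (D : Dat N a L) {ε : ℝ} (hε : 0 < ε)
    (hε2 : ε ≤ 1 / 2) : FF.F05_G (Rf N L ε) := by
  obtain ⟨C, hC, hb⟩ := Rf_le D
  have hc := Rf_cont D ε
  refine ⟨hc, ?_, ?_⟩
  · refine ((FF.F05_polyexp 6 hε).const_mul C).mono' hc.aestronglyMeasurable (ae_of_all _ fun t => ?_)
    have := (hb ε hε hε2 t).1
    rwa [mul_assoc] at this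
  · refine ((FF.F05_polyexp 12 (by positivity : 0 < 2 * ε)).const_mul (C ^ 2)).mono'
      (Continuous.aestronglyMeasurable (by fun_prop)) (ae_of_all _ fun t => ?_)
    have h := pow_le_pow_left₀ (norm_nonneg _) (hb ε hε hε2 t).1 2
    rw [Real.norm_of_nonneg (by positivity)]
    refine le_trans h (le_of_eq ?_)
    have e : Real.exp (-(2 * ε * |t|)) = Real.exp (-(ε * |t|)) ^ 2 := by
      rw [← Real.exp_nat_mul]; congr 1; push_cast; ring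
    rw [e]
    ring

theorem M17_T {N : ℕ} {a : ℕ → ℂ} {L : ℂ → ℂ} (D : Dat N a L) {ε : ℝ} (h0 : 0 < ε)
    (h1 : ε ≤ 1 / 2) (u : ℝ) :
    FF.F05_T (Rf N L ε) u = M17_P N a ε u := mellin_f D h0 h1 u

noncomputable def M17_a (a : ℕ → ℂ) (n : ℕ) : ℂ := if n = 0 then 0 else a n

theorem M17_aFE (a : ℕ → ℂ) (θ ε x : ℝ) : FE (M17_a a) θ ε x = FE a θ ε x := by
  unfold FE M17_a
  refine tsum_congr (fun n => ?_)
  rw [if_neg (Nat.succ_ne_zero n)]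

theorem M17_a_le {N : ℕ} {a : ℕ → ℂ} {L : ℂ → ℂ} (D : Dat N a L) (n : ℕ) :
    ‖M17_a a n‖ ≤ n := by
  unfold M17_a
  split_ifs with h
  · rw [norm_zero]; exact Nat.cast_nonneg _
  · refine (D.bd n (Nat.pos_of_ne_zero h)).trans ?_
    exact_mod_cast Nat.card_divisors_le_self n

theorem M17_sq2 {N : ℕ} {a : ℕ → ℂ} {L : ℂ → ℂ} (D : Dat N a L) {θ : ℝ} (hθ : 0 < θ) :
    ∃ C : ℝ, 0 ≤ C ∧ ∀ ε : ℝ, 0 < ε → ε ≤ 1 / 2 →
      Integrable (fun u : ℝ => TT.tau u * Real.exp u * ‖FE a θ ε (Real.exp u)‖ ^ 2) ∧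
      ∫ u : ℝ, TT.tau u * Real.exp u * ‖FE a θ ε (Real.exp u)‖ ^ 2 ≤
        C * ε⁻¹ * (1 + Real.log (1 / ε)) ^ 5 := by
  obtain ⟨C, hC, h⟩ := ms_poly D
  have key := M17_FE_sq (M17_a_le D) ⟨C, hC, fun w hw hw1 => ?_⟩ hθ
  · obtain ⟨C', hC', h'⟩ := key
    refine ⟨C', hC', fun ε h0 h1 => ?_⟩
    have := h' ε h0 h1
    simpa only [M17_aFE] using this
  · have h2 := (h w hw).2
    have hwi : 1 ≤ w⁻¹ := (one_le_inv₀ hw).mpr hw1
    have h3 : (1 : ℝ) ≤ (1 + Real.log w⁻¹) ^ 3 :=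
      one_le_pow₀ (by linarith [Real.log_nonneg hwi])
    have e : ∀ n : ℕ, M17_a a (n + 1) = a (n + 1) := fun n => by
      unfold M17_a
      rw [if_neg (Nat.succ_ne_zero n)]
    simp only [e]
    refine h2.trans ?_
    rw [div_eq_mul_inv]
    exact le_mul_of_one_le_right (by positivity) h3

/-- Row M17. Parseval and folding u to -u. -/
theorem parseval_f {N : ℕ} {a : ℕ → ℂ} {L : ℂ → ℂ} (D : Dat N a L) {q1 q2 : ℕ}
    [NeZero q1] [NeZero q2] {χ1 : DirichletCharacter ℂ q1} {χ2 : DirichletCharacter ℂ q2}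
    (h1 : χ1.IsPrimitive) (h2 : χ2.IsPrimitive) (n12 : OO.Ne12 χ1 χ2) : ∃ C : ℝ, 0 ≤ C ∧
    ∀ ε : ℝ, 0 < ε → ε ≤ 1 / 2 → ‖∫ t : ℝ, FF.RR χ1 χ2 ε t * conj (Rf N L ε t)‖ ≤
      C * ‖Jf χ1 χ2 a (FF.tht q1 q2) (FF.tht N 1) ε‖ + C * ε ^ (-(3 / 4 : ℝ)) := by
  obtain ⟨c1, D1, hD1, hc1, hm1⟩ := FF.mellin_pair h1 h2 n12
  obtain ⟨η1, G1, hG1, hη1, hr1⟩ := FF.RR_real h1 h2
  obtain ⟨η2, G2, hG2, hη2, hr2⟩ := Rf_real D
  have q12 : 0 < FF.tht q1 q2 := by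
    have a := Nat.pos_of_ne_zero (NeZero.ne q1)
    have b := Nat.pos_of_ne_zero (NeZero.ne q2)
    unfold FF.tht
    positivity
  have q34 : 0 < FF.tht N 1 := M17_tht_pos D.pos
  obtain ⟨A1, hA1, hs1⟩ := FF.FE_sq χ1 χ2 q12
  obtain ⟨A2, hA2, hs2⟩ := M17_sq2 D q34
  set K := ∫ t : ℝ, (1 + |t|) ^ 12 * Real.exp (-(2 * |t|)) with hK
  have hK0 : 0 ≤ K := integral_nonneg fun t => by positivity
  set E := ∫ u : ℝ, TT.tau u * Real.exp (-u) with hE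
  have hE0 : 0 ≤ E := integral_nonneg fun u => mul_nonneg (TT.tau_nonneg u) (Real.exp_pos _).le
  set c := D1 with hc
  have hc0 : 0 ≤ c := by positivity
  set A0 := (A1 + A2) * 21 ^ 5 with hA0
  have hA00 : 0 ≤ A0 := by positivity
  set B := (G1 ^ 2 + G2 ^ 2) * K with hB
  have hB0 : 0 ≤ B := by positivity
  set DD := 4 * π * (c * A0 + c * E + c ^ 2 * E) + (2 * π * (2 * A0 + 2 * c ^ 2 * E) + 2 * B) with hD
  have hD0 : 0 ≤ DD := by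
    have := Real.pi_pos
    positivity
  refine ⟨4 * π + DD, by positivity, fun ε hε hε2 => ?_⟩
  set δ := √ε with hδ
  have hδ0 : 0 < δ := Real.sqrt_pos.mpr hε
  set w := ε ^ (-(3 / 4 : ℝ)) with hw
  have hw1 : 1 ≤ w := Real.one_le_rpow_of_pos_of_le_one_of_nonpos hε (by linarith) (by norm_num)
  have hδ1 : δ ≤ 1 := by
    rw [hδ]
    exact Real.sqrt_le_one.mpr (by linarith)
  have hδw : δ ≤ w := le_trans hδ1 hw1
  have hδe : δ = ε ^ (1 / 2 : ℝ) := by rw [hδ, Real.sqrt_eq_rpow]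
  have hδi : 1 / δ ≤ w := by
    rw [hδe, one_div, ← Real.rpow_neg hε.le]
    exact Real.rpow_le_rpow_of_exponent_ge hε (by linarith) (by norm_num)
  set A := (A1 + A2) * ε⁻¹ * (1 + Real.log (1 / ε)) ^ 5 with hA
  have hL0 : 0 ≤ Real.log (1 / ε) := by
    refine Real.log_nonneg ?_
    rw [le_div_iff₀ hε]
    linarith
  have hδA : δ * A ≤ A0 * w := by
    have h := FF.F05_log hε hε2
    have e : w = ε ^ (1 / 2 : ℝ) * ε⁻¹ * ε ^ (-(1 / 4 : ℝ)) := by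
      rw [← Real.rpow_neg_one ε, ← Real.rpow_add hε, ← Real.rpow_add hε, hw]
      congr 1
      norm_num
    calc δ * A = (A1 + A2) * (δ * ε⁻¹) * (1 + Real.log (1 / ε)) ^ 5 := by rw [hA]; ring
      _ ≤ (A1 + A2) * (δ * ε⁻¹) * (21 ^ 5 * ε ^ (-(1 / 4 : ℝ))) := by gcongr
      _ = A0 * w := by rw [e, ← hδe, hA0]; ring
  -- the two squares
  have sq_id : ∀ (f : ℝ → ℂ), (fun u : ℝ => TT.tau u *
      ‖((Real.exp (u / 2) : ℝ) : ℂ) * f u‖ ^ 2) = fun u => TT.tau u * Real.exp u * ‖f u‖ ^ 2 := by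
    intro f
    funext u
    have e : Real.exp u = Real.exp (u / 2) ^ 2 := by
      rw [← Real.exp_nat_mul]; congr 1; push_cast; ring
    rw [norm_mul, Complex.norm_real, Real.norm_of_nonneg (Real.exp_pos _).le, e]
    ring
  have i1 : Integrable (fun u : ℝ => TT.tau u * ‖((Real.exp (u / 2) : ℝ) : ℂ) *
      FE (cv χ1 χ2) (FF.tht q1 q2) ε (Real.exp u)‖ ^ 2) := by
    rw [sq_id]; exact (hs1 ε hε hε2).1
  have i2 : Integrable (fun u : ℝ => TT.tau u * ‖((Real.exp (u / 2) : ℝ) : ℂ) *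
      FE a (FF.tht N 1) ε (Real.exp u)‖ ^ 2) := by
    rw [sq_id]; exact (hs2 ε hε hε2).1
  have hpos : 0 ≤ ε⁻¹ * (1 + Real.log (1 / ε)) ^ 5 := by positivity
  have a1 : ∫ u : ℝ, TT.tau u * ‖((Real.exp (u / 2) : ℝ) : ℂ) *
      FE (cv χ1 χ2) (FF.tht q1 q2) ε (Real.exp u)‖ ^ 2 ≤ A := by
    rw [sq_id]
    refine le_trans (hs1 ε hε hε2).2 ?_
    rw [hA, mul_assoc, mul_assoc]
    exact mul_le_mul_of_nonneg_right (by linarith) hpos
  have a2 : ∫ u : ℝ, TT.tau u * ‖((Real.exp (u / 2) : ℝ) : ℂ) *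
      FE a (FF.tht N 1) ε (Real.exp u)‖ ^ 2 ≤ A := by
    rw [sq_id]
    refine le_trans (hs2 ε hε hε2).2 ?_
    rw [hA, mul_assoc, mul_assoc]
    exact mul_le_mul_of_nonneg_right (by linarith) hpos
  have b1 : ∫ t, ‖FF.RR χ1 χ2 ε t - η1 ε * conj (FF.RR χ1 χ2 ε t)‖ ^ 2 ≤ B := by
    refine le_trans (FF.F05_real (FF.RR_cont χ1 χ2 ε) (hr1 ε hε hε2)) ?_
    rw [hB]
    exact mul_le_mul_of_nonneg_right (le_add_of_nonneg_right (sq_nonneg _)) hK0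
  have b2 : ∫ t, ‖Rf N L ε t - η2 ε * conj (Rf N L ε t)‖ ^ 2 ≤ B := by
    refine le_trans (FF.F05_real (Rf_cont D ε) (hr2 ε hε hε2)) ?_
    rw [hB]
    exact mul_le_mul_of_nonneg_right (le_add_of_nonneg_left (sq_nonneg _)) hK0
  have hm2 : ∀ u, FF.F05_T (Rf N L ε) u = M17_P N a ε u -
      (0 : ℂ) * ((Real.exp (-(u / 2)) : ℝ) : ℂ) := by
    intro u
    rw [M17_T D hε hε2 u, zero_mul, sub_zero]
  have fold := FF.F05_fold (FF.F05_G_RR χ1 χ2 hε hε2) (M17_G D hε hε2) (hη1 ε) (hη2 ε) hδ0 hc0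
    (hc1 ε) (by rw [norm_zero]; exact hc0) (hm1 ε hε hε2)
    hm2 i1 i2 a1 a2 b1 b2 hE.symm
  have eJ : ∫ u : ℝ, ((TT.tau u : ℝ) : ℂ) * (((Real.exp (u / 2) : ℝ) : ℂ) *
      FE (cv χ1 χ2) (FF.tht q1 q2) ε (Real.exp u) * conj (M17_P N a ε u)) =
      Jf χ1 χ2 a (FF.tht q1 q2) (FF.tht N 1) ε := by
    unfold Jf M17_P
    refine integral_congr_ae (ae_of_all _ fun u => ?_)
    have e : Real.exp u = Real.exp (u / 2) * Real.exp (u / 2) := by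
      rw [← Real.exp_add]; congr 1; ring
    have e2 : ((TT.tau u * Real.exp u : ℝ) : ℂ) =
        ((TT.tau u : ℝ) : ℂ) * (((Real.exp (u / 2) : ℝ) : ℂ) * ((Real.exp (u / 2) : ℝ) : ℂ)) := by
      rw [← ofReal_mul, ← e, ofReal_mul]
    simp only
    rw [e2, map_mul, conj_ofReal]
    ring
  rw [eJ] at fold
  exact le_trans fold (FF.F05_num (norm_nonneg _) hc0 hE0 hB0 hD0 hw1 hδw hδi hδA hD)

end NR
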