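import Pool.Agent.Lib.MP_0f5a55_nt.NR.M09
import Pool.Agent.Lib.MP_0f5a55_nt.NR.M12
import Pool.Agent.Lib.MP_0f5a55_nt.NR.M15
import Pool.Agent.Lib.MP_0f5a55_nt.NR.M17
import Pool.Agent.Lib.MP_0f5a55_nt.FF.F07
import Pool.Agent.Lib.MP_0f5a55_nt.FF.F08

open Complex MeasureTheory Set Filter Topology
open scoped Real ComplexConjugate

namespace NR

open NH

private theorem M18_pow_exp (a : ℝ) (ha : 0 < a) (n : ℕ) :
    ∃ C : ℝ, 0 ≤ C ∧ ∀ t : ℝ, (1 + |t|) ^ n * Real.exp (-(a * |t|)) ≤ C := by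
  refine ⟨(n.factorial : ℝ) / a ^ n * Real.exp a, by positivity, fun t => ?_⟩
  have h0 : 0 ≤ |t| := abs_nonneg t
  have h1 : (a * (1 + |t|)) ^ n / n.factorial ≤ Real.exp (a * (1 + |t|)) :=
    Real.pow_div_factorial_le_exp _ (by positivity) n
  have hf : (0 : ℝ) < n.factorial := by exact_mod_cast n.factorial_pos
  have han : 0 < a ^ n := by positivity
  have h2 : (1 + |t|) ^ n ≤ (n.factorial : ℝ) / a ^ n * Real.exp (a * (1 + |t|)) := by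
    rw [div_le_iff₀ hf, mul_pow] at h1
    rw [div_mul_eq_mul_div, le_div_iff₀ han]
    linarith
  calc (1 + |t|) ^ n * Real.exp (-(a * |t|))
      ≤ (n.factorial : ℝ) / a ^ n * Real.exp (a * (1 + |t|)) * Real.exp (-(a * |t|)) :=
        mul_le_mul_of_nonneg_right h2 (Real.exp_pos _).le
    _ = (n.factorial : ℝ) / a ^ n * Real.exp a := by
        rw [mul_assoc, ← Real.exp_add]
        congr 2
        ring

private theorem M18_int (a : ℝ) (ha : 0 < a) (n : ℕ) :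
    Integrable (fun t : ℝ => (1 + |t|) ^ n * Real.exp (-(a * |t|))) := by
  obtain ⟨C, hC0, hC⟩ := M18_pow_exp a ha (n + 2)
  have hi : Integrable (fun t : ℝ => C * (1 + t ^ 2)⁻¹) := integrable_inv_one_add_sq.const_mul C
  refine hi.mono' (by fun_prop) (Eventually.of_forall fun t => ?_)
  have h0 : 0 ≤ |t| := abs_nonneg t
  rw [Real.norm_of_nonneg (by positivity)]
  have h1 := hC t
  have h2 : (0:ℝ) < 1 + t ^ 2 := by positivity
  rw [← div_eq_mul_inv, le_div_iff₀ h2]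
  refine le_trans ?_ h1
  have h3 : 1 + t ^ 2 ≤ (1 + |t|) ^ 2 := by
    have : |t| ^ 2 = t ^ 2 := sq_abs t
    nlinarith
  calc (1 + |t|) ^ n * Real.exp (-(a * |t|)) * (1 + t ^ 2)
      ≤ (1 + |t|) ^ n * Real.exp (-(a * |t|)) * (1 + |t|) ^ 2 :=
        mul_le_mul_of_nonneg_left h3 (by positivity)
    _ = _ := by rw [pow_add]; ring

private theorem M18_wt_pos (ε t : ℝ) : 0 < FF.wt ε t := by
  unfold FF.wt
  exact div_pos (Real.exp_pos _) (Real.cosh_pos _)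

private theorem M18_wt_cont (ε : ℝ) : Continuous (FF.wt ε) := by
  unfold FF.wt
  refine Continuous.div (by fun_prop) (by fun_prop) fun t => (Real.cosh_pos _).ne'

/-- cosh(pi t) >= exp(pi |t|)/2 -/
private theorem M18_cosh (x : ℝ) : Real.exp |x| / 2 ≤ Real.cosh x := by
  rw [← Real.cosh_abs x, Real.cosh_eq]
  have := Real.exp_pos (-|x|)
  linarith

private theorem M18_wt_le (ε t : ℝ) : FF.wt ε t ≤ 2 * Real.exp ((π - 2 * ε) * t - π * |t|) := by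
  unfold FF.wt
  rw [div_le_iff₀ (Real.cosh_pos _), Real.exp_sub]
  have h1 := M18_cosh (π * t)
  have h2 : |π * t| = π * |t| := by rw [abs_mul, abs_of_pos Real.pi_pos]
  rw [h2] at h1
  have h3 : 0 < Real.exp (π * |t|) := Real.exp_pos _
  have h4 : 0 < Real.exp ((π - 2 * ε) * t) := Real.exp_pos _
  calc Real.exp ((π - 2 * ε) * t)
      = 2 * (Real.exp ((π - 2 * ε) * t) / Real.exp (π * |t|)) * (Real.exp (π * |t|) / 2) := by
        field_simp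
    _ ≤ _ := mul_le_mul_of_nonneg_left h1 (by positivity)

private theorem M18_wt_le2 {ε : ℝ} (h0 : 0 < ε) (h1 : ε ≤ 1 / 2) (t : ℝ) :
    FF.wt ε t ≤ 2 * Real.exp (-(2 * ε * |t|)) := by
  refine (M18_wt_le ε t).trans ?_
  have hpi := Real.pi_gt_three
  have : (π - 2 * ε) * t - π * |t| ≤ -(2 * ε * |t|) := by
    rcases le_total 0 t with h | h
    · rw [abs_of_nonneg h]; nlinarith
    · rw [abs_of_nonpos h]; nlinarith
  have := Real.exp_le_exp.mpr this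
  linarith

private theorem M18_wt_le3 {ε T0 : ℝ} (h0 : 0 < ε) (h1 : ε ≤ 1 / 2) (hT : 0 < T0) {t : ℝ} (ht : t ≤ T0) :
    FF.wt ε t ≤ 2 * Real.exp T0 * Real.exp (-|t|) := by
  refine (M18_wt_le ε t).trans ?_
  have hpi := Real.pi_gt_three
  have : (π - 2 * ε) * t - π * |t| ≤ T0 + -|t| := by
    rcases le_total 0 t with h | h
    · rw [abs_of_nonneg h]; nlinarith
    · rw [abs_of_nonpos h]; nlinarith
  have := Real.exp_le_exp.mpr this
  rw [Real.exp_add] at this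
  linarith

private theorem M18_wt_ge {ε t : ℝ} (ht : 0 ≤ t) : Real.exp (-(2 * ε * t)) ≤ FF.wt ε t := by
  unfold FF.wt
  rw [le_div_iff₀ (Real.cosh_pos _)]
  have h1 : Real.cosh (π * t) ≤ Real.exp (π * t) := by
    have hh : 0 ≤ π * t := by positivity
    rw [Real.cosh_eq]
    have : Real.exp (-(π * t)) ≤ Real.exp (π * t) := Real.exp_le_exp.mpr (by linarith)
    linarith
  calc Real.exp (-(2 * ε * t)) * Real.cosh (π * t)
      ≤ Real.exp (-(2 * ε * t)) * Real.exp (π * t) := mul_le_mul_of_nonneg_left h1 (Real.exp_pos _).le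
    _ = Real.exp ((π - 2 * ε) * t) := by rw [← Real.exp_add]; congr 1; ring

/-- The analytic core: the weighted integral over (T0, oo). -/
private theorem M18_core {Z : ℝ → ℝ} (hZc : Continuous Z) {CZ : ℝ} (hCZ : 0 ≤ CZ)
    (hZ : ∀ t, |Z t| ≤ CZ * (1 + |t|) ^ 4) {T0 : ℝ} (hT0 : 0 < T0)
    (hs : (∀ t, T0 < t → 0 ≤ Z t) ∨ (∀ t, T0 < t → Z t ≤ 0)) : ∃ K : ℝ, 0 ≤ K ∧
    ∀ ε : ℝ, 0 < ε → ε ≤ 1 / 2 → Integrable (fun t => FF.wt ε t * Z t) ∧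
      ∫ t in Ioi T0, FF.wt ε t * |Z t| ≤ |∫ t, FF.wt ε t * Z t| + K := by
  refine ⟨∫ t : ℝ, CZ * (2 * Real.exp T0) * ((1 + |t|) ^ 4 * Real.exp (-(1 * |t|))),
    integral_nonneg fun t => by positivity, fun ε h0 h1 => ?_⟩
  have hint : Integrable (fun t => FF.wt ε t * Z t) := by
    refine ((M18_int (2 * ε) (by positivity) 4).const_mul (2 * CZ)).mono'
      ((M18_wt_cont ε).mul hZc).aestronglyMeasurable (Eventually.of_forall fun t => ?_)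
    rw [norm_mul, Real.norm_of_nonneg (M18_wt_pos ε t).le, Real.norm_eq_abs]
    calc FF.wt ε t * |Z t| ≤ (2 * Real.exp (-(2 * ε * |t|))) * (CZ * (1 + |t|) ^ 4) :=
          mul_le_mul (M18_wt_le2 h0 h1 t) (hZ t) (abs_nonneg _) (by positivity)
      _ = _ := by ring
  refine ⟨hint, ?_⟩
  have hK : ‖∫ t in Iic T0, FF.wt ε t * Z t‖ ≤
      ∫ t : ℝ, CZ * (2 * Real.exp T0) * ((1 + |t|) ^ 4 * Real.exp (-(1 * |t|))) := by
    have hi : Integrable (fun t : ℝ => CZ * (2 * Real.exp T0) * ((1 + |t|) ^ 4 * Real.exp (-(1 * |t|)))) :=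
      (M18_int 1 one_pos 4).const_mul _
    calc ‖∫ t in Iic T0, FF.wt ε t * Z t‖
        ≤ ∫ t in Iic T0, CZ * (2 * Real.exp T0) * ((1 + |t|) ^ 4 * Real.exp (-(1 * |t|))) := by
          refine norm_integral_le_of_norm_le hi.integrableOn ?_
          refine (ae_restrict_iff' measurableSet_Iic).mpr (Eventually.of_forall fun t ht => ?_)
          rw [norm_mul, Real.norm_of_nonneg (M18_wt_pos ε t).le, Real.norm_eq_abs]
          calc FF.wt ε t * |Z t| ≤ (2 * Real.exp T0 * Real.exp (-|t|)) * (CZ * (1 + |t|) ^ 4) :=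
                mul_le_mul (M18_wt_le3 h0 h1 hT0 ht) (hZ t) (abs_nonneg _) (by positivity)
            _ = _ := by rw [one_mul]; ring
      _ ≤ _ := setIntegral_le_integral hi (Eventually.of_forall fun t => by positivity)
  have hsplit : ∫ t in Ioi T0, FF.wt ε t * Z t = (∫ t, FF.wt ε t * Z t) - ∫ t in Iic T0, FF.wt ε t * Z t := by
    have := integral_add_compl (measurableSet_Ioi (a := T0)) hint
    rw [compl_Ioi] at this
    linarith
  have habs : ∫ t in Ioi T0, FF.wt ε t * |Z t| = |∫ t in Ioi T0, FF.wt ε t * Z t| := by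
    rcases hs with hs | hs
    · rw [abs_of_nonneg]
      · exact setIntegral_congr_fun measurableSet_Ioi fun t ht => by
          simp only [abs_of_nonneg (hs t ht)]
      · exact setIntegral_nonneg measurableSet_Ioi fun t ht => mul_nonneg (M18_wt_pos ε t).le (hs t ht)
    · rw [abs_of_nonpos, ← integral_neg]
      · exact setIntegral_congr_fun measurableSet_Ioi fun t ht => by
          simp only [abs_of_nonpos (hs t ht)]; ring
      · exact setIntegral_nonpos measurableSet_Ioi fun t ht =>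
          mul_nonpos_of_nonneg_of_nonpos (M18_wt_pos ε t).le (hs t ht)
  rw [habs, hsplit]
  rw [Real.norm_eq_abs] at hK
  have := abs_sub (∫ t, FF.wt ε t * Z t) (∫ t in Iic T0, FF.wt ε t * Z t)
  linarith

/-- Lower bound. -/
private theorem M18_lower {Z : ℝ → ℝ} (hZc : Continuous Z) {T0 T : ℝ} (hT0 : 0 < T0) (hT : T0 < T)
    (hint : Integrable (fun t => FF.wt T⁻¹ t * Z t)) :
    Real.exp (-4) * ∫ t in Icc T (2 * T), |Z t| ≤ ∫ t in Ioi T0, FF.wt T⁻¹ t * |Z t| := by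
  have hTp : 0 < T := hT0.trans hT
  have hint' : Integrable (fun t => FF.wt T⁻¹ t * |Z t|) := by
    refine hint.norm.congr (Eventually.of_forall fun t => ?_)
    simp only [norm_mul, Real.norm_eq_abs, abs_of_pos (M18_wt_pos _ _)]
  have hsub : Icc T (2 * T) ⊆ Ioi T0 := fun t ht => lt_of_lt_of_le hT ht.1
  calc Real.exp (-4) * ∫ t in Icc T (2 * T), |Z t|
      = ∫ t in Icc T (2 * T), Real.exp (-4) * |Z t| := (integral_const_mul _ _).symm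
    _ ≤ ∫ t in Icc T (2 * T), FF.wt T⁻¹ t * |Z t| := by
        refine setIntegral_mono_on ?_ hint'.integrableOn measurableSet_Icc fun t ht => ?_
        · exact ((continuous_const.mul hZc.abs).continuousOn).integrableOn_Icc
        · refine mul_le_mul_of_nonneg_right ?_ (abs_nonneg _)
          refine le_trans (Real.exp_le_exp.mpr ?_) (M18_wt_ge (hTp.le.trans ht.1))
          have h1 : T⁻¹ * t ≤ 2 := by
            rw [inv_mul_le_iff₀ hTp]; linarith [ht.2]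
          linarith
    _ ≤ ∫ t in Ioi T0, FF.wt T⁻¹ t * |Z t| :=
        setIntegral_mono_set hint'.integrableOn
          (Eventually.of_forall fun t => mul_nonneg (M18_wt_pos _ _).le (abs_nonneg _))
          hsub.eventuallyLE

private theorem M18_comb {k C2 K1 K c e T I W V E2 E4 Lg z4 : ℝ} (hk : 0 ≤ k) (hC2 : 0 ≤ C2) (hK10 : 0 ≤ K1)
    (hK0 : 0 ≤ K) (he : 0 ≤ e) (hT1 : 1 ≤ T) (hV : V ≤ T)
    (h1 : W ≤ k * (C2 * (T * E2 * Lg) + C2 * V + K1) + K) (h2 : e * I ≤ W)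
    (h3 : c * T * (z4 * E4) ≤ I) :
    e * c * T * (z4 * E4) ≤ k * C2 * T * (E2 * Lg) + (k * (C2 + K1) + K) * T := by
  have h7 : e * (c * T * (z4 * E4)) ≤ e * I := mul_le_mul_of_nonneg_left h3 he
  have e1 : C2 * V ≤ C2 * T := mul_le_mul_of_nonneg_left hV hC2
  have e2 : K1 ≤ K1 * T := le_mul_of_one_le_right hK10 hT1
  have e3 : K ≤ K * T := le_mul_of_one_le_right hK0 hT1
  have e4 : k * (C2 * (T * E2 * Lg) + C2 * V + K1) ≤ k * (C2 * (T * E2 * Lg) + C2 * T + K1 * T) :=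
    mul_le_mul_of_nonneg_left (by linarith) hk
  calc e * c * T * (z4 * E4) = e * (c * T * (z4 * E4)) := by ring
    _ ≤ k * (C2 * (T * E2 * Lg) + C2 * T + K1 * T) + K * T := by linarith
    _ = _ := by ring

private theorem M18_fin {a b d s z T C3 : ℝ} (ha : 0 < a) (hb : 0 ≤ b) (hd : 0 ≤ d) (hT : 0 < T) (hz1 : 1 ≤ z)
    (hs0 : 0 ≤ s) (hs1 : s ≤ Real.log (z ^ 8) + C3)
    (h6 : a * T * (z ^ 4 * Real.exp (s / 4)) ≤ b * T * (Real.exp (s / 2) * (1 + Real.log (z ^ 8))) + d * T)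
    (hz : (b * Real.exp (C3 / 4) * 9 + d) / a < z) : False := by
  have hz0 : 0 < z := by linarith
  have hlz : Real.log (z ^ 8) = 8 * Real.log z := by
    rw [Real.log_pow]
    norm_num
  have hl0 : 0 ≤ Real.log z := Real.log_nonneg hz1
  have hl1 : Real.log z ≤ z := Real.log_le_self hz0.le
  rw [hlz] at hs1 h6
  clear hlz
  obtain ⟨l, hl⟩ : ∃ l, l = Real.log z := ⟨_, rfl⟩
  have e2 : Real.exp (2 * l) = z ^ 2 := by
    rw [hl, mul_comm, Real.exp_mul, Real.exp_log hz0]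
    norm_num
  rw [← hl] at hs1 h6 hl0 hl1
  have hE4 : Real.exp (s / 4) ≤ z ^ 2 * Real.exp (C3 / 4) := by
    rw [← e2, ← Real.exp_add]
    refine Real.exp_le_exp.mpr ?_
    linarith
  have hE1 : 1 ≤ Real.exp (s / 4) := Real.one_le_exp (by linarith)
  have hE2 : Real.exp (s / 2) = Real.exp (s / 4) * Real.exp (s / 4) := by
    rw [← Real.exp_add]; congr 1; ring
  rw [hE2] at h6
  obtain ⟨y, hy⟩ : ∃ y, y = Real.exp (s / 4) := ⟨_, rfl⟩
  obtain ⟨c3, hc3⟩ : ∃ y, y = Real.exp (C3 / 4) := ⟨_, rfl⟩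
  have hc3p : 0 < c3 := by rw [hc3]; exact Real.exp_pos _
  rw [← hy] at h6 hE4 hE1
  rw [← hc3] at hz hE4
  clear hE2 e2 hs1 hs0 hl hy hc3
  have hy0 : 0 < y := by linarith
  have h7 : a * (z ^ 4 * y) ≤ b * (y * y * (1 + 8 * l)) + d := by
    have : T * (a * (z ^ 4 * y)) ≤ T * (b * (y * y * (1 + 8 * l)) + d) := by
      calc T * (a * (z ^ 4 * y)) = a * T * (z ^ 4 * y) := by ring
        _ ≤ _ := h6
        _ = _ := by ring
    exact le_of_mul_le_mul_left this hT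
  have e1 : y * y * (1 + 8 * l) ≤ y * (z ^ 2 * c3) * (9 * z) := by
    have : 1 + 8 * l ≤ 9 * z := by linarith
    have h0 : 0 ≤ 1 + 8 * l := by linarith
    exact mul_le_mul (mul_le_mul_of_nonneg_left hE4 hy0.le) this h0 (by positivity)
  have h8 : a * (z ^ 4 * y) ≤ (b * c3 * 9 * z ^ 3 + d) * y := by
    have e3 : d ≤ d * y := le_mul_of_one_le_right hd hE1
    calc a * (z ^ 4 * y) ≤ b * (y * y * (1 + 8 * l)) + d := h7
      _ ≤ b * (y * (z ^ 2 * c3) * (9 * z)) + d * y := add_le_add (mul_le_mul_of_nonneg_left e1 hb) e3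
      _ = _ := by ring
  have h9 : a * z ^ 4 ≤ b * c3 * 9 * z ^ 3 + d := by
    have : (a * z ^ 4) * y ≤ (b * c3 * 9 * z ^ 3 + d) * y := by
      calc (a * z ^ 4) * y = a * (z ^ 4 * y) := by ring
        _ ≤ _ := h8
    exact le_of_mul_le_mul_right this hy0
  have hz3 : 1 ≤ z ^ 3 := one_le_pow₀ hz1
  have h10 : b * c3 * 9 * z ^ 3 + d ≤ (b * c3 * 9 + d) * z ^ 3 := by
    have e : d * 1 ≤ d * z ^ 3 := mul_le_mul_of_nonneg_left hz3 hd
    rw [add_mul]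
    linarith
  rw [div_lt_iff₀ ha] at hz
  have h12 : (b * c3 * 9 + d) * z ^ 3 < z * a * z ^ 3 := mul_lt_mul_of_pos_right hz (by linarith)
  have h13 : z * a * z ^ 3 = a * z ^ 4 := by ring
  rw [h13] at h12
  exact absurd (lt_of_le_of_lt (h9.trans h10) h12) (lt_irrefl _)

/-- The upper bound for the weighted integral of |Z|. -/
private theorem M18_up {Z : ℝ → ℝ} (hZc : Continuous Z) {CZ : ℝ} (hCZ : 0 ≤ CZ)
    (hZ : ∀ t, |Z t| ≤ CZ * (1 + |t|) ^ 4) {T0 : ℝ} (hT0 : 0 < T0)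
    (hs : (∀ t, T0 < t → 0 ≤ Z t) ∨ (∀ t, T0 < t → Z t ≤ 0)) {R : ℝ → ℝ → ℂ}
    (hRc : ∀ ε, Continuous (R ε)) {κ : ℂ} (hκ : κ ≠ 0) {C1 : ℝ} (hC1 : 0 ≤ C1)
    (hR : ∀ ε : ℝ, 0 < ε → ε ≤ 1 / 2 → ∀ t : ℝ, ‖R ε t - κ * ((FF.wt ε t * Z t : ℝ) : ℂ)‖ ≤
      C1 * (1 + |t|) ^ 12 * Real.exp (-|t|)) :
    ∃ K K1 : ℝ, 0 ≤ K ∧ 0 ≤ K1 ∧ ∀ ε : ℝ, 0 < ε → ε ≤ 1 / 2 → Integrable (fun t => FF.wt ε t * Z t) ∧
      ∀ B : ℝ, ‖∫ t, R ε t‖ ≤ B → ∫ t in Ioi T0, FF.wt ε t * |Z t| ≤ ‖κ‖⁻¹ * (B + K1) + K := by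
  obtain ⟨K, hK0, hK⟩ := M18_core hZc hCZ hZ hT0 hs
  refine ⟨K, ∫ t : ℝ, C1 * ((1 + |t|) ^ 12 * Real.exp (-(1 * |t|))), hK0,
    integral_nonneg fun t => by positivity, fun ε h0 h12 => ⟨(hK ε h0 h12).1, fun B hB => ?_⟩⟩
  obtain ⟨K1, hK1⟩ : ∃ y, y = ∫ t : ℝ, C1 * ((1 + |t|) ^ 12 * Real.exp (-(1 * |t|))) := ⟨_, rfl⟩
  have hκp : 0 < ‖κ‖ := norm_pos_iff.mpr hκ
  obtain ⟨hi, hle⟩ := hK ε h0 h12
  have hiC : Integrable (fun t => κ * ((FF.wt ε t * Z t : ℝ) : ℂ)) := hi.ofReal.const_mul κ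
  have hiE : Integrable (fun t => R ε t - κ * ((FF.wt ε t * Z t : ℝ) : ℂ)) := by
    refine ((M18_int 1 one_pos 12).const_mul C1).mono' ?_ (Eventually.of_forall fun t => ?_)
    · refine ((hRc ε).sub (continuous_const.mul ?_)).aestronglyMeasurable
      exact continuous_ofReal.comp ((M18_wt_cont ε).mul hZc)
    · have := hR ε h0 h12 t
      rw [one_mul, ← mul_assoc]
      exact this
  have hE : ‖∫ t, (R ε t - κ * ((FF.wt ε t * Z t : ℝ) : ℂ))‖ ≤ K1 := by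
    rw [hK1]
    refine norm_integral_le_of_norm_le ((M18_int 1 one_pos 12).const_mul C1)
      (Eventually.of_forall fun t => ?_)
    have := hR ε h0 h12 t
    rw [one_mul, ← mul_assoc]
    exact this
  have hiR : Integrable (R ε) := by
    have := hiE.add hiC
    refine this.congr (Eventually.of_forall fun t => ?_)
    simp
  rw [integral_sub hiR hiC, integral_const_mul] at hE
  have h5 : ‖κ * ∫ t, ((FF.wt ε t * Z t : ℝ) : ℂ)‖ ≤ ‖∫ t, R ε t‖ + K1 := by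
    have := norm_sub_norm_le (κ * ∫ t, ((FF.wt ε t * Z t : ℝ) : ℂ)) (∫ t, R ε t)
    rw [norm_sub_rev] at this
    linarith
  have h6 : ‖κ * ∫ t, ((FF.wt ε t * Z t : ℝ) : ℂ)‖ = ‖κ‖ * |∫ t, FF.wt ε t * Z t| := by
    rw [norm_mul, integral_complex_ofReal, Complex.norm_real, Real.norm_eq_abs]
  rw [h6] at h5
  have h8 : |∫ t, FF.wt ε t * Z t| ≤ ‖κ‖⁻¹ * (B + K1) := by
    rw [← div_eq_inv_mul, le_div_iff₀ hκp, mul_comm]
    exact h5.trans (add_le_add_left hB K1)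
  rw [← hK1]
  exact hle.trans (add_le_add_left h8 K)


private theorem M18_abs {Z : ℝ → ℝ} (hZc : Continuous Z) {CZ : ℝ} (hCZ : 0 ≤ CZ)
    (hZ : ∀ t, |Z t| ≤ CZ * (1 + |t|) ^ 4) {T0 : ℝ} (hT0 : 0 < T0)
    (hs : (∀ t, T0 < t → 0 ≤ Z t) ∨ (∀ t, T0 < t → Z t ≤ 0)) {R : ℝ → ℝ → ℂ}
    (hRc : ∀ ε, Continuous (R ε)) {κ : ℂ} (hκ : κ ≠ 0) {C1 : ℝ} (hC1 : 0 ≤ C1)
    (hR : ∀ ε : ℝ, 0 < ε → ε ≤ 1 / 2 → ∀ t : ℝ, ‖R ε t - κ * ((FF.wt ε t * Z t : ℝ) : ℂ)‖ ≤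
      C1 * (1 + |t|) ^ 12 * Real.exp (-|t|))
    {S : ℝ → ℝ} (hS0 : ∀ δ, 0 ≤ S δ) {C3 : ℝ} (hS : ∀ δ : ℝ, 0 < δ → δ ≤ 1 →
      S δ ≤ Real.log (1 / δ) + C3)
    {C2 ε0 : ℝ} (hC2 : 0 ≤ C2) (hε0 : 0 < ε0) (hε0' : ε0 ≤ 1 / 3)
    (hA : ∀ ε : ℝ, 0 < ε → ε ≤ ε0 → ‖∫ t, R ε t‖ ≤
      C2 * (ε⁻¹ * Real.exp (S (1 / Real.log (1 / ε)) / 2) * (1 + Real.log (Real.log (1 / ε)))) +
      C2 * ε ^ (-(3 / 4 : ℝ)))
    {c T1 : ℝ} (hc : 0 < c) (hT1 : 3 ≤ T1)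
    (hL : ∀ T : ℝ, T1 ≤ T → c * T * (Real.log T ^ (1 / 2 : ℝ) * Real.exp (S (1 / Real.log T) / 4)) ≤
      ∫ t in Icc T (2 * T), |Z t|) : False := by
  obtain ⟨K, K1, hK0, hK10, hup⟩ := M18_up hZc hCZ hZ hT0 hs hRc hκ hC1 hR
  have hk : 0 ≤ ‖κ‖⁻¹ := inv_nonneg.2 (norm_nonneg κ)
  obtain ⟨k, hkk⟩ : ∃ y, y = ‖κ‖⁻¹ := ⟨_, rfl⟩
  rw [← hkk] at hk hup
  have he : 0 < Real.exp (-4) := Real.exp_pos _
  obtain ⟨e, hee⟩ : ∃ y, y = Real.exp (-4) := ⟨_, rfl⟩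
  rw [← hee] at he
  -- choose T = exp(z^8)
  have hap : 0 < e * c := mul_pos he hc
  have hb0 : 0 ≤ k * C2 := mul_nonneg hk hC2
  have hd0 : 0 ≤ k * (C2 + K1) + K := add_nonneg (mul_nonneg hk (add_nonneg hC2 hK10)) hK0
  obtain ⟨q, hq⟩ : ∃ q, q = (k * C2 * Real.exp (C3 / 4) * 9 + (k * (C2 + K1) + K)) / (e * c) := ⟨_, rfl⟩
  have hq0 : 0 ≤ q := by
    rw [hq]
    exact div_nonneg (add_nonneg (mul_nonneg (mul_nonneg hb0 (Real.exp_pos _).le) (by norm_num)) hd0) hap.le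
  have hεi : 0 < ε0⁻¹ := inv_pos.2 hε0
  obtain ⟨z, hz⟩ : ∃ z, z = 1 + T0 + T1 + ε0⁻¹ + q := ⟨_, rfl⟩
  have hz1 : 1 ≤ z := by rw [hz]; linarith
  have hzT0 : T0 < z := by rw [hz]; linarith
  have hzT1 : T1 < z := by rw [hz]; linarith
  have hzε : ε0⁻¹ < z := by rw [hz]; linarith
  have hzq : q < z := by rw [hz]; linarith
  clear hz
  have hz8 : z ≤ z ^ 8 := by
    calc z = z ^ 1 := (pow_one z).symm
      _ ≤ z ^ 8 := pow_le_pow_right₀ hz1 (by norm_num)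
  obtain ⟨T, hTdef⟩ : ∃ T, T = Real.exp (z ^ 8) := ⟨_, rfl⟩
  have hTz : z < T := by
    have h1 := Real.add_one_le_exp (z ^ 8)
    rw [← hTdef] at h1
    exact lt_of_le_of_lt hz8 (lt_of_lt_of_le (lt_add_one _) h1)
  have hlog : Real.log T = z ^ 8 := by rw [hTdef]; exact Real.log_exp _
  have hTT0 : T0 < T := hzT0.trans hTz
  have hTT1 : T1 ≤ T := (hzT1.trans hTz).le
  have hTp : 0 < T := hT0.trans hTT0
  have hTε : T⁻¹ ≤ ε0 := by
    rw [inv_le_comm₀ hTp hε0]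
    exact (hzε.trans hTz).le
  have hT1' : 1 ≤ T := hz1.trans hTz.le
  have hTi : 0 < T⁻¹ := inv_pos.2 hTp
  have hTh : T⁻¹ ≤ 1 / 2 := hTε.trans (hε0'.trans (by norm_num))
  have h4 : Real.log (1 / T⁻¹) = z ^ 8 := by rw [one_div, inv_inv, hlog]
  have hA1 := hA T⁻¹ hTi hTε
  rw [h4, inv_inv] at hA1
  have h1 := (hup T⁻¹ hTi hTh).2 _ hA1
  have h2 := M18_lower hZc hT0 hTT0 (hup T⁻¹ hTi hTh).1
  have h3 := hL T hTT1
  rw [hlog] at h3
  rw [← hee] at h2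
  have h5 : (T⁻¹) ^ (-(3 / 4 : ℝ)) ≤ T := by
    rw [Real.inv_rpow hTp.le, Real.rpow_neg hTp.le, inv_inv]
    calc T ^ (3 / 4 : ℝ) ≤ T ^ (1 : ℝ) := Real.rpow_le_rpow_of_exponent_le hT1' (by norm_num)
      _ = T := Real.rpow_one T
  have hz0 : 0 < z := lt_of_lt_of_le one_pos hz1
  have hz80 : 0 < z ^ 8 := pow_pos hz0 8
  have hhalf : (z ^ 8) ^ (1 / 2 : ℝ) = z ^ 4 := by
    rw [← Real.rpow_natCast z 8, ← Real.rpow_mul hz0.le, ← Real.rpow_natCast z 4]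
    congr 1
    norm_num
  rw [hhalf] at h3
  have hs1 : S (1 / z ^ 8) ≤ Real.log (z ^ 8) + C3 := by
    have := hS (1 / z ^ 8) (one_div_pos.2 hz80) (by
      rw [div_le_one hz80]
      exact one_le_pow₀ hz1)
    rwa [one_div_one_div] at this
  have h6 := M18_comb hk hC2 hK10 hK0 he.le hT1' h5 h1 h2 h3
  rw [hq] at hzq
  exact M18_fin hap hb0 hd0 hTp hz1 (hS0 _) hs1 h6 hzq

/-- Row M18. Main theorem for two characters. -/
theorem odd_two {N : ℕ} {a : ℕ → ℂ} {L : ℂ → ℂ} (D : Dat N a L) {q1 q2 : ℕ}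
    [NeZero q1] [NeZero q2] {χ1 : DirichletCharacter ℂ q1} {χ2 : DirichletCharacter ℂ q2}
    (h1 : χ1.IsPrimitive) (h2 : χ2.IsPrimitive) (n12 : OO.Ne12 χ1 χ2) :
    {g : ℝ | 0 < g ∧ Odd (analyticOrderNatAt (LX.Lf χ1) (1 / 2 + g * I) +
      analyticOrderNatAt (LX.Lf χ2) (1 / 2 + g * I) + analyticOrderNatAt L (1 / 2 + g * I))}.Infinite := by
  intro hfin
  obtain ⟨u, v, W, C0, hu⟩ := D.ph
  obtain ⟨T0, hT0, hs⟩ := sign_f D hu h1 h2 hfin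
  obtain ⟨κ, C1, hκ, hC1, hR⟩ := Rf_prod D hu h1 h2
  obtain ⟨Cp, hCp, hp⟩ := parseval_f D h1 h2 n12
  obtain ⟨C3, hC3⟩ := Sp_le D
  have hJ : ∃ C ε0 : ℝ, 0 < ε0 ∧ ε0 ≤ 1 / 3 ∧ ∀ ε : ℝ, 0 < ε → ε ≤ ε0 →
      ‖Jf χ1 χ2 a (FF.tht q1 q2) (FF.tht N 1) ε‖ ≤
        C * (ε⁻¹ * Real.exp (Sp a (1 / Real.log (1 / ε)) / 2) * (1 + Real.log (Real.log (1 / ε)))) := by
    by_cases hsq : IsSquare (q1 * q2 * N * 1)
    · obtain ⟨r, s, hr, hs', hrs⟩ := FF.ratio_of_square (NeZero.pos q1) (NeZero.pos q2) D.pos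
        one_pos hsq
      have r1 : (0 : ℝ) < q1 := by exact_mod_cast NeZero.pos q1
      have r2 : (0 : ℝ) < q2 := by exact_mod_cast NeZero.pos q2
      have r3 : (0 : ℝ) < N := by exact_mod_cast D.pos
      refine rat_f D n12 ?_ ?_ hr hs' hrs
      · unfold FF.tht
        positivity
      · unfold FF.tht
        positivity
    · exact irr_f D n12 (FF.quad_of_nonsquare (NeZero.pos q1) (NeZero.pos q2) D.pos one_pos hsq)
  obtain ⟨CJ, ε0, hε0, hε0', hJ⟩ := hJ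
  -- the moduli as n + 1
  obtain ⟨m1, rfl⟩ : ∃ m, q1 = m + 1 := ⟨q1 - 1, (Nat.succ_pred (NeZero.ne q1)).symm⟩
  obtain ⟨m2, rfl⟩ : ∃ m, q2 = m + 1 := ⟨q2 - 1, (Nat.succ_pred (NeZero.ne q2)).symm⟩
  have hsymm : ∀ {a b : ℕ} {χ : DirichletCharacter ℂ a} {ψ : DirichletCharacter ℂ b},
      OO.Ne12 χ ψ → OO.Ne12 ψ χ := by
    rintro a b χ ψ ⟨n, hn, hne⟩
    exact ⟨n, by rwa [mul_comm], fun h => hne h.symm⟩
  set x : Fin 2 → GG.Ch := ![⟨m1, χ1⟩, ⟨m2, χ2⟩] with hx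
  have hne : ∀ i j, i ≠ j → OO.Ne12 (x i).2 (x j).2 := by
    intro i j hij
    fin_cases i <;> fin_cases j
    · exact absurd rfl hij
    · exact n12
    · exact hsymm n12
    · exact absurd rfl hij
  obtain ⟨c, T1, hc, hT1, hL⟩ := moment_f D (by norm_num : 0 < 2) x hne
  obtain ⟨G1, hG1, hg1⟩ := FF.Lf_growth χ1
  obtain ⟨G2, hG2, hg2⟩ := FF.Lf_growth χ2
  obtain ⟨G3, hG3, hg3⟩ := L_line D
  have hZabs : ∀ t, |FF.ZZ χ1 t * FF.ZZ χ2 t * Zf L v t| =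
      ‖LX.Lf χ1 (1 / 2 + t * I)‖ * ‖LX.Lf χ2 (1 / 2 + t * I)‖ * ‖L (1 / 2 + t * I)‖ := by
    intro t
    rw [abs_mul, abs_mul, FF.ZZ_abs h1, FF.ZZ_abs h2, (Zf_abs hu t).1]
  refine M18_abs (Z := fun t => FF.ZZ χ1 t * FF.ZZ χ2 t * Zf L v t)
    (((FF.ZZ_cont h1).mul (FF.ZZ_cont h2)).mul (Zf_cont D hu.cv))
    (CZ := G1 * G2 * G3) (by positivity) ?_ hT0 hs
    (R := fun ε t => FF.RR χ1 χ2 ε t * conj (Rf N L ε t))
    (fun ε => (FF.RR_cont χ1 χ2 ε).mul (continuous_conj.comp (Rf_cont D ε))) hκ hC1 hR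
    (S := Sp a) (Sp_nonneg a) (C3 := C3) hC3
    (C2 := Cp * |CJ| + Cp) (ε0 := ε0) (by positivity) hε0 hε0' ?_ (c := c) (T1 := T1) hc hT1 ?_
  · intro t
    rw [hZabs]
    have h0 : 0 ≤ 1 + |t| := by positivity
    calc ‖LX.Lf χ1 (1 / 2 + t * I)‖ * ‖LX.Lf χ2 (1 / 2 + t * I)‖ * ‖L (1 / 2 + t * I)‖
        ≤ (G1 * (1 + |t|)) * (G2 * (1 + |t|)) * (G3 * (1 + |t|) ^ 2) := by
          gcongr
          · exact hg1 t
          · exact hg2 t
          · exact hg3 t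
      _ = _ := by ring
  · intro ε h0 h1'
    refine (hp ε h0 (by linarith)).trans ?_
    have hlog : 1 ≤ Real.log (1 / ε) := by
      have h3 : (3 : ℝ) ≤ 1 / ε := by
        rw [le_div_iff₀ h0]; linarith
      rw [Real.le_log_iff_exp_le (by linarith)]
      have := Real.exp_one_lt_d9
      linarith
    have hll : 0 ≤ Real.log (Real.log (1 / ε)) := Real.log_nonneg hlog
    set V := ε⁻¹ * Real.exp (Sp a (1 / Real.log (1 / ε)) / 2) * (1 + Real.log (Real.log (1 / ε)))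
      with hV
    have hV0 : 0 ≤ V := by
      rw [hV]
      positivity
    have e1 : ‖Jf χ1 χ2 a (FF.tht (m1 + 1) (m2 + 1)) (FF.tht N 1) ε‖ ≤ |CJ| * V :=
      (hJ ε h0 h1').trans (mul_le_mul_of_nonneg_right (le_abs_self CJ) hV0)
    have e2 : Cp * ‖Jf χ1 χ2 a (FF.tht (m1 + 1) (m2 + 1)) (FF.tht N 1) ε‖ ≤ Cp * (|CJ| * V) :=
      mul_le_mul_of_nonneg_left e1 hCp
    have e3 : 0 ≤ Cp * V := by positivity
    have e4 : 0 ≤ Cp * |CJ| * ε ^ (-(3 / 4 : ℝ)) := by positivity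
    calc Cp * ‖Jf χ1 χ2 a (FF.tht (m1 + 1) (m2 + 1)) (FF.tht N 1) ε‖ + Cp * ε ^ (-(3 / 4 : ℝ))
        ≤ Cp * (|CJ| * V) + Cp * ε ^ (-(3 / 4 : ℝ)) := by linarith
      _ ≤ Cp * (|CJ| * V) + Cp * ε ^ (-(3 / 4 : ℝ)) +
          (Cp * V + Cp * |CJ| * ε ^ (-(3 / 4 : ℝ))) := by linarith
      _ = _ := by ring
  · intro T hT
    have := hL T hT
    have h44 : ((2 : ℕ) : ℝ) / 4 = 1 / 2 := by norm_num
    rw [h44] at this
    refine this.trans (le_of_eq ?_)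
    refine setIntegral_congr_fun measurableSet_Icc fun t _ => ?_
    rw [hZabs]
    simp only [GG.FL, Fin.prod_univ_two]
    rw [norm_mul, norm_mul]
    rfl

end NR
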