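import Pool.Agent.Lib.MP_0f5a55_nt.NR.D
import Pool.Agent.Lib.MP_0f5a55_nt.NH.MD
import Pool.Agent.Lib.MP_0f5a55_nt.GG.G09

open Complex MeasureTheory Set Filter Topology
open scoped Real ComplexConjugate

namespace NR

open NH

namespace P

/-- Row M03. Algebra of the coefficients. -/
theorem af_mult {a : ℕ → ℂ} (D : Pre a) : (af a).IsMultiplicative := by
  rw [ArithmeticFunction.IsMultiplicative.iff_ne_zero]
  constructor
  · show (if (1 : ℕ) = 0 then (0 : ℂ) else a 1) = 1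
    rw [if_neg one_ne_zero, D.one]
  · intro m n hm hn hmn
    show (if m * n = 0 then (0 : ℂ) else a (m * n)) = (if m = 0 then (0 : ℂ) else a m) *
      (if n = 0 then (0 : ℂ) else a n)
    rw [if_neg (mul_ne_zero hm hn), if_neg hm, if_neg hn,
      D.mul m n (Nat.pos_of_ne_zero hm) (Nat.pos_of_ne_zero hn) hmn]

theorem M03_lo_zero (α β : ℂ) : lo α β 0 = 1 := by
  simp [lo]

theorem bf_mult (α β : ℕ → ℂ) : (bf α β).IsMultiplicative := by
  rw [ArithmeticFunction.IsMultiplicative.iff_ne_zero]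
  constructor
  · show (if (1 : ℕ) = 0 then (0 : ℂ)
      else (1 : ℕ).factorization.prod (fun p r => lo (α p) (β p) r)) = _
    simp
  · intro m n hm hn hmn
    show (if m * n = 0 then (0 : ℂ)
      else (m * n).factorization.prod (fun p r => lo (α p) (β p) r))
      = (if m = 0 then (0 : ℂ)
      else m.factorization.prod (fun p r => lo (α p) (β p) r))
      * (if n = 0 then (0 : ℂ)
      else n.factorization.prod (fun p r => lo (α p) (β p) r))
    rw [if_neg (mul_ne_zero hm hn), if_neg hm, if_neg hn,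
      Nat.factorization_mul_of_coprime hmn,
      Finsupp.prod_add_index_of_disjoint]
    exact hmn.disjoint_primeFactors

theorem M03_bf_pp (α β : ℕ → ℂ) {p : ℕ} (hp : p.Prime) (r : ℕ) :
    bf α β (p ^ r) = lo (α p) (β p) r := by
  have h0 : p ^ r ≠ 0 := pow_ne_zero _ hp.ne_zero
  show (if p ^ r = 0 then (0 : ℂ)
    else (p ^ r).factorization.prod (fun p r => lo (α p) (β p) r)) = _
  rw [if_neg h0, hp.factorization_pow, Finsupp.prod_single_index]
  exact M03_lo_zero _ _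

/-- the square root of the geometric series -/
noncomputable def M03_ps (α : ℂ) : PowerSeries ℂ :=
  PowerSeries.mk (fun j => (j.centralBinom : ℂ) / 4 ^ j * α ^ j)

theorem M03_ps_sq (α : ℂ) : M03_ps α * M03_ps α = PowerSeries.mk (fun j => α ^ j) := by
  ext m
  rw [PowerSeries.coeff_mul, PowerSeries.coeff_mk]
  have h1 : ∀ x ∈ Finset.HasAntidiagonal.antidiagonal m, (PowerSeries.coeff x.1) (M03_ps α) *
      (PowerSeries.coeff x.2) (M03_ps α) =
      ((x.1.centralBinom * x.2.centralBinom : ℕ) : ℂ) / 4 ^ m * α ^ m := by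
    intro x hx
    rw [← Finset.HasAntidiagonal.mem_antidiagonal.1 hx, M03_ps, PowerSeries.coeff_mk, PowerSeries.coeff_mk,
      pow_add, pow_add]
    push_cast
    have h4 : (4 : ℂ) ^ x.1 ≠ 0 := pow_ne_zero _ (by norm_num)
    have h5 : (4 : ℂ) ^ x.2 ≠ 0 := pow_ne_zero _ (by norm_num)
    field_simp
  rw [Finset.sum_congr rfl h1, ← Finset.sum_mul, ← Finset.sum_div, ← Nat.cast_sum, GG.G09_conv]
  push_cast
  rw [div_self (pow_ne_zero _ (by norm_num)), one_mul]

theorem M03_lo_coeff (α β : ℂ) (r : ℕ) : lo α β r = PowerSeries.coeff r (M03_ps α * M03_ps β) := by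
  rw [PowerSeries.coeff_mul, Finset.Nat.sum_antidiagonal_eq_sum_range_succ_mk]
  simp only [M03_ps, PowerSeries.coeff_mk]
  rfl

theorem M03_bf_sq {a : ℕ → ℂ} (D : Pre a) {α β : ℕ → ℂ} (h : Loc a α β) :
    bf α β * bf α β = af a := by
  rw [ArithmeticFunction.IsMultiplicative.eq_iff_eq_on_prime_powers _
    ((bf_mult α β).mul (bf_mult α β)) _ (af_mult D)]
  intro p r hp
  have h0 : p ^ r ≠ 0 := pow_ne_zero _ hp.ne_zero
  rw [ArithmeticFunction.mul_apply, Nat.sum_divisorsAntidiagonal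
      (f := fun x y => bf α β x * bf α β y), Nat.sum_divisors_prime_pow hp]
  have h3 : ∀ k ∈ Finset.range (r + 1), bf α β (p ^ k) * bf α β (p ^ r / p ^ k)
      = PowerSeries.coeff k (M03_ps (α p) * M03_ps (β p)) *
        PowerSeries.coeff (r - k) (M03_ps (α p) * M03_ps (β p)) := by
    intro k hk
    have hk' : k ≤ r := Nat.lt_succ_iff.1 (Finset.mem_range.1 hk)
    rw [Nat.pow_div hk' hp.pos, M03_bf_pp α β hp, M03_bf_pp α β hp, M03_lo_coeff, M03_lo_coeff]
  rw [Finset.sum_congr rfl h3]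
  have h4 : ∑ k ∈ Finset.range (r + 1), PowerSeries.coeff k (M03_ps (α p) * M03_ps (β p)) *
        PowerSeries.coeff (r - k) (M03_ps (α p) * M03_ps (β p)) =
      PowerSeries.coeff r ((M03_ps (α p) * M03_ps (β p)) * (M03_ps (α p) * M03_ps (β p))) := by
    rw [PowerSeries.coeff_mul, Finset.Nat.sum_antidiagonal_eq_sum_range_succ_mk]
  rw [h4, mul_mul_mul_comm, M03_ps_sq, M03_ps_sq, PowerSeries.coeff_mul,
    Finset.Nat.sum_antidiagonal_eq_sum_range_succ_mk]
  show _ = (if p ^ r = 0 then (0 : ℂ) else a (p ^ r))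
  rw [if_neg h0, (h p hp).2.2 r]
  simp only [PowerSeries.coeff_mk]

theorem bx_sq {a : ℕ → ℂ} (D : Pre a) {α β : ℕ → ℂ} (h : Loc a α β) {k : ℕ}
    (x : Fin k → GG.Ch) : (GG.bb x * bf α β) * (GG.bb x * bf α β) = GG.aa x * af a := by
  rw [mul_mul_mul_comm, GG.bb_sq, M03_bf_sq D h]

theorem bx_prime {a : ℕ → ℂ} {α β : ℕ → ℂ} (h : Loc a α β) {k : ℕ} (x : Fin k → GG.Ch) {p : ℕ}
    (hp : p.Prime) : (GG.bb x * bf α β) p =
      1 / 2 * (∑ j, (x j).2 ((p : ℕ) : ZMod ((x j).1 + 1)) + a p) := by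
  rw [ArithmeticFunction.mul_apply, Nat.sum_divisorsAntidiagonal
      (f := fun x' y => GG.bb x x' * bf α β y), hp.sum_divisors, Nat.div_self hp.pos, Nat.div_one,
    (GG.bb_mult x).map_one, (bf_mult α β).map_one, GG.bb_prime x hp]
  have h1 := M03_bf_pp α β hp 1
  have h2 := (h p hp).2.2 1
  rw [pow_one] at h1 h2
  rw [h1, h2]
  simp only [lo, Finset.sum_range_succ, Finset.sum_range_zero, Nat.centralBinom_zero, pow_zero,
    Nat.cast_one, div_one, mul_one, one_mul, zero_add, Nat.sub_zero, Nat.sub_self, pow_one]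
  have h3 : (1 : ℕ).centralBinom = 2 := by decide
  rw [h3]
  push_cast
  ring

theorem M03_lo_le {α β : ℂ} (hα : ‖α‖ ≤ 1) (hβ : ‖β‖ ≤ 1) (r : ℕ) : ‖lo α β r‖ ≤ (r : ℝ) + 1 := by
  have hc : ∀ (j : ℕ) (γ : ℂ), ‖γ‖ ≤ 1 → ‖(j.centralBinom : ℂ) / 4 ^ j * γ ^ j‖ ≤ 1 := by
    intro j γ hγ
    rw [norm_mul, norm_div, norm_pow, norm_pow, Complex.norm_natCast]
    have h4 : ‖(4 : ℂ)‖ = 4 := by norm_num
    rw [h4]
    have h5 : (j.centralBinom : ℝ) / 4 ^ j ≤ 1 := by
      rw [div_le_one (by positivity)]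
      exact_mod_cast Nat.centralBinom_le_four_pow j
    exact mul_le_one₀ h5 (by positivity) (pow_le_one₀ (norm_nonneg _) hγ)
  refine (norm_sum_le _ _).trans ?_
  have h1 : ∀ j ∈ Finset.range (r + 1), ‖(j.centralBinom : ℂ) / 4 ^ j * α ^ j *
      (((r - j).centralBinom : ℂ) / 4 ^ (r - j) * β ^ (r - j))‖ ≤ 1 := by
    intro j _
    rw [norm_mul]
    exact mul_le_one₀ (hc j α hα) (norm_nonneg _) (hc (r - j) β hβ)
  refine (Finset.sum_le_sum h1).trans ?_
  rw [Finset.sum_const, Finset.card_range, nsmul_eq_mul]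
  push_cast
  exact le_of_eq (by ring)

theorem bx_le {a : ℕ → ℂ} {α β : ℕ → ℂ} (h : Loc a α β) {k : ℕ} (x : Fin k → GG.Ch) {p : ℕ}
    (hp : p.Prime) (r : ℕ) : ‖(GG.bb x * bf α β) (p ^ r)‖ ≤ ((r : ℝ) + 1) ^ (k + 2) := by
  rw [ArithmeticFunction.mul_apply, Nat.sum_divisorsAntidiagonal
      (f := fun x' y => GG.bb x x' * bf α β y), Nat.sum_divisors_prime_pow hp]
  refine (norm_sum_le _ _).trans ?_
  have h1 : ∀ i ∈ Finset.range (r + 1), ‖GG.bb x (p ^ i) * bf α β (p ^ r / p ^ i)‖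
      ≤ ((r : ℝ) + 1) ^ k * ((r : ℝ) + 1) := by
    intro i hi
    have hi' : i ≤ r := Nat.lt_succ_iff.1 (Finset.mem_range.1 hi)
    have hir : (i : ℝ) ≤ r := by exact_mod_cast hi'
    rw [Nat.pow_div hi' hp.pos, norm_mul, M03_bf_pp α β hp]
    have h2 := GG.bb_le x hp i
    have h3 : ((i : ℝ) + 1) ^ k ≤ ((r : ℝ) + 1) ^ k :=
      pow_le_pow_left₀ (by positivity) (by linarith) k
    have h4 := M03_lo_le (h p hp).1 (h p hp).2.1 (r - i)
    have h5 : (((r - i : ℕ) : ℝ) + 1) ≤ (r : ℝ) + 1 := by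
      have : ((r - i : ℕ) : ℝ) ≤ r := by exact_mod_cast Nat.sub_le r i
      linarith
    exact mul_le_mul (h2.trans h3) (h4.trans h5) (norm_nonneg _) (by positivity)
  refine (Finset.sum_le_sum h1).trans ?_
  rw [Finset.sum_const, Finset.card_range, nsmul_eq_mul, pow_succ, pow_succ]
  push_cast
  exact le_of_eq (by ring)

/-- comparison with the powers of zeta -/
theorem M03_cmp {f : ArithmeticFunction ℂ} (hf : f.IsMultiplicative) (m e : ℕ)
    (h : ∀ p r : ℕ, p.Prime → ‖f (p ^ r)‖ ≤ ((r : ℝ) + 1) ^ m) (n : ℕ) :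
    ‖f n‖ ^ (e + 1) ≤ GG.G09_D ((e + 1) * m) n := by
  rcases eq_or_ne n 0 with rfl | hn
  · simp
  rw [hf.multiplicative_factorization _ hn,
    (GG.G09_D_mult ((e + 1) * m)).multiplicative_factorization _ hn]
  unfold Finsupp.prod
  rw [norm_prod, ← Finset.prod_pow]
  apply Finset.prod_le_prod
  · intro _ _
    positivity
  · intro p hp
    have hpp : p.Prime := Nat.prime_of_mem_primeFactors (by simpa using hp)
    refine le_trans ?_ (GG.G09_D_pp ((e + 1) * m) hpp _)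
    rw [mul_comm (e + 1) m, pow_mul]
    exact pow_le_pow_left₀ (norm_nonneg _) (h p _ hpp) (e + 1)

theorem M03_sum {f : ArithmeticFunction ℂ} (hf : f.IsMultiplicative) (m e : ℕ)
    (h : ∀ p r : ℕ, p.Prime → ‖f (p ^ r)‖ ≤ ((r : ℝ) + 1) ^ m) {σ : ℝ} (hσ : 1 < σ) :
    Summable (fun n : ℕ => ‖f n‖ ^ (e + 1) * (n : ℝ) ^ (-σ)) := by
  have h1 := (GG.G09_D_lss ((e + 1) * m) (s := (σ : ℂ)) (by simpa using hσ)).norm
  refine Summable.of_nonneg_of_le (fun n => by positivity) (fun n => ?_) h1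
  rcases eq_or_ne n 0 with rfl | hn
  · simp
  · rw [LSeries.norm_term_eq, if_neg hn, Complex.ofReal_re, div_eq_mul_inv,
      ← Real.rpow_neg (Nat.cast_nonneg n), Complex.norm_real]
    apply mul_le_mul_of_nonneg_right _ (by positivity)
    exact (M03_cmp hf m e h n).trans (Real.le_norm_self _)

theorem bx_summable {a : ℕ → ℂ} {α β : ℕ → ℂ} (h : Loc a α β) {k : ℕ} (x : Fin k → GG.Ch) {σ : ℝ}
    (hσ : 1 < σ) : Summable (fun n : ℕ => ‖(GG.bb x * bf α β) n‖ * (n : ℝ) ^ (-σ)) := by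
  have h1 := M03_sum ((GG.bb_mult x).mul (bf_mult α β)) (k + 2) 0
    (fun _ r hp => bx_le h x hp r) hσ
  simpa using h1

theorem bx_sq_summable {a : ℕ → ℂ} {α β : ℕ → ℂ} (h : Loc a α β) {k : ℕ} (x : Fin k → GG.Ch) {σ : ℝ}
    (hσ : 1 < σ) : Summable (fun n : ℕ => ‖(GG.bb x * bf α β) n‖ ^ 2 * (n : ℝ) ^ (-σ)) :=
  M03_sum ((GG.bb_mult x).mul (bf_mult α β)) (k + 2) 1 (fun _ r hp => bx_le h x hp r) hσ

end P

end NR
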