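import Pool.Agent.Lib.MP_0f5a55_nt.NR.D
import Pool.Agent.Lib.MP_0f5a55_nt.NR.P03
import Pool.Agent.Lib.MP_0f5a55_nt.GG.G08

open Complex MeasureTheory Set Filter Topology
open scoped Real ComplexConjugate

namespace NR

open NH

namespace P

/-- what is used of a nonnegative multiplicative function -/
structure M05_H (f : ℕ → ℝ) (M : ℕ) : Prop where
  one : f 1 = 1
  zero : f 0 = 0
  nn : ∀ n, 0 ≤ f n
  mul : ∀ m n : ℕ, Nat.Coprime m n → f (m * n) = f m * f n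
  bd : ∀ p r : ℕ, p.Prime → f (p ^ r) ≤ ((r : ℝ) + 1) ^ M
  sm : ∀ δ : ℝ, 0 < δ → Summable (fun n : ℕ => f n * (n : ℝ) ^ (-(1 + δ)))

noncomputable def M05_g (f : ℕ → ℝ) (δ : ℝ) (n : ℕ) : ℝ := f n * (n : ℝ) ^ (-(1 + δ))

theorem M05_g_nonneg {f : ℕ → ℝ} {M : ℕ} (h : M05_H f M) (δ : ℝ) (n : ℕ) : 0 ≤ M05_g f δ n :=
  mul_nonneg (h.nn n) (Real.rpow_nonneg (Nat.cast_nonneg _) _)

theorem M05_hasProd {f : ℕ → ℝ} {M : ℕ} (h : M05_H f M) {δ : ℝ} (hδ : 0 < δ) :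
    HasProd (fun p : Nat.Primes => ∑' e : ℕ, M05_g f δ ((p : ℕ) ^ e)) (∑' n, M05_g f δ n) := by
  refine EulerProduct.eulerProduct_hasProd ?_ ?_ ?_ ?_
  · unfold M05_g
    rw [h.one]
    simp
  · intro m n hmn
    unfold M05_g
    rw [h.mul m n hmn, Nat.cast_mul,
      Real.mul_rpow (Nat.cast_nonneg _) (Nat.cast_nonneg _)]
    ring
  · refine (h.sm δ hδ).congr fun n => ?_
    exact (Real.norm_of_nonneg (M05_g_nonneg h δ n)).symm
  · unfold M05_g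
    rw [h.zero, zero_mul]

/-- one term -/
theorem M05_term {f : ℕ → ℝ} {M : ℕ} (h : M05_H f M) {δ : ℝ} (hδ : 0 < δ) {p : ℕ} (hp : p.Prime)
    (r : ℕ) : M05_g f δ (p ^ r) ≤ ((r : ℝ) + 1) ^ M * ((p : ℝ) ^ r)⁻¹ := by
  unfold M05_g
  have hp1 : (1 : ℝ) ≤ (p : ℝ) ^ r := one_le_pow₀ (by exact_mod_cast hp.one_lt.le)
  have h2 := h.bd p r hp
  have h3 : (((p ^ r : ℕ) : ℝ)) ^ (-(1 + δ)) ≤ ((p : ℝ) ^ r)⁻¹ := by
    rw [Nat.cast_pow, ← Real.rpow_neg_one]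
    exact Real.rpow_le_rpow_of_exponent_le hp1 (by linarith)
  exact mul_le_mul h2 h3 (Real.rpow_nonneg (Nat.cast_nonneg _) _) (by positivity)

theorem M05_K_summable (M : ℕ) : Summable (fun e : ℕ => ((e : ℝ) + 3) ^ M * (1 / 2 : ℝ) ^ e) := by
  have h := summable_pow_mul_geometric_of_norm_lt_one (R := ℝ) M
    (show ‖(1 / 2 : ℝ)‖ < 1 by rw [Real.norm_of_nonneg (by norm_num)]; norm_num)
  have h3 := (summable_nat_add_iff 3).mpr h
  refine (h3.mul_left 8).congr fun e => ?_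
  push_cast
  rw [pow_add]
  ring

/-- the local factor -/
theorem M05_local {f : ℕ → ℝ} {M : ℕ} (h : M05_H f M) {δ : ℝ} (hδ : 0 < δ) (p : Nat.Primes) :
    1 + M05_g f δ p ≤ ∑' e : ℕ, M05_g f δ ((p : ℕ) ^ e) ∧
    ∑' e : ℕ, M05_g f δ ((p : ℕ) ^ e) ≤ 1 + (M05_g f δ p +
      (∑' e : ℕ, ((e : ℝ) + 3) ^ M * (1 / 2 : ℝ) ^ e) * ((p : ℕ) : ℝ) ^ (-2 : ℝ)) := by
  have hinj : Function.Injective (fun e : ℕ => (p : ℕ) ^ e) := Nat.pow_right_injective p.2.two_le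
  have hs : Summable (fun e : ℕ => M05_g f δ ((p : ℕ) ^ e)) :=
    (h.sm δ hδ).comp_injective hinj
  have h2 := hs.sum_add_tsum_nat_add 2
  have hs2 : Summable (fun e : ℕ => M05_g f δ ((p : ℕ) ^ (e + 2))) :=
    (summable_nat_add_iff 2).mpr hs
  have h1 : M05_g f δ 1 = 1 := by
    unfold M05_g
    rw [h.one]
    simp
  rw [Finset.sum_range_succ, Finset.sum_range_one, pow_zero, pow_one, h1] at h2
  have hp2 : (2 : ℝ) ≤ ((p : ℕ) : ℝ) := by exact_mod_cast p.2.two_le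
  have hp0 : (0 : ℝ) < ((p : ℕ) : ℝ) := by linarith
  constructor
  · rw [← h2]
    have : 0 ≤ ∑' e : ℕ, M05_g f δ ((p : ℕ) ^ (e + 2)) := tsum_nonneg fun e => M05_g_nonneg h δ _
    linarith
  · rw [← h2, add_assoc]
    refine add_le_add le_rfl (add_le_add le_rfl ?_)
    rw [← tsum_mul_right]
    refine Summable.tsum_le_tsum (fun e => ?_) hs2 ((M05_K_summable M).mul_right _)
    refine (M05_term h hδ p.2 (e + 2)).trans ?_
    have e1 : (((e + 2 : ℕ) : ℝ) + 1) = (e : ℝ) + 3 := by push_cast; ring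
    rw [e1, mul_assoc]
    refine mul_le_mul_of_nonneg_left ?_ (by positivity)
    have e2 : ((p : ℕ) : ℝ) ^ (-2 : ℝ) = (((p : ℕ) : ℝ) ^ 2)⁻¹ := by
      rw [Real.rpow_neg hp0.le]
      norm_cast
    rw [e2, pow_add, mul_inv]
    refine mul_le_mul_of_nonneg_right ?_ (by positivity)
    rw [one_div, inv_pow]
    exact inv_anti₀ (by positivity) (pow_le_pow_left₀ (by norm_num) hp2 e)

theorem M05_g_prime_le {f : ℕ → ℝ} {M : ℕ} (h : M05_H f M) {δ : ℝ} (hδ : 0 < δ) (p : Nat.Primes) :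
    M05_g f δ p ^ 2 ≤ (4 : ℝ) ^ M * ((p : ℕ) : ℝ) ^ (-2 : ℝ) := by
  have h1 := M05_term h hδ p.2 1
  have hp0 : (0 : ℝ) < ((p : ℕ) : ℝ) := by exact_mod_cast p.2.pos
  rw [pow_one, pow_one] at h1
  have h2 := pow_le_pow_left₀ (M05_g_nonneg h δ _) h1 2
  refine h2.trans (le_of_eq ?_)
  have e2 : ((p : ℕ) : ℝ) ^ (-2 : ℝ) = (((p : ℕ) : ℝ) ^ 2)⁻¹ := by
    rw [Real.rpow_neg hp0.le]
    norm_cast
  rw [e2, mul_pow, inv_pow]
  congr 1
  have : ((1 : ℕ) : ℝ) + 1 = 2 := by norm_num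
  rw [this, ← pow_mul, show (4 : ℝ) = 2 ^ 2 by norm_num, ← pow_mul]
  ring_nf

/-- two-sided bound by the Euler product -/
theorem M05_bounds {f : ℕ → ℝ} {M : ℕ} (h : M05_H f M) :
    ∃ c1 C1 : ℝ, 0 < c1 ∧ 0 < C1 ∧ ∀ δ : ℝ, 0 < δ → δ ≤ 1 →
      Summable (fun p : Nat.Primes => M05_g f δ p) ∧
      c1 * Real.exp (∑' p : Nat.Primes, M05_g f δ p) ≤ ∑' n : ℕ, M05_g f δ n ∧
      ∑' n : ℕ, M05_g f δ n ≤ C1 * Real.exp (∑' p : Nat.Primes, M05_g f δ p) := by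
  have hZ : Summable (fun p : Nat.Primes => ((p : ℕ) : ℝ) ^ (-2 : ℝ)) :=
    Nat.Primes.summable_rpow.mpr (by norm_num)
  set Z : ℝ := ∑' p : Nat.Primes, ((p : ℕ) : ℝ) ^ (-2 : ℝ) with hZdef
  set K : ℝ := ∑' e : ℕ, ((e : ℝ) + 3) ^ M * (1 / 2 : ℝ) ^ e with hKdef
  have hZ0 : ∀ p : Nat.Primes, (0 : ℝ) ≤ ((p : ℕ) : ℝ) ^ (-2 : ℝ) := fun p =>
    Real.rpow_nonneg (Nat.cast_nonneg _) _
  have hK0 : 0 ≤ K := tsum_nonneg fun e => by positivity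
  refine ⟨Real.exp (-(4 ^ M * Z)), Real.exp (K * Z), Real.exp_pos _, Real.exp_pos _,
    fun δ hδ hδ1 => ?_⟩
  have hE := M05_hasProd h hδ
  have hsp : Summable (fun p : Nat.Primes => M05_g f δ p) :=
    (h.sm δ hδ).comp_injective Subtype.val_injective
  have hgn := fun p : Nat.Primes => M05_g_nonneg h δ (p : ℕ)
  refine ⟨hsp, ?_, ?_⟩
  · have hone : ∀ p : Nat.Primes, 1 ≤ ∑' e : ℕ, M05_g f δ ((p : ℕ) ^ e) := fun p =>
      (by linarith [hgn p] : (1 : ℝ) ≤ 1 + M05_g f δ p).trans (M05_local h hδ p).1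
    have hfin : ∀ S : Finset Nat.Primes,
        Real.exp (∑ p ∈ S, M05_g f δ p - 4 ^ M * Z) ≤ ∑' n, M05_g f δ n := by
      intro S
      refine le_trans ?_ (GG.G08_partial_le hE hone S)
      have h1 : Real.exp (∑ p ∈ S, (M05_g f δ p - M05_g f δ p ^ 2 / 2)) ≤
          ∏ p ∈ S, ∑' e : ℕ, M05_g f δ ((p : ℕ) ^ e) := by
        rw [Real.exp_sum]
        exact Finset.prod_le_prod (fun p _ => (Real.exp_pos _).le) fun p _ =>
          (GG.G08_log (hgn p)).trans (M05_local h hδ p).1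
      refine le_trans (Real.exp_le_exp.mpr ?_) h1
      rw [Finset.sum_sub_distrib]
      have h2 : ∑ p ∈ S, M05_g f δ p ^ 2 / 2 ≤ 4 ^ M * Z := by
        calc ∑ p ∈ S, M05_g f δ p ^ 2 / 2 ≤ ∑ p ∈ S, (4 : ℝ) ^ M * ((p : ℕ) : ℝ) ^ (-2 : ℝ) := by
              refine Finset.sum_le_sum fun p _ => ?_
              have := M05_g_prime_le h hδ p
              have h0 : 0 ≤ M05_g f δ p ^ 2 := sq_nonneg _
              linarith
          _ = 4 ^ M * ∑ p ∈ S, ((p : ℕ) : ℝ) ^ (-2 : ℝ) := by rw [Finset.mul_sum]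
          _ ≤ 4 ^ M * Z := by
              refine mul_le_mul_of_nonneg_left ?_ (by positivity)
              exact hZ.sum_le_tsum S fun p _ => hZ0 p
      linarith
    have hEpos : 0 < ∑' n, M05_g f δ n := lt_of_lt_of_le (Real.exp_pos _) (hfin ∅)
    have hle : ∑' p : Nat.Primes, M05_g f δ p ≤ Real.log (∑' n, M05_g f δ n) + 4 ^ M * Z := by
      refine hsp.tsum_le_of_sum_le fun S => ?_
      have := (Real.le_log_iff_exp_le hEpos).mpr (hfin S)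
      linarith
    rw [← Real.exp_add, ← Real.le_log_iff_exp_le hEpos]
    linarith
  · rw [← Real.exp_add]
    refine GG.G08_le_of_partial hE fun S => ?_
    have h1 : ∏ p ∈ S, ∑' e : ℕ, M05_g f δ ((p : ℕ) ^ e) ≤
        Real.exp (∑ p ∈ S, (M05_g f δ p + K * ((p : ℕ) : ℝ) ^ (-2 : ℝ))) := by
      rw [Real.exp_sum]
      refine Finset.prod_le_prod (fun p _ => tsum_nonneg fun e => M05_g_nonneg h δ _) fun p _ => ?_
      refine (M05_local h hδ p).2.trans ?_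
      rw [add_comm]
      exact Real.add_one_le_exp _
    refine h1.trans (Real.exp_le_exp.mpr ?_)
    rw [Finset.sum_add_distrib, ← Finset.mul_sum]
    have h2 := hsp.sum_le_tsum S fun p _ => hgn p
    have h3 := mul_le_mul_of_nonneg_left (hZ.sum_le_tsum S fun p _ => hZ0 p) hK0
    linarith

theorem M05_bx {a : ℕ → ℂ} (D : Pre a) {α β : ℕ → ℂ} (h : Loc a α β) {k : ℕ}
    (x : Fin k → GG.Ch) : M05_H (fun n => ‖(GG.bb x * bf α β) n‖ ^ 2) ((k + 2) * 2) := by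
  have hm : (GG.bb x * bf α β).IsMultiplicative := (GG.bb_mult x).mul (bf_mult α β)
  refine ⟨?_, ?_, fun n => sq_nonneg _, ?_, ?_, ?_⟩
  · simp [hm.map_one]
  · simp
  · intro m n hmn
    simp only [hm.map_mul_of_coprime hmn, norm_mul, mul_pow]
  · intro p r hp
    have h1 := bx_le h x hp r
    rw [pow_mul]
    exact pow_le_pow_left₀ (norm_nonneg _) h1 2
  · intro δ hδ
    exact bx_sq_summable h x (by linarith)

/-- Row M05. Mean square series and sum over the primes. -/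
theorem E_bounds_f {a : ℕ → ℂ} (D : Pre a) {α β : ℕ → ℂ} (h : Loc a α β) {k : ℕ}
    (x : Fin k → GG.Ch) : ∃ c1 C1 : ℝ, 0 < c1 ∧ ∀ δ : ℝ, 0 < δ → δ ≤ 1 →
      Summable (fun p : Nat.Primes => ‖(GG.bb x * bf α β) (p : ℕ)‖ ^ 2 * ((p : ℕ) : ℝ) ^ (-(1 + δ))) ∧
      c1 * Real.exp (∑' p : Nat.Primes, ‖(GG.bb x * bf α β) (p : ℕ)‖ ^ 2 * ((p : ℕ) : ℝ) ^ (-(1 + δ))) ≤
        ∑' n : ℕ, ‖(GG.bb x * bf α β) n‖ ^ 2 * (n : ℝ) ^ (-(1 + δ)) ∧
      ∑' n : ℕ, ‖(GG.bb x * bf α β) n‖ ^ 2 * (n : ℝ) ^ (-(1 + δ)) ≤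
        C1 * Real.exp (∑' p : Nat.Primes, ‖(GG.bb x * bf α β) (p : ℕ)‖ ^ 2 * ((p : ℕ) : ℝ) ^ (-(1 + δ))) := by
  obtain ⟨c1, C1, h1, h2, h3⟩ := M05_bounds (M05_bx D h x)
  exact ⟨c1, C1, h1, h3⟩

theorem M05_af_pp {a : ℕ → ℂ} (D : Pre a) {p : ℕ} (hp : p.Prime) (r : ℕ) :
    ‖af a (p ^ r)‖ ^ 2 ≤ ((r : ℝ) + 1) ^ 2 := by
  have hp0 : p ^ r ≠ 0 := pow_ne_zero _ hp.ne_zero
  have e : af a (p ^ r) = a (p ^ r) := by
    change (if p ^ r = 0 then (0 : ℂ) else a (p ^ r)) = a (p ^ r)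
    rw [if_neg hp0]
  have h1 := D.bd (p ^ r) (Nat.pos_of_ne_zero hp0)
  rw [Nat.divisors_prime_pow hp, Finset.card_map, Finset.card_range] at h1
  rw [e]
  refine pow_le_pow_left₀ (norm_nonneg _) (h1.trans (le_of_eq ?_)) 2
  push_cast
  rfl

theorem M05_af_le {a : ℕ → ℂ} (D : Pre a) (n : ℕ) :
    ‖af a n‖ ^ 2 ≤ GG.G09_D 2 n := by
  rcases eq_or_ne n 0 with rfl | hn
  · simp
  rw [(af_mult D).multiplicative_factorization _ hn,
    (GG.G09_D_mult 2).multiplicative_factorization _ hn]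
  unfold Finsupp.prod
  rw [norm_prod, ← Finset.prod_pow]
  apply Finset.prod_le_prod
  · intro p _
    positivity
  · intro p hp
    have hpp : p.Prime := Nat.prime_of_mem_primeFactors (by simpa using hp)
    exact (M05_af_pp D hpp _).trans (GG.G09_D_pp 2 hpp _)

theorem M05_af_sm {a : ℕ → ℂ} (D : Pre a) {σ : ℝ} (hσ : 1 < σ) :
    Summable (fun n : ℕ => ‖af a n‖ ^ 2 * (n : ℝ) ^ (-σ)) := by
  have h := (GG.G09_D_lss 2 (s := (σ : ℂ)) (by simpa using hσ)).norm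
  refine Summable.of_nonneg_of_le (fun n => by positivity) (fun n => ?_) h
  rcases eq_or_ne n 0 with rfl | hn
  · simp
  · rw [LSeries.norm_term_eq, if_neg hn, Complex.ofReal_re, div_eq_mul_inv,
      ← Real.rpow_neg (Nat.cast_nonneg n), Complex.norm_real]
    apply mul_le_mul_of_nonneg_right _ (by positivity)
    exact (M05_af_le D n).trans (Real.le_norm_self _)

theorem M05_af {a : ℕ → ℂ} (D : Pre a) :
    M05_H (fun n => ‖af a n‖ ^ 2) 2 := by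
  have hm := af_mult D
  refine ⟨?_, ?_, fun n => sq_nonneg _, ?_, ?_, ?_⟩
  · simp [hm.map_one]
  · simp
  · intro m n hmn
    simp only [hm.map_mul_of_coprime hmn, norm_mul, mul_pow]
  · intro p r hp
    exact M05_af_pp D hp r
  · intro δ hδ
    exact M05_af_sm D (by linarith)

/-- the same for the coefficients a themselves, upper bound -/
theorem ms_euler {a : ℕ → ℂ} (D : Pre a) : ∃ C1 : ℝ, 0 < C1 ∧ ∀ δ : ℝ, 0 < δ → δ ≤ 1 →
      Summable (fun n : ℕ => ‖a (n + 1)‖ ^ 2 * ((n : ℝ) + 1) ^ (-(1 + δ))) ∧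
      ∑' n : ℕ, ‖a (n + 1)‖ ^ 2 * ((n : ℝ) + 1) ^ (-(1 + δ)) ≤ C1 * Real.exp (Sp a δ) ∧
      Real.exp (Sp a δ) ≤ C1 * ∑' n : ℕ, ‖a (n + 1)‖ ^ 2 * ((n : ℝ) + 1) ^ (-(1 + δ)) := by
  obtain ⟨c1, C1, hc1, hC1, hb⟩ := M05_bounds (M05_af D)
  refine ⟨max C1 c1⁻¹, lt_max_of_lt_left hC1, fun δ hδ hδ1 => ?_⟩
  obtain ⟨hs, h1, h2⟩ := hb δ hδ hδ1
  have e0 : ∀ n : ℕ, af a (n + 1) = a (n + 1) := fun n => by
    change (if n + 1 = 0 then (0 : ℂ) else a (n + 1)) = a (n + 1)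
    rw [if_neg (Nat.succ_ne_zero n)]
  have e1 : ∀ n : ℕ, M05_g (fun n => ‖af a n‖ ^ 2) δ (n + 1) =
      ‖a (n + 1)‖ ^ 2 * ((n : ℝ) + 1) ^ (-(1 + δ)) := fun n => by
    unfold M05_g
    simp only [e0, Nat.cast_add, Nat.cast_one]
  have hsum : Summable (M05_g (fun n => ‖af a n‖ ^ 2) δ) := (M05_af D).sm δ hδ
  have hs1 : Summable (fun n : ℕ => M05_g (fun n => ‖af a n‖ ^ 2) δ (n + 1)) :=
    (summable_nat_add_iff 1).mpr hsum
  have e2 : ∑' n : ℕ, M05_g (fun n => ‖af a n‖ ^ 2) δ n =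
      ∑' n : ℕ, ‖a (n + 1)‖ ^ 2 * ((n : ℝ) + 1) ^ (-(1 + δ)) := by
    rw [hsum.tsum_eq_zero_add]
    have : M05_g (fun n => ‖af a n‖ ^ 2) δ 0 = 0 := by
      unfold M05_g
      simp
    rw [this, zero_add]
    exact tsum_congr e1
  have e3 : ∑' p : Nat.Primes, M05_g (fun n => ‖af a n‖ ^ 2) δ p = Sp a δ := by
    unfold Sp
    refine tsum_congr fun p => ?_
    unfold M05_g
    have : af a (p : ℕ) = a (p : ℕ) := by
      change (if (p : ℕ) = 0 then (0 : ℂ) else a p) = a p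
      rw [if_neg p.2.ne_zero]
    simp only [this]
  rw [e2, e3] at h1 h2
  refine ⟨hs1.congr e1, ?_, ?_⟩
  · exact h2.trans (mul_le_mul_of_nonneg_right (le_max_left _ _) (Real.exp_pos _).le)
  · have h3 : Real.exp (Sp a δ) ≤ c1⁻¹ * ∑' n : ℕ, ‖a (n + 1)‖ ^ 2 * ((n : ℝ) + 1) ^ (-(1 + δ)) := by
      rw [← div_eq_inv_mul, le_div_iff₀ hc1, mul_comm]
      exact h1
    refine h3.trans (mul_le_mul_of_nonneg_right (le_max_right _ _) ?_)
    exact tsum_nonneg fun n => by positivity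

end P

end NR
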