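import Mathlib
import Pool.Agent.Lib.MP_0f5a55_nt.HC.D

/-!
Definitions for indefinite binary forms and real quadratic fields.
-/

open Complex MeasureTheory Set Filter Topology
open scoped Real ComplexConjugate NumberField

namespace NR

open HC

/-- coefficients of two real linear forms -/
structure Pr where
  p1 : ℝ
  q1 : ℝ
  p2 : ℝ
  q2 : ℝ

/-- first linear form -/
noncomputable def Pr.l1 (P : Pr) (v : ℤ × ℤ) : ℝ := P.p1 * v.1 + P.q1 * v.2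

/-- second linear form -/
noncomputable def Pr.l2 (P : Pr) (v : ℤ × ℤ) : ℝ := P.p2 * v.1 + P.q2 * v.2

/-- F is the product of the two linear forms, of discriminant N, and τ is an automorph multiplying them by
exp(l), exp(-l) -/
structure Pr.Ok (P : Pr) (N : ℕ) (l : ℝ) (F : Fm) (τ : (ℤ × ℤ) ≃ (ℤ × ℤ)) : Prop where
  N0 : 0 < N
  l0 : 0 < l
  val : ∀ v, P.l1 v * P.l2 v = (F.val v : ℝ)
  det : (P.p1 * P.q2 - P.p2 * P.q1) ^ 2 = N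
  ne : ∀ v, F.val v = 0 → v = 0
  t1 : ∀ v, P.l1 (τ v) = Real.exp l * P.l1 v
  t2 : ∀ v, P.l2 (τ v) = Real.exp (-l) * P.l2 v

/-- fundamental domain -/
def Pr.Dom (P : Pr) (l : ℝ) : Set (ℤ × ℤ) :=
  {v | v ≠ 0 ∧ |P.l2 v| ≤ |P.l1 v| ∧ |P.l1 v| < Real.exp (2 * l) * |P.l2 v|}

/-- number of points of the fundamental domain with |F| = n -/
noncomputable def Pr.R (P : Pr) (l : ℝ) (F : Fm) (n : ℕ) : ℕ := {v : ℤ × ℤ | v ∈ P.Dom l ∧ (F.val v).natAbs = n}.ncard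

/-- positive definite form of determinant 1 at the parameter w -/
noncomputable def Pr.Q (P : Pr) (N : ℕ) (w : ℝ) (v : ℤ × ℤ) : ℝ :=
  (Real.exp w * P.l1 v ^ 2 + Real.exp (-w) * P.l2 v ^ 2) / √N

/-- its theta function -/
noncomputable def Pr.th (P : Pr) (N : ℕ) (w t : ℝ) : ℝ := ∑' v : ℤ × ℤ, Real.exp (-(π * t * P.Q N w v))

/-- twice the Bessel function of order 0 of the second kind -/
noncomputable def KK (x : ℝ) : ℝ := ∫ w : ℝ, Real.exp (-(x * Real.cosh w))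

/-- the Bessel series with coefficients a -/
noncomputable def GB (N : ℕ) (a : ℕ → ℂ) (t : ℝ) : ℂ := ∑' n : ℕ, a (n + 1) * ((KK (2 * π * t * ((n : ℝ) + 1) / √N) : ℝ) : ℂ)

/-- value of a form modulo M -/
def zv (F : Fm) (M : ℕ) (v : ZMod M × ZMod M) : ZMod M :=
  (F.A : ZMod M) * v.1 ^ 2 + (F.B : ZMod M) * v.1 * v.2 + (F.C : ZMod M) * v.2 ^ 2

/-- number of representations of k modulo M -/
noncomputable def ct (F : Fm) (M : ℕ) (k : ZMod M) : ℕ := {v : ZMod M × ZMod M | zv F M v = k}.ncard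

/-- number of representations of k or -k modulo M -/
noncomputable def SS (F : Fm) (M : ℕ) (k : ZMod M) : ℕ := ct F M k + ct F M (-k)

variable {K : Type*} [Field K] [NumberField K]

/-- ring class character, not necessarily primitive -/
structure RC (f : ℕ) (ψ : Ideal (𝓞 K) →*₀ ℂ) : Prop where
  pos : 0 < f
  cop : ∀ I, Cop f I → ‖ψ I‖ = 1
  ncop : ∀ I, ¬ Cop f I → ψ I = 0
  triv : ∀ α : 𝓞 K, Ord f α → Cop f (Ideal.span {α}) → ψ (Ideal.span {α}) = 1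

theorem RC.of {f : ℕ} {ψ : Ideal (𝓞 K) →*₀ ℂ} (h : RingClass f ψ) : RC f ψ := ⟨h.pos, h.cop, h.ncop, h.triv⟩

/-- the two real embeddings -/
structure RE (σ₁ σ₂ : K →+* ℝ) : Prop where
  ne : σ₁ ≠ σ₂
  norm : ∀ x : 𝓞 K, ((Algebra.norm ℤ x : ℤ) : ℝ) = σ₁ (x : K) * σ₂ (x : K)

/-- a unit congruent to 1 modulo f, of norm 1, first conjugate exp(l) -/
structure UE (σ₁ σ₂ : K →+* ℝ) (f : ℕ) (η : (𝓞 K)ˣ) (l : ℝ) : Prop where
  l0 : 0 < l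
  one : (f : 𝓞 K) ∣ (η : 𝓞 K) - 1
  e1 : σ₁ ((η : 𝓞 K) : K) = Real.exp l
  e2 : σ₂ ((η : 𝓞 K) : K) = Real.exp (-l)

/-- fundamental domain for the multiplication by η -/
def Fd (σ₁ σ₂ : K →+* ℝ) (l c : ℝ) : Set (𝓞 K) :=
  {x | x ≠ 0 ∧ c * |σ₂ (x : K)| ≤ |σ₁ (x : K)| ∧ |σ₁ (x : K)| < c * Real.exp (2 * l) * |σ₂ (x : K)|}

/-- F is the norm form of lat f a divided by the norm of a; P, τ the real data -/
structure RForm (σ₁ σ₂ : K →+* ℝ) (f : ℕ) (l : ℝ) (a : Ideal (𝓞 K)) (F : Fm) (P : Pr) (τ : (ℤ × ℤ) ≃ (ℤ × ℤ))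
    (v₁ v₂ : 𝓞 K) : Prop where
  lat : ∀ α : 𝓞 K, α ∈ lat f a ↔ ∃ x y : ℤ, α = x * v₁ + y * v₂
  norm : ∀ x y : ℤ, Algebra.norm ℤ ((x : 𝓞 K) * v₁ + y * v₂) = (Ideal.absNorm a : ℤ) * F.val (x, y)
  p1 : P.p1 = σ₁ (v₁ : K) / √(Ideal.absNorm a : ℝ)
  q1 : P.q1 = σ₁ (v₂ : K) / √(Ideal.absNorm a : ℝ)
  p2 : P.p2 = σ₂ (v₁ : K) / √(Ideal.absNorm a : ℝ)
  q2 : P.q2 = σ₂ (v₂ : K) / √(Ideal.absNorm a : ℝ)
  ok : P.Ok (lev K f) l F τ

/-- real forms of all representatives -/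
def RForms (σ₁ σ₂ : K →+* ℝ) (f : ℕ) (l : ℝ) (T : Finset (Ideal (𝓞 K))) (F : Ideal (𝓞 K) → Fm)
    (P : Ideal (𝓞 K) → Pr) (τ : Ideal (𝓞 K) → ((ℤ × ℤ) ≃ (ℤ × ℤ))) : Prop :=
  Reps f T ∧ ∀ a ∈ T, ∃ v₁ v₂ : 𝓞 K, RForm σ₁ σ₂ f l a (F a) (P a) (τ a) v₁ v₂

variable (K) in
/-- number of units of the order of conductor f in the fundamental domain -/
noncomputable def wu (σ₁ σ₂ : K →+* ℝ) (f : ℕ) (l : ℝ) : ℕ :=
  {u : 𝓞 K | IsUnit u ∧ Ord f u ∧ u ∈ Fd σ₁ σ₂ l 1}.ncard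

end NR
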